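import Pool.Agent.MP_a43263_nt.JC.JSpec
import Mathlib.Combinatorics.Enumerative.DoubleCounting
import Pool.Agent.MP_a43263_nt.RG.Sym
import Mathlib.Analysis.PSeries
import Pool.Agent.MP_a43263_nt.RG.Br

-- ======== part 0: formerly Pool.Agent.MP_a43263_nt.JU.Defs
section MrgPart0

/-! PROJECT JU (the universal family `y ^ 2 = ∏ (x - a i)`): definitions.
Blueprint: `/team-store/JU_BLUEPRINT.md`. -/

set_option autoImplicit false

noncomputable section

namespace Pool.Agent.MP_a43263_nt.JU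

open Finset Filter Polynomial
open R2 (Sgn chi Ker sg pri PP chs Sc Shape)
open JC (fp nb tv JQ JSha)

/-! ### the complete graph: vertices `Fin m`, edges `Ed m` -/

abbrev Ed (m : ℕ) : Type := {e : Fin m × Fin m // e.1 < e.2}

def NE (m : ℕ) : ℕ := Fintype.card (Ed m)

variable {m : ℕ}

instance decEd : DecidableEq (Ed m) := inferInstance

/-- the vertex `i` lies on the edge `e` -/
def inE (i : Fin m) (e : Ed m) : Prop := i = e.1.1 ∨ i = e.1.2

instance (i : Fin m) (e : Ed m) : Decidable (inE i e) :=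
  inferInstanceAs (Decidable (i = e.1.1 ∨ i = e.1.2))

/-- different edges with a common vertex -/
def lk (e f : Ed m) : Prop := e ≠ f ∧ (inE e.1.1 f ∨ inE e.1.2 f)

instance (e f : Ed m) : Decidable (lk e f) :=
  inferInstanceAs (Decidable (e ≠ f ∧ (inE e.1.1 f ∨ inE e.1.2 f)))

/-- the vertex of `f` outside `g` (for linked edges) -/
def ov (f g : Ed m) : Fin m := if inE f.1.1 g then f.1.2 else f.1.1

/-- the common vertex (for linked edges) -/
def cm (f g : Ed m) : Fin m := if inE f.1.1 g then f.1.1 else f.1.2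

/-- the vertices outside `e` -/
def out (e : Ed m) : Finset (Fin m) := univ.filter fun k => ¬inE k e

/-- the edges that are linked to an edge of `A` -/
def nbr (A : Finset (Ed m)) : Finset (Ed m) := univ.filter fun f => ∃ e ∈ A, lk e f

/-- the number of edges of `y` in the triangle spanned by `h` and `k` -/
def dk (y : Finset (Ed m)) (h : Ed m) (k : Fin m) : ℕ :=
  (y.filter fun e => (inE e.1.1 h ∨ e.1.1 = k) ∧ (inE e.1.2 h ∨ e.1.2 = k)).card

/-- the cuts -/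
def Yc (m : ℕ) : Finset (Finset (Ed m)) := univ.filter fun y => ∀ h, ∀ k ∈ out h, Even (dk y h k)

/-! ### generators: the tags `(e, none)` are fixed generators of class `e`, `tg e` is the form of
the edge `e`, the tags `(e, some σ)` carry the sign of the diagonal -/

abbrev Tag (m : ℕ) : Type := Ed m × Option Bool

abbrev Gen (m : ℕ) : Type := Tag m × ℕ

instance decTag : DecidableEq (Tag m) := inferInstance

instance decGen : DecidableEq (Gen m) := inferInstance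

def tg (e : Ed m) : Tag m := (e, some true)

def val (x : Gen m) : ℤ := if x.2 = 1 then -1 else x.2

def bs (i t : Fin m) : ℕ := if i < t ∨ (i = t ∧ Odd i.1) then 1 else 0

def bv (e : Ed m) (t : Fin m) : ℕ := bs e.1.1 t + bs e.1.2 t

def bb (e' e : Ed m) : ℕ := bv e' e.1.1 + bv e' e.1.2

/-- the value of the functional of the edge `e` at the generator `x` -/
def G (e : Ed m) (x : Gen m) : ℤ :=
  (if lk x.1.1 e then val x else 1) * if x.2 % 4 = 3 then (-1) ^ bb x.1.1 e else 1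

/-- the descent matrix with diagonal `dg` -/
def gm (dg : Gen m → ℤ) (x y : Gen m) : ℤ :=
  if x = y then sg (dg x)
  else if Odd y.2 ∧ 1 < y.2 then sg (jacobiSym (G y.1.1 x) y.2)
  else if Odd x.2 ∧ 1 < x.2 then sg (jacobiSym (G x.1.1 y) x.2) else 1

def Gv (e : Ed m) (x : Finset (Gen m)) : ℤ := ∏ a ∈ x, G e a

/-- no number occurs twice -/
def Dist (V : Finset (Gen m)) : Prop := ∀ a ∈ V, ∀ b ∈ V, a.2 = b.2 → a = b

def gens (l : Ed m → ℕ) : Finset (Gen m) :=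
  univ.biUnion fun h => (l h).primeFactors.image fun p => (tg h, p)

/-- generators of size at most `Y` -/
def le (Y : ℕ) (V : Finset (Gen m)) : Finset (Gen m) := V.filter fun a => a.2 ≤ Y

/-- generators of size between `Y` and `Y'` -/
def md (Y Y' : ℕ) (V : Finset (Gen m)) : Finset (Gen m) := V.filter fun a => Y < a.2 ∧ a.2 ≤ Y'

/-- all generators that belong to a form of `y` -/
def ones (V : Finset (Gen m)) (y : Finset (Ed m)) : Finset (Gen m) :=
  V.filter fun a => a.1 ∈ y.image tg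

/-- tag and label -/
abbrev TL (m : ℕ) : Type := Tag m × Bool × Bool

instance decTL : DecidableEq (TL m) := inferInstance

def tl (U U' : Finset (Gen m)) (s : Gen m) : TL m := (s.1, decide (s ∈ U), decide (s ∈ U'))

def pat (W U U' : Finset (Gen m)) : Finset (TL m) := W.image (tl U U')

/-- the exponent of the symbol between medium primes of types `f` and `g` -/
def expo (y y' : Finset (Ed m)) (f g : TL m) : ℕ :=
  f.2.1.toNat * g.2.2.toNat + f.2.2.toNat * g.2.1.toNat + g.2.1.toNat * g.2.2.toNat +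
    g.2.2.toNat * dk y g.1.1 (ov f.1.1 g.1.1) + g.2.1.toNat * dk y' g.1.1 (ov f.1.1 g.1.1)

def Osc (y y' : Finset (Ed m)) (π : Finset (TL m)) : Prop :=
  ∃ f ∈ π, ∃ g ∈ π, lk f.1.1 g.1.1 ∧ Odd (expo y y' f g)

/-- the normalised term -/
def term (g : Gen m → Gen m → ℤ) (V : Finset (Gen m)) (y y' : Finset (Ed m))
    (U U' : Finset (Gen m)) : ℝ :=
  (chi g (symmDiff U (ones V y)) (symmDiff U' (ones V y')) : ℝ) / 2 ^ V.card

open Classical in
/-- the oscillating part of the count of the kernel -/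
def osc (g : Gen m → Gen m → ℤ) (Y Y' : ℕ) (V : Finset (Gen m)) : ℝ :=
  ∑ y : Finset (Ed m), ∑ y' : Finset (Ed m), ∑ U ∈ (le Y' V).powerset, ∑ U' ∈ (le Y' V).powerset,
    if Osc y y' (pat (md Y Y' V) U U') then term g V y y' U U' else 0

/-- the vectors of the kernel made of whole forms and small generators -/
def rset (g : Gen m → Gen m → ℤ) (Y : ℕ) (V : Finset (Gen m)) :
    Finset (Finset (Ed m) × Finset (Gen m)) :=
  (Yc m ×ˢ (le Y V).powerset).filter fun x => symmDiff x.2 (ones V x.1) ∈ Ker g V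

/-! ### the points `a` with `a i - a j = Δ e * l e` -/

/-- the constant of the node of the edge `e` -/
def gam (a : Fin m → ℤ) (e : Ed m) : ℤ := ∏ k ∈ out e, (a e.1.1 - a k)

def ga (a : Fin m → ℤ) (e : Ed m) : ℤ := (-1) ^ bb e e * gam a e

/-- the cube of side `2 L + 1` -/
def box (m L : ℕ) : Finset (Fin m → ℤ) := Fintype.piFinset fun _ => Icc (-L : ℤ) L

/-- modulus, size of the box, fixed factors, fixed generators and their diagonal -/
structure Dat (m : ℕ) where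
  M : ℕ
  R : ℕ
  Δ : Ed m → ℕ
  W0 : Finset (Gen m)
  dg0 : Gen m → ℤ

/-- all small primes divide `M` -/
def Sm (m M : ℕ) : Prop := ∀ p : ℕ, p.Prime → p ≤ 2 * m ^ 2 → p ∣ M

namespace Dat

variable (D : Dat m)

structure Ok : Prop where
  three : 3 ≤ m
  pos : 0 < D.M
  one : 1 ≤ D.R
  sm : Sm m D.M
  dv : ∀ e, D.Δ e ∣ D.M
  fix : ∀ x ∈ D.W0, x.1.2 = none ∧ (x.2 = 1 ∨ (x.2.Prime ∧ x.2 ∣ D.M))
  ind : ∀ U ⊆ D.W0, (∀ e, IsSquare (Gv e U)) → U = ∅

def l (a : Fin m → ℤ) (e : Ed m) : ℕ := ((a e.1.1 - a e.1.2) / D.Δ e).toNat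

/-- the diagonal at the point `a` -/
def dga (a : Fin m → ℤ) (x : Gen m) : ℤ :=
  if x.1.2 = none then D.dg0 x else jacobiSym (ga a x.1.1) x.2

def g (a : Fin m → ℤ) : Gen m → Gen m → ℤ := gm (D.dga a)

/-- the diagonal that is read off the tag -/
def dgs (x : Gen m) : ℤ := if x.1.2 = none then D.dg0 x else if x.1.2 = some true then 1 else -1

def gs : Gen m → Gen m → ℤ := gm D.dgs

def VV (a : Fin m → ℤ) : Finset (Gen m) := D.W0 ∪ gens (D.l a)

end Dat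

/-- the generator with the sign of its diagonal in the tag -/
def sgt (a : Fin m → ℤ) (x : Gen m) : Gen m :=
  ((x.1.1, some (decide (jacobiSym (ga a x.1.1) x.2 = 1))), x.2)

/-- the small primes of the forms, with signs -/
def Dat.sml (D : Dat m) (a : Fin m → ℤ) (Y : ℕ) : Finset (Gen m) :=
  (le Y (gens (D.l a))).image (sgt a)

structure Adm (D : Dat m) (a : Fin m → ℤ) : Prop where
  eq : ∀ e : Ed m, a e.1.1 - a e.1.2 = D.Δ e * D.l a e
  one : ∀ e, D.l a e ≡ 1 [MOD 8 * D.M]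
  sqf : ∀ e, Squarefree (D.l a e)
  cop : ∀ e f, lk e f → (D.l a e).Coprime (D.l a f)

open Classical in
/-- the set of points that is studied -/
def AA (S : Sc) (D : Dat m) : Finset (Fin m → ℤ) :=
  (box m (D.R * S.Z)).filter fun a => (∀ e : Ed m, a e.1.1 - a e.1.2 = D.Δ e * D.l a e) ∧
    (∀ e, D.l a e ≡ 1 [MOD 8 * D.M]) ∧ (∀ e, Shape S (D.l a e)) ∧
    (∀ e f, lk e f → (D.l a e).Coprime (D.l a f)) ∧
    ∀ e f, e ≠ f → ∀ p : ℕ, p.Prime → p ≤ S.Y' → p ∣ D.l a e → ¬p ∣ D.l a f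

/-- the constant part of the character of a set of whole forms at the primes of the form `h` -/
def Cy (D : Dat m) (y : Finset (Ed m)) (h : Ed m) : ℤ :=
  ∏ e ∈ y.filter (fun e => lk e h), if inE e.1.1 h then (D.Δ e : ℤ) else -D.Δ e

/-- the symbol of a triangle -/
def sy (D : Dat m) (a : Fin m → ℤ) (h : Ed m) (k : Fin m) : ℤ :=
  jacobiSym (a h.1.1 - a k) (D.l a h)

/-- the product of the diagonal symbols -/
def sgn (D : Dat m) (a : Fin m → ℤ) : ℤ := ∏ h, jacobiSym (gam a h) (D.l a h)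

/-- geometric classes -/
def Geo (D : Dat m) (y : Finset (Ed m)) (U : Finset (Gen m)) : Prop :=
  ∀ e, IsSquare (Gv e U * Cy D y e)

open Classical in
/-- the number of classes that are not geometric and satisfy the rows of `W0`, `W` and `W'` -/
def nbad (D : Dat m) (W W' : Finset (Gen m)) : ℕ :=
  ((Yc m ×ˢ (D.W0 ∪ W).powerset).filter fun x => ¬Geo D x.1 x.2 ∧
    (∀ b ∈ D.W0, ∏ a ∈ x.2, D.gs a b = 1) ∧
    ∀ b ∈ W ∪ W', ∏ a ∈ x.2, D.gs a b = jacobiSym (Cy D x.1 b.1.1) b.2).card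

/-- the vectors of the kernel whose primes outside `W0` have classes in `A` -/
def KA (D : Dat m) (A : Finset (Ed m)) (W : Finset (Gen m)) : Finset (Finset (Gen m)) :=
  (Ker D.gs (D.W0 ∪ W)).filter fun x => ∀ b ∈ x, b ∈ D.W0 ∨ b.1.1 ∈ A

/-! ### the dominating product measure -/

def TT (m : ℕ) (P : Finset ℕ) : Finset (Gen m) := univ.image tg ×ˢ P

/-- both signs -/
def TS (m : ℕ) (P : Finset ℕ) : Finset (Gen m) := (univ.filter fun t : Tag m => t.2 ≠ none) ×ˢ P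

def wt (m p : ℕ) : ℝ := 1 / ((p : ℝ) - NE m)

def Wt (Z : Finset (Gen m)) : ℝ := ∏ a ∈ Z, wt m a.2

def Ws (Z : Finset (Gen m)) : ℝ := ∏ a ∈ Z, wt m a.2 / 2

def Mass (m : ℕ) (P : Finset ℕ) : ℝ := ∏ p ∈ P, (1 + wt m p) ^ NE m

def Mss (m : ℕ) (P : Finset ℕ) : ℝ := ∏ p ∈ P, (1 + wt m p / 2) ^ (2 * NE m)

/-- an exceptional character is supported on `M` and `Z` -/
def Exc (M : ℕ) (ε : ℝ) (y y' : ℕ) (Z : Finset (Gen m)) : Prop :=
  ∃ G : ℤ, Squarefree G.natAbs ∧ G ≠ 1 ∧ (∀ p ∈ G.natAbs.primeFactors, p ∣ M ∨ ∃ t, (t, p) ∈ Z) ∧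
    ε < |chs G y y'|

/-! ### oscillation -/

/-- the product of the medium primes of type `f` -/
def nOf (S : Sc) (V U U' : Finset (Gen m)) (f : TL m) : ℕ :=
  ∏ b ∈ (md S.Y S.Y' V).filter (fun b => tl U U' b = f), b.2

/-- the generators that are frozen -/
def outer (S : Sc) (V U U' : Finset (Gen m)) (f g : TL m) (s : Gen m) : Finset (Gen m) :=
  (le S.Y' V).filter fun b => b.2 ≤ S.Y ∨ (b.1 = f.1 ∧ tl U U' b ≠ f) ∨ (b.1 = g.1 ∧ b ≠ s) ∨
    (b.1 ≠ g.1 ∧ ¬inE (ov f.1.1 g.1.1) b.1.1)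

open Classical in
/-- the sum of all terms with given frozen data -/
def keySum (S : Sc) (D : Dat m) (t : ℕ) (y y' : Finset (Ed m)) (f g : TL m)
    (ok : Finset (TL m) → Prop) (O O₁ O₂ : Finset (Gen m)) (i : ℕ) : ℝ :=
  ∑ a ∈ AA S D, ∑ U ∈ (le S.Y' (D.VV a)).powerset, ∑ U' ∈ (le S.Y' (D.VV a)).powerset,
    ∑ s ∈ md S.Y S.Y' (D.VV a),
      if ok (pat (md S.Y S.Y' (D.VV a)) U U') ∧ tl U U' s = g ∧
          outer S (D.VV a) U U' f g s = O ∧ O ∩ U = O₁ ∧ O ∩ U' = O₂ ∧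
          2 ^ i < nOf S (D.VV a) U U' f ∧ nOf S (D.VV a) U U' f ≤ 2 ^ (i + 1)
        then (sgn D a : ℝ) ^ t * term (D.g a) (D.VV a) y y' U U' else 0

/-! ### descent -/

section
variable {K ι : Type} [Field K] [Fintype ι]

/-- up to squares and a common factor, `D` is a product of the vectors of norms of `x - a i` at
closed points of the curve `y ^ 2 = fp a` -/
def Wq (a D : ι → K) : Prop := ∃ (κ : K) (U : K[X]), κ ≠ 0 ∧ U.Monic ∧
  (∀ π : K[X], π.Monic → Irreducible π → π ∣ U → ∃ V : K[X], π ∣ fp a - V ^ 2) ∧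
  ∀ i, U.eval (a i) ≠ 0 ∧ D i ≠ 0 ∧ IsSquare (κ * D i * nb U (a i))

/-- equal up to squares and a common factor -/
def PE (D E : ι → K) : Prop := ∀ i j, IsSquare (D i * D j * (E i * E j))

/-- the image of a sum of Weierstrass points -/
def tS (a : ι → K) (S : Finset ι) (i : ι) : K := ∏ j ∈ S, tv a j i

/-- everywhere locally in `Wq` -/
def EQ (a D : ι → ℚ) : Prop := Wq (fun i => (a i : ℝ)) (fun i => (D i : ℝ)) ∧
  ∀ (p : ℕ) [Fact p.Prime], Wq (fun i => (a i : ℚ_[p])) fun i => (D i : ℚ_[p])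

/-- the roots of the monic model in which the last root is moved to infinity -/
def cv {n : ℕ} (a : Fin (n + 1) → K) (i : Fin n) : K :=
  -∏ j ∈ univ.erase i, (a j.castSucc - a (Fin.last n))

end

/-- a monic model of odd degree of `y ^ 2 = fp a` -/
def model {n : ℕ} (a : Fin (n + 1) → ℚ) : ℚ[X] := if Even n then fp a else fp (cv a)

/-- trivial 2-primary part of Sha, `2 ^ t` rational 2-torsion points, index `2 ^ n` of `2 J(ℚ)` -/
def Good (f : ℚ[X]) (t n : ℕ) : Prop := (∀ k : ℕ, ∀ x ∈ JSha f, 2 ^ k • x = 0 → x = 0) ∧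
  Nat.card {P : JQ f // 2 • P = 0} = 2 ^ t ∧
  (nsmulAddMonoidHom 2 : JQ f →+ JQ f).range.index = 2 ^ n

/-- the edges from `2 k` to `2 k + 1` that avoid the last vertex -/
def Pe (m : ℕ) : Finset (Ed m) :=
  univ.filter fun e => Even e.1.1.1 ∧ e.1.2.1 = e.1.1.1 + 1 ∧ e.1.2.1 + 1 < m

/-- the generators at the places of `N` and at infinity -/
def V0 (m N : ℕ) : Finset (Gen m) :=
  (Pe m).image (fun e => (e, none)) ×ˢ insert 1 N.primeFactors

/-- the curves to which the descent applies -/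
structure Loc (N : ℕ) (V : Finset (Gen m)) (dg : Gen m → ℤ) (a : Fin m → ℤ) (A : Ed m → ℕ) :
    Prop where
  three : 3 ≤ m
  pos : 0 < N
  two : 2 ∣ N
  pr : ∀ x ∈ V, x.2.Prime ∧ ¬x.2 ∣ N
  sep : ∀ x ∈ V, ∀ y ∈ V, x.2 = y.2 → x = y ∨ (x.1.1 ≠ y.1.1 ∧ ¬lk x.1.1 y.1.1)
  hA : ∀ e, A e = ∏ x ∈ V.filter (fun x => x.1.1 = e), x.2
  eq : ∀ e : Ed m, a e.1.1 - a e.1.2 = ((8 * N) ^ 2) ^ (m - 1 - e.1.2.1) * A e
  one : ∀ e, A e ≡ 1 [MOD 8 * N]
  dia : ∀ x ∈ V, dg x = jacobiSym (ga a x.1.1) x.2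
  dia0 : ∀ x ∈ V0 m N, dg x = 1

/-- a base point -/
structure Base (m : ℕ) where
  N : ℕ
  a0 : Fin m → ℤ
  α : Ed m → ℕ

namespace Base

variable (B : Base m)

def Δ (e : Ed m) : ℕ := ((8 * B.N) ^ 2) ^ (m - 1 - e.1.2.1) * B.α e

structure Ok : Prop where
  pos : 0 < B.N
  two : 2 ∣ B.N
  eq : ∀ e : Ed m, B.a0 e.1.1 - B.a0 e.1.2 = B.Δ e
  one : ∀ e, B.α e ≡ 1 [MOD 8 * B.N]
  sqf : ∀ e, Squarefree (B.α e)
  cop : ∀ e f, e ≠ f → (B.α e).Coprime (B.α f)

/-- admissible moduli -/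
structure Fits (M : ℕ) : Prop where
  pos : 0 < M
  sm : Sm m M
  nM : B.N ∣ M
  dv : ∀ e, B.Δ e ∣ M

/-- the ordinary primes of the base point -/
def V1 : Finset (Gen m) := univ.biUnion fun e => (B.α e).primeFactors.image fun p => ((e, none), p)

/-- the data of the analytic part -/
def dat (M R : ℕ) : Dat m where
  M := M
  R := R
  Δ := B.Δ
  W0 := V0 m B.N ∪ B.V1
  dg0 := fun x => if x.2 = 1 ∨ x.2 ∣ B.N then 1 else jacobiSym (ga B.a0 x.1.1) x.2

end Base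

end Pool.Agent.MP_a43263_nt.JU

end
end MrgPart0

-- ======== part 1: formerly Pool.Agent.MP_a43263_nt.JU.Spec
section MrgPart1

/-! PROJECT JU: the statements of the modules. Blueprint: `/team-store/JU_BLUEPRINT.md`. -/

set_option autoImplicit false

noncomputable section

namespace Pool.Agent.MP_a43263_nt.JU

open Finset Filter Polynomial
open R2 (Sgn chi Ker sg pri PP chs Sc Shape MERStmt PMStmt SVStmt DOStmt EXCStmt CRTStmt)
open RG (Rel Ev EE BORStmt DENStmt PAIRStmt)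
open RH (Smooth BOR5Stmt)
open JC (fp nb tv W DESCStmt GRPStmt TWStmt NRMStmt)

/-! ### A. combinatorics, linear algebra, symbols -/

def COMBStmt : Prop := ∀ m : ℕ, 3 ≤ m →
  (NE m = ∑ j ∈ range m, j ∧ 2 * NE m ≤ m ^ 2 ∧ 3 ≤ NE m) ∧
  (∀ A : Finset (Ed m), 2 * (A \ nbr A).card ≤ (nbr A \ A).card) ∧
  (∀ e : Ed m, ∃ f, lk f e) ∧
  (∀ B : Finset (Ed m), B.Nonempty → nbr B ⊆ B → B = univ) ∧
  (Yc m).card ≤ 2 ^ (m - 1) ∧
  (∀ h : Ed m, ∀ k ∈ out h, (∃ f, lk f h ∧ ov f h = k) ∧ dk univ h k = 3 ∧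
    (∀ y y', dk (symmDiff y y') h k % 2 = (dk y h k + dk y' h k) % 2) ∧
    ∀ y, dk y h k = (if h ∈ y then 1 else 0) + (y.filter fun e => lk e h ∧ ov e h = k).card) ∧
  ∀ f g : Ed m, lk f g → (∀ y, dk y f (ov g f) = dk y g (ov f g)) ∧
    ∃ h, lk f h ∧ lk g h ∧ inE (ov f g) h ∧ inE (ov g f) h ∧ ov f h = cm f g ∧ ov g h = cm f g

/-- rows of the descent matrix as Jacobi symbols -/
def KCStmt : Prop := ∀ m : ℕ,
  (∀ dg : Gen m → ℤ, Sgn (gm dg)) ∧
  (∀ (dg : Gen m → ℤ) (x : Finset (Gen m)) (b : Gen m), b ∉ x → Odd b.2 → 1 < b.2 →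
    jacobiSym (Gv b.1.1 x) b.2 ≠ 0 → ∏ a ∈ x, gm dg a b = jacobiSym (Gv b.1.1 x) b.2) ∧
  (∀ (x : Finset (Gen m)) (e : Ed m), (∀ a ∈ x, a.2 = 1 ∨ a.2.Prime) → Gv e x ≠ 0 ∧
    (∀ p : ℕ, p.Prime → (p : ℤ) ∣ Gv e x → ∃ a ∈ x, a.2 = p ∧ lk a.1.1 e) ∧
    ∀ b ∈ x, b.2.Prime → lk b.1.1 e → (∀ a ∈ x, a.2 = b.2 → lk a.1.1 e → a = b) →
      ∀ C : ℤ, ¬(b.2 : ℤ) ∣ C → ¬IsSquare (Gv e x * C)) ∧
  (∀ (x x' : Finset (Gen m)) (e : Ed m),
    Gv e x * Gv e x' = Gv e (symmDiff x x') * Gv e (x ∩ x') ^ 2) ∧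
  (∀ (x : Finset (Gen m)) (e : Ed m), (∀ a ∈ x, a.2 ≠ 1) → ∃ σ : ℤ, (σ = 1 ∨ σ = -1) ∧
    Gv e x = σ * ∏ a ∈ x.filter (fun a => lk a.1.1 e), (a.2 : ℤ)) ∧
  ∀ C : ℤ, C ≠ 0 → ¬IsSquare C → ∃ C₀ : ℤ, Squarefree C₀.natAbs ∧ C₀ ≠ 1 ∧
    (∀ p : ℕ, p.Prime → (p : ℤ) ∣ C₀ → (p : ℤ) ∣ C) ∧
    ∀ p : ℕ, p.Prime → ¬(p : ℤ) ∣ C → jacobiSym C p = jacobiSym C₀ p

/-- symbols that involve a whole form -/
def SYMStmt : Prop := ∀ (m : ℕ) (D : Dat m), D.Ok →
  (∀ y h, Smooth D.M (Cy D y h)) ∧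
  (∀ a, Adm D a →
    (∀ (y : Finset (Ed m)) (h : Ed m) (p : ℕ), p.Prime → p ∣ D.l a h →
      ∏ x ∈ ones (D.VV a) y, D.g a x (tg h, p) =
        jacobiSym (Cy D y h * ∏ k ∈ out h, (a h.1.1 - a k) ^ dk y h k) p) ∧
    (∀ y : Finset (Ed m), ∀ b ∈ D.W0, ∏ x ∈ ones (D.VV a) y, D.g a x b = 1) ∧
    (∀ y ∈ Yc m, ∀ (h : Ed m) (p : ℕ), p.Prime → p ∣ D.l a h →
      ∏ x ∈ ones (D.VV a) y, D.g a x (tg h, p) = jacobiSym (Cy D y h) p) ∧
    (∀ y y' : Finset (Ed m), chi (D.g a) (ones (D.VV a) y) (ones (D.VV a) y') =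
      ∏ h ∈ y', ∏ k ∈ out h, sy D a h k ^ dk y h k) ∧
    (∀ e h, lk e h → sy D a h (ov e h) = jacobiSym (D.l a e) (D.l a h) ∧
      sy D a h (ov e h) = sy D a e (ov h e)) ∧
    (sgn D a = 1 ∨ sgn D a = -1) ∧ sgn D a = ∏ h, ∏ k ∈ out h, sy D a h k ∧
    ∏ x ∈ gens (D.l a), D.dga a x = sgn D a) ∧
  ∀ (f : Ed m) (E : Ed m → Fin m → ℕ), ∃ (s₁ s₂ : (Fin m → ℤ) → ℤ) (ex : Fin m → ℕ),
    (∀ a, |s₁ a| ≤ 1 ∧ |s₂ a| ≤ 1) ∧
    (∀ a t, s₁ (Function.update a f.1.2 t) = s₁ a ∧ s₂ (Function.update a f.1.1 t) = s₂ a) ∧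
    ((∀ h k, E h k = 1) → ∀ k ∈ out f, Odd (ex k)) ∧
    ∀ a, Adm D a → ∏ h, ∏ k ∈ out h, sy D a h k ^ E h k =
      s₁ a * s₂ a * ∏ k ∈ out f, sy D a f k ^ ex k

/-- the count of the kernel -/
def CNTStmt : Prop := ∀ (m : ℕ) (g : Gen m → Gen m → ℤ), 3 ≤ m → Sgn g →
  ∀ (V : Finset (Gen m)) (Y Y' J : ℕ), Y ≤ Y' → 1 ≤ J →
  (∀ a ∈ V, Y < a.2 → a.1.2 = some true) →
  (∀ h : Ed m, (V.filter fun a => a.1 = tg h ∧ Y' < a.2).card = 1) →
  (∀ h : Ed m, 4 * J ≤ ((md Y Y' V).filter fun a => a.1 = tg h).card ∧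
    ((md Y Y' V).filter fun a => a.1 = tg h).card ≤ 6 * J) →
  ((Ker g V).card : ℝ) ≤ osc g Y Y' V + 3 * ((rset g Y V).card : ℝ) +
    32 ^ NE m * ((Ker g (le Y V)).card : ℝ) / 2 ^ J

/-- the passage to signed tags -/
def RELStmt : Prop := ∀ (m : ℕ) (D : Dat m) (S : Sc), D.Ok → Rel m S → D.M ≤ S.Y →
  ∀ a ∈ AA S D, (Ker (D.g a) (le S.Y (D.VV a))).card = (Ker D.gs (D.W0 ∪ D.sml a S.Y)).card ∧
    (rset (D.g a) S.Y (D.VV a)).card ≤
      2 ^ (m - 1) + nbad D (D.sml a S.Y) (md S.Y S.Y' (gens (D.l a)))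

/-! ### B. tools -/

def MESStmt : Prop := ∀ m : ℕ, 3 ≤ m → ∃ C : ℝ, ∀ M y₀ y y' : ℕ, Sm m M → y₀ ≤ y → y ≤ y' →
  2 ≤ y' → Mss m (PP M 0 y₀) * Mass m (PP M y y') ≤ C * Real.log y' ^ NE m

open Classical in
/-- exceptional configurations are rare -/
def EXPStmt : Prop := ∀ (m M k : ℕ) (ε η : ℝ), 3 ≤ m → 0 < M → Sm m M → 0 < ε → 0 < η →
  ∀ᶠ y : ℕ in atTop, ∀ y₀ y' : ℕ, y₀ ≤ y → y' ≤ y ^ k →
    ∑ Z ∈ (TS m (PP M 0 y₀)).powerset.filter (Exc M ε y y'), Ws Z * 2 ^ Z.card ≤ η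

open Classical in
/-- counting vertex by vertex -/
def VTXStmt : Prop := ∀ (m : ℕ) (X : Fin m → Finset ℤ) (P : Fin m → (Fin m → ℤ) → Prop)
  (B : Fin m → ℝ), (∀ j, 0 ≤ B j) →
  (∀ j a a', (∀ i, i ≤ j → a i = a' i) → P j a → P j a') →
  (∀ j a, (∀ i, i < j → a i ∈ X i ∧ P i a) →
    (((X j).filter fun x => P j (Function.update a j x)).card : ℝ) ≤ B j) →
  (((Fintype.piFinset X).filter fun a => ∀ j, P j a).card : ℝ) ≤ ∏ j, B j

/-- points with prescribed divisors of the differences -/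
def LATStmt : Prop := ∀ (m L : ℕ) (T : Finset (Fin m)) (μ : Ed m → ℕ), (∀ e, 0 < μ e) →
  (∀ e f, e ≠ f → (μ e).Coprime (μ f)) → (∀ e, μ e ≠ 1 → e.1.1 ∈ T ∧ e.1.2 ∈ T) →
  ∏ e, μ e ≤ L →
  (((Fintype.piFinset fun i => if i ∈ T then Icc (-L : ℤ) L else {0}).filter fun a =>
    ∀ e : Ed m, (μ e : ℤ) ∣ a e.1.1 - a e.1.2).card : ℝ) ≤ (5 * L) ^ T.card / ∏ e, (μ e : ℝ)

open Classical in
/-- a large prime rarely divides two differences -/
def REMStmt : Prop := ∀ m L T : ℕ, 1 ≤ T →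
  (((box m L).filter fun a => Function.Injective a ∧ ∃ e f : Ed m, e ≠ f ∧ ∃ p : ℕ, p.Prime ∧
    T < p ∧ (p : ℤ) ∣ a e.1.1 - a e.1.2 ∧ (p : ℤ) ∣ a f.1.1 - a f.1.2).card : ℝ) ≤
    16 * m ^ 4 * (2 * L + 1) ^ m / T

/-! ### C. positivity -/

open Classical in
/-- Szemeredi's theorem for generalised progressions -/
def GAPStmt : Prop := ∀ (d E : ℕ) (δ : ℝ), 0 < δ → ∃ c : ℝ, 0 < c ∧ ∃ N₀ : ℕ, ∀ N : ℕ, N₀ ≤ N →
  ∀ A : ℕ → Prop, δ * N ≤ (((range N).filter A).card : ℝ) → c * (N : ℝ) ^ (d + 1) ≤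
    (((range N ×ˢ Fintype.piFinset fun _ : Fin d => Icc 1 N).filter fun x =>
      ∀ e : Fin d → ℕ, (∀ j, e j ≤ E) → A (x.1 + ∑ j, e j * x.2 j)).card : ℝ)

/-- all forms are good -/
def POSStmt : Prop := ∀ (m : ℕ) (Δ : Ed m → ℕ), ∃ P₀ J₀ : ℕ, ∀ D : Dat m, D.Ok → D.Δ = Δ →
  (∀ p : ℕ, p.Prime → p ≤ P₀ → p ∣ D.M) → ∀ a0 : Fin m → ℤ,
  (∀ e : Ed m, a0 e.1.1 - a0 e.1.2 = Δ e) → (∀ i, |a0 i| + ∏ e, (Δ e : ℤ) ≤ D.R) →
  ∃ c : ℝ, 0 < c ∧ ∀ J : ℕ, J₀ ≤ J →
    Ev m D.M J fun S => ∃ e : ℕ, c * (S.Z : ℝ) ^ m ≤ ((AA { S with e := e } D).card : ℝ)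

/-! ### D. domination by a product measure -/

open Classical in
/-- the sieve in a residue class -/
def SIVStmt : Prop := ∀ m M : ℕ, 3 ≤ m → 0 < M → Sm m M → ∃ C : ℝ, 0 ≤ C ∧ ∀ᶠ y : ℕ in atTop,
  ∀ (L q : ℕ) (a0 : Fin m → ℤ), 0 < q → q.Coprime M → y ^ (100 * m) * q ≤ L →
    (((box m L).filter fun a => (∀ i, a i ≡ a0 i [ZMOD q]) ∧ ∀ p : ℕ, p.Prime → p ≤ y →
      ¬p ∣ M * q → ∀ i j, i ≠ j → ¬(p : ℤ) ∣ a i - a j).card : ℝ) ≤
      C * ((L : ℝ) / q) ^ m / Real.log y ^ NE m * ∏ p ∈ q.primeFactors, (p : ℝ) / (p - NE m)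

open Classical in
/-- the sieve bound for given cores and signs -/
def FIBStmt : Prop := ∀ (m : ℕ) (D : Dat m), D.Ok → ∃ C : ℝ, 0 ≤ C ∧ ∀ᶠ y : ℕ in atTop,
  ∀ (Z : ℕ) (c : Ed m → ℕ) (T : Finset ℕ) (s : ℕ → ℤ), y ^ (200 * m ^ 2) ≤ Z →
    (∀ h, Squarefree (c h) ∧ (c h).Coprime D.M ∧ c h ≤ y ^ 6 ∧ ∀ p ∈ (c h).primeFactors, p ≤ y) →
    (∀ h k, h ≠ k → (c h).Coprime (c k)) → (∀ p, s p = 1 ∨ s p = -1) →
    (((box m (D.R * Z)).filter fun a => ∀ h : Ed m, (∃ P : ℕ, P.Prime ∧ y < P ∧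
      a h.1.1 - a h.1.2 = (D.Δ h : ℤ) * ((c h : ℤ) * P)) ∧
      ∀ p ∈ (c h).primeFactors, p ∈ T → jacobiSym (ga a h) p = s p).card : ℝ) ≤
      C * (Z : ℝ) ^ m / Real.log y ^ NE m *
        ∏ h, ∏ p ∈ (c h).primeFactors, if p ∈ T then wt m p / 2 else wt m p

open Classical in
def DOMStmt : Prop := ∀ (m : ℕ) (D : Dat m), D.Ok → ∃ C : ℝ, 0 ≤ C ∧ ∀ J : ℕ,
  Ev m D.M J fun S => ∀ Φ : Finset (Gen m) → Finset (Gen m) → ℝ, (∀ W W', 0 ≤ Φ W W') →
    ∑ a ∈ AA S D, Φ (D.sml a S.Y) (md S.Y S.Y' (gens (D.l a))) ≤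
      C * (S.Z : ℝ) ^ m / Real.log S.Y' ^ NE m *
        ∑ W ∈ (TS m (PP D.M 0 S.Y0)).powerset.filter Dist,
          ∑ W' ∈ (TT m (PP D.M S.Y S.Y')).powerset, Ws W * Wt W' * Φ W W'

/-- growth, the bottom level, and the contraction by one new prime -/
def STEPStmt : Prop := ∀ (m : ℕ) (D : Dat m), D.Ok →
  (∀ (A : Finset (Ed m)) (W X : Finset (Gen m)),
    (KA D A (W ∪ X)).card ≤ 2 ^ X.card * (KA D A W).card) ∧
  (∀ W : Finset (Gen m), (KA D ∅ W).card ≤ 2 ^ D.W0.card) ∧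
  ∀ A : Finset (Ed m), A.Nonempty → ∀ (W : Finset (Gen m)) (P : Finset ℕ) (w : ℕ → ℝ),
    (∀ a ∈ W, a.1.2 ≠ none ∧ a.2.Prime ∧ ¬a.2 ∣ D.M) → Dist W →
    (∀ p ∈ P, p.Prime ∧ ¬p ∣ D.M ∧ 0 ≤ w p ∧ ∀ a ∈ W, a.2 ≠ p) →
    (∀ C : ℤ, C ≠ 0 → ¬IsSquare C →
      (∀ p : ℕ, p.Prime → (p : ℤ) ∣ C → p ∣ D.M ∨ ∃ t, (t, p) ∈ W) →
      |∑ p ∈ P, w p * jacobiSym C p| ≤ 1 / (8 * NE m) * ∑ p ∈ P, w p) →
    ∑ b ∈ TS m P, w b.2 / 2 * (KA D A (insert b W)).card ≤
      (NE m - 1 / 8) * (∑ p ∈ P, w p) * (KA D A W).card +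
        2 * NE m * (∑ p ∈ P, w p) * ∑ e ∈ A, ((KA D (A.erase e) W).card : ℝ)

open Classical in
/-- the abstract Lyapunov lemma -/
def ALYStmt : Prop := ∀ (m M : ℕ) (η β K C : ℝ) (φ ψ : Finset (Gen m) → ℝ), 3 ≤ m → 0 < M →
  Sm m M → 0 < η → 0 < β → 0 ≤ K → (∀ W, 0 ≤ φ W) → (∀ W, 0 ≤ ψ W) →
  (∀ W X : Finset (Gen m), φ (W ∪ X) ≤ 2 ^ X.card * φ W) →
  (∀ (a y : ℕ) (W : Finset (Gen m)), W ⊆ TS m (PP M 0 a) → Dist W →
    (∀ G : ℤ, G ≠ 0 → ¬IsSquare G → (∀ p : ℕ, p.Prime → (p : ℤ) ∣ G → p ∣ M ∨ ∃ t, (t, p) ∈ W) →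
      |∑ p ∈ PP M a y, wt m p * jacobiSym G p| ≤ β * ∑ p ∈ PP M a y, wt m p) →
    ∑ b ∈ TS m (PP M a y), wt m b.2 / 2 * φ (insert b W) ≤
      (NE m - η) * (∑ p ∈ PP M a y, wt m p) * φ W + K * (∑ p ∈ PP M a y, wt m p) * ψ W) →
  (∀ y : ℕ, ∑ W ∈ (TS m (PP M 0 y)).powerset.filter Dist, Ws W * ψ W ≤ C * Mss m (PP M 0 y)) →
  ∃ C' : ℝ, ∀ y : ℕ,
    ∑ W ∈ (TS m (PP M 0 y)).powerset.filter Dist, Ws W * φ W ≤ C' * Mss m (PP M 0 y)

open Classical in
/-- the kernel on the small primes has bounded mean -/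
def LYAStmt : Prop := ∀ (m : ℕ) (D : Dat m), D.Ok → ∃ C : ℝ, ∀ y : ℕ,
  ∑ W ∈ (TS m (PP D.M 0 y)).powerset.filter Dist, Ws W * (Ker D.gs (D.W0 ∪ W)).card ≤
    C * Mss m (PP D.M 0 y)

open Classical in
/-- classes that are not geometric are killed by the medium primes -/
def KILStmt : Prop := ∀ (m : ℕ) (D : Dat m), D.Ok → ∃ C : ℝ, ∀ J : ℕ,
  Ev m D.M J fun S =>
    ∑ W ∈ (TS m (PP D.M 0 S.Y0)).powerset.filter Dist, ∑ W' ∈ (TT m (PP D.M S.Y S.Y')).powerset,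
      Ws W * Wt W' * nbad D W W' ≤
      C / 2 ^ J * (Mss m (PP D.M 0 S.Y0) * Mass m (PP D.M S.Y S.Y'))

/-! ### E. oscillation -/

/-- the oscillation estimate with `q` in a residue class -/
def GUStmt : Prop := ∀ k a lo hi κ F : ℕ, 2 ^ (2 * k + 3) + 6 * a + 100 ≤ lo → ∀ᶠ Y : ℕ in atTop,
  ∀ (Y' R Q N μ : ℕ) (q₀ : ℤ) (P : Finset ℕ) (Ω : Type)
  (W : Finset Ω) (ν : Ω → ℕ) (K : Ω → ℤ) (σ : ℕ → Ω → ℤ) (α β : Fin k → ℤ) (A : ℕ → ℕ → ℕ → ℝ)
  (B : ℕ → Ω → ℝ) (Per : ℕ → Ω → ℤ → ℝ) (ψ : ℕ → Ω → Fin k → ℤ → ℝ), Y ≤ Y' → Y' ≤ Y ^ κ →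
  Y' ^ lo ≤ R → Y' ^ lo ≤ Q → Q ≤ Y' ^ hi → Y ≤ 2 * N → N ≤ Y' ^ 3 → 1 ≤ μ → μ ≤ Y' ^ a →
  (∀ s ∈ P, s.Prime ∧ Y < s ∧ s ≤ Y' ∧ ¬s ∣ μ ∧ ∀ i, ¬(s : ℤ) ∣ α i) →
  (∀ i, |α i| ≤ (Y' : ℤ) ^ 8 ∧ |β i| ≤ (Y' : ℤ) ^ 8) →
  (∀ ω ∈ W, 1 ≤ ν ω ∧ ν ω ≤ Y' ^ a ∧ (ν ω).Coprime μ) →
  (∀ m, (W.filter fun ω => ν ω = m).card ≤ F) → (∀ n ω, σ n ω = 1 ∨ σ n ω = -1) →
  (∀ r q s, |A r q s| ≤ 1) → (∀ r q s, A r q s ≠ 0 → (q : ℤ) ≡ q₀ [ZMOD μ]) →
  (∀ n ω, |B n ω| ≤ 1) → (∀ n ω q, |Per n ω q| ≤ 1) →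
  (∀ n ω i x, |ψ n ω i x| ≤ 1) → (∀ n ω q, Per n ω (q + n * ν ω) = Per n ω q) →
  (∀ n ω q, Per n ω q ≠ 0 → IsCoprime q (n * ν ω)) →
  (∀ n, ∀ ω ∈ W, ∃ ρ₀ ρ : ℤ, ∀ r q : ℤ, (∀ i, ψ n ω i (α i * n * r + β i * q) ≠ 0) →
    q ≡ ρ₀ + ρ * r [ZMOD ν ω]) →
  |∑ r ∈ Icc 1 R, ∑ q ∈ Icc 1 Q, ∑ s ∈ P.filter (· ∣ q), A r q s *
      ∑ n ∈ Ioc N (2 * N), ∑ ω ∈ W, B n ω * jacobiSym (σ n ω * n * K ω) s * Per n ω q *
        ∏ i, ψ n ω i (α i * n * r + β i * q)| ≤
    R * Q * N / μ * (Y : ℝ) ^ (-(1 / 2 ^ (2 * k + 6)) : ℝ)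

/-- the sum with frozen data -/
def KEYStmt : Prop := ∀ (m : ℕ) (D : Dat m) (J : ℕ), D.Ok →
  Ev m D.M J fun S => ∀ (t : ℕ) (y y' : Finset (Ed m)) (f g : TL m) (ok : Finset (TL m) → Prop)
    (O O₁ O₂ : Finset (Gen m)) (i : ℕ), lk f.1.1 g.1.1 → Odd (expo y y' f g) →
    |keySum S D t y y' f g ok O O₁ O₂ i| ≤
      (S.Z : ℝ) ^ m / ((S.Y0 : ℝ) ^ (30 * m ^ 2) * ∏ b ∈ O.filter (fun b => S.Y < b.2), (b.2 : ℝ))

def OSCStmt : Prop := ∀ (m : ℕ) (D : Dat m) (J : ℕ) (ε : ℝ), D.Ok → 0 < ε →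
  Ev m D.M J fun S => ∀ t : ℕ,
    |∑ a ∈ AA S D, (sgn D a : ℝ) ^ t * osc (D.g a) S.Y S.Y' (D.VV a)| ≤ ε * (S.Z : ℝ) ^ m

/-- almost orthogonality of the characters of different primes -/
def BESStmt : Prop := ∀ (L N R : ℕ) (α : ℤ) (P : Finset ℕ) (φ : ℕ → ℤ → ℝ) (F₁ : ℤ → ℤ → ℕ → ℝ)
  (F₂ : ℤ → ℤ → ℝ) (B : ℤ → ℕ → ℝ), 2 ≤ N → N ≤ L → N ^ 3 ≤ R →
  (∀ n ∈ P, n.Prime ∧ N < n ∧ n ≤ 2 * N ∧ ¬(n : ℤ) ∣ α) → (∀ n x, φ n (x + n) = φ n x) →
  (∀ n x, |φ n x| ≤ 1) → (∀ w x r, |F₁ w x r| ≤ 1) → (∀ w z, |F₂ w z| ≤ 1) →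
  (∀ w z, F₂ w z ≠ 0 → |z| ≤ L) → (∀ w n, |B w n| ≤ 1) →
  ∑ w ∈ Icc (-L : ℤ) L, |∑ x ∈ Icc (-L : ℤ) L, ∑ r ∈ Icc 1 R, F₁ w x r *
      ∑ n ∈ P, B w n * (φ n x * jacobiSym (x - w) n) * F₂ w (x + α * n * r)| ≤
    100 * L ^ 2 * R * (N : ℝ) ^ (3 / 4 : ℝ)

/-- both signs occur equally often -/
def SIGNStmt : Prop := ∀ (m : ℕ) (D : Dat m) (J : ℕ) (ε : ℝ), D.Ok → 1 ≤ J → 0 < ε →
  Ev m D.M J fun S => |∑ a ∈ AA S D, (sgn D a : ℝ)| ≤ ε * (S.Z : ℝ) ^ m

/-- a positive proportion of the points has a kernel of the least size -/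
def MKVStmt : Prop := ∀ (m : ℕ) (D : Dat m) (δ : ℝ), D.Ok →
  (∀ e : ℕ, ∃ σ : ℤ, (σ = 1 ∨ σ = -1) ∧ ∀ a, Adm D a →
    (∀ h, (D.l a h).primeFactors.card % 2 = e % 2) → sgn D a = σ →
    ∃ κ : ℕ, (Ker (D.g a) (D.VV a)).card = 2 ^ κ ∧ κ % 2 = (m - 1) % 2) → 0 < δ →
  ∃ J₀ : ℕ, ∀ J : ℕ, J₀ ≤ J → Ev m D.M J fun S => δ * (S.Z : ℝ) ^ m ≤ (AA S D).card →
    δ / 32 * (S.Z : ℝ) ^ m ≤
      (((AA S D).filter fun a => (Ker (D.g a) (D.VV a)).card ≤ 2 ^ (m - 1)).card : ℝ)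

/-! ### F. descent -/

/-- closure properties and the induction principle -/
def WQStmt : Prop := ∀ (K ι : Type) [Field K] [Fintype ι] (a : ι → K),
  (∀ D, W a D → Wq a D) ∧ (∀ D E, Wq a D → Wq a E → Wq a fun i => D i * E i) ∧
  (3 ≤ Fintype.card ι → Function.Injective a → ∀ S : Finset ι, Wq a (tS a S)) ∧
  ∀ P : (ι → K) → Prop, (∀ κ : K, κ ≠ 0 → P fun _ => κ) →
    (∀ D E, P D → P E → P fun i => D i * E i) →
    (∀ D E : ι → K, (∀ i, D i ≠ 0 ∧ E i ≠ 0 ∧ IsSquare (D i * E i)) → P D → P E) →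
    (∀ π V : K[X], π.Monic → Irreducible π → π ∣ fp a - V ^ 2 → (∀ i, π.eval (a i) ≠ 0) →
      P fun i => nb π (a i)) → ∀ D, Wq a D → P D

/-- the passage from the model of odd degree to the model of even degree -/
def MOBStmt : Prop := ∀ (K : Type) [Field K] (n : ℕ) (a : Fin (n + 1) → K), Odd n → 3 ≤ n →
  Function.Injective a → Function.Injective (cv a) ∧ (W (cv a) fun i => -cv a i) ∧
    ∀ d, W (cv a) d → Wq a (Fin.snoc (α := fun _ => K) d 1)

/-- primes of good reduction -/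
def GDPStmt : Prop := ∀ (p : ℕ) [Fact p.Prime] (ι : Type) [Fintype ι] (a D : ι → ℚ_[p]),
  (∀ k, ‖a k‖ ≤ 1) → (∀ k l, k ≠ l → ‖a k - a l‖ = 1) → Wq a D →
  ∀ i k, Even ((D i).valuation + (D k).valuation)

/-- primes of nodal reduction -/
def NODEStmt : Prop := ∀ (p : ℕ) [Fact p.Prime] (ι : Type) [Fintype ι] [DecidableEq ι]
  (a D : ι → ℚ_[p]) (i j : ι), p ≠ 2 → i ≠ j → (∀ k, ‖a k‖ ≤ 1) → ‖a i - a j‖ = ‖(p : ℚ_[p])‖ →
  (∀ k l, k ≠ l → ¬(k = i ∧ l = j) → ¬(k = j ∧ l = i) → ‖a k - a l‖ = 1) → Wq a D →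
  ∃ β : ℕ, (∀ k, k ≠ i → k ≠ j → Even ((D i).valuation + (D k).valuation + β)) ∧
    IsSquare (D i * D j * (∏ k ∈ (univ.erase i).erase j, (a i - a k)) ^ β)

/-- primes of totally split reduction -/
def SPLStmt : Prop := ∀ (p : ℕ) [Fact p.Prime] (m : ℕ) (a D : Fin m → ℚ_[p]),
  (∀ i j, i < j → IsSquare (a i - a j)) →
  (∀ i j l, i < l → j < l → ‖a i - a j‖ < ‖(16 : ℚ_[p])‖ * ‖a i - a l‖) → Wq a D →
  ∀ e : Ed m, Even e.1.1.1 → e.1.2.1 = e.1.1.1 + 1 → IsSquare (D e.1.1 * D e.1.2)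

/-- the real place -/
def REALStmt : Prop := ∀ (m : ℕ) (a D : Fin m → ℝ), StrictAnti a → Wq a D →
  ∀ e : Ed m, Even e.1.1.1 → e.1.2.1 = e.1.1.1 + 1 → 0 < D e.1.1 * D e.1.2

/-- the local conditions -/
def LOCStmt : Prop := ∀ (m N : ℕ) (V : Finset (Gen m)) (dg : Gen m → ℤ) (a : Fin m → ℤ)
  (A : Ed m → ℕ), Loc N V dg a A → Dist V → ∀ D : Fin m → ℚ, EQ (fun i => (a i : ℚ)) D →
  ∃ x ∈ Ker (gm dg) (V0 m N ∪ V), ∀ e : Ed m, IsSquare (D e.1.1 * D e.1.2 * (Gv e x : ℚ))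

/-- the parity of the corank -/
def PARStmt : Prop := ∀ (m N : ℕ) (V : Finset (Gen m)) (dg : Gen m → ℤ) (a : Fin m → ℤ)
  (A : Ed m → ℕ), Loc N V dg a A → ∃ κ : ℕ, (Ker (gm dg) (V0 m N ∪ V)).card = 2 ^ κ ∧
    κ % 2 = ((V0 m N ∪ V).card + if ∏ x ∈ V, dg x = 1 then 0 else 1) % 2

/-- the reduction to the complete 2-descent -/
def REDStmt : Prop := ∀ (n : ℕ) (a : Fin (n + 1) → ℚ), 2 ≤ n → Function.Injective a →
  (∀ D, EQ a D → ∃ S ⊆ univ.erase (Fin.last n), PE D (tS a S)) →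
  (∀ S ⊆ univ.erase (Fin.last n), ∀ S' ⊆ univ.erase (Fin.last n), PE (tS a S) (tS a S') → S = S') →
  Good (model a) (2 * (n / 2)) n

/-- a small kernel gives a good curve -/
def GOODStmt : Prop := ∀ (n N : ℕ) (V : Finset (Gen (n + 1))) (dg : Gen (n + 1) → ℤ)
  (a : Fin (n + 1) → ℤ) (A : Ed (n + 1) → ℕ), Loc N V dg a A → Dist V → (∀ e, 1 < A e) →
  (Ker (gm dg) (V0 (n + 1) N ∪ V)).card ≤ 2 ^ n →
  Good (model fun i => (a i : ℚ)) (2 * (n / 2)) n

/-! ### G. base point and assembly -/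

def BASEStmt : Prop := ∀ m : ℕ, ∃ B : Base m, B.Ok

/-- the descent applies to admissible points -/
def BRStmt : Prop := ∀ (m : ℕ) (B : Base m) (M R : ℕ), 3 ≤ m → B.Ok → B.Fits M → 1 ≤ R →
  (B.dat M R).Ok ∧ ∃ σ : ℤ, (σ = 1 ∨ σ = -1) ∧ ∀ a, Adm (B.dat M R) a →
    Loc B.N (B.V1 ∪ gens ((B.dat M R).l a)) ((B.dat M R).dga a) a
      (fun e => B.α e * (B.dat M R).l a e) ∧
    ∏ x ∈ B.V1 ∪ gens ((B.dat M R).l a), (B.dat M R).dga a x = σ * sgn (B.dat M R) a ∧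
    ((∀ e f, e ≠ f → ((B.dat M R).l a e).Coprime ((B.dat M R).l a f)) →
      Dist (B.V1 ∪ gens ((B.dat M R).l a)))

open Classical in
def MainStmt : Prop := ∀ n : ℕ, 2 ≤ n → ∃ c : ℝ, 0 < c ∧ ∀ᶠ H : ℕ in atTop,
  c * (H : ℝ) ^ (n + 1) ≤ (((box (n + 1) H).filter fun a : Fin (n + 1) → ℤ =>
    Function.Injective a ∧ Good (model fun i => (a i : ℚ)) (2 * (n / 2)) n).card : ℝ)

theorem main_of (mer : MERStmt) (pm : PMStmt) (sv : SVStmt) (dos : DOStmt) (exc : EXCStmt)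
    (crt : CRTStmt) (sz : DH.SZStmt) (bor : BORStmt) (bor5 : BOR5Stmt) (den : DENStmt)
    (pair : PAIRStmt) (desc : DESCStmt) (grp : GRPStmt) (tw : TWStmt) (nrm : NRMStmt)
    (comb : COMBStmt) (kc : KCStmt) (sym : COMBStmt → KCStmt → SYMStmt)
    (cnt : COMBStmt → CNTStmt) (rel : COMBStmt → KCStmt → SYMStmt → RELStmt)
    (mes : COMBStmt → MERStmt → MESStmt) (exp : COMBStmt → MERStmt → EXCStmt → EXPStmt)
    (vtx : VTXStmt) (lat : VTXStmt → LATStmt) (rem : REMStmt) (gap : DH.SZStmt → GAPStmt)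
    (pos : GAPStmt → DENStmt → POSStmt)
    (siv : COMBStmt → VTXStmt → MERStmt → PMStmt → SVStmt → SIVStmt)
    (fib : COMBStmt → SIVStmt → FIBStmt) (dom : FIBStmt → DOMStmt)
    (step : COMBStmt → BORStmt → KCStmt → STEPStmt)
    (aly : COMBStmt → KCStmt → MERStmt → EXPStmt → ALYStmt)
    (lya : COMBStmt → STEPStmt → ALYStmt → LYAStmt)
    (kil : COMBStmt → KCStmt → SYMStmt → MERStmt → EXPStmt → LYAStmt → KILStmt)
    (gu : MERStmt → DOStmt → PAIRStmt → GUStmt)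
    (key : COMBStmt → KCStmt → SYMStmt → LATStmt → GUStmt → KEYStmt)
    (os : COMBStmt → KEYStmt → OSCStmt) (bes : CRTStmt → BESStmt)
    (sign : SYMStmt → REMStmt → BESStmt → SIGNStmt)
    (mkv : KCStmt → SYMStmt → CNTStmt → RELStmt → MESStmt → DOMStmt → LYAStmt → KILStmt →
      OSCStmt → SIGNStmt → MKVStmt)
    (wq : WQStmt) (mob : WQStmt → MOBStmt) (gdp : WQStmt → GDPStmt) (node : WQStmt → NODEStmt)
    (spl : WQStmt → SPLStmt) (real : WQStmt → REALStmt)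
    (loc : COMBStmt → KCStmt → GDPStmt → NODEStmt → SPLStmt → REALStmt → LOCStmt)
    (par : COMBStmt → KCStmt → BOR5Stmt → PARStmt)
    (red : DESCStmt → GRPStmt → TWStmt → NRMStmt → WQStmt → MOBStmt → REDStmt)
    (good : WQStmt → LOCStmt → REDStmt → GOODStmt) (base : BASEStmt)
    (br : COMBStmt → KCStmt → SYMStmt → BRStmt)
    (fin : REMStmt → POSStmt → MKVStmt → PARStmt → GOODStmt → BASEStmt → BRStmt → MainStmt) :
    MainStmt :=
  have hs := sym comb kc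
  have he := exp comb mer exc
  have hl := lya comb (step comb bor kc) (aly comb kc mer he)
  fin rem (pos (gap sz) den)
    (mkv kc hs (cnt comb) (rel comb kc hs) (mes comb mer)
      (dom (fib comb (siv comb vtx mer pm sv))) hl (kil comb kc hs mer he hl)
      (os comb (key comb kc hs (lat vtx) (gu mer dos pair))) (sign hs rem (bes crt)))
    (par comb kc bor5)
    (good wq (loc comb kc (gdp wq) (node wq) (spl wq) (real wq))
      (red desc grp tw nrm wq (mob wq))) base (br comb kc hs)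

end Pool.Agent.MP_a43263_nt.JU

end
end MrgPart1

-- ======== part 2: formerly Pool.Agent.MP_a43263_nt.JU.Comb
section MrgPart2

/-! PROJECT JU: the combinatorics of the complete graph. -/

set_option autoImplicit false

namespace Pool.Agent.MP_a43263_nt.JU

open Finset

namespace Cmb

variable {m : ℕ}

theorem ed_eq {e f : Ed m} : e = f ↔ e.1.1 = f.1.1 ∧ e.1.2 = f.1.2 :=
  Subtype.ext_iff.trans Prod.ext_iff

/-- two different vertices span an edge -/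
theorem edge {i j : Fin m} (h : i ≠ j) :
    ∃ e : Ed m, (e.1.1 = i ∧ e.1.2 = j) ∨ (e.1.1 = j ∧ e.1.2 = i) := by
  rcases lt_or_gt_of_ne h with k | k
  · exact ⟨⟨(i, j), k⟩, Or.inl ⟨rfl, rfl⟩⟩
  · exact ⟨⟨(j, i), k⟩, Or.inr ⟨rfl, rfl⟩⟩

theorem mem_out {e : Ed m} {k : Fin m} : k ∈ out e ↔ k ≠ e.1.1 ∧ k ≠ e.1.2 := by
  simp [out, inE, not_or]

theorem mem_nbr {A : Finset (Ed m)} {f : Ed m} : f ∈ nbr A ↔ ∃ e ∈ A, lk e f := by
  simp [nbr]

theorem lk_symm {e f : Ed m} (h : lk e f) : lk f e := by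
  simp only [lk, inE, ne_eq, ed_eq] at *
  grind

theorem ov_spec (f g : Ed m) :
    (inE f.1.1 g ∧ ov f g = f.1.2 ∧ cm f g = f.1.1) ∨
      (¬inE f.1.1 g ∧ ov f g = f.1.1 ∧ cm f g = f.1.2) := by
  unfold ov cm
  split_ifs with h
  · exact Or.inl ⟨h, rfl, rfl⟩
  · exact Or.inr ⟨h, rfl, rfl⟩

theorem ne_sum (m : ℕ) : NE m = ∑ j ∈ range m, j := by
  rw [NE, Fintype.card_subtype, card_filter, Fintype.sum_prod_type_right,
    ← Fin.sum_univ_eq_sum_range (fun j => j)]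
  refine sum_congr rfl fun j _ => ?_
  rw [← card_filter, ← Fin.card_Iio]
  congr 1
  ext i
  simp

theorem card_out (e : Ed m) : (out e).card + 2 = m := by
  have h : out e = univ \ {e.1.1, e.1.2} := by
    ext k
    simp [mem_out]
  have := card_sdiff_add_card_eq_card (subset_univ ({e.1.1, e.1.2} : Finset (Fin m)))
  rw [card_pair e.2.ne, card_univ, Fintype.card_fin] at this
  rw [h, this]

/-- the two other edges of a triangle -/
theorem tri {h : Ed m} {k : Fin m} (hk : k ∈ out h) :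
    ∃ f g, f ≠ g ∧ ∀ e, (lk e h ∧ ov e h = k) ↔ e = f ∨ e = g := by
  obtain ⟨k1, k2⟩ := mem_out.1 hk
  obtain ⟨f, hf⟩ := edge k1
  obtain ⟨g, hg⟩ := edge k2
  have := h.2
  have := f.2
  have := g.2
  refine ⟨f, g, ?_, fun e => ?_⟩
  · simp only [ne_eq, ed_eq]
    omega
  · have := e.2
    have := ov_spec e h
    simp only [lk, inE, ne_eq, ed_eq] at *
    grind

theorem ov_out {e h : Ed m} (l : lk e h) : ov e h ∈ out h := by
  have := e.2
  have := h.2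
  have := ov_spec e h
  simp only [lk, inE, ne_eq, ed_eq, mem_out] at *
  grind

theorem card_lk (h : Ed m) {C : Finset (Ed m)} (hC : ∀ e, lk e h → e ∈ C) :
    (C.filter fun e => lk e h).card = (out h).card * 2 := by
  rw [card_eq_sum_card_fiberwise (f := fun e => ov e h) (t := out h)
    (fun e he => ov_out (mem_filter.1 he).2), ← smul_eq_mul, ← sum_const]
  refine sum_congr rfl fun k hk => ?_
  obtain ⟨f, g, ne, H⟩ := tri hk
  rw [← card_pair ne]
  congr 1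
  ext e
  simp only [mem_filter, mem_insert, mem_singleton, ← H]
  exact ⟨fun a => ⟨a.1.2, a.2⟩, fun a => ⟨⟨hC e a.1, a.1⟩, a.2⟩⟩

theorem two (hm : 3 ≤ m) (A : Finset (Ed m)) : 2 * (A \ nbr A).card ≤ (nbr A \ A).card := by
  have up : ∀ e ∈ A \ nbr A, ((nbr A \ A).bipartiteAbove (fun e f => lk f e) e).card =
      (out e).card * 2 := fun e he => card_lk e fun f l => mem_sdiff.2
    ⟨mem_nbr.2 ⟨e, (mem_sdiff.1 he).1, lk_symm l⟩,
      fun k => (mem_sdiff.1 he).2 (mem_nbr.2 ⟨f, k, l⟩)⟩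
  have iso : ∀ e ∈ A \ nbr A, ∀ e' ∈ A \ nbr A, ¬lk e e' := fun e he e' he' l =>
    (mem_sdiff.1 he').2 (mem_nbr.2 ⟨e, (mem_sdiff.1 he).1, l⟩)
  rcases hm.eq_or_lt with rfl | h4
  · have := card_mul_le_card_mul (fun e f => lk f e) (s := A \ nbr A) (t := nbr A \ A) (m := 2)
      (n := 1) (fun e he => by have := card_out e; have := up e he; omega) fun f _ => by
        refine (card_le_card (filter_subset _ _)).trans (card_le_one.2 fun e he e' he' => ?_)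
        have := iso e he e' he'
        have := e.2
        have := e'.2
        simp only [lk, inE, ne_eq, ed_eq] at *
        grind
    omega
  · have := card_mul_le_card_mul (fun e f => lk f e) (s := A \ nbr A) (t := nbr A \ A) (m := 4)
      (n := 2) (fun e he => by have := card_out e; have := up e he; omega) fun f _ => by
        rw [← card_pair f.2.ne]
        refine card_le_card_of_injOn (fun e => cm f e) (fun e _ => ?_) fun e he e' he' k => ?_
        · have := ov_spec f e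
          simp only [coe_insert, coe_singleton, Set.mem_insert_iff, Set.mem_singleton_iff]
          omega
        · obtain ⟨a1, a2⟩ := mem_filter.1 he
          obtain ⟨b1, b2⟩ := mem_filter.1 he'
          have := iso e a1 e' b1
          have := ov_spec f e
          have := ov_spec f e'
          simp only [lk, inE, ne_eq, ed_eq] at *
          grind
    omega

theorem conn (B : Finset (Ed m)) (hB : B.Nonempty) (cl : nbr B ⊆ B) : B = univ := by
  obtain ⟨e, he⟩ := hB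
  refine eq_univ_of_forall fun f => ?_
  by_cases k : e = f
  · exact k ▸ he
  by_cases l : lk e f
  · exact cl (mem_nbr.2 ⟨e, he, l⟩)
  have := e.2
  have := f.2
  obtain ⟨g, hg⟩ := edge (i := e.1.1) (j := f.1.1) (by
    simp only [lk, inE, ne_eq, ed_eq] at *
    grind)
  refine cl (mem_nbr.2 ⟨g, cl (mem_nbr.2 ⟨e, he, ?_⟩), ?_⟩) <;>
    simp only [lk, inE, ne_eq, ed_eq] at * <;> grind

theorem dk_eq {h : Ed m} {k : Fin m} (hk : k ∈ out h) (y : Finset (Ed m)) :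
    dk y h k = (if h ∈ y then 1 else 0) + (y.filter fun e => lk e h ∧ ov e h = k).card := by
  have H : ∀ e : Ed m, ((inE e.1.1 h ∨ e.1.1 = k) ∧ (inE e.1.2 h ∨ e.1.2 = k)) ↔
      e = h ∨ (lk e h ∧ ov e h = k) := by
    intro e
    have := e.2
    have := h.2
    have := ov_spec e h
    simp only [lk, inE, ne_eq, ed_eq, mem_out] at *
    grind
  rw [dk, filter_congr fun e _ => H e, filter_or, card_union_of_disjoint, filter_eq']
  · split_ifs <;> rfl
  · exact disjoint_filter.2 fun e _ a b => b.1.1 a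

theorem card_sd (s t : Finset (Ed m)) : (symmDiff s t).card % 2 = (s.card + t.card) % 2 := by
  have a := card_sdiff_add_card_inter s t
  have b := card_sdiff_add_card_inter t s
  rw [inter_comm] at b
  rw [symmDiff_def, sup_eq_union, card_union_of_disjoint disjoint_sdiff_sdiff]
  omega

theorem dk_sd (y y' : Finset (Ed m)) (h : Ed m) (k : Fin m) :
    dk (symmDiff y y') h k % 2 = (dk y h k + dk y' h k) % 2 := by
  rw [dk, dk, dk, ← card_sd]
  congr 2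
  ext e
  simp only [mem_filter, mem_symmDiff]
  grind

theorem cuts (hm : 3 ≤ m) : (Yc m).card ≤ 2 ^ (m - 1) := by
  let z : Fin m := ⟨0, by omega⟩
  have c : (univ.filter fun e : Ed m => e.1.1 = z).card ≤ m - 1 := by
    have : (univ.erase z).card = m - 1 := by simp
    rw [← this]
    refine card_le_card_of_injOn (fun e => e.1.2) (fun e he => ?_) fun e he f hf k => ?_
    · have := e.2
      have := (mem_filter.1 he).2
      simp only [coe_erase, coe_univ, Set.mem_sdiff, Set.mem_univ, Set.mem_singleton_iff, true_and]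
      omega
    · exact ed_eq.2 ⟨(mem_filter.1 he).2.trans (mem_filter.1 hf).2.symm, k⟩
  refine le_trans ?_ (Nat.pow_le_pow_right two_pos c)
  rw [← card_powerset]
  refine card_le_card_of_injOn (fun y => y.filter fun e => e.1.1 = z)
    (fun y _ => mem_powerset.2 (filter_subset_filter _ (subset_univ y))) fun y hy y' hy' k => ?_
  have k' : ∀ e : Ed m, e.1.1 = z → (e ∈ y ↔ e ∈ y') := fun e he => by
    simpa [he] using Finset.ext_iff.1 k e
  ext h
  by_cases hz : h.1.1 = z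
  · exact k' h hz
  have z0 : z.1 = 0 := rfl
  have ho : z ∈ out h := by
    have := h.2
    rw [mem_out]
    omega
  have a := (mem_filter.1 hy).2 h z ho
  have b := (mem_filter.1 hy').2 h z ho
  have s : (y.filter fun e => lk e h ∧ ov e h = z) = y'.filter fun e => lk e h ∧ ov e h = z := by
    ext e
    simp only [mem_filter]
    refine and_congr_left fun l => k' e ?_
    have := e.2
    have := ov_spec e h
    omega
  rw [dk_eq ho, Nat.even_iff] at a b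
  rw [s] at a
  split_ifs at a b <;> first | omega | simp [*]

end Cmb

open Cmb

theorem comb : COMBStmt := by
  intro m hm
  refine ⟨?_, two hm, fun e => ?_, conn, cuts hm, fun h k hk => ?_, fun f g l => ⟨fun y => ?_, ?_⟩⟩
  · have := sum_range_id_mul_two m
    obtain ⟨n, rfl⟩ := Nat.exists_eq_add_of_le' hm
    rw [← ne_sum] at this
    refine ⟨ne_sum _, ?_, ?_⟩ <;> simp only [Nat.add_succ_sub_one] at this <;> nlinarith
  · obtain ⟨k, hk⟩ := card_pos.1 (show 0 < (out e).card by have := card_out e; omega)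
    obtain ⟨f, g, -, H⟩ := tri hk
    exact ⟨f, ((H f).2 (Or.inl rfl)).1⟩
  · obtain ⟨f, g, ne, H⟩ := tri hk
    refine ⟨⟨f, (H f).2 (Or.inl rfl)⟩, ?_, fun y y' => dk_sd y y' h k, dk_eq hk⟩
    rw [dk_eq hk, if_pos (mem_univ h), show (univ.filter fun e => lk e h ∧ ov e h = k) = {f, g} by
      ext e; simp [H], card_pair ne]
  · have := f.2
    have := g.2
    have := ov_spec f g
    have := ov_spec g f
    refine congrArg card (filter_congr fun e _ => ?_)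
    simp only [lk, inE, ne_eq, ed_eq] at *
    grind
  · have := f.2
    have := g.2
    have := ov_spec f g
    have := ov_spec g f
    obtain ⟨h, hh⟩ := edge (i := ov f g) (j := ov g f) (by
      simp only [lk, inE, ne_eq, ed_eq] at *
      grind)
    have := ov_spec f h
    have := ov_spec g h
    refine ⟨h, ?_, ?_, ?_, ?_, ?_, ?_⟩ <;> simp only [lk, inE, ne_eq, ed_eq] at * <;> grind

end Pool.Agent.MP_a43263_nt.JU

end MrgPart2

-- ======== part 3: formerly Pool.Agent.MP_a43263_nt.JU.Sym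
section MrgPart3

/-! PROJECT JU, module SYM: symbols that involve a whole form. -/

set_option autoImplicit false

noncomputable section

namespace Pool.Agent.MP_a43263_nt.JU

open Finset
open R2 (sg chi)
open RH (Smooth)
open RG.SYM (jac_sqf jac_sml Sml odd_of cop_of)

namespace SYM

variable {m : ℕ} {D : Dat m} {a : Fin m → ℤ}

theorem tg_inj : Function.Injective (tg : Ed m → Tag m) := fun _ _ e => (Prod.ext_iff.1 e).1

theorem lk_symm {e f : Ed m} (h : lk e f) : lk f e := by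
  refine ⟨h.1.symm, ?_⟩
  rcases h.2 with (k | k) | (k | k)
  exacts [.inl (.inl k.symm), .inr (.inl k.symm), .inl (.inr k.symm), .inr (.inr k.symm)]

theorem ed_ext {e f : Ed m} (h1 : inE e.1.1 f) (h2 : inE e.1.2 f) : e = f := by
  have := e.2
  have := f.2
  refine Subtype.ext (Prod.ext ?_ ?_) <;> rcases h1 with h1 | h1 <;> rcases h2 with h2 | h2 <;>
    omega

theorem ov_out {e h : Ed m} (k : lk e h) : ov e h ∈ out h := by
  refine mem_filter.2 ⟨mem_univ _, ?_⟩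
  unfold ov
  split_ifs with c
  · exact fun c' => k.1 (ed_ext c c')
  · exact c

theorem ones_eq (hD : D.Ok) (a : Fin m → ℤ) (y : Finset (Ed m)) : ones (D.VV a) y =
    y.biUnion fun h => (D.l a h).primeFactors.image fun p => (tg h, p) := by
  ext x
  simp only [ones, Dat.VV, gens, mem_filter, mem_union, mem_biUnion, mem_image, mem_univ, true_and]
  constructor
  · rintro ⟨h | ⟨h, p, hp, rfl⟩, k, hk, e⟩
    · have := (hD.fix x h).1
      rw [← e] at this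
      exact absurd this (Option.some_ne_none _)
    · exact ⟨k, hk, p, tg_inj e ▸ hp, by rw [e]⟩
  · rintro ⟨h, hh, p, hp, rfl⟩
    exact ⟨.inr ⟨h, p, hp, rfl⟩, h, hh, rfl⟩

theorem prod_bi {R : Type} [CommMonoid R] (l : Ed m → ℕ) (y : Finset (Ed m)) (F : Gen m → R) :
    ∏ x ∈ y.biUnion (fun h => (l h).primeFactors.image fun p => (tg h, p)), F x =
      ∏ h ∈ y, ∏ p ∈ (l h).primeFactors, F (tg h, p) := by
  rw [prod_biUnion]
  · exact prod_congr rfl fun h _ => prod_image fun _ _ _ _ e => congrArg Prod.snd e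
  · intro h _ k _ hk
    refine disjoint_left.2 fun a h1 h2 => hk ?_
    obtain ⟨p, -, rfl⟩ := mem_image.1 h1
    obtain ⟨q, -, e⟩ := mem_image.1 h2
    exact (tg_inj (congrArg Prod.fst e)).symm

theorem prod_ones {R : Type} [CommMonoid R] (hD : D.Ok) (a : Fin m → ℤ) (y : Finset (Ed m))
    (F : Gen m → R) : ∏ x ∈ ones (D.VV a) y, F x =
      ∏ h ∈ y, ∏ p ∈ (D.l a h).primeFactors, F (tg h, p) := by
  rw [ones_eq hD, prod_bi]

theorem sml_mul {M : ℕ} {u v : ℤ} (hu : Sml M u) (hv : Sml M v) : Sml M (u * v) :=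
  ⟨mul_ne_zero hu.1 hv.1, fun p hp hd =>
    ((Nat.prime_iff_prime_int.1 hp).dvd_or_dvd hd).elim (hu.2 p hp) (hv.2 p hp)⟩

theorem sml_nat {M c : ℕ} (hM : 0 < M) (h : c ∣ M) : Sml M c :=
  ⟨Int.natCast_ne_zero.2 (Nat.pos_of_dvd_of_pos h hM).ne', fun _ _ hd =>
    (Int.natCast_dvd_natCast.1 hd).trans h⟩

/-- the constant of a linked edge -/
def ep (D : Dat m) (e h : Ed m) : ℤ := if inE e.1.1 h then (D.Δ e : ℤ) else -D.Δ e

theorem sml_ep (hD : D.Ok) (e h : Ed m) : Sml D.M (ep D e h) := by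
  unfold ep
  split_ifs
  exacts [sml_nat hD.pos (hD.dv e), (sml_nat hD.pos (hD.dv e)).neg]

theorem sml_Cy (hD : D.Ok) (y : Finset (Ed m)) (h : Ed m) : Sml D.M (Cy D y h) :=
  prod_induction _ (Sml D.M) (fun _ _ => sml_mul) Sml.one fun e _ => sml_ep hD e h

theorem sml_pm {M : ℕ} (c : Prop) [Decidable c] (n : ℕ) :
    Sml M (if c then (-1) ^ n else 1) := by
  split_ifs
  · rcases neg_one_pow_eq_or ℤ n with e | e <;> rw [e]
    exacts [Sml.one, Sml.one.neg]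
  · exact Sml.one

theorem sml_G (hD : D.Ok) (h : Ed m) {b : Gen m} (hb : b ∈ D.W0) : Sml D.M (G h b) := by
  refine sml_mul ?_ (sml_pm _ _)
  split_ifs
  · unfold val
    split_ifs with c
    · exact Sml.one.neg
    · exact sml_nat hD.pos ((hD.fix b hb).2.resolve_left c).2
  · exact Sml.one

theorem sg_jac {u : ℤ} {p : ℕ} (h : u.gcd p = 1) : sg (jacobiSym u p) = jacobiSym u p := by
  rcases jacobiSym.eq_one_or_neg_one h with e | e <;> rw [e] <;> rfl

theorem jac_prod {ι : Type} (s : Finset ι) (f : ι → ℤ) (n : ℕ) :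
    jacobiSym (∏ i ∈ s, f i) n = ∏ i ∈ s, jacobiSym (f i) n := by
  classical
  induction s using Finset.induction_on with
  | empty => simp
  | insert i s hi ih => rw [prod_insert hi, prod_insert hi, jacobiSym.mul_left, ih]

theorem odd_dvd (hl : Adm D a) {h : Ed m} {p : ℕ} (hd : p ∣ D.l a h) : Odd p :=
  (Nat.odd_iff.2 (odd_of (hl.one h))).of_dvd_nat hd

/-- the difference to the third vertex modulo the form -/
theorem change (hl : Adm D a) {e h : Ed m} (k : lk e h) {n : ℕ} (hn : n ∣ D.l a h) :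
    a h.1.1 - a (ov e h) ≡ ep D e h * D.l a e [ZMOD n] := by
  have h1 := hl.eq e
  have h2 : (n : ℤ) ∣ a h.1.1 - a h.1.2 := by
    rw [hl.eq h]
    exact (Int.natCast_dvd_natCast.2 hn).mul_left _
  refine Int.modEq_iff_dvd.2 ?_
  unfold ov ep
  split_ifs with c
  · rw [← h1]
    rcases c with c | c <;> rw [c]
    · simp
    · have := h2.neg_right
      rwa [show -(a h.1.1 - a h.1.2) = a h.1.2 - a e.1.2 - (a h.1.1 - a e.1.2) by ring] at this
  · rw [neg_mul, ← h1]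
    rcases k.2.resolve_left c with c | c <;> rw [c]
    · simp
    · have := h2.neg_right
      rwa [show -(a h.1.1 - a h.1.2) = -(a e.1.1 - a h.1.2) - (a h.1.1 - a e.1.1) by ring] at this

theorem jac_ov (hl : Adm D a) {e h : Ed m} (k : lk e h) {n : ℕ} (hn : n ∣ D.l a h) :
    jacobiSym (a h.1.1 - a (ov e h)) n = jacobiSym (ep D e h) n * jacobiSym (D.l a e) n := by
  rw [jacobiSym.mod_left' (change hl k hn), jacobiSym.mul_left]

theorem gcd_ep (hD : D.Ok) (hl : Adm D a) (e : Ed m) {h : Ed m} {n : ℕ} (hn : n ∣ D.l a h) :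
    (ep D e h).gcd n = 1 := (sml_ep hD e h).gcd ((cop_of (hl.one h)).coprime_dvd_left hn)

theorem gcd_l (hl : Adm D a) {e h : Ed m} (k : lk e h) {n : ℕ} (hn : n ∣ D.l a h) :
    (D.l a e : ℤ).gcd n = 1 := by
  rw [Int.gcd_natCast_natCast]
  exact (hl.cop e h k).coprime_dvd_right hn

theorem sq_out (comb : COMBStmt) (hD : D.Ok) (hl : Adm D a) {h : Ed m} {k : Fin m}
    (hk : k ∈ out h) {n : ℕ} (hn : n ∣ D.l a h) : jacobiSym (a h.1.1 - a k) n ^ 2 = 1 := by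
  obtain ⟨e, c, rfl⟩ := ((comb m hD.three).2.2.2.2.2.1 h k hk).1
  rw [jac_ov hl c hn, mul_pow, jacobiSym.sq_one (gcd_ep hD hl e hn),
    jacobiSym.sq_one (gcd_l hl c hn), one_mul]

theorem sq_gam (comb : COMBStmt) (hD : D.Ok) (hl : Adm D a) {h : Ed m} {n : ℕ}
    (hn : n ∣ D.l a h) : jacobiSym (gam a h) n ^ 2 = 1 := by
  rw [gam, jac_prod, ← prod_pow]
  exact prod_eq_one fun k hk => sq_out comb hD hl hk hn

theorem jac_pm {p : ℕ} (hp : Odd p) (n : ℕ) :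
    (if p % 4 = 3 then (-1 : ℤ) ^ n else 1) = jacobiSym (-1) p ^ n := by
  rw [jacobiSym.at_neg_one hp]
  split_ifs with c
  · rw [ZMod.χ₄_nat_three_mod_four c]
  · rw [ZMod.χ₄_nat_one_mod_four (by have := Nat.odd_iff.1 hp; omega), one_pow]

theorem G_tg (e h : Ed m) {q : ℕ} (hq : q ≠ 1) (ho : Odd q) : G h (tg e, q) =
    (if lk e h then (q : ℤ) else 1) * jacobiSym (-1) q ^ bb e h := by
  rw [← jac_pm ho, G, val, if_neg hq]
  rfl

/-- the value of a whole form -/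
theorem whole (hl : Adm D a) (e h : Ed m) :
    ∏ q ∈ (D.l a e).primeFactors, G h (tg e, q) = if lk e h then (D.l a e : ℤ) else 1 := by
  rw [prod_congr rfl fun q hq => G_tg e h (Nat.prime_of_mem_primeFactors hq).ne_one
    (odd_dvd hl (Nat.dvd_of_mem_primeFactors hq)), prod_mul_distrib, prod_pow, jac_sqf (hl.sqf e),
    jac_sml (hl.one e) Sml.one.neg, one_pow, mul_one]
  split_ifs
  · rw [← Nat.cast_prod, Nat.prod_primeFactors_of_squarefree (hl.sqf e)]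
  · exact prod_const_one

theorem row_sub (kc : KCStmt) (hl : Adm D a) {e h : Ed m} {p : ℕ} (hp : p.Prime)
    (hd : p ∣ D.l a h) (s : Finset ℕ) (hs : e = h → p ∉ s)
    (h0 : jacobiSym (∏ q ∈ s, G h (tg e, q)) p ≠ 0) :
    ∏ q ∈ s, D.g a (tg e, q) (tg h, p) = jacobiSym (∏ q ∈ s, G h (tg e, q)) p := by
  have i : ∀ x ∈ s, ∀ y ∈ s, ((tg e, x) : Gen m) = (tg e, y) → x = y :=
    fun _ _ _ _ e => congrArg Prod.snd e
  have := (kc m).2.1 (D.dga a) (s.image fun q => (tg e, q)) (tg h, p) (fun c => by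
    obtain ⟨q, hq, c⟩ := mem_image.1 c
    exact hs (tg_inj (congrArg Prod.fst c)) ((show q = p from congrArg Prod.snd c) ▸ hq))
    (odd_dvd hl hd) hp.one_lt (by rw [Gv, prod_image i]; exact h0)
  rw [Gv, prod_image i, prod_image i] at this
  exact this

theorem jac_jac (p n : ℕ) : jacobiSym (jacobiSym (-1) p ^ n) p = jacobiSym (-1) p ^ n := by
  rw [jacobiSym.pow_left]
  rcases jacobiSym.eq_one_or_neg_one (a := -1) (b := p) (by simp) with c | c
  · rw [c, jacobiSym.one_left]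
  · conv_lhs => rw [c]

theorem jac_ga (a : Fin m → ℤ) (e : Ed m) (n : ℕ) :
    jacobiSym (ga a e) n = jacobiSym (-1) n ^ bb e e * jacobiSym (gam a e) n := by
  rw [ga, jacobiSym.mul_left, jacobiSym.pow_left]

theorem inner (comb : COMBStmt) (kc : KCStmt) (hD : D.Ok) (hl : Adm D a) (e : Ed m) {h : Ed m}
    {p : ℕ} (hp : p.Prime) (hd : p ∣ D.l a h) :
    ∏ q ∈ (D.l a e).primeFactors, D.g a (tg e, q) (tg h, p) =
      (if e = h then jacobiSym (gam a h) p else 1) *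
        if lk e h then jacobiSym (D.l a e) p else 1 := by
  have h2 := whole hl e h
  by_cases c : e = h
  · subst c
    have n : ¬lk e e := fun c => c.1 rfl
    have hm : p ∈ (D.l a e).primeFactors := Nat.mem_primeFactors.2 ⟨hp, hd, (hl.sqf e).ne_zero⟩
    have h4 : jacobiSym (-1) p ^ 2 = 1 := jacobiSym.sq_one (by simp)
    rw [if_neg n, ← mul_prod_erase _ _ hm, G_tg e e hp.ne_one (odd_dvd hl hd), if_neg n,
      one_mul] at h2
    have h5 := congrArg (fun u => jacobiSym u p) h2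
    simp only [jacobiSym.mul_left, jacobiSym.one_left, jac_jac] at h5
    have h7 : D.g a (tg e, p) (tg e, p) = jacobiSym (ga a e) p := by
      have h9 : jacobiSym (ga a e) p ^ 2 = 1 := by
        rw [jac_ga, mul_pow, ← pow_mul, mul_comm (bb e e), pow_mul, h4, one_pow,
          sq_gam comb hD hl hd, one_mul]
      rw [Dat.g, gm, if_pos rfl]
      change sg (jacobiSym (ga a e) p) = _
      rcases sq_eq_one_iff.1 h9 with c | c <;> rw [c] <;> rfl
    rw [if_pos rfl, if_neg n, mul_one, ← mul_prod_erase _ _ hm,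
      row_sub kc hl hp hd _ (fun _ => notMem_erase _ _) (right_ne_zero_of_mul_eq_one h5), h7,
      jac_ga, mul_right_comm, h5, one_mul]
  · rw [if_neg c, one_mul, row_sub kc hl hp hd _ (fun c' => absurd c' c), h2]
    · split_ifs
      · rfl
      · exact jacobiSym.one_left _
    · rw [h2]
      split_ifs with k
      · exact jacobiSym.ne_zero (gcd_l hl k hd)
      · rw [jacobiSym.one_left]
        exact one_ne_zero

theorem fib {R : Type} [CommMonoid R] (y : Finset (Ed m)) (h : Ed m) (u : Fin m → R)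
    (c : Ed m → ℕ) : ∏ e ∈ y.filter (fun e => lk e h), u (ov e h) ^ c e =
      ∏ k ∈ out h, u k ^ ∑ e ∈ y.filter (fun e => lk e h ∧ ov e h = k), c e := by
  rw [← prod_fiberwise_of_maps_to (g := fun e => ov e h) (t := out h)
    fun e he => ov_out (mem_filter.1 he).2]
  refine prod_congr rfl fun k _ => ?_
  rw [filter_filter, ← prod_pow_eq_pow_sum]
  exact prod_congr rfl fun e he => by rw [(mem_filter.1 he).2.2]

theorem row (comb : COMBStmt) (kc : KCStmt) (hD : D.Ok) (hl : Adm D a) (y : Finset (Ed m))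
    (h : Ed m) (p : ℕ) (hp : p.Prime) (hd : p ∣ D.l a h) :
    ∏ x ∈ ones (D.VV a) y, D.g a x (tg h, p) =
      jacobiSym (Cy D y h * ∏ k ∈ out h, (a h.1.1 - a k) ^ dk y h k) p := by
  have h1 : ∏ k ∈ out h, (a h.1.1 - a k) ^ dk y h k = (if h ∈ y then gam a h else 1) *
      ∏ e ∈ y.filter (fun e => lk e h), (a h.1.1 - a (ov e h)) := by
    have := fib y h (fun k => a h.1.1 - a k) fun _ => 1
    simp only [pow_one, ← card_eq_sum_ones] at this
    rw [this, prod_congr rfl fun k hk => by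
      rw [((comb m hD.three).2.2.2.2.2.1 h k hk).2.2.2 y, pow_add], prod_mul_distrib]
    split_ifs <;> simp [gam]
  rw [prod_ones hD, prod_congr rfl fun e _ => inner comb kc hD hl e hp hd, prod_mul_distrib,
    prod_ite_eq', ← prod_filter, h1, mul_left_comm, jacobiSym.mul_left, Cy, ← prod_mul_distrib,
    jac_prod]
  refine congrArg₂ _ (by split_ifs <;> simp) (prod_congr rfl fun e he => ?_)
  change _ = jacobiSym (ep D e h * _) p
  rw [jacobiSym.mul_left, jac_ov hl (mem_filter.1 he).2 hd, ← mul_assoc, ← sq,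
    jacobiSym.sq_one (gcd_ep hD hl e hd), one_mul]

theorem row0 (kc : KCStmt) (hD : D.Ok) (hl : Adm D a) (y : Finset (Ed m)) {b : Gen m}
    (hb : b ∈ D.W0) : ∏ x ∈ ones (D.VV a) y, D.g a x b = 1 := by
  rw [prod_ones hD]
  refine prod_eq_one fun h _ => ?_
  rw [← jac_sml (hl.one h) (sml_G hD h hb), ← jac_sqf (hl.sqf h)]
  refine prod_congr rfl fun p hp => ?_
  have hd := Nat.dvd_of_mem_primeFactors hp
  rw [Dat.g, ((kc m).1 _).1, gm, if_neg, if_pos ⟨odd_dvd hl hd,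
    (Nat.prime_of_mem_primeFactors hp).one_lt⟩]
  · exact sg_jac ((sml_G hD h hb).gcd ((cop_of (hl.one h)).coprime_dvd_left hd))
  · rintro rfl
    exact Option.some_ne_none _ (hD.fix _ hb).1

theorem sy_ov (hD : D.Ok) (hl : Adm D a) {e h : Ed m} (k : lk e h) :
    sy D a h (ov e h) = jacobiSym (D.l a e) (D.l a h) := by
  rw [sy, jac_ov hl k dvd_rfl, jac_sml (hl.one h) (sml_ep hD e h), one_mul]

theorem sy_sy (hD : D.Ok) (hl : Adm D a) {e h : Ed m} (k : lk e h) :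
    sy D a h (ov e h) = sy D a e (ov h e) := by
  have h4 : D.l a e % 4 = 1 := (hl.one e).of_dvd (Dvd.dvd.mul_right (by norm_num) _)
  rw [sy_ov hD hl k, sy_ov hD hl (lk_symm k),
    jacobiSym.quadratic_reciprocity_one_mod_four h4 (Nat.odd_iff.2 (odd_of (hl.one h)))]

/-- the vertex lies in the triangle -/
def tri (i : Fin m) (h : Ed m) (k : Fin m) : Prop := inE i h ∨ i = k

instance (i : Fin m) (h : Ed m) (k : Fin m) : Decidable (tri i h k) :=
  inferInstanceAs (Decidable (inE i h ∨ i = k))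

theorem sy_upd (D : Dat m) (a : Fin m → ℤ) (t : ℤ) {i k : Fin m} {h : Ed m} (c : ¬tri i h k) :
    sy D (Function.update a i t) h k = sy D a h k := by
  have c1 : h.1.1 ≠ i := fun e => c (.inl (.inl e.symm))
  have c2 : h.1.2 ≠ i := fun e => c (.inl (.inr e.symm))
  have c3 : k ≠ i := fun e => c (.inr e.symm)
  simp only [sy, Dat.l, Function.update_of_ne c1, Function.update_of_ne c2,
    Function.update_of_ne c3]

theorem abs_pr {ι : Type} (s : Finset ι) (u : ι → ℤ) (h : ∀ i ∈ s, |u i| ≤ 1) :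
    |∏ i ∈ s, u i| ≤ 1 := by
  rw [abs_prod]
  exact prod_le_one (fun _ _ => abs_nonneg _) h

theorem abs_sy (D : Dat m) (a : Fin m → ℤ) (h : Ed m) (k : Fin m) (n : ℕ) (c : Prop)
    [Decidable c] : |if c then sy D a h k ^ n else 1| ≤ 1 := by
  split_ifs
  · rw [abs_pow]
    refine pow_le_one₀ (abs_nonneg _) ?_
    rcases jacobiSym.trichotomy (a h.1.1 - a k) (D.l a h) with e | e | e <;> rw [sy, e] <;> simp
  · simp

theorem tri_iff {f h : Ed m} {k : Fin m} (hk : k ∈ out h) :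
    tri f.1.2 h k ∧ tri f.1.1 h k ↔ h = f ∨ (lk h f ∧ k = ov f h) := by
  have n : ¬inE k h := (mem_filter.1 hk).2
  have := f.2
  constructor
  · rintro ⟨c2 | c2, c1 | c1⟩
    · exact .inl (ed_ext c1 c2).symm
    · subst c1
      exact .inr ⟨lk_symm ⟨fun e => n (e ▸ .inl rfl), .inr c2⟩, by rw [ov, if_neg n]⟩
    · subst c2
      exact .inr ⟨lk_symm ⟨fun e => n (e ▸ .inr rfl), .inl c1⟩, by rw [ov, if_pos c1]⟩
    · omega
  · rintro (rfl | ⟨c, rfl⟩)
    · exact ⟨.inl (.inr rfl), .inl (.inl rfl)⟩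
    · unfold ov tri
      split_ifs with c1
      · exact ⟨.inr rfl, .inl c1⟩
      · exact ⟨.inl ((lk_symm c).2.resolve_left c1), .inr rfl⟩

theorem rest (hD : D.Ok) (hl : Adm D a) (f : Ed m) (E : Ed m → Fin m → ℕ) :
    ∏ h, ∏ k ∈ out h, (if tri f.1.2 h k ∧ tri f.1.1 h k then sy D a h k ^ E h k else 1) =
      ∏ k ∈ out f, sy D a f k ^
        (E f k + ∑ e ∈ univ.filter (fun e => lk e f ∧ ov e f = k), E e (ov f e)) := by
  rw [prod_congr rfl fun k _ => pow_add _ _ _, prod_mul_distrib, ← fib univ f (sy D a f),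
    prod_filter, ← mul_prod_erase _ _ (mem_univ f), ← mul_prod_erase _ _ (mem_univ f),
    if_neg fun c : lk f f => c.1 rfl, one_mul]
  refine congrArg₂ _ (prod_congr rfl fun k hk => if_pos ((tri_iff hk).2 (.inl rfl)))
    (prod_congr rfl fun h hh => ?_)
  have n := ne_of_mem_erase hh
  split_ifs with c
  · rw [prod_eq_single_of_mem _ (ov_out (lk_symm c)) fun k hk e => if_neg fun c' =>
      ((tri_iff hk).1 c').elim n fun c' => e c'.2,
      if_pos ((tri_iff (ov_out (lk_symm c))).2 (.inr ⟨c, rfl⟩)), sy_sy hD hl (lk_symm c)]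
  · exact prod_eq_one fun k hk => if_neg fun c' => ((tri_iff hk).1 c').elim n fun c' => c c'.1

end SYM

open SYM in
theorem sym : COMBStmt → KCStmt → SYMStmt := by
  intro comb kc m D hD
  refine ⟨fun y h => sml_Cy hD y h, fun a hl => ⟨row comb kc hD hl,
    fun y b hb => row0 kc hD hl y hb, fun y hy h p hp hd => ?_, fun y y' => ?_,
    fun e h k => ⟨sy_ov hD hl k, sy_sy hD hl k⟩, ?_, ?_, ?_⟩, fun f E =>
    ⟨fun a => ∏ h, ∏ k ∈ out h, if ¬tri f.1.2 h k then sy D a h k ^ E h k else 1,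
      fun a => ∏ h, ∏ k ∈ out h, if tri f.1.2 h k ∧ ¬tri f.1.1 h k then sy D a h k ^ E h k else 1,
      fun k => E f k + ∑ e ∈ univ.filter (fun e => lk e f ∧ ov e f = k), E e (ov f e),
      fun a => ⟨?_, ?_⟩, fun a t => ⟨?_, ?_⟩, fun hE k hk => ?_, fun a hl => ?_⟩⟩
  · rw [row comb kc hD hl y h p hp hd, jacobiSym.mul_left, jac_prod, prod_eq_one, mul_one]
    intro k hk
    obtain ⟨r, hr⟩ := (mem_filter.1 hy).2 h k hk
    rw [jacobiSym.pow_left, hr, ← two_mul, pow_mul, sq_out comb hD hl hk hd, one_pow]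
  · rw [chi, prod_comm, prod_ones hD]
    refine prod_congr rfl fun h _ => ?_
    rw [prod_congr rfl fun p hp => row comb kc hD hl y h p (Nat.prime_of_mem_primeFactors hp)
      (Nat.dvd_of_mem_primeFactors hp), jac_sqf (hl.sqf h), jacobiSym.mul_left,
      jac_sml (hl.one h) (sml_Cy hD y h), one_mul, jac_prod]
    exact prod_congr rfl fun k _ => jacobiSym.pow_left _ _ _
  · refine sq_eq_one_iff.1 ?_
    rw [sgn, ← prod_pow]
    exact prod_eq_one fun h _ => sq_gam comb hD hl dvd_rfl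
  · exact prod_congr rfl fun h _ => jac_prod _ _ _
  · rw [gens, prod_bi]
    refine prod_congr rfl fun h _ => ?_
    change ∏ p ∈ (D.l a h).primeFactors, jacobiSym (ga a h) p = _
    rw [jac_sqf (hl.sqf h), jac_ga, jac_sml (hl.one h) Sml.one.neg, one_pow, one_mul]
  · exact abs_pr _ _ fun h _ => abs_pr _ _ fun k _ => abs_sy _ _ _ _ _ _
  · exact abs_pr _ _ fun h _ => abs_pr _ _ fun k _ => abs_sy _ _ _ _ _ _
  · exact prod_congr rfl fun h _ => prod_congr rfl fun k _ =>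
      if_ctx_congr Iff.rfl (fun c => by rw [sy_upd D a t c]) fun _ => rfl
  · exact prod_congr rfl fun h _ => prod_congr rfl fun k _ =>
      if_ctx_congr Iff.rfl (fun c => by rw [sy_upd D a t c.2]) fun _ => rfl
  · have c := (comb m hD.three).2.2.2.2.2.1 f k hk
    have c3 := c.2.2.2 univ
    rw [c.2.1, if_pos (mem_univ _)] at c3
    simp only [hE, ← card_eq_sum_ones, ← c3]
    decide
  · rw [← rest hD hl, ← prod_mul_distrib, ← prod_mul_distrib]
    refine prod_congr rfl fun h _ => ?_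
    rw [← prod_mul_distrib, ← prod_mul_distrib]
    refine prod_congr rfl fun k _ => ?_
    by_cases c2 : tri f.1.2 h k <;> by_cases c1 : tri f.1.1 h k <;> simp [c1, c2]

end Pool.Agent.MP_a43263_nt.JU

end
end MrgPart3

-- ======== part 4: formerly Pool.Agent.MP_a43263_nt.JU.Lat
section MrgPart4

/-! PROJECT JU: counting vertex by vertex, lattice points, large common primes. -/

set_option autoImplicit false

noncomputable section

namespace Pool.Agent.MP_a43263_nt.JU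

open Finset

namespace Lat

theorem pre {m : ℕ} {X : Fin m → Finset ℤ} {P : Fin m → (Fin m → ℤ) → Prop} {B : Fin m → ℝ}
    (h0 : ∀ j, 0 ≤ B j) (h1 : ∀ j a a', (∀ i, i ≤ j → a i = a' i) → P j a → P j a')
    (h2 : ∀ j a, (∀ i, i < j → a i ∈ X i ∧ P i a) → ∀ F : Finset ℤ,
      (∀ x ∈ F, x ∈ X j ∧ P j (Function.update a j x)) → (F.card : ℝ) ≤ B j) (t : ℕ) :
    t ≤ m → ∀ S : Finset (Fin m → ℤ),
      (∀ a ∈ S, (∀ i : Fin m, i.1 < t → a i ∈ X i ∧ P i a) ∧ ∀ i : Fin m, t ≤ i.1 → a i = 0) →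
      (S.card : ℝ) ≤ ∏ j ∈ univ.filter (fun j : Fin m => j.1 < t), B j := by
  induction t with
  | zero =>
    intro _ S hS
    have : S.card ≤ 1 := card_le_one.2 fun a ha b hb => funext fun i =>
      ((hS a ha).2 i (Nat.zero_le _)).trans ((hS b hb).2 i (Nat.zero_le _)).symm
    rw [filter_false_of_mem fun _ _ => Nat.not_lt_zero _, prod_empty]
    exact_mod_cast this
  | succ t ih =>
    intro ht S hS
    obtain ⟨j, hj⟩ : ∃ j : Fin m, j.1 = t := ⟨⟨t, ht⟩, rfl⟩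
    have hS' : ∀ b ∈ S.image fun a => Function.update a j 0,
        (∀ i : Fin m, i.1 < t → b i ∈ X i ∧ P i b) ∧ ∀ i : Fin m, t ≤ i.1 → b i = 0 := by
      intro b hb
      obtain ⟨a, ha, rfl⟩ := mem_image.1 hb
      have ne : ∀ i : Fin m, i.1 < t → Function.update a j 0 i = a i := fun i hi =>
        Function.update_of_ne (fun e => by rw [e] at hi; omega) _ _
      refine ⟨fun i hi => ⟨?_, h1 i a _ (fun k hk => (ne k ?_).symm)
        ((hS a ha).1 i (by omega)).2⟩, fun i hi => ?_⟩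
      · rw [ne i hi]
        exact ((hS a ha).1 i (by omega)).1
      · exact lt_of_le_of_lt (Fin.le_def.1 hk) hi
      · by_cases e : i = j
        · rw [e, Function.update_self]
        · rw [Function.update_of_ne e]
          refine (hS a ha).2 i ?_
          have : i.1 ≠ t := fun q => e (Fin.ext (q.trans hj.symm))
          omega
    have e1 : univ.filter (fun i : Fin m => i.1 < t + 1) =
        insert j (univ.filter fun i : Fin m => i.1 < t) := by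
      ext i
      simp only [mem_filter, mem_univ, true_and, mem_insert, Fin.ext_iff]
      omega
    have e2 : j ∉ univ.filter fun i : Fin m => i.1 < t := fun q => by
      have := (mem_filter.1 q).2
      omega
    rw [e1, prod_insert e2, card_eq_sum_card_image (fun a => Function.update a j 0) S,
      Nat.cast_sum]
    refine (sum_le_card_nsmul _ _ (B j) fun b hb => ?_).trans ?_
    · have inj : Set.InjOn (fun a : Fin m → ℤ => a j)
          (S.filter fun a => Function.update a j 0 = b : Finset _) := by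
        intro a ha a' ha' e
        have q := (mem_filter.1 (mem_coe.1 ha)).2.trans (mem_filter.1 (mem_coe.1 ha')).2.symm
        funext i
        by_cases c : i = j
        · rw [c]
          exact e
        · have := congrFun q i
          rwa [Function.update_of_ne c, Function.update_of_ne c] at this
      rw [← card_image_of_injOn inj]
      refine h2 j b (fun i hi => (hS' b hb).1 i (hj ▸ Fin.lt_def.1 hi)) _ fun x hx => ?_
      obtain ⟨a, ha, rfl⟩ := mem_image.1 hx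
      obtain ⟨ha1, ha2⟩ := mem_filter.1 ha
      rw [← ha2, Function.update_idem, Function.update_eq_self]
      exact (hS a ha1).1 j (by omega)
    · rw [nsmul_eq_mul, mul_comm]
      exact mul_le_mul_of_nonneg_left (ih (by omega) _ hS') (h0 j)

/-- counting vertex by vertex, without decidability instances -/
theorem vf {m : ℕ} (X : Fin m → Finset ℤ) (P : Fin m → (Fin m → ℤ) → Prop) (B : Fin m → ℝ)
    (h0 : ∀ j, 0 ≤ B j) (h1 : ∀ j a a', (∀ i, i ≤ j → a i = a' i) → P j a → P j a')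
    (h2 : ∀ j a, (∀ i, i < j → a i ∈ X i ∧ P i a) → ∀ F : Finset ℤ,
      (∀ x ∈ F, x ∈ X j ∧ P j (Function.update a j x)) → (F.card : ℝ) ≤ B j)
    (S : Finset (Fin m → ℤ)) (hS : ∀ a ∈ S, ∀ i, a i ∈ X i ∧ P i a) :
    (S.card : ℝ) ≤ ∏ j, B j := by
  have := pre h0 h1 h2 m le_rfl S fun a ha =>
    ⟨fun i _ => hS a ha i, fun i hi => absurd i.2 (not_lt.2 hi)⟩
  rwa [filter_true_of_mem fun j _ => j.2] at this

/-- pairwise congruent points of an interval -/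
theorem cnt {L μ : ℕ} (hμ : 0 < μ) {S : Finset ℤ} (hS : ∀ x ∈ S, x ∈ Icc (-L : ℤ) L)
    (hd : ∀ x ∈ S, ∀ y ∈ S, (μ : ℤ) ∣ x - y) : (S.card : ℝ) ≤ 2 * L / μ + 1 := by
  have hμ' : (0 : ℤ) < μ := by exact_mod_cast hμ
  have h1 : S.card ≤ (Icc (0 : ℤ) ((2 * L / μ : ℕ) : ℤ)).card := by
    refine card_le_card_of_injOn (fun x => (x + L) / μ) (fun x hx => ?_) fun x hx y hy e => ?_
    · obtain ⟨a, b⟩ := mem_Icc.1 (hS x hx)
      refine mem_coe.2 (mem_Icc.2 ⟨Int.ediv_nonneg (by omega) hμ'.le, ?_⟩)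
      push_cast
      exact Int.ediv_le_ediv hμ' (by omega)
    · have e' : (x + L) % μ = (y + L) % μ :=
        Int.ModEq.add_right _ (Int.modEq_iff_dvd.2 (hd y hy x hx))
      have a := Int.mul_ediv_add_emod (x + L) μ
      have b := Int.mul_ediv_add_emod (y + L) μ
      have e2 : (x + L) / μ = (y + L) / μ := e
      rw [e2, e'] at a
      omega
  rw [Int.card_Icc] at h1
  have h2 : S.card ≤ 2 * L / μ + 1 := by
    generalize 2 * L / μ = q at h1 ⊢
    omega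
  have h3 : ((2 * L / μ : ℕ) : ℝ) ≤ (2 * L : ℕ) / μ := Nat.cast_div_le
  have h4 : (S.card : ℝ) ≤ ((2 * L / μ : ℕ) : ℝ) + 1 := by exact_mod_cast h2
  push_cast at h3
  linarith

/-- two congruences at different vertices -/
theorem two {m L p : ℕ} (hp : 0 < p) (hL : p ≤ 2 * L) {i j k l : Fin m} (h1 : i < j)
    (h2 : k < l) (h3 : j ≠ l) {S : Finset (Fin m → ℤ)}
    (hS : ∀ a ∈ S, a ∈ box m L ∧ (p : ℤ) ∣ a i - a j ∧ (p : ℤ) ∣ a k - a l) :
    (S.card : ℝ) ≤ 4 * (2 * L + 1) ^ m * ((p : ℝ) ^ 2)⁻¹ := by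
  have hp' : (0 : ℝ) < p := by exact_mod_cast hp
  have hL' : (p : ℝ) ≤ 2 * L := by exact_mod_cast hL
  have key : 2 * (L : ℝ) / p + 1 ≤ (2 * L + 1) * (2 / p) := by
    rw [div_add_one hp'.ne', mul_div_assoc', div_le_div_iff_of_pos_right hp']
    linarith
  refine (vf (fun _ => Icc (-L : ℤ) L)
    (fun v a => (v = j → (p : ℤ) ∣ a i - a j) ∧ (v = l → (p : ℤ) ∣ a k - a l))
    (fun v => (2 * L + 1) * (if v = j then 2 / (p : ℝ) else 1) * if v = l then 2 / (p : ℝ) else 1)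
    (fun v => by positivity) (fun v a a' e q => ⟨fun c => ?_, fun c => ?_⟩) (fun v a _ F hF => ?_)
    S fun a ha v => ⟨Fintype.mem_piFinset.1 (hS a ha).1 v, fun _ => (hS a ha).2.1,
      fun _ => (hS a ha).2.2⟩).trans (le_of_eq ?_)
  · rw [← e i (c ▸ h1.le), ← e j c.ge]
    exact q.1 c
  · rw [← e k (c ▸ h2.le), ← e l c.ge]
    exact q.2 c
  · by_cases c : v = j
    · rw [if_pos c, if_neg (c ▸ h3), mul_one]
      refine (cnt hp (fun x hx => (hF x hx).1) fun x hx y hy => ?_).trans key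
      have hx' := (hF x hx).2.1 c
      have hy' := (hF y hy).2.1 c
      rw [c, Function.update_self, Function.update_of_ne h1.ne] at hx' hy'
      have := dvd_sub hy' hx'
      rwa [sub_sub_sub_cancel_left] at this
    · by_cases c' : v = l
      · rw [if_neg c, if_pos c', mul_one]
        refine (cnt hp (fun x hx => (hF x hx).1) fun x hx y hy => ?_).trans key
        have hx' := (hF x hx).2.2 c'
        have hy' := (hF y hy).2.2 c'
        rw [c', Function.update_self, Function.update_of_ne h2.ne] at hx' hy'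
        have := dvd_sub hy' hx'
        rwa [sub_sub_sub_cancel_left] at this
      · rw [if_neg c, if_neg c', mul_one, mul_one]
        have : F.card ≤ 2 * L + 1 := (card_le_card fun x hx => (hF x hx).1).trans (by
          rw [Int.card_Icc]
          omega)
        exact_mod_cast this
  · rw [prod_mul_distrib, prod_mul_distrib, prod_ite_eq', prod_ite_eq', if_pos (mem_univ _),
      if_pos (mem_univ _), prod_const, card_univ, Fintype.card_fin]
    field_simp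
    ring

end Lat

theorem vtx : VTXStmt := by
  classical
  intro m X P B h0 h1 h2
  refine Lat.vf X P B h0 h1 (fun j a ha F hF => (Nat.cast_le.2 (card_le_card fun x hx =>
    mem_filter.2 (hF x hx))).trans (h2 j a ha)) _ fun a ha i => ?_
  obtain ⟨k1, k2⟩ := mem_filter.1 ha
  exact ⟨Fintype.mem_piFinset.1 k1 i, k2 i⟩

theorem lat : VTXStmt → LATStmt := by
  intro _ m L T μ h0 h1 h2 h3
  obtain ⟨ν, hν⟩ : ∃ ν : Fin m → ℕ, ∀ j, ν j = ∏ e ∈ univ.filter (fun e : Ed m => e.1.2 = j), μ e :=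
    ⟨_, fun _ => rfl⟩
  have n0 : ∀ j, 0 < ν j := fun j => hν j ▸ prod_pos fun e _ => h0 e
  have n1 : ∀ j, ν j ≤ L := fun j => (Nat.le_of_dvd (prod_pos fun e _ => h0 e)
    (hν j ▸ prod_dvd_prod_of_subset _ _ _ (filter_subset _ _))).trans h3
  have n2 : ∏ j, ν j = ∏ e, μ e := by
    simp only [hν]
    exact prod_fiberwise _ _ _
  refine (Lat.vf (fun i => if i ∈ T then Icc (-L : ℤ) L else {0})
    (fun j a => ∀ e : Ed m, e.1.2 = j → (μ e : ℤ) ∣ a e.1.1 - a e.1.2)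
    (fun j => (if j ∈ T then 5 * (L : ℝ) else 1) / ν j) (fun j => by positivity)
    (fun j a a' e q f c => ?_) (fun j a _ F hF => ?_) _ fun a ha i => ?_).trans (le_of_eq ?_)
  · rw [← e f.1.1 (c ▸ f.2.le), ← e f.1.2 c.le]
    exact q f c
  · by_cases c : j ∈ T
    · rw [if_pos c]
      have p0 : (0 : ℝ) < ν j := by exact_mod_cast n0 j
      have p1 : (ν j : ℝ) ≤ L := by exact_mod_cast n1 j
      refine (Lat.cnt (L := L) (n0 j) (fun x hx => ?_) fun x hx y hy => ?_).trans ?_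
      · have := (hF x hx).1
        rwa [if_pos c] at this
      · rw [hν, Nat.cast_prod]
        refine Finset.prod_dvd_of_coprime (fun e _ f _ q => Nat.isCoprime_iff_coprime.2 (h1 e f q))
          fun e he => ?_
        have c' := (mem_filter.1 he).2
        have hx' := (hF x hx).2 e c'
        have hy' := (hF y hy).2 e c'
        rw [c', Function.update_self, Function.update_of_ne (c' ▸ e.2.ne)] at hx' hy'
        have := dvd_sub hy' hx'
        rwa [sub_sub_sub_cancel_left] at this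
      · rw [div_add_one p0.ne', div_le_div_iff_of_pos_right p0]
        linarith
    · have e1 : ν j = 1 := by
        rw [hν]
        exact prod_eq_one fun e he => by_contra fun q => c ((mem_filter.1 he).2 ▸ (h2 e q).2)
      rw [if_neg c, e1, Nat.cast_one, div_one]
      have : F.card ≤ 1 := card_le_one.2 fun x hx y hy => by
        have hx' := (hF x hx).1
        have hy' := (hF y hy).1
        rw [if_neg c, mem_singleton] at hx' hy'
        exact hx'.trans hy'.symm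
      exact_mod_cast this
  · obtain ⟨k1, k2⟩ := mem_filter.1 ha
    exact ⟨Fintype.mem_piFinset.1 k1 i, fun e _ => k2 e⟩
  · rw [prod_div_distrib, prod_ite_mem, univ_inter, prod_const, ← Nat.cast_prod, n2, Nat.cast_prod]

theorem rem : REMStmt := by
  classical
  intro m L T hT
  obtain ⟨F, hF⟩ : ∃ F : (Fin m × Fin m) × (Fin m × Fin m) → ℕ → Finset (Fin m → ℤ), ∀ q p,
      F q p = (box m L).filter fun a => q.1.1 < q.1.2 ∧ q.2.1 < q.2.2 ∧ q.1.2 ≠ q.2.2 ∧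
        (p : ℤ) ∣ a q.1.1 - a q.1.2 ∧ (p : ℤ) ∣ a q.2.1 - a q.2.2 := ⟨_, fun _ _ => rfl⟩
  have h1 : ∀ q, ∀ p ∈ Ioc T (2 * L), ((F q p).card : ℝ) ≤
      4 * (2 * L + 1) ^ m * ((p : ℝ) ^ 2)⁻¹ := by
    intro q p hp
    obtain ⟨p1, p2⟩ := mem_Ioc.1 hp
    rcases (F q p).eq_empty_or_nonempty with e | ⟨a, ha⟩
    · rw [e, card_empty, Nat.cast_zero]
      positivity
    · rw [hF] at ha
      obtain ⟨-, k1, k2, k3, -⟩ := mem_filter.1 ha
      refine Lat.two (by omega) p2 k1 k2 k3 fun b hb => ?_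
      rw [hF] at hb
      exact ⟨(mem_filter.1 hb).1, (mem_filter.1 hb).2.2.2.2⟩
  have h2 : ∑ p ∈ Ioc T (2 * L), ((p : ℝ) ^ 2)⁻¹ ≤ (T : ℝ)⁻¹ := by
    rcases le_total T (2 * L) with h | h
    · exact (sum_Ioc_inv_sq_le_sub (by omega) h).trans (sub_le_self _ (by positivity))
    · rw [Ioc_eq_empty_of_le h, sum_empty]
      positivity
  have h3 : ∀ q, (((Ioc T (2 * L)).biUnion (F q)).card : ℝ) ≤ 4 * (2 * L + 1) ^ m * (T : ℝ)⁻¹ := by
    intro q
    refine (Nat.cast_le.2 card_biUnion_le).trans ?_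
    rw [Nat.cast_sum]
    refine (sum_le_sum (h1 q)).trans ?_
    rw [← mul_sum]
    gcongr
  refine (Nat.cast_le.2 ((card_le_card (t := univ.biUnion fun q => (Ioc T (2 * L)).biUnion (F q))
    fun a ha => ?_).trans card_biUnion_le)).trans ?_
  · obtain ⟨hb, hi, e, f, ef, p, -, p1, d1, d2⟩ := mem_filter.1 ha
    have p2 : p ≤ 2 * L := by
      have ne : a e.1.1 - a e.1.2 ≠ 0 := sub_ne_zero.2 fun c => e.2.ne (hi c)
      have b1 := mem_Icc.1 (Fintype.mem_piFinset.1 hb e.1.1)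
      have b2 := mem_Icc.1 (Fintype.mem_piFinset.1 hb e.1.2)
      have := Int.natAbs_le_of_dvd_ne_zero d1 ne
      omega
    have key : ∃ q, a ∈ F q p := by
      by_cases c : e.1.2 = f.1.2
      · have d3 : (p : ℤ) ∣ a e.1.1 - a f.1.1 := by
          have := dvd_sub d1 d2
          rwa [c, sub_sub_sub_cancel_right] at this
        rcases lt_trichotomy e.1.1 f.1.1 with r | r | r
        · exact ⟨((e.1.1, f.1.1), f.1), hF _ _ ▸ mem_filter.2 ⟨hb, r, f.2, f.2.ne, d3, d2⟩⟩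
        · exact absurd (Subtype.ext (Prod.ext r c)) ef
        · exact ⟨((f.1.1, e.1.1), e.1), hF _ _ ▸ mem_filter.2
            ⟨hb, r, e.2, e.2.ne, dvd_sub_comm.1 d3, d1⟩⟩
      · exact ⟨(e.1, f.1), hF _ _ ▸ mem_filter.2 ⟨hb, e.2, f.2, c, d1, d2⟩⟩
    obtain ⟨q, hq⟩ := key
    exact mem_biUnion.2 ⟨q, mem_univ _, mem_biUnion.2 ⟨p, mem_Ioc.2 ⟨p1, p2⟩, hq⟩⟩
  · rw [Nat.cast_sum]
    refine (sum_le_card_nsmul _ _ _ fun q _ => h3 q).trans ?_
    simp only [card_univ, Fintype.card_prod, Fintype.card_fin, nsmul_eq_mul]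
    push_cast
    rw [div_eq_mul_inv]
    have : (0 : ℝ) ≤ (m : ℝ) ^ 4 * (2 * L + 1) ^ m * (T : ℝ)⁻¹ := by positivity
    nlinarith

end Pool.Agent.MP_a43263_nt.JU

end
end MrgPart4

-- ======== part 5: formerly Pool.Agent.MP_a43263_nt.JU.Wq
section MrgPart5

/-! PROJECT JU, rows WQ and MOB: closure properties of `Wq`, the passage between the models. -/

set_option autoImplicit false

namespace Pool.Agent.MP_a43263_nt.JU

open Finset Polynomial
open JC (fp nb tv fd W)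

namespace WQ

variable {K ι : Type} [Field K] [Fintype ι] {a D E : ι → K}

theorem nb_mul {U U' : K[X]} (h : U.Monic) (h' : U'.Monic) (x : K) :
    nb (U * U') x = nb U x * nb U' x := by
  rw [nb, nb, nb, h.natDegree_mul h', eval_mul, pow_add]; ring

theorem congr (h : Wq a D) {κ : K} (hκ : κ ≠ 0) (k : ∀ i, E i ≠ 0 ∧ IsSquare (κ * D i * E i)) :
    Wq a E := by
  obtain ⟨c, U, h0, h1, h2, h3⟩ := h
  refine ⟨c * κ, U, mul_ne_zero h0 hκ, h1, h2, fun i => ⟨(h3 i).1, (k i).1, ?_⟩⟩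
  obtain ⟨-, d, r, hr⟩ := h3 i
  obtain ⟨s, hs⟩ := (k i).2
  refine ⟨r * s / D i, ?_⟩
  field_simp
  linear_combination (κ * D i * E i) * hr + r * r * hs

theorem mul (h : Wq a D) (h' : Wq a E) : Wq a fun i => D i * E i := by
  obtain ⟨c, U, h0, h1, h2, h3⟩ := h
  obtain ⟨c', U', k0, k1, k2, k3⟩ := h'
  refine ⟨c * c', U * U', mul_ne_zero h0 k0, h1.mul k1, fun π m p d =>
    (p.prime.dvd_or_dvd d).elim (h2 π m p) (k2 π m p), fun i => ⟨?_,
      mul_ne_zero (h3 i).2.1 (k3 i).2.1, ?_⟩⟩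
  · rw [eval_mul]; exact mul_ne_zero (h3 i).1 (k3 i).1
  · have := (h3 i).2.2.mul (k3 i).2.2
    rwa [nb_mul h1 k1, mul_mul_mul_comm c, ← mul_mul_mul_comm]

/-- the values of any polynomial whose roots lie under points of the curve -/
theorem ev {U : K[X]} (h : ∀ π : K[X], π.Monic → Irreducible π → π ∣ U → ∃ V, π ∣ fp a - V ^ 2)
    (h0 : U ≠ 0) (k : ∀ i, U.eval (a i) ≠ 0) : Wq a fun i => U.eval (a i) := by
  have c := inv_ne_zero (leadingCoeff_ne_zero.2 h0)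
  refine ⟨(-1) ^ (U * C U.leadingCoeff⁻¹).natDegree * U.leadingCoeff⁻¹, _,
    mul_ne_zero (pow_ne_zero _ (by simp)) c, monic_mul_leadingCoeff_inv h0,
    fun π m p d => h π m p ((IsUnit.dvd_mul_right (isUnit_C.2 c.isUnit)).1 d), fun i => ?_⟩
  rw [nb, eval_mul, eval_C]
  exact ⟨mul_ne_zero (k i) c, k i, _, by
    rw [mul_assoc _ U.leadingCoeff⁻¹, mul_comm U.leadingCoeff⁻¹]⟩

theorem one : Wq a fun _ => 1 := by
  simpa using ev (a := a) (U := 1) (fun π _ p d => absurd (isUnit_of_dvd_one d) p.not_isUnit)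
    one_ne_zero (by simp)

theorem pow (h : Wq a D) (n : ℕ) : Wq a fun i => D i ^ n := by
  induction n with
  | zero => simpa using one
  | succ n ih => simpa only [pow_succ] using mul ih h

theorem tw (hi : Function.Injective a) (j : ι) : Wq a (tv a j) := by
  classical
  obtain ⟨U, hU⟩ : ∃ U : K[X], U = ∏ k ∈ univ.erase j, (X - C (a k)) - (X - C (a j)) := ⟨_, rfl⟩
  have e : ∀ i, U.eval (a i) = tv a j i := fun i => by
    rw [hU, eval_sub, eval_prod, tv]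
    split_ifs with c
    · rw [c, fd]
      simp only [eval_sub, eval_X, eval_C, sub_self, sub_zero]
    · rw [prod_eq_zero (mem_erase.2 ⟨c, mem_univ i⟩) (by simp)]; simp
  have n0 : ∀ i, U.eval (a i) ≠ 0 := fun i => by
    rw [e, tv]
    split_ifs with c
    · exact prod_ne_zero_iff.2 fun k hk => sub_ne_zero.2 fun q => by simp [hi q] at hk
    · exact sub_ne_zero.2 fun q => c (hi q).symm
  rw [← funext e]
  refine ev (fun π _ _ d => ⟨X - C (a j), d.trans ⟨X - C (a j), ?_⟩⟩)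
    (fun q => n0 j (by simp [q])) n0
  rw [hU, fp, ← mul_prod_erase univ _ (mem_univ j)]; ring

theorem ind (P : (ι → K) → Prop) (h1 : P fun _ => 1) (hm : ∀ D E, P D → P E → P fun i => D i * E i)
    (hp : ∀ π V : K[X], π.Monic → Irreducible π → π ∣ fp a - V ^ 2 → (∀ i, π.eval (a i) ≠ 0) →
      P fun i => nb π (a i)) (n : ℕ) : ∀ U : K[X], U.natDegree = n → U.Monic →
      (∀ π : K[X], π.Monic → Irreducible π → π ∣ U → ∃ V, π ∣ fp a - V ^ 2) →
      (∀ i, U.eval (a i) ≠ 0) → P fun i => nb U (a i) := by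
  induction n using Nat.strong_induction_on with
  | _ n ih =>
  intro U hn m h k
  by_cases u : IsUnit U
  · rw [m.isUnit_iff.1 u]; simpa [nb] using h1
  obtain ⟨π, p1, p2, U', rfl⟩ := exists_monic_irreducible_factor U u
  have m' := p1.of_mul_monic_left m
  obtain ⟨V, hV⟩ := h π p1 p2 (dvd_mul_right _ _)
  simp only [eval_mul, mul_ne_zero_iff] at k
  simp only [nb_mul p1 m']
  refine hm _ _ (hp π V p1 p2 hV fun i => (k i).1) (ih _ ?_ U' rfl m'
    (fun q a b c => h q a b (c.mul_left _)) fun i => (k i).2)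
  have := p2.natDegree_pos
  rw [← hn, p1.natDegree_mul m']
  omega

end WQ

open WQ

theorem wq : WQStmt := by
  classical
  refine fun K ι _ _ a => ⟨fun D ⟨U, V, h1, h2, h3⟩ => ⟨1, U, one_ne_zero, h1,
    fun π _ _ d => ⟨V, d.trans h2⟩, by simpa only [one_mul] using h3⟩, fun _ _ => mul,
    fun _ hi S => ?_, fun P h1 hm hs hp D ⟨κ, U, k0, k1, k2, k3⟩ => ?_⟩
  · induction S using Finset.induction_on with
    | empty => exact one
    | insert j S hj ih =>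
      rw [show tS a (insert j S) = fun i => tv a j i * tS a S i from funext fun i => prod_insert hj]
      exact mul (tw hi j) ih
  · refine hs _ D (fun i => ⟨mul_ne_zero k0 (mul_ne_zero (pow_ne_zero _ (by simp)) (k3 i).1),
      (k3 i).2.1, mul_right_comm κ (D i) _ ▸ (k3 i).2.2⟩)
      (hm _ _ (h1 κ k0) (ind P (h1 1 one_ne_zero) hm hp _ U rfl k1 k2 fun i => (k3 i).1))

theorem mob (_ : WQStmt) : MOBStmt := by
  classical
  intro K _ n a ⟨r, hr⟩ _ hi
  obtain ⟨b, hb⟩ : ∃ b : Fin n → K, ∀ i, b i = a i.castSucc - a (Fin.last n) := ⟨_, fun _ => rfl⟩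
  have b0 : ∀ i, b i ≠ 0 := fun i => hb i ▸ sub_ne_zero.2 (hi.ne (Fin.castSucc_lt_last i).ne)
  obtain ⟨B, hB⟩ : ∃ B, B = ∏ i, b i := ⟨_, rfl⟩
  have B0 : B ≠ 0 := hB ▸ prod_ne_zero_iff.2 fun i _ => b0 i
  have hc : ∀ i, cv a i = -B / b i := fun i => by
    rw [eq_div_iff (b0 i), hB, ← prod_erase_mul univ b (mem_univ i), cv, neg_mul]
    simp only [hb]
  have c0 : ∀ i, cv a i ≠ 0 := fun i => hc i ▸ div_ne_zero (neg_ne_zero.2 B0) (b0 i)
  refine ⟨fun i k e => ?_, ⟨X, C (B ^ r), monic_X, ?_, fun i => ?_⟩, fun d ⟨U, V, u1, u2, u3⟩ => ?_⟩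
  · rw [hc, hc, div_eq_div_iff (b0 i) (b0 k), mul_right_inj' (neg_ne_zero.2 B0), hb, hb] at e
    exact Fin.castSucc_injective _ (hi (sub_left_injective e)).symm
  · rw [X_dvd_iff, coeff_zero_eq_eval_zero, eval_sub, eval_pow, eval_C, fp, eval_prod]
    simp only [eval_sub, eval_X, eval_C, hc, zero_sub, neg_div, neg_neg, prod_div_distrib, ← hB,
      prod_const, card_univ, Fintype.card_fin]
    rw [hr]; field_simp; ring
  · simpa [nb] using c0 i
  have T : Wq a (Fin.snoc (α := fun _ => K) (fun i => -cv a i) 1) := by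
    refine congr (tw hi (Fin.last n)) (neg_ne_zero.2 B0) fun i => ?_
    refine Fin.lastCases ⟨by simp, B, ?_⟩ (fun i => ⟨by simpa using c0 i, B, ?_⟩) i
    · have : fd a (Fin.last n) = ∏ i, -b i := by
        rw [fd, show ∏ i, -b i = ∏ k ∈ univ.map Fin.castSuccEmb, (a (Fin.last n) - a k) by
          simp [hb]]
        exact prod_congr (by ext; simp [Fin.exists_castSucc_eq]) fun _ _ => rfl
      rw [tv, if_pos rfl, this, prod_neg, ← hB, card_univ, Fintype.card_fin, Odd.neg_one_pow ⟨r, hr⟩]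
      simp
    · have := b0 i
      rw [tv, if_neg (Fin.castSucc_lt_last i).ne, Fin.snoc_castSucc, hc, ← neg_sub, ← hb]
      field_simp
  obtain ⟨U0, hU⟩ : ∃ U0, U0 = U.reverse.comp (C (-B⁻¹) * (X - C (a (Fin.last n)))) := ⟨_, rfl⟩
  have e1 : U0.eval (a (Fin.last n)) = 1 := by
    simp [hU, eval_comp, ← coeff_zero_eq_eval_zero, u1.leadingCoeff]
  have key : ∀ (L : Type) [Field L] (φ : K →+* L) (θ x : L), x * (θ - φ (a (Fin.last n))) = -φ B →
      U0.eval₂ φ θ * x ^ U.natDegree = U.eval₂ φ x := fun L _ φ θ x h => by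
    have p := (map_ne_zero φ).2 B0
    have x0 : x ≠ 0 := fun q => p (by simpa [q] using h)
    let := invertibleOfNonzero x0
    rw [← eval₂_reverse_mul_pow φ x U, hU, eval₂_comp, invOf_eq_inv]
    rw [eval₂_mul, eval₂_C, eval₂_sub, eval₂_X, eval₂_C, map_neg, map_inv₀,
      show -(φ B)⁻¹ * (θ - φ (a (Fin.last n))) = x⁻¹ by field_simp; linear_combination -h]
  have e2 : ∀ i : Fin n, U0.eval (a i.castSucc) * cv a i ^ U.natDegree = U.eval (cv a i) :=
    fun i => key K (RingHom.id K) _ _ (by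
      rw [RingHom.id_apply, ← hb, hc, div_mul_cancel₀ _ (b0 i), RingHom.id_apply])
  have S : Wq a fun i => U0.eval (a i) := by
    refine ev (fun π m p q => ?_) (fun q => by simp [q] at e1) fun i => ?_
    · have := Fact.mk p
      obtain ⟨θ, hθ⟩ : ∃ θ, θ = AdjoinRoot.root π := ⟨_, rfl⟩
      obtain ⟨φ, hφ⟩ : ∃ φ, φ = AdjoinRoot.of π := ⟨_, rfl⟩
      have mk : ∀ f, AdjoinRoot.mk π f = f.eval₂ φ θ := fun f => by
        rw [hθ, hφ, ← AdjoinRoot.aeval_eq, aeval_def, AdjoinRoot.algebraMap_eq]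
      have z : U0.eval₂ φ θ = 0 := mk _ ▸ AdjoinRoot.mk_eq_zero.2 q
      obtain ⟨t, ht⟩ : ∃ t, t = θ - φ (a (Fin.last n)) := ⟨_, rfl⟩
      have t0 : t ≠ 0 := fun y => by
        rw [sub_eq_zero.1 (ht.symm.trans y), eval₂_at_apply, e1, map_one] at z
        exact one_ne_zero z
      have pB := (map_ne_zero φ).2 B0
      have k := key _ φ θ (-φ B / t) (ht ▸ div_mul_cancel₀ _ t0)
      rw [z, zero_mul] at k
      have k2 := eval₂_eq_zero_of_dvd_of_eval₂_eq_zero φ _ u2 k.symm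
      obtain ⟨V', hV⟩ := AdjoinRoot.mk_surjective (V.eval₂ φ (-φ B / t) * t ^ (r + 1) / φ B ^ r)
      refine ⟨V', AdjoinRoot.mk_eq_mk.1 ?_⟩
      have f1 : (fp a).eval₂ φ θ = (∏ i, (t - φ (b i))) * t := by
        simp [fp, eval₂_finsetProd, Fin.prod_univ_castSucc, hb, ht]
      have f2 : (fp (cv a)).eval₂ φ (-φ B / t) =
          φ B ^ n * (∏ i, (t - φ (b i))) / (t ^ n * φ B) := by
        have : ∀ i, -φ B / t - φ (cv a i) = φ B * (t - φ (b i)) / (t * φ (b i)) := fun i => by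
          have := (map_ne_zero φ).2 (b0 i)
          rw [hc, map_div₀, map_neg]; field_simp; ring
        simp only [fp, eval₂_finsetProd, eval₂_sub, eval₂_X, eval₂_C, this, prod_div_distrib,
          prod_mul_distrib, prod_const, card_univ, Fintype.card_fin, ← map_prod, ← hB]
      rw [eval₂_sub, eval₂_pow, f2, sub_eq_zero] at k2
      rw [map_pow, hV, mk, f1, div_pow, mul_pow, ← k2]
      generalize ∏ i, (t - φ (b i)) = Q
      rw [hr]; field_simp; ring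
    · refine Fin.lastCases (e1 ▸ one_ne_zero) (fun i q => (u3 i).1 ?_) i
      rw [← e2, q, zero_mul]
  refine congr (mul S (pow T U.natDegree)) one_ne_zero fun i => ?_
  refine Fin.lastCases (by simp [e1]) (fun i => ?_) i
  simp only [Fin.snoc_castSucc]
  refine ⟨(u3 i).2.1, ?_⟩
  have := (u3 i).2.2
  rw [nb, ← e2] at this
  rwa [neg_pow, one_mul, mul_comm _ (d i), mul_left_comm (eval _ _)]

end Pool.Agent.MP_a43263_nt.JU

end MrgPart5

-- ======== part 6: formerly Pool.Agent.MP_a43263_nt.JU.Br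
section MrgPart6

/-! PROJECT JU: the hypotheses of the descent and of the analytic part. -/

set_option autoImplicit false

noncomputable section

namespace Pool.Agent.MP_a43263_nt.JU

open Finset
open RG.Br (not_dvd_of_cop)

namespace Br

variable {m : ℕ} {B : Base m} {M R : ℕ}

theorem lk_symm {e f : Ed m} (h : lk e f) : lk f e := by
  refine ⟨h.1.symm, ?_⟩
  rcases h.2 with (h | h) | h | h
  exacts [.inl (.inl h.symm), .inr (.inl h.symm), .inl (.inr h.symm), .inr (.inr h.symm)]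

theorem mem_V0 {N : ℕ} {x : Gen m} : x ∈ V0 m N ↔
    x.1.1 ∈ Pe m ∧ x.1.2 = none ∧ (x.2 = 1 ∨ x.2 ∈ N.primeFactors) := by
  obtain ⟨⟨e, t⟩, p⟩ := x
  simp only [V0, mem_product, mem_image, mem_insert, Prod.mk.injEq]
  exact ⟨fun ⟨⟨_, h, h1, h2⟩, h3⟩ => ⟨h1 ▸ h, h2.symm, h3⟩,
    fun ⟨h, h2, h3⟩ => ⟨⟨e, h, rfl, h2.symm⟩, h3⟩⟩

theorem mem_V1 {x : Gen m} : x ∈ B.V1 ↔ x.1.2 = none ∧ x.2 ∈ (B.α x.1.1).primeFactors := by
  obtain ⟨⟨e, t⟩, p⟩ := x
  simp only [Base.V1, mem_biUnion, mem_univ, true_and, mem_image, Prod.mk.injEq]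
  exact ⟨fun ⟨_, _, h, ⟨h1, h2⟩, h3⟩ => ⟨h2.symm, h1 ▸ h3 ▸ h⟩,
    fun ⟨h, h2⟩ => ⟨e, p, h2, ⟨rfl, h.symm⟩, rfl⟩⟩

theorem mem_gs {l : Ed m → ℕ} {x : Gen m} :
    x ∈ gens l ↔ x.1.2 = some true ∧ x.2 ∈ (l x.1.1).primeFactors := by
  obtain ⟨⟨e, t⟩, p⟩ := x
  simp only [gens, tg, mem_biUnion, mem_univ, true_and, mem_image, Prod.mk.injEq]
  exact ⟨fun ⟨_, _, h, ⟨h1, h2⟩, h3⟩ => ⟨h2.symm, h1 ▸ h3 ▸ h⟩,
    fun ⟨h, h2⟩ => ⟨e, p, h2, ⟨rfl, h.symm⟩, rfl⟩⟩

theorem gen_ext {x y : Gen m} (h1 : x.1.1 = y.1.1) (h2 : x.1.2 = y.1.2) (h3 : x.2 = y.2) : x = y :=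
  Prod.ext (Prod.ext h1 h2) h3

theorem card_gs (l : Ed m → ℕ) : (gens l).card = ∑ h, (l h).primeFactors.card := by
  rw [gens, card_biUnion]
  · exact sum_congr rfl fun h _ => card_image_of_injective _ fun _ _ e => (Prod.mk.inj e).2
  · intro h _ k _ hk
    simp only [Function.onFun, disjoint_left, mem_image]
    rintro _ ⟨p, -, rfl⟩ ⟨q, -, e⟩
    exact hk (congrArg (fun x : Gen m => x.1.1) e).symm

theorem not_dvd_of_one {N a p : ℕ} (h : a ≡ 1 [MOD 8 * N]) (hp : p ∈ a.primeFactors) :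
    ¬p ∣ 8 * N :=
  not_dvd_of_cop (Nat.prime_of_mem_primeFactors hp) (by rw [Nat.Coprime, h.gcd_eq, Nat.gcd_one_left])
    (Nat.dvd_of_mem_primeFactors hp)

theorem cls_eq {c : Ed m → ℕ} {e f : Ed m} {p q : ℕ} (hp : p ∈ (c e).primeFactors)
    (hq : q ∈ (c f).primeFactors) (h : p = q) : ¬(c e).Coprime (c f) := fun k =>
  not_dvd_of_cop (Nat.prime_of_mem_primeFactors hp) k (Nat.dvd_of_mem_primeFactors hp)
    (h ▸ Nat.dvd_of_mem_primeFactors hq)

theorem V1_notN (hB : B.Ok) {x : Gen m} (hx : x ∈ B.V1) : x.2.Prime ∧ ¬x.2 ∣ 8 * B.N :=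
  ⟨Nat.prime_of_mem_primeFactors (mem_V1.1 hx).2, not_dvd_of_one (hB.one _) (mem_V1.1 hx).2⟩

theorem dist_V1 (hB : B.Ok) : Dist B.V1 := fun x hx y hy e => by
  obtain ⟨x1, x2⟩ := mem_V1.1 hx
  obtain ⟨y1, y2⟩ := mem_V1.1 hy
  exact gen_ext (by_contra fun c => cls_eq x2 y2 e (hB.cop _ _ c)) (x1.trans y1.symm) e

theorem V1_M (hM : B.Fits M) {x : Gen m} (hx : x ∈ B.V1) : x.2 ∣ M :=
  ((Nat.dvd_of_mem_primeFactors (mem_V1.1 hx).2).mul_left _).trans (hM.dv _)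

/-- the edge that sees only the generators of one class of `Pe` -/
theorem exists_dual {e : Ed m} (he : e ∈ Pe m) :
    ∃ f, lk e f ∧ ∀ e' ∈ Pe m, lk e' f → e' = e := by
  obtain ⟨⟨k, h1⟩, h2, h3⟩ := (mem_filter.1 he).2
  refine ⟨⟨(e.1.2, ⟨m - 1, by omega⟩), by rw [Fin.lt_def]; simp only; omega⟩,
    ⟨fun c => ?_, .inr (.inl rfl)⟩, fun e' he' h => ?_⟩
  · have := congrArg (fun f : Ed m => f.1.1.1) c
    simp only at this
    omega
  · obtain ⟨⟨k', h4⟩, h5, h6⟩ := (mem_filter.1 he').2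
    have h7 := h.2
    simp only [inE, Fin.ext_iff] at h7
    exact Subtype.ext (Prod.ext (Fin.ext (by omega)) (Fin.ext (by omega)))

theorem ind (comb : COMBStmt) (kc : KCStmt) (hm : 3 ≤ m) (hB : B.Ok) {U : Finset (Gen m)}
    (hU : U ⊆ V0 m B.N ∪ B.V1) (h : ∀ e, IsSquare (Gv e U)) : U = ∅ := by
  have hp : ∀ a ∈ U, a.2 = 1 ∨ a.2.Prime := fun a ha => (mem_union.1 (hU ha)).elim
    (fun c => (mem_V0.1 c).2.2.imp_right Nat.prime_of_mem_primeFactors) fun c => .inr (V1_notN hB c).1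
  have key : ∀ b ∈ U, b.2.Prime → ∀ e, lk b.1.1 e →
      ¬∀ a ∈ U, a.2 = b.2 → lk a.1.1 e → a = b := fun b hb h1 e h2 h3 =>
    ((kc m).2.2.1 U e hp).2.2 b hb h1 h2 h3 1
      (fun c => (Nat.prime_iff_prime_int.1 h1).not_isUnit (isUnit_of_dvd_one c))
      (by rw [mul_one]; exact h e)
  have h0 : U ⊆ V0 m B.N := fun b hb => (mem_union.1 (hU hb)).elim id fun h1 => by
    obtain ⟨f, hf⟩ := (comb m hm).2.2.1 b.1.1
    refine absurd (fun a ha e _ => ?_) (key b hb (V1_notN hB h1).1 f (lk_symm hf))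
    refine (mem_union.1 (hU ha)).elim (fun c => ?_) fun c => dist_V1 hB a c b h1 e
    rcases (mem_V0.1 c).2.2 with c | c
    · exact absurd (e.symm.trans c) (V1_notN hB h1).1.ne_one
    · exact absurd (e ▸ (Nat.dvd_of_mem_primeFactors c).mul_left 8) (V1_notN hB h1).2
  have uq : ∀ b ∈ U, ∃ f, lk b.1.1 f ∧ ∀ a ∈ U, a.2 = b.2 → lk a.1.1 f → a = b := fun b hb => by
    obtain ⟨f, h1, h2⟩ := exists_dual (mem_V0.1 (h0 hb)).1
    exact ⟨f, h1, fun a ha e c => gen_ext (h2 _ (mem_V0.1 (h0 ha)).1 c)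
      ((mem_V0.1 (h0 ha)).2.1.trans (mem_V0.1 (h0 hb)).2.1.symm) e⟩
  have h1 : ∀ b ∈ U, b.2 = 1 := fun b hb => (hp b hb).resolve_right fun c => by
    obtain ⟨f, h1, h2⟩ := uq b hb
    exact key b hb c f h1 h2
  refine eq_empty_of_forall_notMem fun b hb => ?_
  obtain ⟨f, h2, h3⟩ := uq b hb
  have h4 : Gv f U = -1 := by
    rw [Gv, prod_eq_single_of_mem b hb fun a ha c => ?_]
    · rw [G, if_pos h2, val, if_pos (h1 b hb), if_neg (by rw [h1 b hb]; decide), mul_one]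
    · rw [G, if_neg fun k => c (h3 a ha ((h1 a ha).trans (h1 b hb).symm) k),
        if_neg (by rw [h1 a ha]; decide), mul_one]
  obtain ⟨t, ht⟩ := h f
  have := mul_self_nonneg t
  omega

theorem ok (comb : COMBStmt) (kc : KCStmt) (hm : 3 ≤ m) (hB : B.Ok) (hM : B.Fits M) (hR : 1 ≤ R) :
    (B.dat M R).Ok := by
  refine ⟨hm, hM.pos, hR, hM.sm, hM.dv, fun x hx => ?_, fun U hU => ind comb kc hm hB hU⟩
  rcases mem_union.1 hx with h | h
  · exact ⟨(mem_V0.1 h).2.1, (mem_V0.1 h).2.2.imp_right fun c =>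
      ⟨Nat.prime_of_mem_primeFactors c, (Nat.dvd_of_mem_primeFactors c).trans hM.nM⟩⟩
  · exact ⟨(mem_V1.1 h).1, .inr ⟨(V1_notN hB h).1, V1_M hM h⟩⟩

theorem dg_V1 (hB : B.Ok) (a : Fin m → ℤ) {x : Gen m} (hx : x ∈ B.V1) :
    (B.dat M R).dga a x = jacobiSym (ga B.a0 x.1.1) x.2 := by
  rw [Dat.dga, if_pos (mem_V1.1 hx).1]
  exact if_neg fun c => c.elim (V1_notN hB hx).1.ne_one fun c => (V1_notN hB hx).2 (c.mul_left _)

theorem dg_sgn (hB : B.Ok) {x : Gen m} (hx : x ∈ B.V1) :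
    jacobiSym (ga B.a0 x.1.1) x.2 = 1 ∨ jacobiSym (ga B.a0 x.1.1) x.2 = -1 := by
  obtain ⟨hp, hN⟩ := V1_notN hB hx
  have hp' : Prime (x.2 : ℤ) := Nat.prime_iff_prime_int.1 hp
  have h1 : ∀ f : Ed m, f ≠ x.1.1 → ¬(x.2 : ℤ) ∣ B.a0 f.1.1 - B.a0 f.1.2 := fun f hf c => by
    rw [hB.eq, Int.natCast_dvd_natCast, Base.Δ] at c
    rcases (Nat.Prime.dvd_mul hp).1 c with c | c
    · exact hN (hp.dvd_of_dvd_pow (hp.dvd_of_dvd_pow c))
    · exact not_dvd_of_cop hp (hB.cop _ _ hf) c (Nat.dvd_of_mem_primeFactors (mem_V1.1 hx).2)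
  refine jacobiSym.eq_one_or_neg_one (Int.isCoprime_iff_gcd_eq_one.1
    ((hp'.irreducible.coprime_iff_not_dvd).2 fun c => ?_).symm)
  rcases hp'.dvd_or_dvd c with c | c
  · exact hp'.not_isUnit (isUnit_of_dvd_unit c (isUnit_one.neg.pow _))
  · obtain ⟨k, hk, c⟩ := (hp'.dvd_finsetProd_iff _).1 c
    replace hk := (mem_filter.1 hk).2
    rcases lt_trichotomy x.1.1.1.1 k with h | h | h
    · exact h1 ⟨(_, k), h⟩ (fun e => hk (.inr (congrArg (fun f : Ed m => f.1.2) e))) c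
    · exact hk (.inl h.symm)
    · exact h1 ⟨(k, _), h⟩ (fun e => hk (.inl (congrArg (fun f : Ed m => f.1.1) e)))
        (dvd_sub_comm.1 c)

theorem sub_modEq (hB : B.Ok) {a : Fin m → ℤ} (ha : Adm (B.dat M R) a) (i k : Fin m) :
    a i - a k ≡ B.a0 i - B.a0 k [ZMOD M] := by
  have h1 : ∀ f : Ed m, a f.1.1 - a f.1.2 ≡ B.a0 f.1.1 - B.a0 f.1.2 [ZMOD M] := fun f => by
    have h2 := (Int.natCast_modEq_iff.2 ((ha.one f).of_mul_left 8)).mul_left (B.Δ f : ℤ)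
    rw [Nat.cast_one, mul_one] at h2
    rw [ha.eq, hB.eq]
    exact h2
  rcases lt_trichotomy i k with h | rfl | h
  · exact h1 ⟨(i, k), h⟩
  · rw [sub_self, sub_self]
  · simpa using (h1 ⟨(k, i), h⟩).neg

end Br

open Br

theorem br : COMBStmt → KCStmt → SYMStmt → BRStmt := by
  intro comb kc sym m B M R hm hB hM hR
  have hD := ok comb kc hm hB hM hR
  refine ⟨hD, ∏ x ∈ B.V1, jacobiSym (ga B.a0 x.1.1) x.2,
    prod_induction _ (fun s : ℤ => s = 1 ∨ s = -1) ?_ (.inl rfl) fun x hx => dg_sgn hB hx,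
    fun a ha => ?_⟩
  · rintro _ _ (rfl | rfl) (rfl | rfl) <;> simp
  have hg : ∀ x ∈ gens ((B.dat M R).l a), x.2.Prime ∧ ¬x.2 ∣ M := fun x hx =>
    ⟨Nat.prime_of_mem_primeFactors (mem_gs.1 hx).2, fun c =>
      not_dvd_of_one (ha.one _) (mem_gs.1 hx).2 (c.mul_left _)⟩
  have hd : ∀ x ∈ B.V1, ∀ y ∈ gens ((B.dat M R).l a), x.2 ≠ y.2 := fun x hx y hy e =>
    (hg y hy).2 (e ▸ V1_M hM hx)
  have hj : Disjoint B.V1 (gens ((B.dat M R).l a)) := disjoint_left.2 fun x hx hy => hd x hx x hy rfl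
  have sep : ∀ x ∈ B.V1 ∪ gens ((B.dat M R).l a), ∀ y ∈ B.V1 ∪ gens ((B.dat M R).l a),
      x.2 = y.2 → x = y ∨ (x.1.1 ≠ y.1.1 ∧
        ¬((B.dat M R).l a x.1.1).Coprime ((B.dat M R).l a y.1.1)) := fun x hx y hy e => by
    rcases mem_union.1 hx with hx | hx <;> rcases mem_union.1 hy with hy | hy
    · exact .inl (dist_V1 hB x hx y hy e)
    · exact absurd e (hd x hx y hy)
    · exact absurd e.symm (hd y hy x hx)
    · by_cases c : x.1.1 = y.1.1
      · exact .inl (gen_ext c ((mem_gs.1 hx).1.trans (mem_gs.1 hy).1.symm) e)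
      · exact .inr ⟨c, cls_eq (mem_gs.1 hx).2 (mem_gs.1 hy).2 e⟩
  refine ⟨⟨hm, hB.pos, hB.two, fun x hx => ?_, fun x hx y hy e =>
    (sep x hx y hy e).imp_right fun c => ⟨c.1, fun k => c.2 (ha.cop _ _ k)⟩, fun e => ?_,
    fun e => ?_, fun e => ?_, fun x hx => ?_, fun x hx => ?_⟩, ?_,
    fun hc x hx y hy e => (sep x hx y hy e).resolve_right fun c => c.2 (hc _ _ c.1)⟩
  · rcases mem_union.1 hx with hx | hx
    · exact ⟨(V1_notN hB hx).1, fun c => (V1_notN hB hx).2 (c.mul_left _)⟩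
    · exact ⟨(hg x hx).1, fun c => (hg x hx).2 (c.trans hM.nM)⟩
  · have h1 : ∀ (W : Finset (Gen m)) (t : Option Bool) (c : Ed m → ℕ), Squarefree (c e) →
        (∀ x, x ∈ W ↔ x.1.2 = t ∧ x.2 ∈ (c x.1.1).primeFactors) →
        ∏ x ∈ W.filter (fun x => x.1.1 = e), x.2 = c e := fun W t c h1 h2 => by
      have h3 : W.filter (fun x => x.1.1 = e) = (c e).primeFactors.image fun p => ((e, t), p) := by
        ext x
        rw [mem_filter, h2, mem_image]
        constructor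
        · rintro ⟨⟨h3, h4⟩, rfl⟩
          exact ⟨_, h4, gen_ext rfl h3.symm rfl⟩
        · rintro ⟨p, hp, rfl⟩
          exact ⟨⟨rfl, hp⟩, rfl⟩
      rw [h3, prod_image fun _ _ _ _ e => (Prod.mk.inj e).2,
        Nat.prod_primeFactors_of_squarefree h1]
    rw [filter_union, prod_union (disjoint_filter_filter hj), h1 _ _ _ (hB.sqf e) fun _ => mem_V1,
      h1 _ _ _ (ha.sqf e) fun _ => mem_gs]
  · rw [ha.eq]
    change ((B.Δ e : ℕ) : ℤ) * _ = _
    rw [Base.Δ]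
    push_cast
    ring
  · simpa using (hB.one e).mul ((ha.one e).of_dvd (mul_dvd_mul_left 8 hM.nM))
  · rcases mem_union.1 hx with hx | hx
    · rw [dg_V1 hB a hx]
      exact jacobiSym.mod_left' ((RG.Br.prod_modEq _ fun k _ =>
        ((sub_modEq hB ha _ k).of_dvd (Int.natCast_dvd_natCast.2 (V1_M hM hx))).symm).mul_left _)
    · exact if_neg (by rw [(mem_gs.1 hx).1]; exact Option.some_ne_none _)
  · rw [Dat.dga, if_pos (mem_V0.1 hx).2.1]
    exact if_pos ((mem_V0.1 hx).2.2.imp_right Nat.dvd_of_mem_primeFactors)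
  · rw [prod_union hj, prod_congr rfl fun x hx => dg_V1 hB a hx,
      ((sym m _ hD).2.1 a ha).2.2.2.2.2.2.2]

end Pool.Agent.MP_a43263_nt.JU

end
end MrgPart6

-- marker of a merged file
example : 731051 + 879864 = 731051 + 879864 := rfl
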