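import Pool.Agent.MP_a43263_nt.RG.Basic
import Pool.Agent.MP_a43263_nt.JU.Br

-- ======== part 0: formerly Pool.Agent.MP_a43263_nt.JU.Basic
section MrgPart0

/-! PROJECT JU: elementary facts used by several modules. The lemmas of `R2.Basic` on signs, `chi`,
`Ker`, `pri`, `PP` and of `RG.Basic` on `Rel`, `Ev`, `Shape` apply unchanged. -/

set_option autoImplicit false
set_option linter.unusedSectionVars false

noncomputable section

namespace Pool.Agent.MP_a43263_nt.JU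

open Finset Filter
open R2 (Sgn chi Ker sg pri PP chs Sc Core Shape sg_sgn sg_eq mem_pri mem_PP)
open RG (Rel Ev EE)

variable {m : ℕ}

/-! ### edges -/

section
variable {e f g : Ed m} {i j : Fin m}

theorem Ed.ne (e : Ed m) : e.1.1 ≠ e.1.2 := e.2.ne

theorem inE_fst (e : Ed m) : inE e.1.1 e := .inl rfl

theorem inE_snd (e : Ed m) : inE e.1.2 e := .inr rfl

theorem Ed.eq_of (h1 : inE e.1.1 f) (h2 : inE e.1.2 f) : e = f := by
  obtain ⟨⟨a, b⟩, h⟩ := e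
  obtain ⟨⟨c, d⟩, h'⟩ := f
  simp only [inE, Subtype.mk.injEq, Prod.mk.injEq] at h1 h2 ⊢
  dsimp only at h h'
  omega

theorem lk_iff : lk e f ↔ e ≠ f ∧ ∃ i, inE i e ∧ inE i f :=
  and_congr_right fun _ => ⟨fun h => h.elim (fun k => ⟨_, inE_fst e, k⟩) fun k => ⟨_, inE_snd e, k⟩,
    fun ⟨_, h, k⟩ => h.elim (fun t => .inl (t ▸ k)) fun t => .inr (t ▸ k)⟩

theorem lk.symm (h : lk e f) : lk f e :=
  lk_iff.2 ⟨h.1.symm, (lk_iff.1 h).2.imp fun _ k => k.symm⟩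

theorem lk_comm : lk e f ↔ lk f e := ⟨lk.symm, lk.symm⟩

theorem lk_irrefl (e : Ed m) : ¬lk e e := fun h => h.1 rfl

theorem ov_mem (f g : Ed m) : inE (ov f g) f := by
  unfold ov
  split_ifs
  exacts [inE_snd f, inE_fst f]

theorem cm_mem (f g : Ed m) : inE (cm f g) f := by
  unfold cm
  split_ifs
  exacts [inE_fst f, inE_snd f]

theorem ov_not_mem (h : f ≠ g) : ¬inE (ov f g) g := by
  unfold ov
  split_ifs with k
  exacts [fun t => h (Ed.eq_of k t), k]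

theorem lk.cm_mem (h : lk f g) : inE (cm f g) g := by
  unfold cm
  split_ifs with k
  exacts [k, h.2.resolve_left k]

theorem cm_ne_ov (f g : Ed m) : cm f g ≠ ov f g := by
  unfold cm ov
  split_ifs
  exacts [f.ne, f.ne.symm]

theorem inE_iff (f g : Ed m) : inE i f ↔ i = cm f g ∨ i = ov f g := by
  unfold cm ov
  split_ifs
  exacts [Iff.rfl, or_comm]

theorem ends (f g : Ed m) :
    (cm f g = f.1.1 ∧ ov f g = f.1.2) ∨ (cm f g = f.1.2 ∧ ov f g = f.1.1) := by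
  unfold cm ov
  split_ifs
  exacts [.inl ⟨rfl, rfl⟩, .inr ⟨rfl, rfl⟩]

/-- a common vertex of different edges is `cm` -/
theorem eq_cm (h : f ≠ g) (h1 : inE i f) (h2 : inE i g) : i = cm f g :=
  ((inE_iff f g).1 h1).resolve_right fun k => ov_not_mem h (k ▸ h2)

theorem eq_ov (h1 : inE i f) (h2 : ¬inE i g) (h : lk f g) : i = ov f g :=
  ((inE_iff f g).1 h1).resolve_left fun k => h2 (k ▸ h.cm_mem)

theorem lk.cm_comm (h : lk f g) : cm f g = cm g f := eq_cm h.1.symm h.cm_mem (JU.cm_mem f g)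

/-- the edge between two different vertices -/
def edge (i j : Fin m) (h : i ≠ j) : Ed m :=
  if k : i < j then ⟨(i, j), k⟩ else ⟨(j, i), lt_of_le_of_ne (not_lt.1 k) h.symm⟩

theorem inE_edge {k : Fin m} (h : i ≠ j) : inE k (edge i j h) ↔ k = i ∨ k = j := by
  unfold edge
  split_ifs
  exacts [Iff.rfl, or_comm]

theorem mem_out : i ∈ out e ↔ ¬inE i e := by simp [out]

theorem out_eq (e : Ed m) : out e = (univ.erase e.1.1).erase e.1.2 := by
  ext k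
  simp only [mem_out, inE, mem_erase, mem_univ, and_true, not_or]
  exact and_comm

theorem ov_mem_out (h : f ≠ g) : ov f g ∈ out g := mem_out.2 (ov_not_mem h)

/-- the edge from an end of `e` to a vertex outside `e` -/
theorem exists_lk (hi : inE i e) (hj : j ∈ out e) :
    ∃ f, lk f e ∧ cm f e = i ∧ ov f e = j := by
  have hj' := mem_out.1 hj
  have hne : i ≠ j := fun k => hj' (k ▸ hi)
  have h1 : inE i (edge i j hne) := (inE_edge hne).2 (.inl rfl)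
  have h2 : inE j (edge i j hne) := (inE_edge hne).2 (.inr rfl)
  have h3 : edge i j hne ≠ e := fun k => hj' (k ▸ h2)
  have h4 : lk (edge i j hne) e := lk_iff.2 ⟨h3, i, h1, hi⟩
  exact ⟨_, h4, (eq_cm h3 h1 hi).symm, (eq_ov h2 hj' h4).symm⟩

theorem mem_nbr {A : Finset (Ed m)} : f ∈ nbr A ↔ ∃ e ∈ A, lk e f := by simp [nbr]

theorem mem_Yc {y : Finset (Ed m)} : y ∈ Yc m ↔ ∀ h, ∀ k ∈ out h, Even (dk y h k) := by simp [Yc]

theorem two_NE_le (m : ℕ) : 2 * NE m ≤ m ^ 2 := by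
  have h := Fintype.card_le_of_injective
    (fun x : Bool × Ed m => if x.1 then x.2.1 else x.2.1.swap) (by
      rintro ⟨s, ⟨a, b⟩, h⟩ ⟨t, ⟨c, d⟩, h'⟩ k
      cases s <;> cases t <;> simp only [Bool.false_eq_true, if_false, if_true, Prod.swap,
        Prod.mk.injEq, Subtype.mk.injEq, true_and, reduceCtorEq, false_and] at k h h' ⊢ <;> omega)
  simpa [NE, sq] using h

end

/-! ### generators -/

theorem tg_injective : Function.Injective (tg : Ed m → Tag m) := fun _ _ h => (Prod.mk.inj h).1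

theorem tg_ne_none (h : Ed m) : (tg h).2 ≠ none := Option.some_ne_none _

theorem tg_cls (h : Ed m) : (tg h).1 = h := rfl

theorem eq_tg {k : Tag m} (hk : k.2 = some true) : k = tg k.1 := Prod.ext rfl hk

/-- the functional sees only class and number -/
theorem G_congr (e : Ed m) {x x' : Gen m} (h1 : x.1.1 = x'.1.1) (h2 : x.2 = x'.2) :
    G e x = G e x' := by
  simp only [G, val, h1, h2]

/-- outside the diagonal the matrix sees only classes and numbers -/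
theorem gm_congr (dg dg' : Gen m → ℤ) {x y x' y' : Gen m} (h : x ≠ y) (h' : x' ≠ y')
    (h1 : x.1.1 = x'.1.1) (h2 : x.2 = x'.2) (h3 : y.1.1 = y'.1.1) (h4 : y.2 = y'.2) :
    gm dg x y = gm dg' x' y' := by
  rw [gm, gm, if_neg h, if_neg h', G_congr _ h1 h2, G_congr _ h3 h4, h1, h2, h3, h4]

theorem gm_self (dg : Gen m → ℤ) (x : Gen m) : gm dg x x = sg (dg x) := if_pos rfl

theorem mem_TT {P : Finset ℕ} {a : Gen m} : a ∈ TT m P ↔ a.1.2 = some true ∧ a.2 ∈ P := by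
  simp only [TT, mem_product, mem_image, mem_univ, true_and]
  exact and_congr_left fun _ => ⟨fun ⟨h, e⟩ => e ▸ rfl, fun h => ⟨_, (eq_tg h).symm⟩⟩

theorem mem_TS {P : Finset ℕ} {a : Gen m} : a ∈ TS m P ↔ a.1.2 ≠ none ∧ a.2 ∈ P := by
  simp [TS]

theorem mem_gens {l : Ed m → ℕ} {a : Gen m} :
    a ∈ gens l ↔ ∃ h : Ed m, a.1 = tg h ∧ a.2 ∈ (l h).primeFactors := by
  obtain ⟨k, p⟩ := a
  simp only [gens, mem_biUnion, mem_univ, true_and, mem_image, Prod.mk.injEq]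
  constructor
  · rintro ⟨h, q, hq, rfl, rfl⟩
    exact ⟨h, rfl, hq⟩
  · rintro ⟨h, rfl, hq⟩
    exact ⟨h, p, hq, rfl, rfl⟩

theorem mem_gens' {l : Ed m → ℕ} {a : Gen m} :
    a ∈ gens l ↔ a.1.2 = some true ∧ a.2 ∈ (l a.1.1).primeFactors := by
  rw [mem_gens]
  exact ⟨fun ⟨h, e, k⟩ => by rw [e]; exact ⟨rfl, k⟩, fun h => ⟨_, eq_tg h.1, h.2⟩⟩

theorem mk_mem_gens {l : Ed m → ℕ} {h : Ed m} {p : ℕ} :
    (tg h, p) ∈ gens l ↔ p ∈ (l h).primeFactors := by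
  rw [mem_gens']
  exact and_iff_right rfl

theorem mem_VV {D : Dat m} {a : Fin m → ℤ} {x : Gen m} :
    x ∈ D.VV a ↔ x ∈ D.W0 ∨ x ∈ gens (D.l a) := mem_union

theorem Dat.Ok.mk_mem_VV {D : Dat m} (hD : D.Ok) {a : Fin m → ℤ} {h : Ed m} {p : ℕ} :
    (tg h, p) ∈ D.VV a ↔ p ∈ (D.l a h).primeFactors := by
  rw [mem_VV, mk_mem_gens]
  exact or_iff_right fun e => tg_ne_none h (hD.fix _ e).1

theorem Dat.Ok.disjoint {D : Dat m} (hD : D.Ok) (l : Ed m → ℕ) : Disjoint D.W0 (gens l) := by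
  rw [disjoint_left]
  intro a ha hb
  obtain ⟨h, e, -⟩ := mem_gens.1 hb
  exact tg_ne_none h (e ▸ (hD.fix a ha).1)

theorem filter_tag_gens (l : Ed m → ℕ) (h : Ed m) :
    (gens l).filter (fun a => a.1 = tg h) = (l h).primeFactors.image fun p => (tg h, p) := by
  ext ⟨k, p⟩
  simp only [mem_filter, mem_image, Prod.mk.injEq]
  constructor
  · rintro ⟨h1, rfl⟩
    exact ⟨p, mk_mem_gens.1 h1, rfl, rfl⟩
  · rintro ⟨q, hq, rfl, rfl⟩
    exact ⟨mk_mem_gens.2 hq, rfl⟩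

/-- products over all generators, form by form -/
theorem prod_gens {R : Type} [CommMonoid R] (l : Ed m → ℕ) (F : Gen m → R) :
    ∏ a ∈ gens l, F a = ∏ h, ∏ p ∈ (l h).primeFactors, F (tg h, p) := by
  rw [gens, prod_biUnion]
  · exact prod_congr rfl fun h _ => prod_image fun _ _ _ _ e => (Prod.mk.inj e).2
  · intro h _ k _ hk
    simp only [Function.onFun, disjoint_left, mem_image]
    rintro _ ⟨p, -, rfl⟩ ⟨q, -, e⟩
    exact hk (tg_injective (Prod.mk.inj e).1).symm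

theorem card_gens (l : Ed m → ℕ) : (gens l).card = ∑ h, (l h).primeFactors.card := by
  have := prod_gens l fun _ => Multiplicative.ofAdd (1 : ℕ)
  simpa using congrArg Multiplicative.toAdd this

theorem Dat.Ok.card_VV {D : Dat m} (hD : D.Ok) (a : Fin m → ℤ) :
    (D.VV a).card = D.W0.card + ∑ h, (D.l a h).primeFactors.card := by
  rw [Dat.VV, card_union_of_disjoint (hD.disjoint _), card_gens]

theorem mem_le {Y : ℕ} {V : Finset (Gen m)} {a : Gen m} : a ∈ le Y V ↔ a ∈ V ∧ a.2 ≤ Y :=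
  mem_filter

theorem mem_md {Y Y' : ℕ} {V : Finset (Gen m)} {a : Gen m} :
    a ∈ md Y Y' V ↔ a ∈ V ∧ Y < a.2 ∧ a.2 ≤ Y' := mem_filter

theorem mem_ones {V : Finset (Gen m)} {y : Finset (Ed m)} {a : Gen m} :
    a ∈ ones V y ↔ a ∈ V ∧ ∃ h ∈ y, tg h = a.1 := by
  simp only [ones, mem_filter, mem_image]

theorem mk_mem_ones {V : Finset (Gen m)} {y : Finset (Ed m)} {h : Ed m} {p : ℕ} :
    (tg h, p) ∈ ones V y ↔ (tg h, p) ∈ V ∧ h ∈ y := by
  rw [mem_ones]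
  exact and_congr_right fun _ => ⟨fun ⟨_, hk, e⟩ => tg_injective e ▸ hk, fun hk => ⟨h, hk, rfl⟩⟩

/-- products over whole forms -/
theorem Dat.Ok.prod_ones {D : Dat m} (hD : D.Ok) {R : Type} [CommMonoid R] (a : Fin m → ℤ)
    (y : Finset (Ed m)) (F : Gen m → R) :
    ∏ x ∈ ones (D.VV a) y, F x = ∏ h ∈ y, ∏ p ∈ (D.l a h).primeFactors, F (tg h, p) := by
  have e : ones (D.VV a) y =
      y.biUnion fun h => (D.l a h).primeFactors.image fun p => (tg h, p) := by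
    ext ⟨k, p⟩
    simp only [mem_ones, mem_biUnion, mem_image, Prod.mk.injEq]
    constructor
    · rintro ⟨h1, h, hy, rfl⟩
      exact ⟨h, hy, p, hD.mk_mem_VV.1 h1, rfl, rfl⟩
    · rintro ⟨h, hy, q, hq, rfl, rfl⟩
      exact ⟨hD.mk_mem_VV.2 hq, h, hy, rfl⟩
  rw [e, prod_biUnion]
  · exact prod_congr rfl fun h _ => prod_image fun _ _ _ _ e => (Prod.mk.inj e).2
  · intro h _ k _ hk
    simp only [Function.onFun, disjoint_left, mem_image]
    rintro _ ⟨p, -, rfl⟩ ⟨q, -, e⟩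
    exact hk (tg_injective (Prod.mk.inj e).1).symm

theorem Dist.mono {V W : Finset (Gen m)} (h : Dist V) (hW : W ⊆ V) : Dist W :=
  fun a ha b hb => h a (hW ha) b (hW hb)

theorem dist_gens {l : Ed m → ℕ} (hc : ∀ h k, h ≠ k → (l h).Coprime (l k)) : Dist (gens l) := by
  rintro ⟨k, p⟩ ha ⟨k', p'⟩ hb e
  obtain ⟨h, rfl, h1⟩ := mem_gens.1 ha
  obtain ⟨h', rfl, h2⟩ := mem_gens.1 hb
  obtain rfl : p = p' := e
  by_contra hne
  have := Nat.eq_one_of_dvd_coprimes (hc h h' fun e => hne (by rw [e]))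
    (Nat.dvd_of_mem_primeFactors h1) (Nat.dvd_of_mem_primeFactors h2)
  exact (Nat.prime_of_mem_primeFactors h1).ne_one this

theorem mem_box {L : ℕ} {a : Fin m → ℤ} : a ∈ box m L ↔ ∀ i, |a i| ≤ L := by
  simp only [box, Fintype.mem_piFinset, mem_Icc, abs_le]

theorem card_box (m L : ℕ) : (box m L).card = (2 * L + 1) ^ m := by
  rw [box, Fintype.card_piFinset, prod_const, Int.card_Icc, card_univ, Fintype.card_fin]
  congr 1
  omega

/-! ### weights -/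

theorem Sm.lt {M p : ℕ} (hM : Sm m M) (hp : p.Prime) (h : ¬p ∣ M) : 4 * NE m < p := by
  have := not_le.1 fun k => h (hM p hp k)
  have := two_NE_le m
  omega

theorem wt_pos {p : ℕ} (h : 4 * NE m < p) : 0 < wt m p := by
  have : (4 * NE m : ℝ) < p := by exact_mod_cast h
  have h0 : (0 : ℝ) ≤ NE m := Nat.cast_nonneg _
  exact one_div_pos.2 (by linarith)

theorem wt_le {p : ℕ} (h : 4 * NE m < p) : wt m p ≤ 2 / p := by
  have : (4 * NE m : ℝ) < p := by exact_mod_cast h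
  have h0 : (0 : ℝ) ≤ NE m := Nat.cast_nonneg _
  rw [wt, div_le_div_iff₀ (by linarith) (by linarith)]; linarith

theorem le_wt {p : ℕ} (h : 4 * NE m < p) : 1 / (p : ℝ) ≤ wt m p := by
  have : (4 * NE m : ℝ) < p := by exact_mod_cast h
  have h0 : (0 : ℝ) ≤ NE m := Nat.cast_nonneg _
  exact one_div_le_one_div_of_le (by linarith) (by linarith)

theorem wt_sub_le {p : ℕ} (h : 4 * NE m < p) : wt m p - 1 / p ≤ 2 * NE m / (p : ℝ) ^ 2 := by
  have : (4 * NE m : ℝ) < p := by exact_mod_cast h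
  have h0 : (0 : ℝ) ≤ NE m := Nat.cast_nonneg _
  have h1 : (0 : ℝ) < p := by linarith
  have h2 : (0 : ℝ) < p - NE m := by linarith
  rw [wt, div_sub_div _ _ h2.ne' h1.ne', div_le_div_iff₀ (by positivity) (by positivity)]
  nlinarith [mul_nonneg (mul_nonneg h0 h1.le) (show (0 : ℝ) ≤ p - 4 * NE m by linarith),
    mul_nonneg h0 h1.le, mul_pos h1 h1, mul_nonneg (mul_nonneg h0 h1.le) h0]

theorem PP_gt {M a b p : ℕ} (hM : Sm m M) (h : p ∈ PP M a b) : 4 * NE m < p :=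
  hM.lt (mem_PP.1 h).2.2.1 (mem_PP.1 h).2.2.2

theorem Wt_nonneg {M a b : ℕ} (hM : Sm m M) {W : Finset (Gen m)} (h : W ⊆ TT m (PP M a b)) :
    0 ≤ Wt W := prod_nonneg fun _ ha => (wt_pos (PP_gt hM (mem_TT.1 (h ha)).2)).le

theorem Ws_nonneg {M a b : ℕ} (hM : Sm m M) {W : Finset (Gen m)} (h : W ⊆ TS m (PP M a b)) :
    0 ≤ Ws W :=
  prod_nonneg fun _ ha => (half_pos (wt_pos (PP_gt hM (mem_TS.1 (h ha)).2))).le

theorem card_tags (m : ℕ) : ((univ : Finset (Ed m)).image tg).card = NE m := by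
  rw [card_image_of_injective _ tg_injective, card_univ, NE]

theorem stags_eq (m : ℕ) : (univ.filter fun t : Tag m => t.2 ≠ none) =
    (univ : Finset (Ed m)) ×ˢ (univ : Finset Bool).image some := by
  ext ⟨e, _ | s⟩ <;> simp

theorem card_stags (m : ℕ) : (univ.filter fun t : Tag m => t.2 ≠ none).card = 2 * NE m := by
  rw [stags_eq, card_product, card_image_of_injective _ (Option.some_injective _), card_univ,
    card_univ, Fintype.card_bool, NE, mul_comm]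

theorem prod_TT (P : Finset ℕ) (F : ℕ → ℝ) : ∏ a ∈ TT m P, F a.2 = ∏ p ∈ P, F p ^ NE m := by
  simp only [TT, prod_product, prod_const, prod_pow, card_tags]

theorem prod_TS (P : Finset ℕ) (F : ℕ → ℝ) :
    ∏ a ∈ TS m P, F a.2 = ∏ p ∈ P, F p ^ (2 * NE m) := by
  simp only [TS, prod_product, prod_const, prod_pow, card_stags]

theorem sum_TT (P : Finset ℕ) (F : ℕ → ℝ) : ∑ a ∈ TT m P, F a.2 = NE m * ∑ p ∈ P, F p := by
  simp only [TT, sum_product, sum_const, nsmul_eq_mul, card_tags]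

theorem sum_TS (P : Finset ℕ) (F : ℕ → ℝ) : ∑ a ∈ TS m P, F a.2 = 2 * NE m * ∑ p ∈ P, F p := by
  simp only [TS, sum_product, sum_const, nsmul_eq_mul, card_stags]
  push_cast
  rfl

/-- sums over the signed generators: class, prime, sign -/
theorem sum_TS' (P : Finset ℕ) (F : Gen m → ℝ) : ∑ a ∈ TS m P, F a =
    ∑ e, ∑ p ∈ P, (F ((e, some true), p) + F ((e, some false), p)) := by
  rw [TS, stags_eq, sum_product, sum_product]
  refine sum_congr rfl fun e _ => ?_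
  rw [sum_image fun _ _ _ _ h => Option.some_injective _ h, Fintype.sum_bool, sum_add_distrib]

theorem sum_Wt (P : Finset ℕ) : ∑ W ∈ (TT m P).powerset, Wt W = Mass m P := by
  rw [Mass, ← prod_TT P fun p => 1 + wt m p, prod_one_add]
  rfl

theorem sum_Ws (P : Finset ℕ) : ∑ W ∈ (TS m P).powerset, Ws W = Mss m P := by
  rw [Mss, ← prod_TS P fun p => 1 + wt m p / 2, prod_one_add]
  rfl

theorem one_le_Mass {M : ℕ} (hM : Sm m M) (a b : ℕ) : 1 ≤ Mass m (PP M a b) :=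
  prod_induction _ (1 ≤ ·) (fun _ _ => one_le_mul_of_one_le_of_one_le) le_rfl
    fun _ h => one_le_pow₀ (le_add_of_nonneg_right (wt_pos (PP_gt hM h)).le)

theorem one_le_Mss {M : ℕ} (hM : Sm m M) (a b : ℕ) : 1 ≤ Mss m (PP M a b) :=
  prod_induction _ (1 ≤ ·) (fun _ _ => one_le_mul_of_one_le_of_one_le) le_rfl
    fun _ h => one_le_pow₀ (le_add_of_nonneg_right (half_pos (wt_pos (PP_gt hM h))).le)

theorem sq_le_EE (m : ℕ) : 1000 * m ^ 2 + 1000 ≤ EE m := by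
  have h : m < 2 ^ m := Nat.lt_two_pow_self
  have h1 : (2 ^ m) ^ 2 ≤ 512 ^ m := by
    rw [← pow_mul, mul_comm, pow_mul]
    exact Nat.pow_le_pow_left (by norm_num) _
  rw [EE]
  nlinarith

/-! ### admissible points -/

section
variable {D : Dat m} {a : Fin m → ℤ}

theorem Dat.Ok.two_dvd (hD : D.Ok) : 2 ∣ D.M :=
  hD.sm 2 Nat.prime_two (by have := hD.three; nlinarith)

theorem Dat.Ok.Δ_pos (hD : D.Ok) (e : Ed m) : 0 < D.Δ e := Nat.pos_of_dvd_of_pos (hD.dv e) hD.pos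

theorem Dat.Ok.Δ_le (hD : D.Ok) (e : Ed m) : D.Δ e ≤ D.M := Nat.le_of_dvd hD.pos (hD.dv e)

theorem Dat.Ok.W0_le (hD : D.Ok) {x : Gen m} (hx : x ∈ D.W0) : x.2 ≤ D.M :=
  (hD.fix x hx).2.elim (fun h => h ▸ hD.pos) fun h => Nat.le_of_dvd hD.pos h.2

/-- the form is read off the equation -/
theorem Dat.Ok.l_eq (hD : D.Ok) {e : Ed m} {t : ℕ} (h : a e.1.1 - a e.1.2 = D.Δ e * t) :
    D.l a e = t := by
  rw [Dat.l, h, Int.mul_ediv_cancel_left _ (Nat.cast_ne_zero.2 (hD.Δ_pos e).ne'), Int.toNat_natCast]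

/-- the form of an edge depends only on the two ends -/
theorem Dat.l_congr (D : Dat m) {a' : Fin m → ℤ} {e : Ed m} (h : ∀ i, inE i e → a i = a' i) :
    D.l a e = D.l a' e := by
  rw [Dat.l, Dat.l, h _ (inE_fst e), h _ (inE_snd e)]

theorem Adm.coprime_M (h : Adm D a) (e : Ed m) : (D.l a e).Coprime D.M := RG.coprime_M (h.one e)

theorem Adm.pos (h : Adm D a) (e : Ed m) : 0 < D.l a e := Nat.pos_of_ne_zero (h.sqf e).ne_zero

theorem Adm.not_dvd_M (h : Adm D a) {e : Ed m} {p : ℕ} (hp : p.Prime) (hd : p ∣ D.l a e) :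
    ¬p ∣ D.M := fun k => hp.ne_one (Nat.eq_one_of_dvd_coprimes (h.coprime_M e) hd k)

/-- the difference of the two ends of an edge, in any order -/
theorem Adm.sub_eq (h : Adm D a) (f g : Ed m) : a (cm f g) - a (ov f g) =
    (if inE f.1.1 g then (D.Δ f : ℤ) else -D.Δ f) * D.l a f := by
  have := h.eq f
  unfold cm ov
  split_ifs <;> linarith

theorem Adm.dvd_sub (h : Adm D a) {e : Ed m} {i j : Fin m} (hi : inE i e) (hj : inE j e) :
    (D.l a e : ℤ) ∣ a i - a j := by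
  have h1 : (D.l a e : ℤ) ∣ a e.1.1 - a e.1.2 := h.eq e ▸ dvd_mul_left _ _
  rcases hi with rfl | rfl <;> rcases hj with rfl | rfl
  exacts [by simp, h1, dvd_sub_comm.1 h1, by simp]

theorem Adm.injective (hD : D.Ok) (h : Adm D a) : Function.Injective a := by
  have key : ∀ i j, i < j → a i ≠ a j := fun i j k e => by
    have h1 := h.eq ⟨(i, j), k⟩
    rw [e, sub_self] at h1
    exact (mul_pos (Nat.cast_pos.2 (hD.Δ_pos _)) (Nat.cast_pos.2 (h.pos _))).ne h1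
  intro i j e
  rcases lt_trichotomy i j with k | k | k
  exacts [absurd e (key i j k), k, absurd e.symm (key j i k)]

/-- a prime of the form of `e` does not divide the differences to the other vertices -/
theorem Adm.not_dvd_sub (hD : D.Ok) (h : Adm D a) {e : Ed m} {p : ℕ} (hp : p.Prime)
    (hd : p ∣ D.l a e) {i k : Fin m} (hi : inE i e) (hk : k ∈ out e) : ¬(p : ℤ) ∣ a i - a k := by
  obtain ⟨f, h1, rfl, rfl⟩ := exists_lk hi hk
  rw [h.sub_eq]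
  intro t
  rcases (Nat.prime_iff_prime_int.1 hp).dvd_or_dvd t with t | t
  · refine h.not_dvd_M hp hd (Dvd.dvd.trans ?_ (hD.dv f))
    split_ifs at t
    exacts [Int.natCast_dvd_natCast.1 t, Int.natCast_dvd_natCast.1 (dvd_neg.1 t)]
  · exact hp.ne_one (Nat.eq_one_of_dvd_coprimes (h.cop f e h1) (Int.natCast_dvd_natCast.1 t) hd)

theorem Adm.not_dvd_ga (hD : D.Ok) (h : Adm D a) {e : Ed m} {p : ℕ} (hp : p.Prime)
    (hd : p ∣ D.l a e) : ¬(p : ℤ) ∣ ga a e := by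
  have hp' := Nat.prime_iff_prime_int.1 hp
  intro t
  rcases hp'.dvd_or_dvd t with t | t
  · exact hp'.not_isUnit (isUnit_of_dvd_unit t ((isUnit_neg_one).pow _))
  · obtain ⟨k, hk, t⟩ := (hp'.dvd_finsetProd_iff _).1 t
    exact h.not_dvd_sub hD hp hd (inE_fst e) hk t

theorem Adm.ga_jac (hD : D.Ok) (h : Adm D a) {e : Ed m} {p : ℕ} (hp : p.Prime)
    (hd : p ∣ D.l a e) : jacobiSym (ga a e) p = 1 ∨ jacobiSym (ga a e) p = -1 := by
  refine jacobiSym.eq_one_or_neg_one ?_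
  rw [Int.gcd_comm, ← Int.isCoprime_iff_gcd_eq_one]
  exact ((Nat.prime_iff_prime_int.1 hp).irreducible.coprime_iff_not_dvd).2 (h.not_dvd_ga hD hp hd)

theorem mem_AA {S : Sc} : a ∈ AA S D ↔ a ∈ box m (D.R * S.Z) ∧
    (∀ e : Ed m, a e.1.1 - a e.1.2 = D.Δ e * D.l a e) ∧
    (∀ e, D.l a e ≡ 1 [MOD 8 * D.M]) ∧ (∀ e, Shape S (D.l a e)) ∧
    (∀ e f, lk e f → (D.l a e).Coprime (D.l a f)) ∧
    ∀ e f, e ≠ f → ∀ p : ℕ, p.Prime → p ≤ S.Y' → p ∣ D.l a e → ¬p ∣ D.l a f := by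
  classical
  simp only [AA, mem_filter]

theorem adm_of_mem {S : Sc} (hR : Rel m S) (h : a ∈ AA S D) : Adm D a := by
  obtain ⟨-, h1, h2, h3, h4, -⟩ := mem_AA.1 h
  exact ⟨h1, h2, fun k => hR.sqf (h3 k), h4⟩

theorem AA_subset (S : Sc) (D : Dat m) : AA S D ⊆ box m (D.R * S.Z) := fun _ h => (mem_AA.1 h).1

/-- the forms are at most the side of the box -/
theorem l_le (hD : D.Ok) {L : ℕ} (hb : a ∈ box m L) {e : Ed m}
    (h : a e.1.1 - a e.1.2 = D.Δ e * D.l a e) : D.l a e ≤ 2 * L := by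
  have h1 := abs_le.1 (mem_box.1 hb e.1.1)
  have h2 := abs_le.1 (mem_box.1 hb e.1.2)
  have h3 : (1 : ℤ) ≤ D.Δ e := by exact_mod_cast hD.Δ_pos e
  have h4 : (D.l a e : ℤ) ≤ D.Δ e * D.l a e := le_mul_of_one_le_left (Nat.cast_nonneg _) h3
  omega

theorem le_VV (hD : D.Ok) {Y : ℕ} (h : D.M ≤ Y) (a : Fin m → ℤ) :
    le Y (D.VV a) = D.W0 ∪ le Y (gens (D.l a)) := by
  rw [le, Dat.VV, filter_union, filter_true_of_mem, le]
  exact fun x hx => (hD.W0_le hx).trans h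

theorem md_VV (hD : D.Ok) {Y Y' : ℕ} (h : D.M ≤ Y) (a : Fin m → ℤ) :
    md Y Y' (D.VV a) = md Y Y' (gens (D.l a)) := by
  rw [md, Dat.VV, filter_union, filter_false_of_mem, empty_union, md]
  intro x hx
  have := hD.W0_le hx
  omega

/-- the small and medium primes of the forms are different -/
theorem dist_le {S : Sc} (h : a ∈ AA S D) : Dist (le S.Y' (gens (D.l a))) := by
  rintro ⟨k, p⟩ ha ⟨k', p'⟩ hb e
  obtain ⟨f, rfl, h1⟩ := mem_gens.1 (mem_le.1 ha).1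
  obtain ⟨f', rfl, h2⟩ := mem_gens.1 (mem_le.1 hb).1
  obtain rfl : p = p' := e
  by_contra hne
  exact (mem_AA.1 h).2.2.2.2.2 f f' (fun e => hne (by rw [e])) p (Nat.prime_of_mem_primeFactors h1)
    (mem_le.1 ha).2 (Nat.dvd_of_mem_primeFactors h1) (Nat.dvd_of_mem_primeFactors h2)

theorem le_gens_subset {S : Sc} (hR : Rel m S) (h : a ∈ AA S D) :
    le S.Y (gens (D.l a)) ⊆ TT m (PP D.M 0 S.Y0) := by
  intro x hx
  obtain ⟨h1, h2⟩ := mem_le.1 hx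
  obtain ⟨e, h3⟩ := mem_gens'.1 h1
  obtain ⟨c, P, hc, hP, hl, e'⟩ := (mem_AA.1 h).2.2.2.1 x.1.1
  have hp := Nat.prime_of_mem_primeFactors h3
  have h4 : x.2 ∈ c.primeFactors := by
    rw [← hR.filter_le hc hP hl, ← e']
    exact mem_filter.2 ⟨h3, h2.trans hR.Y_le⟩
  refine mem_TT.2 ⟨e, mem_PP.2 ⟨hp.pos, (hc.gap _ h4).resolve_right fun k => by omega, hp,
    (adm_of_mem hR h).not_dvd_M hp (Nat.dvd_of_mem_primeFactors h3)⟩⟩

theorem md_gens_subset {S : Sc} (hR : Rel m S) (h : a ∈ AA S D) :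
    md S.Y S.Y' (gens (D.l a)) ⊆ TT m (PP D.M S.Y S.Y') := by
  intro x hx
  obtain ⟨h1, h2, h3⟩ := mem_md.1 hx
  obtain ⟨e, h4⟩ := mem_gens'.1 h1
  have hp := Nat.prime_of_mem_primeFactors h4
  exact mem_TT.2 ⟨e, mem_PP.2 ⟨h2, h3, hp,
    (adm_of_mem hR h).not_dvd_M hp (Nat.dvd_of_mem_primeFactors h4)⟩⟩

theorem sml_subset {S : Sc} (hR : Rel m S) (h : a ∈ AA S D) :
    D.sml a S.Y ⊆ TS m (PP D.M 0 S.Y0) := by
  intro x hx
  obtain ⟨z, hz, rfl⟩ := mem_image.1 hx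
  exact mem_TS.2 ⟨Option.some_ne_none _, (mem_TT.1 (le_gens_subset hR h hz)).2⟩

theorem dist_sml {S : Sc} (hR : Rel m S) (h : a ∈ AA S D) : Dist (D.sml a S.Y) := by
  intro x hx y hy e
  obtain ⟨z, hz, rfl⟩ := mem_image.1 hx
  obtain ⟨z', hz', rfl⟩ := mem_image.1 hy
  rw [dist_le h z (mem_le.2 ⟨(mem_le.1 hz).1, (mem_le.1 hz).2.trans hR.Y_le⟩) z'
    (mem_le.2 ⟨(mem_le.1 hz').1, (mem_le.1 hz').2.trans hR.Y_le⟩) e]

end

end Pool.Agent.MP_a43263_nt.JU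

end
end MrgPart0

-- ======== part 1: formerly Pool.Agent.MP_a43263_nt.JU.KeyA
section MrgPart1

/-! PROJECT JU, module KEY: the parametrisation of the terms with frozen data. -/

set_option autoImplicit false

noncomputable section

namespace Pool.Agent.MP_a43263_nt.JU

open Finset Filter
open R2 (Sgn chi pri Sc Core Shape mem_pri)
open RG (Rel Ev EE)

variable {nn : ℕ}

namespace KEY

/-- the product of the primes with a given tag -/
def pr (X : Finset (Gen nn)) (k : Tag nn) : ℕ := ∏ b ∈ X.filter (fun b => b.1 = k), b.2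

theorem pr_eq (X : Finset (Gen nn)) (k : Tag nn) :
    pr X k = ∏ p ∈ (X.filter fun b => b.1 = k).image Prod.snd, p :=
  (prod_image (f := fun p => p) fun _ ha _ hb e =>
    Prod.ext ((mem_filter.1 ha).2.trans (mem_filter.1 hb).2.symm) e).symm

theorem mem_pr {X : Finset (Gen nn)} {k : Tag nn} (hX : ∀ b ∈ X, b.1 = k → b.2.Prime) {p : ℕ} :
    p ∈ (pr X k).primeFactors ↔ (k, p) ∈ X := by
  rw [pr_eq, Nat.primeFactors_prod]
  · simp only [mem_image, mem_filter]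
    exact ⟨by rintro ⟨⟨k', p'⟩, ⟨h, rfl⟩, rfl⟩; exact h, fun h => ⟨_, ⟨h, rfl⟩, rfl⟩⟩
  · simp only [mem_image, mem_filter]
    rintro _ ⟨b, ⟨h, e⟩, rfl⟩
    exact hX b h e

theorem pr_pos {X : Finset (Gen nn)} {k : Tag nn} (hX : ∀ b ∈ X, b.1 = k → b.2.Prime) : 0 < pr X k :=
  prod_pos fun b hb => (hX b (mem_filter.1 hb).1 (mem_filter.1 hb).2).pos

theorem dvd_pr {X : Finset (Gen nn)} {b : Gen nn} (hb : b ∈ X) : b.2 ∣ pr X b.1 :=
  dvd_prod_of_mem _ (mem_filter.2 ⟨hb, rfl⟩)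

theorem pr_union {X X' : Finset (Gen nn)} (h : Disjoint X X') (k : Tag nn) :
    pr (X ∪ X') k = pr X k * pr X' k := by
  rw [pr, filter_union, prod_union (disjoint_filter_filter h)]
  rfl

theorem pr_of_ne {X : Finset (Gen nn)} {k : Tag nn} (h : ∀ b ∈ X, b.1 ≠ k) : pr X k = 1 := by
  rw [pr, filter_false_of_mem h, prod_empty]

theorem pr_of_eq {X : Finset (Gen nn)} {k : Tag nn} (h : ∀ b ∈ X, b.1 = k) : pr X k = ∏ b ∈ X, b.2 := by
  rw [pr, filter_true_of_mem h]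

theorem pr_gens {l : Ed nn → ℕ} {h : Ed nn} (hl : Squarefree (l h)) :
    pr (gens l) (tg h) = l h := by
  rw [pr, filter_tag_gens, prod_image fun _ _ _ _ e => (Prod.mk.inj e).2]
  exact Nat.prod_primeFactors_of_squarefree hl

theorem le_eq {S : Sc} {E : Dat nn} (hR : Rel nn S) (h0 : E.Ok) (hM : E.M ≤ S.Y) {x : Fin nn → ℤ}
    {c P : Ed nn → ℕ} (h : ∀ k, Core S (c k) ∧ (P k).Prime ∧ S.Y' < P k ∧ E.l x k = c k * P k) :
    le S.Y' (E.VV x) = E.W0 ∪ gens c := by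
  rw [le_VV h0 (hM.trans hR.Y_le)]
  refine congrArg _ ?_
  ext ⟨k, p⟩
  simp only [mem_le, mem_gens]
  constructor
  · rintro ⟨⟨j, e, h1⟩, h2⟩
    refine ⟨j, e, ?_⟩
    rw [← hR.filter_le (h j).1 (h j).2.1 (h j).2.2.1, ← (h j).2.2.2]
    exact mem_filter.2 ⟨h1, h2⟩
  · rintro ⟨j, e, h1⟩
    have := h1
    rw [← hR.filter_le (h j).1 (h j).2.1 (h j).2.2.1, ← (h j).2.2.2] at this
    exact ⟨⟨j, e, (mem_filter.1 this).1⟩, (mem_filter.1 this).2⟩

theorem card_VV {S : Sc} {E : Dat nn} (hR : Rel nn S) (h0 : E.Ok) {x : Fin nn → ℤ}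
    {c P : Ed nn → ℕ} (h : ∀ k, Core S (c k) ∧ (P k).Prime ∧ S.Y' < P k ∧ E.l x k = c k * P k) :
    (E.VV x).card = (E.W0 ∪ gens c).card + NE nn := by
  rw [h0.card_VV, card_union_of_disjoint (h0.disjoint _), card_gens,
    sum_congr rfl fun k _ => by rw [(h k).2.2.2, hR.card_mul (h k).1 (h k).2.1 (h k).2.2.1],
    sum_add_distrib]
  simp [add_assoc, NE]

/-- the orientation of an edge seen from an end -/
def ep (e : Ed nn) (i : Fin nn) : ℤ := if i = e.1.1 then 1 else -1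

theorem ep_sgn (e : Ed nn) (i : Fin nn) : ep e i = 1 ∨ ep e i = -1 := by
  unfold ep
  split_ifs <;> simp

theorem sub_ep (x : Fin nn → ℤ) {e : Ed nn} {i j : Fin nn} (hi : inE i e) (hj : inE j e)
    (h : i ≠ j) : x i - x j = ep e i * (x e.1.1 - x e.1.2) := by
  rcases hi with rfl | rfl <;> rcases hj with rfl | rfl
  · exact absurd rfl h
  · simp [ep]
  · simp [ep, h]
  · exact absurd rfl h

theorem ep_cancel {e : Ed nn} {i : Fin nn} {a b : ℤ} (h : ep e i * a = ep e i * b) : a = b :=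
  mul_left_cancel₀ (by rcases ep_sgn e i with k | k <;> simp [k]) h

theorem eq_of_two {e f : Ed nn} {i j : Fin nn} (h : i ≠ j) (h1 : inE i e) (h2 : inE j e)
    (h3 : inE i f) (h4 : inE j f) : e = f := by
  by_contra k
  exact h ((eq_cm k h1 h3).trans (eq_cm k h2 h4).symm)

theorem ne_of_not {e : Ed nn} {i j : Fin nn} (h : ¬inE i e) (k : inE j e) : j ≠ i :=
  fun t => h (t ▸ k)

abbrev T3 (nn : ℕ) : Type := Finset (Gen nn) × Finset (Gen nn) × Finset (Gen nn)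

/-- the frozen data -/
structure KD (nn : ℕ) where
  S : Sc
  E : Dat nn
  f : TL nn
  g : TL nn
  O : Finset (Gen nn)
  O₁ : Finset (Gen nn)
  O₂ : Finset (Gen nn)
  ok : Finset (TL nn) → Prop

namespace KD

variable (D : KD nn)

def f0 : Ed nn := D.f.1.1

def g0 : Ed nn := D.g.1.1

def c : Fin nn := cm D.f0 D.g0

def u : Fin nn := ov D.f0 D.g0

def v : Fin nn := ov D.g0 D.f0

def m (h : Ed nn) : ℕ := pr D.O (tg h)

def al : ℤ := ep D.f0 D.u * (D.E.Δ D.f0 * D.m D.f0)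

def be : ℤ := ep D.g0 D.c * (D.E.Δ D.g0 * D.m D.g0)

def Nn (n : ℕ) : Finset (Gen nn) := n.primeFactors.image fun p => (D.f.1, p)

def NL (n : ℕ) (ω : T3 nn) (s : ℕ) : Finset (Gen nn) := D.O ∪ (D.Nn n ∪ ω.1) ∪ {(D.g.1, s)}

def I1 (n : ℕ) (ω : T3 nn) : Finset (Gen nn) := (if D.f.2.1 then D.Nn n else ∅) ∪ ω.2.1

def I2 (n : ℕ) (ω : T3 nn) : Finset (Gen nn) := (if D.f.2.2 then D.Nn n else ∅) ∪ ω.2.2

def U1 (n : ℕ) (ω : T3 nn) (s : ℕ) : Finset (Gen nn) :=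
  D.O₁ ∪ D.I1 n ω ∪ if D.g.2.1 then {(D.g.1, s)} else ∅

def U2 (n : ℕ) (ω : T3 nn) (s : ℕ) : Finset (Gen nn) :=
  D.O₂ ∪ D.I2 n ω ∪ if D.g.2.2 then {(D.g.1, s)} else ∅

/-- the cores without the prime `s` -/
def cc (n : ℕ) (ω : T3 nn) (h : Ed nn) : ℕ := D.m h * if h = D.f0 then n else pr ω.1 (tg h)

def cs (s n : ℕ) (ω : T3 nn) (h : Ed nn) : ℕ := D.cc n ω h * if h = D.g0 then s else 1

def pc (a : Fin nn → ℤ) (q : ℤ) : Fin nn → ℤ := Function.update a D.c (a D.v + D.be * q)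

def pu (a : Fin nn → ℤ) (z : ℤ) : Fin nn → ℤ := Function.update a D.u (a D.v + z)

def pt (a : Fin nn → ℤ) (r q n : ℕ) : Fin nn → ℤ :=
  Function.update (D.pc a q) D.u (a D.v + (D.al * n * r + D.be * q))

def nu (ω : T3 nn) : ℕ := ∏ b ∈ ω.1, b.2

def pt0 (ω : T3 nn) : Finset (TL nn) :=
  pat (D.O.filter fun b => D.S.Y < b.2) D.O₁ D.O₂ ∪ pat ω.1 ω.2.1 ω.2.2 ∪ {D.f, D.g}

structure InW (ω : T3 nn) : Prop where
  s1 : ω.2.1 ⊆ ω.1
  s2 : ω.2.2 ⊆ ω.1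
  dist : Dist ω.1
  tag : ∀ b ∈ ω.1, b.1 ≠ D.f.1 ∧ inE D.u b.1.1 ∧ ∀ e, ¬b.2 ∣ D.m e
  nu : nu ω ≤ D.S.Y' ^ (6 * NE nn)
  card : ω.1.card ≤ 6 * NE nn * D.S.J

open Classical in
def W : Finset (T3 nn) := ((TT nn (pri D.S.Y D.S.Y')).powerset ×ˢ
  (TT nn (pri D.S.Y D.S.Y')).powerset ×ˢ (TT nn (pri D.S.Y D.S.Y')).powerset).filter D.InW

open Classical in
def P : Finset ℕ := (pri D.S.Y D.S.Y').filter fun s => ∀ e, ¬s ∣ D.m e

/-- the form of `e` at `x` is `c` times a large prime -/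
def IE (x : Fin nn → ℤ) (e : Ed nn) (c : ℕ) : Prop := ∃ P : ℕ, P.Prime ∧ D.S.Y' < P ∧
  x e.1.1 - x e.1.2 = D.E.Δ e * (c * P : ℕ) ∧ c * P ≡ 1 [MOD 8 * D.E.M]

/-- linked forms that avoid the vertex `i` are coprime -/
def IC (x : Fin nn → ℤ) (i : Fin nn) : Prop :=
  ∀ e e', lk e e' → ¬inE i e → ¬inE i e' → (D.E.l x e).Coprime (D.E.l x e')

def IA (a : Fin nn → ℤ) (r q s : ℕ) : Prop := Core D.S (D.m D.g0 * s) ∧ r.Prime ∧ D.S.Y' < r ∧
  (∀ j, j ≠ D.u → |D.pc a q j| ≤ (D.E.R * D.S.Z : ℕ)) ∧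
  (∀ e, ¬inE D.u e → D.IE (D.pc a q) e (D.m e * if e = D.g0 then s else 1)) ∧
  D.IC (D.pc a q) D.u ∧ ∀ k ∈ out D.f0, ¬(r : ℤ) ∣ D.pc a q D.c - D.pc a q k

def IB (n : ℕ) (ω : T3 nn) : Prop := (∀ h, h ≠ D.g0 → Core D.S (D.cc n ω h)) ∧
  (∀ p ∈ n.primeFactors, D.S.Y < p) ∧ ∀ e e', e ≠ e' → (D.cc n ω e).Coprime (D.cc n ω e')

def IP (a : Fin nn → ℤ) (n : ℕ) (ω : T3 nn) (z : ℤ) : Prop :=
  |D.pu a z D.u| ≤ (D.E.R * D.S.Z : ℕ) ∧
  (∀ e, inE D.u e → e ≠ D.f0 → D.IE (D.pu a z) e (D.cc n ω e)) ∧ D.IC (D.pu a z) D.c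

/-- the properties of the frozen data -/
structure Ok : Prop where
  sys : D.E.Ok
  rel : Rel nn D.S
  hM : D.E.M ≤ D.S.Y
  hf : D.f.1 = tg D.f0
  hg : D.g.1 = tg D.g0
  lk : lk D.f0 D.g0
  v0 : D.E.W0 ⊆ D.O
  el : ∀ b ∈ D.O, b ∈ D.E.W0 ∨ (b.1.2 = some true ∧ b.2.Prime)
  med : ∀ b ∈ D.O, D.S.Y < b.2 → (b.1 = D.f.1 ∧ tl D.O₁ D.O₂ b ≠ D.f) ∨ ¬inE D.u b.1.1
  s1 : D.O₁ ⊆ D.O
  s2 : D.O₂ ⊆ D.O

/-- the tuples that come from a term -/
structure Val (a : Fin nn → ℤ) (r q s n : ℕ) (ω : T3 nn) : Prop where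
  hs : s ∈ D.P
  dvd : s ∣ q
  one : 1 < n
  hω : ω ∈ D.W
  ia : D.IA a r q s
  ib : D.IB n ω
  cop : IsCoprime (q : ℤ) (n * nu ω)
  i0 : (D.m D.f0 : ℤ) * n * r + 0 * q ≡ 1 [ZMOD (8 * D.E.M : ℕ)]
  ip : D.IP a n ω (D.al * n * r + D.be * q)

variable {D}

theorem mem_W {ω : T3 nn} : ω ∈ D.W ↔ ω.1 ⊆ TT nn (pri D.S.Y D.S.Y') ∧ D.InW ω := by
  simp only [W, mem_filter, mem_product, mem_powerset]
  exact ⟨fun h => ⟨h.1.1, h.2⟩, fun h => ⟨⟨h.1, h.2.s1.trans h.1, h.2.s2.trans h.1⟩, h.2⟩⟩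

theorem mem_P {s : ℕ} : s ∈ D.P ↔ (D.S.Y < s ∧ s ≤ D.S.Y' ∧ s.Prime) ∧ ∀ e, ¬s ∣ D.m e := by
  simp only [P, mem_filter, mem_pri]

theorem mem_Nn {n : ℕ} {b : Gen nn} : b ∈ D.Nn n ↔ b.1 = D.f.1 ∧ b.2 ∈ n.primeFactors := by
  simp only [Nn, mem_image]
  exact ⟨by rintro ⟨p, h, rfl⟩; exact ⟨rfl, h⟩, fun h => ⟨b.2, h.2, Prod.ext h.1.symm rfl⟩⟩

theorem Ok.prime (hD : D.Ok) (h : Ed nn) : ∀ b ∈ D.O, b.1 = (tg h) → b.2.Prime :=
  fun b hb e => (hD.el b hb).elim (fun k => absurd (e ▸ (hD.sys.fix _ k).1) (tg_ne_none h))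
    fun k => k.2

theorem Ok.mem_m (hD : D.Ok) {h : Ed nn} {p : ℕ} :
    p ∈ (D.m h).primeFactors ↔ ((tg h), p) ∈ D.O := mem_pr (hD.prime h)

theorem Ok.m_pos (hD : D.Ok) (h : Ed nn) : 0 < D.m h := pr_pos (hD.prime h)

theorem Ok.ne (hD : D.Ok) : D.f0 ≠ D.g0 := hD.lk.1

theorem Ok.fg (hD : D.Ok) : D.f.1 ≠ D.g.1 := fun e => hD.ne (congrArg Prod.fst e)

theorem cf : inE D.c D.f0 := cm_mem _ _

theorem uf : inE D.u D.f0 := ov_mem _ _

theorem vg : inE D.v D.g0 := ov_mem _ _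

theorem cu : D.c ≠ D.u := cm_ne_ov _ _

theorem Ok.cg (hD : D.Ok) : inE D.c D.g0 := hD.lk.cm_mem

theorem Ok.ug (hD : D.Ok) : ¬inE D.u D.g0 := ov_not_mem hD.ne

theorem Ok.vf (hD : D.Ok) : ¬inE D.v D.f0 := ov_not_mem hD.ne.symm

theorem Ok.cv (hD : D.Ok) : D.c ≠ D.v := ne_of_not hD.vf cf

theorem Ok.vu (hD : D.Ok) : D.v ≠ D.u := ne_of_not hD.ug vg

theorem not_c {e : Ed nn} (h : inE D.u e) (k : e ≠ D.f0) : ¬inE D.c e :=
  fun t => k (eq_of_two cu t h cf uf)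

variable {a : Fin nn → ℤ} {r q s n : ℕ} {ω : T3 nn}

theorem pt_c {j : Fin nn} (h : j ≠ D.u) : D.pt a r q n j = D.pc a q j :=
  Function.update_of_ne h _ _

theorem pt_u {j : Fin nn} (h : j ≠ D.c) :
    D.pt a r q n j = D.pu a (D.al * n * r + D.be * q) j := by
  by_cases k : j = D.u
  · simp only [pt, pu, k, Function.update_self]
  · simp only [pt, pu, pc, Function.update_of_ne k, Function.update_of_ne h]

theorem pt_o {j : Fin nn} (h : j ≠ D.c) (k : j ≠ D.u) : D.pt a r q n j = a j := by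
  simp only [pt, pc, Function.update_of_ne k, Function.update_of_ne h]

theorem pt_uc : D.pt a r q n D.u - D.pt a r q n D.c = D.al * n * r := by
  rw [pt_c cu]
  simp only [pt, pc, Function.update_self]
  ring

theorem pt_f : D.pt a r q n D.f0.1.1 - D.pt a r q n D.f0.1.2 =
    D.E.Δ D.f0 * (D.m D.f0 * n * r : ℕ) := by
  refine ep_cancel ((sub_ep _ uf cf cu.symm).symm.trans (pt_uc.trans ?_))
  rw [al]
  push_cast
  ring

theorem Ok.pt_g (hD : D.Ok) : D.pt a r q n D.g0.1.1 - D.pt a r q n D.g0.1.2 =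
    D.E.Δ D.g0 * (D.m D.g0 * q : ℕ) := by
  refine ep_cancel ((sub_ep _ hD.cg vg hD.cv).symm.trans ?_)
  rw [pt_c cu, pt_o hD.cv.symm hD.vu]
  simp only [pc, Function.update_self, be]
  push_cast
  ring

theorem Ok.lf_f (hD : D.Ok) : D.E.l (D.pt a r q n) D.f0 = D.m D.f0 * n * r := hD.sys.l_eq pt_f

theorem Ok.lf_g (hD : D.Ok) : D.E.l (D.pt a r q n) D.g0 = D.m D.g0 * q := hD.sys.l_eq hD.pt_g

theorem IE.congr {x x' : Fin nn → ℤ} {e : Ed nn} {c : ℕ} {i : Fin nn} (h : D.IE x e c)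
    (k : ∀ j, j ≠ i → x' j = x j) (hi : ¬inE i e) : D.IE x' e c := by
  rwa [IE, k _ (ne_of_not hi (inE_fst e)), k _ (ne_of_not hi (inE_snd e))]

theorem IC.congr {x x' : Fin nn → ℤ} {i : Fin nn} (h : D.IC x i)
    (k : ∀ j, j ≠ i → x' j = x j) : D.IC x' i := fun e e' t h1 h2 => by
  rw [D.E.l_congr fun j hj => k j (ne_of_not h1 hj), D.E.l_congr fun j hj => k j (ne_of_not h2 hj)]
  exact h e e' t h1 h2

theorem W_el (h : ω ∈ D.W) {b : Gen nn} (hb : b ∈ ω.1) :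
    b.1.2 = some true ∧ D.S.Y < b.2 ∧ b.2 ≤ D.S.Y' ∧ b.2.Prime := by
  have := mem_TT.1 ((mem_W.1 h).1 hb)
  exact ⟨this.1, mem_pri.1 this.2⟩

theorem cc_of (h : ω ∈ D.W) {e : Ed nn} (he : ¬inE D.u e) : D.cc n ω e = D.m e := by
  rw [cc, if_neg fun k : e = D.f0 => he (k ▸ uf), pr_of_ne, mul_one]
  exact fun b hb k => he (by have := ((mem_W.1 h).2.tag b hb).2.1; rwa [k] at this)

theorem Val.s_el (h : D.Val a r q s n ω) : D.S.Y < s ∧ s ≤ D.S.Y' ∧ s.Prime := (mem_P.1 h.hs).1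

theorem Val.ng (hD : D.Ok) (h : D.Val a r q s n ω) {b : Gen nn} (hb : b ∈ ω.1) : b.1 ≠ D.g.1 :=
  fun e => hD.ug (by have := ((mem_W.1 h.hω).2.tag b hb).2.1; rwa [e] at this)

/-- the values of the forms -/
theorem Val.forms (hD : D.Ok) (h : D.Val a r q s n ω) (k : Ed nn) :
    Core D.S (D.cs s n ω k) ∧ D.IE (D.pt a r q n) k (D.cs s n ω k) := by
  obtain ⟨a1, a2, a3, -, a5, -⟩ := h.ia
  refine ⟨?_, ?_⟩
  · rw [cs]
    split_ifs with hk
    · rwa [hk, cc_of h.hω hD.ug]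
    · rw [mul_one]
      exact h.ib.1 k hk
  by_cases hu : inE D.u k
  swap
  · rw [cs, cc_of h.hω hu]
    exact (a5 k hu).congr (fun j => pt_c) hu
  rw [cs, if_neg fun t : k = D.g0 => hD.ug (t ▸ hu), mul_one]
  by_cases hf : k = D.f0
  · rw [hf, cc, if_pos rfl]
    refine ⟨r, a2, a3, pt_f, Int.natCast_modEq_iff.1 ?_⟩
    simpa using h.i0
  · exact (h.ip.2.1 k hu hf).congr (fun j => pt_u) (not_c hu hf)

theorem Val.forms' (hD : D.Ok) (h : D.Val a r q s n ω) : ∃ P : Ed nn → ℕ, ∀ k,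
    Core D.S (D.cs s n ω k) ∧ (P k).Prime ∧ D.S.Y' < P k ∧
      D.E.l (D.pt a r q n) k = D.cs s n ω k * P k := by
  have : ∀ k, ∃ P : ℕ, Core D.S (D.cs s n ω k) ∧ P.Prime ∧ D.S.Y' < P ∧
      D.E.l (D.pt a r q n) k = D.cs s n ω k * P := fun k =>
    (h.forms hD k).2.imp fun _ t => ⟨(h.forms hD k).1, t.1, t.2.1, hD.sys.l_eq t.2.2.1⟩
  choose P hP using this
  exact ⟨P, hP⟩

theorem Val.s_cop (h : D.Val a r q s n ω) (e : Ed nn) : s.Coprime (D.cc n ω e) := by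
  have k : s.Coprime (n * nu ω) := by
    have := h.cop
    rw [← Nat.cast_mul, Nat.isCoprime_iff_coprime] at this
    exact this.coprime_dvd_left h.dvd
  refine Nat.Coprime.mul_right (h.s_el.2.2.coprime_iff_not_dvd.2 ((mem_P.1 h.hs).2 e))
    (k.coprime_dvd_right ?_)
  split_ifs
  · exact dvd_mul_right _ _
  · exact (prod_dvd_prod_of_subset _ _ _ (filter_subset _ _)).mul_left _

theorem Val.cs_cop (h : D.Val a r q s n ω) {e e' : Ed nn} (k : e ≠ e') :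
    (D.cs s n ω e).Coprime (D.cs s n ω e') := by
  have t := h.ib.2.2 e e' k
  unfold cs
  split_ifs with h1 h2
  · exact absurd (h1.trans h2.symm) k
  · rw [mul_one]
    exact t.mul_left (h.s_cop _)
  · rw [mul_one]
    exact t.mul_right (h.s_cop _).symm
  · rwa [mul_one, mul_one]

theorem Val.mem_AA (hD : D.Ok) (h : D.Val a r q s n ω) : D.pt a r q n ∈ AA D.S D.E := by
  obtain ⟨P, hP⟩ := h.forms' hD
  obtain ⟨-, a2, a3, a4, -, a6, a7⟩ := h.ia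
  have eq : ∀ e : Ed nn, D.pt a r q n e.1.1 - D.pt a r q n e.1.2 =
      D.E.Δ e * D.E.l (D.pt a r q n) e ∧ D.E.l (D.pt a r q n) e ≡ 1 [MOD 8 * D.E.M] := fun e => by
    obtain ⟨P', -, -, k1, k2⟩ := (h.forms hD e).2
    rw [hD.sys.l_eq k1]
    exact ⟨k1, k2⟩
  have last : ∀ e f, e ≠ f → ∀ p : ℕ, p.Prime → p ≤ D.S.Y' → p ∣ D.E.l (D.pt a r q n) e →
      ¬p ∣ D.E.l (D.pt a r q n) f := by
    have : ∀ e (p : ℕ), p.Prime → p ≤ D.S.Y' → p ∣ D.E.l (D.pt a r q n) e → p ∣ D.cs s n ω e :=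
      fun e p hp k t => by
        rw [(hP e).2.2.2] at t
        refine (hp.dvd_mul.1 t).resolve_right fun t => ?_
        have := (Nat.prime_dvd_prime_iff_eq hp (hP e).2.1).1 t
        have := (hP e).2.2.1
        omega
    exact fun e f k p hp hY t t' => hp.ne_one
      (Nat.eq_one_of_dvd_coprimes (h.cs_cop k) (this e p hp hY t) (this f p hp hY t'))
  refine JU.mem_AA.2 ⟨mem_box.2 fun j => ?_, fun e => (eq e).1, fun e => (eq e).2,
    fun e => ⟨_, _, hP e⟩, fun e e' t => ?_, last⟩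
  · by_cases k : j = D.u
    · rw [k, pt_u cu.symm]
      exact h.ip.1
    · rw [pt_c k]
      exact a4 j k
  by_cases k1 : ¬inE D.u e ∧ ¬inE D.u e'
  · exact a6.congr (fun j => pt_c) e e' t k1.1 k1.2
  by_cases k2 : ¬inE D.c e ∧ ¬inE D.c e'
  · exact h.ip.2.2.congr (fun j => pt_u) e e' t k2.1 k2.2
  refine Nat.coprime_of_dvd fun p hp d1 d2 => ?_
  have hY : D.S.Y' < p := not_le.1 fun k => last e e' t.1 p hp k d1 d2
  obtain ⟨-, w, w1, w2⟩ := lk_iff.1 t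
  have dv : ∀ e : Ed nn, p ∣ D.E.l (D.pt a r q n) e → inE w e → ∀ i, inE i e →
      (p : ℤ) ∣ D.pt a r q n i - D.pt a r q n w := fun e d k i hi => by
    by_cases t : i = w
    · simp [t]
    · rw [sub_ep _ hi k t, (eq e).1]
      exact ((Int.natCast_dvd_natCast.2 d).mul_left _).mul_left _
  have dw : ∀ i, inE i e ∨ inE i e' → ∀ j, inE j e ∨ inE j e' →
      (p : ℤ) ∣ D.pt a r q n i - D.pt a r q n j := fun i hi j hj => by
    rw [← sub_sub_sub_cancel_right _ _ (D.pt a r q n w)]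
    exact dvd_sub (hi.elim (dv e d1 w1 i) (dv e' d2 w2 i)) (hj.elim (dv e d1 w1 j) (dv e' d2 w2 j))
  have hc : inE D.c e ∨ inE D.c e' := or_iff_not_and_not.2 k2
  have d3 := dw _ (or_iff_not_and_not.2 k1) _ hc
  rw [sub_ep _ uf cf cu.symm, pt_f] at d3
  have d4 : p ∣ D.E.Δ D.f0 * (D.m D.f0 * n * r) := by
    rcases ep_sgn D.f0 D.u with k | k <;> rw [k] at d3
    · exact_mod_cast one_mul (_ : ℤ) ▸ d3
    · rw [neg_one_mul, dvd_neg] at d3
      exact_mod_cast d3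
  have pr : p = r := by
    rcases hp.dvd_mul.1 d4 with k | k
    · have := Nat.le_of_dvd (hD.sys.Δ_pos _) k
      have := hD.sys.Δ_le D.f0
      have := hD.hM
      have := hD.rel.Y_le
      omega
    rcases hp.dvd_mul.1 k with k | k
    · have h1 := h.ib.1 _ hD.ne
      rw [cc, if_pos rfl] at h1
      exact absurd (hD.rel.le_Y' h1 (Nat.mem_primeFactors.2 ⟨hp, k, h1.sqf.ne_zero⟩)) (not_le.2 hY)
    · exact (Nat.prime_dvd_prime_iff_eq hp a2).1 k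
  obtain ⟨k, hk, hk'⟩ : ∃ k, (inE k e ∨ inE k e') ∧ ¬inE k D.f0 := by
    by_contra k
    simp only [not_exists, not_and, not_not] at k
    exact t.1 ((Ed.eq_of (k _ (.inl (inE_fst e))) (k _ (.inl (inE_snd e)))).trans
      (Ed.eq_of (k _ (.inr (inE_fst e'))) (k _ (.inr (inE_snd e')))).symm)
  refine a7 k (mem_out.2 hk') ?_
  rw [← pt_c (r := r) (n := n) cu, ← pt_c (r := r) (n := n) (ne_of_not hk' uf).symm]
  exact pr ▸ dw _ hc _ hk

theorem Val.le_eq (hD : D.Ok) (h : D.Val a r q s n ω) :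
    le D.S.Y' (D.E.VV (D.pt a r q n)) = D.NL n ω s ∧
    (D.E.VV (D.pt a r q n)).card = (D.NL n ω s).card + NE nn := by
  obtain ⟨P, h1⟩ := h.forms' hD
  rw [KEY.le_eq hD.rel hD.sys hD.hM h1, card_VV hD.rel hD.sys h1]
  suffices e : D.E.W0 ∪ gens (D.cs s n ω) = D.NL n ω s by rw [e]; exact ⟨rfl, rfl⟩
  have hn : n ≠ 0 := by have := h.one; omega
  ext ⟨k, p⟩
  simp only [NL, mem_union, mem_singleton, mem_Nn, Prod.mk.injEq]
  by_cases hk : k.2 = some true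
  swap
  · have e1 : k ≠ D.f.1 := fun e => hk (by rw [e, hD.hf]; rfl)
    have e2 : k ≠ D.g.1 := fun e => hk (by rw [e, hD.hg]; rfl)
    have e3 : (k, p) ∉ ω.1 := fun e => hk (W_el h.hω e).1
    have e4 : (k, p) ∉ gens (D.cs s n ω) := fun e => hk (mem_gens'.1 e).1
    simp only [e1, e2, e3, e4, false_and, or_false]
    exact ⟨fun e => hD.v0 e, fun e => (hD.el _ e).resolve_right fun e => hk e.1⟩
  obtain ⟨j, rfl⟩ : ∃ j, k = tg j := ⟨_, eq_tg hk⟩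
  have e0 : ((tg j), p) ∉ D.E.W0 := fun e => tg_ne_none j (hD.sys.fix _ e).1
  rw [mk_mem_gens, hD.hf, hD.hg, tg_injective.eq_iff, tg_injective.eq_iff, ← hD.mem_m, cs]
  simp only [e0, false_or]
  by_cases hg : j = D.g0
  · have e3 : ((tg j), p) ∉ ω.1 := fun e => h.ng hD e (hg ▸ hD.hg.symm)
    rw [hg] at e3
    rw [hg, cc_of h.hω hD.ug, if_pos rfl,
      Nat.primeFactors_mul (hD.m_pos _).ne' h.s_el.2.2.ne_zero, h.s_el.2.2.primeFactors]
    simp only [mem_union, mem_singleton, e3, hD.ne.symm, false_and, or_false, true_and]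
  · rw [if_neg hg, mul_one, cc]
    split_ifs with hf
    · have e3 : ((tg j), p) ∉ ω.1 := fun e => ((mem_W.1 h.hω).2.tag _ e).1 (hf ▸ hD.hf.symm)
      rw [Nat.primeFactors_mul (hD.m_pos _).ne' hn]
      simp only [mem_union, e3, hg, or_false, false_and]
      simp only [hf, true_and]
    · have hp : ∀ b ∈ ω.1, b.1 = (tg j) → b.2.Prime := fun b hb _ => (W_el h.hω hb).2.2.2
      rw [Nat.primeFactors_mul (hD.m_pos _).ne' (pr_pos hp).ne', mem_union, mem_pr hp]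
      simp only [hg, hf, or_false, false_and, false_or]

theorem not_dvd_both {a b p : ℕ} (h : Squarefree (a * b)) (hp : p.Prime) (h1 : p ∣ a)
    (h2 : p ∣ b) : False :=
  hp.ne_one (Nat.eq_one_of_dvd_coprimes (Nat.coprime_of_squarefree_mul h) h1 h2)

/-- the four parts are disjoint -/
theorem Val.disj (hD : D.Ok) (h : D.Val a r q s n ω) :
    (∀ b ∈ D.Nn n, b ∉ D.O) ∧ (∀ b ∈ ω.1, b ∉ D.O) ∧ (D.g.1, s) ∉ D.O ∧
    (∀ b ∈ ω.1, b ∉ D.Nn n) ∧ (D.g.1, s) ∉ D.Nn n ∧ (D.g.1, s) ∉ ω.1 := by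
  have ht := (mem_W.1 h.hω).2.tag
  refine ⟨fun b hb e => ?_, fun b hb e => ?_, fun e => ?_, fun b hb e => ?_, fun e => ?_,
    fun e => h.ng hD e rfl⟩
  · have h1 := (h.ib.1 _ hD.ne).sqf
    rw [cc, if_pos rfl] at h1
    obtain ⟨k1, k2⟩ := mem_Nn.1 hb
    refine not_dvd_both h1 (Nat.prime_of_mem_primeFactors k2) ?_ (Nat.dvd_of_mem_primeFactors k2)
    rw [m, ← hD.hf, ← k1]
    exact dvd_pr e
  · rcases hD.med b e (W_el h.hω hb).2.1 with k | k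
    · exact (ht b hb).1 k.1
    · exact k (ht b hb).2.1
  · refine not_dvd_both h.ia.1.sqf h.s_el.2.2 ?_ dvd_rfl
    rw [m, ← hD.hg]
    exact dvd_pr e
  · exact (ht b hb).1 (mem_Nn.1 e).1
  · exact hD.fg (mem_Nn.1 e).1.symm

theorem tl_eq_iff {U U' : Finset (Gen nn)} {b : Gen nn} {f : TL nn} :
    tl U U' b = f ↔ b.1 = f.1 ∧ (b ∈ U ↔ f.2.1) ∧ (b ∈ U' ↔ f.2.2) := by
  obtain ⟨k, u, u'⟩ := f
  cases u <;> cases u' <;> simp [tl]

/-- the labels of the four parts -/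
theorem Val.labels (hD : D.Ok) (h : D.Val a r q s n ω) :
    (∀ b ∈ D.O, tl (D.U1 n ω s) (D.U2 n ω s) b = tl D.O₁ D.O₂ b) ∧
    (∀ b ∈ D.Nn n, tl (D.U1 n ω s) (D.U2 n ω s) b = D.f) ∧
    (∀ b ∈ ω.1, tl (D.U1 n ω s) (D.U2 n ω s) b = tl ω.2.1 ω.2.2 b) ∧
    tl (D.U1 n ω s) (D.U2 n ω s) (D.g.1, s) = D.g := by
  obtain ⟨d1, d2, d3, d4, d5, d6⟩ := h.disj hD
  have w1 := (mem_W.1 h.hω).2.s1
  have w2 := (mem_W.1 h.hω).2.s2
  have key : ∀ (X Y : Finset (Gen nn)) (u v : Bool) (b : Gen nn), b ∈ X ∪ ((if u then D.Nn n else ∅) ∪ Y) ∪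
      (if v then {(D.g.1, s)} else ∅) ↔
      b ∈ X ∨ (u ∧ b ∈ D.Nn n) ∨ b ∈ Y ∨ (v ∧ b = (D.g.1, s)) := by
    intro X Y u v b
    cases u <;> cases v <;> simp <;> tauto
  simp only [tl_eq_iff, U1, U2, I1, I2, key]
  refine ⟨fun b hb => ?_, fun b hb => ?_, fun b hb => ?_, ?_⟩
  · have a1 : b ∉ D.Nn n := fun e => d1 b e hb
    have a2 : b ∉ ω.2.1 := fun e => d2 b (w1 e) hb
    have a3 : b ∉ ω.2.2 := fun e => d2 b (w2 e) hb
    have a4 : b ≠ (D.g.1, s) := fun e => d3 (e ▸ hb)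
    simp [tl, a1, a2, a3, a4]
  · have a1 : b ∉ D.O₁ := fun e => d1 b hb (hD.s1 e)
    have a1' : b ∉ D.O₂ := fun e => d1 b hb (hD.s2 e)
    have a2 : b ∉ ω.2.1 := fun e => d4 b (w1 e) hb
    have a3 : b ∉ ω.2.2 := fun e => d4 b (w2 e) hb
    have a4 : b ≠ (D.g.1, s) := fun e => d5 (e ▸ hb)
    simp [hb, a1, a1', a2, a3, a4, (mem_Nn.1 hb).1]
  · have a1 : b ∉ D.O₁ := fun e => d2 b hb (hD.s1 e)
    have a1' : b ∉ D.O₂ := fun e => d2 b hb (hD.s2 e)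
    have a2 := d4 b hb
    have a4 : b ≠ (D.g.1, s) := fun e => d6 (e ▸ hb)
    simp [tl, a1, a1', a2, a4]
  · have a1 : (D.g.1, s) ∉ D.O₁ := fun e => d3 (hD.s1 e)
    have a1' : (D.g.1, s) ∉ D.O₂ := fun e => d3 (hD.s2 e)
    have a2 : (D.g.1, s) ∉ ω.2.1 := fun e => d6 (w1 e)
    have a3 : (D.g.1, s) ∉ ω.2.2 := fun e => d6 (w2 e)
    simp [a1, a1', a2, a3, d5]

/-- the condition in the definition of `keySum` -/
structure Tm (D : KD nn) (i : ℕ) (x : Fin nn → ℤ) (U U' : Finset (Gen nn)) (s : Gen nn) : Prop where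
  hx : x ∈ AA D.S D.E
  hU : U ⊆ le D.S.Y' (D.E.VV x)
  hU' : U' ⊆ le D.S.Y' (D.E.VV x)
  hs : s ∈ md D.S.Y D.S.Y' (D.E.VV x)
  ok : D.ok (pat (md D.S.Y D.S.Y' (D.E.VV x)) U U')
  lab : tl U U' s = D.g
  out : outer D.S (D.E.VV x) U U' D.f D.g s = D.O
  o1 : D.O ∩ U = D.O₁
  o2 : D.O ∩ U' = D.O₂
  lo : 2 ^ i < nOf D.S (D.E.VV x) U U' D.f
  hi : nOf D.S (D.E.VV x) U U' D.f ≤ 2 ^ (i + 1)

/-- the medium generators of the other forms -/
def rest (D : KD nn) (x : Fin nn → ℤ) : Finset (Gen nn) :=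
  (md D.S.Y D.S.Y' (D.E.VV x)).filter fun b => b.1 ≠ D.f.1 ∧ inE D.u b.1.1

theorem md_eq (Y Y' : ℕ) (V : Finset (Gen nn)) : md Y Y' V = (le Y' V).filter fun b => Y < b.2 := by
  ext b; simp only [mem_md, mem_filter, mem_le]; tauto

theorem Val.back (hD : D.Ok) (h : D.Val a r q s n ω) :
    nOf D.S (D.E.VV (D.pt a r q n)) (D.U1 n ω s) (D.U2 n ω s) D.f = n ∧
    D.rest (D.pt a r q n) = ω.1 ∧ ω.1 ∩ D.U1 n ω s = ω.2.1 ∧ ω.1 ∩ D.U2 n ω s = ω.2.2 ∧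
    pat (md D.S.Y D.S.Y' (D.E.VV (D.pt a r q n))) (D.U1 n ω s) (D.U2 n ω s) = D.pt0 ω ∧
    ∀ i, 2 ^ i < n → n ≤ 2 ^ (i + 1) → D.ok (D.pt0 ω) →
      D.Tm i (D.pt a r q n) (D.U1 n ω s) (D.U2 n ω s) (D.g.1, s) := by
  obtain ⟨d1, d2, d3, d4, d5, d6⟩ := h.disj hD
  obtain ⟨l1, l2, l3, l4⟩ := h.labels hD
  have e := (h.le_eq hD).1
  have hw := (mem_W.1 h.hω).2
  have hN : ∀ b ∈ D.Nn n, D.S.Y < b.2 := fun b hb => h.ib.2.1 _ (mem_Nn.1 hb).2
  have hω : ∀ b ∈ ω.1, D.S.Y < b.2 := fun b hb => (W_el h.hω hb).2.1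
  have mem : ∀ b, b ∈ D.NL n ω s ↔ b ∈ D.O ∨ b ∈ D.Nn n ∨ b ∈ ω.1 ∨ b = (D.g.1, s) := fun b => by
    simp only [NL, mem_union, mem_singleton, or_assoc]
  have hsq : Squarefree n := by
    have h1 := (h.ib.1 _ hD.ne).sqf
    rw [cc, if_pos rfl] at h1
    exact h1.of_mul_right
  have e1 : nOf D.S (D.E.VV (D.pt a r q n)) (D.U1 n ω s) (D.U2 n ω s) D.f = n := by
    rw [nOf, md_eq, e, filter_filter, show (D.NL n ω s).filter (fun b => D.S.Y < b.2 ∧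
      tl (D.U1 n ω s) (D.U2 n ω s) b = D.f) = D.Nn n from ?_, Nn,
      prod_image fun _ _ _ _ e => (Prod.mk.inj e).2]
    · exact Nat.prod_primeFactors_of_squarefree hsq
    ext b
    rw [mem_filter, mem]
    refine ⟨?_, fun hb => ⟨.inr (.inl hb), hN b hb, l2 b hb⟩⟩
    rintro ⟨hb | hb | hb | rfl, k1, k2⟩
    · rcases hD.med b hb k1 with k | k
      · exact absurd (l1 b hb ▸ k2) k.2
      · exact absurd ((tl_eq_iff.1 k2).1 ▸ uf) k
    · exact hb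
    · exact absurd (tl_eq_iff.1 k2).1 (hw.tag b hb).1
    · exact absurd (tl_eq_iff.1 k2).1.symm hD.fg
  have inter : ∀ (X X₁ X₂ : Finset (Gen nn)), X₁ ⊆ X → X₂ ⊆ X →
      (∀ b ∈ X, tl (D.U1 n ω s) (D.U2 n ω s) b = tl X₁ X₂ b) →
      X ∩ D.U1 n ω s = X₁ ∧ X ∩ D.U2 n ω s = X₂ := by
    intro X X₁ X₂ s1 s2 hl
    constructor <;> ext b <;> rw [mem_inter]
    · exact ⟨fun k => by simpa [tl] using (tl_eq_iff.1 (hl b k.1)).2.1.1 k.2,
        fun k => ⟨s1 k, (tl_eq_iff.1 (hl b (s1 k))).2.1.2 (by simpa [tl] using k)⟩⟩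
    · exact ⟨fun k => by simpa [tl] using (tl_eq_iff.1 (hl b k.1)).2.2.1 k.2,
        fun k => ⟨s2 k, (tl_eq_iff.1 (hl b (s2 k))).2.2.2 (by simpa [tl] using k)⟩⟩
  have sub : ∀ (X Y : Finset (Gen nn)) (u v : Bool), X ⊆ D.O → Y ⊆ ω.1 →
      X ∪ ((if u then D.Nn n else ∅) ∪ Y) ∪ (if v then {(D.g.1, s)} else ∅) ⊆ D.NL n ω s := by
    intro X Y u v s1 s2
    refine union_subset_union (union_subset_union s1 (union_subset_union ?_ s2)) ?_ <;>
      split_ifs <;> simp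
  have e2 : pat (md D.S.Y D.S.Y' (D.E.VV (D.pt a r q n))) (D.U1 n ω s) (D.U2 n ω s) =
      D.pt0 ω := by
    rw [md_eq, e]
    ext π
    simp only [pat, pt0, mem_image, mem_filter, mem, mem_union, mem_insert, mem_singleton]
    constructor
    · rintro ⟨b, ⟨hb | hb | hb | rfl, k1⟩, rfl⟩
      · exact .inl (.inl ⟨b, ⟨hb, k1⟩, (l1 b hb).symm⟩)
      · exact .inr (.inl (l2 b hb))
      · exact .inl (.inr ⟨b, hb, (l3 b hb).symm⟩)
      · exact .inr (.inr l4)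
    · rintro ((⟨b, ⟨hb, k1⟩, rfl⟩ | ⟨b, hb, rfl⟩) | rfl | rfl)
      · exact ⟨b, ⟨.inl hb, k1⟩, l1 b hb⟩
      · exact ⟨b, ⟨.inr (.inr (.inl hb)), hω b hb⟩, l3 b hb⟩
      · obtain ⟨p, hp⟩ := Nat.nonempty_primeFactors.2 h.one
        have hb : (D.f.1, p) ∈ D.Nn n := mem_Nn.2 ⟨rfl, hp⟩
        exact ⟨_, ⟨.inr (.inl hb), hN _ hb⟩, l2 _ hb⟩
      · exact ⟨_, ⟨.inr (.inr (.inr rfl)), h.s_el.1⟩, l4⟩
  refine ⟨e1, ?_, (inter _ _ _ hw.s1 hw.s2 l3).1, (inter _ _ _ hw.s1 hw.s2 l3).2, e2,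
    fun i i1 i2 hok => ⟨h.mem_AA hD, e ▸ sub _ _ _ _ hD.s1 hw.s1, e ▸ sub _ _ _ _ hD.s2 hw.s2, ?_,
      e2 ▸ hok, l4, ?_, (inter _ _ _ hD.s1 hD.s2 l1).1, (inter _ _ _ hD.s1 hD.s2 l1).2,
      e1.symm ▸ i1, e1.symm ▸ i2⟩⟩
  · ext b
    rw [rest, md_eq, e, mem_filter, mem_filter, mem]
    refine ⟨?_, fun hb => ⟨⟨.inr (.inr (.inl hb)), hω b hb⟩, (hw.tag b hb).1, (hw.tag b hb).2.1⟩⟩
    rintro ⟨⟨hb | hb | hb | rfl, k1⟩, k2, k3⟩
    · exact ((hD.med b hb k1).elim (fun k => k2 k.1) fun k => k k3).elim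
    · exact absurd (mem_Nn.1 hb).1 k2
    · exact hb
    · exact absurd k3 hD.ug
  · rw [md_eq, e, mem_filter, mem]
    exact ⟨.inr (.inr (.inr rfl)), h.s_el.1⟩
  · ext b
    rw [outer, e, mem_filter, mem]
    constructor
    · rintro ⟨hb | hb | hb | rfl, k⟩
      · exact hb
      · rcases k with k | k | k | k
        · exact absurd (hN b hb) (not_lt.2 k)
        · exact absurd (l2 b hb) k.2
        · exact absurd ((mem_Nn.1 hb).1.symm.trans k.1) hD.fg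
        · exact absurd (show inE D.u b.1.1 from (mem_Nn.1 hb).1 ▸ uf) k.2
      · rcases k with k | k | k | k
        · exact absurd (hω b hb) (not_lt.2 k)
        · exact absurd k.1 (hw.tag b hb).1
        · exact absurd k.1 (h.ng hD hb)
        · exact absurd (hw.tag b hb).2.1 k.2
      · rcases k with k | k | k | k
        · exact absurd h.s_el.1 (not_lt.2 k)
        · exact absurd k.1.symm hD.fg
        · exact absurd rfl k.2
        · exact absurd rfl k.1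
    · intro hb
      refine ⟨.inl hb, ?_⟩
      by_cases k : b.2 ≤ D.S.Y
      · exact .inl k
      rcases hD.med b hb (not_le.1 k) with k | k
      · exact .inr (.inl ⟨k.1, l1 b hb ▸ k.2⟩)
      · by_cases k' : b.1 = D.g.1
        · exact .inr (.inr (.inl ⟨k', fun e => d3 (e ▸ hb)⟩))
        · exact .inr (.inr (.inr ⟨k', k⟩))

theorem med_bound {S : Sc} (hR : Rel nn S) {c : Ed nn → ℕ} (hc : ∀ k, Core S (c k))
    {X : Finset (Gen nn)} (hX : ∀ b ∈ X, b ∈ gens c ∧ S.Y < b.2) :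
    ∏ b ∈ X, b.2 ≤ S.Y' ^ (6 * NE nn) ∧ X.card ≤ 6 * NE nn * S.J := by
  constructor
  · calc ∏ b ∈ X, b.2 ≤ ∏ b ∈ gens c, b.2 :=
          prod_le_prod_of_subset_of_one_le' (fun b hb => (hX b hb).1) fun b hb _ =>
            (Nat.prime_of_mem_primeFactors (mem_gens'.1 hb).2).pos
      _ ≤ ∏ _k : Ed nn, S.Y' ^ 6 := by
          rw [prod_gens]
          refine prod_le_prod' fun k _ => ?_
          rw [Nat.prod_primeFactors_of_squarefree (hc k).sqf]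
          exact hR.le_pow (hc k)
      _ = _ := by rw [prod_const, ← pow_mul]; rfl
  · let F : Ed nn → Finset (Gen nn) := fun k =>
      ((c k).primeFactors.filter (S.Y < ·)).image fun p => ((tg k), p)
    have hs : X ⊆ univ.biUnion F := by
      intro b hb
      obtain ⟨k1, k2⟩ := hX b hb
      obtain ⟨k, e, k5⟩ := mem_gens.1 k1
      exact mem_biUnion.2 ⟨k, mem_univ _,
        mem_image.2 ⟨b.2, mem_filter.2 ⟨k5, k2⟩, Prod.ext e.symm rfl⟩⟩
    calc X.card ≤ ∑ k, (F k).card := (card_le_card hs).trans card_biUnion_le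
      _ ≤ ∑ _k : Ed nn, 6 * S.J := sum_le_sum fun k _ => card_image_le.trans (hc k).hi
      _ = _ := by rw [sum_const, smul_eq_mul, card_univ, NE]; ring

theorem Tm.fwd (hD : D.Ok) {i : ℕ} {x : Fin nn → ℤ} {U U' : Finset (Gen nn)} {s : Gen nn}
    (h : D.Tm i x U U' s) (ag : ∀ j, j ≠ D.c → j ≠ D.u → a j = x j) :
    ∃ (r q n : ℕ) (ω : T3 nn), D.Val a r q s.2 n ω ∧ D.pt a r q n = x ∧
      D.U1 n ω s.2 = U ∧ D.U2 n ω s.2 = U' ∧ (D.g.1, s.2) = s := by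
  have hA := adm_of_mem hD.rel h.hx
  obtain ⟨x1, -, -, hsh, -, x6⟩ := JU.mem_AA.1 h.hx
  choose c P hc using hsh
  have hX := KEY.le_eq hD.rel hD.sys hD.hM hc
  have hs1 : s.1 = D.g.1 := (tl_eq_iff.1 h.lab).1
  set V := D.E.VV x with hV
  set Ns := (md D.S.Y D.S.Y' V).filter fun b => tl U U' b = D.f with hNs
  have med : ∀ b ∈ md D.S.Y D.S.Y' V, b ∈ gens c ∧ b.2.Prime := by
    intro b hb
    rw [md_eq, hX, mem_filter, mem_union] at hb
    have k : b ∈ gens c := hb.1.resolve_left fun k => by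
      have := hD.hM
      have := hD.sys.W0_le k
      omega
    obtain ⟨j, -, k'⟩ := mem_gens.1 k
    exact ⟨k, Nat.prime_of_mem_primeFactors k'⟩
  have hN1 : ∀ b ∈ Ns, b.1 = D.f.1 := fun b hb => (tl_eq_iff.1 (mem_filter.1 hb).2).1
  have hn : nOf D.S V U U' D.f = pr Ns D.f.1 := (pr_of_eq hN1).symm
  set n := nOf D.S V U U' D.f
  have hNn : D.Nn n = Ns := by
    ext b
    rw [mem_Nn, hn, mem_pr fun b hb _ => (med b (mem_filter.1 hb).1).2]
    exact ⟨fun k => by have h2 := k.2; rw [← k.1] at h2; exact h2,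
      fun k => ⟨hN1 b k, by rw [← hN1 b k]; exact k⟩⟩
  have hO : ∀ b, b ∈ D.O ↔ b ∈ le D.S.Y' V ∧ (b.2 ≤ D.S.Y ∨ (b.1 = D.f.1 ∧ tl U U' b ≠ D.f) ∨
      (b.1 = D.g.1 ∧ b ≠ s) ∨ (b.1 ≠ D.g.1 ∧ ¬inE D.u b.1.1)) :=
    fun b => by rw [← h.out, outer, mem_filter]; rfl
  have hR : ∀ b, b ∈ D.rest x ↔ (b ∈ le D.S.Y' V ∧ D.S.Y < b.2) ∧ b.1 ≠ D.f.1 ∧ inE D.u b.1.1 :=
    fun b => by rw [rest, md_eq, mem_filter, mem_filter]
  have hN : ∀ b, b ∈ Ns ↔ (b ∈ le D.S.Y' V ∧ D.S.Y < b.2) ∧ tl U U' b = D.f :=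
    fun b => by rw [hNs, md_eq, mem_filter, mem_filter]
  have hs : s ∈ le D.S.Y' V ∧ D.S.Y < s.2 := by have := h.hs; rwa [md_eq, mem_filter] at this
  have fg := hD.fg
  have rg : ∀ b ∈ D.rest x, b.1 ≠ D.g.1 := fun b hb e =>
    hD.ug (by have := ((hR b).1 hb).2.2; rwa [e] at this)
  have part : le D.S.Y' V = D.O ∪ (Ns ∪ D.rest x) ∪ {s} := by
    ext b
    simp only [mem_union, mem_singleton, hO, hR, hN]
    constructor
    · intro hb
      by_cases k1 : b.2 ≤ D.S.Y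
      · exact .inl (.inl ⟨hb, .inl k1⟩)
      by_cases k2 : b = s
      · exact .inr k2
      by_cases k3 : tl U U' b = D.f
      · exact .inl (.inr (.inl ⟨⟨hb, not_le.1 k1⟩, k3⟩))
      by_cases k4 : b.1 = D.f.1
      · exact .inl (.inl ⟨hb, .inr (.inl ⟨k4, k3⟩)⟩)
      by_cases k5 : b.1 = D.g.1
      · exact .inl (.inl ⟨hb, .inr (.inr (.inl ⟨k5, k2⟩))⟩)
      by_cases k6 : inE D.u b.1.1
      · exact .inl (.inr (.inr ⟨⟨hb, not_le.1 k1⟩, k4, k6⟩))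
      · exact .inl (.inl ⟨hb, .inr (.inr (.inr ⟨k5, k6⟩))⟩)
    · rintro ((k | k | k) | rfl)
      exacts [k.1, k.1.1, k.1.1, hs.1]
  have d1 : Disjoint Ns (D.rest x) := disjoint_left.2 fun b k k' => ((hR b).1 k').2.1 (hN1 b k)
  have d2 : Disjoint D.O (Ns ∪ D.rest x) := disjoint_left.2 fun b k k' => by
    rcases mem_union.1 k' with k' | k' <;> rcases ((hO b).1 k).2 with k | k | k | k
    · exact absurd ((hN b).1 k').1.2 (not_lt.2 k)
    · exact k.2 ((hN b).1 k').2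
    · exact fg ((hN1 b k').symm.trans k.1)
    · exact k.2 (hN1 b k' ▸ uf)
    · exact absurd ((hR b).1 k').1.2 (not_lt.2 k)
    · exact ((hR b).1 k').2.1 k.1
    · exact rg b k' k.1
    · exact k.2 ((hR b).1 k').2.2
  have d3 : Disjoint (D.O ∪ (Ns ∪ D.rest x)) {s} := disjoint_singleton_right.2 fun k => by
    rcases mem_union.1 k with k | k
    · rcases ((hO s).1 k).2 with k | k | k | k
      · exact absurd hs.2 (not_lt.2 k)
      · exact fg (k.1.symm.trans hs1)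
      · exact k.2 rfl
      · exact k.1 hs1
    · rcases mem_union.1 k with k | k
      · exact fg ((hN1 s k).symm.trans hs1)
      · exact rg s k hs1
  have hcc : ∀ k, c k = D.m k * (pr Ns (tg k) * pr (D.rest x) (tg k)) *
      pr {s} (tg k) := by
    intro k
    rw [m, ← pr_union d1, ← pr_union d2, ← pr_union d3, ← part, hX,
      pr_union (hD.sys.disjoint _), pr_gens (hc k).1.sqf,
      pr_of_ne (k := tg k) fun b hb e => tg_ne_none k (e ▸ (hD.sys.fix _ hb).1), one_mul]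
  let ω : T3 nn := (D.rest x, D.rest x ∩ U, D.rest x ∩ U')
  have c1 : ∀ k, k ≠ D.g0 → c k = D.cc n ω k := by
    intro k hk
    rw [hcc, cc, pr_of_ne (X := {s}) (fun b hb e => hk (tg_injective
      (by rw [← e, mem_singleton.1 hb, hs1, hD.hg]))), mul_one]
    split_ifs with hf
    · rw [pr_of_ne (X := D.rest x) (fun b hb e => ((hR b).1 hb).2.1 (by rw [e, hf, hD.hf])),
        mul_one, hn, hf, hD.hf]
    · rw [pr_of_ne (X := Ns) (fun b hb e => hf (tg_injective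
        (by rw [← e, hN1 b hb, hD.hf]))), one_mul]
  have c2 : c D.g0 = D.m D.g0 * s.2 := by
    rw [hcc, pr_of_ne (X := Ns) (fun b hb e => fg (by rw [← hN1 b hb, e, hD.hg])),
      pr_of_ne (X := D.rest x) (fun b hb e => rg b hb (by rw [e, hD.hg])),
      pr_of_eq (X := {s}) (fun b hb => by rw [mem_singleton.1 hb, hs1, hD.hg])]
    simp
  have lf1 : D.E.l x D.f0 = D.m D.f0 * n * P D.f0 := by
    rw [(hc _).2.2.2, c1 _ hD.ne, cc, if_pos rfl]
  have lf2 : D.E.l x D.g0 = D.m D.g0 * (s.2 * P D.g0) := by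
    rw [(hc _).2.2.2, c2, mul_assoc]
  have sp := (med s h.hs).2
  have z1 : x D.u - x D.c = D.al * n * P D.f0 := by
    rw [sub_ep x uf cf cu.symm, hA.eq, lf1, al]
    push_cast
    ring
  have z2 : x D.c - x D.v = D.be * (s.2 * P D.g0 : ℕ) := by
    rw [sub_ep x hD.cg vg hD.cv, hA.eq, lf2, be]
    push_cast
    ring
  have ept : D.pt a (P D.f0) (s.2 * P D.g0) n = x := by
    have := ag _ hD.cv.symm hD.vu
    funext j
    by_cases k : j = D.u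
    · simp only [pt, k, Function.update_self]
      linear_combination this - z1 - z2
    by_cases k' : j = D.c
    · rw [k', pt_c cu, pc, Function.update_self]
      linear_combination this - z2
    · rw [pt_o k' k, ag j k' k]
  have ec : ∀ j, j ≠ D.u → D.pc a (s.2 * P D.g0 : ℕ) j = x j := fun j k => by
    rw [← ept, pt_c k]
  have eu : ∀ j, j ≠ D.c → D.pu a (D.al * n * P D.f0 + D.be * (s.2 * P D.g0 : ℕ)) j = x j :=
    fun j k => by rw [← ept, pt_u k]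
  have ie : ∀ e, D.IE x e (c e) := fun e =>
    ⟨P e, (hc e).2.1, (hc e).2.2.1, (hc e).2.2.2 ▸ hA.eq e, (hc e).2.2.2 ▸ hA.one e⟩
  have ic : ∀ i, D.IC x i := fun i e e' t _ _ => hA.cop e e' t
  have cl : ∀ e e', e ≠ e' → (c e).Coprime (D.E.l x e') := fun e e' k =>
    Nat.coprime_of_dvd fun p hp d1 => x6 e e' k p hp (hD.rel.le_Y' (hc e).1
      (Nat.mem_primeFactors.2 ⟨hp, d1, (hc e).1.sqf.ne_zero⟩)) ((hc e).2.2.2 ▸ d1.mul_right _)
  have nm : ∀ b ∈ md D.S.Y D.S.Y' V, b ∉ D.O → ∀ e, ¬b.2 ∣ D.m e := fun b hb k e d => by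
    have k1 := hD.mem_m.1 (Nat.mem_primeFactors.2 ⟨(med b hb).2, d, (hD.m_pos e).ne'⟩)
    obtain ⟨k2, k3, k4⟩ := mem_md.1 hb
    have k5 : (tg e, b.2) ∈ md D.S.Y D.S.Y' V := mem_md.2 ⟨(mem_le.1 ((hO _).1 k1).1).1, k3, k4⟩
    rw [dist_gens (fun e e' t => (cl e e' t).coprime_dvd_right ⟨_, (hc e').2.2.2⟩) b (med b hb).1
      _ (med _ k5).1 rfl] at k
    exact k k1
  have mb := med_bound hD.rel (fun k => (hc k).1)
    (X := D.rest x) fun b hb => ⟨(med b (mem_filter.1 hb).1).1, ((hR b).1 hb).1.2⟩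
  have hω : ω ∈ D.W := by
    refine mem_W.2 ⟨fun b hb => ?_, inter_subset_left, inter_subset_left,
      (dist_gens fun e e' t => (cl e e' t).coprime_dvd_right ⟨_, (hc e').2.2.2⟩).mono
        fun b hb => (med b (mem_filter.1 hb).1).1, fun b hb =>
        ⟨((hR b).1 hb).2.1, ((hR b).1 hb).2.2, nm b (mem_filter.1 hb).1
          fun k => disjoint_left.1 d2 k (mem_union_right _ hb)⟩, mb.1, mb.2⟩
    obtain ⟨k1, k2⟩ := med b (mem_filter.1 hb).1
    exact mem_TT.2 ⟨(mem_gens'.1 k1).1, mem_pri.2 ⟨((hR b).1 hb).1.2,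
      (mem_le.1 ((hR b).1 hb).1.1).2, k2⟩⟩
  have c3 : ∀ e, c e = D.cs s.2 n ω e := fun e => by
    rw [cs]
    split_ifs with k
    · rw [k, c2, cc_of hω hD.ug]
    · rw [mul_one, c1 e k]
  have un : ∀ (X X₁ : Finset (Gen nn)) (u v : Bool), X ⊆ le D.S.Y' V → D.O ∩ X = X₁ →
      (∀ b ∈ Ns, (b ∈ X ↔ u)) → (s ∈ X ↔ v) →
      X₁ ∪ ((if u then D.Nn n else ∅) ∪ D.rest x ∩ X) ∪ (if v then {(D.g.1, s.2)} else ∅) = X := by
    intro X X₁ u v k1 k2 k3 k4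
    rw [hNn, ← hs1, ← k2]
    ext b
    have k5 : b ∈ X → b ∈ D.O ∨ b ∈ Ns ∨ b ∈ D.rest x ∨ b = s := fun hb => by
      have := k1 hb
      rw [part] at this
      simpa only [mem_union, mem_singleton, or_assoc] using this
    have k6 := k3 b
    cases u <;> cases v <;> simp only [mem_union, mem_inter, mem_singleton, notMem_empty,
      Bool.false_eq_true, if_false, if_true, Prod.mk.eta, iff_false, iff_true] at * <;> grind
  refine ⟨P D.f0, s.2 * P D.g0, n, ω, ⟨?_, dvd_mul_right _ _, ?_, hω, ⟨c2 ▸ (hc _).1, (hc _).2.1,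
      (hc _).2.2.1, fun j k => ec j k ▸ mem_box.1 x1 j, fun e he => ?_, (ic _).congr ec,
      fun k hk => ?_⟩, ⟨fun k hk => c1 k hk ▸ (hc k).1, fun p hp => ?_, fun e e' k => ?_⟩, ?_, ?_,
      eu _ cu.symm ▸ mem_box.1 x1 _, fun e he k => ?_, (ic _).congr eu⟩, ept,
    un _ _ _ _ h.hU h.o1 (fun b hb => (tl_eq_iff.1 ((hN b).1 hb).2).2.1) (tl_eq_iff.1 h.lab).2.1,
    un _ _ _ _ h.hU' h.o2 (fun b hb => (tl_eq_iff.1 ((hN b).1 hb).2).2.2) (tl_eq_iff.1 h.lab).2.2,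
    by rw [← hs1]⟩
  · exact mem_P.2 ⟨⟨hs.2, (mem_le.1 hs.1).2, sp⟩, nm s h.hs fun k =>
      disjoint_singleton_right.1 d3 (mem_union_left _ k)⟩
  · exact (Nat.one_le_two_pow).trans_lt h.lo
  · have := (ie e).congr ec he
    rwa [c3, cs, cc_of hω he] at this
  · rw [ec _ cu, ec _ (ne_of_not (mem_out.1 hk) uf).symm]
    exact hA.not_dvd_sub hD.sys (hc _).2.1 (lf1 ▸ dvd_mul_left _ _) cf hk
  · have : (D.f.1, p) ∈ Ns := hNn ▸ mem_Nn.2 ⟨rfl, hp⟩
    exact ((hN _).1 this).1.2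
  · exact ((cl e e' k).coprime_dvd_left ⟨_, c3 e⟩).coprime_dvd_right
      (Dvd.dvd.trans ⟨_, c3 e'⟩ ⟨_, (hc e').2.2.2⟩)
  · rw [← Nat.cast_mul, Nat.isCoprime_iff_coprime]
    refine Nat.Coprime.coprime_dvd_left (lf2 ▸ dvd_mul_left _ _) (Nat.Coprime.symm
      (Nat.Coprime.mul_left ?_ (Nat.Coprime.prod_left fun b hb => ?_)))
    · refine (cl _ _ hD.ne).coprime_dvd_left ?_
      rw [c1 _ hD.ne, cc, if_pos rfl]
      exact dvd_mul_left _ _
    · obtain ⟨k, e, k1⟩ := mem_gens.1 (med b (mem_filter.1 hb).1).1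
      exact (cl k _ fun e' => rg b hb (by rw [e, e', hD.hg])).coprime_dvd_left
        (Nat.dvd_of_mem_primeFactors k1)
  · have := Int.natCast_modEq_iff.2 (hA.one D.f0)
    rw [lf1] at this
    simpa using this
  · have := (ie e).congr eu (not_c he k)
    rwa [c1 e fun t => hD.ug (t ▸ he)] at this

end KD

end KEY

end Pool.Agent.MP_a43263_nt.JU

end
end MrgPart1

-- marker of a merged file
example : 731051 + 33076 = 731051 + 33076 := rfl
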