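import Mathlib.Data.Int.Star
import Pool.Agent.MP_a43263_nt.JU.KeyA

-- ======== part 0: formerly Pool.Agent.MP_a43263_nt.JU.KeyB
section MrgPart0

/-! PROJECT JU, module KEY: the factorisation of a term. -/

set_option autoImplicit false

noncomputable section

namespace Pool.Agent.MP_a43263_nt.JU

open Finset Filter
open R2 (Sgn chi sg pri Sc Core Shape mem_pri chi_comm chi_sgn chi_eq_rows chi_symmDiff_left
  chi_symmDiff_right chi_union_left chi_union_right sg_sgn sg_eq)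

variable {nn : ℕ}

namespace KEY

theorem abs_J (a : ℤ) (b : ℕ) : |jacobiSym a b| ≤ 1 := by
  rcases jacobiSym.trichotomy a b with h | h | h <;> rw [h] <;> simp

theorem abs_mul_le {a b : ℤ} (h : |a| ≤ 1) (h' : |b| ≤ 1) : |a * b| ≤ 1 := by
  rw [abs_mul]; exact mul_le_one₀ h (abs_nonneg _) h'

theorem abs_Jp (a : ℤ) (b e : ℕ) : |jacobiSym a b ^ e| ≤ 1 := by
  rw [abs_pow]; exact pow_le_one₀ (abs_nonneg _) (abs_J a b)

theorem abs_sgn {a : ℤ} (h : a = 1 ∨ a = -1) : |a| ≤ 1 := by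
  rcases h with rfl | rfl <;> simp

theorem abs_prod_le {ι : Type} (X : Finset ι) {F : ι → ℤ} (h : ∀ b ∈ X, |F b| ≤ 1) :
    |∏ b ∈ X, F b| ≤ 1 :=
  prod_induction F (fun z => |z| ≤ 1) (fun _ _ => abs_mul_le) (by simp) h

theorem J_prod {ι : Type} (X : Finset ι) (F : ι → ℤ) (p : ℕ) :
    jacobiSym (∏ b ∈ X, F b) p = ∏ b ∈ X, jacobiSym (F b) p := by
  classical
  induction X using Finset.induction_on with
  | empty => simp
  | insert b X hb ih => rw [prod_insert hb, prod_insert hb, jacobiSym.mul_left, ih]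

theorem J_end {E : Dat nn} {x : Fin nn → ℤ} (hA : Adm E x) {h : Ed nn} {p : ℕ} (hp : p ∣ E.l x h)
    {j : Fin nn} (hj : inE j h) (k : Fin nn) :
    jacobiSym (x h.1.1 - x k) p = jacobiSym (x j - x k) p :=
  jacobiSym.mod_left' (Int.ModEq.sub_right _ (Int.modEq_iff_dvd.2
    ((Int.natCast_dvd_natCast.2 hp).trans (hA.dvd_sub hj (inE_fst h)))))

/-- an end of `h` other than `i` -/
def oth (h : Ed nn) (i : Fin nn) : Fin nn := if h.1.1 = i then h.1.2 else h.1.1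

theorem oth_mem (h : Ed nn) (i : Fin nn) : inE (oth h i) h := by
  unfold oth
  split_ifs
  exacts [inE_snd h, inE_fst h]

theorem oth_ne (h : Ed nn) (i : Fin nn) : oth h i ≠ i := by
  unfold oth
  split_ifs with k
  exacts [k ▸ h.ne.symm, k]

theorem chi_diag (dg : Gen nn → ℤ) (U U' : Finset (Gen nn)) :
    chi (gm dg) U U' = chi (gm fun _ => 1) U U' * ∏ b ∈ U ∩ U', sg (dg b) := by
  rw [← prod_ite_mem, chi, chi, ← prod_mul_distrib]
  refine prod_congr rfl fun a _ => ?_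
  rw [← prod_ite_eq U' a fun _ => sg (dg a), ← prod_mul_distrib]
  refine prod_congr rfl fun b _ => ?_
  split_ifs with h
  · simp [h, gm_self, sg]
  · rw [mul_one, gm_congr _ _ h h rfl rfl rfl rfl]

namespace KD

/-- the shape that the oscillation estimate needs -/
def Fact (D : KD nn) (a : Fin nn → ℤ) (F : ℕ → ℕ → ℕ → ℕ → T3 nn → ℤ) (e : ℕ) : Prop :=
  ∃ (A : ℕ → ℕ → ℕ → ℤ) (b : ℕ → T3 nn → ℤ) (p : ℕ → T3 nn → ℤ → ℤ) (ψ : ℤ → ℤ)
    (σ : ℕ → T3 nn → ℤ) (K : T3 nn → ℤ),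
    (∀ r q s, |A r q s| ≤ 1) ∧ (∀ n ω, |b n ω| ≤ 1) ∧ (∀ n ω q, |p n ω q| ≤ 1) ∧ (∀ z, |ψ z| ≤ 1) ∧
    (∀ n, ∀ ω ∈ D.W, ∀ q, p n ω (q + n * nu ω) = p n ω q) ∧ (∀ n ω, σ n ω = 1 ∨ σ n ω = -1) ∧
    ∀ r q s n ω, D.Val a r q s n ω → F r q s n ω = A r q s * b n ω * p n ω q *
      ψ (D.al * n * r + D.be * q) * jacobiSym (σ n ω * n ^ e * K ω) s

variable {D : KD nn} {a : Fin nn → ℤ} {F G : ℕ → ℕ → ℕ → ℕ → T3 nn → ℤ} {e e' : ℕ}

theorem Fact.congr (h : D.Fact a G e)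
    (hF : ∀ r q s n ω, D.Val a r q s n ω → F r q s n ω = G r q s n ω) : D.Fact a F e := by
  obtain ⟨A, b, p, ψ, σ, K, h1, h2, h3, h0, h4, h5, h6⟩ := h
  exact ⟨A, b, p, ψ, σ, K, h1, h2, h3, h0, h4, h5,
    fun r q s n ω k => (hF r q s n ω k).trans (h6 r q s n ω k)⟩

theorem Fact.mul (h : D.Fact a F e) (h' : D.Fact a G e') :
    D.Fact a (fun r q s n ω => F r q s n ω * G r q s n ω) (e + e') := by
  obtain ⟨A, b, p, ψ, σ, K, h1, h2, h3, h0, h4, h5, h6⟩ := h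
  obtain ⟨A', b', p', ψ', σ', K', k1, k2, k3, k0, k4, k5, k6⟩ := h'
  refine ⟨fun r q s => A r q s * A' r q s, fun n ω => b n ω * b' n ω,
    fun n ω q => p n ω q * p' n ω q, fun z => ψ z * ψ' z, fun n ω => σ n ω * σ' n ω,
    fun ω => K ω * K' ω,
    fun _ _ _ => abs_mul_le (h1 _ _ _) (k1 _ _ _), fun _ _ => abs_mul_le (h2 _ _) (k2 _ _),
    fun _ _ _ => abs_mul_le (h3 _ _ _) (k3 _ _ _), fun _ => abs_mul_le (h0 _) (k0 _),
    fun n ω hω q => ?_, fun n ω => ?_, fun r q s n ω k => ?_⟩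
  · simp only [h4 n ω hω, k4 n ω hω]
  · rcases h5 n ω with h | h <;> rcases k5 n ω with k | k <;> simp [h, k]
  · simp only [h6 r q s n ω k, k6 r q s n ω k]
    rw [show σ n ω * σ' n ω * (n : ℤ) ^ (e + e') * (K ω * K' ω) =
      σ n ω * n ^ e * K ω * (σ' n ω * n ^ e' * K' ω) by ring, jacobiSym.mul_left (σ n ω * _ * _)]
    ring

theorem fact_a {A : ℕ → ℕ → ℕ → ℤ} (h : ∀ r q s, |A r q s| ≤ 1) :
    D.Fact a (fun r q s _ _ => A r q s) 0 :=
  ⟨A, fun _ _ => 1, fun _ _ _ => 1, fun _ => 1, fun _ _ => 1, fun _ => 1, h, by simp, by simp,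
    by simp, by simp, by simp, by simp⟩

theorem fact_b {b : ℕ → T3 nn → ℤ} (h : ∀ n ω, |b n ω| ≤ 1) :
    D.Fact a (fun _ _ _ n ω => b n ω) 0 :=
  ⟨fun _ _ _ => 1, b, fun _ _ _ => 1, fun _ => 1, fun _ _ => 1, fun _ => 1, by simp, h, by simp,
    by simp, by simp, by simp, by simp⟩

theorem fact_p {p : ℕ → T3 nn → ℤ → ℤ} (h : ∀ n ω q, |p n ω q| ≤ 1)
    (h' : ∀ n, ∀ ω ∈ D.W, ∀ q, p n ω (q + n * nu ω) = p n ω q) :
    D.Fact a (fun _ q _ n ω => p n ω q) 0 :=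
  ⟨fun _ _ _ => 1, fun _ _ => 1, p, fun _ => 1, fun _ _ => 1, fun _ => 1, by simp, by simp, h,
    by simp, h', by simp, by simp⟩

theorem fact_z {ψ : ℤ → ℤ} (h : ∀ z, |ψ z| ≤ 1) :
    D.Fact a (fun r q _ n _ => ψ (D.al * n * r + D.be * q)) 0 :=
  ⟨fun _ _ _ => 1, fun _ _ => 1, fun _ _ _ => 1, ψ, fun _ _ => 1, fun _ => 1, by simp, by simp,
    by simp, h, by simp, by simp, by simp⟩

theorem fact_J {σ : ℕ → T3 nn → ℤ} (h : ∀ n ω, σ n ω = 1 ∨ σ n ω = -1) (K : T3 nn → ℤ) (e : ℕ) :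
    D.Fact a (fun _ _ s n ω => jacobiSym (σ n ω * n ^ e * K ω) s) e :=
  ⟨fun _ _ _ => 1, fun _ _ => 1, fun _ _ _ => 1, fun _ => 1, σ, K, by simp, by simp, by simp,
    by simp, by simp, h, by simp⟩

theorem fact_prod {ι : Type} (X : Finset ι) {F : ι → ℕ → ℕ → ℕ → ℕ → T3 nn → ℤ}
    (h : ∀ b ∈ X, D.Fact a (F b) 0) : D.Fact a (fun r q s n ω => ∏ b ∈ X, F b r q s n ω) 0 := by
  classical
  induction X using Finset.induction_on with
  | empty => exact fact_a (A := fun _ _ _ => 1) (by simp)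
  | insert b X hb ih =>
    simp only [prod_insert hb]
    exact (h b (mem_insert_self _ _)).mul (ih fun a ha => h a (mem_insert_of_mem ha))

theorem Fact.ite (h : D.Fact a F e) (v : Bool) :
    D.Fact a (fun r q s n ω => if v then F r q s n ω else 1) (v.toNat * e) := by
  cases v
  · simpa using fact_a (D := D) (A := fun _ _ _ => 1) (by simp)
  · simpa using h

theorem Fact.odd (h : D.Fact a F e) (he : Odd e) : D.Fact a F 1 := by
  obtain ⟨A, b, p, ψ, σ, K, h1, h2, h3, h0, h4, h5, h6⟩ := h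
  obtain ⟨k, rfl⟩ := he
  refine ⟨A, b, p, ψ, σ, K, h1, h2, h3, h0, h4, h5, fun r q s n ω hv => ?_⟩
  have hc : ((n : ℤ) ^ k).gcd s = 1 := by
    rw [← Int.isCoprime_iff_gcd_eq_one]
    exact (hv.cop.of_mul_right_left.symm.of_isCoprime_of_dvd_right
      (Int.natCast_dvd_natCast.2 hv.dvd)).pow_left
  rw [h6 r q s n ω hv, show σ n ω * (n : ℤ) ^ (2 * k + 1) * K ω =
    σ n ω * n ^ 1 * K ω * (n ^ k) ^ 2 by ring, jacobiSym.mul_left (σ n ω * _ * _),
    jacobiSym.sq_one' hc, mul_one]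

variable {r q s n : ℕ} {ω : T3 nn}

theorem Val.adm (hD : D.Ok) (h : D.Val a r q s n ω) : Adm D.E (D.pt a r q n) :=
  adm_of_mem hD.rel (h.mem_AA hD)

theorem Val.dvd_lf (hD : D.Ok) (h : D.Val a r q s n ω) {k : Ed nn} {p : ℕ}
    (hb : ((tg k), p) ∈ D.NL n ω s) : p.Prime ∧ p ∣ D.E.l (D.pt a r q n) k := by
  rw [← (h.le_eq hD).1, mem_le, hD.sys.mk_mem_VV] at hb
  exact ⟨Nat.prime_of_mem_primeFactors hb.1, Nat.dvd_of_mem_primeFactors hb.1⟩

theorem Val.sqf (hD : D.Ok) (h : D.Val a r q s n ω) : Squarefree n := by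
  have h1 := (h.ib.1 _ hD.ne).sqf
  rw [cc, if_pos rfl] at h1
  exact h1.of_mul_right

theorem J_per {p : ℕ} {t : ℤ} (h : (p : ℤ) ∣ t) (q : ℤ) (j k : Fin nn) :
    jacobiSym (D.pc a (q + t) j - D.pc a (q + t) k) p = jacobiSym (D.pc a q j - D.pc a q k) p := by
  have : ∀ j, D.pc a (q + t) j ≡ D.pc a q j [ZMOD p] := fun j => by
    by_cases k : j = D.c
    · simp only [pc, k, Function.update_self]
      exact (((Int.modEq_iff_dvd.2 (by simpa using h)).symm).mul_left _).add_left _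
    · simp only [pc, Function.update_of_ne k, Int.ModEq.refl]
  exact jacobiSym.mod_left' ((this j).sub (this k))

/-- the inner part of a label set -/
def II (D : KD nn) (u : Bool) (sel : T3 nn → Finset (Gen nn)) (n : ℕ) (ω : T3 nn) :
    Finset (Gen nn) := (if u then D.Nn n else ∅) ∪ sel ω

theorem II_sub {u : Bool} {sel : T3 nn → Finset (Gen nn)} (hs : sel ω ⊆ ω.1) :
    D.II u sel n ω ⊆ D.Nn n ∪ ω.1 := by
  refine union_subset_union ?_ hs
  split_ifs <;> simp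

theorem Val.dj (hD : D.Ok) (h : D.Val a r q s n ω) {X : Finset (Gen nn)} (hX : X ⊆ D.O) {u : Bool}
    {sel : T3 nn → Finset (Gen nn)} (hs : sel ω ⊆ ω.1) (v : Bool) : Disjoint X (D.II u sel n ω) ∧
      Disjoint (X ∪ D.II u sel n ω) (if v then {(D.g.1, s)} else ∅) := by
  obtain ⟨d1, d2, d3, -, d5, d6⟩ := h.disj hD
  refine ⟨disjoint_left.2 fun b k k' => ?_, ?_⟩
  · rcases mem_union.1 (II_sub hs k') with k' | k'
    exacts [d1 b k' (hX k), d2 b k' (hX k)]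
  · split_ifs
    · refine disjoint_singleton_right.2 fun k => ?_
      rcases mem_union.1 k with k | k
      · exact d3 (hX k)
      · rcases mem_union.1 (II_sub hs k) with k | k
        exacts [d5 k, d6 k]
    · exact disjoint_empty_right _

theorem Val.II_el (hD : D.Ok) (h : D.Val a r q s n ω) {b : Gen nn} (hb : b ∈ D.Nn n ∪ ω.1) :
    b.1.2 = some true ∧ inE D.u b.1.1 ∧ b.2.Prime ∧ b.2 ≠ s := by
  have hc : ∀ p : ℕ, p.Prime → p ∣ n * nu ω → p ≠ s := by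
    rintro p hp hd rfl
    have := h.cop
    rw [← Nat.cast_mul, Nat.isCoprime_iff_coprime] at this
    exact hp.ne_one (Nat.eq_one_of_dvd_coprimes this h.dvd hd)
  rcases mem_union.1 hb with hb | hb
  · obtain ⟨k1, k2⟩ := mem_Nn.1 hb
    have k3 := Nat.prime_of_mem_primeFactors k2
    exact ⟨by rw [k1, hD.hf]; rfl, k1 ▸ uf, k3,
      hc _ k3 ((Nat.dvd_of_mem_primeFactors k2).mul_right _)⟩
  · obtain ⟨k1, -, -, k3⟩ := W_el h.hω hb
    exact ⟨k1, ((mem_W.1 h.hω).2.tag b hb).2.1, k3, hc _ k3 ((dvd_prod_of_mem _ hb).mul_left _)⟩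

theorem fact_rows (hD : D.Ok) {row : (Fin nn → ℤ) → Gen nn → ℤ} {k0 : Gen nn → ℤ} {C : Ed nn → ℤ}
    {d : Ed nn → Fin nn → ℕ} (h1 : ∀ b, |k0 b| ≤ 1)
    (h2 : ∀ x, Adm D.E x → ∀ b ∈ D.E.W0, row x b = k0 b)
    (h3 : ∀ x, Adm D.E x → ∀ (h : Ed nn) (p : ℕ), p.Prime → p ∣ D.E.l x h →
      row x (tg h, p) = jacobiSym (C h * ∏ k ∈ out h, (x h.1.1 - x k) ^ d h k) p)
    {X : Finset (Gen nn)} (hX : X ⊆ D.O) (u v : Bool) {sel : T3 nn → Finset (Gen nn)}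
    (hs : ∀ ω ∈ D.W, sel ω ⊆ ω.1) :
    D.Fact a (fun r q s n ω => ∏ b ∈ X ∪ D.II u sel n ω ∪ (if v then {(D.g.1, s)} else ∅),
      row (D.pt a r q n) b) (v.toNat * d D.g0 D.u) := by
  have h4 : ∀ {r q s n ω}, D.Val a r q s n ω → ∀ b ∈ D.NL n ω s, b.1.2 = some true →
      ∀ j : Fin nn → Fin nn, (∀ k, inE (j k) b.1.1) → row (D.pt a r q n) b =
        jacobiSym (C b.1.1) b.2 * ∏ k ∈ out b.1.1,
          jacobiSym (D.pt a r q n (j k) - D.pt a r q n k) b.2 ^ d b.1.1 k := by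
    rintro r q s n ω hv ⟨k, p⟩ hb t j hj
    obtain ⟨h, rfl⟩ : ∃ h, k = tg h := ⟨_, eq_tg t⟩
    obtain ⟨k1, k2⟩ := hv.dvd_lf hD hb
    rw [h3 _ (hv.adm hD) h p k1 k2, jacobiSym.mul_left, J_prod]
    exact congrArg _ (prod_congr rfl fun k _ => by
      rw [jacobiSym.pow_left, J_end (hv.adm hD) k2 (hj k)]; rfl)
  have f1 : D.Fact a (fun r q s n ω => ∏ b ∈ X, row (D.pt a r q n) b) 0 := by
    refine fact_prod X fun b hb => ?_
    rcases hD.el b (hX hb) with k | k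
    · exact (fact_a fun _ _ _ => h1 b).congr fun r q s n ω hv => h2 _ (hv.adm hD) b k
    refine ((fact_a fun _ _ _ => abs_J (C b.1.1) b.2).mul (fact_prod _ fun k _ => ?_)).congr
      fun r q s n ω hv => h4 hv b (mem_union_left _ (mem_union_left _ (hX hb))) k.1
        (fun k => if k = D.u then oth b.1.1 D.c else oth b.1.1 D.u)
        fun k => by split_ifs <;> exact oth_mem _ _
    by_cases t : k = D.u
    · exact (fact_z fun z => abs_Jp (D.pu a z (oth b.1.1 D.c) - D.pu a z k) b.2 (d b.1.1 k)).congr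
        fun r q s n ω _ => by rw [if_pos t, pt_u (oth_ne _ _), pt_u (t ▸ cu.symm)]
    · exact (fact_a fun r q s =>
        abs_Jp (D.pc a q (oth b.1.1 D.u) - D.pc a q k) b.2 (d b.1.1 k)).congr
        fun r q s n ω _ => by rw [if_neg t, pt_c (oth_ne _ _), pt_c t]
  have f2 : D.Fact a (fun r q s n ω => ∏ b ∈ D.II u sel n ω, row (D.pt a r q n) b) 0 := by
    refine (fact_p (p := fun n ω q => ∏ b ∈ D.II u sel n ω, jacobiSym (C b.1.1) b.2 *
      ∏ k ∈ out b.1.1, jacobiSym (D.pc a q (oth b.1.1 D.u) - D.pc a q k) b.2 ^ d b.1.1 k)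
      (fun n ω q => abs_prod_le _ fun b _ => abs_mul_le (abs_J _ _)
        (abs_prod_le _ fun _ _ => abs_Jp _ _ _))
      fun n ω hω q => prod_congr rfl fun b hb => congrArg _ (prod_congr rfl fun k _ => ?_)).congr
      fun r q s n ω hv => prod_congr rfl fun b hb => ?_
    · rw [J_per]
      rw [← Nat.cast_mul, Int.natCast_dvd_natCast]
      rcases mem_union.1 (II_sub (hs ω hω) hb) with k | k
      · exact (Nat.dvd_of_mem_primeFactors (mem_Nn.1 k).2).mul_right _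
      · exact (dvd_prod_of_mem _ k).mul_left _
    · have k := II_sub (hs ω hv.hω) hb
      rw [h4 hv b (mem_union_left _ (mem_union_right _ k)) (hv.II_el hD k).1 _ fun _ => oth_mem _ D.u]
      exact congrArg _ (prod_congr rfl fun j hj => by
        rw [pt_c (oth_ne _ _), pt_c (ne_of_not (mem_out.1 hj) (hv.II_el hD k).2.1).symm])
  have f3 : D.Fact a (fun r q s n ω => row (D.pt a r q n) (D.g.1, s)) (0 + d D.g0 D.u) := by
    refine ((fact_a fun r q s => abs_mul_le (abs_mul_le (abs_J (C D.g0) s)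
      (abs_Jp (-(D.al * r)) s (d D.g0 D.u))) (abs_prod_le ((out D.g0).erase D.u) fun k _ =>
        abs_Jp (D.pc a q D.c - D.pc a q k) s (d D.g0 k))).mul
      (fact_J (σ := fun _ _ => 1) (by simp) (fun _ => 1) _)).congr fun r q s n ω hv => ?_
    rw [h4 hv _ (mem_union_right _ (mem_singleton_self _)) (by rw [hD.hg]; rfl) _ fun _ => hD.cg]
    show jacobiSym (C D.g0) s * ∏ k ∈ out D.g0, _ ^ d D.g0 k = _
    rw [← mul_prod_erase _ _ (mem_out.2 hD.ug), ← neg_sub, pt_uc,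
      show -(D.al * n * r) = -(D.al * r) * n by ring, jacobiSym.mul_left, mul_pow, one_mul, mul_one,
      jacobiSym.pow_left, prod_congr rfl fun k hk => by rw [pt_c cu, pt_c (ne_of_mem_erase hk)]]
    ring
  have f4 := (f1.mul f2).mul (f3.ite v)
  simp only [zero_add] at f4
  refine f4.congr fun r q s n ω hv => ?_
  obtain ⟨d1, d2⟩ := hv.dj hD hX (u := u) (hs ω hv.hω) v
  rw [prod_union d2, prod_union d1]
  cases v <;> simp

theorem fact_col (hD : D.Ok) (kc : KCStmt) (dg : Gen nn → ℤ)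
    {X : Finset (Gen nn)} (hX : X ⊆ D.O) (u v : Bool) {sel : T3 nn → Finset (Gen nn)}
    (hs : ∀ ω ∈ D.W, sel ω ⊆ ω.1) :
    D.Fact a (fun _ _ s n ω => chi (gm dg) (X ∪ D.II u sel n ω) (if v then {(D.g.1, s)} else ∅))
      (v.toNat * u.toNat) := by
  obtain ⟨y1, y2, y3, -, y5, -⟩ := kc nn
  have h5 : ∀ W : Finset (Gen nn), ∃ σ : ℤ, (σ = 1 ∨ σ = -1) ∧ ((∀ b ∈ W, b.2 ≠ 1) →
      Gv D.g0 W = σ * ∏ b ∈ W.filter (fun b => lk b.1.1 D.g0), (b.2 : ℤ)) := by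
    intro W
    by_cases h : ∀ b ∈ W, b.2 ≠ 1
    · exact (y5 W _ h).imp fun _ k => ⟨k.1, fun _ => k.2⟩
    · exact ⟨1, .inl rfl, fun k => absurd k h⟩
  choose σ s1 s2 using h5
  have f1 := (fact_a (D := D) (a := a) fun _ _ s => abs_prod_le X fun b _ =>
    abs_sgn ((y1 dg).2 b (D.g.1, s))).mul (fact_J (fun n ω => s1 (D.II u sel n ω))
      (fun ω => ∏ b ∈ (sel ω).filter (fun b => lk b.1.1 D.g0), (b.2 : ℤ)) u.toNat)
  rw [zero_add] at f1
  refine (f1.ite v).congr fun r q s n ω hv => ?_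
  have hw := hs ω hv.hω
  have h2 : 2 ≤ D.S.Y := (Nat.le_of_dvd hD.sys.pos hD.sys.two_dvd).trans hD.hM
  have el := fun b (hb : b ∈ D.II u sel n ω) => hv.II_el hD (II_sub hw hb)
  obtain ⟨t1, -, t2⟩ := hv.s_el
  cases v
  · simp [chi]
  simp only [chi, if_true, prod_singleton]
  rw [prod_union (hv.dj hD hX hw true).1, y2 dg _ (D.g.1, s) (fun k => (el _ k).2.2.2 rfl)
    (t2.odd_of_ne_two (by omega)) t2.one_lt (jacobiSym.ne_zero ?_)]
  · refine congrArg (_ * jacobiSym · s) ((s2 _ fun b hb => (el b hb).2.2.1.ne_one).trans ?_)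
    have hd : Disjoint (if u then D.Nn n else ∅) (sel ω) := by
      split_ifs
      · exact disjoint_right.2 fun b hb => (hv.disj hD).2.2.2.1 b (hw hb)
      · exact disjoint_empty_left _
    rw [mul_assoc, II, filter_union, prod_union (disjoint_filter_filter hd)]
    refine congrArg _ (congrArg₂ _ ?_ rfl)
    cases u
    · simp
    simp only [if_true, Bool.toNat_true]
    rw [filter_true_of_mem fun b hb => by rw [(mem_Nn.1 hb).1]; exact hD.lk, Nn,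
      prod_image fun _ _ _ _ e => (Prod.mk.inj e).2, pow_one, ← Nat.cast_prod,
      Nat.prod_primeFactors_of_squarefree (hv.sqf hD)]
  · rw [Int.gcd_comm, ← Int.isCoprime_iff_gcd_eq_one]
    refine (Nat.prime_iff_prime_int.1 t2).irreducible.coprime_iff_not_dvd.2 fun k => ?_
    obtain ⟨b, hb, k, -⟩ := (y3 _ _ fun b hb => .inr (el b hb).2.2.1).2.1 s t2 k
    exact (el b hb).2.2.2 k

/-- symbols between whole forms -/
theorem fact_ww (hD : D.Ok) (sym : SYMStmt) (E : Ed nn → Fin nn → ℕ) :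
    D.Fact a (fun r q _ n _ => ∏ h, ∏ k ∈ out h, sy D.E (D.pt a r q n) h k ^ E h k) 0 := by
  obtain ⟨s₁, s₂, ex, y1, y2, -, y4⟩ := (sym _ _ hD.sys).2.2 D.f0 E
  obtain ⟨t₁, t₂, z1, z2, z3⟩ : ∃ t₁ t₂ : (Fin nn → ℤ) → ℤ, (∀ x, |t₁ x| ≤ 1 ∧ |t₂ x| ≤ 1) ∧
      (∀ x t, t₁ (Function.update x D.u t) = t₁ x ∧ t₂ (Function.update x D.c t) = t₂ x) ∧
      ∀ x, s₁ x * s₂ x = t₁ x * t₂ x := by
    rcases ends D.f0 D.g0 with k | k
    · exact ⟨s₁, s₂, y1, by rw [u, c, k.1, k.2]; exact y2, fun _ => rfl⟩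
    · exact ⟨s₂, s₁, fun x => (y1 x).symm, by rw [u, c, k.1, k.2]; exact fun x t => (y2 x t).symm,
        fun _ => mul_comm _ _⟩
  refine (((fact_a fun r q s => (z1 (D.pc a q)).1).mul (fact_z fun z => (z1 (D.pu a z)).2)).mul
    (fact_prod (out D.f0) fun k _ => (fact_a fun r q s =>
      abs_Jp (D.pc a q D.c - D.pc a q k) (D.m D.f0 * r) (ex k)).mul
      (fact_p (fun n ω q => abs_Jp (D.pc a q D.c - D.pc a q k) n (ex k)) fun n ω _ q => by
        rw [J_per (dvd_mul_right _ _)]))).congr fun r q s n ω hv => ?_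
  have h0 : D.m D.f0 * r * n ≠ 0 := by
    rw [mul_right_comm, ← hD.lf_f (a := a) (q := q)]
    exact ((hv.adm hD).sqf _).ne_zero
  rw [y4 _ (hv.adm hD), z3]
  refine congrArg₂ _ (congrArg₂ _ (z2 _ _).1 ?_) (prod_congr rfl fun k hk => ?_)
  · rw [pt, pc, Function.update_comm cu]
    exact (z2 _ _).2
  · rw [sy, J_end (hv.adm hD) dvd_rfl cf, hD.lf_f, mul_right_comm,
      jacobiSym.mul_right' _ (left_ne_zero_of_mul h0) (right_ne_zero_of_mul h0), mul_pow, pt_c cu,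
      pt_c (ne_of_not (mem_out.1 hk) uf).symm]

theorem Val.inter (hD : D.Ok) (h : D.Val a r q s n ω) : D.U1 n ω s ∩ D.U2 n ω s =
    D.O₁ ∩ D.O₂ ∪ D.II (D.f.2.1 && D.f.2.2) (fun ω => ω.2.1 ∩ ω.2.2) n ω ∪
      if D.g.2.1 && D.g.2.2 then {(D.g.1, s)} else ∅ := by
  obtain ⟨d1, d2, d3, d4, d5, d6⟩ := h.disj hD
  ext b
  have w1 := @(mem_W.1 h.hω).2.s1 b
  have w2 := @(mem_W.1 h.hω).2.s2 b
  have w3 := @hD.s1 b
  have w4 := @hD.s2 b
  have := d1 b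
  have := d2 b
  have := d4 b
  simp only [U1, U2, I1, I2, II]
  cases D.f.2.1 <;> cases D.f.2.2 <;> cases D.g.2.1 <;> cases D.g.2.2 <;>
    simp only [mem_union, mem_inter, mem_singleton, notMem_empty, Bool.false_eq_true, if_false,
      if_true, Bool.and_self, Bool.and_true, Bool.and_false] <;> grind

/-- the factorisation of the sign of a term -/
theorem fact_term (hD : D.Ok) (kc : KCStmt) (sym : SYMStmt) (t : ℕ) {y y' : Finset (Ed nn)}
    (ho : Odd (expo y y' D.f D.g)) :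
    D.Fact a (fun r q s n ω => sgn D.E (D.pt a r q n) ^ t * chi (D.E.g (D.pt a r q n))
      (symmDiff (D.U1 n ω s) (ones (D.E.VV (D.pt a r q n)) y))
      (symmDiff (D.U2 n ω s) (ones (D.E.VV (D.pt a r q n)) y'))) 1 := by
  have y1 := (sym _ _ hD.sys).2.1
  have w1 : ∀ ω ∈ D.W, ω.2.1 ⊆ ω.1 := fun ω h => (mem_W.1 h).2.s1
  have w2 : ∀ ω ∈ D.W, ω.2.2 ⊆ ω.1 := fun ω h => (mem_W.1 h).2.s2
  have g := (kc nn).1 fun _ => 1
  have rr := fun y => @fact_rows nn D a hD (fun x b => ∏ z ∈ ones (D.E.VV x) y, D.E.g x z b)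
    (fun _ => 1) (Cy D.E y) (dk y) (by simp) (fun x hx => (y1 x hx).2.1 y)
    fun x hx => (y1 x hx).1 y
  have r1 := rr y' hD.s1 D.f.2.1 D.g.2.1 w1
  have r2 := rr y hD.s2 D.f.2.2 D.g.2.2 w2
  have r3 := fact_rows (a := a) hD (row := fun x b => sg (D.E.dga x b))
    (k0 := fun b => sg (D.E.dg0 b)) (C := fun h => (-1) ^ bb h h) (d := fun _ _ => 1)
    (fun _ => abs_sgn (sg_sgn _)) (fun x _ b hb => by rw [Dat.dga, if_pos (hD.sys.fix b hb).1])
    (fun x hx h p hp hd => by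
      rw [Dat.dga, if_neg (tg_ne_none h)]
      simp only [pow_one]
      exact sg_eq (hx.ga_jac hD.sys hp hd))
    (inter_subset_left.trans hD.s1 : D.O₁ ∩ D.O₂ ⊆ _) (D.f.2.1 && D.f.2.2) (D.g.2.1 && D.g.2.2)
    (sel := fun ω => ω.2.1 ∩ ω.2.2) fun ω h => inter_subset_left.trans (w1 ω h)
  have c1 := fact_col (a := a) hD kc (fun _ => 1) hD.s1 D.f.2.1 D.g.2.2 w1
  have c2 := fact_col (a := a) hD kc (fun _ => 1) hD.s2 D.f.2.2 D.g.2.1 w2
  have a1 := fact_a (D := D) (a := a) fun r q s => abs_sgn (chi_sgn g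
      (if D.g.2.1 then {(D.g.1, s)} else ∅) (if D.g.2.2 then {(D.g.1, s)} else ∅))
  have b1 := fact_b (D := D) (a := a) fun n ω =>
    abs_sgn (chi_sgn g (D.O₁ ∪ D.I1 n ω) (D.O₂ ∪ D.I2 n ω))
  have p1 := fact_ww (a := a) hD sym fun h k => t + if h ∈ y' then dk y h k else 0
  refine Fact.odd ((((((((a1.mul b1).mul p1).mul c1).mul c2).mul r3).mul r2).mul r1).congr
    fun r q s n ω hv => ?_) ?_
  · have d1 : Disjoint (D.O₁ ∪ D.I1 n ω) _ :=
      (hv.dj hD hD.s1 (u := D.f.2.1) (sel := fun ω => ω.2.1) (w1 ω hv.hω) D.g.2.1).2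
    have d2 : Disjoint (D.O₂ ∪ D.I2 n ω) _ :=
      (hv.dj hD hD.s2 (u := D.f.2.2) (sel := fun ω => ω.2.2) (w2 ω hv.hω) D.g.2.2).2
    have g' : Sgn (D.E.g (D.pt a r q n)) := (kc nn).1 _
    obtain ⟨-, -, -, k1, -, -, k2, -⟩ := y1 _ (hv.adm hD)
    have e0 : ∏ h, ∏ k ∈ out h, sy D.E (D.pt a r q n) h k ^ (t + if h ∈ y' then dk y h k else 0) =
        sgn D.E (D.pt a r q n) ^ t * ∏ h ∈ y', ∏ k ∈ out h, sy D.E (D.pt a r q n) h k ^ dk y h k := by
      rw [k2, ← prod_pow, ← univ_inter y', ← prod_ite_mem, ← prod_mul_distrib, univ_inter]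
      refine prod_congr rfl fun h _ => ?_
      split_ifs
      · simp only [pow_add, prod_mul_distrib, prod_pow]
      · simp only [add_zero, mul_one, prod_pow]
    have e1 : chi (D.E.g (D.pt a r q n)) (D.U1 n ω s) (D.U2 n ω s) =
        chi (gm fun _ => 1) (D.O₁ ∪ D.I1 n ω) (D.O₂ ∪ D.I2 n ω) *
        chi (gm fun _ => 1) (D.O₁ ∪ D.I1 n ω) (if D.g.2.2 then {(D.g.1, s)} else ∅) *
        (chi (gm fun _ => 1) (D.O₂ ∪ D.I2 n ω) (if D.g.2.1 then {(D.g.1, s)} else ∅) *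
        chi (gm fun _ => 1) (if D.g.2.1 then {(D.g.1, s)} else ∅)
          (if D.g.2.2 then {(D.g.1, s)} else ∅)) *
        ∏ b ∈ D.U1 n ω s ∩ D.U2 n ω s, sg (D.E.dga (D.pt a r q n) b) := by
      rw [Dat.g, chi_diag, U1, U2, chi_union_left d1, chi_union_right _ d2, chi_union_right _ d2,
        chi_comm g (if D.g.2.1 then _ else _) (D.O₂ ∪ _)]
    rw [chi_symmDiff_left g', chi_symmDiff_right g', chi_symmDiff_right g', k1,
      chi_comm g' (D.U1 n ω s) (ones _ _), chi_eq_rows _ (ones _ _), chi_eq_rows _ (ones _ _), e0,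
      e1, hv.inter hD]
    simp only [U1, U2, I1, I2, II]
    ring
  · have : expo y y' D.f D.g = 0 + 0 + 0 + D.g.2.2.toNat * D.f.2.1.toNat +
        D.g.2.1.toNat * D.f.2.2.toNat + (D.g.2.1 && D.g.2.2).toNat * 1 +
        D.g.2.2.toNat * dk y D.g0 D.u + D.g.2.1.toNat * dk y' D.g0 D.u := by
      rw [expo, g0, u, f0, g0]
      cases D.g.2.1 <;> cases D.g.2.2 <;> simp [add_comm]
    exact this ▸ ho

end KD

end KEY

end Pool.Agent.MP_a43263_nt.JU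

end
end MrgPart0

-- ======== part 1: formerly Pool.Agent.MP_a43263_nt.JU.Key
section MrgPart1

/-! PROJECT JU, module KEY: the sum with frozen data. -/

set_option autoImplicit false

noncomputable section

namespace Pool.Agent.MP_a43263_nt.JU

open Finset Filter
open R2 (Sgn chi pri Sc Core Shape mem_pri)
open RG (Rel Ev EE ev_Y ev_ge)

variable {nn : ℕ}

namespace KEY

namespace KD

variable {D : KD nn} {i : ℕ} {a x : Fin nn → ℤ} {U U' : Finset (Gen nn)} {s : Gen nn}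

theorem Tm.toOk (h : D.Tm i x U U' s) (sys : D.E.Ok) (rel : Rel nn D.S)
    (hM : D.E.M ≤ D.S.Y) (ne : lk D.f0 D.g0) : D.Ok := by
  have h1 : ∀ b ∈ md D.S.Y D.S.Y' (D.E.VV x), b.1.2 = some true := by
    intro b hb
    rw [md_VV sys hM] at hb
    exact (mem_gens'.1 (mem_md.1 hb).1).1
  have hO : ∀ b, b ∈ D.O ↔ b ∈ le D.S.Y' (D.E.VV x) ∧ (b.2 ≤ D.S.Y ∨
      (b.1 = D.f.1 ∧ tl U U' b ≠ D.f) ∨ (b.1 = D.g.1 ∧ b ≠ s) ∨ (b.1 ≠ D.g.1 ∧ ¬inE D.u b.1.1)) :=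
    fun b => by rw [← h.out, outer, mem_filter]; rfl
  refine ⟨sys, rel, hM, eq_tg (by_contra fun e => ?_),
    eq_tg ((tl_eq_iff.1 h.lab).1 ▸ h1 s h.hs), ne, fun b hb => ?_, fun b hb => ?_,
    fun b hb k => ?_, h.o1 ▸ inter_subset_left, h.o2 ▸ inter_subset_left⟩
  · have h2 := h.lo
    rw [nOf, filter_false_of_mem fun b hb e' => e ((tl_eq_iff.1 e').1 ▸ h1 b hb), prod_empty] at h2
    exact absurd h2 (not_lt.2 Nat.one_le_two_pow)
  · refine (hO b).2 ⟨?_, .inl ((sys.W0_le hb).trans hM)⟩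
    rw [le_VV sys (hM.trans rel.Y_le)]
    exact mem_union_left _ hb
  · exact (mem_VV.1 (mem_le.1 ((hO b).1 hb).1).1).imp_right fun k =>
      (mem_gens'.1 k).imp_right Nat.prime_of_mem_primeFactors
  · rcases ((hO b).1 hb).2 with k' | k' | k' | k'
    · omega
    · refine .inl ⟨k'.1, ?_⟩
      rw [← h.o1, ← h.o2]
      simpa only [tl, mem_inter, hb, true_and] using k'.2
    · exact .inr (k'.1 ▸ ov_not_mem ne.1)
    · exact .inr k'.2

open Classical in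
/-- the set of all terms -/
def Terms (D : KD nn) (i : ℕ) :=
  ((AA D.S D.E).sigma fun x => (le D.S.Y' (D.E.VV x)).powerset ×ˢ
    (le D.S.Y' (D.E.VV x)).powerset ×ˢ md D.S.Y D.S.Y' (D.E.VV x)).filter
    fun t => D.Tm i t.1 t.2.1 t.2.2.1 t.2.2.2

theorem mem_Terms : ⟨x, U, U', s⟩ ∈ D.Terms i ↔ D.Tm i x U U' s := by
  simp only [Terms, mem_filter, mem_sigma, mem_product, mem_powerset]
  exact ⟨fun h => h.2, fun h => ⟨⟨h.hx, h.hU, h.hU', h.hs⟩, h⟩⟩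

open Classical in
theorem keySum_eq (D : KD nn) (t : ℕ) (y y' : Finset (Ed nn)) (i : ℕ) :
    keySum D.S D.E t y y' D.f D.g D.ok D.O D.O₁ D.O₂ i = ∑ z ∈ D.Terms i,
      (sgn D.E z.1 : ℝ) ^ t * term (D.E.g z.1) (D.E.VV z.1) y y' z.2.1 z.2.2.1 := by
  rw [Terms, sum_filter, sum_sigma, keySum]
  refine sum_congr rfl fun x hx => ?_
  rw [sum_product]
  refine sum_congr rfl fun U hU => ?_
  rw [sum_product]
  refine sum_congr rfl fun U' hU' => sum_congr rfl fun s hs => if_congr ?_ rfl rfl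
  exact ⟨fun ⟨a, b, c, d, e, f, g⟩ => ⟨hx, mem_powerset.1 hU, mem_powerset.1 hU', hs, a, b, c, d,
    e, f, g⟩, fun h => ⟨h.ok, h.lab, h.out, h.o1, h.o2, h.lo, h.hi⟩⟩

def RR (D : KD nn) (i : ℕ) : ℕ := 2 * (D.E.R * D.S.Z) / (D.m D.f0 * 2 ^ i)

def QQ (D : KD nn) : ℕ := 2 * (D.E.R * D.S.Z) / D.m D.g0

/-- the vertices that are frozen -/
def T (D : KD nn) : Finset (Fin nn) := (univ.erase D.u).erase D.c

theorem mem_T {j : Fin nn} : j ∈ D.T ↔ j ≠ D.c ∧ j ≠ D.u := by simp [T]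

def st (D : KD nn) (x : Fin nn → ℤ) (j : Fin nn) : ℤ := if j ∈ D.T then x j else 0

open Classical in
theorem inner_eq (hD : D.Ok) (ha : ∀ j ∉ D.T, a j = 0)
    (w : (Fin nn → ℤ) → Finset (Gen nn) → Finset (Gen nn) → ℝ) (i : ℕ) :
    ∑ z ∈ (D.Terms i).filter (fun z => D.st z.1 = a), w z.1 z.2.1 z.2.2.1 =
      ∑ r ∈ Icc 1 (D.RR i), ∑ q ∈ Icc 1 D.QQ, ∑ s ∈ D.P, ∑ n ∈ Ioc (2 ^ i) (2 * 2 ^ i), ∑ ω ∈ D.W,
        if D.Val a r q s n ω ∧ D.ok (D.pt0 ω) then w (D.pt a r q n) (D.U1 n ω s) (D.U2 n ω s)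
        else 0 := by
  simp only [← sum_product']
  rw [← sum_filter]
  symm
  refine sum_bij (fun t _ => ⟨D.pt a t.1 t.2.1 t.2.2.2.1, D.U1 t.2.2.2.1 t.2.2.2.2 t.2.2.1,
    D.U2 t.2.2.2.1 t.2.2.2.2 t.2.2.1, (D.g.1, t.2.2.1)⟩) ?_ ?_ ?_ fun _ _ => rfl
  · rintro ⟨r, q, s, n, ω⟩ ht
    simp only [mem_filter, mem_product, mem_Ioc] at ht
    refine mem_filter.2 ⟨mem_Terms.2 ((ht.2.1.back hD).2.2.2.2.2 i ht.1.2.2.2.1.1
      (pow_succ' 2 i ▸ ht.1.2.2.2.1.2) ht.2.2), funext fun j => ?_⟩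
    rw [st]
    split_ifs with k
    exacts [pt_o (mem_T.1 k).1 (mem_T.1 k).2, (ha j k).symm]
  · rintro ⟨r, q, s, n, ω⟩ ht ⟨r', q', s', n', ω'⟩ ht' e
    have h := (mem_filter.1 ht).2.1
    have h' := (mem_filter.1 ht').2.1
    simp only [Sigma.mk.injEq, heq_eq_eq, Prod.mk.injEq, true_and] at e h h' ⊢
    obtain ⟨e1, e2, e3, rfl⟩ := e
    obtain ⟨a1, a2, a3, a4, -⟩ := h.back hD
    obtain ⟨b1, b2, b3, b4, -⟩ := h'.back hD
    rw [e1, e2, e3, b1] at a1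
    rw [e1, b2] at a2
    rw [e2, ← a2, b3] at a3
    rw [e3, ← a2, b4] at a4
    subst a1
    have c1 := hD.lf_f (a := a) (r := r) (q := q) (n := n')
    have c2 := hD.lf_g (a := a) (r := r) (q := q) (n := n')
    rw [e1, hD.lf_f] at c1
    rw [e1, hD.lf_g] at c2
    have := h.one
    exact ⟨(Nat.eq_of_mul_eq_mul_left (Nat.mul_pos (hD.m_pos _) (by omega)) c1).symm,
      (Nat.eq_of_mul_eq_mul_left (hD.m_pos _) c2).symm, rfl, rfl,
      Prod.ext a2.symm (Prod.ext a3.symm a4.symm)⟩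
  · rintro ⟨x, U, U', s⟩ ht
    have h : D.Tm i x U U' s := mem_Terms.1 (mem_filter.1 ht).1
    obtain ⟨r, q, n, ω, hv, rfl, rfl, rfl, e⟩ := h.fwd (a := a) hD fun j k k' => by
      rw [← (mem_filter.1 ht).2, st, if_pos (mem_T.2 ⟨k, k'⟩)]
    obtain ⟨a1, -, -, -, a5, -⟩ := hv.back hD
    have lo := h.lo
    have hi := h.hi
    have ok := h.ok
    rw [a1] at lo hi
    rw [a5] at ok
    have b1 := l_le hD.sys (AA_subset _ _ h.hx) ((hv.adm hD).eq D.f0)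
    have b2 := l_le hD.sys (AA_subset _ _ h.hx) ((hv.adm hD).eq D.g0)
    have c1 := ((hv.adm hD).sqf D.f0).ne_zero
    have c2 := ((hv.adm hD).sqf D.g0).ne_zero
    rw [hD.lf_f] at b1 c1
    rw [hD.lf_g] at b2 c2
    refine ⟨⟨r, q, s.2, n, ω⟩, ?_, by simp only [e]⟩
    simp only [mem_filter, mem_product, mem_Ioc, mem_Icc]
    refine ⟨⟨⟨Nat.pos_of_ne_zero (right_ne_zero_of_mul c1), ?_⟩,
      ⟨Nat.pos_of_ne_zero (right_ne_zero_of_mul c2), ?_⟩, hv.hs, ⟨lo, pow_succ' 2 i ▸ hi⟩, hv.hω⟩,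
      hv, ok⟩
    · refine (Nat.le_div_iff_mul_le (Nat.mul_pos (hD.m_pos _) (by positivity))).2 (le_trans ?_ b1)
      rw [mul_comm]
      exact Nat.mul_le_mul_right _ (Nat.mul_le_mul_left _ lo.le)
    · exact (Nat.le_div_iff_mul_le (hD.m_pos _)).2 (by rwa [mul_comm])

theorem fibre (D : KD nn) (m : ℕ) : (D.W.filter fun ω => nu ω = m).card ≤
    (2 ^ (Fintype.card (Tag nn) * (6 * NE nn * D.S.J))) ^ 3 := by
  rcases (D.W.filter fun ω => nu ω = m).eq_empty_or_nonempty with h | ⟨ω₀, h⟩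
  · rw [h, card_empty]; exact Nat.zero_le _
  have h1 : ∀ ω ∈ D.W, (nu ω).primeFactors = ω.1.image Prod.snd := by
    intro ω hω
    rw [nu, ← prod_image (f := fun p => p) fun a ha b hb e => (mem_W.1 hω).2.dist a ha b hb e,
      Nat.primeFactors_prod]
    intro p hp
    obtain ⟨b, hb, rfl⟩ := mem_image.1 hp
    exact (W_el hω hb).2.2.2
  let T : Finset (Gen nn) := univ ×ˢ m.primeFactors
  have h2 : T.card ≤ Fintype.card (Tag nn) * (6 * NE nn * D.S.J) := by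
    obtain ⟨k, rfl⟩ := mem_filter.1 h
    rw [card_product, h1 _ k]
    exact Nat.mul_le_mul le_rfl (card_image_le.trans (mem_W.1 k).2.card)
  have h3 : (D.W.filter fun ω => nu ω = m) ⊆ T.powerset ×ˢ T.powerset ×ˢ T.powerset := by
    intro ω hω
    obtain ⟨k, rfl⟩ := mem_filter.1 hω
    have : ω.1 ⊆ T := fun b hb => mem_product.2 ⟨mem_univ _, h1 _ k ▸ mem_image_of_mem _ hb⟩
    simp only [mem_product, mem_powerset]
    exact ⟨this, (mem_W.1 k).2.s1.trans this, (mem_W.1 k).2.s2.trans this⟩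
  refine (card_le_card h3).trans ?_
  rw [card_product, card_product, card_powerset, ← sq, ← pow_succ']
  exact Nat.pow_le_pow_left (Nat.pow_le_pow_right (by norm_num) h2) _

/-- frozen primes of the edges between frozen vertices -/
def m0 (D : KD nn) (e : Ed nn) : ℕ := if e.1.1 ∈ D.T ∧ e.1.2 ∈ D.T then D.m e else 1

/-- frozen primes of the other edges at the common vertex -/
def m1 (D : KD nn) (e : Ed nn) : ℕ := if inE D.c e ∧ e ≠ D.f0 ∧ e ≠ D.g0 then D.m e else 1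

theorem m0_dvd (e : Ed nn) : D.m0 e ∣ D.m e := by
  unfold m0
  split_ifs <;> simp

theorem m1_dvd (e : Ed nn) : D.m1 e ∣ D.m e := by
  unfold m1
  split_ifs <;> simp

theorem Ok.prod_le (hD : D.Ok) : ∏ b ∈ D.O.filter (fun b => D.S.Y < b.2), b.2 ≤
    (∏ e, D.m0 e) * (∏ e, D.m1 e) * (D.m D.f0 * D.m D.g0) := by
  rw [← prod_fiberwise _ fun b => b.1.1, ← prod_ite_eq' univ D.f0 D.m |>.trans (if_pos (mem_univ _)),
    ← prod_ite_eq' univ D.g0 D.m |>.trans (if_pos (mem_univ _)), ← prod_mul_distrib,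
    ← prod_mul_distrib, ← prod_mul_distrib]
  refine prod_le_prod' fun e _ => ?_
  have h0 := hD.m_pos e
  have h1 : ∏ b ∈ (D.O.filter fun b => D.S.Y < b.2).filter (fun b => b.1.1 = e), b.2 ≤ D.m e := by
    refine prod_le_prod_of_subset_of_one_le' (fun b hb => ?_) fun b hb _ =>
      (hD.prime _ b (mem_filter.1 hb).1 (mem_filter.1 hb).2).pos
    simp only [mem_filter] at hb ⊢
    refine ⟨hb.1.1, hb.2 ▸ eq_tg ((hD.el b hb.1.1).resolve_left fun k => ?_).1⟩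
    have := hD.sys.W0_le k
    have := hD.hM
    omega
  have h2 : ∀ {a b c d : ℕ}, a ∣ D.m e → b ∣ D.m e → c ∣ D.m e → d ∣ D.m e → 0 < a * b * (c * d) ∧
      (a = D.m e ∨ b = D.m e ∨ c = D.m e ∨ d = D.m e → D.m e ≤ a * b * (c * d)) := by
    intro a b c d k1 k2 k3 k4
    have := Nat.pos_of_dvd_of_pos k1 h0
    have := Nat.pos_of_dvd_of_pos k2 h0
    have := Nat.pos_of_dvd_of_pos k3 h0
    have := Nat.pos_of_dvd_of_pos k4 h0
    refine ⟨by positivity, fun k => Nat.le_of_dvd (by positivity) ?_⟩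
    rcases k with k | k | k | k <;> rw [← k]
    exacts [(dvd_mul_right _ _).mul_right _, (dvd_mul_left _ _).mul_right _,
      (dvd_mul_right _ _).mul_left _, (dvd_mul_left _ _).mul_left _]
  have h3 := h2 (c := if e = D.f0 then D.m e else 1) (d := if e = D.g0 then D.m e else 1)
    (m0_dvd e) (m1_dvd e) (by split_ifs <;> simp) (by split_ifs <;> simp)
  by_cases k : inE D.u e ∧ e ≠ D.f0
  · rw [prod_eq_one fun b hb => ?_]
    · exact h3.1
    simp only [mem_filter] at hb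
    exact ((hD.med b hb.1.1 hb.1.2).elim (fun t => k.2 (hb.2 ▸ congrArg Prod.fst t.1))
      fun t => t (hb.2 ▸ k.1)).elim
  refine h1.trans (h3.2 ?_)
  by_cases k1 : e = D.f0
  · exact .inr (.inr (.inl (if_pos k1)))
  by_cases k2 : e = D.g0
  · exact .inr (.inr (.inr (if_pos k2)))
  by_cases k3 : inE D.c e
  · exact .inr (.inl (if_pos ⟨k3, k1, k2⟩))
  have k4 : ¬inE D.u e := fun t => k ⟨t, k1⟩
  exact .inl (if_pos ⟨mem_T.2 ⟨ne_of_not k3 (inE_fst e), ne_of_not k4 (inE_fst e)⟩,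
    mem_T.2 ⟨ne_of_not k3 (inE_snd e), ne_of_not k4 (inE_snd e)⟩⟩)

/-- sizes of the frozen parts -/
structure Sz (D : KD nn) : Prop where
  le : ∀ e, D.m e ≤ D.S.Y' ^ 6
  cop : ∀ e e', e ≠ e' → (D.m e).Coprime (D.m e')
  cM : ∀ e, (D.m e).Coprime D.E.M

theorem Val.m_dvd {r q s n : ℕ} {ω : T3 nn} (hD : D.Ok) (h : D.Val a r q s n ω) (e : Ed nn) :
    D.m e ∣ D.E.l (D.pt a r q n) e := by
  obtain ⟨P, hP⟩ := h.forms' hD
  rw [(hP e).2.2.2]
  exact ((dvd_mul_right _ _).mul_right _).mul_right _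

theorem Val.sizes {r q s n : ℕ} {ω : T3 nn} (hD : D.Ok) (h : D.Val a r q s n ω) :
    D.Sz ∧ D.S.Y < n ∧ n ≤ D.S.Y' ^ 3 := by
  have h1 := h.ib.1 _ hD.ne
  rw [cc, if_pos rfl] at h1
  refine ⟨⟨fun e => (Nat.le_of_dvd (h.forms hD e).1.pos
    ((dvd_mul_right _ _).mul_right _)).trans (hD.rel.le_pow (h.forms hD e).1), fun e e' k =>
    ((h.ib.2.2 e e' k).coprime_dvd_left (dvd_mul_right _ _)).coprime_dvd_right (dvd_mul_right _ _),
    fun e => ((h.adm hD).coprime_M e).coprime_dvd_left (h.m_dvd hD e)⟩, ?_, le_trans ?_ h1.me⟩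
  · obtain ⟨p, hp⟩ := Nat.nonempty_primeFactors.2 h.one
    exact (h.ib.2.1 p hp).trans_le (Nat.le_of_mem_primeFactors hp)
  · conv_lhs => rw [← Nat.prod_primeFactors_of_squarefree (h.sqf hD)]
    refine prod_le_prod_of_subset_of_one_le' (fun p hp => mem_filter.2 ⟨?_, h.ib.2.1 p hp⟩)
      fun p hp _ => (Nat.prime_of_mem_primeFactors (mem_filter.1 hp).1).pos
    exact Nat.primeFactors_mono (dvd_mul_left _ _) h1.pos.ne' hp

theorem Sz.prod (h : D.Sz) (hD : D.Ok) {μ : Ed nn → ℕ} (k : ∀ e, μ e ∣ D.m e) :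
    (∀ e, 0 < μ e) ∧ (∀ e e', e ≠ e' → (μ e).Coprime (μ e')) ∧ ∏ e, μ e ≤ D.S.Y' ^ (6 * NE nn) ∧
      ∀ p : ℕ, p.Prime → (∀ e, ¬p ∣ D.m e) → p.Coprime (∏ e, μ e) := by
  refine ⟨fun e => Nat.pos_of_dvd_of_pos (k e) (hD.m_pos e), fun e e' t =>
    ((h.cop e e' t).coprime_dvd_left (k e)).coprime_dvd_right (k e'), ?_, fun p hp t =>
    Nat.Coprime.prod_right fun e _ => hp.coprime_iff_not_dvd.2 fun d => t e (d.trans (k e))⟩
  rw [pow_mul]
  exact prod_le_pow_card _ _ _ fun e _ => (Nat.le_of_dvd (hD.m_pos e) (k e)).trans (h.le e)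

theorem Ok.cop_be (hD : D.Ok) {t : ℕ} (h1 : t.Coprime D.E.M) (h2 : t.Coprime (D.m D.g0)) :
    IsCoprime (t : ℤ) D.be := by
  have := Nat.isCoprime_iff_coprime.2 ((h1.coprime_dvd_right (hD.sys.dv D.g0)).mul_right h2)
  rw [Nat.cast_mul] at this
  rcases ep_sgn D.g0 D.c with k | k <;> simpa [be, k, IsCoprime.neg_right_iff] using this

theorem Ok.cop_M (hD : D.Ok) {p : ℕ} (hp : p.Prime) (h : D.S.Y < p) : p.Coprime D.E.M :=
  hp.coprime_iff_not_dvd.2 fun d => absurd ((Nat.le_of_dvd hD.sys.pos d).trans hD.hM) (not_le.2 h)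

theorem IE.dvd {e : Ed nn} {c : ℕ} (h : D.IE x e c) {j : Fin nn} (hj : inE j e) :
    (c : ℤ) ∣ x j - x (oth e j) := by
  obtain ⟨P, -, -, k, -⟩ := h
  rw [sub_ep x hj (oth_mem e j) (oth_ne e j).symm, k, Nat.cast_mul]
  exact ((dvd_mul_right _ _).mul_left _).mul_left _

theorem exists_q (hD : D.Ok) (hS : D.Sz) (a : Fin nn → ℤ) : ∃ q₀ : ℤ, ∀ r q s : ℕ,
    D.IA a r q s → (q : ℤ) ≡ q₀ [ZMOD (∏ e, D.m1 e : ℕ)] := by
  by_cases h : ∃ r q s, D.IA a r q s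
  swap
  · exact ⟨0, fun r q s k => absurd ⟨r, q, s, k⟩ h⟩
  obtain ⟨r₀, q₀, s₀, h⟩ := h
  refine ⟨q₀, fun r q s k => Int.modEq_iff_dvd.2 ?_⟩
  rw [Nat.cast_prod]
  refine prod_dvd_of_coprime (fun e _ e' _ t => Nat.isCoprime_iff_coprime.2
    ((hS.prod hD m1_dvd).2.1 e e' t)) fun e _ => ?_
  rw [m1]
  split_ifs with t
  swap
  · simp
  have t1 : ¬inE D.u e := fun w => not_c w t.2.1 t.1
  have d1 := (h.2.2.2.2.1 e t1).dvd t.1
  have d2 := (k.2.2.2.2.1 e t1).dvd t.1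
  simp only [if_neg t.2.2, mul_one, pc, Function.update_self,
    Function.update_of_ne (oth_ne e D.c)] at d1 d2
  refine (hD.cop_be (hS.cM e) (hS.cop _ _ t.2.2)).dvd_of_dvd_mul_left ?_
  convert dvd_sub d1 d2 using 1
  ring

theorem exists_rho (hD : D.Ok) (a : Fin nn → ℤ) (n : ℕ) {ω : T3 nn} (hω : ω ∈ D.W) :
    ∃ ρ₀ ρ : ℤ, ∀ r q : ℤ, D.IP a n ω (D.al * n * r + D.be * q) → q ≡ ρ₀ + ρ * r [ZMOD nu ω] := by
  have hw := (mem_W.1 hω).2
  by_cases h : ∃ z, D.IP a n ω z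
  swap
  · exact ⟨0, 0, fun r q k => absurd ⟨_, k⟩ h⟩
  obtain ⟨z, h⟩ := h
  obtain ⟨x, y, e⟩ := hD.cop_be (t := nu ω) (Nat.Coprime.prod_left fun b hb =>
    hD.cop_M (W_el hω hb).2.2.2 (W_el hω hb).2.1) (Nat.Coprime.prod_left fun b hb =>
      (W_el hω hb).2.2.2.coprime_iff_not_dvd.2 ((hw.tag b hb).2.2 _))
  refine ⟨y * z, -(y * D.al * n), fun r q k => Int.modEq_iff_dvd.2 ?_⟩
  have d : (nu ω : ℤ) ∣ z - (D.al * n * r + D.be * q) := by
    rw [nu, Nat.cast_prod]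
    refine prod_dvd_of_coprime (fun b hb b' hb' t => Nat.isCoprime_iff_coprime.2
      ((Nat.coprime_primes (W_el hω hb).2.2.2 (W_el hω hb').2.2.2).2
        fun e' => t (hw.dist b hb b' hb' e'))) fun b hb => ?_
    have t0 := eq_tg (W_el hω hb).1
    have t1 : b.1.1 ≠ D.f0 := fun w => (hw.tag b hb).1 (by rw [t0, w, hD.hf])
    have d1 := (h.2.1 _ (hw.tag b hb).2.1 t1).dvd (hw.tag b hb).2.1
    have d2 := (k.2.1 _ (hw.tag b hb).2.1 t1).dvd (hw.tag b hb).2.1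
    simp only [pu, Function.update_self, Function.update_of_ne (oth_ne _ D.u)] at d1 d2
    refine Dvd.dvd.trans (b := (D.cc n ω b.1.1 : ℤ)) (Int.natCast_dvd_natCast.2 ?_) ?_
    · rw [cc, if_neg t1, ← t0]
      exact (dvd_pr hb).mul_left _
    · convert dvd_sub d1 d2 using 1
      ring
  rw [show y * z + -(y * D.al * n) * r - q = y * (z - (D.al * n * r + D.be * q)) - nu ω * (x * q) by
    linear_combination q * e]
  exact dvd_sub (d.mul_left _) (dvd_mul_right _ _)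

theorem abs_ite {p : Prop} [Decidable p] {a : ℝ} (h : |a| ≤ 1) : |if p then a else 0| ≤ 1 := by
  split_ifs
  exacts [h, by simp]

theorem abs_cast {a : ℤ} (h : |a| ≤ 1) : |(a : ℝ)| ≤ 1 := by exact_mod_cast h

open Classical in
/-- the sum in the shape of the oscillation estimate -/
theorem inner_shape (hD : D.Ok) (ha : ∀ j ∉ D.T, a j = 0) {t : ℕ} {y y' : Finset (Ed nn)} (i : ℕ)
    {A : ℕ → ℕ → ℕ → ℤ} {b : ℕ → T3 nn → ℤ} {p : ℕ → T3 nn → ℤ → ℤ} {ψ : ℤ → ℤ}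
    {σ : ℕ → T3 nn → ℤ} {K : T3 nn → ℤ}
    (h : ∀ r q s n ω, D.Val a r q s n ω → sgn D.E (D.pt a r q n) ^ t * chi (D.E.g (D.pt a r q n))
      (symmDiff (D.U1 n ω s) (ones (D.E.VV (D.pt a r q n)) y))
      (symmDiff (D.U2 n ω s) (ones (D.E.VV (D.pt a r q n)) y')) = A r q s * b n ω * p n ω q *
      ψ (D.al * n * r + D.be * q) * jacobiSym (σ n ω * n ^ 1 * K ω) s) :
    ∑ z ∈ (D.Terms i).filter (fun z => D.st z.1 = a),
      (sgn D.E z.1 : ℝ) ^ t * term (D.E.g z.1) (D.E.VV z.1) y y' z.2.1 z.2.2.1 =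
      ∑ r ∈ Icc 1 (D.RR i), ∑ q ∈ Icc 1 D.QQ, ∑ s ∈ D.P.filter (· ∣ q),
        (if D.IA a r q s then (A r q s : ℝ) else 0) * ∑ n ∈ Ioc (2 ^ i) (2 * 2 ^ i), ∑ ω ∈ D.W,
          (if D.IB n ω ∧ D.ok (D.pt0 ω) then
            (b n ω : ℝ) / 2 ^ ((D.O ∪ (D.Nn n ∪ ω.1)).card + (NE nn + 1)) else 0) *
          jacobiSym (σ n ω * n * K ω) s *
          (if ω ∈ D.W ∧ IsCoprime (q : ℤ) (n * nu ω) then (p n ω q : ℝ) else 0) *
          ((if (D.m D.f0 : ℤ) * n * r + 0 * q ≡ 1 [ZMOD (8 * D.E.M : ℕ)] then (1 : ℝ) else 0) *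
            if D.IP a n ω (D.al * n * r + D.be * q) then (ψ (D.al * n * r + D.be * q) : ℝ)
            else 0) := by
  rw [inner_eq hD ha fun x U U' => (sgn D.E x : ℝ) ^ t * term (D.E.g x) (D.E.VV x) y y' U U']
  refine sum_congr rfl fun r _ => sum_congr rfl fun q _ => ?_
  rw [sum_filter]
  refine sum_congr rfl fun s hs => ?_
  by_cases hd : s ∣ q
  swap
  · rw [if_neg hd]
    exact sum_eq_zero fun n _ => sum_eq_zero fun ω _ => if_neg fun k => hd k.1.dvd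
  rw [if_pos hd, mul_sum]
  refine sum_congr rfl fun n hn => ?_
  rw [mul_sum]
  refine sum_congr rfl fun ω hω => ?_
  by_cases hv : D.Val a r q s n ω ∧ D.ok (D.pt0 ω)
  · obtain ⟨-, -, d3, -, d5, d6⟩ := hv.1.disj hD
    rw [if_pos hv, if_pos hv.1.ia, if_pos ⟨hv.1.ib, hv.2⟩, if_pos ⟨hω, hv.1.cop⟩, if_pos hv.1.i0,
      if_pos hv.1.ip, term, ← mul_div_assoc, ← Int.cast_pow, ← Int.cast_mul, h r q s n ω hv.1,
      (hv.1.le_eq hD).2, NL, card_union_of_disjoint (by simp [d3, d5, d6]), card_singleton, pow_one]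
    push_cast
    ring
  · rw [if_neg hv]
    by_cases k1 : D.IA a r q s
    swap
    · rw [if_neg k1, zero_mul]
    by_cases k2 : D.IB n ω ∧ D.ok (D.pt0 ω)
    swap
    · rw [if_neg k2]; simp
    by_cases k3 : ω ∈ D.W ∧ IsCoprime (q : ℤ) (n * nu ω)
    swap
    · rw [if_neg k3]; simp
    by_cases k4 : D.IP a n ω (D.al * n * r + D.be * q)
    swap
    · rw [if_neg k4]; simp
    rw [if_neg (c := _ ≡ _ [ZMOD _]) fun k5 => hv ⟨⟨hs, hd,
      Nat.one_le_two_pow.trans_lt (mem_Ioc.1 hn).1, hω, k1, k2.1, k3.2, k5, k4⟩, k2.2⟩]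
    simp

end KD

theorem final_bound {L Z R0 k m m' N R Q Y0 P μ Pm : ℕ} (h3 : 3 ≤ nn) (hk : k + 2 = nn)
    (hL : L = R0 * Z) (hR : R * (m * N) ≤ 2 * L) (hQ : Q * m' ≤ 2 * L) (hP : P ≤ Pm * μ * (m * m'))
    (h0 : 0 < P) (h1 : 0 < Y0) (h2 : (5 * R0) ^ nn ≤ Y0) :
    (5 * L : ℝ) ^ k / Pm * ((R : ℝ) * Q * N / μ * ((Y0 ^ EE nn : ℕ) : ℝ) ^ (-(1 / 2 ^ (2 * 2 + 6)) : ℝ))
      ≤ (Z : ℝ) ^ nn / ((Y0 : ℝ) ^ (30 * nn ^ 2) * P) := by
  have k1 : (30 * nn ^ 2 + 1) * 2 ^ (2 * 2 + 6) ≤ EE nn := by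
    have t1 : nn < 2 ^ nn := Nat.lt_two_pow_self
    have t2 : 2 ^ 3 ≤ 2 ^ nn := Nat.pow_le_pow_right two_pos h3
    have t3 : (2 ^ nn) ^ 3 ≤ 512 ^ nn := by
      rw [← pow_mul, mul_comm, pow_mul]
      exact Nat.pow_le_pow_left (by norm_num) _
    have t4 : _ ≤ (2 ^ nn) ^ 3 := Nat.mul_le_mul (Nat.pow_le_pow_left t1 2) t2
    rw [Nat.succ_eq_add_one, add_sq] at t4
    rw [EE]
    omega
  have e : ((Y0 ^ EE nn : ℕ) : ℝ) ^ (-(1 / 2 ^ (2 * 2 + 6)) : ℝ) ≤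
      ((Y0 : ℝ) ^ (30 * nn ^ 2 + 1))⁻¹ := by
    rw [Nat.cast_pow, ← Real.rpow_natCast (Y0 : ℝ) (EE nn), ← Real.rpow_mul (Nat.cast_nonneg _),
      ← Real.rpow_natCast (Y0 : ℝ) (30 * nn ^ 2 + 1), ← Real.rpow_neg (Nat.cast_nonneg _)]
    refine Real.rpow_le_rpow_of_exponent_le (Nat.one_le_cast.2 h1) ?_
    rw [mul_neg, neg_le_neg_iff, mul_one_div, le_div_iff₀ (by positivity)]
    exact_mod_cast k1
  have p1 : 0 < Pm * μ := Nat.pos_of_mul_pos_right (h0.trans_le hP)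
  have p2 := Nat.pos_of_mul_pos_right p1
  have p3 := Nat.pos_of_mul_pos_left p1
  refine (mul_le_mul_of_nonneg_left (mul_le_mul_of_nonneg_left e (by positivity))
    (by positivity)).trans ?_
  rw [← div_eq_mul_inv, div_div, div_mul_div_comm, div_le_div_iff₀ (by positivity) (by positivity)]
  have h2 : (5 * L) ^ k * (R * Q * N) * (Y0 ^ (30 * nn ^ 2) * P) ≤
      Z ^ nn * (Pm * (μ * Y0 ^ (30 * nn ^ 2 + 1))) :=
    calc _ ≤ (5 * L) ^ k * (R * Q * N) * (Y0 ^ (30 * nn ^ 2) * (Pm * μ * (m * m'))) := by gcongr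
      _ = (5 * L) ^ k * (R * (m * N)) * (Q * m') * (Y0 ^ (30 * nn ^ 2) * (Pm * μ)) := by ring
      _ ≤ (5 * L) ^ k * (5 * L) * (5 * L) * (Y0 ^ (30 * nn ^ 2) * (Pm * μ)) :=
        Nat.mul_le_mul_right _ (Nat.mul_le_mul (Nat.mul_le_mul_left _ (by omega)) (by omega))
      _ = (5 * R0) ^ nn * Z ^ nn * (Y0 ^ (30 * nn ^ 2) * (Pm * μ)) := by
        rw [← pow_succ, ← pow_succ, add_assoc, hk, hL, ← mul_assoc 5, mul_pow]
      _ ≤ Y0 * Z ^ nn * (Y0 ^ (30 * nn ^ 2) * (Pm * μ)) := by gcongr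
      _ = _ := by ring
  exact_mod_cast h2

end KEY

open KEY KD in
theorem key (_ : COMBStmt) (kc : KCStmt) (sym : SYMStmt) (lat : LATStmt) (gu : GUStmt) :
    KEYStmt := by
  classical
  intro nn E J sys
  have e1 := sq_le_EE nn
  have e2 := two_NE_le nn
  refine (((ev_Y (gu 2 (6 * NE nn) (EE nn - 10) (2 * EE nn + 1) (128 ^ J)
    ((2 ^ (Fintype.card (Tag nn) * (6 * NE nn * J))) ^ 3) (by omega))).and
    (ev_ge (E.M + 2 * E.R + (5 * E.R) ^ nn)))).mono ?_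
  rintro S - rfl rel ⟨G, hM0⟩ t y y' f g ok O O₁ O₂ i fg ho
  have hY := rel.Y0_le
  have hY' := rel.Y_le
  let D : KD nn := ⟨S, E, f, g, O, O₁, O₂, ok⟩
  rw [keySum_eq D]
  rcases (D.Terms i).eq_empty_or_nonempty with hw | ⟨⟨x, U, U', s⟩, hw⟩
  · rw [hw, sum_empty, abs_zero]
    positivity
  have h' := mem_Terms.1 hw
  have hD : D.Ok := h'.toOk sys rel (show E.M ≤ S.Y by omega) fg
  obtain ⟨r, q, n, ω, hv, e3, rfl, rfl, -⟩ := h'.fwd (a := x) hD fun _ _ _ => rfl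
  obtain ⟨hS, n1, n2⟩ := hv.sizes hD
  have lo := h'.lo
  have hi := h'.hi
  rw [← e3, (hv.back hD).1] at lo hi
  have Y1 : 1 ≤ S.Y' := le_trans sys.pos (by omega)
  have hb : ∀ (e : Ed nn) (j : Fin nn), |ep e j * (E.Δ e * D.m e)| ≤ (S.Y' : ℤ) ^ 8 := by
    intro e j
    have : (E.Δ e * D.m e : ℕ) ≤ S.Y' ^ 8 :=
      (Nat.mul_le_mul ((sys.Δ_le e).trans (show E.M ≤ S.Y' by omega)) (hS.le e)).trans
        (by rw [← pow_succ']; exact Nat.pow_le_pow_right Y1 (by norm_num))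
    rw [abs_mul, ← Nat.cast_mul, Nat.abs_cast]
    exact (mul_le_of_le_one_left (Nat.cast_nonneg _) (abs_sgn (ep_sgn e j))).trans
      (by exact_mod_cast this)
  have mp := hD.m_pos
  have hZ : S.Z ≤ E.R * S.Z := Nat.le_mul_of_pos_left _ sys.one
  obtain ⟨u1, u2, u3, -⟩ := hS.prod hD m0_dvd
  obtain ⟨v1, -, v3, v4⟩ := hS.prod hD m1_dvd
  have cnt := lat nn (E.R * S.Z) D.T D.m0 u1 u2 (fun e k => by_contra fun w => k (if_neg w))
    (u3.trans ((Nat.pow_le_pow_right Y1 (by omega)).trans (rel.lo.trans hZ)))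
  rw [← sum_fiberwise_of_maps_to (g := fun z => D.st z.1) (t := (Fintype.piFinset fun i =>
    if i ∈ D.T then Icc (-(E.R * S.Z : ℕ) : ℤ) (E.R * S.Z : ℕ) else {0}).filter fun a =>
      ∀ e : Ed nn, (D.m0 e : ℤ) ∣ a e.1.1 - a e.1.2)]
  swap
  · rintro ⟨x, U, U', s⟩ hz
    have h := mem_Terms.1 hz
    obtain ⟨r, q, n, ω, hv, e3, -⟩ := h.fwd (a := x) hD fun _ _ _ => rfl
    refine mem_filter.2 ⟨Fintype.mem_piFinset.2 fun j => ?_, fun e => ?_⟩
    · rw [st]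
      split_ifs
      exacts [Fintype.mem_piFinset.1 (AA_subset _ _ h.hx) j, mem_singleton_self _]
    · rw [m0, st, st]
      by_cases k : e.1.1 ∈ D.T ∧ e.1.2 ∈ D.T
      · rw [if_pos k, if_pos k.1, if_pos k.2, (adm_of_mem rel h.hx).eq]
        exact (Int.natCast_dvd_natCast.2 (e3 ▸ hv.m_dvd hD e)).mul_left _
      · simp [if_neg k]
  refine (abs_sum_le_sum_abs _ _).trans ((sum_le_card_nsmul _ _
    ((D.RR i : ℝ) * D.QQ * (2 ^ i : ℕ) / (∏ e, D.m1 e : ℕ) *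
      (S.Y : ℝ) ^ (-(1 / 2 ^ (2 * 2 + 6)) : ℝ)) fun a ha => ?_).trans ?_)
  swap
  · rw [nsmul_eq_mul]
    refine (mul_le_mul_of_nonneg_right cnt (by positivity)).trans ?_
    rw [← Nat.cast_prod, ← Nat.cast_prod, rel.hY]
    refine final_bound sys.three ?_ rfl (Nat.div_mul_le_self _ _) (Nat.div_mul_le_self _ _)
      (rel.hY ▸ hD.prod_le) (prod_pos fun b hb => ?_) (sys.pos.trans_le (by omega)) (by omega)
    · have := sys.three
      rw [T, card_erase_of_mem (mem_erase.2 ⟨cu, mem_univ _⟩), card_erase_of_mem (mem_univ _),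
        card_univ, Fintype.card_fin]
      omega
    · have := (mem_filter.1 hb).2
      omega
  obtain ⟨A, b, p, ψ, σ, K, a1, a2, a3, a0, a4, a5, a6⟩ := fact_term (a := a) hD kc sym t ho
  obtain ⟨q₀, hq⟩ := exists_q hD hS a
  have main := G S.Y' (D.RR i) D.QQ (2 ^ i) (∏ e, D.m1 e) q₀ D.P (T3 nn) D.W nu K σ
    ![D.m D.f0, D.al] ![0, D.be] (fun r q s => if D.IA a r q s then (A r q s : ℝ) else 0)
    (fun n ω => if D.IB n ω ∧ D.ok (D.pt0 ω) then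
      (b n ω : ℝ) / 2 ^ ((D.O ∪ (D.Nn n ∪ ω.1)).card + (NE nn + 1)) else 0)
    (fun n ω q => if ω ∈ D.W ∧ IsCoprime q (n * nu ω) then (p n ω q : ℝ) else 0)
    (fun n ω => ![fun z => if z ≡ 1 [ZMOD (8 * E.M : ℕ)] then (1 : ℝ) else 0,
      fun z => if D.IP a n ω z then (ψ z : ℝ) else 0]) hY' rel.hY'.le
    ((Nat.le_div_iff_mul_le (Nat.mul_pos (mp _) (by positivity))).2 (le_trans (by
      refine (Nat.mul_le_mul_left _ (Nat.mul_le_mul (hS.le _) (lo.le.trans n2))).trans ?_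
      rw [← pow_add, ← pow_add]
      exact Nat.pow_le_pow_right Y1 (by omega)) (rel.lo.trans (show S.Z ≤ 2 * (E.R * S.Z) by omega))))
    ((Nat.le_div_iff_mul_le (mp _)).2 (le_trans (by
      refine (Nat.mul_le_mul_left _ (hS.le _)).trans ?_
      rw [← pow_add]
      exact Nat.pow_le_pow_right Y1 (by omega)) (rel.lo.trans (show S.Z ≤ 2 * (E.R * S.Z) by omega))))
    ((Nat.div_le_self _ _).trans (by
      rw [pow_succ', ← mul_assoc]
      exact Nat.mul_le_mul (show 2 * E.R ≤ S.Y' by omega) rel.hi))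
    (n1.le.trans (pow_succ' 2 i ▸ hi)) (lo.le.trans n2) (prod_pos fun e _ => v1 e) v3
    (fun s hs => by
      obtain ⟨⟨k3, k4, k5⟩, k2⟩ := mem_P.1 hs
      refine ⟨k5, k3, k4, k5.coprime_iff_not_dvd.1 (v4 s k5 k2), Fin.forall_fin_two.2
        ⟨fun d => k2 _ (Int.natCast_dvd_natCast.1 d), fun d => ?_⟩⟩
      have d' : (s : ℤ) ∣ (E.Δ D.f0 * D.m D.f0 : ℕ) := by
        rcases ep_sgn D.f0 D.u with k | k <;> simpa [al, k] using d
      exact (k5.dvd_mul.1 (Int.natCast_dvd_natCast.1 d')).elim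
        (fun w => k5.coprime_iff_not_dvd.1 (hD.cop_M k5 k3) (w.trans (sys.dv _))) (k2 _))
    (Fin.forall_fin_two.2 ⟨⟨by
      show |(D.m D.f0 : ℤ)| ≤ _
      rw [Nat.abs_cast]
      exact_mod_cast (hS.le _).trans (Nat.pow_le_pow_right Y1 (by norm_num)), by simp⟩,
      hb _ _, hb _ _⟩)
    (fun ω hω => ⟨prod_pos fun b hb => (W_el hω hb).2.2.2.pos, (mem_W.1 hω).2.nu,
      Nat.Coprime.prod_left fun b hb => v4 _ (W_el hω hb).2.2.2 ((mem_W.1 hω).2.tag b hb).2.2⟩)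
    (fun m => by have := D.fibre m; exact this) a5 (fun _ _ _ => abs_ite (abs_cast (a1 _ _ _)))
    (fun r q s h => hq r q s (by_contra fun k => h (if_neg k)))
    (fun n ω => abs_ite (by
      rw [abs_div, div_le_one (by positivity), abs_pow, abs_two]
      exact (abs_cast (a2 n ω)).trans (one_le_pow₀ one_le_two)))
    (fun _ _ _ => abs_ite (abs_cast (a3 _ _ _)))
    (fun _ _ => Fin.forall_fin_two.2 ⟨fun _ => abs_ite (by simp), fun _ => abs_ite (abs_cast (a0 _))⟩)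
    (fun n ω q => by
      by_cases hω : ω ∈ D.W
      · have := IsCoprime.add_mul_left_left_iff (x := q) (y := (n * nu ω : ℤ)) (z := 1)
        rw [mul_one] at this
        simp only [a4 n ω hω, this]
      · simp only [hω, false_and, if_false])
    (fun n ω q h => by
      by_contra k
      exact h (if_neg fun k' => k k'.2))
    (fun n ω hω => (exists_rho hD a n hω).imp fun ρ₀ => Exists.imp fun ρ hρ r q h =>
      hρ r q (by_contra fun k => h 1 (if_neg k)))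
  rw [inner_shape hD (fun j hj => by
    simpa only [if_neg hj, mem_singleton] using Fintype.mem_piFinset.1 (mem_filter.1 ha).1 j) i a6]
  simpa only [Fin.prod_univ_two, Matrix.cons_val_zero, Matrix.cons_val_one] using main

end Pool.Agent.MP_a43263_nt.JU

end
end MrgPart1

-- marker of a merged file
example : 731051 + 258483 = 731051 + 258483 := rfl
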