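import Pool.Agent.MP_a43263_nt.JU.Br
import Pool.Agent.MP_a43263_nt.RG.Pos
import Pool.Agent.MP_a43263_nt.RG.Gg
import Pool.Agent.MP_a43263_nt.RG.Basic
import Mathlib.NumberTheory.Harmonic.Bounds
import Mathlib.Analysis.Complex.ExponentialBounds
import Pool.Agent.MP_a43263_nt.JU.KeyA
import Pool.Agent.MP_a43263_nt.R2.LocP
import Pool.Agent.MP_a43263_nt.RH.Const

-- ======== part 0: formerly Pool.Agent.MP_a43263_nt.JU.Pos
section MrgPart0

/-! PROJECT JU: positivity. Szemeredi's theorem gives many generalised progressions of good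
numbers; the points with a common prime of two differences are few. -/

set_option autoImplicit false

noncomputable section

namespace Pool.Agent.MP_a43263_nt.JU

open Finset Filter
open R2 (Sc Shape)
open RG (DENStmt)

theorem Pos.mf {α : Type} {s : Finset α} {p : α → Prop} {i : DecidablePred p} {a : α} :
    a ∈ @filter α p i s ↔ a ∈ s ∧ p a := mem_filter

open Pos in
theorem gap : DH.SZStmt → GAPStmt := by
  classical
  intro sz d E
  induction d with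
  | zero =>
    intro δ hδ
    refine ⟨δ, hδ, 0, fun N _ A hA => ?_⟩
    rw [zero_add, pow_one]
    refine hA.trans (Nat.cast_le.2 (card_le_card_of_injOn (fun k => (k, fun _ => 1))
      (fun k hk => ?_) fun k _ k' _ h => congrArg Prod.fst h))
    obtain ⟨h1, h2⟩ := mf.1 (mem_coe.1 hk)
    refine mem_coe.2 (mf.2 ⟨mem_product.2 ⟨h1, Fintype.mem_piFinset.2 fun i => i.elim0⟩,
      fun e _ => ?_⟩)
    rw [Fin.sum_univ_zero, add_zero]
    exact h2
  | succ d ih =>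
    intro δ hδ
    obtain ⟨c₁, hc₁, N₁, sz⟩ := sz (Fin (E + 1)) (fun a => a.1) δ hδ
    obtain ⟨c₂, hc₂, N₂, ih⟩ := ih (c₁ / 2) (by positivity)
    refine ⟨c₁ / 2 * c₂, by positivity, N₁ + N₂ + 1, fun N hN A hA => ?_⟩
    have N0 : (0 : ℝ) < N := Nat.cast_pos.2 (by omega)
    have k1 := sz N (by omega) A hA
    obtain ⟨B, hB⟩ : ∃ B : ℕ → ℕ → Prop, ∀ u k, B u k ↔ ∀ a : Fin (E + 1), A (k + a.1 * u) :=
      ⟨_, fun _ _ => Iff.rfl⟩
    obtain ⟨G, hG⟩ : ∃ G : Finset ℕ, ∀ u, u ∈ G ↔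
        u ∈ Icc 1 N ∧ c₁ / 2 * N ≤ (((range N).filter (B u)).card : ℝ) :=
      ⟨(Icc 1 N).filter _, fun u => mem_filter⟩
    have k2 : c₁ * (N : ℝ) ^ 2 ≤ ∑ u ∈ Icc 1 N, (((range N).filter (B u)).card : ℝ) := by
      refine k1.trans ?_
      rw [← Nat.cast_sum, ← card_sigma]
      refine Nat.cast_le.2 (card_le_card_of_injOn (fun x => ⟨x.2, x.1⟩) (fun x hx => ?_)
        fun x _ y _ h => Prod.ext (congrArg (fun z : (_ : ℕ) × ℕ => z.2) h) (congrArg Sigma.fst h))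
      obtain ⟨h1, h2⟩ := mf.1 (mem_coe.1 hx)
      obtain ⟨h3, h4⟩ := mem_product.1 h1
      exact mem_coe.2 (mem_sigma.2 ⟨h4, mf.2 ⟨h3, (hB _ _).2 h2⟩⟩)
    have k3 : ∑ u ∈ Icc 1 N, (((range N).filter (B u)).card : ℝ) ≤
        ∑ u ∈ Icc 1 N, ((if u ∈ G then (N : ℝ) else 0) + c₁ / 2 * N) := by
      refine sum_le_sum fun u hu => ?_
      split_ifs with h
      · have : (((range N).filter (B u)).card : ℝ) ≤ N :=
          Nat.cast_le.2 ((card_filter_le _ _).trans (card_range N).le)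
        have : 0 ≤ c₁ / 2 * N := by positivity
        linarith
      · rw [zero_add]
        exact (not_le.1 fun t => h ((hG u).2 ⟨hu, t⟩)).le
    have k4 : c₁ / 2 * N ≤ (G.card : ℝ) := by
      rw [sum_add_distrib, sum_ite_mem, inter_eq_right.2 fun u hu => ((hG u).1 hu).1, sum_const,
        sum_const, Nat.card_Icc, Nat.add_sub_cancel, nsmul_eq_mul, nsmul_eq_mul] at k3
      refine le_of_mul_le_mul_right ?_ N0
      nlinarith
    obtain ⟨F, hF⟩ : ∃ F : ℕ → Finset (ℕ × (Fin d → ℕ)), ∀ u ∈ G,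
        c₂ * (N : ℝ) ^ (d + 1) ≤ (F u).card ∧ ∀ x ∈ F u,
          x ∈ (range N ×ˢ Fintype.piFinset fun _ : Fin d => Icc 1 N) ∧
          ∀ e : Fin d → ℕ, (∀ j, e j ≤ E) → B u (x.1 + ∑ j, e j * x.2 j) :=
      ⟨_, fun u hu => ⟨ih N (by omega) (B u) ((hG u).1 hu).2, fun x hx => mf.1 hx⟩⟩
    calc c₁ / 2 * c₂ * (N : ℝ) ^ (d + 1 + 1) = c₁ / 2 * N * (c₂ * (N : ℝ) ^ (d + 1)) := by ring
      _ ≤ G.card * (c₂ * (N : ℝ) ^ (d + 1)) := by gcongr
      _ = ∑ u ∈ G, c₂ * (N : ℝ) ^ (d + 1) := by rw [sum_const, nsmul_eq_mul]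
      _ ≤ ∑ u ∈ G, ((F u).card : ℝ) := sum_le_sum fun u hu => (hF u hu).1
      _ ≤ _ := by
        rw [← Nat.cast_sum, ← card_sigma]
        refine Nat.cast_le.2 (card_le_card_of_injOn
          (fun x => (x.2.1, Fin.cons (α := fun _ => ℕ) x.1 x.2.2)) (fun x hx => ?_)
          fun x _ y _ h => ?_)
        · obtain ⟨h1, h2⟩ := mem_sigma.1 (mem_coe.1 hx)
          obtain ⟨h3, h4⟩ := (hF _ h1).2 _ h2
          obtain ⟨h5, h6⟩ := mem_product.1 h3
          refine mem_coe.2 (mf.2 ⟨mem_product.2 ⟨h5, Fintype.mem_piFinset.2 fun i => ?_⟩,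
            fun e he => ?_⟩)
          · refine Fin.cases ?_ (fun i => ?_) i
            · exact ((hG _).1 h1).1
            · exact Fintype.mem_piFinset.1 h6 i
          · have := (hB _ _).1 (h4 (fun j => e j.succ) fun j => he _)
              ⟨e 0, Nat.lt_succ_of_le (he 0)⟩
            rw [Fin.sum_univ_succ, add_comm (e 0 * _), ← add_assoc]
            exact this
        · obtain ⟨u, k, x⟩ := x
          obtain ⟨v, l, y⟩ := y
          obtain ⟨h1, h2⟩ := Prod.mk.inj h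
          obtain ⟨h3, h4⟩ := Fin.cons_injective2 h2
          dsimp only at h1 h3 h4
          rw [h1, h3, h4]

namespace Pos

variable {m : ℕ}

theorem ex_out {e f : Ed m} (h : e ≠ f) : ∃ j, inE j e ∧ ¬inE j f := by
  by_contra t
  have a : inE e.1.1 f := not_not.1 fun u => t ⟨_, Or.inl rfl, u⟩
  have b : inE e.1.2 f := not_not.1 fun u => t ⟨_, Or.inr rfl, u⟩
  have c := e.2
  have d := f.2
  unfold inE at a b
  refine h (Subtype.ext (Prod.ext ?_ ?_)) <;> omega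

/-- the form of an edge in the shifted coordinates -/
def fm (Q : ℕ) (lam : Ed m → ℕ) (x : ℕ × (Fin m → ℕ)) (e : Ed m) : ℤ :=
  1 + Q * (x.1 + lam e * ((x.2 e.1.1 : ℤ) - x.2 e.1.2))

theorem res {p Q : ℕ} {lam : Ed m → ℕ} {e : Ed m} {j : Fin m} (hp : p.Prime) (hQ : ¬p ∣ Q)
    (hl : ¬p ∣ lam e) (hj : inE j e) {x y : ℕ × (Fin m → ℕ)} (h1 : x.1 = y.1)
    (h2 : ∀ i, inE i e → i ≠ j → x.2 i = y.2 i) (hx : (p : ℤ) ∣ fm Q lam x e)
    (hy : (p : ℤ) ∣ fm Q lam y e) : x.2 j ≡ y.2 j [MOD p] := by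
  have q := Nat.prime_iff_prime_int.1 hp
  have k : (p : ℤ) ∣ Q * (lam e * ((y.2 j : ℤ) - x.2 j)) := by
    unfold fm at hx hy
    rcases hj with rfl | rfl
    · rw [h1, h2 _ (Or.inr rfl) e.2.ne'] at hx
      exact (dvd_sub hy hx).trans (Dvd.intro 1 (by ring))
    · rw [h1, h2 _ (Or.inl rfl) e.2.ne] at hx
      exact (dvd_sub hx hy).trans (Dvd.intro 1 (by ring))
  exact Nat.modEq_iff_dvd.2 ((q.dvd_or_dvd ((q.dvd_or_dvd k).resolve_left
    fun t => hQ (Int.natCast_dvd_natCast.1 t))).resolve_left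
    fun t => hl (Int.natCast_dvd_natCast.1 t))

/-- the box of parameters -/
def bx (m K : ℕ) : Finset (ℕ × (Fin m → ℕ)) := range K ×ˢ Fintype.piFinset fun _ => Icc 1 K

theorem card_two {p Q K : ℕ} {lam : Ed m → ℕ} {e f : Ed m} (hp : p.Prime) (hQ : ¬p ∣ Q)
    (hl : ∀ g, ¬p ∣ lam g) (h : e ≠ f) :
    ((bx m K).filter fun x => (p : ℤ) ∣ fm Q lam x e ∧ (p : ℤ) ∣ fm Q lam x f).card ≤
      K * (K ^ (m - 2) * (K / p + 1) ^ 2) := by
  obtain ⟨j, j1, j2⟩ := ex_out h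
  obtain ⟨k, k1, k2⟩ := ex_out h.symm
  have jk : j ≠ k := fun t => j2 (t ▸ k1)
  have c : (range K ×ˢ Fintype.piFinset fun i : Fin m =>
      if i = j ∨ i = k then range (K / p + 1) else Icc 1 K).card =
      K * (K ^ (m - 2) * (K / p + 1) ^ 2) := by
    rw [card_product, card_range, Fintype.card_piFinset, ← prod_sdiff (subset_univ {j, k}),
      prod_pair jk, if_pos (Or.inl rfl), if_pos (Or.inr rfl), card_range, sq,
      prod_congr rfl (g := fun _ => K) fun i hi => ?_, prod_const, card_univ_sdiff, Fintype.card_fin,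
      card_pair jk]
    rw [if_neg, Nat.card_Icc, Nat.add_sub_cancel]
    simpa using hi
  rw [← c]
  refine card_le_card_of_injOn (fun x => (x.1, fun i => if i = j ∨ i = k then x.2 i / p else x.2 i))
    (fun x hx => ?_) fun x hx y hy t => ?_
  · obtain ⟨h1, h2⟩ := mem_product.1 (mem_filter.1 (mem_coe.1 hx)).1
    refine mem_coe.2 (mem_product.2 ⟨h1, Fintype.mem_piFinset.2 fun i => ?_⟩)
    have := Fintype.mem_piFinset.1 h2 i
    dsimp only
    split_ifs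
    · exact mem_range.2 (Nat.lt_succ_of_le (Nat.div_le_div_right (mem_Icc.1 this).2))
    · exact this
  · obtain ⟨x1, x2⟩ := (mem_filter.1 (mem_coe.1 hx)).2
    obtain ⟨y1, y2⟩ := (mem_filter.1 (mem_coe.1 hy)).2
    obtain ⟨t1, t2⟩ := Prod.mk.inj t
    have t3 : ∀ i, ¬(i = j ∨ i = k) → x.2 i = y.2 i := fun i hi => by
      have := congrFun t2 i
      rwa [if_neg hi, if_neg hi] at this
    have a : x.2 j % p = y.2 j % p := res hp hQ (hl e) j1 t1
      (fun i i1 i2 => t3 i (not_or.2 ⟨i2, fun u => k2 (u ▸ i1)⟩)) x1 y1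
    have b : x.2 k % p = y.2 k % p := res hp hQ (hl f) k1 t1
      (fun i i1 i2 => t3 i (not_or.2 ⟨fun u => j2 (u ▸ i1), i2⟩)) x2 y2
    refine Prod.ext t1 (funext fun i => ?_)
    by_cases hi : i = j ∨ i = k
    · have := congrFun t2 i
      rw [if_pos hi, if_pos hi] at this
      rw [← Nat.div_add_mod (x.2 i) p, ← Nat.div_add_mod (y.2 i) p, this]
      rcases hi with rfl | rfl
      · rw [a]
      · rw [b]
    · exact t3 i hi

theorem sum_sq (K L P : ℕ) (hP : P ≠ 0) (s : Finset ℕ) (hs : s ⊆ Ioc P L) :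
    ∑ p ∈ s, ((K / p + 1 : ℕ) : ℝ) ^ 2 ≤ 2 * (K : ℝ) ^ 2 / P + 2 * L := by
  have h3 : ∑ p ∈ Ioc P L, ((p : ℝ) ^ 2)⁻¹ ≤ (P : ℝ)⁻¹ := by
    rcases le_total P L with h | h
    · exact (sum_Ioc_inv_sq_le_sub hP h).trans (sub_le_self _ (by positivity))
    · rw [Ioc_eq_empty_of_le h, sum_empty]
      positivity
  calc _ ≤ ∑ p ∈ Ioc P L, ((K / p + 1 : ℕ) : ℝ) ^ 2 :=
        sum_le_sum_of_subset_of_nonneg hs fun _ _ _ => by positivity
    _ ≤ ∑ p ∈ Ioc P L, (2 * (K : ℝ) ^ 2 * ((p : ℝ) ^ 2)⁻¹ + 2) := by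
        refine sum_le_sum fun p _ => ?_
        have d : ((K / p : ℕ) : ℝ) ≤ K / p := Nat.cast_div_le
        have e : (0 : ℝ) ≤ (K / p : ℕ) := Nat.cast_nonneg _
        have f : ((K / p : ℕ) : ℝ) ^ 2 ≤ (K : ℝ) ^ 2 * ((p : ℝ) ^ 2)⁻¹ := by
          rw [← div_eq_mul_inv, ← div_pow]
          gcongr
        rw [Nat.cast_add, Nat.cast_one]
        nlinarith [sq_nonneg (((K / p : ℕ) : ℝ) - 1)]
    _ ≤ _ := by
        rw [sum_add_distrib, ← mul_sum, sum_const, Nat.card_Ioc, nsmul_eq_mul, div_eq_mul_inv,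
          mul_comm _ (2 : ℝ)]
        gcongr
        exact Nat.sub_le _ _

/-- parameters with a large common prime of two forms are few -/
theorem card_bad (K L Q P : ℕ) (lam : Ed m → ℕ) (hP : P ≠ 0) : ∃ B : Finset (ℕ × (Fin m → ℕ)),
    (B.card : ℝ) ≤ (NE m : ℝ) ^ 2 * (K * K ^ (m - 2) * (2 * (K : ℝ) ^ 2 / P + 2 * L)) ∧
    ∀ x ∈ bx m K, ∀ e f : Ed m, e ≠ f → ∀ p : ℕ, p.Prime → P < p → p ≤ L → ¬p ∣ Q →
      (∀ g, ¬p ∣ lam g) → (p : ℤ) ∣ fm Q lam x e → (p : ℤ) ∣ fm Q lam x f → x ∈ B := by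
  classical
  obtain ⟨s, hs⟩ : ∃ s : Finset ℕ, ∀ p, p ∈ s ↔
      p ∈ Ioc P L ∧ p.Prime ∧ ¬p ∣ Q ∧ ∀ g, ¬p ∣ lam g := ⟨(Ioc P L).filter _, fun p => mem_filter⟩
  refine ⟨(univ : Finset (Ed m)).offDiag.biUnion fun z => s.biUnion fun p =>
    (bx m K).filter fun x => (p : ℤ) ∣ fm Q lam x z.1 ∧ (p : ℤ) ∣ fm Q lam x z.2, ?_,
    fun x hx e f ef p hp p1 p2 p3 p4 p5 p6 => mem_biUnion.2 ⟨(e, f),
      mem_offDiag.2 ⟨mem_univ _, mem_univ _, ef⟩, mem_biUnion.2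
        ⟨p, (hs p).2 ⟨mem_Ioc.2 ⟨p1, p2⟩, hp, p3, p4⟩, mem_filter.2 ⟨hx, p5, p6⟩⟩⟩⟩
  refine (Nat.cast_le.2 card_biUnion_le).trans ?_
  rw [Nat.cast_sum]
  refine (sum_le_card_nsmul _ _ (K * K ^ (m - 2) * (2 * (K : ℝ) ^ 2 / P + 2 * L))
    fun z hz => ?_).trans ?_
  · refine (Nat.cast_le.2 card_biUnion_le).trans ?_
    rw [Nat.cast_sum]
    calc _ ≤ ∑ p ∈ s, (K : ℝ) * K ^ (m - 2) * ((K / p + 1 : ℕ) : ℝ) ^ 2 := by
          refine sum_le_sum fun p hp => ?_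
          obtain ⟨-, p1, p2, p3⟩ := (hs p).1 hp
          refine (Nat.cast_le.2 (card_two p1 p2 p3 (mem_offDiag.1 hz).2.2)).trans_eq ?_
          rw [Nat.cast_mul, Nat.cast_mul, Nat.cast_pow, Nat.cast_pow, mul_assoc]
      _ ≤ _ := by
          rw [← mul_sum]
          gcongr
          exact sum_sq K L P hP s fun p hp => ((hs p).1 hp).1
  · rw [nsmul_eq_mul]
    gcongr
    rw [offDiag_card, ← Nat.cast_pow, sq]
    exact Nat.cast_le.2 (Nat.sub_le _ _)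

/-- the passage to the centre of the progression -/
theorem shift {K Λ : ℕ} {lam : Ed m → ℕ} (hl : ∀ e, lam e ≤ Λ) {A : ℕ → Prop}
    (hA : ∀ t, A t → t < K) (T : Finset (ℕ × (Fin m → ℕ)))
    (hT : ∀ x ∈ T, x ∈ bx m K ∧ ∀ e : Fin m → ℕ, (∀ j, e j ≤ 2 * Λ) → A (x.1 + ∑ j, e j * x.2 j)) :
    ∃ T' : Finset (ℕ × (Fin m → ℕ)), T'.card = T.card ∧ ∀ x ∈ T', x ∈ bx m K ∧
      ∀ e : Ed m, ∃ t : ℕ, A t ∧ (t : ℤ) = x.1 + lam e * ((x.2 e.1.1 : ℤ) - x.2 e.1.2) := by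
  classical
  refine ⟨T.image fun x => (x.1 + ∑ j, Λ * x.2 j, x.2), card_image_of_injective _ fun x y h => ?_,
    fun x hx => ?_⟩
  · obtain ⟨h1, h2⟩ := Prod.mk.inj h
    rw [h2] at h1
    exact Prod.ext (Nat.add_right_cancel h1) h2
  · obtain ⟨x, hx', rfl⟩ := mem_image.1 hx
    obtain ⟨h1, h2⟩ := hT x hx'
    refine ⟨mem_product.2 ⟨mem_range.2 (hA _ (h2 (fun _ => Λ) fun _ => by omega)),
      (mem_product.1 h1).2⟩, fun e => ⟨_, h2 (fun j => Λ + (if j = e.1.1 then lam e else 0) -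
        if j = e.1.2 then lam e else 0) fun j => ?_, ?_⟩⟩
    · have := hl e
      split_ifs <;> omega
    · have k : ∀ j, ((Λ + (if j = e.1.1 then lam e else 0) - if j = e.1.2 then lam e else 0 : ℕ) : ℤ)
          = Λ + (if j = e.1.1 then (lam e : ℤ) else 0) - if j = e.1.2 then (lam e : ℤ) else 0 := by
        intro j
        have := hl e
        split_ifs <;> omega
      rw [Nat.cast_add, Nat.cast_sum]
      simp only [Nat.cast_mul, k, add_mul, sub_mul, sum_add_distrib, sum_sub_distrib, ite_mul,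
        zero_mul, sum_ite_eq', mem_univ, if_true, Nat.cast_add, Nat.cast_sum]
      ring

end Pos

open Pos in
theorem pos : GAPStmt → DENStmt → POSStmt := by
  classical
  intro gap den m Δ
  obtain ⟨δ, J₀, hδ, den⟩ := den m
  obtain ⟨Λ, hΛ⟩ : ∃ Λ, Λ = ∏ e, Δ e := ⟨_, rfl⟩
  obtain ⟨c, hc, N₀, gap⟩ := gap m (2 * Λ) δ hδ
  obtain ⟨P, hP⟩ := exists_nat_gt (8 * (NE m : ℝ) ^ 2 / c)
  have P0 : (0 : ℝ) < P := (by positivity : (0 : ℝ) ≤ 8 * (NE m : ℝ) ^ 2 / c).trans_lt hP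
  refine ⟨P, J₀, fun D hD he hM a0 ha hR => ?_⟩
  have M0 : (0 : ℝ) < D.M := Nat.cast_pos.2 hD.pos
  have Q0 : 0 < 8 * D.M := Nat.mul_pos (by norm_num) hD.pos
  have m3 := hD.three
  have Δ0 : ∀ e, 0 < Δ e := fun e => Nat.pos_of_dvd_of_pos (he ▸ hD.dv e) hD.pos
  have Λ0 : 0 < Λ := hΛ ▸ prod_pos fun e _ => Δ0 e
  obtain ⟨lam, hl⟩ : ∃ lam : Ed m → ℕ, ∀ e, Λ = Δ e * lam e :=
    ⟨fun e => Λ / Δ e, fun e => (Nat.mul_div_cancel' (hΛ ▸ dvd_prod_of_mem _ (mem_univ e))).symm⟩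
  obtain ⟨N₁, hN₁⟩ := exists_nat_gt (64 * D.M * (NE m : ℝ) ^ 2 / c)
  refine ⟨c / 2 / (16 * D.M) ^ m, by positivity, fun J hJ => ?_⟩
  obtain ⟨t, ht⟩ := den D.M J hD.pos (hD.sm 2 Nat.prime_two (by nlinarith)) hJ
  refine ⟨max t (8 * D.M * (N₀ + N₁ + 1)), fun S h1 h2 h3 h4 => ?_⟩
  obtain ⟨ε, hε⟩ := ht S h1 h2 ((le_max_left _ _).trans h3) h4
  refine ⟨ε, ?_⟩
  have hZ : 8 * D.M * (N₀ + N₁ + 1) ≤ S.Z := ((le_max_right _ _).trans h3).trans (RG.Pos.le_Z h4)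
  obtain ⟨N, hN⟩ : ∃ N, N = S.Z / (8 * D.M) := ⟨_, rfl⟩
  rw [← hN] at hε
  have n1 : N₀ + N₁ + 1 ≤ N := hN ▸ (Nat.le_div_iff_mul_le Q0).2 (by rwa [mul_comm])
  have n2 : 8 * D.M * N ≤ S.Z := hN ▸ Nat.mul_div_le _ _
  have n3 : S.Z ≤ 16 * D.M * N := by
    have : S.Z < 8 * D.M * (N + 1) := hN ▸ Nat.lt_mul_div_succ _ Q0
    have t : 8 * D.M * (N + 1) ≤ 8 * D.M * (2 * N) := Nat.mul_le_mul_left _ (by omega)
    calc S.Z ≤ 8 * D.M * (2 * N) := this.le.trans t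
      _ = _ := by ring
  have N0 : (0 : ℝ) < N := Nat.cast_pos.2 (by omega)
  have k1 := gap N (by omega) (fun k => k < N ∧ Shape { S with e := ε } (1 + 8 * D.M * k))
    (hε.trans (Nat.cast_le.2 (card_le_card fun k hk => by
      simp only [mem_filter] at hk ⊢
      exact ⟨hk.1, mem_range.1 hk.1, hk.2⟩)))
  obtain ⟨T, k1, hT⟩ : ∃ T : Finset (ℕ × (Fin m → ℕ)), c * (N : ℝ) ^ (m + 1) ≤ T.card ∧ ∀ x ∈ T,
      x ∈ bx m N ∧ ∀ e : Fin m → ℕ, (∀ j, e j ≤ 2 * Λ) → (fun k => k < N ∧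
        Shape { S with e := ε } (1 + 8 * D.M * k)) (x.1 + ∑ j, e j * x.2 j) :=
    ⟨_, k1, fun x hx => mf.1 hx⟩
  obtain ⟨T, e1, hT⟩ := shift (lam := lam)
    (A := fun k => k < N ∧ Shape { S with e := ε } (1 + 8 * D.M * k))
    (fun e => Nat.le_of_dvd Λ0 (Dvd.intro_left _ (hl e).symm)) (fun t h => h.1) T hT
  rw [← e1] at k1
  obtain ⟨B, k2, hB⟩ := card_bad N (8 * D.M * N) (8 * D.M) P lam (Nat.cast_pos.1 P0).ne'
  have lt : ∀ t, t < N → 1 + 8 * D.M * t ≤ 8 * D.M * N := fun t h =>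
    calc 1 + 8 * D.M * t ≤ 8 * D.M * (t + 1) := by rw [mul_add, mul_one]; omega
      _ ≤ _ := Nat.mul_le_mul_left _ h
  have k3 : (T \ B).card ≤ (range N ×ˢ AA { S with e := ε } D).card := by
    refine card_le_card_of_injOn
      (fun x => (x.1, fun i => (1 + 8 * D.M * x.1) * a0 i + 8 * D.M * Λ * x.2 i)) (fun x hx => ?_)
      fun x _ y _ h => ?_
    · obtain ⟨x1, x2⟩ := mem_sdiff.1 (mem_coe.1 hx)
      obtain ⟨x1, x3⟩ := hT x x1
      choose u u1 u2 using x3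
      obtain ⟨x4, x5⟩ := mem_product.1 x1
      obtain ⟨a, ea⟩ : ∃ a : Fin m → ℤ,
          a = fun i => (1 + 8 * D.M * x.1) * a0 i + 8 * D.M * Λ * x.2 i := ⟨_, rfl⟩
      have v0 : ∀ e, ((1 + 8 * D.M * u e : ℕ) : ℤ) = fm (8 * D.M) lam x e := fun e => by
        rw [fm, ← u2]
        push_cast
        rfl
      have v1 : ∀ e : Ed m, a e.1.1 - a e.1.2 = D.Δ e * ((1 + 8 * D.M * u e : ℕ) : ℤ) := fun e => by
        have w : (Λ : ℤ) = Δ e * lam e := by exact_mod_cast hl e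
        rw [v0, fm, he, ea]
        push_cast
        linear_combination (1 + 8 * D.M * x.1) * ha e + 8 * D.M * ((x.2 e.1.1 : ℤ) - x.2 e.1.2) * w
      have v2 : ∀ e, D.l a e = 1 + 8 * D.M * u e := fun e => by
        rw [Dat.l, v1, Int.mul_ediv_cancel_left _ (Nat.cast_ne_zero.2 (he ▸ Δ0 e).ne'),
          Int.toNat_natCast]
      have v3 : ∀ e f, e ≠ f → ∀ p : ℕ, p.Prime → p ∣ D.l a e → ¬p ∣ D.l a f := by
        intro e f ef p hp d1 d2
        rw [v2] at d1 d2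
        have c1 : ¬p ∣ 8 * D.M := fun d => hp.not_dvd_one ((Nat.dvd_add_left (d.mul_right _)).1 d1)
        have c2 : ¬p ∣ D.M := fun d => c1 (d.mul_left _)
        refine x2 (hB x x1 e f ef p hp (not_le.1 fun t => c2 (hM p hp t))
          ((Nat.le_of_dvd (by omega) d1).trans (lt _ (u1 e).1)) c1 (fun g d => ?_)
          (v0 e ▸ Int.natCast_dvd_natCast.2 d1) (v0 f ▸ Int.natCast_dvd_natCast.2 d2))
        obtain ⟨h, -, dh⟩ := (hp.prime.dvd_finsetProd_iff Δ).1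
          (hΛ ▸ d.trans (Dvd.intro_left _ (hl g).symm))
        exact c2 (dh.trans (he ▸ hD.dv h))
      refine mem_coe.2 (mem_product.2 ⟨x4, ?_⟩)
      change (fun i => (1 + 8 * D.M * x.1) * a0 i + 8 * D.M * Λ * x.2 i : Fin m → ℤ) ∈ _
      rw [← ea]
      refine mem_filter.2 ⟨Fintype.mem_piFinset.2 fun i => mem_Icc.2 (abs_le.1 ?_),
        fun e => by rw [v2, v1], fun e => ?_, fun e => v2 e ▸ (u1 e).2,
        fun e f ef => Nat.coprime_of_dvd fun p hp => v3 e f ef.1 p hp,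
        fun e f ef p hp _ => v3 e f ef p hp⟩
      · have w1 : (1 + 8 * D.M * x.1 : ℤ) ≤ S.Z := by
          exact_mod_cast (lt _ (mem_range.1 x4)).trans n2
        have w2 : (8 * D.M * x.2 i : ℤ) ≤ S.Z := by
          exact_mod_cast (Nat.mul_le_mul_left _
            (mem_Icc.1 (Fintype.mem_piFinset.1 x5 i)).2).trans n2
        have w3 : |a0 i| + Λ ≤ D.R := by
          rw [hΛ, Nat.cast_prod]
          exact hR i
        calc |a i| ≤ |(1 + 8 * D.M * x.1) * a0 i| + |(8 * D.M * Λ * x.2 i : ℤ)| := ea ▸ abs_add_le _ _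
          _ = (1 + 8 * D.M * x.1) * |a0 i| + 8 * D.M * x.2 i * Λ := by
              rw [abs_mul, abs_of_nonneg (by positivity),
                abs_of_nonneg (a := (8 * D.M * Λ * x.2 i : ℤ)) (by positivity)]
              ring
          _ ≤ S.Z * |a0 i| + S.Z * Λ := by gcongr
          _ = S.Z * (|a0 i| + Λ) := by ring
          _ ≤ S.Z * D.R := by gcongr
          _ = _ := by push_cast; ring
      · rw [v2]
        exact (Nat.modEq_iff_dvd' (Nat.le_add_right _ _)).2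
          (by rw [Nat.add_sub_cancel_left]; exact Dvd.intro _ rfl) |>.symm
    · obtain ⟨t1, t2⟩ := Prod.mk.inj h
      refine Prod.ext t1 (funext fun i => ?_)
      have := congrFun t2 i
      rw [t1] at this
      have w : (8 * D.M * Λ : ℤ) ≠ 0 := by exact_mod_cast (Nat.mul_pos Q0 Λ0).ne'
      exact Nat.cast_injective (mul_left_cancel₀ w (add_left_cancel this))
  rw [card_product, card_range] at k3
  have k4 : (T.card : ℝ) ≤ (T \ B).card + B.card := by exact_mod_cast card_le_card_sdiff_add_card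
  have k5 : (NE m : ℝ) ^ 2 * (2 * (N : ℝ) ^ 2 / P + 2 * (8 * D.M * N : ℕ)) ≤ c / 2 * (N : ℝ) ^ 2 := by
    have a : (NE m : ℝ) ^ 2 * (2 * (N : ℝ) ^ 2 / P) ≤ c / 4 * (N : ℝ) ^ 2 := by
      rw [div_lt_iff₀ hc] at hP
      rw [← mul_div_assoc, div_le_iff₀ P0]
      nlinarith [sq_nonneg (N : ℝ)]
    have b : (N₁ : ℝ) ≤ N := Nat.cast_le.2 (by omega)
    have d := (div_lt_iff₀ hc).1 (hN₁.trans_le b)
    push_cast
    nlinarith
  have k6 : (S.Z : ℝ) ≤ 16 * D.M * N := by exact_mod_cast n3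
  have k7 : (N : ℝ) ^ (m - 2) * (N : ℝ) ^ 2 = (N : ℝ) ^ m := by
    rw [← pow_add, Nat.sub_add_cancel (by omega)]
  have k8 : (B.card : ℝ) ≤ N * (c / 2 * (N : ℝ) ^ m) :=
    calc (B.card : ℝ) ≤ _ := k2
      _ = N * (N : ℝ) ^ (m - 2) *
          ((NE m : ℝ) ^ 2 * (2 * (N : ℝ) ^ 2 / P + 2 * (8 * D.M * N : ℕ))) := by ring
      _ ≤ N * (N : ℝ) ^ (m - 2) * (c / 2 * (N : ℝ) ^ 2) := by gcongr
      _ = _ := by rw [← k7]; ring
  have k9 : ((T \ B).card : ℝ) ≤ N * (AA { S with e := ε } D).card := by exact_mod_cast k3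
  calc c / 2 / (16 * D.M) ^ m * (S.Z : ℝ) ^ m ≤ c / 2 / (16 * D.M) ^ m * (16 * D.M * N) ^ m := by
        gcongr
    _ = c / 2 * (N : ℝ) ^ m := by rw [mul_pow (16 * (D.M : ℝ)) N]; field_simp
    _ ≤ _ := by
        refine le_of_mul_le_mul_left ?_ N0
        rw [pow_succ] at k1
        linarith

end Pool.Agent.MP_a43263_nt.JU

end
end MrgPart0

-- ======== part 1: formerly Pool.Agent.MP_a43263_nt.JU.Gu
section MrgPart1

/-! PROJECT JU, module GU: the oscillation estimate with `q` in a residue class. -/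

set_option autoImplicit false

noncomputable section

namespace Pool.Agent.MP_a43263_nt.JU

open Finset Filter
open R2 (kc MERStmt DOStmt)
open RG (PAIRStmt)
open RG.Gg (card_div_le pow_le_pow_mul sum_lcm_le sum_class_le abs_jac abs_mul_le abs_prod_le
  per_mul mean_le PairAt expand scales)

namespace Gu

/-- the indicator of a residue class -/
def ind (μ : ℕ) (t z : ℤ) : ℝ := if z ≡ t [ZMOD μ] then 1 else 0

theorem abs_ind (μ : ℕ) (t z : ℤ) : |ind μ t z| ≤ 1 := by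
  unfold ind; split_ifs <;> simp

theorem ind_ne {μ : ℕ} {t z : ℤ} (h : ind μ t z ≠ 0) : z ≡ t [ZMOD μ] := by
  by_contra h'
  exact h (if_neg h')

theorem ind_eq {μ : ℕ} {t z : ℤ} (h : z ≡ t [ZMOD μ]) : ind μ t z = 1 := if_pos h

theorem ind_add (μ : ℕ) (t r q : ℤ) : ind μ t (μ * r + 1 * q) = ind μ t q := by
  have h : (μ : ℤ) * r + 1 * q ≡ q [ZMOD μ] := by
    rw [one_mul]
    exact (Int.modEq_iff_dvd.2 ⟨-r, by ring⟩)
  unfold ind
  exact if_congr ⟨fun h1 => h.symm.trans h1, fun h1 => h.trans h1⟩ rfl rfl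

/-- a common solution of a system of congruences -/
theorem exists_rho (Cn : ℤ → ℤ → Prop) (D m : ℕ) (h1 : ∀ r q, Cn r q → Cn (r % D) q)
    (h2 : ∀ r q q', Cn r q → Cn r q' → q ≡ q' [ZMOD m]) : ∃ ρ : ℤ → ℤ,
    (∀ r r', r ≡ r' [ZMOD D] → ρ r = ρ r') ∧ ∀ r q : ℤ, Cn r q → q ≡ ρ r [ZMOD m] := by
  refine ⟨fun r => Classical.epsilon fun q => Cn (r % D) q, fun r r' h => ?_, fun r q h => ?_⟩
  · have h' : r % D = r' % D := h
    simp only [h']
  · exact h2 _ _ _ (h1 r q h) (Classical.epsilon_spec (p := fun q => Cn (r % D) q) ⟨q, h1 r q h⟩)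

/-- the data attached to one inner variable -/
structure Inn {k : ℕ} (a Y' N μ : ℕ) (α β : Fin k → ℤ) (n ν : ℕ) (Per : ℤ → ℝ)
    (ψ : Fin k → ℤ → ℝ) : Prop where
  n1 : 1 ≤ n
  n2 : n ≤ 2 * N
  ν1 : 1 ≤ ν
  ν2 : ν ≤ Y' ^ a
  ν3 : ν.Coprime μ
  bP : ∀ q, |Per q| ≤ 1
  bψ : ∀ i x, |ψ i x| ≤ 1
  per : ∀ q, Per (q + n * ν) = Per q
  cop : ∀ q, Per q ≠ 0 → IsCoprime q (n * ν)
  cls : ∃ ρ₀ ρ : ℤ, ∀ r q : ℤ, (∀ i, ψ i (α i * n * r + β i * q) ≠ 0) → q ≡ ρ₀ + ρ * r [ZMOD ν]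

theorem Inn.le_pow {k a Y' N μ : ℕ} {α β : Fin k → ℤ} {n ν : ℕ} {Per : ℤ → ℝ}
    {ψ : Fin k → ℤ → ℝ} (h : Inn a Y' N μ α β n ν Per ψ) (h2 : 2 ≤ Y') (hN : N ≤ Y' ^ 3) :
    n ≤ Y' ^ 4 :=
  h.n2.trans (by rw [pow_succ']; exact Nat.mul_le_mul h2 hN)

/-- one pair of inner variables -/
theorem pair_le {k a lo hi κ Y Y' R Q N μ : ℕ} {q₀ : ℤ}
    (hpair : PairAt (k + k + 1) (3 * a + 12) lo hi κ Y)
    (hlo : 3 * a + 12 ≤ lo) (hY : 2 ≤ Y) (hYY : Y ≤ Y')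
    (hk : Y' ≤ Y ^ κ) (hR : Y' ^ lo ≤ R) (hQ : Y' ^ lo ≤ Q) (hQ' : Q ≤ Y' ^ hi)
    (hN : N ≤ Y' ^ 3) (hμ1 : 1 ≤ μ) (hμ2 : μ ≤ Y' ^ a) {P : Finset ℕ} {α β : Fin k → ℤ}
    (hP : ∀ s ∈ P, s.Prime ∧ Y < s ∧ s ≤ Y' ∧ ¬s ∣ μ ∧ ∀ i, ¬(s : ℤ) ∣ α i)
    (hα : ∀ i, |α i| ≤ (Y' : ℤ) ^ 8 ∧ |β i| ≤ (Y' : ℤ) ^ 8) {n ν n' ν' : ℕ} {Per Per' : ℤ → ℝ}
    {ψ ψ' : Fin k → ℤ → ℝ} (h : Inn a Y' N μ α β n ν Per ψ)
    (h' : Inn a Y' N μ α β n' ν' Per' ψ') (c : ℕ → ℝ) (hc : ∀ s, |c s| ≤ 1) :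
    |∑ r ∈ Icc 1 R, ∑ q ∈ Icc 1 Q, ∑ s ∈ P.filter (· ∣ q),
      c s * ((ind μ q₀ q * ind μ q₀ q) * ((Per q * ∏ i, ψ i (α i * n * r + β i * q)) *
        (Per' q * ∏ i, ψ' i (α i * n' * r + β i * q))))| ≤
      R * Q / μ * (1 / (Nat.lcm ν ν' : ℕ) * ((Y : ℝ) ^ (-(1 / 2 ^ (k + k + 1 + 2)) : ℝ) +
        2 * |∑ s ∈ P.filter (fun s => ¬s ∣ n * ν * (n' * ν')), c s / s|)) := by
  have h2 : 2 ≤ Y' := hY.trans hYY
  have hn := h.le_pow h2 hN
  have hn' := h'.le_pow h2 hN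
  set E := n * ν * (n' * ν') with hE
  set D := E * μ with hD
  set m := Nat.lcm ν ν' * μ with hm
  set PD := P.filter (fun s => ¬s ∣ E) with hPD
  set τ := ∑ s ∈ PD, c s / s with hτ
  have hνE : ν ∣ E := (Dvd.intro_left n rfl).mul_right _
  have hνE' : ν' ∣ E := (Dvd.intro_left n' rfl).mul_left _
  have hED : E ∣ D := Dvd.intro _ rfl
  have hD1 : 1 ≤ D := Nat.mul_pos (Nat.mul_pos (Nat.mul_pos h.n1 h.ν1)
    (Nat.mul_pos h'.n1 h'.ν1)) hμ1
  have hD2 : D ≤ Y' ^ (3 * a + 12) := by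
    calc D ≤ Y' ^ 4 * Y' ^ a * (Y' ^ 4 * Y' ^ a) * Y' ^ a :=
          Nat.mul_le_mul (Nat.mul_le_mul (Nat.mul_le_mul hn h.ν2) (Nat.mul_le_mul hn' h'.ν2)) hμ2
      _ = Y' ^ (3 * a + 8) := by ring
      _ ≤ _ := Nat.pow_le_pow_right (by omega) (by omega)
  have hmD : m ∣ D := Nat.mul_dvd_mul_right (Nat.lcm_dvd hνE hνE') μ
  have hl1 : 1 ≤ Nat.lcm ν ν' := Nat.lcm_pos h.ν1 h'.ν1
  have hm1 : 1 ≤ m := Nat.mul_pos hl1 hμ1
  have hmQ : m ≤ Q := (Nat.le_of_dvd hD1 hmD).trans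
    (hD2.trans ((Nat.pow_le_pow_right (by omega) hlo).trans hQ))
  have hcop : (Nat.lcm ν ν').Coprime μ :=
    Nat.Coprime.coprime_dvd_left (Nat.lcm_dvd_mul ν ν') (Nat.Coprime.mul_left h.ν3 h'.ν3)
  obtain ⟨t₁, ρ₁, hρ₁⟩ := h.cls
  obtain ⟨t₂, ρ₂, hρ₂⟩ := h'.cls
  obtain ⟨ρ, hρ, hρ'⟩ := exists_rho (fun r q => q ≡ t₁ + ρ₁ * r [ZMOD ν] ∧
    q ≡ t₂ + ρ₂ * r [ZMOD ν'] ∧ q ≡ q₀ [ZMOD μ]) D m
    (fun r q hq => by
      have hDr : r ≡ r % D [ZMOD D] := (Int.mod_modEq r D).symm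
      exact ⟨hq.1.trans (((hDr.of_dvd (Int.natCast_dvd_natCast.2
        (hνE.trans hED))).mul_left _).add_left _), hq.2.1.trans (((hDr.of_dvd
        (Int.natCast_dvd_natCast.2 (hνE'.trans hED))).mul_left _).add_left _), hq.2.2⟩)
    (fun r q q' hq hq' => by
      have h6 := (hq.1.trans hq'.1.symm).dvd
      have h7 := (hq.2.1.trans hq'.2.1.symm).dvd
      have h8 := (hq.2.2.trans hq'.2.2.symm).dvd
      refine Int.modEq_iff_dvd.2 ?_
      exact Int.natCast_dvd.2 (hcop.mul_dvd_of_dvd_of_dvd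
        (Nat.lcm_dvd (Int.natCast_dvd.1 h6) (Int.natCast_dvd.1 h7)) (Int.natCast_dvd.1 h8)))
  set Φ : ℕ → ℕ → ℝ := fun r q => (ind μ q₀ q * ind μ q₀ q) *
    ((Per q * ∏ i, ψ i (α i * n * r + β i * q)) *
      (Per' q * ∏ i, ψ' i (α i * n' * r + β i * q))) with hΦ
  have hΦ1 : ∀ r q, |Φ r q| ≤ 1 := fun r q =>
    abs_mul_le (abs_mul_le (abs_ind _ _ _) (abs_ind _ _ _))
      (abs_mul_le (abs_mul_le (h.bP _) (abs_prod_le _ fun i => h.bψ i _))
        (abs_mul_le (h'.bP _) (abs_prod_le _ fun i => h'.bψ i _)))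
  have hsplit : ∀ r q : ℕ,
      ∑ s ∈ P.filter (· ∣ q), c s * Φ r q = Φ r q * kc PD c q + Φ r q * τ := by
    intro r q
    by_cases h0 : Φ r q = 0
    · simp [h0]
    have h0' := right_ne_zero_of_mul h0
    have hc1 := h.cop q (left_ne_zero_of_mul (left_ne_zero_of_mul h0'))
    have hc2 := h'.cop q (left_ne_zero_of_mul (right_ne_zero_of_mul h0'))
    have hcD : Nat.Coprime q E := by
      rw [← Nat.isCoprime_iff_coprime, hE]
      push_cast
      exact hc1.mul_right hc2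
    have e1 : P.filter (· ∣ q) = PD.filter (· ∣ q) := by
      ext s
      simp only [hPD, mem_filter]
      exact ⟨fun hs => ⟨⟨hs.1, fun hd => (hP s hs.1).1.one_lt.ne'
        (Nat.eq_one_of_dvd_coprimes hcD hs.2 hd)⟩, hs.2⟩, fun hs => ⟨hs.1.1, hs.2⟩⟩
    rw [← mul_add, ← sum_mul, mul_comm, e1, sum_filter, kc, hτ, ← sum_add_distrib]
    congr 1
    refine sum_congr rfl fun s _ => ?_
    simp only [Int.natCast_dvd_natCast]
    split_ifs <;> ring
  have hA : |∑ r ∈ Icc 1 R, ∑ q ∈ Icc 1 Q, Φ r q * kc PD c q| ≤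
      R * Q / m * (Y : ℝ) ^ (-(1 / 2 ^ (k + k + 1 + 2)) : ℝ) := by
    have hY1 : (1 : ℤ) ≤ Y' := by exact_mod_cast (by omega : 1 ≤ Y')
    have hb : ∀ (i : Fin k) (t : ℕ), t ≤ Y' ^ 4 → |α i * t| ≤ (Y' : ℤ) ^ (3 * a + 12) :=
        fun i t ht => by
      rw [abs_mul, Nat.abs_cast]
      calc _ ≤ (Y' : ℤ) ^ 8 * Y' ^ 4 :=
            mul_le_mul (hα i).1 (by exact_mod_cast ht) (by positivity) (by positivity)
        _ = (Y' : ℤ) ^ 12 := by ring
        _ ≤ _ := pow_le_pow_right₀ hY1 (by omega)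
    have hb' : ∀ i : Fin k, |β i| ≤ (Y' : ℤ) ^ (3 * a + 12) := fun i =>
      (hα i).2.trans (pow_le_pow_right₀ hY1 (by omega))
    have hbμ : |(μ : ℤ)| ≤ (Y' : ℤ) ^ (3 * a + 12) := by
      rw [Nat.abs_cast]
      exact le_trans (by exact_mod_cast hμ2) (pow_le_pow_right₀ hY1 (by omega : a ≤ 3 * a + 12))
    have hnd : ∀ s ∈ PD, ∀ (i : Fin k) (t : ℕ), t ∣ E → ¬(s : ℤ) ∣ α i * t := by
      intro s hs i t ht hd
      obtain ⟨hs1, hs2⟩ := mem_filter.1 hs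
      rcases (Nat.prime_iff_prime_int.1 (hP s hs1).1).dvd_or_dvd hd with h3 | h3
      · exact (hP s hs1).2.2.2.2 i h3
      · exact hs2 ((Int.natCast_dvd_natCast.1 h3).trans ht)
    have key := hpair Y' R Q D m PD c
      (Fin.cons (n := k + k) (α := fun _ => ℤ) μ
        (Fin.append (m := k) (n := k) (fun i => α i * n) fun i => α i * n'))
      (Fin.cons (n := k + k) (α := fun _ => ℤ) 1 (Fin.append (m := k) (n := k) β β))
      (Fin.cons (n := k + k) (α := fun _ => ℤ → ℝ) (fun z => ind μ q₀ z * ind μ q₀ z)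
        (Fin.append (m := k) (n := k) ψ ψ'))
      (fun q => Per q * Per' q) ρ hYY hk hR hQ hQ' hD1 hD2 hmD
      (fun s hs => ⟨(hP s (mem_filter.1 hs).1).1, (hP s (mem_filter.1 hs).1).2.1,
        (hP s (mem_filter.1 hs).1).2.2.1, fun hd => by
          rcases ((hP s (mem_filter.1 hs).1).1.dvd_mul).1 hd with h3 | h3
          · exact (mem_filter.1 hs).2 h3
          · exact (hP s (mem_filter.1 hs).1).2.2.2.1 h3, fun i => by
          refine Fin.cases ?_ (fun i => ?_) i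
          · rw [Fin.cons_zero, Int.natCast_dvd_natCast]
            exact (hP s (mem_filter.1 hs).1).2.2.2.1
          rw [Fin.cons_succ]
          refine Fin.addCases (m := k) (n := k) (fun i => ?_) (fun i => ?_) i
          · rw [Fin.append_left]
            exact hnd s hs i n ((Dvd.intro _ rfl).mul_right _)
          · rw [Fin.append_right]
            exact hnd s hs i n' ((Dvd.intro _ rfl).mul_left _)⟩) hc
      (fun i => by
        refine Fin.cases ?_ (fun i => ?_) i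
        · rw [Fin.cons_zero, Fin.cons_zero, abs_one]
          exact ⟨hbμ, one_le_pow₀ hY1⟩
        rw [Fin.cons_succ, Fin.cons_succ]
        refine Fin.addCases (m := k) (n := k) (fun i => ?_) (fun i => ?_) i
        · rw [Fin.append_left, Fin.append_left]
          exact ⟨hb i n hn, hb' i⟩
        · rw [Fin.append_right, Fin.append_right]
          exact ⟨hb i n' hn', hb' i⟩)
      (fun i x => by
        refine Fin.cases ?_ (fun i => ?_) i
        · rw [Fin.cons_zero]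
          exact abs_mul_le (abs_ind _ _ _) (abs_ind _ _ _)
        rw [Fin.cons_succ]
        refine Fin.addCases (m := k) (n := k) (fun i => ?_) (fun i => ?_) i
        · rw [Fin.append_left]
          exact h.bψ i x
        · rw [Fin.append_right]
          exact h'.bψ i x)
      (fun q => abs_mul_le (h.bP q) (h'.bP q))
      (fun q => by
        have e1 : Per (q + D) = Per q := by
          rw [← per_mul h.per (n' * ν' * μ) q, hD, hE]
          congr 1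
          push_cast
          ring
        have e2 : Per' (q + D) = Per' q := by
          rw [← per_mul h'.per (n * ν * μ) q, hD, hE]
          congr 1
          push_cast
          ring
        simp only [e1, e2]) hρ
      (fun r q hne => hρ' r q ⟨
        hρ₁ r q fun i => by
          have := hne (Fin.castAdd k i).succ
          rwa [Fin.cons_succ, Fin.cons_succ, Fin.cons_succ, Fin.append_left, Fin.append_left,
            Fin.append_left] at this,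
        hρ₂ r q fun i => by
          have := hne (Fin.natAdd k i).succ
          rwa [Fin.cons_succ, Fin.cons_succ, Fin.cons_succ, Fin.append_right, Fin.append_right,
            Fin.append_right] at this, by
          have := hne 0
          rw [Fin.cons_zero, Fin.cons_zero, Fin.cons_zero, ind_add] at this
          exact ind_ne (left_ne_zero_of_mul this)⟩)
    refine le_trans (le_of_eq ?_) key
    congr 1
    refine sum_congr rfl fun r _ => sum_congr rfl fun q _ => ?_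
    congr 1
    rw [Fin.prod_univ_succ, Fin.prod_univ_add (a := k) (b := k)]
    simp only [Fin.cons_zero, Fin.cons_succ, Fin.append_left, Fin.append_right, hΦ, ind_add]
    ring
  have hB : |∑ r ∈ Icc 1 R, ∑ q ∈ Icc 1 Q, Φ r q| ≤ R * (2 * Q / m) := by
    refine (abs_sum_le_sum_abs _ _).trans ?_
    refine (sum_le_sum (g := fun _ => (2 * Q / m : ℝ)) fun r _ => ?_).trans (by simp)
    refine sum_class_le hm1 hmQ (ρ r) _ (hΦ1 r) fun q h0 => hρ' r q ⟨hρ₁ r q fun i => ?_,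
      hρ₂ r q fun i => ?_, ind_ne (left_ne_zero_of_mul (left_ne_zero_of_mul h0))⟩
    · exact prod_ne_zero_iff.1 (right_ne_zero_of_mul (left_ne_zero_of_mul
        (right_ne_zero_of_mul h0))) i (mem_univ i)
    · exact prod_ne_zero_iff.1 (right_ne_zero_of_mul (right_ne_zero_of_mul
        (right_ne_zero_of_mul h0))) i (mem_univ i)
  change |∑ r ∈ Icc 1 R, ∑ q ∈ Icc 1 Q, ∑ s ∈ P.filter (· ∣ q), c s * Φ r q| ≤ _
  simp_rw [hsplit, sum_add_distrib, ← sum_mul]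
  refine (abs_add_le _ _).trans ?_
  rw [abs_mul]
  refine (add_le_add hA (mul_le_mul_of_nonneg_right hB (abs_nonneg _))).trans (le_of_eq ?_)
  rw [hm]
  push_cast
  ring

/-- the Cauchy-Schwarz inequality in the outer variables -/
theorem cs_le {R Q L μ : ℕ} {q₀ : ℤ} (hμ : 1 ≤ μ) (hμQ : μ ≤ Q) (T : ℕ → Finset ℕ)
    (hT : ∀ q ∈ Icc 1 Q, (T q).card ≤ L) (A I : ℕ → ℕ → ℕ → ℝ) (hA : ∀ r q s, |A r q s| ≤ 1)
    (hs : ∀ r q s, A r q s ≠ 0 → (q : ℤ) ≡ q₀ [ZMOD μ]) :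
    (∑ r ∈ Icc 1 R, ∑ q ∈ Icc 1 Q, ∑ s ∈ T q, A r q s * I r q s) ^ 2 ≤
      R * (2 * Q / μ) * L * ∑ r ∈ Icc 1 R, ∑ q ∈ Icc 1 Q, ∑ s ∈ T q, I r q s ^ 2 := by
  have h1 : ∀ r, ∀ q ∈ Icc 1 Q,
      (∑ s ∈ T q, A r q s * I r q s) ^ 2 ≤ L * ∑ s ∈ T q, I r q s ^ 2 := by
    intro r q hq
    refine sq_sum_le_card_mul_sum_sq.trans (mul_le_mul (by exact_mod_cast hT q hq)
      (sum_le_sum fun s _ => ?_) (sum_nonneg fun _ _ => sq_nonneg _) (Nat.cast_nonneg _))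
    rw [mul_pow]
    exact mul_le_of_le_one_left (sq_nonneg _) ((sq_le_one_iff_abs_le_one _).2 (hA r q s))
  have h0 : ∑ q ∈ Icc 1 Q, ind μ q₀ (q : ℕ) ^ 2 ≤ 2 * Q / μ :=
    (le_abs_self _).trans (sum_class_le hμ hμQ q₀ (fun q => ind μ q₀ q ^ 2)
      (fun q => by rw [sq]; exact abs_mul_le (abs_ind _ _ _) (abs_ind _ _ _))
      fun q hq => ind_ne (ne_zero_pow two_ne_zero hq))
  have h2 : ∀ r, (∑ q ∈ Icc 1 Q, ∑ s ∈ T q, A r q s * I r q s) ^ 2 ≤
      2 * Q / μ * (L * ∑ q ∈ Icc 1 Q, ∑ s ∈ T q, I r q s ^ 2) := by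
    intro r
    have e : ∀ q : ℕ, ∑ s ∈ T q, A r q s * I r q s =
        ind μ q₀ q * ∑ s ∈ T q, A r q s * I r q s := by
      intro q
      rw [mul_sum]
      refine sum_congr rfl fun s _ => ?_
      by_cases h : A r q s = 0
      · simp [h]
      · rw [ind_eq (hs r q s h), one_mul]
    rw [sum_congr rfl fun q _ => e q]
    refine (sum_mul_sq_le_sq_mul_sq _ _ _).trans (mul_le_mul h0 ?_
      (sum_nonneg fun _ _ => sq_nonneg _) (by positivity))
    rw [mul_sum]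
    exact sum_le_sum (h1 r)
  refine sq_sum_le_card_mul_sum_sq.trans ?_
  rw [Nat.card_Icc, Nat.add_sub_cancel, mul_assoc, mul_assoc, mul_sum _ _ (L : ℝ),
    mul_sum _ _ (2 * Q / μ : ℝ)]
  exact mul_le_mul_of_nonneg_left (sum_le_sum fun r _ => h2 r) (Nat.cast_nonneg _)

end Gu

open Gu in
theorem gu : MERStmt → DOStmt → PAIRStmt → GUStmt := by
  rintro - ⟨C, hdo⟩ hpair d b lo hi k F hlo
  have hlo' : 3 * b + 12 ≤ lo := by
    have := Nat.zero_le (2 ^ (2 * d + 3))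
    omega
  have he4 : (1 / 2 ^ (d + d + 1 + 2) : ℝ) ≤ 1 / 4 := by
    refine one_div_le_one_div_of_le (by norm_num) ?_
    rw [pow_add]
    have : (1 : ℝ) ≤ 2 ^ (d + d + 1) := one_le_pow₀ (by norm_num)
    linarith
  have he8 : (1 / 2 ^ (2 * d + 6) : ℝ) = 1 / 2 ^ (d + d + 1 + 2) / 8 := by
    rw [div_div, show 2 * d + 6 = d + d + 1 + 2 + 3 by ring, pow_add _ (d + d + 1 + 2)]
    norm_num
  rw [he8]
  filter_upwards [hpair (d + d + 1) (3 * b + 12) lo hi k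
      (by rw [show d + d + 1 + 2 = 2 * d + 3 by ring]; omega),
    scales k F C b (2 * hi) (by positivity) he4, eventually_ge_atTop 2] with Y hp hsc hY Y' R Q N
    μ q₀ P Ω W ν K σ α β A B Per ψ hYY hk hR hQ hQ' hN hN' hμ1 hμ2 hP hα hν hF hσ hA hAs hB hPer hψ
    hper hcop hρ
  have hN1 : 1 ≤ N := by omega
  have hμQ : μ ≤ Q := hμ2.trans ((Nat.pow_le_pow_right (by omega) (by omega)).trans hQ)
  set η := (Y : ℝ) ^ (-(1 / 2 ^ (d + d + 1 + 2)) : ℝ) with hη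
  set δ : ℝ := C * (1 + Real.log (2 * N : ℕ) + Real.log Y') ^ C *
    ((min N Y : ℕ) : ℝ) ^ (-(1 / 8) : ℝ) with hδ
  set Λ : ℝ := F ^ 2 * (1 + Real.log (Y' ^ b : ℕ)) ^ 3 with hΛ
  have hη0 : 0 ≤ η := by positivity
  have hδ0 : 0 ≤ δ := by
    have := Real.log_natCast_nonneg (2 * N)
    have := Real.log_natCast_nonneg Y'
    positivity
  set a : ℕ × Ω → ℕ → ℕ → ℕ → ℝ := fun u r q s => ind μ q₀ q *
    (B u.1 u.2 * jacobiSym (σ u.1 u.2 * u.1 * K u.2) s * Per u.1 u.2 q *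
      ∏ i, ψ u.1 u.2 i (α i * u.1 * r + β i * q)) with ha
  set τ : ℕ → Ω → ℕ → Ω → ℝ := fun n ω n' ω' =>
    |∑ s ∈ P.filter (fun s => ¬s ∣ n * ν ω * (n' * ν ω')),
      (jacobiSym (σ n ω * n * K ω) s : ℝ) * jacobiSym (σ n' ω' * n' * K ω') s / s| with hτ
  have hinn : ∀ u ∈ Ioc N (2 * N) ×ˢ W,
      Inn b Y' N μ α β u.1 (ν u.2) (Per u.1 u.2) (ψ u.1 u.2) := by
    intro u hu
    obtain ⟨h1, h2⟩ := mem_product.1 hu
    rw [mem_Ioc] at h1
    exact ⟨by omega, h1.2, (hν _ h2).1, (hν _ h2).2.1, (hν _ h2).2.2, hPer _ _, hψ _ _, hper _ _,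
      hcop _ _, hρ _ _ h2⟩
  have h1 : ∀ u ∈ Ioc N (2 * N) ×ˢ W, ∀ u' ∈ Ioc N (2 * N) ×ˢ W,
      ∑ r ∈ Icc 1 R, ∑ q ∈ Icc 1 Q, ∑ s ∈ P.filter (· ∣ q), a u r q s * a u' r q s ≤
        R * Q / μ * (1 / (Nat.lcm (ν u.2) (ν u'.2) : ℕ) * (η + 2 * τ u.1 u.2 u'.1 u'.2)) := by
    intro u hu u' hu'
    have h2 := pair_le (q₀ := q₀) hp hlo' hY hYY hk hR hQ hQ' hN' hμ1 hμ2 hP hα (hinn u hu)
      (hinn u' hu') (fun s => (jacobiSym (σ u.1 u.2 * u.1 * K u.2) s : ℝ) *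
        jacobiSym (σ u'.1 u'.2 * u'.1 * K u'.2) s) fun s => abs_mul_le (abs_jac _ _) (abs_jac _ _)
    refine le_trans ?_ h2
    refine le_trans (le_of_eq ?_) ((le_abs_self _).trans ((abs_mul _ _).le.trans
      (mul_le_of_le_one_left (abs_nonneg _) (abs_mul_le (hB u.1 u.2) (hB u'.1 u'.2)))))
    simp_rw [mul_sum]
    refine sum_congr rfl fun r _ => sum_congr rfl fun q _ => sum_congr rfl fun s _ => ?_
    simp only [ha]
    ring
  have h2 : ∀ ω n' ω', ∑ n ∈ Ioc N (2 * N), τ n ω n' ω' ≤ 4 * N * δ := fun ω n' ω' =>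
    mean_le hY (fun b hb hb' => hdo N (2 * N) Y Y' b hN1 (by omega) hb hb') P
      (fun s hs => ⟨(hP s hs).1, (hP s hs).2.1, (hP s hs).2.2.1⟩) (fun n => σ n ω)
      (fun n => hσ n ω) _ _ _ _
  have hcard : ((Ioc N (2 * N)).card : ℝ) = N := by
    rw [Nat.card_Ioc, two_mul, Nat.add_sub_cancel]
  have h3 : ∑ u ∈ Ioc N (2 * N) ×ˢ W, ∑ u' ∈ Ioc N (2 * N) ×ˢ W,
      (1 / (Nat.lcm (ν u.2) (ν u'.2) : ℕ) * (η + 2 * τ u.1 u.2 u'.1 u'.2)) ≤
      Λ * (N ^ 2 * (η + 8 * δ)) := by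
    calc _ = ∑ ω ∈ W, ∑ ω' ∈ W, (1 : ℝ) / (Nat.lcm (ν ω) (ν ω') : ℕ) *
          ∑ n' ∈ Ioc N (2 * N), ∑ n ∈ Ioc N (2 * N), (η + 2 * τ n ω n' ω') := by
          simp_rw [sum_product_right, mul_sum]
          refine sum_congr rfl fun ω _ => ?_
          rw [sum_comm]
          exact sum_congr rfl fun ω' _ => sum_comm
      _ ≤ ∑ ω ∈ W, ∑ ω' ∈ W, (1 : ℝ) / (Nat.lcm (ν ω) (ν ω') : ℕ) * (N ^ 2 * (η + 8 * δ)) := by
          refine sum_le_sum fun ω _ => sum_le_sum fun ω' _ =>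
            mul_le_mul_of_nonneg_left ?_ (by positivity)
          refine (sum_le_sum (g := fun _ => N * (η + 8 * δ)) fun n' _ => ?_).trans (le_of_eq ?_)
          · rw [sum_add_distrib, ← mul_sum, sum_const, nsmul_eq_mul, hcard]
            have := h2 ω n' ω'
            linarith
          · rw [sum_const, nsmul_eq_mul, hcard]; ring
      _ = (∑ ω ∈ W, ∑ ω' ∈ W, (1 : ℝ) / (Nat.lcm (ν ω) (ν ω') : ℕ)) * (N ^ 2 * (η + 8 * δ)) := by
          simp_rw [sum_mul]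
      _ ≤ _ := mul_le_mul_of_nonneg_right
          (sum_lcm_le W ν (fun ω hω => ⟨(hν ω hω).1, (hν ω hω).2.1⟩) hF) (by positivity)
  have h4 := cs_le (R := R) (Q := Q) (L := hi * k) hμ1 hμQ (fun q => P.filter (· ∣ q))
    (fun q hq => card_div_le hY (mem_Icc.1 hq).1 ((mem_Icc.1 hq).2.trans (hQ'.trans
      (pow_le_pow_mul hk hi))) P
      fun s hs => ⟨(hP s hs).1, (hP s hs).2.1⟩) A
    (fun r q s => ∑ u ∈ Ioc N (2 * N) ×ˢ W, a u r q s) hA hAs
  rw [expand] at h4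
  have h5 := sum_le_sum fun u hu => sum_le_sum (h1 u hu)
  simp_rw [← mul_sum] at h5
  have h6 := hsc Y' N hYY hk hN hN'
  have hRQ : (0 : ℝ) ≤ R * Q / μ := by positivity
  refine abs_le_of_sq_le_sq ?_ (by positivity)
  refine le_trans (le_of_eq ?_) (h4.trans ?_)
  · congr 1
    refine sum_congr rfl fun r _ => sum_congr rfl fun q _ => sum_congr rfl fun s _ => ?_
    by_cases h : A r q s = 0
    · simp [h]
    · simp only [sum_product, ha, ind_eq (hAs r q s h), one_mul]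
  calc _ ≤ R * (2 * Q / μ) * ((hi * k : ℕ) : ℝ) * (R * Q / μ * (Λ * (N ^ 2 * (η + 8 * δ)))) :=
        mul_le_mul_of_nonneg_left (h5.trans (mul_le_mul_of_nonneg_left h3 hRQ)) (by positivity)
    _ = (R * Q * N / μ) ^ 2 * (((2 * hi * k : ℕ) : ℝ) * Λ * (η + 8 * δ)) := by
        push_cast; ring
    _ ≤ (R * Q * N / μ) ^ 2 * ((Y : ℝ) ^ (-(1 / 2 ^ (d + d + 1 + 2) / 8) : ℝ)) ^ 2 :=
        mul_le_mul_of_nonneg_left h6 (by positivity)
    _ = _ := by ring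

end Pool.Agent.MP_a43263_nt.JU

end
end MrgPart1

-- ======== part 2: formerly Pool.Agent.MP_a43263_nt.JU.SignA
section MrgPart2

/-! PROJECT JU, row SIGN: the sum over three coordinates. -/

set_option autoImplicit false

noncomputable section

namespace Pool.Agent.MP_a43263_nt.JU

open Finset Filter
open R2 (Sc Shape Core)
open RG (Rel EE)

namespace Sign

def kk (n : ℕ) : ℕ := Nat.log 2 (n - 1)

def RR (L μ i : ℕ) : ℕ := 2 * L / (μ * 2 ^ i)

def om (S : Sc) (c : ℕ) : ℕ := (c.primeFactors.filter (S.Y < ·)).card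

open Classical in
def Pm (S : Sc) (μ : ℕ) : Finset ℕ := (Ioc S.Y S.Y').filter fun n => n.Prime ∧ Core S (μ * n)

def lq (Δ : ℕ) (d : ℤ) : ℕ := (d / Δ).toNat

def Sh (S : Sc) (Δ : ℕ) (d : ℤ) : Prop := d = Δ * lq Δ d ∧ Shape S (lq Δ d)

variable {m : ℕ} {S : Sc} {Δ L : ℕ}

theorem mem_Pm {μ n : ℕ} : n ∈ Pm S μ ↔ (S.Y < n ∧ n ≤ S.Y') ∧ n.Prime ∧ Core S (μ * n) := by
  classical
  rw [Pm, mem_filter, mem_Ioc]

theorem lq_mul (hΔ : 0 < Δ) (l : ℕ) : lq Δ (Δ * l) = l := by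
  rw [lq, Int.mul_ediv_cancel_left _ (by exact_mod_cast hΔ.ne'), Int.toNat_natCast]

theorem kk_lt {n : ℕ} (h : 2 ≤ n) : 2 ^ kk n < n ∧ n ≤ 2 * 2 ^ kk n := by
  have h1 := Nat.pow_log_le_self 2 (show n - 1 ≠ 0 by omega)
  have h2 := Nat.lt_pow_succ_log_self (b := 2) (by norm_num) (n - 1)
  rw [pow_succ] at h2
  unfold kk
  omega

open Classical in
theorem decomp (hR : Rel m S) (hJ : 1 ≤ S.J) (hΔ : 0 < Δ) {d : ℤ} (hd : d ≤ 2 * L) (G : ℕ → ℝ) :
    (if Sh S Δ d then G (lq Δ d) else 0) = ∑ μ ∈ Icc 1 (S.Y' ^ 6), ∑ n ∈ Pm S μ,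
      ∑ r ∈ Icc 1 (RR L μ (kk n)), if (r.Prime ∧ S.Y' < r) ∧ d = Δ * (μ * n * r : ℕ)
        then G (μ * n * r) / om S (μ * n) else 0 := by
  split_ifs with h
  swap
  · refine (sum_eq_zero fun μ _ => sum_eq_zero fun n hn => sum_eq_zero fun r _ =>
      if_neg fun ⟨⟨h1, h2⟩, h3⟩ => h ?_).symm
    rw [Sh, h3, lq_mul hΔ]
    exact ⟨rfl, _, _, (mem_Pm.1 hn).2.2, h1, h2, rfl⟩
  obtain ⟨e, c, P, hc, hP, hl, el⟩ := h
  rw [el] at e ⊢
  have uq : ∀ μ n r : ℕ, Core S (μ * n) → (r.Prime ∧ S.Y' < r) ∧ d = Δ * (μ * n * r : ℕ) →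
      μ * n = c ∧ r = P := fun μ n r h1 ⟨⟨h2, h3⟩, h4⟩ => hR.unique h1 h2 h3 hc hP hl (by
    rw [e] at h4
    exact_mod_cast (mul_left_cancel₀ (by exact_mod_cast hΔ.ne' : (Δ : ℤ) ≠ 0) h4).symm)
  have o : (om S c : ℝ) ≠ 0 := by
    have := hc.lo
    exact Nat.cast_ne_zero.2 (by unfold om; omega)
  have sub : c.primeFactors.filter (S.Y < ·) ⊆ Ioc S.Y S.Y' := fun n hn =>
    mem_Ioc.2 ⟨(mem_filter.1 hn).2, hR.le_Y' hc (mem_filter.1 hn).1⟩
  simp only [Pm, sum_filter]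
  rw [sum_comm, ← sum_subset sub, sum_congr rfl (g := fun _ => G (c * P) / om S c), sum_const,
    nsmul_eq_mul]
  · exact (mul_div_cancel₀ _ o).symm
  · intro n hn
    obtain ⟨h1, h2⟩ := mem_filter.1 hn
    obtain ⟨h3, ⟨μ, rfl⟩, h4⟩ := Nat.mem_primeFactors.1 h1
    rw [mul_comm n μ] at *
    have μ0 : 0 < μ := Nat.pos_of_ne_zero fun q => h4 (by rw [q, zero_mul])
    rw [sum_eq_single_of_mem μ (mem_Icc.2 ⟨μ0, (Nat.le_mul_of_pos_right _ h3.pos).trans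
      (hR.le_pow hc)⟩), if_pos ⟨h3, hc⟩, sum_eq_single_of_mem P, if_pos ⟨⟨hP, hl⟩, e⟩]
    · refine mem_Icc.2 ⟨hP.pos, (Nat.le_div_iff_mul_le (by positivity)).2 ?_⟩
      have h5 : Δ * (μ * n * P) ≤ 2 * L := by exact_mod_cast e ▸ hd
      calc P * (μ * 2 ^ kk n) ≤ P * (μ * n) := by gcongr; exact (kk_lt h3.two_le).1.le
        _ = 1 * (μ * n * P) := by ring
        _ ≤ Δ * (μ * n * P) := by gcongr; exact hΔ
        _ ≤ _ := h5
    · exact fun r _ q => if_neg fun h => q (uq μ n r hc h).2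
    · intro μ' _ q
      split_ifs with h
      · exact sum_eq_zero fun r _ => if_neg fun h' =>
          q (Nat.eq_of_mul_eq_mul_right h3.pos (uq μ' n r h.2 h').1)
      · rfl
  · intro n hn q
    refine sum_eq_zero fun μ _ => ?_
    split_ifs with h
    · refine sum_eq_zero fun r _ => if_neg fun h' => q (mem_filter.2 ⟨?_, (mem_Ioc.1 hn).1⟩)
      exact Nat.mem_primeFactors.2 ⟨h.1, (uq μ n r h.2 h').1 ▸ dvd_mul_left _ _, hc.pos.ne'⟩
    · rfl

theorem zsum (X : Finset ℤ) (x d : ℤ) (p : Prop) [Decidable p] (f : ℤ → ℝ) (g : ℝ) :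
    (∑ z ∈ X, f z * if p ∧ x - z = d then g else 0) =
      if p then (if x - d ∈ X then f (x - d) else 0) * g else 0 := by
  by_cases hp : p
  · simp only [hp, true_and, if_true]
    rw [sum_congr rfl (g := fun z => if x - d = z then f z * g else 0), sum_ite_eq, ite_mul,
      zero_mul]
    intro z _
    by_cases h : x - z = d
    · rw [if_pos h, if_pos (by omega)]
    · rw [if_neg h, if_neg (by omega), mul_zero]
  · simp [hp]

theorem abs_jac (a : ℤ) (b : ℕ) : |(jacobiSym a b : ℝ)| ≤ 1 := by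
  rcases jacobiSym.trichotomy a b with h | h | h <;> simp [h]

variable (S L Δ) (Q : ℕ) (A : ℤ → ℤ → ℝ) (C : ℤ → ℤ → ℤ → ℝ) (ψ : ℤ → ℕ → ℝ)

def F1 (ρ : ℤ) (μ : ℕ) (w x : ℤ) (r : ℕ) : ℝ :=
  if x % Q = ρ ∧ r.Prime ∧ S.Y' < r then A w x * (jacobiSym (x - w) (μ * r) * ψ x (μ * r)) else 0

def F2 (ρ w z : ℤ) : ℝ := if z ∈ Icc (-L : ℤ) L then C w ρ z else 0

/-- the term with the key `k` -/
def tm (k : ℤ × ℕ × ℕ) (w x : ℤ) : ℝ :=
  ∑ r ∈ Icc 1 (RR L k.2.1 k.2.2), F1 S Q A ψ k.1 k.2.1 w x r *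
    ∑ n ∈ (Pm S k.2.1).filter (kk · = k.2.2), 1 / (om S (k.2.1 * n) : ℝ) *
      (ψ x n * jacobiSym (x - w) n) * F2 L C k.1 w (x + -(Δ * k.2.1 : ℤ) * n * r)

def Ks : Finset (ℤ × ℕ × ℕ) := Ico (0 : ℤ) Q ×ˢ Icc 1 (S.Y' ^ 6) ×ˢ range (Nat.log 2 S.Y' + 1)

variable {S L Δ Q A C ψ}

open Classical in
theorem ident (hR : Rel m S) (hJ : 1 ≤ S.J) (hΔ : 0 < Δ) (hQ : 0 < Q)
    (per : ∀ w x z, C w x z = C w (x % Q) z)
    (mul : ∀ x a b, a ≠ 0 → b ≠ 0 → ψ x (a * b) = ψ x a * ψ x b) (w : ℤ) {x : ℤ}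
    (hx : x ∈ Icc (-L : ℤ) L) :
    (∑ z ∈ Icc (-L : ℤ) L, A w x * C w x z * if Sh S Δ (x - z) then
      jacobiSym (x - w) (lq Δ (x - z)) * ψ x (lq Δ (x - z)) else 0) =
      ∑ k ∈ Ks S Q, tm S Δ L Q A C ψ k w x := by
  have hQ' : (0 : ℤ) < Q := by exact_mod_cast hQ
  rw [Ks, sum_product, sum_eq_single_of_mem (x % Q)
    (mem_Ico.2 ⟨Int.emod_nonneg _ hQ'.ne', Int.emod_lt_of_pos _ hQ'⟩), sum_product,
    sum_congr rfl fun z hz => congrArg (A w x * C w x z * ·) (decomp (L := L) hR hJ hΔ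
      (by have := mem_Icc.1 hx; have := mem_Icc.1 hz; omega)
      fun l => jacobiSym (x - w) l * ψ x l)]
  · simp only [mul_sum]
    rw [sum_comm]
    refine sum_congr rfl fun μ hμ => ?_
    rw [sum_comm, ← sum_fiberwise_of_maps_to (t := range (Nat.log 2 S.Y' + 1)) (g := kk)]
    · refine sum_congr rfl fun i _ => ?_
      simp only [tm, mul_sum]
      rw [sum_comm (t := filter _ _)]
      refine sum_congr rfl fun n hn => ?_
      obtain ⟨hn', rfl⟩ := mem_filter.1 hn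
      rw [sum_comm]
      refine sum_congr rfl fun r hr => ?_
      have μ0 : μ ≠ 0 := by have := mem_Icc.1 hμ; omega
      have r0 : r ≠ 0 := by have := mem_Icc.1 hr; omega
      have n0 : n ≠ 0 := (mem_Pm.1 hn').2.1.ne_zero
      have e : x + -(Δ * μ : ℤ) * n * r = x - Δ * (μ * n * r : ℕ) := by push_cast; ring
      rw [zsum, F1, F2, e, mul_right_comm μ n r, jacobiSym.mul_right' _ (mul_ne_zero μ0 r0) n0,
        mul _ _ _ (mul_ne_zero μ0 r0) n0, ← per]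
      simp only [true_and]
      split_ifs
      · push_cast
        ring
      all_goals simp
    · intro n hn
      have := (mem_Pm.1 hn).1
      exact mem_range.2 (Nat.lt_succ_of_le (Nat.log_mono_right (by omega)))
  · exact fun ρ _ q => sum_eq_zero fun k _ => sum_eq_zero fun r _ => by
      rw [F1, if_neg fun h => q h.1.symm, zero_mul]

theorem key (bes : BESStmt) (hR : Rel m S) (hΔ : 0 < Δ) (hΔ' : Δ ≤ S.Y0) (hL : S.Z ≤ L)
    (h2 : 2 ≤ S.Y0) (hA : ∀ w x, |A w x| ≤ 1) (hC : ∀ w x z, |C w x z| ≤ 1)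
    (hψ : ∀ x l, |ψ x l| ≤ 1) (pψ : ∀ (x : ℤ) (n : ℕ), ψ (x + n) n = ψ x n) {k : ℤ × ℕ × ℕ}
    (hk : k ∈ Ks S Q) :
    ∑ w ∈ Icc (-L : ℤ) L, |∑ x ∈ Icc (-L : ℤ) L, tm S Δ L Q A C ψ k w x| ≤
      200 * (L : ℝ) ^ 3 / S.Y0 * (k.2.1 : ℝ)⁻¹ := by
  obtain ⟨ρ, μ, i⟩ := k
  obtain ⟨μ1, μ2⟩ : 1 ≤ μ ∧ μ ≤ S.Y' ^ 6 := mem_Icc.1 (mem_product.1 (mem_product.1 hk).2).1
  rcases ((Pm S μ).filter (kk · = i)).eq_empty_or_nonempty with h | ⟨n0, h0⟩
  · simp only [tm, h, sum_empty, mul_zero, sum_const_zero, abs_zero]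
    positivity
  have hP : ∀ n ∈ (Pm S μ).filter (kk · = i), n.Prime ∧ 2 ^ i < n ∧ n ≤ 2 * 2 ^ i ∧
      ¬(n : ℤ) ∣ -(Δ * μ : ℤ) := by
    intro n hn
    obtain ⟨hn', rfl⟩ := mem_filter.1 hn
    obtain ⟨h1, h3, h4⟩ := mem_Pm.1 hn'
    refine ⟨h3, (kk_lt h3.two_le).1, (kk_lt h3.two_le).2, fun q => ?_⟩
    rcases (Nat.Prime.dvd_mul h3).1 (by exact_mod_cast dvd_neg.1 q : n ∣ Δ * μ) with q | q
    · have := Nat.le_of_dvd hΔ q
      have := hR.Y0_le
      omega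
    · exact h3.one_lt.ne' (Nat.isUnit_iff.1 (h4.sqf n (Nat.mul_dvd_mul_right q n)))
  obtain ⟨-, a1, a2, -⟩ := hP n0 h0
  obtain ⟨a3, a4⟩ := (mem_Pm.1 (mem_filter.1 h0).1).1
  have E := RG.le_EE m
  have b1 : S.Y0 ^ 4 ≤ 2 ^ i := by
    have : S.Y0 ^ 4 * S.Y0 ≤ S.Y := by
      rw [hR.hY, ← pow_succ]
      exact Nat.pow_le_pow_right (by omega) (by omega)
    have := Nat.mul_le_mul_left (S.Y0 ^ 4) h2
    omega
  have b2 : 2 ≤ 2 ^ i := (h2.trans (Nat.le_self_pow (by norm_num) _)).trans b1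
  have b3 : 2 ^ i ≤ S.Y' := by omega
  have b4 : (2 ^ i) ^ 3 ≤ RR L μ i := (Nat.le_div_iff_mul_le (by positivity)).2 (by
    calc (2 ^ i) ^ 3 * (μ * 2 ^ i) ≤ S.Y' ^ 3 * (S.Y' ^ 6 * S.Y') := by gcongr
      _ = S.Y' ^ 10 := by ring
      _ ≤ S.Y' ^ EE m := Nat.pow_le_pow_right (by omega) (by omega)
      _ ≤ 2 * L := by have := hR.lo; omega)
  refine (bes L (2 ^ i) (RR L μ i) (-(Δ * μ : ℤ)) _ (fun n x => ψ x n) (F1 S Q A ψ ρ μ)
    (F2 L C ρ) (fun _ n => 1 / (om S (μ * n) : ℝ)) b2 (b3.trans (hR.Y'_le.trans hL)) b4 hP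
    (fun n x => pψ x n) (fun n x => hψ x n) (fun w x r => ?_) (fun w z => ?_) (fun w z q => ?_)
    fun w n => ?_).trans ?_
  · unfold F1
    split_ifs
    · rw [abs_mul, abs_mul]
      exact mul_le_one₀ (hA _ _) (by positivity)
        (mul_le_one₀ (abs_jac _ _) (abs_nonneg _) (hψ _ _))
    · simp
  · unfold F2
    split_ifs
    exacts [hC _ _ _, by simp]
  · exact abs_le.2 (mem_Icc.1 (not_not.1 fun c => q (if_neg c)))
  · rw [abs_of_nonneg (by positivity), one_div]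
    exact Nat.cast_inv_le_one _
  · have y0 : (0 : ℝ) < S.Y0 := Nat.cast_pos.2 (by omega)
    have m0 : (0 : ℝ) < μ := Nat.cast_pos.2 μ1
    have c1 : (RR L μ i : ℝ) ≤ 2 * L / (μ * (2 ^ i : ℕ)) := by
      exact_mod_cast Nat.cast_div_le (α := ℝ) (m := 2 * L) (n := μ * 2 ^ i)
    generalize 2 ^ i = N at *
    have n0 : (0 : ℝ) < N := Nat.cast_pos.2 (by omega)
    have c2 : (N : ℝ) ^ (3 / 4 : ℝ) ≤ N / S.Y0 := by
      rw [le_div_iff₀ y0]
      have : (S.Y0 : ℝ) ≤ (N : ℝ) ^ (1 / 4 : ℝ) := by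
        have h := Real.rpow_le_rpow (by positivity) (Nat.cast_le (α := ℝ).2 b1)
          (by norm_num : (0 : ℝ) ≤ 1 / 4)
        rwa [Nat.cast_pow, ← Real.rpow_natCast, ← Real.rpow_mul y0.le,
          show ((4 : ℕ) : ℝ) * (1 / 4) = 1 by norm_num, Real.rpow_one] at h
      calc _ ≤ (N : ℝ) ^ (3 / 4 : ℝ) * (N : ℝ) ^ (1 / 4 : ℝ) := by gcongr
        _ = N := by rw [← Real.rpow_add n0]; norm_num
    calc _ ≤ 100 * (L : ℝ) ^ 2 * (2 * L / (μ * N)) * (N / S.Y0) := by gcongr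
      _ = _ := by field_simp; ring

open Classical in
theorem core (bes : BESStmt) (hR : Rel m S) (hJ : 1 ≤ S.J) (hΔ : 0 < Δ) (hΔ' : Δ ≤ S.Y0)
    (hQ : 0 < Q) (hL : S.Z ≤ L) (h2 : 2 ≤ S.Y0) (hA : ∀ w x, |A w x| ≤ 1)
    (hC : ∀ w x z, |C w x z| ≤ 1) (per : ∀ w x z, C w x z = C w (x % Q) z)
    (hψ : ∀ x l, |ψ x l| ≤ 1) (pψ : ∀ (x : ℤ) (n : ℕ), ψ (x + n) n = ψ x n)
    (mul : ∀ x a b, a ≠ 0 → b ≠ 0 → ψ x (a * b) = ψ x a * ψ x b) :
    |∑ w ∈ Icc (-L : ℤ) L, ∑ x ∈ Icc (-L : ℤ) L, ∑ z ∈ Icc (-L : ℤ) L, A w x * C w x z *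
      if Sh S Δ (x - z) then jacobiSym (x - w) (lq Δ (x - z)) * ψ x (lq Δ (x - z)) else 0| ≤
      Q * (4200 * (L : ℝ) ^ 3 / S.Y0 * Real.log S.Z ^ 2) := by
  have h1 : ∑ μ ∈ Icc 1 (S.Y' ^ 6), (μ : ℝ)⁻¹ ≤ 1 + 6 * Real.log S.Y' := by
    have h := harmonic_le_one_add_log (S.Y' ^ 6)
    rw [harmonic_eq_sum_Icc] at h
    simpa using h
  have y2 : 2 ≤ S.Y' := h2.trans (hR.Y0_le.trans hR.Y_le)
  have l2 := Real.log_two_gt_d9
  have h3 : (Nat.log 2 S.Y' : ℝ) * Real.log 2 ≤ Real.log S.Y' := by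
    rw [← Real.log_pow]
    exact Real.log_le_log (by positivity)
      (by exact_mod_cast Nat.pow_log_le_self 2 (show S.Y' ≠ 0 by omega))
  have h4 : Real.log 2 ≤ Real.log S.Y' := Real.log_le_log two_pos (by exact_mod_cast y2)
  have h5 := hR.le_log_Z
  have h6 : (10000 : ℝ) ≤ EE m := by exact_mod_cast le_trans (by omega) (RG.le_EE m)
  have h7 : 2 * Real.log S.Y' ≤ Real.log S.Z := by nlinarith
  have h8 : (Nat.log 2 S.Y' : ℝ) + 1 ≤ 3 * Real.log S.Z := by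
    nlinarith [Nat.cast_nonneg (α := ℝ) (Nat.log 2 S.Y')]
  calc _ = |∑ w ∈ Icc (-L : ℤ) L, ∑ k ∈ Ks S Q, ∑ x ∈ Icc (-L : ℤ) L, tm S Δ L Q A C ψ k w x| := by
        refine congrArg _ (sum_congr rfl fun w _ => ?_)
        rw [sum_comm (s := Ks S Q)]
        exact sum_congr rfl fun x hx => ident hR hJ hΔ hQ per mul w hx
    _ ≤ ∑ k ∈ Ks S Q, ∑ w ∈ Icc (-L : ℤ) L, |∑ x ∈ Icc (-L : ℤ) L, tm S Δ L Q A C ψ k w x| := by
        rw [sum_comm]
        exact (abs_sum_le_sum_abs _ _).trans (sum_le_sum fun _ _ => abs_sum_le_sum_abs _ _)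
    _ ≤ ∑ k ∈ Ks S Q, 200 * (L : ℝ) ^ 3 / S.Y0 * (k.2.1 : ℝ)⁻¹ :=
        sum_le_sum fun k hk => key bes hR hΔ hΔ' hL h2 hA hC hψ pψ hk
    _ = Q * (200 * (L : ℝ) ^ 3 / S.Y0 *
          ((Nat.log 2 S.Y' + 1) * ∑ μ ∈ Icc 1 (S.Y' ^ 6), (μ : ℝ)⁻¹)) := by
        simp only [Ks, sum_product, sum_const, card_range, nsmul_eq_mul, Int.card_Ico, sub_zero,
          Int.toNat_natCast, mul_sum]
        refine sum_congr rfl fun μ _ => ?_
        push_cast
        ring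
    _ ≤ Q * (200 * (L : ℝ) ^ 3 / S.Y0 * (3 * Real.log S.Z * (7 * Real.log S.Z))) := by
        gcongr
        linarith
    _ = _ := by ring

end Sign

end Pool.Agent.MP_a43263_nt.JU

end
end MrgPart2

-- ======== part 3: formerly Pool.Agent.MP_a43263_nt.JU.Sign
section MrgPart3

/-! PROJECT JU, row SIGN: both signs occur equally often. -/

set_option autoImplicit false

noncomputable section

namespace Pool.Agent.MP_a43263_nt.JU

open Finset Filter Function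
open R2 (Sc Shape Core)
open RG (Rel Ev EE)

namespace Sign

variable {m : ℕ}

theorem avg (L : ℕ) (i : Fin m) (G : (Fin m → ℤ) → ℝ) :
    (2 * L + 1) * ∑ a ∈ box m L, G a =
      ∑ b ∈ box m L, ∑ t ∈ Icc (-L : ℤ) L, G (update b i t) := by
  have c : ((Icc (-L : ℤ) L).card : ℝ) = 2 * L + 1 := by
    rw [Int.card_Icc, show (L : ℤ) + 1 - -L = (2 * L + 1 : ℕ) by push_cast; ring,
      Int.toNat_natCast]
    push_cast
    rfl
  have mem : ∀ x ∈ box m L ×ˢ Icc (-L : ℤ) L,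
      (update x.1 i x.2, x.1 i) ∈ box m L ×ˢ Icc (-L : ℤ) L := fun x hx => by
    obtain ⟨h1, h2⟩ := mem_product.1 hx
    refine mem_product.2 ⟨Fintype.mem_piFinset.2 fun k => ?_, Fintype.mem_piFinset.1 h1 i⟩
    by_cases e : k = i
    · simpa [e] using h2
    · simpa [e] using Fintype.mem_piFinset.1 h1 k
  rw [← sum_product', ← c, mul_sum, sum_congr rfl fun a _ => (nsmul_eq_mul _ _).symm,
    sum_congr rfl fun a _ => (sum_const (G a)).symm, ← sum_product']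
  refine sum_nbij' (fun x => (update x.1 i x.2, x.1 i)) (fun x => (update x.1 i x.2, x.1 i))
    mem mem (fun x _ => by simp) (fun x _ => by simp) fun x _ => by simp

variable (S : Sc) (D : Dat m) (T : ℕ)

/-- the conditions that depend on a residue class only -/
def Md (a : Fin m → ℤ) : Prop :=
  (∀ e : Ed m, a e.1.1 - a e.1.2 ≡ D.Δ e [ZMOD 8 * D.M * D.Δ e]) ∧ ∀ e f : Ed m, e ≠ f →
    ∀ p : ℕ, p.Prime → p ≤ T → (p * D.Δ e : ℤ) ∣ a e.1.1 - a e.1.2 →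
      ¬(p * D.Δ f : ℤ) ∣ a f.1.1 - a f.1.2

def She (a : Fin m → ℤ) (e : Ed m) : Prop := Sh S (D.Δ e) (a e.1.1 - a e.1.2)

open Classical in
def HH (f : Ed m) (s₁ s₂ : (Fin m → ℤ) → ℤ) (a : Fin m → ℤ) : ℝ :=
  if Md D T a ∧ ∀ e, She S D a e then (s₁ a * s₂ a * ∏ k ∈ out f, sy D a f k : ℤ) else 0

variable {S D T} {a a' : Fin m → ℤ}

theorem md_congr (hD : D.Ok) (h : ∀ i, a i ≡ a' i [ZMOD (8 * D.M ^ 2 * T.factorial : ℕ)])
    (k : Md D T a) : Md D T a' := by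
  have d : ∀ (e : Ed m) (q : ℕ), q ∣ 8 * D.M * T.factorial →
      a e.1.1 - a e.1.2 ≡ a' e.1.1 - a' e.1.2 [ZMOD q * D.Δ e] := fun e q hq =>
    ((h _).sub (h _)).of_dvd (by
      have := Nat.mul_dvd_mul hq (hD.dv e)
      rw [show 8 * D.M * T.factorial * D.M = 8 * D.M ^ 2 * T.factorial by ring] at this
      exact_mod_cast this)
  refine ⟨fun e => ?_, fun e f n p hp hT h1 h2 => ?_⟩
  · have := d e (8 * D.M) (dvd_mul_right _ _)
    push_cast at this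
    exact this.symm.trans (k.1 e)
  · have q : p ∣ 8 * D.M * T.factorial := (Nat.dvd_factorial hp.pos hT).mul_left _
    exact k.2 e f n p hp hT ((d e p q).dvd_iff.2 h1) ((d f p q).dvd_iff.2 h2)

theorem she_update {i : Fin m} {e : Ed m} (h : ¬inE i e) (t : ℤ) :
    She S D (update a i t) e ↔ She S D a e := by
  rw [She, She, update_of_ne fun q => h (.inl q.symm), update_of_ne fun q => h (.inr q.symm)]

theorem md_iff (hD : D.Ok) (h : ∀ e : Ed m, a e.1.1 - a e.1.2 = D.Δ e * D.l a e) :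
    Md D T a ↔ (∀ e, D.l a e ≡ 1 [MOD 8 * D.M]) ∧
      ∀ e f, e ≠ f → ∀ p : ℕ, p.Prime → p ≤ T → p ∣ D.l a e → ¬p ∣ D.l a f := by
  have n : ∀ e, (D.Δ e : ℤ) ≠ 0 := fun e => Nat.cast_ne_zero.2 (hD.Δ_pos e).ne'
  have d : ∀ (e : Ed m) (p : ℕ), (p * D.Δ e : ℤ) ∣ a e.1.1 - a e.1.2 ↔ p ∣ D.l a e := fun e p => by
    rw [h, mul_comm, mul_dvd_mul_iff_left (n e), Int.natCast_dvd_natCast]
  refine and_congr (forall_congr' fun e => ?_) (by simp only [d])
  rw [h, Int.modEq_iff_dvd, Nat.modEq_iff_dvd, mul_comm _ (D.Δ e : ℤ),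
    show (D.Δ e : ℤ) - D.Δ e * D.l a e = D.Δ e * ((1 : ℕ) - D.l a e) by push_cast; ring,
    mul_dvd_mul_iff_left (n e)]
  push_cast
  rfl

theorem main (bes : BESStmt) (hD : D.Ok) (hR : Rel m S) (hJ : 1 ≤ S.J) (hM : D.M ≤ S.Y0)
    (h2 : 2 ≤ S.Y0) {L : ℕ} (hL : S.Z ≤ L) (f : Ed m) {k : Fin m} (hk : k ∈ out f)
    {s₁ s₂ : (Fin m → ℤ) → ℤ} (hs : ∀ a, |s₁ a| ≤ 1 ∧ |s₂ a| ≤ 1)
    (hu : ∀ a t, s₁ (update a f.1.2 t) = s₁ a ∧ s₂ (update a f.1.1 t) = s₂ a) :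
    |∑ a ∈ box m L, HH S D T f s₁ s₂ a| ≤ (2 * L + 1) ^ m *
      ((8 * D.M ^ 2 * T.factorial : ℕ) * 4200 * Real.log S.Z ^ 2 / S.Y0) := by
  classical
  have n01 := f.ne
  have k0 : k ≠ f.1.1 := fun q => mem_out.1 hk (.inl q)
  have k1 : k ≠ f.1.2 := fun q => mem_out.1 hk (.inr q)
  have c0 : (0 : ℝ) < 2 * L + 1 := by positivity
  have one : ∀ b : Fin m → ℤ, |∑ w ∈ Icc (-L : ℤ) L, ∑ x ∈ Icc (-L : ℤ) L, ∑ z ∈ Icc (-L : ℤ) L,
      HH S D T f s₁ s₂ (update (update (update b k w) f.1.1 x) f.1.2 z)| ≤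
      (8 * D.M ^ 2 * T.factorial : ℕ) * (4200 * (L : ℝ) ^ 3 / S.Y0 * Real.log S.Z ^ 2) := by
    intro b
    refine le_of_eq_of_le (congrArg _ (sum_congr rfl fun w _ => sum_congr rfl fun x _ =>
      sum_congr rfl fun z _ => ?_)) (core (Δ := D.Δ f) (Q := 8 * D.M ^ 2 * T.factorial)
      (A := fun w x => if ∀ e, ¬inE f.1.2 e → She S D (update (update b k w) f.1.1 x) e then
        (s₁ (update (update b k w) f.1.1 x) : ℝ) else 0)
      (C := fun w x z => if Md D T (update (update (update b k w) f.1.1 x) f.1.2 z) ∧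
        ∀ e, inE f.1.2 e → e ≠ f → She S D (update (update b k w) f.1.2 z) e then
        (s₂ (update (update b k w) f.1.2 z) : ℝ) else 0)
      (ψ := fun x l => ∏ j ∈ (out f).erase k, (jacobiSym (x - b j) l : ℝ))
      bes hR hJ (hD.Δ_pos f) ((hD.Δ_le f).trans hM) (by have := hD.pos; positivity) hL h2
      (fun w x => ?_) (fun w x z => ?_) (fun w x z => ?_) (fun x l => ?_) (fun x n => ?_)
      fun x p q hp hq => ?_)
    · set a := update (update (update b k w) f.1.1 x) f.1.2 z with ha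
      have ha' : a = update (update (update b k w) f.1.2 z) f.1.1 x := update_comm n01 _ _ _
      have a0 : a f.1.1 = x := by rw [ha', update_self]
      have a1 : a f.1.2 = z := by rw [ha, update_self]
      have e1 : s₁ a = s₁ (update (update b k w) f.1.1 x) := (hu _ _).1
      have e2 : s₂ a = s₂ (update (update b k w) f.1.2 z) := ha' ▸ (hu _ _).2
      have e3 : ∏ j ∈ out f, sy D a f j = jacobiSym (x - w) (lq (D.Δ f) (x - z)) *
          ∏ j ∈ (out f).erase k, jacobiSym (x - b j) (lq (D.Δ f) (x - z)) := by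
        have l : D.l a f = lq (D.Δ f) (x - z) := by rw [Dat.l, a0, a1]; rfl
        rw [← mul_prod_erase _ _ hk, sy, l, a0, ha, update_of_ne k1, update_of_ne k0, update_self]
        refine congrArg _ (prod_congr rfl fun j hj => ?_)
        have j2 := mem_out.1 (mem_erase.1 hj).2
        rw [← ha, sy, l, a0, ha, update_of_ne fun q => j2 (.inr q),
          update_of_ne fun q => j2 (.inl q), update_of_ne (mem_erase.1 hj).1]
      have e4 : (∀ e, She S D a e) ↔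
          (∀ e, ¬inE f.1.2 e → She S D (update (update b k w) f.1.1 x) e) ∧
          (∀ e, inE f.1.2 e → e ≠ f → She S D (update (update b k w) f.1.2 z) e) ∧
          Sh S (D.Δ f) (x - z) := by
        have u : ∀ e, inE f.1.2 e → e ≠ f →
            (She S D a e ↔ She S D (update (update b k w) f.1.2 z) e) := fun e h1 h2 =>
          ha' ▸ she_update (fun q => h2 (Ed.eq_of q h1).symm) x
        refine ⟨fun h => ⟨fun e q => (she_update q z).1 (h e), fun e q q' => (u e q q').1 (h e),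
          by simpa only [She, a0, a1] using h f⟩, fun h e => ?_⟩
        by_cases q : inE f.1.2 e
        · by_cases q' : e = f
          · rw [q', She, a0, a1]
            exact h.2.2
          · exact (u e q q').2 (h.2.1 e q q')
        · exact (she_update q z).2 (h.1 e q)
      simp only [HH, e1, e2, e3, e4, ite_and]
      split_ifs <;> simp
    · split_ifs
      exacts [by exact_mod_cast (hs _).1, by simp]
    · split_ifs
      exacts [by exact_mod_cast (hs _).2, by simp]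
    · have c : ∀ i, update (update (update b k w) f.1.1 x) f.1.2 z i ≡
          update (update (update b k w) f.1.1 (x % (8 * D.M ^ 2 * T.factorial : ℕ))) f.1.2 z i
          [ZMOD (8 * D.M ^ 2 * T.factorial : ℕ)] := fun i => by
        simp only [update_apply]
        split_ifs
        exacts [.refl _, (Int.mod_modEq _ _).symm, .refl _, .refl _]
      exact if_congr (and_congr_left fun _ =>
        ⟨md_congr hD c, md_congr hD fun i => (c i).symm⟩) rfl rfl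
    · rw [abs_prod]
      exact prod_le_one (fun _ _ => abs_nonneg _) fun _ _ => abs_jac _ _
    · refine prod_congr rfl fun j _ => congrArg _ (jacobiSym.mod_left' ?_)
      rw [show x + n - b j = x - b j + n by ring, Int.add_emod_right]
    · simp only [jacobiSym.mul_right' _ hp hq, Int.cast_mul, prod_mul_distrib]
  have e : (2 * L + 1) ^ 3 * ∑ a ∈ box m L, HH S D T f s₁ s₂ a = ∑ b ∈ box m L,
      ∑ w ∈ Icc (-L : ℤ) L, ∑ x ∈ Icc (-L : ℤ) L, ∑ z ∈ Icc (-L : ℤ) L,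
        HH S D T f s₁ s₂ (update (update (update b k w) f.1.1 x) f.1.2 z) := by
    rw [← avg L k fun b => ∑ x ∈ Icc (-L : ℤ) L, ∑ z ∈ Icc (-L : ℤ) L,
        HH S D T f s₁ s₂ (update (update b f.1.1 x) f.1.2 z),
      ← avg L f.1.1 fun b => ∑ z ∈ Icc (-L : ℤ) L, HH S D T f s₁ s₂ (update b f.1.2 z),
      ← avg L f.1.2]
    ring
  refine le_of_mul_le_mul_left ?_ (pow_pos c0 3)
  rw [← abs_of_pos (pow_pos c0 3), ← abs_mul, e, abs_of_pos (pow_pos c0 3)]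
  refine ((abs_sum_le_sum_abs _ _).trans (sum_le_sum fun b _ => one b)).trans ?_
  rw [sum_const, card_box, nsmul_eq_mul]
  have : (L : ℝ) ^ 3 ≤ (2 * L + 1) ^ 3 := by
    gcongr
    linarith [Nat.cast_nonneg (α := ℝ) L]
  calc _ ≤ ((2 * L + 1) ^ m : ℕ) * (((8 * D.M ^ 2 * T.factorial : ℕ) : ℝ) *
        (4200 * (2 * L + 1 : ℝ) ^ 3 / S.Y0 * Real.log S.Z ^ 2)) := by gcongr
    _ = _ := by push_cast; ring

end Sign

open Sign

theorem sign : SYMStmt → REMStmt → BESStmt → SIGNStmt := by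
  intro sym rem bes m D J ε hD hJ hε
  classical
  have h3 := hD.three
  let f : Ed m := ⟨(⟨0, by omega⟩, ⟨1, by omega⟩), by simp⟩
  have hk : (⟨2, by omega⟩ : Fin m) ∈ out f := mem_out.2 (by simp [inE, f])
  obtain ⟨-, h1, h2⟩ := sym m D hD
  obtain ⟨s₁, s₂, ex, hs, hu, ho, he⟩ := h2 f fun _ _ => 1
  obtain ⟨T, hT⟩ := exists_nat_gt (32 * (m : ℝ) ^ 4 * (3 * D.R) ^ m / ε)
  have T0 : (0 : ℝ) < T := lt_of_le_of_lt (by positivity) hT
  refine ((RG.ev_ge (D.M + T + 2)).and (RG.ev_log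
    (2 / ε * (3 * D.R) ^ m * ((8 * D.M ^ 2 * T.factorial : ℕ) * 4200)) 2)).mono
    fun S _ hSJ hR ⟨g1, g2⟩ => ?_
  have y1 := hR.Y0_le
  have y2 := hR.Y_le
  have y3 := hR.Y'_le
  have y0 : (0 : ℝ) < S.Y0 := Nat.cast_pos.2 (by omega)
  have r1 := hD.one
  have hL : S.Z ≤ D.R * S.Z := Nat.le_mul_of_pos_left _ r1
  have c1 : (2 * (D.R * S.Z : ℕ) + 1 : ℝ) ^ m ≤ (3 * D.R) ^ m * (S.Z : ℝ) ^ m := by
    rw [← mul_pow]
    have : (1 : ℝ) ≤ (D.R * S.Z : ℕ) := by exact_mod_cast (show 1 ≤ D.R * S.Z by omega)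
    gcongr
    push_cast at this ⊢
    linarith
  have b1 := main (T := T) bes hD hR (hSJ ▸ hJ) (by omega) (by omega) hL f hk hs hu
  have b2 := rem m (D.R * S.Z) T (by exact_mod_cast T0)
  have e1 : ∑ a ∈ AA S D, (sgn D a : ℝ) = ∑ a ∈ AA S D, HH S D T f s₁ s₂ a := by
    refine sum_congr rfl fun a ha => ?_
    obtain ⟨-, q1, q2, q3, -, q4⟩ := mem_AA.1 ha
    have ad := adm_of_mem hR ha
    have q5 := he a ad
    simp only [pow_one] at q5
    rw [HH, if_pos ⟨(md_iff hD q1).2 ⟨q2, fun e f n p hp h => q4 e f n p hp (by omega)⟩,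
      fun e => ⟨q1 e, q3 e⟩⟩, (h1 a ad).2.2.2.2.2.2.1, q5]
    refine congrArg _ (congrArg _ (prod_congr rfl fun k hk => ?_))
    have o := ho (fun _ _ => rfl) k hk
    rcases jacobiSym.trichotomy (a f.1.1 - a k) (D.l a f) with h | h | h <;> rw [sy, h]
    exacts [zero_pow o.pos.ne', one_pow _, o.neg_one_pow]
  have b3 : |∑ a ∈ box m (D.R * S.Z) \ AA S D, HH S D T f s₁ s₂ a| ≤
      16 * m ^ 4 * (2 * (D.R * S.Z : ℕ) + 1) ^ m / T := by
    refine (abs_sum_le_sum_abs _ _).trans (le_trans ?_ b2)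
    rw [card_filter, Nat.cast_sum]
    refine (sum_le_sum fun a ha => ?_).trans (sum_le_sum_of_subset_of_nonneg sdiff_subset
      fun _ _ _ => Nat.cast_nonneg _)
    unfold HH
    split_ifs with c c'
    · rw [Nat.cast_one, Int.cast_mul, Int.cast_mul, Int.cast_prod, abs_mul, abs_mul, abs_prod]
      exact mul_le_one₀ (mul_le_one₀ (by exact_mod_cast (hs a).1) (abs_nonneg _)
        (by exact_mod_cast (hs a).2)) (prod_nonneg fun _ _ => abs_nonneg _)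
        (prod_le_one (fun _ _ => abs_nonneg _) fun _ _ => abs_jac _ _)
    · exfalso
      have q1 : ∀ e : Ed m, a e.1.1 - a e.1.2 = D.Δ e * D.l a e := fun e => (c.2 e).1
      have q3 : ∀ e, Shape S (D.l a e) := fun e => (c.2 e).2
      obtain ⟨q2, q4⟩ := (md_iff hD q1).1 c.1
      have inj : Injective a := by
        have key : ∀ i j, i < j → a i ≠ a j := fun i j k e => by
          have h := q1 ⟨(i, j), k⟩
          rw [e, sub_self] at h
          exact (mul_pos (Nat.cast_pos.2 (hD.Δ_pos _))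
            (Nat.cast_pos.2 (zero_lt_one.trans (q3 _).one_lt))).ne h
        exact fun i j e => (lt_trichotomy i j).elim (fun q => absurd e (key i j q))
          fun q => q.elim id fun q => absurd e.symm (key j i q)
      have no : ∀ e f, e ≠ f → ∀ p : ℕ, p.Prime → p ∣ D.l a e → ¬p ∣ D.l a f :=
        fun e f n p hp d1 d2 => c' ⟨inj, e, f, n, p, hp, not_le.1 fun h => q4 e f n p hp h d1 d2,
          q1 e ▸ (Int.natCast_dvd_natCast.2 d1).mul_left _,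
          q1 f ▸ (Int.natCast_dvd_natCast.2 d2).mul_left _⟩
      exact (mem_sdiff.1 ha).2 (mem_AA.2 ⟨(mem_sdiff.1 ha).1, q1, q2, q3,
        fun e f h => Nat.eq_one_iff_not_exists_prime_dvd.2 fun p hp d => no e f h.1 p hp
          (d.trans (Nat.gcd_dvd_left _ _)) (d.trans (Nat.gcd_dvd_right _ _)),
        fun e f n p hp _ => no e f n p hp⟩)
    all_goals simp
  have b4 : (3 * D.R : ℝ) ^ m * ((8 * D.M ^ 2 * T.factorial : ℕ) * 4200 * Real.log S.Z ^ 2 / S.Y0)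
      ≤ ε / 2 := by
    rw [← mul_div_assoc, div_le_iff₀ y0]
    have := mul_le_mul_of_nonneg_left g2 (half_pos hε).le
    refine le_trans (le_of_eq ?_) this
    field_simp
  have b5 : 16 * (m : ℝ) ^ 4 * (3 * D.R) ^ m / T ≤ ε / 2 := by
    rw [div_lt_iff₀ hε] at hT
    rw [div_le_iff₀ T0]
    linarith
  rw [e1, eq_sub_of_add_eq' (sum_sdiff (f := HH S D T f s₁ s₂) (AA_subset S D))]
  refine (abs_sub _ _).trans ((add_le_add b1 b3).trans ?_)
  calc _ ≤ (3 * D.R) ^ m * (S.Z : ℝ) ^ m *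
        ((8 * D.M ^ 2 * T.factorial : ℕ) * 4200 * Real.log S.Z ^ 2 / S.Y0) +
        16 * m ^ 4 * ((3 * D.R) ^ m * (S.Z : ℝ) ^ m) / T := by gcongr
    _ = ((3 * D.R : ℝ) ^ m *
        ((8 * D.M ^ 2 * T.factorial : ℕ) * 4200 * Real.log S.Z ^ 2 / S.Y0) +
        16 * (m : ℝ) ^ 4 * (3 * D.R) ^ m / T) * (S.Z : ℝ) ^ m := by ring
    _ ≤ (ε / 2 + ε / 2) * (S.Z : ℝ) ^ m := by gcongr
    _ = _ := by ring

end Pool.Agent.MP_a43263_nt.JU

end
end MrgPart3

-- ======== part 4: formerly Pool.Agent.MP_a43263_nt.JU.Loc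
section MrgPart4

/-! PROJECT JU, row LOC: the local conditions of the 2-descent. -/

set_option autoImplicit false

noncomputable section

namespace Pool.Agent.MP_a43263_nt.JU

open Finset
open R2 (Ker sg Sgn)
open R2.Loc (exists_sqf even_iff norm_int gcd_one val_sq jac_of_Q extract)

namespace LocH

variable {m : ℕ}

/-! ### squares -/

theorem sq_cancel {K : Type} [Field K] {x y : K} (hx : x ≠ 0) (h1 : IsSquare x)
    (h : IsSquare (x * y)) : IsSquare y := by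
  obtain ⟨s, rfl⟩ := h1
  obtain ⟨t, ht⟩ := h
  have hs : s ≠ 0 := left_ne_zero_of_mul hx
  exact ⟨t / s, by field_simp; linear_combination ht⟩

theorem sq_trans {K : Type} [Field K] {x y z : K} (hz : z ≠ 0) (h1 : IsSquare (x * z))
    (h2 : IsSquare (y * z)) : IsSquare (x * y) :=
  sq_cancel (mul_ne_zero hz hz) ⟨z, rfl⟩ (by
    have := h1.mul h2
    rwa [mul_mul_mul_comm, mul_comm] at this)

theorem sg_eq {j : ℤ} (h : j = 1 ∨ j = -1) : sg j = j := by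
  rcases h with rfl | rfl <;> simp [sg]

theorem jac_r {ι : Type} (n : ℤ) (s : Finset ι) (f : ι → ℕ) (h : ∀ a ∈ s, f a ≠ 0) :
    jacobiSym n (∏ a ∈ s, f a) = ∏ a ∈ s, jacobiSym n (f a) := by
  induction s using Finset.cons_induction with
  | empty => simp [jacobiSym.one_right]
  | cons a s ha ih =>
    rw [prod_cons, prod_cons, jacobiSym.mul_right' n (h a (mem_cons_self _ _))
      (prod_ne_zero_iff.2 fun b hb => h b (mem_cons_of_mem hb)),
      ih fun b hb => h b (mem_cons_of_mem hb)]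

/-- a rational number with even valuations outside `S` -/
theorem rat_sq {r : ℚ} (hr : r ≠ 0) (S : Finset ℕ)
    (h : ∀ p : ℕ, p.Prime → p ∉ S → Even (padicValRat p r)) :
    ∃ Q ⊆ insert 1 S, IsSquare (r * ((∏ q ∈ Q, if q = 1 then -1 else q : ℤ) : ℚ)) := by
  obtain ⟨n, s, hn, hs, e⟩ := exists_sqf hr
  have h1 : 1 ∉ n.natAbs.primeFactors := fun c =>
    Nat.not_prime_one (Nat.prime_of_mem_primeFactors c)
  have sub : n.natAbs.primeFactors ⊆ S := fun p hp => by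
    obtain ⟨k1, k2, -⟩ := Nat.mem_primeFactors.1 hp
    by_contra c
    have := Fact.mk k1
    have k := h p k1 c
    rw [← Padic.valuation_ratCast, val_sq (d := (n : ℚ_[p])) (s := (s : ℚ_[p]))
      (by exact_mod_cast hr) (by exact_mod_cast e), Int.even_add] at k
    exact (even_iff hn).1 (k.2 (even_two_mul _)) (Int.natCast_dvd.2 k2)
  have pr : (∏ q ∈ n.natAbs.primeFactors, if q = 1 then -1 else q : ℤ) = n.natAbs := by
    rw [← Nat.prod_primeFactors_of_squarefree (Int.squarefree_natAbs.2 hn), Nat.cast_prod,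
      Nat.prod_primeFactors_of_squarefree (Int.squarefree_natAbs.2 hn)]
    exact prod_congr rfl fun q hq => if_neg fun c : q = 1 => h1 (c ▸ hq)
  have fin : IsSquare (r * n) := ⟨n * s, by rw [e]; ring⟩
  by_cases c : n < 0
  · refine ⟨insert 1 n.natAbs.primeFactors, insert_subset_insert _ sub, ?_⟩
    rw [prod_insert h1, pr, if_pos rfl, show -1 * (n.natAbs : ℤ) = n by omega]
    exact fin
  · refine ⟨n.natAbs.primeFactors, sub.trans (subset_insert _ _), ?_⟩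
    rw [pr, show (n.natAbs : ℤ) = n by omega]
    exact fin

theorem even_of_sq {p : ℕ} [Fact p.Prime] {x : ℚ_[p]} (h : IsSquare x) : Even x.valuation := by
  obtain ⟨s, rfl⟩ := h
  by_cases hs : s = 0
  · simp [hs]
  · rw [Padic.valuation_mul hs hs]
    exact ⟨_, rfl⟩

theorem Q_of_sq {p : ℕ} [Fact p.Prime] {n : ℤ} (hn : n ≠ 0) (h : IsSquare (n : ℚ_[p])) {η : ℝ}
    (hη : 0 < η) : R2.Loc.Q η (n : ℚ_[p]) := by
  obtain ⟨s, hs⟩ := h
  have h0 : s ≠ 0 := fun c => hn (by rw [c, mul_zero] at hs; exact_mod_cast hs)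
  refine ⟨s, h0, ?_⟩
  rwa [hs, ← sq, div_self (pow_ne_zero _ h0), sub_self, norm_zero]

theorem jac_of_sq {p : ℕ} [Fact p.Prime] {n : ℤ} (hn : ¬(p : ℤ) ∣ n) (h : IsSquare (n : ℚ_[p])) :
    jacobiSym n p = 1 :=
  jac_of_Q hn (Q_of_sq (fun c => hn (by simp [c])) h one_pos)

theorem mod8_of_sq {n : ℤ} (hn : n % 2 = 1) (h : IsSquare (n : ℚ_[2])) : n % 8 = 1 := by
  obtain ⟨r, hr⟩ := extract (p := 2) (k := 3) (m := n) (by norm_num) (by push_cast; omega)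
    (Q_of_sq (by omega) h (by positivity))
  have hr' : (8 : ℤ) ∣ n - r ^ 2 := hr
  rcases Int.even_or_odd r with ⟨j, hj⟩ | ⟨j, hj⟩
  · have : r ^ 2 = 4 * j ^ 2 := by rw [hj]; ring
    omega
  · obtain ⟨k, hk⟩ := Int.even_mul_succ_self j
    have : r ^ 2 = 8 * k + 1 := by rw [hj]; linear_combination 4 * hk
    omega

/-! ### the vertex functionals -/

/-- the value of the functional of the vertex `i` at the generator `x` -/
def vl (i : Fin m) (x : Gen m) : ℤ :=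
  (if inE i x.1.1 then val x else 1) * if x.2 % 4 = 3 then (-1) ^ bv x.1.1 i else 1

theorem vl_mul (e : Ed m) (x : Gen m) :
    vl e.1.1 x * vl e.1.2 x = G e x * (if x.1.1 = e then val x else 1) ^ 2 := by
  have k : (if inE e.1.1 x.1.1 then val x else 1) * (if inE e.1.2 x.1.1 then val x else 1) =
      (if lk x.1.1 e then val x else 1) * (if x.1.1 = e then val x else 1) ^ 2 := by
    by_cases c : x.1.1 = e
    · rw [if_pos c, c, if_pos (inE_fst e), if_pos (inE_snd e), if_neg (lk_irrefl e), one_mul, sq]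
    · rw [if_neg c, one_pow, mul_one]
      by_cases c1 : inE e.1.1 x.1.1 <;> by_cases c2 : inE e.1.2 x.1.1
      · exact absurd (Ed.eq_of c1 c2).symm c
      · rw [if_pos c1, if_neg c2, if_pos (lk.symm ⟨Ne.symm c, .inl c1⟩), mul_one]
      · rw [if_neg c1, if_pos c2, if_pos (lk.symm ⟨Ne.symm c, .inr c2⟩), one_mul]
      · rw [if_neg c1, if_neg c2, if_neg fun t => t.symm.2.elim c1 c2, one_mul]
  unfold vl G bb
  rw [mul_mul_mul_comm, k]
  split_ifs <;> ring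

theorem val_ne {x : Gen m} (h : x.2 = 1 ∨ x.2.Prime) : val x ≠ 0 := by
  unfold val
  split_ifs with c
  exacts [by decide, by exact_mod_cast (h.resolve_left c).ne_zero]

theorem vl_ne {x : Gen m} (h : x.2 = 1 ∨ x.2.Prime) (i : Fin m) : vl i x ≠ 0 := by
  unfold vl
  refine mul_ne_zero ?_ ?_ <;> split_ifs
  exacts [val_ne h, one_ne_zero, pow_ne_zero _ (by decide), one_ne_zero]

theorem VL_mul (e : Ed m) (x : Finset (Gen m)) : (∏ a ∈ x, vl e.1.1 a) * ∏ a ∈ x, vl e.1.2 a =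
    Gv e x * (∏ a ∈ x, if a.1.1 = e then val a else 1) ^ 2 := by
  rw [Gv, ← prod_pow, ← prod_mul_distrib, ← prod_mul_distrib]
  exact prod_congr rfl fun a _ => vl_mul e a

/-- squares at the vertices and at the edges -/
theorem sq_edge (e : Ed m) {x : Finset (Gen m)} (h : ∀ a ∈ x, a.2 = 1 ∨ a.2.Prime) (d d' : ℚ) :
    ∃ s : ℚ, s ≠ 0 ∧ d * ((∏ a ∈ x, vl e.1.1 a : ℤ) : ℚ) * (d' * ((∏ a ∈ x, vl e.1.2 a : ℤ) : ℚ)) =
      d * d' * (Gv e x : ℚ) * s ^ 2 := by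
  refine ⟨((∏ a ∈ x, if a.1.1 = e then val a else 1 : ℤ) : ℚ), Int.cast_ne_zero.2
    (prod_ne_zero_iff.2 fun a ha => ?_), ?_⟩
  · split_ifs
    exacts [val_ne (h a ha), one_ne_zero]
  · rw [mul_mul_mul_comm, ← Int.cast_mul, VL_mul]
    push_cast
    ring

theorem val_vl {p : ℕ} (hp : p.Prime) {x : Gen m} (h : x.2.Prime) (i : Fin m) :
    padicValRat p (vl i x) = if x.2 = p ∧ inE i x.1.1 then 1 else 0 := by
  have := Fact.mk hp
  have e : (vl i x).natAbs = if inE i x.1.1 then x.2 else 1 := by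
    unfold vl val
    rw [Int.natAbs_mul, if_neg h.ne_one]
    split_ifs <;> simp [Int.natAbs_pow]
  rw [padicValRat.of_int, padicValInt, e]
  by_cases c : inE i x.1.1
  · rw [if_pos c]
    by_cases c' : x.2 = p
    · rw [if_pos ⟨c', c⟩, c', padicValNat_self]
      rfl
    · have := Fact.mk h
      rw [if_neg fun t => c' t.1, padicValNat_primes (Ne.symm c')]
      rfl
  · rw [if_neg c, if_neg fun t => c t.2]
    simp

theorem val_VL {p : ℕ} (hp : p.Prime) (x : Finset (Gen m)) (h : ∀ a ∈ x, a.2.Prime) (i : Fin m) :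
    padicValRat p ((∏ a ∈ x, vl i a : ℤ) : ℚ) =
      ∑ a ∈ x, if a.2 = p ∧ inE i a.1.1 then 1 else 0 := by
  have := Fact.mk hp
  induction x using Finset.cons_induction with
  | empty => simp
  | cons a s ha ih =>
    rw [prod_cons, sum_cons, Int.cast_mul, padicValRat.mul
      (Int.cast_ne_zero.2 (vl_ne (.inr (h a (mem_cons_self _ _))) i))
      (Int.cast_ne_zero.2 (prod_ne_zero_iff.2 fun b hb =>
        vl_ne (.inr (h b (mem_cons_of_mem hb))) i)),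
      ih fun b hb => h b (mem_cons_of_mem hb), val_vl hp (h a (mem_cons_self _ _))]

/-! ### the edges from `2 k` to `2 k + 1` -/

def Cs (e : Ed m) : Prop := Even e.1.1.1 ∧ e.1.2.1 = e.1.1.1 + 1

theorem Cs.bv {e : Ed m} (h : Cs e) (t : Fin m) : Even (bv e t) := by
  obtain ⟨⟨k, h1⟩, h2⟩ := h
  simp only [JU.bv, bs, Fin.lt_def, Fin.ext_iff, Nat.odd_iff, Nat.even_iff]
  split_ifs <;> omega

theorem Cs.bs {e : Ed m} (h : Cs e) (i : Fin m) :
    (bs i e.1.1 + bs i e.1.2) % 2 = if inE i e then 1 else 0 := by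
  obtain ⟨⟨k, h1⟩, h2⟩ := h
  simp only [JU.bs, inE, Fin.lt_def, Fin.ext_iff, Nat.odd_iff]
  split_ifs <;> omega

theorem Cs.G {e : Ed m} (h : Cs e) (x : Gen m) :
    G e x = if lk x.1.1 e then val x * (if x.2 % 4 = 3 then -1 else 1) else 1 := by
  have k1 := h.bs x.1.1.1.1
  have k2 := h.bs x.1.1.1.2
  have k : (-1 : ℤ) ^ bb x.1.1 e = if lk x.1.1 e then -1 else 1 := by
    unfold bb JU.bv
    split_ifs with c
    · refine Odd.neg_one_pow (Nat.odd_iff.2 ?_)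
      split_ifs at k1 k2 with c1 c2 c2
      · exact absurd (Ed.eq_of c1 c2) c.1
      · omega
      · omega
      · exact (c.2.elim c1 c2).elim
    · refine Even.neg_one_pow (Nat.even_iff.2 ?_)
      split_ifs at k1 k2 with c1 c2 c2
      · omega
      · exact absurd ⟨fun t => c2 (t ▸ inE_snd _), .inl c1⟩ c
      · exact absurd ⟨fun t => c1 (t ▸ inE_fst _), .inr c2⟩ c
      · omega
  unfold JU.G
  rw [k]
  split_ifs <;> simp

theorem Cs.eq {e f : Ed m} (he : Cs e) (hf : Cs f) {i : Fin m} (h1 : inE i e) (h2 : inE i f) :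
    e = f := by
  obtain ⟨⟨k, k1⟩, k2⟩ := he
  obtain ⟨⟨l, l1⟩, l2⟩ := hf
  refine Ed.eq_of ?_ ?_ <;> simp only [inE, Fin.ext_iff] at h1 h2 ⊢ <;> omega

theorem Cs.nlk {e f : Ed m} (he : Cs e) (hf : Cs f) : ¬lk e f := fun c => by
  obtain ⟨i, h1, h2⟩ := (lk_iff.1 c).2
  exact c.1 (he.eq hf h1 h2)

theorem Cs.mod4 {e : Ed m} (h : Cs e) {x : Finset (Gen m)} (hx : ∀ a ∈ x, a.2.Prime ∧ a.2 ≠ 2) :
    Gv e x % 4 = 1 := by
  refine prod_induction _ (fun z : ℤ => z % 4 = 1) (fun y z hy hz => ?_) rfl fun a ha => ?_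
  · rw [Int.mul_emod, hy, hz]
    rfl
  · obtain ⟨k1, k2⟩ := hx a ha
    have := k1.eq_two_or_odd.resolve_left k2
    rw [h.G, val, if_neg k1.ne_one]
    split_ifs <;> omega

theorem mem_Pe {e : Ed m} : e ∈ Pe m ↔ Cs e ∧ e.1.2.1 + 1 < m := by
  simp only [Pe, mem_filter, mem_univ, true_and, Cs, and_assoc]

theorem mem_V0 {N : ℕ} {x : Gen m} :
    x ∈ V0 m N ↔ (x.1.1 ∈ Pe m ∧ x.1.2 = none) ∧ x.2 ∈ insert 1 N.primeFactors := by
  obtain ⟨⟨e, t⟩, q⟩ := x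
  simp only [V0, mem_product, mem_image, Prod.mk.injEq]
  exact and_congr_left fun _ =>
    ⟨fun ⟨f, h, h1, h2⟩ => ⟨h1 ▸ h, h2.symm⟩, fun h => ⟨e, h.1, rfl, h.2.symm⟩⟩

/-- the vertex functionals at the fixed generators -/
theorem VL_fix (N : ℕ) (Q : Ed m → Finset ℕ) (hQ : ∀ e, Q e ⊆ insert 1 N.primeFactors)
    (i : Fin m) : ∏ t ∈ (V0 m N).filter (fun t => t.2 ∈ Q t.1.1), vl i t =
      ∏ e ∈ Pe m, if inE i e then ∏ q ∈ Q e, (if q = 1 then -1 else q : ℤ) else 1 := by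
  rw [prod_filter, V0, prod_product, prod_image fun e _ f _ h => (Prod.mk.inj h).1]
  refine prod_congr rfl fun e he => ?_
  dsimp only
  rw [← prod_filter, filter_mem_eq_inter, inter_eq_right.2 (hQ e)]
  have k := ((mem_Pe.1 he).1.bv i).neg_one_pow (α := ℤ)
  simp only [vl, val, k, ite_self, mul_one]
  split_ifs <;> simp

/-! ### the local conditions -/

section

variable {N : ℕ} {V : Finset (Gen m)} {dg : Gen m → ℤ} {a : Fin m → ℤ} {A : Ed m → ℕ}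

theorem dvd_N (F : Loc N V dg a A) {p k : ℕ} (hp : p.Prime) (h : p ∣ ((8 * N) ^ 2) ^ k) :
    p ∣ N := by
  rcases (Nat.Prime.dvd_mul hp).1 (hp.dvd_of_dvd_pow (hp.dvd_of_dvd_pow h)) with c | c
  · have : p ∣ 2 := hp.dvd_of_dvd_pow (n := 3) c
    exact this.trans F.two
  · exact c

theorem dvd_A (F : Loc N V dg a A) {p : ℕ} (hp : p.Prime) {e : Ed m}
    (h : (p : ℤ) ∣ a e.1.1 - a e.1.2) : p ∣ N ∨ ∃ x ∈ V, x.2 = p ∧ x.1.1 = e := by
  rw [F.eq] at h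
  have h' : p ∣ ((8 * N) ^ 2) ^ (m - 1 - e.1.2.1) * A e := by exact_mod_cast h
  refine ((Nat.Prime.dvd_mul hp).1 h').imp (dvd_N F hp) fun c => ?_
  rw [F.hA, hp.prime.dvd_finsetProd_iff] at c
  obtain ⟨x, hx, c⟩ := c
  obtain ⟨h1, h2⟩ := mem_filter.1 hx
  exact ⟨x, h1, ((Nat.prime_dvd_prime_iff_eq hp (F.pr x h1).1).1 c).symm, h2⟩

theorem dvd_sub (F : Loc N V dg a A) {p : ℕ} (hp : p.Prime) {k l : Fin m} (hkl : k ≠ l)
    (h : (p : ℤ) ∣ a k - a l) : p ∣ N ∨ ∃ x ∈ V, x.2 = p ∧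
      (k = x.1.1.1.1 ∧ l = x.1.1.1.2 ∨ k = x.1.1.1.2 ∧ l = x.1.1.1.1) := by
  rcases hkl.lt_or_gt with c | c
  · refine (dvd_A F hp (e := ⟨(k, l), c⟩) h).imp_right fun ⟨x, hx, h1, h2⟩ => ⟨x, hx, h1, ?_⟩
    rw [h2]
    exact .inl ⟨rfl, rfl⟩
  · refine (dvd_A F hp (e := ⟨(l, k), c⟩) (dvd_sub_comm.1 h)).imp_right
      fun ⟨x, hx, h1, h2⟩ => ⟨x, hx, h1, ?_⟩
    rw [h2]
    exact .inr ⟨rfl, rfl⟩

theorem exact_pr (F : Loc N V dg a A) (hd : Dist V) {b : Gen m} (hb : b ∈ V) :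
    ∃ c : ℤ, ¬(b.2 : ℤ) ∣ c ∧ a b.1.1.1.1 - a b.1.1.1.2 = b.2 * c := by
  obtain ⟨hp, hN⟩ := F.pr b hb
  have hm : b ∈ V.filter fun x => x.1.1 = b.1.1 := mem_filter.2 ⟨hb, rfl⟩
  refine ⟨(((8 * N) ^ 2) ^ (m - 1 - b.1.1.1.2.1) *
    ∏ x ∈ (V.filter fun x => x.1.1 = b.1.1).erase b, x.2 : ℕ), fun c => ?_, ?_⟩
  · rcases (Nat.Prime.dvd_mul hp).1 (Int.natCast_dvd_natCast.1 c) with c | c
    · exact hN (dvd_N F hp c)
    · obtain ⟨x, hx, c⟩ := (hp.prime.dvd_finsetProd_iff _).1 c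
      have hx' := (mem_filter.1 (mem_of_mem_erase hx)).1
      exact ne_of_mem_erase hx
        (hd b hb x hx' ((Nat.prime_dvd_prime_iff_eq hp (F.pr x hx').1).1 c)).symm
  · rw [F.eq, F.hA, ← mul_prod_erase _ _ hm]
    push_cast
    ring

theorem D_ne {D : Fin m → ℚ} (els : EQ (fun i => (a i : ℚ)) D) (i : Fin m) : D i ≠ 0 := by
  obtain ⟨_, _, -, -, -, h⟩ := els.1
  exact fun c => (h i).2.1 (by simp [c])

theorem els_p {D : Fin m → ℚ} (els : EQ (fun i => (a i : ℚ)) D) (p : ℕ) [Fact p.Prime] :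
    Wq (fun i => (a i : ℚ_[p])) fun i => (D i : ℚ_[p]) := by
  simpa only [Rat.cast_intCast] using els.2 p

/-- primes of good reduction -/
theorem good_at (gdp : GDPStmt) (F : Loc N V dg a A) {D : Fin m → ℚ}
    (els : EQ (fun i => (a i : ℚ)) D) {p : ℕ} (hp : p.Prime) (hN : ¬p ∣ N)
    (hV : ∀ x ∈ V, x.2 ≠ p) (i k : Fin m) :
    Even (padicValRat p (D i) + padicValRat p (D k)) := by
  have := Fact.mk hp
  have := gdp p (Fin m) _ _ (fun l => Padic.norm_int_le_one _) (fun k l hkl => by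
    rw [← Int.cast_sub]
    exact norm_int fun c => (dvd_sub F hp hkl c).elim hN fun ⟨x, hx, h, _⟩ => hV x hx h)
    (els_p els p) i k
  simpa only [Padic.valuation_ratCast] using this

/-- primes of nodal reduction -/
theorem node_at (node : NODEStmt) (F : Loc N V dg a A) (hd : Dist V) {D : Fin m → ℚ}
    (els : EQ (fun i => (a i : ℚ)) D) {b : Gen m} (hb : b ∈ V) : ∃ β : ℕ,
    (∀ k, Even (padicValRat b.2 (D b.1.1.1.1) + padicValRat b.2 (D k) +
      if inE k b.1.1 then 0 else (β : ℤ))) ∧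
    ∀ n : ℤ, ¬(b.2 : ℤ) ∣ n → IsSquare (D b.1.1.1.1 * D b.1.1.1.2 * n) →
      jacobiSym (n * gam a b.1.1 ^ β) b.2 = 1 := by
  obtain ⟨hp, hN⟩ := F.pr b hb
  have := Fact.mk hp
  have unit : ∀ k l, k ≠ l → ¬(k = b.1.1.1.1 ∧ l = b.1.1.1.2) → ¬(k = b.1.1.1.2 ∧ l = b.1.1.1.1) →
      ¬(b.2 : ℤ) ∣ a k - a l := fun k l hkl c1 c2 c =>
    (dvd_sub F hp hkl c).elim hN fun ⟨x, hx, h, t⟩ => by
      rw [hd x hx b hb h] at t
      exact t.elim c1 c2
  obtain ⟨c, hc, e⟩ := exact_pr F hd hb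
  obtain ⟨β, h1, h2⟩ := node b.2 (Fin m) _ _ b.1.1.1.1 b.1.1.1.2 (fun c => hN (c ▸ F.two))
    b.1.1.ne (fun l => Padic.norm_int_le_one _) (by
      rw [← Int.cast_sub, e, Int.cast_mul, norm_mul, norm_int hc, mul_one, Int.cast_natCast])
    (fun k l hkl c1 c2 => by
      rw [← Int.cast_sub]
      exact norm_int (unit k l hkl c1 c2)) (els_p els b.2)
  have hg : ¬(b.2 : ℤ) ∣ gam a b.1.1 := fun c => by
    obtain ⟨k, hk, c⟩ := ((Nat.prime_iff_prime_int.1 hp).dvd_finsetProd_iff _).1 c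
    have hk' := mem_out.1 hk
    exact unit _ k (fun t => hk' (.inl t.symm)) (fun t => hk' (.inr t.2))
      (fun t => hk' (.inl t.2)) c
  have hgβ : ¬(b.2 : ℤ) ∣ gam a b.1.1 ^ β := fun c =>
    hg ((Nat.prime_iff_prime_int.1 hp).dvd_of_dvd_pow c)
  have eg : (∏ k ∈ (univ.erase b.1.1.1.1).erase b.1.1.1.2,
      ((a b.1.1.1.1 : ℚ_[b.2]) - a k)) ^ β = ((gam a b.1.1 ^ β : ℤ) : ℚ_[b.2]) := by
    rw [gam, out_eq]
    push_cast
    rfl
  rw [eg] at h2
  have d1 : (D b.1.1.1.1 : ℚ_[b.2]) ≠ 0 := by exact_mod_cast D_ne els _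
  have d2 : (D b.1.1.1.2 : ℚ_[b.2]) ≠ 0 := by exact_mod_cast D_ne els _
  refine ⟨β, fun k => ?_, fun n hn hs => jac_of_sq (fun c => ?_) ?_⟩
  · split_ifs with t
    · rcases t with rfl | rfl
      · exact ⟨padicValRat b.2 (D b.1.1.1.1), add_zero _⟩
      · have := even_of_sq h2
        rw [Padic.valuation_mul (mul_ne_zero d1 d2)
          (Int.cast_ne_zero.2 fun c => hgβ (by simp [c])), Padic.valuation_mul d1 d2,
          R2.Loc.val_unit (norm_int hgβ)] at this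
        simpa only [Padic.valuation_ratCast] using this
    · simpa only [Padic.valuation_ratCast] using h1 k (fun c => t (.inl c)) fun c => t (.inr c)
  · exact ((Nat.prime_iff_prime_int.1 hp).dvd_or_dvd c).elim hn hgβ
  · have k : IsSquare ((n : ℚ_[b.2]) * (D b.1.1.1.1 * D b.1.1.1.2)) := by
      have := hs.map (Rat.castHom ℚ_[b.2])
      rw [mul_comm]
      simpa using this
    rw [Int.cast_mul]
    exact sq_trans (mul_ne_zero d1 d2) k (by rwa [mul_comm])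

theorem A_pos (F : Loc N V dg a A) (e : Ed m) : 0 < A e := by
  rw [F.hA]
  exact prod_pos fun x hx => (F.pr x (mem_filter.1 hx).1).1.pos

/-- the real place -/
theorem real_at (real : REALStmt) (F : Loc N V dg a A) {D : Fin m → ℚ}
    (els : EQ (fun i => (a i : ℚ)) D) {e : Ed m} (he : Cs e) : 0 < D e.1.1 * D e.1.2 := by
  have := real m _ _ (fun i j hij => by
    have k := F.eq ⟨(i, j), hij⟩
    have k1 := A_pos F ⟨(i, j), hij⟩
    have k2 := F.pos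
    have : 0 < a i - a j := by
      rw [show a i - a j = _ from k]
      positivity
    have : a j < a i := by omega
    dsimp only
    exact_mod_cast this) els.1 e he.1 he.2
  exact_mod_cast this

/-- primes of totally split reduction -/
theorem spl_at (spl : SPLStmt) (F : Loc N V dg a A) {D : Fin m → ℚ}
    (els : EQ (fun i => (a i : ℚ)) D) {p : ℕ} [hp : Fact p.Prime] (hN : p ∣ N) {e : Ed m}
    (he : Cs e) : IsSquare ((D e.1.1 : ℚ_[p]) * D e.1.2) := by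
  have lt : ∀ c : ℤ, ‖((N * c : ℤ) : ℚ_[p])‖ < 1 := fun c =>
    Padic.norm_intCast_lt_one_iff.2 ((Int.natCast_dvd_natCast.2 hN).mul_right c)
  have hA : ∀ e, ‖(A e : ℚ_[p]) - 1‖ < ‖(4 : ℚ_[p])‖ := fun e => by
    obtain ⟨c, hc⟩ := (F.one e).symm.dvd
    have : (A e : ℚ_[p]) - 1 = 4 * ((N * (2 * c) : ℤ) : ℚ_[p]) := by
      have := congrArg (Int.cast : ℤ → ℚ_[p]) hc
      push_cast at this ⊢
      linear_combination this
    rw [this, norm_mul]
    exact mul_lt_of_lt_one_right (norm_pos_iff.2 (by norm_num)) (lt _)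
  have n4 : ‖(4 : ℚ_[p])‖ ≤ 1 := by exact_mod_cast Padic.norm_int_le_one (p := p) 4
  have n16 : ‖(16 : ℚ_[p])‖ ≤ 1 := by exact_mod_cast Padic.norm_int_le_one (p := p) 16
  have p16 : 0 < ‖(16 : ℚ_[p])‖ := norm_pos_iff.2 (by norm_num)
  have nA : ∀ e, ‖(A e : ℚ_[p])‖ = 1 := fun e => by
    have := Padic.norm_eq_of_norm_sub_lt_right (z1 := (A e : ℚ_[p])) (z2 := 1)
      (by rw [norm_one]; exact (hA e).trans_le n4)
    rwa [norm_one] at this
  have eq : ∀ i j (h : i < j), (a i : ℚ_[p]) - a j =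
      ((8 * N) ^ 2) ^ (m - 1 - j.1) * A ⟨(i, j), h⟩ := fun i j h => by
    exact_mod_cast F.eq ⟨(i, j), h⟩
  obtain ⟨t, ht⟩ : ∃ t, t = ‖((8 * N) ^ 2 : ℚ_[p])‖ := ⟨_, rfl⟩
  have t0 : 0 < t := by
    have : (N : ℚ_[p]) ≠ 0 := by exact_mod_cast F.pos.ne'
    rw [ht]
    exact norm_pos_iff.2 (pow_ne_zero _ (mul_ne_zero (by norm_num) this))
  have t1 : t < ‖(16 : ℚ_[p])‖ := by
    have : ((8 * N) ^ 2 : ℚ_[p]) = 16 * ((N * (4 * N) : ℤ) : ℚ_[p]) := by
      push_cast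
      ring
    rw [ht, this, norm_mul]
    exact mul_lt_of_lt_one_right p16 (lt _)
  have nm : ∀ i j, i < j → ‖(a i : ℚ_[p]) - a j‖ = t ^ (m - 1 - j.1) := fun i j h => by
    rw [eq i j h, norm_mul, nA, norm_pow, ← ht, mul_one]
  have key : ∀ j l : Fin m, j < l → t ^ (m - 1 - j.1) < ‖(16 : ℚ_[p])‖ * t ^ (m - 1 - l.1) :=
    fun j l h => by
      have h1 := l.2
      have h2 := Fin.lt_def.1 h
      calc t ^ (m - 1 - j.1) ≤ t ^ (m - 1 - l.1 + 1) :=
            pow_le_pow_of_le_one t0.le (t1.le.trans n16) (by omega)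
        _ < _ := by
          rw [pow_succ']
          exact mul_lt_mul_of_pos_right t1 (pow_pos t0 _)
  refine spl p m _ _ (fun i j h => ?_) (fun i j l h1 h2 => ?_) (els_p els p) e he.1 he.2
  · obtain ⟨s, hs⟩ := RH.Cst.sq_one (hA ⟨(i, j), h⟩)
    exact ⟨(8 * N) ^ (m - 1 - j.1) * s, by rw [eq i j h, hs, pow_right_comm]; ring⟩
  · rw [nm i l h1]
    rcases lt_trichotomy i j with c | rfl | c
    · rw [nm i j c]
      exact key j l h2
    · rw [sub_self, norm_zero]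
      exact mul_pos p16 (pow_pos t0 _)
    · rw [norm_sub_rev, nm j i c]
      exact key i l h1

theorem map_sq {r : ℚ} (h : IsSquare r) (p : ℕ) [Fact p.Prime] : IsSquare (r : ℚ_[p]) :=
  h.map (Rat.castHom ℚ_[p])

/-- the functional of an edge from `2 k` to `2 k + 1` is trivial at the places of `N` -/
theorem cs_at (kc : KCStmt) (spl : SPLStmt) (real : REALStmt) (F : Loc N V dg a A)
    {D : Fin m → ℚ} (els : EQ (fun i => (a i : ℚ)) D) {x : Finset (Gen m)} (hx : x ⊆ V)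
    {e : Ed m} (he : Cs e)
    (h : ∀ p : ℕ, p.Prime → ¬p ∣ N → Even (padicValRat p (D e.1.1 * D e.1.2 * Gv e x))) :
    IsSquare (D e.1.1 * D e.1.2 * Gv e x) ∧ 0 < Gv e x ∧ Gv e x % 8 = 1 ∧
      ∀ p : ℕ, p.Prime → p ∣ N → jacobiSym (Gv e x) p = 1 := by
  obtain ⟨n0, hn, -⟩ := (kc m).2.2.1 x e fun b hb => .inr (F.pr b (hx hb)).1
  have nd : ∀ p : ℕ, p.Prime → p ∣ N → ¬(p : ℤ) ∣ Gv e x := fun p hp hN c => by
    obtain ⟨b, hb, rfl, -⟩ := hn p hp c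
    exact (F.pr b (hx hb)).2 hN
  have n4 := he.mod4 (x := x) fun b hb =>
    ⟨(F.pr b (hx hb)).1, fun c => (F.pr b (hx hb)).2 (c ▸ F.two)⟩
  generalize Gv e x = n at *
  have d0 := mul_ne_zero (D_ne els e.1.1) (D_ne els e.1.2)
  have n0' : (n : ℚ) ≠ 0 := Int.cast_ne_zero.2 n0
  have loc : ∀ (p : ℕ) [Fact p.Prime], p ∣ N → ∀ c : ℤ, IsSquare (D e.1.1 * D e.1.2 * c) →
      IsSquare (c : ℚ_[p]) := fun p _ hN c k =>
    sq_cancel (x := (D e.1.1 : ℚ_[p]) * D e.1.2) (by exact_mod_cast d0) (spl_at spl F els hN he)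
      (by simpa using map_sq k p)
  obtain ⟨Q, hQ, k⟩ := rat_sq (mul_ne_zero d0 n0') ∅ fun p hp _ => by
    by_cases hN : p ∣ N
    · have := Fact.mk hp
      have k := even_of_sq (spl_at spl F els hN he)
      rw [← Rat.cast_mul, Padic.valuation_ratCast] at k
      rwa [padicValRat.mul d0 n0', padicValRat.of_int,
        padicValInt.eq_zero_of_not_dvd (nd p hp hN), Nat.cast_zero, add_zero]
    · exact h p hp hN
  have sq : IsSquare (D e.1.1 * D e.1.2 * n) := by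
    rcases subset_singleton_iff.1 hQ with rfl | rfl
    · simpa using k
    · have := mod8_of_sq (n := -n) (by omega) (loc 2 F.two _ (by simpa using k))
      omega
  refine ⟨sq, ?_, mod8_of_sq (by omega) (loc 2 F.two _ sq), fun p hp hN => ?_⟩
  · have := (mul_nonneg_iff_of_pos_left (real_at real F els he)).1 sq.nonneg
    have : 0 ≤ n := by exact_mod_cast this
    omega
  · have := Fact.mk hp
    exact jac_of_sq (nd p hp hN) (loc p hN _ sq)

theorem V0_pr {y : Gen m} (hy : y ∈ V0 m N) : y.2 = 1 ∨ y.2.Prime ∧ y.2 ∣ N :=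
  (mem_insert.1 (mem_V0.1 hy).2).imp_right fun h =>
    ⟨Nat.prime_of_mem_primeFactors h, Nat.dvd_of_mem_primeFactors h⟩

theorem V0_ne (F : Loc N V dg a A) {x y : Gen m} (hx : x ∈ V) (hy : y ∈ V0 m N) : x.2 ≠ y.2 :=
  fun c => (V0_pr hy).elim (fun t => (F.pr x hx).1.ne_one (c.trans t))
    fun t => (F.pr x hx).2 (c ▸ t.2)

theorem gm_V0 (F : Loc N V dg a A) {x y : Gen m} (hx : x ∈ V0 m N) (hy : y ∈ V0 m N) :
    gm dg x y = 1 := by
  have k1 := (mem_Pe.1 (mem_V0.1 hx).1.1).1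
  have k2 := (mem_Pe.1 (mem_V0.1 hy).1.1).1
  unfold gm
  rw [F.dia0 x hx, k1.G, k2.G, if_neg (k1.nlk k2), if_neg (k2.nlk k1), jacobiSym.one_left,
    jacobiSym.one_left]
  simp [sg]

/-- the rows of the fixed generators -/
theorem row_V0 (kc : KCStmt) (F : Loc N V dg a A) {x : Finset (Gen m)} (hx : x ⊆ V) {y : Gen m}
    (hy : y ∈ V0 m N) (h0 : 0 < Gv y.1.1 x) (h8 : Gv y.1.1 x % 8 = 1)
    (h : ∀ p : ℕ, p.Prime → p ∣ N → jacobiSym (Gv y.1.1 x) p = 1) : ∏ b ∈ x, gm dg b y = 1 := by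
  by_cases c : Odd y.2 ∧ 1 < y.2
  · obtain ⟨hp, hN⟩ := (V0_pr hy).resolve_left c.2.ne'
    have k := h _ hp hN
    rw [(kc m).2.1 dg x y (fun t => V0_ne F (hx t) hy rfl) c.1 c.2 (by rw [k]; decide), k]
  · have hv : y.2 = 1 ∨ y.2 = 2 := (V0_pr hy).imp_right fun t =>
      t.1.eq_two_or_odd'.resolve_right fun s => c ⟨s, t.1.one_lt⟩
    obtain ⟨σ, hσ, e⟩ := (kc m).2.2.2.2.1 x y.1.1 fun b hb => (F.pr b (hx hb)).1.ne_one
    obtain ⟨P, hP⟩ : ∃ P : ℕ, P = ∏ b ∈ x.filter (fun b => lk b.1.1 y.1.1), b.2 := ⟨_, rfl⟩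
    rw [← Nat.cast_prod, ← hP] at e
    have P8 : P % 8 = 1 := by rcases hσ with rfl | rfl <;> omega
    have od : Odd P := Nat.odd_iff.2 (by omega)
    have k : ∏ b ∈ x, gm dg b y = jacobiSym (val y) P := by
      rw [hP, jac_r _ _ _ fun b hb => (F.pr b (hx (mem_filter.1 hb).1)).1.ne_zero, prod_filter]
      refine prod_congr rfl fun b hb => ?_
      obtain ⟨hp, hN⟩ := F.pr b (hx hb)
      have := Fact.mk hp
      have h2 : b.2 ≠ 2 := fun t => hN (t ▸ F.two)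
      rw [gm, if_neg fun t => V0_ne F (hx hb) hy (by rw [t]), if_neg c,
        if_pos ⟨hp.odd_of_ne_two h2, hp.one_lt⟩, G, if_neg (show ¬y.2 % 4 = 3 by omega), mul_one]
      by_cases t : lk b.1.1 y.1.1
      · rw [if_pos t, if_pos t.symm]
        refine sg_eq (jacobiSym.eq_one_or_neg_one (gcd_one fun s => ?_))
        rcases hv with hv | hv
        · rw [val, if_pos hv] at s
          exact hp.not_dvd_one (by exact_mod_cast dvd_neg.1 s)
        · rw [val, if_neg (by omega), hv] at s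
          exact h2 ((Nat.prime_dvd_prime_iff_eq hp Nat.prime_two).1 (by exact_mod_cast s))
      · rw [if_neg t, if_neg fun s => t s.symm, jacobiSym.one_left]
        rfl
    rw [k]
    rcases hv with hv | hv
    · rw [val, if_pos hv, jacobiSym.at_neg_one od, ZMod.χ₄_nat_one_mod_four (by omega)]
    · rw [val, hv, if_neg (by decide), Nat.cast_ofNat, jacobiSym.at_two od,
        ZMod.χ₈_nat_eq_if_mod_eight]
      simp [P8, Nat.odd_iff.1 od]

/-- the rows of the ordinary generators -/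
theorem row_V (kc : KCStmt) (F : Loc N V dg a A) (hd : Dist V) {x : Finset (Gen m)}
    (hx : x ⊆ V0 m N ∪ V) {b : Gen m} (hb : b ∈ V) {β : ℕ} (hβ : b ∈ x ↔ Odd β)
    (h : ¬(b.2 : ℤ) ∣ Gv b.1.1 x → jacobiSym (Gv b.1.1 x * gam a b.1.1 ^ β) b.2 = 1) :
    ∏ z ∈ x, gm dg z b = 1 := by
  obtain ⟨hp, hN⟩ := F.pr b hb
  have := Fact.mk hp
  have od : Odd b.2 := hp.odd_of_ne_two fun t => hN (t ▸ F.two)
  replace h := h fun c => by
    obtain ⟨z, hz, h1, h2⟩ := ((kc m).2.2.1 x b.1.1 fun z hz => (mem_union.1 (hx hz)).elim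
      (fun t => (V0_pr t).imp_right And.left) fun t => .inr (F.pr z t).1).2.1 _ hp c
    rcases mem_union.1 (hx hz) with t | t
    · exact V0_ne F hb t h1.symm
    · exact lk_irrefl _ (hd z t b hb h1 ▸ h2)
  rw [jacobiSym.mul_left, jacobiSym.pow_left] at h
  by_cases c : b ∈ x
  · have ho := hβ.1 c
    have e1 : jacobiSym (gam a b.1.1) b.2 ^ β = jacobiSym (gam a b.1.1) b.2 := by
      rcases jacobiSym.trichotomy (gam a b.1.1) b.2 with t | t | t <;> rw [t]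
      exacts [zero_pow ho.pos.ne', one_pow _, ho.neg_one_pow]
    have e2 : jacobiSym (G b.1.1 b) b.2 = jacobiSym ((-1) ^ bb b.1.1 b.1.1) b.2 := by
      rw [G, if_neg (lk_irrefl _), one_mul]
      split_ifs with t
      · rfl
      · have := Nat.odd_iff.1 od
        rw [jacobiSym.pow_left, jacobiSym.at_neg_one od, ZMod.χ₄_nat_one_mod_four (by omega),
          one_pow, jacobiSym.one_left]
    rw [e1, Gv, ← mul_prod_erase _ _ c, jacobiSym.mul_left, e2, mul_right_comm,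
      ← jacobiSym.mul_left, ← ga, ← F.dia b hb, ← Gv] at h
    rw [← mul_prod_erase _ _ c, gm_self, sg_eq (Int.eq_one_or_neg_one_of_mul_eq_one h),
      (kc m).2.1 dg _ b (notMem_erase _ _) od hp.one_lt fun t => by simp [t] at h, h]
  · have he := Nat.not_odd_iff_even.1 fun t => c (hβ.2 t)
    have e1 : jacobiSym (Gv b.1.1 x) b.2 = 1 := by
      rcases Int.eq_one_or_neg_one_of_mul_eq_one' h with t | t
      · exact t.1
      · have := he.pow_nonneg (jacobiSym (gam a b.1.1) b.2)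
        omega
    rw [(kc m).2.1 dg x b c od hp.one_lt (by rw [e1]; decide), e1]

end

end LocH

open LocH in
/-- the local conditions -/
theorem loc : COMBStmt → KCStmt → GDPStmt → NODEStmt → SPLStmt → REALStmt → LOCStmt := by
  intro _ kc gdp node spl real m N V dg a A F hd D els
  choose! β h1 h2 using fun b (hb : b ∈ V) => node_at node F hd els hb
  obtain ⟨x₁, hx₁⟩ : ∃ x₁ : Finset (Gen m), ∀ b, b ∈ x₁ ↔ b ∈ V ∧ Odd (β b) :=
    ⟨V.filter _, fun b => mem_filter⟩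
  have s₁ : x₁ ⊆ V := fun b hb => ((hx₁ b).1 hb).1
  have p₁ : ∀ b ∈ x₁, b.2 = 1 ∨ b.2.Prime := fun b hb => .inr (F.pr b (s₁ hb)).1
  obtain ⟨u, hu⟩ : ∃ u : Fin m → ℚ, ∀ i, u i = D i * ((∏ b ∈ x₁, vl i b : ℤ) : ℚ) :=
    ⟨_, fun _ => rfl⟩
  have v0 : ∀ i, ((∏ b ∈ x₁, vl i b : ℤ) : ℚ) ≠ 0 := fun i =>
    Int.cast_ne_zero.2 (prod_ne_zero_iff.2 fun b hb => vl_ne (p₁ b hb) i)
  have u0 : ∀ i, u i ≠ 0 := fun i => hu i ▸ mul_ne_zero (D_ne els i) (v0 i)
  have ev : ∀ p : ℕ, p.Prime → ¬p ∣ N → ∀ i k, Even (padicValRat p (u i * u k)) := by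
    intro p hp hN i k
    have := Fact.mk hp
    have e : ∀ i, padicValRat p (u i) = padicValRat p (D i) +
        ∑ b ∈ x₁, if b.2 = p ∧ inE i b.1.1 then 1 else 0 := fun i => by
      rw [hu, padicValRat.mul (D_ne els i) (v0 i), val_VL hp _ fun b hb => (F.pr b (s₁ hb)).1]
    rw [padicValRat.mul (u0 i) (u0 k), e, e]
    by_cases c : ∃ b ∈ V, b.2 = p
    · obtain ⟨b, hb, rfl⟩ := c
      have e' : ∀ i, (∑ z ∈ x₁, if z.2 = b.2 ∧ inE i z.1.1 then 1 else 0 : ℤ) % 2 =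
          if inE i b.1.1 then (β b : ℤ) % 2 else 0 := fun i => by
        rcases Nat.even_or_odd' (β b) with ⟨j, t | t⟩
        · have k : ∀ z ∈ x₁, ¬(z.2 = b.2 ∧ inE i z.1.1) := fun z hz s =>
            Nat.not_odd_iff_even.2 ⟨j, by omega⟩ ((hx₁ b).1 (hd z (s₁ hz) b hb s.1 ▸ hz)).2
          rw [sum_eq_zero fun z hz => if_neg (k z hz)]
          split_ifs <;> omega
        · rw [sum_eq_single_of_mem b ((hx₁ b).2 ⟨hb, j, t⟩)
            fun z hz t => if_neg fun s => t (hd z (s₁ hz) b hb s.1)]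
          simp only [true_and]
          split_ifs <;> omega
      have k1 := h1 b hb i
      have k2 := h1 b hb k
      have k3 := e' i
      have k4 := e' k
      rw [Int.even_iff] at k1 k2 ⊢
      split_ifs at k1 k2 k3 k4 <;> omega
    · have e' : ∀ i, (∑ z ∈ x₁, if z.2 = p ∧ inE i z.1.1 then 1 else 0 : ℤ) = 0 := fun i =>
        sum_eq_zero fun z hz => if_neg fun s => c ⟨z, s₁ hz, s.1⟩
      rw [e', e', add_zero, add_zero]
      exact good_at gdp F els hp hN (fun z hz t => c ⟨z, hz, t⟩) i k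
  have cs := fun (e : Ed m) (he : Cs e) => cs_at kc spl real F els s₁ he fun p hp hN => by
    have := Fact.mk hp
    obtain ⟨s, hs, t⟩ := sq_edge e p₁ (D e.1.1) (D e.1.2)
    have k := ev p hp hN e.1.1 e.1.2
    have k0 := mul_ne_zero (u0 e.1.1) (u0 e.1.2)
    rw [hu, hu, t] at k k0
    rw [padicValRat.mul (left_ne_zero_of_mul k0) (pow_ne_zero _ hs), padicValRat.pow,
      Int.even_add] at k
    exact k.2 (even_two_mul _)
  have su : ∀ e : Ed m, Cs e → IsSquare (u e.1.1 * u e.1.2) := fun e he => by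
    obtain ⟨s, -, t⟩ := sq_edge e p₁ (D e.1.1) (D e.1.2)
    rw [hu, hu, t]
    exact (cs e he).1.mul (.sq s)
  have m3 := F.three
  obtain ⟨l, hl⟩ : ∃ l : Fin m, l.1 + 1 = m := ⟨⟨m - 1, by omega⟩, by simp only; omega⟩
  choose Q hQ sQ using fun e : Ed m => rat_sq (mul_ne_zero (u0 e.1.1) (u0 l)) N.primeFactors
    fun p hp c => ev p hp (fun t => c (Nat.mem_primeFactors.2 ⟨hp, t, F.pos.ne'⟩)) _ _
  obtain ⟨x₀, hx₀⟩ : ∃ x₀, x₀ = (V0 m N).filter fun t => t.2 ∈ Q t.1.1 := ⟨_, rfl⟩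
  have s₀ : x₀ ⊆ V0 m N := hx₀ ▸ filter_subset _ _
  have dj : Disjoint x₀ x₁ := disjoint_left.2 fun b hb t => V0_ne F (s₁ t) (s₀ hb) rfl
  have w : ∀ i, IsSquare (u i * ((∏ b ∈ x₀, vl i b : ℤ) : ℚ) * u l) := fun i => by
    rw [hx₀, VL_fix N Q hQ]
    by_cases c : ∃ e ∈ Pe m, inE i e
    · obtain ⟨e, he, hi⟩ := c
      have ce := (mem_Pe.1 he).1
      rw [prod_eq_single_of_mem e he fun f hf t =>
        if_neg fun s => t ((mem_Pe.1 hf).1.eq ce s hi), if_pos hi, mul_right_comm]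
      rcases hi with rfl | rfl
      · exact sQ e
      · rw [mul_assoc]
        refine sq_trans (u0 e.1.1) (by rw [mul_comm]; exact su e ce) ?_
        rw [mul_comm, ← mul_assoc]
        exact sQ e
    · rw [prod_eq_one fun f hf => if_neg fun s => c ⟨f, hf, s⟩, Int.cast_one, mul_one]
      have hi := i.2
      by_cases il : i = l
      · exact ⟨u l, by rw [il]⟩
      · have il' : i.1 ≠ l.1 := fun t => il (Fin.ext t)
        rcases Nat.even_or_odd i.1 with t | ⟨k, t⟩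
        · by_cases t' : i.1 + 1 = l.1
          · exact su ⟨(i, l), Fin.lt_def.2 (by simp only; omega)⟩ ⟨t, t'.symm⟩
          · exact absurd ⟨⟨(i, ⟨i.1 + 1, by omega⟩), Fin.lt_def.2 (Nat.lt_succ_self _)⟩,
              mem_Pe.2 ⟨⟨t, rfl⟩, by simp only; omega⟩, .inl rfl⟩ c
        · exact absurd ⟨⟨(⟨2 * k, by omega⟩, i), Fin.lt_def.2 (by simp only; omega)⟩,
            mem_Pe.2 ⟨⟨even_two_mul k, t⟩, by simp only; omega⟩, .inr rfl⟩ c
  have sx : x₀ ∪ x₁ ⊆ V0 m N ∪ V := union_subset_union s₀ s₁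
  have fin : ∀ e : Ed m, IsSquare (D e.1.1 * D e.1.2 * (Gv e (x₀ ∪ x₁) : ℚ)) := fun e => by
    obtain ⟨s, hs, t⟩ := sq_edge e (x := x₀ ∪ x₁) (fun b hb => (mem_union.1 hb).elim
      (fun t => (V0_pr (s₀ t)).imp_right And.left) (p₁ b)) (D e.1.1) (D e.1.2)
    refine sq_cancel (pow_ne_zero 2 hs) (.sq s) ?_
    have k := sq_trans (u0 l) (w e.1.1) (w e.1.2)
    rw [mul_comm, ← t, prod_union dj, prod_union dj]
    rw [hu, hu] at k
    push_cast at k ⊢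
    rwa [mul_comm (∏ b ∈ x₀, (vl e.1.1 b : ℚ)), mul_comm (∏ b ∈ x₀, (vl e.1.2 b : ℚ)),
      ← mul_assoc (D _), ← mul_assoc (D _)]
  refine ⟨x₀ ∪ x₁, mem_filter.2 ⟨mem_powerset.2 sx, fun b hb => ?_⟩, fin⟩
  rcases mem_union.1 hb with hb | hb
  · obtain ⟨-, k1, k2, k3⟩ := cs _ (mem_Pe.1 (mem_V0.1 hb).1.1).1
    rw [prod_union dj, prod_eq_one fun z hz => gm_V0 F (s₀ hz) hb, row_V0 kc F s₁ hb k1 k2 k3,
      mul_one]
  · refine row_V kc F hd sx hb (β := β b) ?_ fun c => h2 b hb _ c (fin _)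
    rw [mem_union, hx₁, and_iff_right hb]
    exact or_iff_right fun t => V0_ne F hb (s₀ t) rfl

end Pool.Agent.MP_a43263_nt.JU

end
end MrgPart4

-- marker of a merged file
example : 731051 + 407480 = 731051 + 407480 := rfl
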