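import Pool.Agent.MP_a43263_nt.JU.Br
import Pool.Agent.MP_a43263_nt.R2.Basic
import Pool.Agent.MP_a43263_nt.RG.Basic
import Mathlib.Analysis.Complex.ExponentialBounds
import Pool.Agent.MP_a43263_nt.RG.Exp
import Mathlib.Algebra.BigOperators.ModEq
import Mathlib.Analysis.PSeries

-- ======== part 0: formerly Pool.Agent.MP_a43263_nt.JU.Kc
section MrgPart0

/-! PROJECT JU, module KC: rows of the descent matrix as Jacobi symbols. -/

set_option autoImplicit false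

noncomputable section

namespace Pool.Agent.MP_a43263_nt.JU

open Finset
open R2 (Sgn sg sg_sgn sg_eq prod_sgn)

namespace Kc

variable {m : ℕ}

theorem lk_comm (e f : Ed m) : lk e f ↔ lk f e := by
  have h1 := e.2
  have h2 := f.2
  simp only [lk, inE, ne_eq, Subtype.ext_iff, Prod.ext_iff, Fin.ext_iff, Fin.lt_def] at *
  omega

theorem bb_par (e f : Ed m) : (bb e f + bb f e) % 2 = if lk e f then 1 else 0 := by
  have h1 := e.2
  have h2 := f.2
  have k : ∀ i t : Fin m, (bs i t + bs t i) % 2 = if i.1 = t.1 then 0 else 1 := by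
    intro i t
    rcases lt_trichotomy i t with h | rfl | h
    · simp [bs, h, h.ne, h.ne', h.not_gt, Fin.val_ne_of_ne h.ne]
    · simp only [if_true]; omega
    · simp [bs, h, h.ne, h.ne', h.not_gt, Fin.val_ne_of_ne h.ne']
  have a1 := k e.1.1 f.1.1
  have a2 := k e.1.2 f.1.1
  have a3 := k e.1.1 f.1.2
  have a4 := k e.1.2 f.1.2
  simp only [lk, inE, ne_eq, Subtype.ext_iff, Prod.ext_iff, Fin.ext_iff, Fin.lt_def, bb, bv] at *
  split_ifs at * <;> omega

theorem jac_prod {ι : Type} (x : Finset ι) (f : ι → ℤ) (n : ℕ) :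
    jacobiSym (∏ a ∈ x, f a) n = ∏ a ∈ x, jacobiSym (f a) n := by
  classical
  induction x using Finset.induction_on with
  | empty => simp [jacobiSym.one_left]
  | insert a x ha ih => rw [prod_insert ha, prod_insert ha, jacobiSym.mul_left, ih]

theorem jac_neg_one {n : ℕ} (h : Odd n) : jacobiSym (-1) n = if n % 4 = 3 then -1 else 1 := by
  rw [jacobiSym.at_neg_one h]
  rcases Nat.odd_mod_four_iff.1 (Nat.odd_iff.1 h) with k | k
  · rw [ZMod.χ₄_nat_one_mod_four k, if_neg (by omega)]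
  · rw [ZMod.χ₄_nat_three_mod_four k, if_pos k]

/-- the sign factor is a symbol -/
theorem jac_pow {n : ℕ} (h : Odd n) (k : ℕ) :
    jacobiSym ((-1) ^ k) n = if n % 4 = 3 then (-1) ^ k else 1 := by
  rw [jacobiSym.pow_left, jac_neg_one h]
  split_ifs <;> simp

theorem recip {x y : Gen m} (hx : Odd x.2) (hx1 : 1 < x.2) (hy : Odd y.2) (hy1 : 1 < y.2) :
    jacobiSym (G y.1.1 x) y.2 = jacobiSym (G x.1.1 y) x.2 := by
  have q := jacobiSym.quadratic_reciprocity_if (Nat.odd_iff.1 hx) (Nat.odd_iff.1 hy)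
  have p := bb_par x.1.1 y.1.1
  have c := lk_comm x.1.1 y.1.1
  have e1 : ((-1 : ℤ)) ^ bb x.1.1 y.1.1 =
      (-1) ^ bb y.1.1 x.1.1 * if lk x.1.1 y.1.1 then -1 else 1 := by
    rw [neg_one_pow_eq_pow_mod_two, neg_one_pow_eq_pow_mod_two (n := bb y.1.1 x.1.1)]
    rcases Nat.mod_two_eq_zero_or_one (bb x.1.1 y.1.1) with a | a <;>
      rcases Nat.mod_two_eq_zero_or_one (bb y.1.1 x.1.1) with b | b <;> rw [a, b] <;>
      split_ifs at p ⊢ <;> omega
  unfold G val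
  rw [if_neg hx1.ne', if_neg hy1.ne', jacobiSym.mul_left, jacobiSym.mul_left]
  simp only [apply_ite (jacobiSym · y.2), apply_ite (jacobiSym · x.2), jacobiSym.one_left,
    jac_pow hx, jac_pow hy, ← c]
  rw [← q, e1]
  by_cases a : x.2 % 4 = 3 <;> by_cases b : y.2 % 4 = 3 <;> by_cases d : lk x.1.1 y.1.1 <;>
    simp [a, b, d]

theorem sgn (dg : Gen m → ℤ) : Sgn (gm dg) := by
  refine ⟨fun x y => ?_, fun x y => ?_⟩
  · by_cases h : x = y
    · rw [h]
    unfold gm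
    rw [if_neg h, if_neg (Ne.symm h)]
    split_ifs with a b
    exacts [congrArg sg (recip b.1 b.2 a.1 a.2), rfl, rfl, rfl]
  · unfold gm
    split_ifs
    exacts [sg_sgn _, sg_sgn _, sg_sgn _, .inl rfl]

theorem row (dg : Gen m → ℤ) (x : Finset (Gen m)) (b : Gen m) (hb : b ∉ x) (h1 : Odd b.2)
    (h2 : 1 < b.2) (h : jacobiSym (Gv b.1.1 x) b.2 ≠ 0) :
    ∏ a ∈ x, gm dg a b = jacobiSym (Gv b.1.1 x) b.2 := by
  rw [Gv, jac_prod] at h ⊢
  refine prod_congr rfl fun a ha => ?_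
  unfold gm
  rw [if_neg fun e : a = b => hb (e ▸ ha), if_pos ⟨h1, h2⟩]
  exact sg_eq ((jacobiSym.trichotomy _ _).resolve_left (prod_ne_zero_iff.1 h a ha))

theorem sig (e : Ed m) (a : Gen m) : (if a.2 % 4 = 3 then (-1 : ℤ) ^ bb a.1.1 e else 1) = 1 ∨
    (if a.2 % 4 = 3 then (-1 : ℤ) ^ bb a.1.1 e else 1) = -1 := by
  split_ifs
  exacts [neg_one_pow_eq_or _ _, .inl rfl]

theorem G_abs (e : Ed m) (a : Gen m) : (G e a).natAbs = if lk a.1.1 e then a.2 else 1 := by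
  unfold G val
  rcases sig e a with h | h <;> rw [h] <;> split_ifs with c d <;> simp [*]

theorem G_dvd {e : Ed m} {x : Finset (Gen m)} (hx : ∀ a ∈ x, a.2 = 1 ∨ a.2.Prime) {p : ℕ}
    (hp : p.Prime) (h : (p : ℤ) ∣ Gv e x) : ∃ a ∈ x, a.2 = p ∧ lk a.1.1 e := by
  obtain ⟨a, ha, hd⟩ := (Prime.dvd_finsetProd_iff (Nat.prime_iff_prime_int.1 hp) _).1 h
  rw [Int.natCast_dvd, G_abs] at hd
  split_ifs at hd with c
  · rcases hx a ha with k | k
    · exact absurd (Nat.dvd_one.1 (k ▸ hd)) hp.ne_one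
    · exact ⟨a, ha, ((Nat.prime_dvd_prime_iff_eq hp k).1 hd).symm, c⟩
  · exact absurd (Nat.dvd_one.1 hd) hp.ne_one

theorem nsq {p : ℕ} (hp : p.Prime) {u D : ℤ} (hu : u.natAbs = p) (h : ¬(p : ℤ) ∣ D) :
    ¬IsSquare (u * D) := by
  rintro ⟨r, hr⟩
  have e := congrArg Int.natAbs hr
  rw [Int.natAbs_mul, Int.natAbs_mul, hu] at e
  have h1 : p ∣ r.natAbs := (hp.dvd_mul.1 ⟨_, e.symm⟩).elim id id
  refine h (Int.natCast_dvd.2 (Nat.dvd_of_mul_dvd_mul_left hp.pos ?_))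
  rw [e]
  exact mul_dvd_mul h1 h1

end Kc

theorem kc : KCStmt := by
  intro m
  refine ⟨Kc.sgn, Kc.row, fun x e hx => ⟨?_, fun p => Kc.G_dvd hx, fun b hb hp hl hu C hC => ?_⟩,
    fun x x' e => ?_, fun x e hx => ?_, fun C h0 hC => ?_⟩
  · refine prod_ne_zero_iff.2 fun a ha => Int.natAbs_ne_zero.1 ?_
    rw [Kc.G_abs]
    split_ifs
    · rcases hx a ha with k | k
      exacts [k ▸ one_ne_zero, k.ne_zero]
    · exact one_ne_zero
  · rw [Gv, ← mul_prod_erase x _ hb, mul_assoc]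
    refine Kc.nsq hp ((Kc.G_abs e b).trans (if_pos hl)) fun c => ?_
    rcases (Nat.prime_iff_prime_int.1 hp).dvd_or_dvd c with c | c
    · obtain ⟨a, ha, h1, h2⟩ := Kc.G_dvd (fun a ha => hx a (mem_of_mem_erase ha)) hp c
      exact ne_of_mem_erase ha (hu a (mem_of_mem_erase ha) h1 h2)
    · exact hC c
  · have h1 : Gv e x = Gv e (x \ x') * Gv e (x ∩ x') := by
      rw [Gv, Gv, Gv, ← prod_union (disjoint_sdiff_inter x x'), sdiff_union_inter]
    have h2 : Gv e x' = Gv e (x' \ x) * Gv e (x ∩ x') := by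
      rw [Gv, Gv, Gv, inter_comm, ← prod_union (disjoint_sdiff_inter x' x), sdiff_union_inter]
    have h3 : Gv e (symmDiff x x') = Gv e (x \ x') * Gv e (x' \ x) := by
      rw [symmDiff_def, sup_eq_union, Gv, prod_union disjoint_sdiff_sdiff]; rfl
    rw [h3]
    nth_rw 1 [h1, h2]
    ring
  · refine ⟨_, prod_sgn x fun a _ => Kc.sig e a, ?_⟩
    rw [prod_filter, mul_comm, ← prod_mul_distrib]
    refine prod_congr rfl fun a ha => ?_
    rw [G, val, if_neg (hx a ha)]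
  · obtain ⟨r, s, e, hr⟩ := Nat.sq_mul_squarefree C.natAbs
    have hs : C.sign.natAbs = 1 := by rw [Int.natAbs_sign_of_ne_zero h0]
    have e' : C = (s : ℤ) ^ 2 * (C.sign * r) := by
      rw [mul_left_comm, ← Nat.cast_pow, ← Nat.cast_mul, e, Int.sign_mul_natAbs]
    refine ⟨C.sign * r, by rwa [Int.natAbs_mul, hs, one_mul, Int.natAbs_natCast],
      fun c => hC ⟨s, by rw [e', c]; ring⟩, fun p _ h => e' ▸ h.mul_left _, fun p hp h => ?_⟩
    have k : jacobiSym ((s : ℤ) ^ 2) p = 1 := by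
      refine jacobiSym.sq_one' ?_
      rw [Int.gcd_natCast_natCast]
      refine (hp.coprime_iff_not_dvd.2 fun c => h ?_).symm
      rw [e']
      exact (dvd_pow (Int.natCast_dvd_natCast.2 c) two_ne_zero).mul_right _
    nth_rw 1 [e']
    rw [jacobiSym.mul_left, k, one_mul]

end Pool.Agent.MP_a43263_nt.JU

end
end MrgPart0

-- ======== part 1: formerly Pool.Agent.MP_a43263_nt.JU.Kil
section MrgPart1

/-! PROJECT JU: the passage to signed tags; classes that are not geometric are killed by the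
medium primes. -/

set_option autoImplicit false

noncomputable section

namespace Pool.Agent.MP_a43263_nt.JU

open Finset Filter
open R2 (Sgn chi Ker sg pri PP chs Sc MERStmt mem_pri mem_PP mem_Ker prod_sgn prod_symmDiff
  PP_eq_pri)
open RG (Rel Ev ev_Y)

namespace Kil

variable {m : ℕ}

theorem lk_symm {e f : Ed m} (h : lk e f) : lk f e := by
  refine ⟨h.1.symm, ?_⟩
  rcases h.2 with (k | k) | (k | k)
  · exact .inl (.inl k.symm)
  · exact .inr (.inl k.symm)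
  · exact .inl (.inr k.symm)
  · exact .inr (.inr k.symm)

theorem tg_inj : Function.Injective (tg : Ed m → Tag m) := fun _ _ h => (Prod.mk.inj h).1

theorem mem_gens {l : Ed m → ℕ} {x : Gen m} (hx : x ∈ gens l) :
    ∃ h p, x = (tg h, p) ∧ p.Prime ∧ p ∣ l h := by
  obtain ⟨h, -, k⟩ := mem_biUnion.1 hx
  obtain ⟨p, hp, rfl⟩ := mem_image.1 k
  exact ⟨h, p, rfl, Nat.prime_of_mem_primeFactors hp, Nat.dvd_of_mem_primeFactors hp⟩

theorem gm_congr (dg dg' : Gen m → ℤ) {x y x' y' : Gen m} (h : x ≠ y) (h' : x' ≠ y')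
    (e1 : x.1.1 = x'.1.1) (e2 : x.2 = x'.2) (e3 : y.1.1 = y'.1.1) (e4 : y.2 = y'.2) :
    gm dg x y = gm dg' x' y' := by
  simp only [gm, if_neg h, if_neg h', G, val, e1, e2, e3, e4]

theorem sq_of_mul {A B : ℤ} (hB : B ≠ 0) (h : IsSquare (A * B ^ 2)) : IsSquare A := by
  obtain ⟨c, hc⟩ := h
  have h1 : B ^ 2 ∣ c ^ 2 := ⟨A, by rw [sq c, ← hc, mul_comm]⟩
  obtain ⟨d, rfl⟩ := (Int.pow_dvd_pow_iff two_ne_zero).1 h1
  exact ⟨d, mul_right_cancel₀ (pow_ne_zero 2 hB) (by rw [hc]; ring)⟩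

theorem eq_of_mul {u v : ℤ} (hu : u = 1 ∨ u = -1) (h : u * v = 1) : u = v := by
  rcases hu with rfl | rfl <;> omega

/-- the sign of the diagonal is written into the tag -/
def tau (a : Fin m → ℤ) (x : Gen m) : Gen m := if x.1.2 = none then x else sgt a x

theorem tau_cls (a : Fin m → ℤ) (x : Gen m) : (tau a x).1.1 = x.1.1 := by
  unfold tau; split_ifs <;> rfl

theorem tau_num (a : Fin m → ℤ) (x : Gen m) : (tau a x).2 = x.2 := by
  unfold tau; split_ifs <;> rfl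

theorem tau_fix (a : Fin m → ℤ) {x : Gen m} (h : x.1.2 = none) : tau a x = x := if_pos h

theorem tau_tg (a : Fin m → ℤ) (h : Ed m) (p : ℕ) : tau a (tg h, p) = sgt a (tg h, p) :=
  if_neg (Option.some_ne_none _)

theorem tau_none (a : Fin m → ℤ) (x : Gen m) : (tau a x).1.2 = none ↔ x.1.2 = none := by
  unfold tau
  split_ifs with h
  · rfl
  · exact iff_of_false (Option.some_ne_none _) h

section rel

variable {D : Dat m} {a : Fin m → ℤ}

theorem tag_VV (hD : D.Ok) {x : Gen m} (hx : x ∈ D.VV a) : x.1.2 = none ∨ x.1.2 = some true := by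
  rcases mem_union.1 hx with h | h
  · exact .inl (hD.fix x h).1
  · obtain ⟨h, p, rfl, -⟩ := mem_gens h
    exact .inr rfl

theorem tau_inj (hD : D.Ok) : Set.InjOn (tau a) (D.VV a) := by
  intro x hx y hy h
  have e1 : x.1.1 = y.1.1 := by rw [← tau_cls a x, h, tau_cls]
  have e2 : x.2 = y.2 := by rw [← tau_num a x, h, tau_num]
  have e3 : x.1.2 = none ↔ y.1.2 = none := by rw [← tau_none a x, h, tau_none]
  refine Prod.ext (Prod.ext e1 ?_) e2
  rcases tag_VV hD hx with k | k <;> rcases tag_VV hD hy with k' | k'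
  · rw [k, k']
  · rw [e3.1 k] at k'; cases k'
  · rw [e3.2 k'] at k; cases k
  · rw [k, k']

theorem g_tau (hD : D.Ok) (hs : ∀ x ∈ gens (D.l a), D.dga a x = 1 ∨ D.dga a x = -1) {x y : Gen m}
    (hx : x ∈ D.VV a) (hy : y ∈ D.VV a) : D.gs (tau a x) (tau a y) = D.g a x y := by
  by_cases h : x = y
  · subst h
    simp only [Dat.gs, Dat.g, gm, if_true]
    rcases mem_union.1 hx with k | k
    · rw [tau_fix a (hD.fix x k).1, Dat.dgs, Dat.dga, if_pos (hD.fix x k).1, if_pos (hD.fix x k).1]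
    · have k1 := hs x k
      obtain ⟨h, p, rfl, -⟩ := mem_gens k
      have e : D.dga a (tg h, p) = jacobiSym (ga a h) p := if_neg (Option.some_ne_none _)
      rw [tau_tg, e]
      rw [e] at k1
      rcases k1 with k1 | k1 <;> simp [Dat.dgs, sgt, tg, k1]
  · exact gm_congr _ _ (fun e => h (tau_inj hD hx hy e)) h (tau_cls _ _) (tau_num _ _)
      (tau_cls _ _) (tau_num _ _)

theorem image_le (hD : D.Ok) {Y : ℕ} (hY : D.M ≤ Y) :
    (le Y (D.VV a)).image (tau a) = D.W0 ∪ D.sml a Y := by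
  have h0 : le Y D.W0 = D.W0 := filter_true_of_mem fun x hx => by
    have := hD.pos
    rcases (hD.fix x hx).2 with k | k
    · omega
    · exact (Nat.le_of_dvd hD.pos k.2).trans hY
  have h1 : le Y (D.VV a) = D.W0 ∪ le Y (gens (D.l a)) := by
    rw [← h0, Dat.VV, le, filter_union]
    rfl
  rw [h1, image_union, Dat.sml]
  refine congrArg₂ _ ?_ (image_congr fun x hx => ?_)
  · exact (image_congr (g := id) fun x hx => tau_fix a (hD.fix x hx).1).trans image_id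
  · obtain ⟨h, p, rfl, -⟩ := mem_gens (mem_filter.1 hx).1
    exact tau_tg a h p

theorem prod_tau (hD : D.Ok) {U : Finset (Gen m)} (hU : U ⊆ D.VV a) (F : Gen m → ℤ) :
    ∏ x ∈ U.image (tau a), F x = ∏ x ∈ U, F (tau a x) :=
  prod_image fun _ hx _ hy e => tau_inj hD (hU hx) (hU hy) e

theorem Gv_tau (hD : D.Ok) {U : Finset (Gen m)} (hU : U ⊆ D.VV a) (e : Ed m) :
    Gv e (U.image (tau a)) = Gv e U := by
  rw [Gv, prod_tau hD hU]
  exact prod_congr rfl fun x _ => by simp only [G, val, tau_cls, tau_num]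

theorem image_inj (hD : D.Ok) {U U' : Finset (Gen m)} (hU : U ⊆ D.VV a) (hU' : U' ⊆ D.VV a)
    (h : U.image (tau a) = U'.image (tau a)) : U = U' := by
  have key : ∀ {A B : Finset (Gen m)}, A ⊆ D.VV a → B ⊆ D.VV a →
      A.image (tau a) = B.image (tau a) → A ⊆ B := fun hA hB e x hx => by
    obtain ⟨y, hy, k⟩ := mem_image.1 (e ▸ mem_image_of_mem (tau a) hx)
    exact tau_inj hD (hB hy) (hA hx) k ▸ hy
  exact (key hU hU' h).antisymm (key hU' hU h.symm)

theorem card_Ker (hD : D.Ok) (hs : ∀ x ∈ gens (D.l a), D.dga a x = 1 ∨ D.dga a x = -1)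
    {V : Finset (Gen m)} (hV : V ⊆ D.VV a) :
    (Ker (D.g a) V).card = (Ker D.gs (V.image (tau a))).card := by
  have row : ∀ U ⊆ V, ∀ b ∈ V, ∏ x ∈ U.image (tau a), D.gs x (tau a b) = ∏ x ∈ U, D.g a x b :=
    fun U hU b hb => by
      rw [prod_tau hD (hU.trans hV)]
      exact prod_congr rfl fun x hx => g_tau hD hs (hV (hU hx)) (hV hb)
  refine card_bij (fun U _ => U.image (tau a)) (fun U hU => ?_) (fun U hU U' hU' e => ?_)
    fun U' hU' => ?_
  · obtain ⟨k1, k2⟩ := mem_Ker.1 hU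
    refine mem_Ker.2 ⟨image_subset_image k1, fun b hb => ?_⟩
    obtain ⟨c, hc, rfl⟩ := mem_image.1 hb
    rw [row U k1 c hc, k2 c hc]
  · exact image_inj hD ((mem_Ker.1 hU).1.trans hV) ((mem_Ker.1 hU').1.trans hV) e
  · obtain ⟨k1, k2⟩ := mem_Ker.1 hU'
    obtain ⟨U, hU, rfl⟩ := subset_image_iff.1 k1
    exact ⟨U, mem_Ker.2 ⟨hU, fun b hb => by
      rw [← row U hU b hb, k2 _ (mem_image_of_mem _ hb)]⟩, rfl⟩

/-- at most one geometric vector over each cut -/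
theorem geo_uniq (hC : COMBStmt) (hK : KCStmt) (hD : D.Ok) (hA : Adm D a) {Y : ℕ}
    (hd : ∀ e f, e ≠ f → ∀ p : ℕ, p.Prime → p ≤ Y → p ∣ D.l a e → ¬p ∣ D.l a f)
    {y : Finset (Ed m)} (hy : ∀ e, Cy D y e ≠ 0) {U U' : Finset (Gen m)}
    (hU : U ⊆ le Y (D.VV a)) (hU' : U' ⊆ le Y (D.VV a)) (h : Geo D y U) (h' : Geo D y U') :
    U = U' := by
  have hpr : ∀ x ∈ le Y (D.VV a), x.2 = 1 ∨ x.2.Prime := fun x hx => by
    rcases mem_union.1 (mem_filter.1 hx).1 with k | k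
    · exact (hD.fix x k).2.imp_right And.left
    · obtain ⟨h, p, rfl, k1, -⟩ := mem_gens k
      exact .inr k1
  have hx : symmDiff U U' ⊆ le Y (D.VV a) := symmDiff_le_sup.trans (sup_le hU hU')
  have hsq : ∀ e, IsSquare (Gv e (symmDiff U U')) := fun e => by
    have h0 := ((hK m).2.2.1 (U ∩ U') e fun x k => hpr x (hU (mem_inter.1 k).1)).1
    refine sq_of_mul (mul_ne_zero h0 (hy e)) ?_
    have := (h e).mul (h' e)
    rw [mul_mul_mul_comm, (hK m).2.2.2.1] at this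
    rw [mul_pow, ← mul_assoc, sq (Cy D y e)]
    exact this
  refine symmDiff_eq_bot.1 (hD.ind _ (fun b hb => ?_) hsq)
  rcases mem_union.1 (mem_filter.1 (hx hb)).1 with k | k
  · exact k
  exfalso
  obtain ⟨e, p, rfl, k1, k2⟩ := mem_gens k
  obtain ⟨f, hf⟩ := (hC m hD.three).2.2.1 e
  refine ((hK m).2.2.1 _ f fun x k => hpr x (hx k)).2.2 _ hb k1 (lk_symm hf) (fun x k e1 _ => ?_) 1
    (fun k => k1.ne_one (by exact_mod_cast Int.eq_one_of_dvd_one (by positivity) k))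
    (by rw [mul_one]; exact hsq f)
  have e1 : x.2 = p := e1
  rcases mem_union.1 (mem_filter.1 (hx k)).1 with k' | k'
  · exfalso
    rcases (hD.fix x k').2 with k3 | k3
    · exact k1.ne_one (e1 ▸ k3)
    · exact k1.ne_one (Nat.eq_one_of_dvd_coprimes (RG.coprime_M (hA.one e)) k2 (e1 ▸ k3.2))
  · obtain ⟨e', p', rfl, -, k4⟩ := mem_gens k'
    obtain rfl : p' = p := e1
    by_contra hne
    exact hd e' e (fun k5 => hne (by rw [k5])) p' k1 (mem_filter.1 (hx hb)).2 k4 k2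

end rel

/-! ### weights -/

theorem mem_TT {P : Finset ℕ} {x : Gen m} (h : x ∈ TT m P) : x.2 ∈ P := (mem_product.1 h).2

theorem mem_TS {P : Finset ℕ} {x : Gen m} (h : x ∈ TS m P) : x.1.2 ≠ none ∧ x.2 ∈ P :=
  ⟨(mem_filter.1 (mem_product.1 h).1).2, (mem_product.1 h).2⟩

theorem prod_TT (P : Finset ℕ) (F : ℕ → ℝ) : ∏ x ∈ TT m P, F x.2 = ∏ p ∈ P, F p ^ NE m := by
  simp only [TT, prod_product, prod_const, prod_pow, card_image_of_injective _ tg_inj, card_univ,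
    NE]

theorem sum_Wt (P : Finset ℕ) : ∑ W ∈ (TT m P).powerset, Wt W = Mass m P := by
  rw [Mass, ← prod_TT P fun p => 1 + wt m p, prod_one_add]
  rfl

section kil

variable (hC : COMBStmt) {D : Dat m} (hD : D.Ok)
include hC hD

theorem PP_gt {u v p : ℕ} (h : p ∈ PP D.M u v) : (NE m : ℝ) < p := by
  have h1 : 2 * m ^ 2 < p := not_le.1 fun k =>
    (mem_PP.1 h).2.2.2 (hD.sm p (mem_PP.1 h).2.2.1 k)
  have h2 := (hC m hD.three).1.2.1
  exact_mod_cast (by omega : NE m < p)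

theorem wt_nn {u v p : ℕ} (h : p ∈ PP D.M u v) : 0 ≤ wt m p :=
  one_div_nonneg.2 (by linarith [PP_gt hC hD h])

theorem exp_le {u v p : ℕ} (h : p ∈ PP D.M u v) : Real.exp (1 / p) ≤ 1 + wt m p := by
  have h1 := PP_gt hC hD h
  have h0 : (3 : ℝ) ≤ NE m := by exact_mod_cast (hC m hD.three).1.2.2
  refine (Real.exp_bound_div_one_sub_of_interval (by positivity)
    (by rw [div_lt_one (by linarith)]; linarith)).trans ?_
  have e : 1 / (1 - 1 / (p : ℝ)) = 1 + 1 / ((p : ℝ) - 1) := by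
    have : (p : ℝ) - 1 ≠ 0 := by linarith
    have : (p : ℝ) ≠ 0 := by linarith
    field_simp
    ring
  rw [e, wt]
  exact add_le_add le_rfl (one_div_le_one_div_of_le (by linarith) (by linarith))

theorem Wt_nn {u v : ℕ} {W : Finset (Gen m)} (h : W ⊆ TT m (PP D.M u v)) : 0 ≤ Wt W :=
  prod_nonneg fun _ hx => wt_nn hC hD (mem_TT (h hx))

theorem Ws_nn {u v : ℕ} {W : Finset (Gen m)} (h : W ⊆ TS m (PP D.M u v)) : 0 ≤ Ws W :=
  prod_nonneg fun _ hx => div_nonneg (wt_nn hC hD (mem_TS (h hx)).2) zero_le_two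

theorem Mass_nn (u v : ℕ) : 0 ≤ Mass m (PP D.M u v) :=
  prod_nonneg fun _ h => pow_nonneg (by linarith [wt_nn hC hD h]) _

theorem one_le_Mss (u v : ℕ) : 1 ≤ Mss m (PP D.M u v) :=
  prod_induction _ (1 ≤ ·) (fun _ _ => one_le_mul_of_one_le_of_one_le) le_rfl
    fun _ h => one_le_pow₀ (by linarith [wt_nn hC hD h])

open Classical in
/-- one vector -/
theorem vec (hK : KCStmt) (hS : SYMStmt) {Y0 Y Y' J : ℕ} (hMY : D.M ≤ Y)
    (h0 : Y0 ≤ Y) (hθ : J * Real.log 128 - 0.1 ≤ ∑ p ∈ pri Y Y', (1 : ℝ) / p)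
    {W : Finset (Gen m)} (hW : W ⊆ TS m (PP D.M 0 Y0))
    (hX : ¬Exc D.M 1 Y Y' W) {y : Finset (Ed m)} {U : Finset (Gen m)} (hU : U ⊆ D.W0 ∪ W)
    (hg : ¬Geo D y U) :
    ∑ W' ∈ (TT m (PP D.M Y Y')).powerset, Wt W' *
      (if ∀ b ∈ W', ∏ x ∈ U, D.gs x b = jacobiSym (Cy D y b.1.1) b.2 then 1 else 0) ≤
      2 / 2 ^ J * Mass m (PP D.M Y Y') := by
  obtain ⟨k, hk⟩ := not_forall.1 hg
  have hsm := (hS m D hD).1 y k
  have hG := (hK m).2.2.1 U k fun x hx => by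
    rcases mem_union.1 (hU hx) with h | h
    · exact (hD.fix x h).2.imp_right And.left
    · exact .inr (mem_PP.1 (mem_TS (hW h)).2).2.2.1
  obtain ⟨C, hsq, hC1, hCd, hCj⟩ := (hK m).2.2.2.2.2 _ (mul_ne_zero hG.1 hsm.1) hk
  have hpr : ∀ p : ℕ, p.Prime → (p : ℤ) ∣ Gv k U * Cy D y k → p ∣ D.M ∨ ∃ t, (t, p) ∈ W := by
    intro p hp h1
    rcases (Nat.prime_iff_prime_int.1 hp).dvd_or_dvd h1 with h2 | h2
    · obtain ⟨x, hx, rfl, -⟩ := hG.2.1 p hp h2
      rcases mem_union.1 (hU hx) with h | h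
      · exact .inl (((hD.fix x h).2.resolve_left hp.ne_one).2)
      · exact .inr ⟨x.1, h⟩
    · exact .inl (hsm.2 p hp h2)
  have e5 : chs C Y Y' ≤ 1 := (le_abs_self _).trans (not_lt.1 fun h => hX ⟨C, hsq, hC1,
    fun p hp => hpr p (Nat.prime_of_mem_primeFactors hp) (hCd p (Nat.prime_of_mem_primeFactors hp)
      (Int.natCast_dvd.2 (Nat.dvd_of_mem_primeFactors hp))), h⟩)
  have hnd : ∀ p ∈ PP D.M Y Y', ¬(p : ℤ) ∣ Gv k U * Cy D y k := by
    intro p hp h
    obtain ⟨e2, -, e3, e4⟩ := mem_PP.1 hp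
    rcases hpr p e3 h with h1 | ⟨t, h1⟩
    · exact e4 h1
    · have : p ≤ Y0 := (mem_PP.1 (mem_TS (hW h1)).2).2.1
      omega
  have hj : ∀ (A : ℤ) (p : ℕ), p.Prime → ¬(p : ℤ) ∣ A → jacobiSym A p = 1 ∨ jacobiSym A p = -1 := by
    intro A p hp h
    refine jacobiSym.eq_one_or_neg_one ?_
    rw [Int.gcd, Int.natAbs_natCast, Nat.gcd_comm]
    exact hp.coprime_iff_not_dvd.2 fun h1 => h (Int.natCast_dvd.2 h1)
  have hrow : ∀ p ∈ PP D.M Y Y', ∏ x ∈ U, D.gs x (tg k, p) = jacobiSym (Gv k U) p := by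
    intro p hp
    obtain ⟨e2, -, e3, e4⟩ := mem_PP.1 hp
    refine (hK m).2.1 D.dgs U (tg k, p) (fun h => ?_) (e3.odd_of_ne_two fun h => e4 ?_) e3.one_lt ?_
    · rcases mem_union.1 (hU h) with h | h
      · exact Option.some_ne_none _ (hD.fix _ h).1
      · have : p ≤ Y0 := (mem_PP.1 (mem_TS (hW h)).2).2.1
        omega
    · refine hD.sm p e3 ?_
      have := hD.three
      nlinarith
    · have := hj (Gv k U) p e3 fun h => hnd p hp (h.mul_right _)
      intro h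
      have h : jacobiSym (Gv k U) p = 0 := h
      omega
  have hsg : ∀ p ∈ PP D.M Y Y', jacobiSym C p = 1 ∨ jacobiSym C p = -1 := fun p hp =>
    hj C p (mem_PP.1 hp).2.2.1 fun h => hnd p hp (hCd p (mem_PP.1 hp).2.2.1 h)
  let Q := (PP D.M Y Y').filter fun p => jacobiSym C p = -1
  let F : Finset (Gen m) := Q.image fun p => (tg k, p)
  have hF : F ⊆ TT m (PP D.M Y Y') := by
    intro b hb
    obtain ⟨p, hp, rfl⟩ := mem_image.1 hb
    exact mem_product.2 ⟨mem_image_of_mem _ (mem_univ k), (mem_filter.1 hp).1⟩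
  have e1 : ∑ W' ∈ (TT m (PP D.M Y Y')).powerset, Wt W' *
      (if ∀ b ∈ W', ∏ x ∈ U, D.gs x b = jacobiSym (Cy D y b.1.1) b.2 then 1 else 0) ≤
      ∏ b ∈ TT m (PP D.M Y Y') \ F, (1 + wt m b.2) := by
    simp only [mul_ite, mul_one, mul_zero]
    rw [← sum_filter, prod_one_add]
    refine sum_le_sum_of_subset_of_nonneg (fun W' hW' => ?_) fun W' hW' _ =>
      Wt_nn hC hD ((mem_powerset.1 hW').trans sdiff_subset)
    obtain ⟨k1, k2⟩ := mem_filter.1 hW'
    refine mem_powerset.2 fun b hb => mem_sdiff.2 ⟨mem_powerset.1 k1 hb, fun hbF => ?_⟩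
    obtain ⟨p, hp, rfl⟩ := mem_image.1 hbF
    have h1 : ∏ x ∈ U, D.gs x (tg k, p) = jacobiSym (Cy D y k) p := k2 _ hb
    have h2 := prod_sgn U fun x _ => ((hK m).1 D.dgs).2 x (tg k, p)
    have h3 : jacobiSym (Gv k U * Cy D y k) p = 1 := by
      rw [jacobiSym.mul_left, ← h1, ← hrow p (mem_filter.1 hp).1, Dat.gs]
      rcases h2 with h2 | h2 <;> rw [h2] <;> norm_num
    rw [hCj p (mem_PP.1 (mem_filter.1 hp).1).2.2.1 (hnd p (mem_filter.1 hp).1),
      (mem_filter.1 hp).2] at h3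
    omega
  have e2 : (∏ b ∈ TT m (PP D.M Y Y') \ F, (1 + wt m b.2)) * ∏ b ∈ F, (1 + wt m b.2) =
      Mass m (PP D.M Y Y') := by
    rw [prod_sdiff hF, Mass, ← prod_TT _ fun p => 1 + wt m p]
  have e3 : Real.exp (∑ p ∈ Q, (1 : ℝ) / p) ≤ ∏ b ∈ F, (1 + wt m b.2) := by
    rw [prod_image fun _ _ _ _ e => (Prod.mk.inj e).2, Real.exp_sum]
    exact prod_le_prod (fun _ _ => (Real.exp_pos _).le) fun p hp =>
      exp_le hC hD (mem_filter.1 hp).1
  have e4 : 2 * ∑ p ∈ Q, (1 : ℝ) / p = ∑ p ∈ pri Y Y', (1 : ℝ) / p - chs C Y Y' := by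
    rw [chs, ← PP_eq_pri hD.pos hMY, ← sum_sub_distrib, sum_filter, mul_sum]
    refine sum_congr rfl fun p hp => ?_
    rcases hsg p hp with k | k <;> rw [k] <;> norm_num
    ring
  have e6 : (2 : ℝ) ^ J / 2 ≤ ∏ b ∈ F, (1 + wt m b.2) := by
    refine le_trans ?_ e3
    have l1 : Real.log 128 = 7 * Real.log 2 := by
      rw [show (128 : ℝ) = 2 ^ 7 by norm_num, Real.log_pow]; norm_num
    have l2 := Real.log_two_gt_d9
    have l3 : (2 : ℝ) ^ J / 2 = Real.exp (J * Real.log 2 - Real.log 2) := by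
      rw [Real.exp_sub, ← Real.log_pow, Real.exp_log (by positivity), Real.exp_log (by norm_num)]
    have l4 : 0 ≤ J * Real.log 2 := mul_nonneg (Nat.cast_nonneg J) (by linarith)
    rw [l3, Real.exp_le_exp]
    rw [l1] at hθ
    linarith
  have e7 : 0 ≤ ∏ b ∈ TT m (PP D.M Y Y') \ F, (1 + wt m b.2) :=
    prod_nonneg fun b hb => by linarith [wt_nn hC hD (mem_TT (mem_sdiff.1 hb).1)]
  refine e1.trans ?_
  rw [← e2, div_mul_eq_mul_div, le_div_iff₀ (by positivity)]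
  nlinarith [mul_le_mul_of_nonneg_left e6 e7]

omit hC hD in
/-- the vectors with prescribed rows -/
def coset (D : Dat m) (W : Finset (Gen m)) (y : Finset (Ed m)) : Finset (Finset (Gen m)) :=
  (D.W0 ∪ W).powerset.filter fun U => (∀ b ∈ D.W0, ∏ x ∈ U, D.gs x b = 1) ∧
    ∀ b ∈ W, ∏ x ∈ U, D.gs x b = jacobiSym (Cy D y b.1.1) b.2

omit hC hD in
theorem card_coset (hK : KCStmt) (W : Finset (Gen m)) (y : Finset (Ed m)) :
    (coset D W y).card ≤ (Ker D.gs (D.W0 ∪ W)).card := by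
  rcases (coset D W y).eq_empty_or_nonempty with h | ⟨U0, h0⟩
  · simp [h]
  obtain ⟨a1, a2, a3⟩ := mem_filter.1 h0
  refine card_le_card_of_injOn (fun U => symmDiff U U0) (fun U hU => ?_)
    fun U _ U' _ e => symmDiff_left_injective U0 e
  obtain ⟨b1, b2, b3⟩ := mem_filter.1 (mem_coe.1 hU)
  have hs : ∀ x b, D.gs x b = 1 ∨ D.gs x b = -1 := ((hK m).1 D.dgs).2
  refine mem_coe.2 (mem_Ker.2 ⟨symmDiff_le_sup.trans
    (sup_le (mem_powerset.1 b1) (mem_powerset.1 a1)), fun b hb => ?_⟩)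
  rw [prod_symmDiff fun x => hs x b]
  rcases mem_union.1 hb with hb | hb
  · rw [a2 b hb, b2 b hb, one_mul]
  · have h2 := prod_sgn U0 fun x _ => hs x b
    rw [b3 b hb, ← a3 b hb]
    rcases h2 with h2 | h2 <;> rw [h2] <;> norm_num

open Classical in
/-- one small configuration -/
theorem conf (hK : KCStmt) (hS : SYMStmt) {Y0 Y Y' J : ℕ} (hMY : D.M ≤ Y)
    (h0 : Y0 ≤ Y) (hθ : J * Real.log 128 - 0.1 ≤ ∑ p ∈ pri Y Y', (1 : ℝ) / p)
    {W : Finset (Gen m)} (hW : W ⊆ TS m (PP D.M 0 Y0)) :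
    ∑ W' ∈ (TT m (PP D.M Y Y')).powerset, Wt W' * nbad D W W' ≤
      2 ^ (m - 1) * Mass m (PP D.M Y Y') * (2 / 2 ^ J * (Ker D.gs (D.W0 ∪ W)).card +
        2 ^ D.W0.card * if Exc D.M 1 Y Y' W then 2 ^ W.card else 0) := by
  have m1 := Mass_nn hC hD Y Y'
  have hY := (hC m hD.three).2.2.2.2.1
  split_ifs with hE
  · have h1 : ∀ W', (nbad D W W' : ℝ) ≤ 2 ^ (m - 1) * (2 ^ D.W0.card * 2 ^ W.card) := fun W' => by
      have : nbad D W W' ≤ 2 ^ (m - 1) * (2 ^ D.W0.card * 2 ^ W.card) := by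
        refine (card_filter_le _ _).trans ?_
        rw [card_product, card_powerset, ← pow_add]
        exact Nat.mul_le_mul hY (Nat.pow_le_pow_right two_pos (card_union_le _ _))
      exact_mod_cast this
    refine (sum_le_sum fun W' hW' => mul_le_mul_of_nonneg_left (h1 W')
      (Wt_nn hC hD (mem_powerset.1 hW'))).trans ?_
    rw [← sum_mul, sum_Wt, mul_add]
    refine le_add_of_nonneg_of_le (by positivity) (le_of_eq (by ring))
  set X : Finset (Σ _ : Finset (Ed m), Finset (Gen m)) :=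
    (Yc m).sigma fun y => (coset D W y).filter fun U => ¬Geo D y U with hX
  have h1 : ∑ W' ∈ (TT m (PP D.M Y Y')).powerset, Wt W' * nbad D W W' ≤
      ∑ W' ∈ (TT m (PP D.M Y Y')).powerset, ∑ x ∈ X, Wt W' *
        (if ∀ b ∈ W', ∏ z ∈ x.2, D.gs z b = jacobiSym (Cy D x.1 b.1.1) b.2 then 1 else 0) := by
    refine sum_le_sum fun W' hW' => ?_
    rw [← mul_sum, sum_boole]
    refine mul_le_mul_of_nonneg_left (Nat.cast_le.2 ?_) (Wt_nn hC hD (mem_powerset.1 hW'))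
    refine card_le_card_of_injOn (fun x => ⟨x.1, x.2⟩) (fun x hx => ?_) fun x _ x' _ e => ?_
    · obtain ⟨k1, k2, k3, k4⟩ := mem_filter.1 (mem_coe.1 hx)
      exact mem_coe.2 (mem_filter.2 ⟨mem_sigma.2 ⟨(mem_product.1 k1).1, mem_filter.2
        ⟨mem_filter.2 ⟨(mem_product.1 k1).2, k3, fun b hb => k4 b (mem_union_left _ hb)⟩, k2⟩⟩,
        fun b hb => k4 b (mem_union_right _ hb)⟩)
    · exact Prod.ext (congrArg Sigma.fst e) (congrArg (fun z => z.2) e)
  rw [sum_comm] at h1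
  refine h1.trans ((sum_le_card_nsmul _ _ (2 / 2 ^ J * Mass m (PP D.M Y Y'))
    fun x hx => ?_).trans ?_)
  · obtain ⟨k1, k2⟩ := mem_filter.1 (mem_sigma.1 hx).2
    exact vec hC hD hK hS hMY h0 hθ hW hE (mem_powerset.1 (mem_filter.1 k1).1) k2
  have h2 : (X.card : ℝ) ≤ 2 ^ (m - 1) * (Ker D.gs (D.W0 ∪ W)).card := by
    have : X.card ≤ 2 ^ (m - 1) * (Ker D.gs (D.W0 ∪ W)).card := by
      rw [hX, card_sigma]
      refine (sum_le_card_nsmul _ _ _ fun y _ =>
        (card_filter_le _ _).trans (card_coset hK W y)).trans ?_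
      exact Nat.mul_le_mul_right _ hY
    exact_mod_cast this
  rw [nsmul_eq_mul]
  exact (mul_le_mul_of_nonneg_right h2 (by positivity)).trans (le_of_eq (by ring))

end kil

end Kil

open Kil in
theorem rel : COMBStmt → KCStmt → SYMStmt → RELStmt := by
  classical
  intro hC hK hS m D S hD hR hY a ha
  obtain ⟨-, a1, a2, a3, a4, a5⟩ := mem_filter.1 ha
  have hA : Adm D a := ⟨a1, a2, fun e => hR.sqf (a3 e), a4⟩
  obtain ⟨-, s2, s3, -, -, s6, -, s8⟩ := (hS m D hD).2.1 a hA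
  have hs : ∀ x ∈ gens (D.l a), D.dga a x = 1 ∨ D.dga a x = -1 := fun x hx => by
    have h1 : D.dga a x ∣ sgn D a := s8 ▸ dvd_prod_of_mem _ hx
    refine Int.isUnit_iff.1 (isUnit_of_dvd_unit h1 (Int.isUnit_iff.2 s6))
  have hV : le S.Y (D.VV a) ⊆ D.VV a := filter_subset _ _
  have hg : ∀ x b, D.g a x b = 1 ∨ D.g a x b = -1 := ((hK m).1 _).2
  refine ⟨by rw [card_Ker hD hs hV, image_le hD hY], ?_⟩
  rw [← card_filter_add_card_filter_not (s := rset (D.g a) S.Y (D.VV a))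
    fun x => Geo D x.1 x.2]
  refine Nat.add_le_add (le_trans ?_ (hC m hD.three).2.2.2.2.1) ?_
  · refine card_le_card_of_injOn Prod.fst (fun x hx => ?_) fun x hx x' hx' e => ?_
    · exact mem_coe.2 (mem_product.1 (mem_filter.1 (mem_filter.1 (mem_coe.1 hx)).1).1).1
    · obtain ⟨k1, k2⟩ := mem_filter.1 (mem_coe.1 hx)
      obtain ⟨k3, k4⟩ := mem_filter.1 (mem_coe.1 hx')
      refine Prod.ext e (geo_uniq hC hK hD hA
        (fun e f h p hp hp' => a5 e f h p hp (hp'.trans hR.Y_le))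
        (fun e => ((hS m D hD).1 x.1 e).1) (mem_powerset.1 (mem_product.1 (mem_filter.1 k1).1).2)
        (mem_powerset.1 (mem_product.1 (mem_filter.1 k3).1).2) k2 (e ▸ k4))
  refine card_le_card_of_injOn (fun x => (x.1, x.2.image (tau a))) (fun x hx => ?_)
    fun x hx x' hx' e => ?_
  · obtain ⟨k1, k2⟩ := mem_filter.1 (mem_coe.1 hx)
    obtain ⟨k3, k4⟩ := mem_filter.1 k1
    obtain ⟨k5, k6⟩ := mem_product.1 k3
    have k6 := mem_powerset.1 k6
    have k7 := k6.trans hV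
    have row : ∀ b ∈ D.VV a, (∏ z ∈ x.2, D.g a z b) * ∏ z ∈ ones (D.VV a) x.1, D.g a z b = 1 :=
      fun b hb => by rw [← prod_symmDiff fun z => hg z b, (mem_Ker.1 k4).2 b hb]
    have row' : ∀ b ∈ D.VV a, ∏ z ∈ x.2.image (tau a), D.gs z (tau a b) = ∏ z ∈ x.2, D.g a z b :=
      fun b hb => by
        rw [prod_tau hD k7]
        exact prod_congr rfl fun z hz => g_tau hD hs (k7 hz) hb
    have row2 : ∀ b ∈ gens (D.l a), ∏ z ∈ x.2, D.g a z b = jacobiSym (Cy D x.1 b.1.1) b.2 :=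
      fun b hb => by
        have h1 := row b (mem_union_right _ hb)
        obtain ⟨h, p, rfl, h2, h3⟩ := mem_gens hb
        rw [s3 x.1 k5 h p h2 h3] at h1
        exact eq_of_mul (prod_sgn _ fun z _ => hg z _) h1
    refine mem_coe.2 (mem_filter.2 ⟨mem_product.2 ⟨k5, mem_powerset.2 ?_⟩,
      fun h => k2 fun e => Gv_tau hD k7 e ▸ h e, fun b hb => ?_, fun b hb => ?_⟩)
    · rw [← image_le hD hY]
      exact image_subset_image k6
    · have h1 := row b (mem_union_left _ hb)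
      rw [s2 x.1 b hb, mul_one, ← row' b (mem_union_left _ hb), tau_fix a (hD.fix b hb).1] at h1
      exact h1
    · rcases mem_union.1 hb with hb | hb
      · obtain ⟨c, hc, rfl⟩ := mem_image.1 hb
        have hc := (mem_filter.1 hc).1
        have h1 := row' c (mem_union_right _ hc)
        rw [row2 c hc] at h1
        obtain ⟨h, p, rfl, -⟩ := mem_gens hc
        rw [tau_tg] at h1
        exact h1
      · obtain ⟨h1, h2, -⟩ := mem_filter.1 hb
        rw [← row2 b h1]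
        refine (prod_tau hD k7 _).trans (prod_congr rfl fun z hz => ?_)
        have h3 : z.2 ≤ S.Y := (mem_filter.1 (k6 hz)).2
        refine gm_congr _ _ (fun e => ?_) (fun e => ?_) (tau_cls _ _) (tau_num _ _) rfl rfl
        · rw [← tau_num a z, e] at h3
          omega
        · rw [e] at h3
          omega
  · have k := fun (z : Finset (Ed m) × Finset (Gen m))
        (hz : z ∈ (rset (D.g a) S.Y (D.VV a)).filter fun x => ¬Geo D x.1 x.2) =>
      (mem_powerset.1 (mem_product.1 (mem_filter.1 (mem_filter.1 hz).1).1).2).trans hV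
    exact Prod.ext (Prod.mk.inj e).1
      (image_inj hD (k x (mem_coe.1 hx)) (k x' (mem_coe.1 hx')) (Prod.mk.inj e).2)

theorem kil : COMBStmt → KCStmt → SYMStmt → MERStmt → EXPStmt → LYAStmt → KILStmt := by
  classical
  intro hC hK hS hm hE hL m D hD
  obtain ⟨C, hM⟩ := hm.1
  obtain ⟨CL, hL⟩ := hL m D hD
  refine ⟨2 ^ (m - 1) * (2 * CL + 2 ^ D.W0.card), fun J => ?_⟩
  have v1 := ev_Y (n := m) (M := D.M) (J := J)
    (hE m D.M (128 ^ J) 1 (1 / 2 ^ J) hD.three hD.pos hD.sm one_pos (by positivity))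
  have v2 := ev_Y (n := m) (M := D.M) (J := J) ((Real.tendsto_log_atTop.comp
    tendsto_natCast_atTop_atTop).eventually_ge_atTop (10 * |C|))
  have v3 := ev_Y (n := m) (M := D.M) (J := J) (eventually_ge_atTop (D.M + 2))
  refine (v1.and (v2.and v3)).mono fun S _ hJ hR ⟨k1, k2, k3⟩ => ?_
  have k1 := k1 S.Y0 S.Y' hR.Y0_le (by rw [hR.hY', hJ])
  have hθ : J * Real.log 128 - 0.1 ≤ ∑ p ∈ pri S.Y S.Y', (1 : ℝ) / p := by
    have e1 := (abs_le.1 (hM S.Y S.Y' (by omega) hR.Y_le)).1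
    have e2 : 0 < Real.log S.Y := Real.log_pos (by exact_mod_cast (by omega : 1 < S.Y))
    have e3 : C / Real.log S.Y ≤ 0.1 := by
      rw [div_le_iff₀ e2]
      have : 10 * |C| ≤ Real.log S.Y := k2
      linarith [le_abs_self C]
    rw [hR.log_Y', hJ, mul_div_cancel_right₀ _ e2.ne', Real.log_pow] at e1
    linarith
  have m0 := Kil.one_le_Mss hC hD 0 S.Y0
  have m1 := Kil.Mass_nn hC hD S.Y S.Y'
  have e1 := sum_le_sum fun W (hW : W ∈ (TS m (PP D.M 0 S.Y0)).powerset.filter Dist) =>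
    mul_le_mul_of_nonneg_left (Kil.conf hC hD hK hS (by omega) hR.Y0_le hθ
      (mem_powerset.1 (mem_filter.1 hW).1))
      (Kil.Ws_nn hC hD (mem_powerset.1 (mem_filter.1 hW).1))
  refine le_trans (le_of_eq (sum_congr rfl fun W _ => ?_)) (e1.trans ?_)
  · rw [mul_sum]
    exact sum_congr rfl fun W' _ => mul_assoc _ _ _
  rw [sum_filter] at k1
  have k4 : ∑ W ∈ (TS m (PP D.M 0 S.Y0)).powerset.filter Dist,
      (if Exc D.M 1 S.Y S.Y' W then Ws W * 2 ^ W.card else 0) ≤ 1 / 2 ^ J := by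
    refine le_trans (sum_le_sum_of_subset_of_nonneg (filter_subset _ _) fun W hW _ => ?_) k1
    have := Kil.Ws_nn hC hD (mem_powerset.1 hW)
    split_ifs <;> positivity
  have e3 : ∀ W : Finset (Gen m), ∀ (p : Prop) [Decidable p] (K : ℝ),
      Ws W * (2 ^ (m - 1) * Mass m (PP D.M S.Y S.Y') *
        (2 / 2 ^ J * K + 2 ^ D.W0.card * if p then 2 ^ W.card else 0)) =
      2 ^ (m - 1) * Mass m (PP D.M S.Y S.Y') *
        (2 / 2 ^ J * (Ws W * K) + 2 ^ D.W0.card * if p then Ws W * 2 ^ W.card else 0) := by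
    intro W p _ K
    split_ifs <;> ring
  simp only [e3]
  rw [← mul_sum, sum_add_distrib, ← mul_sum, ← mul_sum]
  have e4 : (0 : ℝ) < 1 / 2 ^ J := by positivity
  have e5 : 2 ^ (m - 1) * (2 * CL + 2 ^ D.W0.card) / 2 ^ J *
      (Mss m (PP D.M 0 S.Y0) * Mass m (PP D.M S.Y S.Y')) =
      2 ^ (m - 1) * Mass m (PP D.M S.Y S.Y') * (2 / 2 ^ J * (CL * Mss m (PP D.M 0 S.Y0)) +
        2 ^ D.W0.card * (1 / 2 ^ J * Mss m (PP D.M 0 S.Y0))) := by ring
  rw [e5]
  exact mul_le_mul_of_nonneg_left (add_le_add (mul_le_mul_of_nonneg_left (hL _) (by positivity))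
    (mul_le_mul_of_nonneg_left (k4.trans (le_mul_of_one_le_right e4.le m0)) (by positivity)))
    (by positivity)

end Pool.Agent.MP_a43263_nt.JU

end
end MrgPart1

-- ======== part 2: formerly Pool.Agent.MP_a43263_nt.JU.Exp
section MrgPart2

/-! PROJECT JU: the total mass, and exceptional configurations are rare. -/

set_option autoImplicit false

noncomputable section

namespace Pool.Agent.MP_a43263_nt.JU

open Finset Filter
open R2 (pri PP chs MERStmt EXCStmt mem_pri mem_PP)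

namespace Exp

variable {m : ℕ}

theorem big {M p : ℕ} (hN : 2 * NE m ≤ m ^ 2) (hM : Sm m M) (hp : p.Prime) (h : ¬p ∣ M) :
    4 * (NE m : ℝ) < p := by
  have h1 : 2 * m ^ 2 < p := not_le.1 fun k => h (hM p hp k)
  have h2 : 4 * NE m < p := by omega
  exact_mod_cast h2

theorem w_pos {p : ℕ} (h : 4 * (NE m : ℝ) < p) : 0 < wt m p := by
  have h0 : (0 : ℝ) ≤ NE m := Nat.cast_nonneg _
  exact one_div_pos.2 (by linarith)

theorem w_le {p : ℕ} (h : 4 * (NE m : ℝ) < p) : wt m p ≤ 2 / p := by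
  have h0 : (0 : ℝ) ≤ NE m := Nat.cast_nonneg _
  rw [wt, div_le_div_iff₀ (by linarith) (by linarith)]
  linarith

theorem w_sub_le {p : ℕ} (h : 4 * (NE m : ℝ) < p) :
    wt m p - 1 / p ≤ 2 * NE m / (p : ℝ) ^ 2 := by
  have h0 : (0 : ℝ) ≤ NE m := Nat.cast_nonneg _
  have h1 : (0 : ℝ) < p := by linarith
  have h2 : (0 : ℝ) < p - NE m := by linarith
  rw [wt, div_sub_div _ _ h2.ne' h1.ne', div_le_div_iff₀ (by positivity) (by positivity)]
  nlinarith [mul_nonneg (mul_nonneg h0 h1.le) (show (0 : ℝ) ≤ p - 2 * NE m by linarith)]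

/-- the common majorant of the local factors -/
def maj (m p : ℕ) : ℝ := (1 + (1 : ℝ) / p) * Real.exp ((2 * NE m + 1) / (p : ℝ) ^ 2)

theorem one_le_maj (p : ℕ) : 1 ≤ maj m p :=
  one_le_mul_of_one_le_of_one_le (le_add_of_nonneg_right (by positivity))
    (Real.one_le_exp (by positivity))

theorem sq_le_maj {p : ℕ} (h : 4 * (NE m : ℝ) < p) : (1 + wt m p / 2) ^ 2 ≤ maj m p := by
  have h0 : (0 : ℝ) ≤ NE m := Nat.cast_nonneg _
  have h1 : (0 : ℝ) < p := by linarith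
  have k0 := w_pos h
  have k1 := w_sub_le h
  have k2 := Real.add_one_le_exp ((2 * NE m + 1) / (p : ℝ) ^ 2)
  have k3 : (wt m p / 2) ^ 2 ≤ 1 / (p : ℝ) ^ 2 := by
    rw [← one_div_pow]
    refine pow_le_pow_left₀ (by positivity) ?_ 2
    have := w_le h
    have e : (2 : ℝ) / p = 2 * (1 / p) := by ring
    linarith
  have k4 : (0 : ℝ) ≤ 1 / p := by positivity
  have k5 : (2 * NE m + 1) / (p : ℝ) ^ 2 = 2 * NE m / (p : ℝ) ^ 2 + 1 / (p : ℝ) ^ 2 := by ring
  have k6 : 1 / (p : ℝ) * 1 ≤ 1 / p * Real.exp ((2 * NE m + 1) / (p : ℝ) ^ 2) :=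
    mul_le_mul_of_nonneg_left (Real.one_le_exp (by positivity)) k4
  have k7 : (1 + wt m p / 2) ^ 2 = 1 + wt m p + (wt m p / 2) ^ 2 := by ring
  rw [maj, add_mul, one_mul]
  linarith

theorem prod_maj (mer : MERStmt) (m : ℕ) :
    ∃ C : ℝ, ∀ y : ℕ, 2 ≤ y → ∏ p ∈ pri 0 y, maj m p ≤ C * Real.log y := by
  obtain ⟨C, hC⟩ := mer.2.2.1 1
  refine ⟨C * Real.exp (2 * (2 * NE m + 1)), fun y hy => ?_⟩
  have h2 := hC y hy
  rw [Nat.cast_one, pow_one] at h2
  have h3 : ∑ p ∈ pri 0 y, (2 * (NE m : ℝ) + 1) / (p : ℝ) ^ 2 ≤ 2 * (2 * (NE m : ℝ) + 1) := by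
    have k1 : ∑ p ∈ pri 0 y, ((p : ℝ) ^ 2)⁻¹ ≤ ∑ p ∈ Ioo 0 (y + 1), ((p : ℝ) ^ 2)⁻¹ := by
      refine sum_le_sum_of_subset_of_nonneg (fun p hp => ?_) fun p _ _ => by positivity
      obtain ⟨k1, k2, -⟩ := mem_pri.1 hp
      exact mem_Ioo.2 ⟨k1, by omega⟩
    have k2 := sum_Ioo_inv_sq_le (α := ℝ) 0 (y + 1)
    simp only [div_eq_mul_inv, ← mul_sum]
    have k3 : (0 : ℝ) ≤ 2 * NE m + 1 := by positivity
    norm_num at k2
    nlinarith
  have h4 : 0 ≤ C * Real.log y := le_trans (prod_nonneg fun p _ => by positivity) h2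
  simp only [maj]
  rw [prod_mul_distrib, ← Real.exp_sum]
  calc _ ≤ C * Real.log y * Real.exp (2 * (2 * NE m + 1)) := by gcongr
    _ = _ := by ring

end Exp

open Exp in
theorem mes : COMBStmt → MERStmt → MESStmt := by
  intro comb mer m hm
  have hN := (comb m hm).1.2.1
  obtain ⟨C, hC⟩ := prod_maj mer m
  refine ⟨C ^ NE m, fun M y₀ y y' hM h1 h2 hy => ?_⟩
  have hb : ∀ {a b p : ℕ}, p ∈ PP M a b → 4 * (NE m : ℝ) < p := fun hp =>
    big hN hM (mem_PP.1 hp).2.2.1 (mem_PP.1 hp).2.2.2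
  have e1 : Mss m (PP M 0 y₀) = (∏ p ∈ PP M 0 y₀, (1 + wt m p / 2) ^ 2) ^ NE m := by
    rw [Mss, ← prod_pow]
    exact prod_congr rfl fun p _ => pow_mul _ _ _
  have e2 : Mass m (PP M y y') = (∏ p ∈ PP M y y', (1 + wt m p)) ^ NE m := by
    rw [Mass, prod_pow]
  rw [e1, e2, ← mul_pow, ← mul_pow]
  have n1 : ∀ p ∈ PP M y y', 0 ≤ 1 + wt m p := fun p hp => by
    have := w_pos (hb hp)
    positivity
  refine pow_le_pow_left₀ (mul_nonneg (prod_nonneg fun p _ => sq_nonneg _) (prod_nonneg n1)) ?_ _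
  have k1 : ∏ p ∈ PP M 0 y₀, (1 + wt m p / 2) ^ 2 ≤ ∏ p ∈ PP M 0 y₀, maj m p :=
    prod_le_prod (fun p _ => sq_nonneg _) fun p hp => sq_le_maj (hb hp)
  have k2 : ∏ p ∈ PP M y y', (1 + wt m p) ≤ ∏ p ∈ PP M y y', maj m p := by
    refine prod_le_prod n1 fun p hp => le_trans ?_ (sq_le_maj (hb hp))
    nlinarith [sq_nonneg (wt m p)]
  have hd : Disjoint (PP M 0 y₀) (PP M y y') := disjoint_left.2 fun p hp hq => by
    have := (mem_PP.1 hp).2.1
    have := (mem_PP.1 hq).1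
    omega
  have n2 : ∀ p : ℕ, 0 ≤ maj m p := fun p => zero_le_one.trans (one_le_maj p)
  calc _ ≤ (∏ p ∈ PP M 0 y₀, maj m p) * ∏ p ∈ PP M y y', maj m p :=
        mul_le_mul k1 k2 (prod_nonneg n1) (prod_nonneg fun p _ => n2 p)
    _ = ∏ p ∈ PP M 0 y₀ ∪ PP M y y', maj m p := (prod_union hd).symm
    _ ≤ ∏ p ∈ pri 0 y', maj m p := by
        refine prod_le_prod_of_subset_of_one_le (fun p hp => ?_) (fun p _ => n2 p)
          fun p _ _ => one_le_maj p
        rcases mem_union.1 hp with hp | hp <;> obtain ⟨-, j1, j2, -⟩ := mem_PP.1 hp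
        · exact mem_pri.2 ⟨j2.pos, by omega, j2⟩
        · exact mem_pri.2 ⟨j2.pos, j1, j2⟩
    _ ≤ _ := hC y' hy

namespace Exp

variable {m : ℕ}

theorem card_sg (m : ℕ) : (univ.filter fun t : Tag m => t.2 ≠ none).card = 2 * NE m := by
  have e : (univ.filter fun t : Tag m => t.2 ≠ none) =
      (univ : Finset (Ed m)) ×ˢ ({some true, some false} : Finset (Option Bool)) := by
    ext ⟨e, _ | _ | _⟩ <;> simp
  rw [e, card_product, card_univ, NE, mul_comm]
  rfl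

/-- configurations that contain prescribed primes -/
theorem meets {τ : Type} [DecidableEq τ] (T : Finset τ) (P : Finset ℕ) (w : ℕ → ℝ)
    (hw : ∀ p ∈ P, 0 ≤ w p) (F : Finset ℕ) (hF : ∀ p ∈ F, 0 ≤ w p) :
    ∑ Z ∈ (T ×ˢ P).powerset.filter (fun Z => ∀ p ∈ F, ∃ a ∈ Z, a.2 = p), ∏ a ∈ Z, w a.2 ≤
      (∏ p ∈ F, T.card * w p) * ∏ p ∈ P, (1 + w p) ^ T.card := by
  have hnn : ∀ Z ∈ (T ×ˢ P).powerset, 0 ≤ ∏ a ∈ Z, w a.2 := fun Z hZ =>
    prod_nonneg fun a ha => hw _ (mem_product.1 (mem_powerset.1 hZ ha)).2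
  induction F using Finset.induction_on with
  | empty =>
    rw [filter_true_of_mem (by simp), prod_empty, one_mul, ← prod_one_add]
    simp only [prod_product, prod_const, prod_pow, le_refl]
  | insert p F hp ih =>
    have ih' := ih fun q hq => hF q (mem_insert_of_mem hq)
    have hwp := hF p (mem_insert_self _ _)
    have h1 := RG.Exp.union_bound
      ((T ×ˢ P).powerset.filter (fun Z => ∀ q ∈ insert p F, ∃ a ∈ Z, a.2 = q)) (T ×ˢ P).powerset
      T (fun t Z => (t, p) ∈ Z ∧ ∀ q ∈ F, ∃ a ∈ Z, a.2 = q)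
      (fun Z => ∏ a ∈ Z, w a.2) hnn (filter_subset _ _) (fun Z hZ => by
        obtain ⟨k1, k2⟩ := mem_filter.1 hZ
        obtain ⟨a, ha, rfl⟩ := k2 p (mem_insert_self _ _)
        exact ⟨a.1, (mem_product.1 (mem_powerset.1 k1 ha)).1, ha,
          fun q hq => k2 q (mem_insert_of_mem hq)⟩)
    refine h1.trans ?_
    have h2 : ∀ t ∈ T,
        ∑ Z ∈ (T ×ˢ P).powerset.filter (fun Z => (t, p) ∈ Z ∧ ∀ q ∈ F, ∃ a ∈ Z, a.2 = q),
          ∏ a ∈ Z, w a.2 ≤
          w p * ((∏ p ∈ F, T.card * w p) * ∏ p ∈ P, (1 + w p) ^ T.card) := by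
      intro t _
      have e1 : ∀ Z ∈ (T ×ˢ P).powerset.filter
          (fun Z => (t, p) ∈ Z ∧ ∀ q ∈ F, ∃ a ∈ Z, a.2 = q),
          ∏ a ∈ Z, w a.2 = w p * ∏ a ∈ Z.erase (t, p), w a.2 := fun Z hZ =>
        (mul_prod_erase Z (fun a : τ × ℕ => w a.2) (mem_filter.1 hZ).2.1).symm
      rw [sum_congr rfl e1, ← mul_sum]
      refine mul_le_mul_of_nonneg_left (le_trans ?_ ih') hwp
      rw [← sum_image (f := fun Z : Finset (τ × ℕ) => ∏ a ∈ Z, w a.2)
        (g := fun Z : Finset (τ × ℕ) => Z.erase (t, p))]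
      · refine sum_le_sum_of_subset_of_nonneg ?_ fun Z hZ _ => hnn Z (mem_filter.1 hZ).1
        intro Z hZ
        obtain ⟨Z', hZ', rfl⟩ := mem_image.1 hZ
        obtain ⟨k1, k2, k3⟩ := mem_filter.1 hZ'
        refine mem_filter.2 ⟨mem_powerset.2 ((erase_subset _ _).trans (mem_powerset.1 k1)),
          fun q hq => ?_⟩
        obtain ⟨a, ha, rfl⟩ := k3 q hq
        exact ⟨a, mem_erase.2 ⟨fun e => hp (by rw [e] at hq; exact hq), ha⟩, rfl⟩
      · intro Z hZ Z' hZ' e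
        rw [← insert_erase (mem_filter.1 hZ).2.1, ← insert_erase (mem_filter.1 hZ').2.1]
        exact congrArg _ e
    refine (sum_le_sum h2).trans (le_of_eq ?_)
    rw [sum_const, prod_insert hp, nsmul_eq_mul]
    ring

/-- the weight of the primes of `r` outside `M` -/
theorem out_le {M r : ℕ} (hN : 2 * NE m ≤ m ^ 2) (hM : 0 < M) (hS : Sm m M) (hr : Squarefree r) :
    ∏ p ∈ r.primeFactors.filter (fun p => ¬p ∣ M), ((2 * NE m : ℕ) : ℝ) * wt m p ≤
      M * ((4 * NE m + 1 : ℕ) ^ r.primeFactors.card / (r : ℝ)) := by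
  have hn : (0 : ℝ) ≤ NE m := Nat.cast_nonneg _
  have h1 : ∏ p ∈ r.primeFactors.filter (fun p => ¬p ∣ M), ((2 * NE m : ℕ) : ℝ) * wt m p ≤
      ∏ p ∈ r.primeFactors.filter (fun p => ¬p ∣ M), (4 * NE m + 1 : ℝ) / p := by
    refine prod_le_prod (fun p hp => ?_) fun p hp => ?_
    · have := w_pos (big hN hS (Nat.prime_of_mem_primeFactors (mem_filter.1 hp).1)
        (mem_filter.1 hp).2)
      positivity
    · have := w_le (big hN hS (Nat.prime_of_mem_primeFactors (mem_filter.1 hp).1)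
        (mem_filter.1 hp).2)
      calc ((2 * NE m : ℕ) : ℝ) * wt m p ≤ ((2 * NE m : ℕ) : ℝ) * (2 / (p : ℝ)) := by gcongr
        _ = 4 * NE m / p := by push_cast; ring
        _ ≤ _ := by gcongr; linarith
  refine h1.trans ?_
  have h2 := prod_filter_mul_prod_filter_not r.primeFactors (fun p => p ∣ M) fun p => p
  rw [Nat.prod_primeFactors_of_squarefree hr] at h2
  have h3 : ∏ p ∈ r.primeFactors.filter (fun p => p ∣ M), p ≤ M := by
    refine Nat.le_of_dvd hM (dvd_trans (prod_dvd_prod_of_subset _ _ _ fun p hp => ?_)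
      (Nat.prod_primeFactors_dvd M))
    exact Nat.mem_primeFactors.2 ⟨Nat.prime_of_mem_primeFactors (mem_filter.1 hp).1,
      (mem_filter.1 hp).2, hM.ne'⟩
  have h4 : 0 < ∏ p ∈ r.primeFactors.filter (fun p => ¬p ∣ M), p :=
    prod_pos fun p hp => (Nat.prime_of_mem_primeFactors (mem_filter.1 hp).1).pos
  have h5 : (r : ℝ) ≤ M * ((∏ p ∈ r.primeFactors.filter (fun p => ¬p ∣ M), p : ℕ) : ℝ) := by
    have : r ≤ M * ∏ p ∈ r.primeFactors.filter (fun p => ¬p ∣ M), p := by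
      conv_lhs => rw [← h2]
      exact Nat.mul_le_mul_right _ h3
    exact_mod_cast this
  have hr0 : (0 : ℝ) < r := Nat.cast_pos.2 (Nat.pos_of_ne_zero hr.ne_zero)
  rw [prod_div_distrib, prod_const, ← Nat.cast_prod, ← mul_div_assoc,
    div_le_div_iff₀ (Nat.cast_pos.2 h4) hr0]
  calc (4 * NE m + 1 : ℝ) ^ (r.primeFactors.filter (fun p => ¬p ∣ M)).card * r
      ≤ (4 * NE m + 1) ^ r.primeFactors.card *
        (M * ((∏ p ∈ r.primeFactors.filter (fun p => ¬p ∣ M), p : ℕ) : ℝ)) := by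
        gcongr
        · linarith
        · exact filter_subset _ _
    _ = _ := by push_cast; ring

end Exp

open Exp in
theorem expo_main : COMBStmt → MERStmt → EXCStmt → EXPStmt := by
  classical
  intro comb mer hexc m M k ε η hm hM hS hε hη
  have hN := (comb m hm).1.2.1
  obtain ⟨C, hC⟩ := mes comb mer m hm
  filter_upwards [hexc k (4 * NE m + 1) (2 * NE m + 1) ε hε, RG.Exp.ev_log_ge 1,
    RG.Exp.ev_log_ge (M * C ^ 2 / η), eventually_ge_atTop 2, eventually_ge_atTop M]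
    with y h1 h2 h3 hy hMy y₀ y' hy₀ hy'
  set P := PP M 0 y with hP
  set B : ℕ := ∏ p ∈ Icc 1 y, p with hB
  set E : Finset ℤ := (Icc (-B : ℤ) B).filter fun G => Squarefree G.natAbs ∧ G ≠ 1 ∧
    (∀ p ∈ G.natAbs.primeFactors, p ≤ y) ∧ ε < |chs G y y'| with hE
  have hE1 : ∀ G ∈ E, Squarefree G.natAbs ∧ G ≠ 1 ∧ (∀ p ∈ G.natAbs.primeFactors, p ≤ y) ∧
      ε < |chs G y y'| := fun G hG => (mem_filter.1 hG).2
  have hsub : TS m (PP M 0 y₀) ⊆ TS m P := fun a ha => by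
    obtain ⟨k1, k2⟩ := mem_product.1 ha
    obtain ⟨k3, k4, k5⟩ := mem_PP.1 k2
    exact mem_product.2 ⟨k1, mem_PP.2 ⟨k3, k4.trans hy₀, k5⟩⟩
  have hw : ∀ p ∈ P, 0 ≤ wt m p := fun p hp =>
    (w_pos (big hN hS (mem_PP.1 hp).2.2.1 (mem_PP.1 hp).2.2.2)).le
  have hW : ∀ Z : Finset (Gen m), Ws Z * 2 ^ Z.card = ∏ a ∈ Z, wt m a.2 := fun Z => by
    rw [Ws, ← prod_const, ← prod_mul_distrib]
    exact prod_congr rfl fun a _ => by ring
  simp only [hW]
  refine (RG.Exp.union_bound _ (TS m P).powerset E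
    (fun G Z => ∀ p ∈ G.natAbs.primeFactors.filter (fun p => ¬p ∣ M), ∃ a ∈ Z, a.2 = p)
    (fun Z => ∏ a ∈ Z, wt m a.2)
    (fun Z hZ => prod_nonneg fun a ha => hw _ (mem_product.1 (mem_powerset.1 hZ ha)).2)
    (fun Z hZ => mem_powerset.2 ((mem_powerset.1 (mem_filter.1 hZ).1).trans hsub))
    fun Z hZ => ?_).trans ?_
  · obtain ⟨k1, G, k2, k3, k4, k5⟩ := mem_filter.1 hZ
    have k6 := (mem_powerset.1 k1).trans hsub
    have k7 : ∀ p ∈ G.natAbs.primeFactors, p ≤ y := fun p hp => by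
      rcases k4 p hp with h | ⟨t, h⟩
      · exact (Nat.le_of_dvd hM h).trans hMy
      · exact (mem_PP.1 (mem_product.1 (k6 h)).2).2.1
    have k8 : G.natAbs ≤ B := by
      rw [← Nat.prod_primeFactors_of_squarefree k2]
      refine Nat.le_of_dvd (prod_pos fun p hp => (mem_Icc.1 hp).1)
        (prod_dvd_prod_of_subset _ _ _ fun p hp => ?_)
      exact mem_Icc.2 ⟨(Nat.prime_of_mem_primeFactors hp).pos, k7 p hp⟩
    refine ⟨G, mem_filter.2 ⟨mem_Icc.2 (by omega), k2, k3, k7, k5⟩, fun p hp => ?_⟩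
    obtain ⟨t, ht⟩ := (k4 p (mem_filter.1 hp).1).resolve_left (mem_filter.1 hp).2
    exact ⟨_, ht, rfl⟩
  · have hmass : ∏ p ∈ P, (1 + wt m p) ^ (2 * NE m) ≤ (C * Real.log y ^ NE m) ^ 2 := by
      have k0 : PP M 0 0 = ∅ := eq_empty_of_forall_notMem fun p hp => by
        have := (mem_PP.1 hp).1
        have := (mem_PP.1 hp).2.1
        omega
      have k1 := hC M 0 0 y hS le_rfl (Nat.zero_le _) hy
      rw [k0, Mss, prod_empty, one_mul] at k1
      have k2 : 0 ≤ Mass m P := prod_nonneg fun p hp => pow_nonneg (by linarith [hw p hp]) _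
      calc ∏ p ∈ P, (1 + wt m p) ^ (2 * NE m) = Mass m P ^ 2 := by
            rw [Mass, ← prod_pow]
            exact prod_congr rfl fun p _ => by rw [mul_comm, pow_mul]
        _ ≤ _ := pow_le_pow_left₀ k2 k1 2
    have hG : ∀ G ∈ E, ∑ Z ∈ (TS m P).powerset.filter
        (fun Z => ∀ p ∈ G.natAbs.primeFactors.filter (fun p => ¬p ∣ M), ∃ a ∈ Z, a.2 = p),
          ∏ a ∈ Z, wt m a.2 ≤ (M * (C * Real.log y ^ NE m) ^ 2) *
            (((4 * NE m + 1 : ℕ) : ℝ) ^ G.natAbs.primeFactors.card / |(G : ℝ)|) := by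
      intro G hG
      have k0 := meets (univ.filter fun t : Tag m => t.2 ≠ none) P (wt m) hw
        (G.natAbs.primeFactors.filter fun p => ¬p ∣ M) fun p hp =>
          (w_pos (big hN hS (Nat.prime_of_mem_primeFactors (mem_filter.1 hp).1)
            (mem_filter.1 hp).2)).le
      rw [card_sg] at k0
      refine le_trans k0 ?_
      have k1 := out_le hN hM hS (hE1 G hG).1
      rw [← Int.cast_abs, Int.abs_eq_natAbs, Int.cast_natCast]
      calc _ ≤ (M * ((4 * NE m + 1 : ℕ) ^ G.natAbs.primeFactors.card / (G.natAbs : ℝ))) *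
            (C * Real.log y ^ NE m) ^ 2 :=
            mul_le_mul k1 hmass (prod_nonneg fun p hp => pow_nonneg (by linarith [hw p hp]) _)
              (by positivity)
        _ = _ := by ring
    refine (sum_le_sum hG).trans ?_
    rw [← mul_sum]
    have hL : 0 < Real.log y := by linarith
    calc _ ≤ (M * (C * Real.log y ^ NE m) ^ 2) * (1 / Real.log y ^ (2 * NE m + 1)) := by
          gcongr
          exact h1 y' E hy' hE1
      _ = (M * C ^ 2 / η) * η / Real.log y := by field_simp; ring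
      _ ≤ Real.log y * η / Real.log y := by gcongr
      _ = η := by field_simp

end Pool.Agent.MP_a43263_nt.JU

end
end MrgPart2

-- ======== part 3: formerly Pool.Agent.MP_a43263_nt.JU.Fib
section MrgPart3

/-! PROJECT JU, modules FIB and DOM: the sieve bound for given cores and signs and the domination
by a product measure. -/

set_option autoImplicit false

noncomputable section

namespace Pool.Agent.MP_a43263_nt.JU

open Finset Filter
open R2 (PP Sc Core Shape mem_PP)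
open RG (Rel Ev EE ev_Y' ev_ge)

namespace Fib

variable {m : ℕ}

theorem mem_gens {l : Ed m → ℕ} {x : Gen m} :
    x ∈ gens l ↔ x.1.2 = some true ∧ x.2 ∈ (l x.1.1).primeFactors := by
  obtain ⟨⟨e, t⟩, p⟩ := x
  simp only [gens, tg, mem_biUnion, mem_univ, true_and, mem_image, Prod.mk.injEq]
  constructor
  · rintro ⟨h, q, hq, ⟨rfl, rfl⟩, rfl⟩
    exact ⟨rfl, hq⟩
  · rintro ⟨rfl, hq⟩
    exact ⟨e, p, hq, ⟨rfl, rfl⟩, rfl⟩

theorem prod_gens (l : Ed m → ℕ) (f : ℕ → ℝ) :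
    ∏ x ∈ gens l, f x.2 = ∏ h, ∏ p ∈ (l h).primeFactors, f p := by
  rw [gens, prod_biUnion]
  · exact prod_congr rfl fun h _ => prod_image fun _ _ _ _ e => (Prod.mk.inj e).2
  · intro h _ k _ hn
    refine disjoint_left.2 fun x h1 h2 => hn ?_
    obtain ⟨p, -, rfl⟩ := mem_image.1 h1
    obtain ⟨q, -, e⟩ := mem_image.1 h2
    exact (Prod.mk.inj (Prod.mk.inj e).1).1.symm

theorem edge {i j : Fin m} (h : i ≠ j) (a : Fin m → ℤ) : ∃ e : Ed m, inE i e ∧ inE j e ∧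
    ∀ d : ℤ, d ∣ a i - a j → d ∣ a e.1.1 - a e.1.2 := by
  rcases lt_or_gt_of_ne h with c | c
  · exact ⟨⟨(i, j), c⟩, Or.inl rfl, Or.inr rfl, fun _ z => z⟩
  · exact ⟨⟨(j, i), c⟩, Or.inr rfl, Or.inl rfl, fun _ z => dvd_sub_comm.1 z⟩

theorem ga_mod {a b : Fin m → ℤ} {p : ℤ} (e : ∀ i, a i ≡ b i [ZMOD p]) (h : Ed m) :
    ga a h ≡ ga b h [ZMOD p] :=
  (Int.ModEq.prod fun k _ => (e _).sub (e k)).mul_left _

theorem eq_of_dvd {p x y : ℤ} (hx : x ∈ Ico 0 p) (hy : y ∈ Ico 0 p) (h : p ∣ x - y) : x = y := by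
  rw [mem_Ico] at hx hy
  exact sub_eq_zero.1 (Int.eq_zero_of_abs_lt_dvd h (abs_lt.2 ⟨by omega, by omega⟩))

/-- the classes modulo `p` on which the form of `h` vanishes -/
def cl (h : Ed m) (p : ℕ) : Finset (Fin m → ℤ) :=
  (Fintype.piFinset fun _ => Ico (0 : ℤ) p).filter fun b => (p : ℤ) ∣ b h.1.1 - b h.1.2

theorem card_cl (h : Ed m) (p : ℕ) : (cl h p).card ≤ p ^ (m - 1) := by
  have e : (Fintype.piFinset fun i : Fin m =>
      if i = h.1.2 then {0} else Ico (0 : ℤ) p).card = p ^ (m - 1) := by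
    rw [Fintype.card_piFinset, ← mul_prod_erase _ _ (mem_univ h.1.2), if_pos rfl, card_singleton,
      one_mul, prod_congr rfl (g := fun _ => p) fun i hi => by
        rw [if_neg (mem_erase.1 hi).1]
        simp, prod_const, card_erase_of_mem (mem_univ _), card_univ, Fintype.card_fin]
  rw [← e]
  refine card_le_card_of_injOn (fun b => Function.update b h.1.2 0) (fun b hb => ?_)
    fun b hb b' hb' z => ?_
  · refine Fintype.mem_piFinset.2 fun i => ?_
    by_cases c : i = h.1.2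
    · simp [c]
    · simpa [c] using Fintype.mem_piFinset.1 (mem_filter.1 hb).1 i
  · have k : ∀ i, i ≠ h.1.2 → b i = b' i := fun i c => by simpa [c] using congrFun z i
    funext i
    by_cases c : i = h.1.2
    · subst c
      refine eq_of_dvd (Fintype.mem_piFinset.1 (mem_filter.1 hb).1 _)
        (Fintype.mem_piFinset.1 (mem_filter.1 hb').1 _) ?_
      have := dvd_sub (mem_filter.1 hb').2 (mem_filter.1 hb).2
      rwa [k _ h.2.ne, sub_sub_sub_cancel_left] at this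
    · exact k i c

theorem card_sign (hm : 3 ≤ m) (h : Ed m) {p : ℕ} (hp : p.Prime) (h2 : p ≠ 2) {s : ℤ}
    (hs : s = 1 ∨ s = -1) :
    2 * ((cl h p).filter fun b => jacobiSym (ga b h) p = s).card ≤ p ^ (m - 1) := by
  have := Fact.mk hp
  obtain ⟨n0, hn⟩ := FiniteField.exists_nonsquare (F := ZMod p) (by rwa [ZMod.ringChar_zmod_n])
  obtain ⟨n, rfl⟩ := ZMod.intCast_surjective n0
  rw [← ZMod.nonsquare_iff_jacobiSym_eq_neg_one] at hn
  have hn' : ¬(p : ℤ) ∣ n := fun c => by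
    rw [jacobiSym.mod_left, Int.emod_eq_zero_of_dvd c, jacobiSym.zero_left hp.one_lt] at hn
    omega
  obtain ⟨k, hk⟩ : (out h).Nonempty := by
    by_contra c
    have z : (univ : Finset (Fin m)) ⊆ {h.1.1, h.1.2} := fun i _ => by
      by_contra d
      exact c ⟨i, mem_filter.2 ⟨mem_univ _, by simpa [inE] using d⟩⟩
    have := (card_le_card z).trans card_le_two
    rw [card_univ, Fintype.card_fin] at this
    omega
  have k1 : h.1.1 ≠ k := fun c => (mem_filter.1 hk).2 (Or.inl c.symm)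
  have k2 : h.1.2 ≠ k := fun c => (mem_filter.1 hk).2 (Or.inr c.symm)
  have p0 : (0 : ℤ) < p := by exact_mod_cast hp.pos
  have z := card_filter_add_card_filter_not (s := cl h p) fun b => jacobiSym (ga b h) p = s
  have z2 : ((cl h p).filter fun b => jacobiSym (ga b h) p = s).card ≤
      ((cl h p).filter fun b => ¬jacobiSym (ga b h) p = s).card := by
    refine card_le_card_of_injOn
      (fun b => Function.update b k ((b h.1.1 - n * (b h.1.1 - b k)) % p)) (fun b hb => ?_)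
      fun b hb b' hb' z => ?_
    · obtain ⟨a1, a2⟩ := mem_filter.1 hb
      obtain ⟨a3, a4⟩ := mem_filter.1 a1
      refine mem_filter.2 ⟨mem_filter.2 ⟨Fintype.mem_piFinset.2 fun i => ?_, by
        simpa [k1, k2] using a4⟩, ?_⟩
      · by_cases c : i = k
        · simpa [c] using ⟨Int.emod_nonneg _ p0.ne', Int.emod_lt_of_pos _ p0⟩
        · simpa [c] using Fintype.mem_piFinset.1 a3 i
      · have e : ga (Function.update b k ((b h.1.1 - n * (b h.1.1 - b k)) % p)) h ≡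
            n * ga b h [ZMOD p] := by
          rw [ga, ga, gam, gam, ← mul_prod_erase _ _ hk, ← mul_prod_erase _ _ hk, mul_left_comm n,
            ← mul_assoc n, prod_congr rfl (g := fun i => b h.1.1 - b i) fun i hi => by
              simp [k1, (mem_erase.1 hi).1]]
          refine (Int.ModEq.mul_right _ ?_).mul_left _
          rw [Function.update_self, Function.update_of_ne k1]
          simpa using (Int.mod_modEq (b h.1.1 - n * (b h.1.1 - b k)) p).sub_left (b h.1.1)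
        show ¬jacobiSym _ p = s
        rw [jacobiSym.mod_left' e, jacobiSym.mul_left, hn, a2]
        omega
    · have w : ∀ i, i ≠ k → b i = b' i := fun i c => by simpa [c] using congrFun z i
      funext i
      by_cases c : i = k
      · subst c
        refine eq_of_dvd (Fintype.mem_piFinset.1 (mem_filter.1 (mem_filter.1 hb).1).1 _)
          (Fintype.mem_piFinset.1 (mem_filter.1 (mem_filter.1 hb').1).1 _) ?_
        have e : b h.1.1 - n * (b h.1.1 - b i) ≡ b' h.1.1 - n * (b' h.1.1 - b' i) [ZMOD p] := by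
          simpa [Int.ModEq] using congrFun z i
        have e2 := e.symm.dvd
        rw [w _ k1, show b' h.1.1 - n * (b' h.1.1 - b i) - (b' h.1.1 - n * (b' h.1.1 - b' i)) =
          n * (b i - b' i) by ring] at e2
        exact ((Nat.prime_iff_prime_int.1 hp).dvd_or_dvd e2).resolve_left hn'
      · exact w i c
  have := card_cl h p
  omega

theorem cnt {α : Type} {A : Finset α} {B : ℝ} (h0 : 0 ≤ B) (h : ∀ a ∈ A, (A.card : ℝ) ≤ B) :
    (A.card : ℝ) ≤ B := by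
  rcases A.eq_empty_or_nonempty with rfl | ⟨a, ha⟩
  · simpa using h0
  · exact h a ha

theorem big {M p : ℕ} (hM : Sm m M) (hp : p.Prime) (h : ¬p ∣ M) : 2 * m ^ 2 < p :=
  not_le.1 fun c => h (hM p hp c)

theorem ndvd {M c p : ℕ} (h : c.Coprime M) (hp : p ∈ c.primeFactors) : ¬p ∣ M := fun e =>
  (Nat.prime_of_mem_primeFactors hp).ne_one
    (Nat.eq_one_of_dvd_coprimes h (Nat.dvd_of_mem_primeFactors hp) e)

end Fib

open Fib Classical in
theorem fib : COMBStmt → SIVStmt → FIBStmt := by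
  intro cb sv m D hD
  have hm := hD.three
  obtain ⟨⟨-, hN, -⟩, -⟩ := cb m hm
  obtain ⟨C, hC, ev⟩ := sv m D.M hm hD.pos hD.sm
  refine ⟨C * D.R ^ m, by positivity, ?_⟩
  filter_upwards [ev, eventually_ge_atTop 1] with y hy y1 Z c T s hZ hc hcc hs
  have c0 : ∀ h, c h ≠ 0 := fun h => (hc h).1.ne_zero
  obtain ⟨q, hq⟩ : ∃ q, q = ∏ h, c h := ⟨_, rfl⟩
  have q0 : 0 < q := hq ▸ prod_pos fun h _ => Nat.pos_of_ne_zero (c0 h)
  have qM : q.Coprime D.M := hq ▸ Nat.Coprime.prod_left fun h _ => (hc h).2.1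
  have qL : y ^ (100 * m) * q ≤ D.R * Z := by
    have a1 : q ≤ y ^ (6 * NE m) := by
      rw [hq, pow_mul]
      exact prod_le_pow_card univ c (y ^ 6) fun h _ => (hc h).2.2.1
    refine ((Nat.mul_le_mul_left _ a1).trans ?_).trans (Nat.le_mul_of_pos_left _ hD.one)
    rw [← pow_add]
    exact (Nat.pow_le_pow_right y1 (by nlinarith)).trans hZ
  have qF : q.primeFactors = univ.biUnion fun h => (c h).primeFactors := by
    ext p
    simp only [mem_biUnion, mem_univ, true_and, Nat.mem_primeFactors]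
    constructor
    · rintro ⟨a1, a2, -⟩
      obtain ⟨h, -, a3⟩ := (a1.prime.dvd_finsetProd_iff _).1 (hq ▸ a2)
      exact ⟨h, a1, a3, c0 h⟩
    · rintro ⟨h, a1, a2, -⟩
      exact ⟨a1, hq ▸ a2.trans (dvd_prod_of_mem c (mem_univ h)), q0.ne'⟩
  have pb : ∀ x ∈ gens c, x.2.Prime ∧ 2 * m ^ 2 < x.2 := fun x hx =>
    have a := (mem_gens.1 hx).2
    ⟨Nat.prime_of_mem_primeFactors a,
      big hD.sm (Nat.prime_of_mem_primeFactors a) (ndvd (hc _).2.1 a)⟩
  have pN : ∀ x ∈ gens c, (0 : ℝ) < (x.2 : ℝ) - NE m := fun x hx => by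
    have : NE m < x.2 := by have := (pb x hx).2; omega
    exact sub_pos.2 (by exact_mod_cast this)
  have qP : ∀ f : ℕ → ℝ, ∏ p ∈ q.primeFactors, f p = ∏ x ∈ gens c, f x.2 := fun f => by
    rw [qF, prod_biUnion fun h _ k _ hn => (hcc h k hn).disjoint_primeFactors, prod_gens]
  have qE : (q : ℝ) = ∏ x ∈ gens c, (x.2 : ℝ) := by
    rw [prod_gens c fun p => (p : ℝ), hq, Nat.cast_prod]
    exact prod_congr rfl fun h _ => by
      rw [← Nat.cast_prod, Nat.prod_primeFactors_of_squarefree (hc h).1]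
  have B0 : 0 ≤ C * (((D.R * Z : ℕ) : ℝ) / q) ^ m / Real.log y ^ NE m *
      ∏ p ∈ q.primeFactors, (p : ℝ) / (p - NE m) := by
    rw [qP]
    exact mul_nonneg (div_nonneg (by positivity) (pow_nonneg (Real.log_natCast_nonneg _) _))
      (prod_nonneg fun x hx => div_nonneg (Nat.cast_nonneg _) (pN x hx).le)
  rw [card_eq_sum_card_fiberwise (f := fun (a : Fin m → ℤ) (x : gens c) i => a i % (x.1.2 : ℤ))
    (t := Fintype.piFinset fun x : gens c => (cl x.1.1.1 x.1.2).filter fun b =>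
      x.1.2 ∈ T → jacobiSym (ga b x.1.1.1) x.1.2 = s x.1.2) (fun a ha => by
      refine Fintype.mem_piFinset.2 fun x => ?_
      obtain ⟨⟨P, -, -, a1⟩, a2⟩ := (mem_filter.1 ha).2 x.1.1.1
      have a3 := (mem_gens.1 x.2).2
      have p0 : (0 : ℤ) < x.1.2 := by exact_mod_cast (pb _ x.2).1.pos
      refine mem_filter.2 ⟨mem_filter.2 ⟨Fintype.mem_piFinset.2 fun i =>
        mem_Ico.2 ⟨Int.emod_nonneg _ p0.ne', Int.emod_lt_of_pos _ p0⟩, ?_⟩, fun z => ?_⟩
      · refine ((Int.mod_modEq _ _).sub (Int.mod_modEq _ _)).symm.dvd_iff.1 ?_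
        rw [a1]
        exact ((Int.natCast_dvd_natCast.2 (Nat.dvd_of_mem_primeFactors a3)).mul_right _).mul_left _
      · rw [← a2 _ a3 z]
        exact jacobiSym.mod_left' (ga_mod (fun i => Int.mod_modEq _ _) _)), Nat.cast_sum]
  refine le_trans (sum_le_card_nsmul _ _ (C * (((D.R * Z : ℕ) : ℝ) / q) ^ m / Real.log y ^ NE m *
      ∏ p ∈ q.primeFactors, (p : ℝ) / (p - NE m)) fun w _ => ?_) ?_
  · refine cnt B0 fun a0 h0 => ?_
    refine le_trans (Nat.cast_le.2 (card_le_card fun a ha => ?_)) (hy (D.R * Z) q a0 q0 qM qL)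
    obtain ⟨a1, a2⟩ := mem_filter.1 ha
    obtain ⟨a3, a4⟩ := mem_filter.1 a1
    refine mem_filter.2 ⟨a3, fun i => ?_, fun p p1 p2 p3 i j hij z => p3 ?_⟩
    · rw [Int.modEq_iff_dvd, hq, Nat.cast_prod]
      refine prod_dvd_of_coprime (fun h _ k _ hn => Nat.isCoprime_iff_coprime.2 (hcc h k hn))
        fun h _ => ?_
      rw [Int.natCast_dvd, ← Nat.prod_primeFactors_of_squarefree (hc h).1]
      refine prod_primes_dvd _ (fun p hp => (Nat.prime_of_mem_primeFactors hp).prime) fun p hp => ?_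
      rw [← Int.natCast_dvd, ← Int.modEq_iff_dvd]
      exact congrFun (congrFun (a2.trans (mem_filter.1 h0).2.symm)
        ⟨(tg h, p), mem_gens.2 ⟨rfl, hp⟩⟩) i
    · obtain ⟨e, -, -, z'⟩ := edge hij a
      obtain ⟨⟨P, b1, b2, b3⟩, -⟩ := a4 e
      have b4 : p ∣ D.Δ e * (c e * P) := by
        have := z' _ z
        rw [b3] at this
        exact_mod_cast this
      rcases p1.dvd_mul.1 b4 with b5 | b5
      · exact (b5.trans (hD.dv e)).mul_right _
      rcases p1.dvd_mul.1 b5 with b6 | b6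
      · exact (hq ▸ b6.trans (dvd_prod_of_mem c (mem_univ e)) : p ∣ q).mul_left _
      · have := (Nat.prime_dvd_prime_iff_eq p1 b1).1 b6
        omega
  · rw [nsmul_eq_mul, Fintype.card_piFinset, Nat.cast_prod, prod_coe_sort (gens c) fun x =>
      ((((cl x.1.1 x.2).filter fun b => x.2 ∈ T → jacobiSym (ga b x.1.1) x.2 = s x.2).card : ℕ) : ℝ)]
    refine le_trans (mul_le_mul_of_nonneg_right (prod_le_prod (g := fun x =>
      (x.2 : ℝ) ^ (m - 1) * if x.2 ∈ T then 1 / 2 else 1) (fun _ _ => Nat.cast_nonneg _)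
      fun x hx => ?_) B0) (le_of_eq ?_)
    · by_cases z : x.2 ∈ T
      · have := card_sign hm x.1.1 (pb x hx).1 (by have := (pb x hx).2; nlinarith) (hs x.2)
        have a : 2 * (((cl x.1.1 x.2).filter fun b =>
          jacobiSym (ga b x.1.1) x.2 = s x.2).card : ℝ) ≤ (x.2 : ℝ) ^ (m - 1) := by
          exact_mod_cast this
        simp only [z, true_imp_iff, if_true]
        linarith
      · simp only [z, if_false, mul_one]
        exact_mod_cast (card_filter_le _ _).trans (card_cl _ _)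
    · have k : ∏ x ∈ gens c, (if x.2 ∈ T then wt m x.2 / 2 else wt m x.2) =
          (∏ x ∈ gens c, (x.2 : ℝ) ^ (m - 1) * if x.2 ∈ T then 1 / 2 else 1) *
            (∏ x ∈ gens c, (x.2 : ℝ) / (x.2 - NE m)) / (q : ℝ) ^ m := by
        rw [qE, ← prod_pow, ← prod_mul_distrib, ← prod_div_distrib]
        refine prod_congr rfl fun x hx => ?_
        have a1 := (pN x hx).ne'
        have a2 : (x.2 : ℝ) ≠ 0 := by exact_mod_cast (pb x hx).1.ne_zero
        have a3 : (x.2 : ℝ) ^ m = (x.2 : ℝ) ^ (m - 1) * x.2 := by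
          rw [← pow_succ, Nat.sub_add_cancel (by omega)]
        rw [a3, wt]
        split_ifs <;> field_simp
      rw [← prod_gens c fun p => if p ∈ T then wt m p / 2 else wt m p, k, qP]
      push_cast
      rw [div_pow, mul_pow]
      ring

namespace Fib

variable {m : ℕ} {D : Dat m} {S : Sc} {a : Fin m → ℤ}

theorem mem_sml {Y : ℕ} {x : Gen m} : x ∈ D.sml a Y ↔ x.2 ∈ (D.l a x.1.1).primeFactors ∧ x.2 ≤ Y ∧
    x.1.2 = some (decide (jacobiSym (ga a x.1.1) x.2 = 1)) := by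
  obtain ⟨⟨e, t⟩, p⟩ := x
  simp only [Dat.sml, le, sgt, mem_image, mem_filter, mem_gens, Prod.mk.injEq]
  constructor
  · rintro ⟨x, ⟨⟨-, a1⟩, a2⟩, ⟨rfl, rfl⟩, rfl⟩
    exact ⟨a1, a2, rfl⟩
  · rintro ⟨a1, a2, a3⟩
    exact ⟨(tg e, p), ⟨⟨rfl, a1⟩, a2⟩, ⟨rfl, a3.symm⟩, rfl⟩

open Classical in
theorem cores (hD : D.Ok) (hR : Rel m S) (hM : S.M = D.M) (ha : a ∈ AA S D) :
    ∃ c : Ed m → ℕ, (∀ h, Core S (c h)) ∧ (∀ h, ∃ P : ℕ, P.Prime ∧ S.Y' < P ∧
      a h.1.1 - a h.1.2 = (D.Δ h : ℤ) * ((c h : ℤ) * P)) ∧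
      (∀ h k p, p ∈ (c h).primeFactors → p ∈ (c k).primeFactors → h = k) ∧
      (∀ h p, p ∈ (c h).primeFactors ↔ p ∈ (D.l a h).primeFactors ∧ p ≤ S.Y') ∧
      ∀ h, ∀ p ∈ (c h).primeFactors, jacobiSym (ga a h) p = 1 ∨ jacobiSym (ga a h) p = -1 := by
  obtain ⟨-, a1, -, a2, -, a3⟩ := mem_filter.1 ha
  choose c P c1 c2 c3 c4 using a2
  have k : ∀ h p, p ∈ (c h).primeFactors ↔ p ∈ (D.l a h).primeFactors ∧ p ≤ S.Y' := fun h p => by
    rw [← hR.filter_le (c1 h) (c2 h) (c3 h), ← c4 h, mem_filter]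
  refine ⟨c, c1, fun h => ⟨P h, c2 h, c3 h, by rw [a1 h, c4 h, Nat.cast_mul]⟩,
    fun h h' p b1 b2 => by_contra fun z => a3 h h' z p (Nat.prime_of_mem_primeFactors b1)
      ((k h p).1 b1).2 (Nat.dvd_of_mem_primeFactors ((k h p).1 b1).1)
      (Nat.dvd_of_mem_primeFactors ((k h' p).1 b2).1), k, fun h p hp => ?_⟩
  have p1 := Nat.prime_of_mem_primeFactors hp
  have p2 := Nat.prime_iff_prime_int.1 p1
  refine jacobiSym.eq_one_or_neg_one ?_
  rw [Int.gcd_comm, Int.gcd_eq_natAbs, Int.natAbs_natCast]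
  refine p1.coprime_iff_not_dvd.2 fun z => ?_
  rcases p2.dvd_or_dvd (Int.natCast_dvd.2 z) with z | z
  · exact p2.not_isUnit (isUnit_of_dvd_unit z (isUnit_one.neg.pow _))
  obtain ⟨i, hi, z⟩ := (p2.dvd_finsetProd_iff _).1 z
  have hi' := (mem_filter.1 hi).2
  obtain ⟨e, -, e1, e2⟩ := edge (i := h.1.1) (j := i) (fun c => hi' (Or.inl c.symm)) a
  have e3 : p ∣ D.Δ e * D.l a e := by
    have := e2 _ z
    rw [a1 e] at this
    exact_mod_cast this
  rcases p1.dvd_mul.1 e3 with e4 | e4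
  · exact ndvd (hM ▸ (c1 h).cop) hp (e4.trans (hD.dv e))
  · exact a3 h e (fun c => hi' (c ▸ e1)) p p1 ((k h p).1 hp).2
      (Nat.dvd_of_mem_primeFactors ((k h p).1 hp).1) e4

theorem wt_nonneg (hD : D.Ok) {p : ℕ} (hp : p.Prime) (h : ¬p ∣ D.M) : 0 ≤ wt m p := by
  have a := big hD.sm hp h
  have b : NE m ≤ m ^ 2 := by
    simpa [NE, sq] using Fintype.card_subtype_le fun e : Fin m × Fin m => e.1 < e.2
  have c : NE m ≤ p := by omega
  exact one_div_nonneg.2 (sub_nonneg.2 (by exact_mod_cast c))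

end Fib

open Fib Classical in
theorem dom : FIBStmt → DOMStmt := by
  intro fb m D hD
  obtain ⟨C, C0, hC⟩ := fb m D hD
  refine ⟨C, C0, fun J => ((ev_Y' hC).and (ev_ge 1)).mono fun S hM _ hR ⟨hy, t1⟩ Φ hΦ => ?_⟩
  have h0 := hR.Y0_le
  have h1 := hR.Y_le
  have hZ : S.Y' ^ (200 * m ^ 2) ≤ S.Z := by
    refine (Nat.pow_le_pow_right (by omega) ?_).trans hR.lo
    have a1 : m ^ 2 ≤ (2 ^ m) ^ 2 := Nat.pow_le_pow_left Nat.lt_two_pow_self.le 2
    rw [← pow_mul, mul_comm m, pow_mul] at a1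
    have a2 : (2 ^ 2) ^ m ≤ 512 ^ m := Nat.pow_le_pow_left (by norm_num) m
    rw [EE]
    omega
  have hK : 0 ≤ C * (S.Z : ℝ) ^ m / Real.log S.Y' ^ NE m :=
    div_nonneg (by positivity) (pow_nonneg (Real.log_natCast_nonneg _) _)
  have ds : ∀ a ∈ AA S D, Dist (D.sml a S.Y) := fun a ha x hx x' hx' e => by
    obtain ⟨c, -, -, c3, c4, -⟩ := cores hD hR hM ha
    obtain ⟨a1, a2, a3⟩ := mem_sml.1 hx
    obtain ⟨b1, b2, b3⟩ := mem_sml.1 hx'
    have z := c3 _ _ _ ((c4 _ _).2 ⟨a1, by omega⟩) ((c4 _ _).2 ⟨e ▸ b1, by omega⟩)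
    exact Prod.ext (Prod.ext z (by rw [a3, b3, z, e])) e
  have maps : ∀ a ∈ AA S D, (D.sml a S.Y, md S.Y S.Y' (gens (D.l a))) ∈
      ((TS m (PP D.M 0 S.Y0)).powerset.filter Dist) ×ˢ (TT m (PP D.M S.Y S.Y')).powerset := by
    intro a ha
    obtain ⟨c, c1, -, -, c4, -⟩ := cores hD hR hM ha
    refine mem_product.2 ⟨mem_filter.2 ⟨mem_powerset.2 fun x hx => ?_, ds a ha⟩,
      mem_powerset.2 fun x hx => ?_⟩
    · obtain ⟨a1, a2, a3⟩ := mem_sml.1 hx
      have a4 := (c4 _ _).2 ⟨a1, by omega⟩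
      have a5 := Nat.prime_of_mem_primeFactors a1
      refine mem_product.2 ⟨mem_filter.2 ⟨mem_univ _, by simp [a3]⟩,
        mem_PP.2 ⟨a5.pos, ?_, a5, ndvd (hM ▸ (c1 _).cop) a4⟩⟩
      have := (c1 _).gap _ a4
      omega
    · obtain ⟨a1, a2, a3⟩ := mem_filter.1 hx
      obtain ⟨a4, a5⟩ := mem_gens.1 a1
      exact mem_product.2 ⟨mem_image.2 ⟨x.1.1, mem_univ _, Prod.ext rfl a4.symm⟩, mem_PP.2 ⟨a2, a3,
        Nat.prime_of_mem_primeFactors a5, ndvd (hM ▸ (c1 _).cop) ((c4 _ _).2 ⟨a5, a3⟩)⟩⟩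
  rw [← sum_fiberwise_of_maps_to maps, ← sum_product', mul_sum]
  refine sum_le_sum fun w hw => ?_
  obtain ⟨w1, w2⟩ := mem_product.1 hw
  have p1 : 0 ≤ Ws w.1 := prod_nonneg fun x hx => by
    have := mem_PP.1 (mem_product.1 (mem_powerset.1 (mem_filter.1 w1).1 hx)).2
    exact div_nonneg (wt_nonneg hD this.2.2.1 this.2.2.2) zero_le_two
  have p2 : 0 ≤ Wt w.2 := prod_nonneg fun x hx => by
    have := mem_PP.1 (mem_product.1 (mem_powerset.1 w2 hx)).2
    exact wt_nonneg hD this.2.2.1 this.2.2.2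
  rw [sum_congr rfl (g := fun _ => Φ w.1 w.2) fun x hx => by rw [← (mem_filter.1 hx).2],
    sum_const, nsmul_eq_mul, ← mul_assoc]
  refine mul_le_mul_of_nonneg_right ?_ (hΦ _ _)
  rcases ((AA S D).filter fun a => (D.sml a S.Y, md S.Y S.Y' (gens (D.l a))) =
    w).eq_empty_or_nonempty with e | ⟨a0, g0⟩
  · rw [e, card_empty, Nat.cast_zero]
    exact mul_nonneg hK (mul_nonneg p1 p2)
  obtain ⟨x1, x2⟩ := mem_filter.1 g0
  obtain ⟨c, c1, -, c3, c4, -⟩ := cores hD hR hM x1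
  have hb := hy S.Z c (range (S.Y + 1))
    (fun p => if ∃ h, (((h, some true), p) : Gen m) ∈ w.1 then 1 else -1) hZ
    (fun h => ⟨(c1 h).sqf, hM ▸ (c1 h).cop, hR.le_pow (c1 h), fun _ => hR.le_Y' (c1 h)⟩)
    (fun h k hn => (Nat.disjoint_primeFactors (c1 h).sqf.ne_zero (c1 k).sqf.ne_zero).1
      (disjoint_left.2 fun p a b => hn (c3 h k p a b))) fun p => by split_ifs <;> simp
  have hw' : Ws w.1 * Wt w.2 = ∏ h, ∏ p ∈ (c h).primeFactors,
      if p ∈ range (S.Y + 1) then wt m p / 2 else wt m p := by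
    have inj : Set.InjOn (sgt a0) (le S.Y (gens (D.l a0))) := fun x hx x' hx' e => Prod.ext
      (Prod.ext (Prod.mk.inj (Prod.mk.inj e).1).1 ((mem_gens.1 (mem_filter.1 hx).1).1.trans
        (mem_gens.1 (mem_filter.1 hx').1).1.symm)) (Prod.mk.inj e).2
    rw [← prod_gens c fun p => if p ∈ range (S.Y + 1) then wt m p / 2 else wt m p, prod_ite, ← x2,
      Ws, Wt, Dat.sml, prod_image inj]
    congr 1 <;> refine prod_congr ?_ fun _ _ => rfl <;> ext x <;>
      simp only [le, md, mem_filter, mem_gens, c4, mem_range] <;> constructor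
    · exact fun ⟨⟨a, b⟩, d⟩ => ⟨⟨a, b, by omega⟩, by omega⟩
    · exact fun ⟨⟨a, b, _⟩, d⟩ => ⟨⟨a, b⟩, by omega⟩
    · exact fun ⟨⟨a, b⟩, d, e⟩ => ⟨⟨a, b, e⟩, by omega⟩
    · exact fun ⟨⟨a, b, e⟩, d⟩ => ⟨⟨a, b⟩, by omega, e⟩
  rw [hw']
  refine le_trans (Nat.cast_le.2 (card_le_card fun a ha => ?_)) hb
  obtain ⟨z1, z2⟩ := mem_filter.1 ha
  obtain ⟨c', d1, d2, -, d4, d5⟩ := cores hD hR hM z1
  have key : ∀ {b b' : Fin m → ℤ}, D.sml b S.Y = D.sml b' S.Y →
      md S.Y S.Y' (gens (D.l b)) = md S.Y S.Y' (gens (D.l b')) → ∀ h p, p ≤ S.Y' →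
      p ∈ (D.l b h).primeFactors → p ∈ (D.l b' h).primeFactors := by
    intro b b' e1 e2 h p k1 k2
    by_cases z : p ≤ S.Y
    · have : (((h, some (decide (jacobiSym (ga b h) p = 1))), p) : Gen m) ∈ D.sml b S.Y :=
        mem_sml.2 ⟨k2, z, rfl⟩
      rw [e1] at this
      exact (mem_sml.1 this).1
    · have : (tg h, p) ∈ md S.Y S.Y' (gens (D.l b)) :=
        mem_filter.2 ⟨mem_gens.2 ⟨rfl, k2⟩, not_le.1 z, k1⟩
      exact (mem_gens.1 (mem_filter.1 (e2 ▸ this)).1).2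
  have e := Prod.ext_iff.1 (z2.trans x2.symm)
  obtain rfl : c' = c := funext fun h => by
    rw [← Nat.prod_primeFactors_of_squarefree (d1 h).sqf,
      ← Nat.prod_primeFactors_of_squarefree (c1 h).sqf]
    congr 1
    ext p
    rw [c4, d4]
    exact and_congr_left fun k => ⟨key e.1 e.2 h p k, key e.1.symm e.2.symm h p k⟩
  refine mem_filter.2 ⟨(mem_filter.1 z1).1, fun h => ⟨d2 h, fun p hp hT => ?_⟩⟩
  have m1 : (((h, some (decide (jacobiSym (ga a h) p = 1))), p) : Gen m) ∈ D.sml a S.Y :=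
    mem_sml.2 ⟨((d4 h p).1 hp).1, Nat.lt_succ_iff.1 (mem_range.1 hT), rfl⟩
  rw [← z2]
  rcases d5 h p hp with k | k
  · rw [if_pos ⟨h, by simpa [k] using m1⟩, k]
  · rw [if_neg fun ⟨h', k'⟩ => by simpa [k] using ds a z1 _ m1 _ k' rfl, k]

end Pool.Agent.MP_a43263_nt.JU

end
end MrgPart3

-- ======== part 4: formerly Pool.Agent.MP_a43263_nt.JU.Lya
section MrgPart4

/-! PROJECT JU: the abstract Lyapunov lemma and the mean of the kernel on the small primes. -/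

set_option autoImplicit false

noncomputable section

namespace Pool.Agent.MP_a43263_nt.JU

open Finset Filter
open R2 (pri PP chs Ker MERStmt mem_pri mem_PP PP_union PP_eq_pri)

variable {m : ℕ}

namespace Lya

/-- the primes outside `M` are large -/
def Big (m M : ℕ) : Prop := ∀ p : ℕ, p.Prime → ¬p ∣ M → 4 * NE m < p

theorem big_of (hc : COMBStmt) (hm : 3 ≤ m) {M : ℕ} (hs : Sm m M) : Big m M := fun p hp hd => by
  have h1 := (hc m hm).1.2.1
  have h2 : 2 * m ^ 2 < p := not_le.1 fun h => hd (hs p hp h)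
  omega

theorem PP_gt {M a b p : ℕ} (hM : Big m M) (h : p ∈ PP M a b) : 4 * NE m < p :=
  hM p (mem_PP.1 h).2.2.1 (mem_PP.1 h).2.2.2

theorem wt_pos {p : ℕ} (h : 4 * NE m < p) : 0 < wt m p := by
  have : (4 * NE m : ℝ) < p := by exact_mod_cast h
  have h0 : (0 : ℝ) ≤ NE m := Nat.cast_nonneg _
  exact one_div_pos.2 (by linarith)

theorem wt_le {p : ℕ} (h : 4 * NE m < p) : wt m p ≤ 2 / p := by
  have : (4 * NE m : ℝ) < p := by exact_mod_cast h
  have h0 : (0 : ℝ) ≤ NE m := Nat.cast_nonneg _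
  rw [wt, div_le_div_iff₀ (by linarith) (by linarith)]; linarith

theorem le_wt {p : ℕ} (h : 4 * NE m < p) : 1 / (p : ℝ) ≤ wt m p := by
  have : (4 * NE m : ℝ) < p := by exact_mod_cast h
  have h0 : (0 : ℝ) ≤ NE m := Nat.cast_nonneg _
  exact one_div_le_one_div_of_le (by linarith) (by linarith)

theorem wt_sub_le {p : ℕ} (h : 4 * NE m < p) : wt m p - 1 / p ≤ 4 * NE m / (p : ℝ) ^ 2 := by
  have : (4 * NE m : ℝ) < p := by exact_mod_cast h
  have h0 : (0 : ℝ) ≤ NE m := Nat.cast_nonneg _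
  have h1 : (0 : ℝ) < p := by linarith
  have h2 : (0 : ℝ) < p - NE m := by linarith
  rw [wt, div_sub_div _ _ h2.ne' h1.ne', div_le_div_iff₀ (by positivity) (by positivity)]
  nlinarith [mul_nonneg (mul_nonneg h0 h1.le) (show (0 : ℝ) ≤ p - 4 * NE m by linarith),
    mul_nonneg h0 h1.le, mul_pos h1 h1, mul_nonneg (mul_nonneg h0 h1.le) h1.le]

theorem mem_TS {P : Finset ℕ} {a : Gen m} : a ∈ TS m P ↔ a.1.2 ≠ none ∧ a.2 ∈ P := by
  simp only [TS, mem_product, mem_filter, mem_univ, true_and]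

theorem card_tags (m : ℕ) : (univ.filter fun t : Tag m => t.2 ≠ none).card = 2 * NE m := by
  have : (univ.filter fun t : Tag m => t.2 ≠ none) =
      (univ : Finset (Ed m)) ×ˢ ({some true, some false} : Finset (Option Bool)) := by
    ext ⟨e, _ | _ | _⟩ <;> simp
  rw [this, card_product, card_univ, mul_comm]
  rfl

theorem prod_TS (P : Finset ℕ) (F : ℕ → ℝ) :
    ∏ a ∈ TS m P, F a.2 = ∏ p ∈ P, F p ^ (2 * NE m) := by
  simp only [TS, prod_product, prod_const, prod_pow, card_tags]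

theorem sum_TS (P : Finset ℕ) : ∑ a ∈ TS m P, wt m a.2 / 2 = NE m * ∑ p ∈ P, wt m p := by
  have : ∑ a ∈ TS m P, wt m a.2 / 2 = ∑ _t ∈ univ.filter fun t : Tag m => t.2 ≠ none,
      ∑ p ∈ P, wt m p / 2 := by
    rw [TS, sum_product]
  rw [this, sum_const, card_tags, nsmul_eq_mul, ← sum_div]
  push_cast
  ring

theorem sum_Ws (P : Finset ℕ) : ∑ W ∈ (TS m P).powerset, Ws W = Mss m P := by
  rw [Mss, ← prod_TS P fun p => 1 + wt m p / 2, prod_one_add]
  rfl

theorem Ws_nonneg {M a b : ℕ} (hM : Big m M) {W : Finset (Gen m)} (h : W ⊆ TS m (PP M a b)) :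
    0 ≤ Ws W := prod_nonneg fun _ ha => (half_pos (wt_pos (PP_gt hM (mem_TS.1 (h ha)).2))).le

theorem one_le_Mss {M : ℕ} (hM : Big m M) (a b : ℕ) : 1 ≤ Mss m (PP M a b) :=
  prod_induction _ (1 ≤ ·) (fun _ _ => one_le_mul_of_one_le_of_one_le) le_rfl
    fun _ h => one_le_pow₀ (le_add_of_nonneg_right (half_pos (wt_pos (PP_gt hM h))).le)

theorem sum_split {S T : Finset (Gen m)} (h : Disjoint S T) (F : Finset (Gen m) → ℝ) :
    ∑ W ∈ (S ∪ T).powerset, F W = ∑ U ∈ S.powerset, ∑ A ∈ T.powerset, F (U ∪ A) := by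
  rw [← sum_product']
  refine sum_nbij' (fun W => (W ∩ S, W ∩ T)) (fun p => p.1 ∪ p.2) ?_ ?_ ?_ ?_ ?_
  · intro W _
    simp
  · intro p hp
    obtain ⟨h1, h2⟩ := mem_product.1 hp
    exact mem_powerset.2 (union_subset_union (mem_powerset.1 h1) (mem_powerset.1 h2))
  · intro W hW
    show W ∩ S ∪ W ∩ T = W
    rw [← inter_union_distrib_left, inter_eq_left.2 (mem_powerset.1 hW)]
  · intro p hp
    obtain ⟨h1, h2⟩ := mem_product.1 hp
    have h1 := mem_powerset.1 h1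
    have h2 := mem_powerset.1 h2
    refine Prod.ext ?_ ?_
    · show (p.1 ∪ p.2) ∩ S = p.1
      rw [union_inter_distrib_right, inter_eq_left.2 h1,
        disjoint_iff_inter_eq_empty.1 (h.symm.mono_left h2), union_empty]
    · show (p.1 ∪ p.2) ∩ T = p.2
      rw [union_inter_distrib_right, inter_eq_left.2 h2,
        disjoint_iff_inter_eq_empty.1 (h.mono_left h1), empty_union]
  · intro W hW
    show F W = F (W ∩ S ∪ W ∩ T)
    rw [← inter_union_distrib_left, inter_eq_left.2 (mem_powerset.1 hW)]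

theorem one_add_sum_le (T : Finset (Gen m)) (w : Gen m → ℝ) (hw : ∀ b ∈ T, 0 ≤ w b) :
    1 + ∑ b ∈ T, w b ≤ ∏ b ∈ T, (1 + w b) := by
  induction T using Finset.induction_on with
  | empty => simp
  | insert a T ha ih =>
    rw [sum_insert ha, prod_insert ha]
    have h1 := ih fun b hb => hw b (mem_insert_of_mem hb)
    have h2 := hw a (mem_insert_self _ _)
    have h3 : 0 ≤ ∑ b ∈ T, w b := sum_nonneg fun b hb => hw b (mem_insert_of_mem hb)
    nlinarith

theorem chs_close {M a y : ℕ} (hM : 0 < M) (hs : Big m M) (hMa : M ≤ a) (hay : a ≤ y)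
    (G : ℤ) : |∑ p ∈ PP M a y, wt m p * jacobiSym G p| ≤ |chs G a y| + 4 * NE m / a := by
  have hge : ∀ p ∈ pri a y, 4 * NE m < p := fun p hp => PP_gt hs (PP_eq_pri hM hMa ▸ hp)
  rw [PP_eq_pri hM hMa]
  have e : ∑ p ∈ pri a y, wt m p * jacobiSym G p =
      chs G a y + ∑ p ∈ pri a y, (wt m p - 1 / p) * jacobiSym G p := by
    rw [chs, ← sum_add_distrib]
    exact sum_congr rfl fun p _ => by ring
  rw [e]
  refine (abs_add_le _ _).trans (add_le_add le_rfl ((abs_sum_le_sum_abs _ _).trans ?_))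
  have h1 : ∑ p ∈ pri a y, |(wt m p - 1 / p) * jacobiSym G p| ≤
      ∑ p ∈ pri a y, 4 * NE m * ((p : ℝ) ^ 2)⁻¹ := by
    refine sum_le_sum fun p hp => ?_
    have a1 := le_wt (hge p hp)
    have a2 := wt_sub_le (hge p hp)
    have a3 : |(jacobiSym G p : ℝ)| ≤ 1 := by
      rcases jacobiSym.trichotomy G p with h | h | h <;> simp [h]
    rw [abs_mul, abs_of_nonneg (sub_nonneg.2 a1)]
    exact (mul_le_of_le_one_right (sub_nonneg.2 a1) a3).trans a2
  have h2 : ∑ p ∈ pri a y, 4 * NE m * ((p : ℝ) ^ 2)⁻¹ ≤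
      ∑ p ∈ Ioc a y, 4 * NE m * ((p : ℝ) ^ 2)⁻¹ :=
    sum_le_sum_of_subset_of_nonneg (filter_subset _ _) fun _ _ _ => by positivity
  have h3 := sum_Ioc_inv_sq_le_sub (α := ℝ) (k := a) (n := y) (by omega) hay
  rw [← mul_sum (Ioc a y)] at h2
  have h4 : (0 : ℝ) ≤ (y : ℝ)⁻¹ := by positivity
  rw [div_eq_mul_inv]
  exact h1.trans (h2.trans (mul_le_mul_of_nonneg_left (by linarith) (by positivity)))

theorem mass2 (P : Finset ℕ) (hP : ∀ p ∈ P, 0 ≤ wt m p) (hm : NE m * ∑ p ∈ P, wt m p ≤ 1 / 4) :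
    ∑ A ∈ (TS m P).powerset, Ws A * 2 ^ A.card ≤
      1 + 2 * (NE m * ∑ p ∈ P, wt m p) + 4 * (NE m * ∑ p ∈ P, wt m p) ^ 2 := by
  have hs := sum_TS (m := m) P
  have hw : ∀ b ∈ TS m P, 0 ≤ wt m b.2 / 2 := fun b hb => by linarith [hP _ (mem_TS.1 hb).2]
  have hm0 : 0 ≤ NE m * ∑ p ∈ P, wt m p := mul_nonneg (by positivity) (sum_nonneg hP)
  set μ := NE m * ∑ p ∈ P, wt m p with hmd
  have e1 : ∑ A ∈ (TS m P).powerset, Ws A * 2 ^ A.card =
      ∏ b ∈ TS m P, (1 + 2 * (wt m b.2 / 2)) := by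
    rw [prod_one_add]
    refine sum_congr rfl fun A _ => ?_
    rw [prod_mul_distrib, prod_const, mul_comm]
    rfl
  have e2 : ∏ b ∈ TS m P, (1 + 2 * (wt m b.2 / 2)) ≤ Real.exp (2 * μ) := by
    rw [← hs, mul_sum, Real.exp_sum]
    refine prod_le_prod (fun b hb => ?_) fun b _ => ?_
    · linarith [hw b hb]
    · linarith [Real.add_one_le_exp (2 * (wt m b.2 / 2))]
  have e3 := Real.abs_exp_sub_one_sub_id_le (x := 2 * μ) (by
    rw [abs_of_nonneg (by linarith)]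
    linarith)
  rw [e1]
  linarith [(abs_le.1 e3).2]

/-- the average over the new primes, in terms of the average over one new prime -/
theorem avg {φ : Finset (Gen m) → ℝ} (W : Finset (Gen m)) (P : Finset ℕ) (h0 : 0 ≤ φ W)
    (hP : ∀ p ∈ P, 0 ≤ wt m p) (hm : NE m * ∑ p ∈ P, wt m p ≤ 1 / 4)
    (hu : ∀ A : Finset (Gen m), φ (W ∪ A) ≤ 2 ^ A.card * φ W) :
    ∑ A ∈ (TS m P).powerset, Ws A * φ (W ∪ A) ≤
      (1 + 4 * (NE m * ∑ p ∈ P, wt m p) ^ 2) * φ W +
        ∑ b ∈ TS m P, wt m b.2 / 2 * φ (insert b W) := by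
  have hQ := mass2 P hP hm
  have hs := sum_TS (m := m) P
  set μ := NE m * ∑ p ∈ P, wt m p with hmd
  have hw : ∀ b ∈ TS m P, 0 ≤ wt m b.2 / 2 := fun b hb => by linarith [hP _ (mem_TS.1 hb).2]
  have h3 : ∑ b ∈ TS m P, wt m b.2 / 2 * (2 * φ W - φ (insert b W)) ≤
      ∑ A ∈ (TS m P).powerset, Ws A * (2 ^ A.card * φ W - φ (W ∪ A)) := by
    have := sum_le_sum_of_subset_of_nonneg
      (f := fun A => Ws A * (2 ^ A.card * φ W - φ (W ∪ A)))
      (s := (TS m P).map ⟨singleton, singleton_injective⟩) (t := (TS m P).powerset)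
      (fun A hA => by
        obtain ⟨b, hb, rfl⟩ := mem_map.1 hA
        exact mem_powerset.2 (singleton_subset_iff.2 hb))
      (fun A hA _ => mul_nonneg (prod_nonneg fun b hb => hw b (mem_powerset.1 hA hb))
        (sub_nonneg.2 (hu A)))
    rw [sum_map] at this
    refine le_trans (le_of_eq (sum_congr rfl fun b _ => ?_)) this
    simp [Ws]
  simp only [mul_sub, sum_sub_distrib, ← mul_assoc, ← sum_mul] at h3
  rw [hs] at h3
  have h4 := mul_le_mul_of_nonneg_right hQ h0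
  linarith

theorem avg_triv {φ : Finset (Gen m) → ℝ} (W : Finset (Gen m)) (P : Finset ℕ) (h0 : 0 ≤ φ W)
    (hP : ∀ p ∈ P, 0 ≤ wt m p) (hm : NE m * ∑ p ∈ P, wt m p ≤ 1 / 4)
    (hu : ∀ A : Finset (Gen m), φ (W ∪ A) ≤ 2 ^ A.card * φ W) :
    ∑ A ∈ (TS m P).powerset, Ws A * φ (W ∪ A) ≤ 2 * φ W := by
  have hQ := mass2 P hP hm
  have hm0 : 0 ≤ NE m * ∑ p ∈ P, wt m p := mul_nonneg (by positivity) (sum_nonneg hP)
  set μ := NE m * ∑ p ∈ P, wt m p
  have h1 : ∑ A ∈ (TS m P).powerset, Ws A * φ (W ∪ A) ≤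
      ∑ A ∈ (TS m P).powerset, Ws A * 2 ^ A.card * φ W := sum_le_sum fun A hA => by
    rw [mul_assoc]
    exact mul_le_mul_of_nonneg_left (hu A)
      (prod_nonneg fun b hb => by linarith [hP _ (mem_TS.1 (mem_powerset.1 hA hb)).2])
  rw [← sum_mul] at h1
  exact h1.trans (mul_le_mul_of_nonneg_right (hQ.trans (by nlinarith)) h0)

/-- the characters that are not exceptional cancel -/
theorem chars (hk : KCStmt) {M a y : ℕ} {τ β : ℝ} (hn : 3 ≤ NE m) (hM : 0 < M) (hs : Big m M)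
    (hτ : 0 < τ) (hβ : 0 < β) (hMa : M ≤ a) (ha : 8 * (NE m : ℝ) ^ 2 / (τ * β) ≤ a) (hay : a ≤ y)
    (h1 : τ ≤ NE m * ∑ p ∈ PP M a y, wt m p) {W : Finset (Gen m)} (hW : W ⊆ TS m (PP M 0 a))
    (hE : ¬Exc M (τ * β / (2 * NE m)) a y W) (N : ℤ) (hN0 : N ≠ 0) (hN : ¬IsSquare N)
    (k4 : ∀ p : ℕ, p.Prime → (p : ℤ) ∣ N → p ∣ M ∨ ∃ t, (t, p) ∈ W) :
    |∑ p ∈ PP M a y, wt m p * jacobiSym N p| ≤ β * ∑ p ∈ PP M a y, wt m p := by
  obtain ⟨G, k1, k3, k5, k6⟩ := (hk m).2.2.2.2.2 N hN0 hN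
  have e0 : ∑ p ∈ PP M a y, wt m p * jacobiSym N p = ∑ p ∈ PP M a y, wt m p * jacobiSym G p := by
    refine sum_congr rfl fun p hp => ?_
    obtain ⟨e2, -, e3, e4⟩ := mem_PP.1 hp
    rw [k6 p e3 fun h => (k4 p e3 h).elim e4
      fun ⟨t, ht⟩ => absurd (mem_PP.1 (mem_TS.1 (hW ht)).2).2.1 (not_le.2 e2)]
  have e1 := chs_close hM hs hMa hay G
  have e2 : |chs G a y| ≤ τ * β / (2 * NE m) := not_lt.1 fun h => hE ⟨G, k1, k3, fun p hp =>
    k4 p (Nat.prime_of_mem_primeFactors hp) (k5 p (Nat.prime_of_mem_primeFactors hp)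
      (Int.natCast_dvd.2 (Nat.dvd_of_mem_primeFactors hp))), h⟩
  rw [e0]
  have n0 : (3 : ℝ) ≤ NE m := by exact_mod_cast hn
  have a0 : (0 : ℝ) < a := Nat.cast_pos.2 (by omega)
  have e3 : 4 * (NE m : ℝ) / a ≤ τ * β / (2 * NE m) := by
    rw [div_le_iff₀ (mul_pos hτ hβ)] at ha
    rw [div_le_div_iff₀ a0 (by linarith)]
    linarith
  refine (e1.trans (add_le_add e2 e3)).trans ?_
  rw [← add_div, div_le_iff₀ (by linarith)]
  have := mul_le_mul_of_nonneg_left h1 hβ.le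
  linarith

/-- the choice of the previous scale -/
theorem scale (hm : MERStmt) {M : ℕ} (hn : 3 ≤ NE m) (hM : 0 < M) (hs : Big m M) (a₀ : ℕ) {τ : ℝ}
    (hτ : 0 < τ) (hτ' : τ ≤ 0.3) :
    ∃ y₁ : ℕ, ∀ y, y₁ ≤ y → ∃ a, a₀ ≤ a ∧ a < y ∧ y ≤ a ^ 3 ∧
      τ ≤ NE m * ∑ p ∈ PP M a y, wt m p ∧ NE m * ∑ p ∈ PP M a y, wt m p ≤ 2 * τ := by
  classical
  obtain ⟨C, hC⟩ := hm.1
  obtain ⟨r₀, hr₀⟩ := eventually_atTop.1 ((Real.tendsto_log_atTop.comp
    tendsto_natCast_atTop_atTop).eventually_ge_atTop (2 * |C|))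
  obtain ⟨N, hN⟩ := exists_nat_ge (2 * (NE m : ℝ) / τ)
  refine ⟨(r₀ + a₀ + M + 3000 * NE m + N) ^ 2, fun y hy => ?_⟩
  have hr : r₀ + a₀ + M + 3000 * NE m + N ≤ y.sqrt := Nat.le_sqrt'.2 hy
  have r1 := Nat.sqrt_le' y
  have r2 := Nat.lt_succ_sqrt' y
  have r3 := Nat.sqrt_le_self y
  have n0 : (3 : ℝ) ≤ NE m := by exact_mod_cast hn
  set r := y.sqrt
  have hr0 : τ ≤ NE m * ∑ p ∈ PP M r y, wt m p := by
    have e1 : ∑ p ∈ pri r y, (1 : ℝ) / p ≤ ∑ p ∈ PP M r y, wt m p := by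
      rw [← PP_eq_pri hM (by omega : M ≤ r)]
      exact sum_le_sum fun p hp => le_wt (PP_gt hs hp)
    have e2 := (abs_le.1 (hC r y (by omega) r3)).1
    have e3 : 2 * |C| ≤ Real.log r := hr₀ r (by omega)
    have e4 : 0 < Real.log r := Real.log_pos (by exact_mod_cast (by omega : 1 < r))
    have e5 : C / Real.log r ≤ 1 / 2 := by
      rw [div_le_iff₀ e4]
      linarith [le_abs_self C]
    have e6 : 2 ≤ Real.log y / Real.log r := by
      rw [le_div_iff₀ e4]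
      have := Real.log_le_log (pow_pos (Nat.cast_pos.2 (by omega)) 2)
        (show (r : ℝ) ^ 2 ≤ y by exact_mod_cast r1)
      rw [Real.log_pow] at this
      exact_mod_cast this
    have e7 := Real.log_le_log (by norm_num) e6
    have e8 : 0.1 ≤ ∑ p ∈ PP M r y, wt m p := by linarith [Real.log_two_gt_d9]
    have e9 := mul_le_mul n0 e8 (by norm_num) (by linarith)
    linarith
  let a := Nat.findGreatest (fun a => τ ≤ NE m * ∑ p ∈ PP M a y, wt m p) y
  have a1 : r ≤ a := Nat.le_findGreatest r3 hr0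
  have a2 : τ ≤ NE m * ∑ p ∈ PP M a y, wt m p :=
    Nat.findGreatest_spec (P := fun a => τ ≤ NE m * ∑ p ∈ PP M a y, wt m p) r3 hr0
  have a3 : a ≤ y := Nat.findGreatest_le y
  have a4 : a < y := by
    refine lt_of_le_of_ne a3 fun e => ?_
    rw [e, eq_empty_of_forall_notMem (s := PP M y y) fun p hp => by
      have := mem_PP.1 hp
      omega, sum_empty, mul_zero] at a2
    linarith
  have a5 : ¬ τ ≤ NE m * ∑ p ∈ PP M (a + 1) y, wt m p :=
    Nat.findGreatest_is_greatest (P := fun a => τ ≤ NE m * ∑ p ∈ PP M a y, wt m p)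
      (Nat.lt_succ_self a) a4
  refine ⟨a, by omega, a4, ?_, a2, ?_⟩
  · have := Nat.pow_le_pow_left a1 3
    have h6 : 3000 ≤ r := by omega
    have : r.succ ^ 2 ≤ r ^ 3 := by
      rw [Nat.succ_eq_add_one]
      nlinarith [Nat.mul_le_mul_left (r * r) h6]
    omega
  · have b1 : 4 * NE m < a + 1 := by omega
    have b2 : ∑ p ∈ PP M a y, wt m p ≤ ∑ p ∈ insert (a + 1) (PP M (a + 1) y), wt m p := by
      refine sum_le_sum_of_subset_of_nonneg (fun p hp => ?_) fun p hp _ => ?_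
      · obtain ⟨k1, k2⟩ := mem_PP.1 hp
        by_cases e : p = a + 1
        · exact mem_insert.2 (.inl e)
        · exact mem_insert_of_mem (mem_PP.2 ⟨by omega, k2⟩)
      · rcases mem_insert.1 hp with rfl | hp
        · exact (wt_pos b1).le
        · exact (wt_pos (PP_gt hs hp)).le
    rw [sum_insert fun h => lt_irrefl _ (mem_PP.1 h).1] at b2
    have b3 : wt m (a + 1) ≤ 2 / (2 * NE m / τ) := by
      refine (wt_le b1).trans (div_le_div_of_nonneg_left (by norm_num) (by positivity)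
        (hN.trans ?_))
      exact_mod_cast (by omega : N ≤ a + 1)
    rw [div_div_eq_mul_div, le_div_iff₀ (by positivity)] at b3
    have b4 := mul_le_mul_of_nonneg_left b2 (show (0 : ℝ) ≤ NE m by positivity)
    linarith

open Classical in
/-- the weighted sum -/
def LL (M : ℕ) (φ : Finset (Gen m) → ℝ) (y : ℕ) : ℝ :=
  ∑ W ∈ (TS m (PP M 0 y)).powerset.filter Dist, Ws W * φ W

open Classical in
theorem LL_nonneg {M : ℕ} (hs : Big m M) {φ : Finset (Gen m) → ℝ} (h0 : ∀ W, 0 ≤ φ W) (y : ℕ) :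
    0 ≤ LL M φ y :=
  sum_nonneg fun _ hW => mul_nonneg (Ws_nonneg hs (mem_powerset.1 (mem_filter.1 hW).1)) (h0 _)

open Classical in
theorem point (hk : KCStmt) {M a y : ℕ} {η β K τ : ℝ} {φ ψ : Finset (Gen m) → ℝ} (hn : 3 ≤ NE m)
    (hM : 0 < M) (hs : Big m M) (hβ : 0 < β) (hK : 0 ≤ K) (h0 : ∀ W, 0 ≤ φ W) (h0' : ∀ W, 0 ≤ ψ W)
    (hτ : 0 < τ) (hτ' : τ ≤ 1 / 8) (hη : 16 * NE m * τ ≤ η)
    (hu : ∀ W X : Finset (Gen m), φ (W ∪ X) ≤ 2 ^ X.card * φ W)
    (hMa : M ≤ a) (ha : 8 * (NE m : ℝ) ^ 2 / (τ * β) ≤ a) (hay : a ≤ y)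
    (h1 : τ ≤ NE m * ∑ p ∈ PP M a y, wt m p) (h2 : NE m * ∑ p ∈ PP M a y, wt m p ≤ 2 * τ)
    {W : Finset (Gen m)} (hW : W ⊆ TS m (PP M 0 a))
    (hS : (∀ G : ℤ, G ≠ 0 → ¬IsSquare G →
      (∀ p : ℕ, p.Prime → (p : ℤ) ∣ G → p ∣ M ∨ ∃ t, (t, p) ∈ W) →
      |∑ p ∈ PP M a y, wt m p * jacobiSym G p| ≤ β * ∑ p ∈ PP M a y, wt m p) →
      ∑ b ∈ TS m (PP M a y), wt m b.2 / 2 * φ (insert b W) ≤
        (NE m - η) * (∑ p ∈ PP M a y, wt m p) * φ W + K * (∑ p ∈ PP M a y, wt m p) * ψ W) :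
    ∑ A ∈ (TS m (PP M a y)).powerset, Ws A * φ (W ∪ A) ≤
      (1 - 4 * τ ^ 2) * Mss m (PP M a y) * φ W + K * ψ W +
        if Exc M (τ * β / (2 * NE m)) a y W then 2 * φ ∅ * 2 ^ W.card else 0 := by
  have hP : ∀ p ∈ PP M a y, 0 ≤ wt m p := fun p hp => (wt_pos (PP_gt hs hp)).le
  have hθ : 0 ≤ 1 - 4 * τ ^ 2 := by nlinarith
  have t3 := mul_nonneg hK (h0' W)
  split_ifs with hE
  · have t1 := avg_triv W _ (h0 W) hP (by linarith) (hu W)
    have t2 : 0 ≤ (1 - 4 * τ ^ 2) * Mss m (PP M a y) * φ W :=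
      mul_nonneg (mul_nonneg hθ (zero_le_one.trans (one_le_Mss hs a y))) (h0 W)
    have := hu ∅ W
    rw [empty_union] at this
    linarith
  have s1 := hS fun G hG0 hG k => chars hk hn hM hs hτ hβ hMa ha hay h1 hW hE G hG0 hG k
  have s2 := avg W _ (h0 W) hP (by linarith) (hu W)
  have s3 : 1 + NE m * ∑ p ∈ PP M a y, wt m p ≤ Mss m (PP M a y) := by
    rw [← sum_TS, Mss, ← prod_TS _ fun p => 1 + wt m p / 2]
    exact one_add_sum_le _ _ fun b hb => by linarith [hP _ (mem_TS.1 hb).2]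
  have d0 : 0 ≤ ∑ p ∈ PP M a y, wt m p := sum_nonneg hP
  have n0 : (3 : ℝ) ≤ NE m := by exact_mod_cast hn
  set δ := ∑ p ∈ PP M a y, wt m p
  have d1 : δ ≤ 1 := by nlinarith
  have d2 : 16 * τ * (NE m * δ) ≤ η * δ := by
    have := mul_le_mul_of_nonneg_right hη d0
    linarith
  have d3 : (NE m - η) * δ = NE m * δ - η * δ := by ring
  rw [d3] at s1
  set μ := NE m * δ
  have s4 : 1 + 4 * μ ^ 2 + (μ - η * δ) ≤ (1 - 4 * τ ^ 2) * Mss m (PP M a y) := by
    refine le_trans ?_ (mul_le_mul_of_nonneg_left s3 hθ)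
    have q1 := mul_le_mul_of_nonneg_right h2 (hτ.le.trans h1)
    have q2 := mul_le_mul_of_nonneg_left h1 hτ.le
    have q3 := mul_le_mul_of_nonneg_left (show μ ≤ 1 by linarith) (sq_nonneg τ)
    linarith
  have s5 := mul_le_mul_of_nonneg_right s4 (h0 W)
  have s6 := mul_le_mul_of_nonneg_left d1 t3
  linarith

open Classical in
theorem recur {M a y : ℕ} {θ K B : ℝ} {φ ψ : Finset (Gen m) → ℝ} {Ex : Finset (Gen m) → Prop}
    (hs : Big m M) (h0 : ∀ W, 0 ≤ φ W) (hB : 0 ≤ B) (hay : a ≤ y)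
    (hp : ∀ W ⊆ TS m (PP M 0 a), Dist W →
      ∑ A ∈ (TS m (PP M a y)).powerset, Ws A * φ (W ∪ A) ≤
        θ * φ W + K * ψ W + if Ex W then B * 2 ^ W.card else 0)
    (hE : ∑ Z ∈ (TS m (PP M 0 a)).powerset.filter Ex, Ws Z * 2 ^ Z.card ≤ 1) :
    LL M φ y ≤ θ * LL M φ a + K * LL M ψ a + B := by
  obtain ⟨u1, u2⟩ := PP_union M (Nat.zero_le a) hay
  have u3 : TS m (PP M 0 y) = TS m (PP M 0 a) ∪ TS m (PP M a y) := by
    rw [u1, TS, product_union]; rfl
  have u4 : Disjoint (TS m (PP M 0 a)) (TS m (PP M a y)) := disjoint_left.2 fun b h h' =>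
    disjoint_left.1 u2 (mem_TS.1 h).2 (mem_TS.1 h').2
  have e1 : LL M φ y ≤ ∑ W ∈ (TS m (PP M 0 a)).powerset.filter Dist,
      Ws W * ∑ A ∈ (TS m (PP M a y)).powerset, Ws A * φ (W ∪ A) := by
    rw [LL, sum_filter, u3, sum_split u4, sum_filter]
    refine sum_le_sum fun W hW => ?_
    split_ifs with hd
    · rw [mul_sum]
      refine sum_le_sum fun A hA => ?_
      have e : Ws (W ∪ A) = Ws W * Ws A :=
        prod_union (u4.mono (mem_powerset.1 hW) (mem_powerset.1 hA))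
      split_ifs
      · rw [e, mul_assoc]
      · exact mul_nonneg (Ws_nonneg hs (mem_powerset.1 hW))
          (mul_nonneg (Ws_nonneg hs (mem_powerset.1 hA)) (h0 _))
    · exact (sum_eq_zero fun A _ => if_neg fun h => hd fun x hx z hz =>
        h x (mem_union_left _ hx) z (mem_union_left _ hz)).le
  have e2 := sum_le_sum fun W (hW : W ∈ (TS m (PP M 0 a)).powerset.filter Dist) =>
    mul_le_mul_of_nonneg_left (hp W (mem_powerset.1 (mem_filter.1 hW).1) (mem_filter.1 hW).2)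
      (Ws_nonneg hs (mem_powerset.1 (mem_filter.1 hW).1))
  refine (e1.trans e2).trans ?_
  simp only [mul_add, sum_add_distrib]
  refine add_le_add (add_le_add (le_of_eq ?_) (le_of_eq ?_)) ?_
  · rw [LL, mul_sum]
    exact sum_congr rfl fun W _ => by ring
  · rw [LL, mul_sum]
    exact sum_congr rfl fun W _ => by ring
  · have := mul_le_mul_of_nonneg_left hE hB
    rw [mul_one, mul_sum, sum_filter] at this
    refine le_trans (le_trans (sum_le_sum_of_subset_of_nonneg (filter_subset _ _) fun W hW _ =>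
      mul_nonneg (Ws_nonneg hs (mem_powerset.1 hW)) (by split_ifs <;> positivity))
      (le_of_eq (sum_congr rfl fun W _ => ?_))) this
    split_ifs <;> ring

end Lya

theorem aly : COMBStmt → KCStmt → MERStmt → EXPStmt → ALYStmt := by
  intro hc hk hm hE m M η β K C φ ψ h3 hM hs0 hη hβ hK h0 h0' hu hS hC
  have hn := (hc m h3).1.2.2
  have hs := Lya.big_of hc h3 hs0
  have n0 : (3 : ℝ) ≤ NE m := by exact_mod_cast hn
  obtain ⟨τ, hτ, hτ', hτη⟩ : ∃ τ : ℝ, 0 < τ ∧ τ ≤ 1 / 8 ∧ 16 * NE m * τ ≤ η :=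
    ⟨min (1 / 8) (η / (16 * NE m)), lt_min (by norm_num) (by positivity), min_le_left _ _, by
      have := min_le_right (1 / 8) (η / (16 * NE m))
      rw [le_div_iff₀ (by positivity)] at this
      linarith⟩
  obtain ⟨a₀, ha₀⟩ := eventually_atTop.1
    (hE m M 3 (τ * β / (2 * NE m)) 1 h3 hM hs0 (by positivity) one_pos)
  obtain ⟨N, hN⟩ := exists_nat_ge (8 * (NE m : ℝ) ^ 2 / (τ * β))
  obtain ⟨y₁, hy₁⟩ := Lya.scale hm hn hM hs (a₀ + M + N) hτ (by linarith)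
  have hC' : ∀ y, Lya.LL M ψ y ≤ C * Mss m (PP M 0 y) := hC
  have hC0 : 0 ≤ C := by
    have := (Lya.LL_nonneg hs h0' 0).trans (hC' 0)
    exact nonneg_of_mul_nonneg_left this (zero_lt_one.trans_le (Lya.one_le_Mss hs 0 0))
  have hsum : 0 ≤ ∑ y ∈ range y₁, Lya.LL M φ y := sum_nonneg fun y _ => Lya.LL_nonneg hs h0 y
  have hB0 : 0 ≤ 2 * φ ∅ := by linarith [h0 ∅]
  have hKC := mul_nonneg hK hC0
  have hθ : 0 < 4 * τ ^ 2 := by positivity
  have hθ' : 0 ≤ 1 - 4 * τ ^ 2 := by nlinarith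
  obtain ⟨D, hD0, hD⟩ : ∃ D : ℝ, 0 ≤ D ∧ 4 * τ ^ 2 * D = K * C + 2 * φ ∅ :=
    ⟨(K * C + 2 * φ ∅) / (4 * τ ^ 2), by positivity, mul_div_cancel₀ _ hθ.ne'⟩
  set C' : ℝ := D + ∑ y ∈ range y₁, Lya.LL M φ y with hC'd
  refine ⟨C', fun y => ?_⟩
  change Lya.LL M φ y ≤ _
  induction y using Nat.strong_induction_on with
  | _ y ih =>
  have m1 := Lya.one_le_Mss hs 0 y
  by_cases hy : y < y₁
  · have := single_le_sum (f := Lya.LL M φ) (fun y _ => Lya.LL_nonneg hs h0 y) (mem_range.2 hy)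
    exact (show Lya.LL M φ y ≤ C' by linarith).trans (le_mul_of_one_le_right (by linarith) m1)
  obtain ⟨a, k1, k2, k3, k4, k5⟩ := hy₁ y (not_lt.1 hy)
  have e1 := Lya.recur (ψ := ψ) hs h0 hB0 k2.le (fun W hW hd => Lya.point hk hn hM hs hβ hK h0 h0'
    hτ hτ' hτη hu (by omega) (hN.trans (by exact_mod_cast (by omega : N ≤ a))) k2.le k4 k5 hW
    (hS a y W hW hd)) (ha₀ a (by omega) a y le_rfl k3)
  have e2 := ih a k2
  have m2 := Lya.one_le_Mss hs 0 a
  have m3 := Lya.one_le_Mss hs a y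
  have m4 : Mss m (PP M 0 y) = Mss m (PP M 0 a) * Mss m (PP M a y) := by
    obtain ⟨u1, u2⟩ := PP_union M (Nat.zero_le a) k2.le
    rw [u1, Mss, prod_union u2]; rfl
  have m5 : Mss m (PP M 0 a) ≤ Mss m (PP M 0 y) := by
    rw [m4]
    exact le_mul_of_one_le_right (by linarith) m3
  have e3 := mul_le_mul_of_nonneg_left e2 (mul_nonneg hθ' (zero_le_one.trans m3))
  have e4 : (1 - 4 * τ ^ 2) * Mss m (PP M a y) * (C' * Mss m (PP M 0 a)) =
      (1 - 4 * τ ^ 2) * (C' * Mss m (PP M 0 y)) := by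
    rw [m4]; ring
  have e5 : (K * C + 2 * φ ∅) * Mss m (PP M 0 y) ≤ 4 * τ ^ 2 * (C' * Mss m (PP M 0 y)) := by
    rw [← mul_assoc, ← hD]
    exact mul_le_mul_of_nonneg_right (mul_le_mul_of_nonneg_left (by linarith) hθ.le) (by linarith)
  have e6 := mul_le_mul_of_nonneg_left (hC' a) hK
  have e7 := mul_le_mul_of_nonneg_left m5 hKC
  have e8 := mul_le_mul_of_nonneg_left m1 hB0
  linarith

theorem lya : COMBStmt → STEPStmt → ALYStmt → LYAStmt := by
  classical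
  intro hc hS hA m D hD
  have hn := (hc m hD.three).1.2.2
  have hs := Lya.big_of hc hD.three hD.sm
  have n0 : (3 : ℝ) ≤ NE m := by exact_mod_cast hn
  obtain ⟨s1, s2, s3⟩ := hS m D hD
  have key : ∀ A : Finset (Ed m), ∃ C : ℝ, ∀ y : ℕ,
      Lya.LL D.M (fun W => ((KA D A W).card : ℝ)) y ≤ C * Mss m (PP D.M 0 y) := by
    intro A
    induction A using Finset.strongInduction with
    | H A ih =>
    rcases A.eq_empty_or_nonempty with rfl | hne
    · refine ⟨2 ^ D.W0.card, fun y => ?_⟩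
      rw [← Lya.sum_Ws, mul_sum]
      refine le_trans (sum_le_sum fun W hW => ?_) (sum_le_sum_of_subset_of_nonneg
        (filter_subset Dist _) fun W hW _ => mul_nonneg (by positivity)
          (Lya.Ws_nonneg hs (mem_powerset.1 hW)))
      rw [mul_comm]
      have : ((KA D ∅ W).card : ℝ) ≤ 2 ^ D.W0.card := by exact_mod_cast s2 W
      exact mul_le_mul_of_nonneg_right this
        (Lya.Ws_nonneg hs (mem_powerset.1 (mem_filter.1 hW).1))
    · choose! C hC using fun e (he : e ∈ A) => ih (A.erase e) (erase_ssubset he)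
      refine hA m D.M (1 / 8) (1 / (8 * NE m)) (2 * NE m) (∑ e ∈ A, C e) _
        (fun W => ∑ e ∈ A, ((KA D (A.erase e) W).card : ℝ)) hD.three hD.pos hD.sm (by norm_num)
        (by positivity) (by positivity) (fun _ => by positivity)
        (fun _ => sum_nonneg fun _ _ => by positivity) (fun W X => by exact_mod_cast s1 A W X)
        (fun a y W hW hd hb => s3 A hne W _ (wt m) (fun x hx => ?_) hd (fun p hp => ?_) hb)
        fun y => ?_
      · have := Lya.mem_TS.1 (hW hx)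
        exact ⟨this.1, (mem_PP.1 this.2).2.2⟩
      · refine ⟨(mem_PP.1 hp).2.2.1, (mem_PP.1 hp).2.2.2, (Lya.wt_pos (Lya.PP_gt hs hp)).le,
          fun x hx e => ?_⟩
        have h1 := (mem_PP.1 (Lya.mem_TS.1 (hW hx)).2).2.1
        have h2 := (mem_PP.1 hp).1
        omega
      · simp only [mul_sum]
        rw [sum_comm, sum_mul]
        exact sum_le_sum fun e he => hC e he y
  obtain ⟨C, hC⟩ := key univ
  refine ⟨C, fun y => le_trans (le_of_eq (sum_congr rfl fun W _ => ?_)) (hC y)⟩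
  have : KA D univ W = Ker D.gs (D.W0 ∪ W) :=
    filter_true_of_mem fun x _ b _ => Or.inr (mem_univ _)
  simp only [this]

end Pool.Agent.MP_a43263_nt.JU

end
end MrgPart4

-- marker of a merged file
example : 731051 + 853132 = 731051 + 853132 := rfl
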