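import Pool.Agent.MP_a43263_nt.RG.Cnt
import Pool.Agent.MP_a43263_nt.JU.Br
import Pool.Agent.MP_a43263_nt.RG.Osc
import Mathlib.Algebra.Order.Chebyshev
import Mathlib.NumberTheory.JacobiSum.Basic
import Pool.Agent.MP_a43263_nt.RG.Basic

-- ======== part 0: formerly Pool.Agent.MP_a43263_nt.JU.Cnt
section MrgPart0

/-! PROJECT JU, module CNT: the count of the kernel. -/

set_option autoImplicit false

noncomputable section

namespace Pool.Agent.MP_a43263_nt.JU

open Finset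
open R2 (Sgn chi Ker chi_comm chi_sgn chi_symmDiff_right mem_Ker)
open RG.Cnt (sum_powerset_union Rows coset sum_chi abs_chi Diag sum_diag Ker_eq)

namespace Cnt

variable {m : ℕ}

theorem mem_le {Y : ℕ} {V : Finset (Gen m)} {a : Gen m} : a ∈ le Y V ↔ a ∈ V ∧ a.2 ≤ Y :=
  mem_filter

theorem mem_md {Y Y' : ℕ} {V : Finset (Gen m)} {a : Gen m} :
    a ∈ md Y Y' V ↔ a ∈ V ∧ Y < a.2 ∧ a.2 ≤ Y' := mem_filter

theorem tg_inj : Function.Injective (tg : Ed m → Tag m) := fun _ _ h => congrArg Prod.fst h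

theorem ex_tg {k : Tag m} (h : k.2 = some true) : k = tg k.1 := Prod.ext rfl h

theorem mem_ones {V : Finset (Gen m)} {y : Finset (Ed m)} {a : Gen m} :
    a ∈ ones V y ↔ a ∈ V ∧ ∃ h ∈ y, tg h = a.1 := by
  simp only [ones, mem_filter, mem_image]

theorem mem_ones_tg {V : Finset (Gen m)} {y : Finset (Ed m)} {a : Gen m} {h : Ed m}
    (e : a.1 = tg h) : a ∈ ones V y ↔ a ∈ V ∧ h ∈ y := by
  rw [mem_ones, e]
  exact and_congr_right fun _ => ⟨fun ⟨k, h1, h2⟩ => tg_inj h2 ▸ h1, fun h1 => ⟨h, h1, rfl⟩⟩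

theorem ones_symmDiff (V : Finset (Gen m)) (y y' : Finset (Ed m)) :
    ones V (symmDiff y y') = symmDiff (ones V y) (ones V y') := by
  ext a
  by_cases k : a.1.2 = some true
  · simp only [mem_symmDiff, mem_ones_tg (ex_tg k)]
    tauto
  · have : ∀ y : Finset (Ed m), a ∉ ones V y := fun y h => by
      obtain ⟨-, j, -, e⟩ := mem_ones.1 h
      exact k (e ▸ rfl)
    simp only [mem_symmDiff, this, false_and, or_self]

theorem ov_out {f g : Ed m} (h : lk f g) : ov f g ∈ out g := by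
  refine mem_filter.2 ⟨mem_univ _, ?_⟩
  unfold ov
  split_ifs with c
  · intro d
    have h1 := f.2
    have h2 := g.2
    refine h.1 (Subtype.ext (Prod.ext ?_ ?_)) <;> rcases c with c | c <;> rcases d with d | d <;>
      omega
  · exact c

/-- the hypotheses on the set of generators -/
structure Hyp (V : Finset (Gen m)) (Y Y' J : ℕ) : Prop where
  cb : COMBStmt
  three : 3 ≤ m
  hle : Y ≤ Y'
  hJ : 1 ≤ J
  tag : ∀ a ∈ V, Y < a.2 → a.1.2 = some true
  one : ∀ h : Ed m, (V.filter fun a => a.1 = tg h ∧ Y' < a.2).card = 1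
  med : ∀ h : Ed m, 4 * J ≤ ((md Y Y' V).filter fun a => a.1 = tg h).card ∧
    ((md Y Y' V).filter fun a => a.1 = tg h).card ≤ 6 * J

section
variable {V : Finset (Gen m)} {Y Y' J : ℕ}

theorem disj (V : Finset (Gen m)) (Y Y' : ℕ) : Disjoint (le Y V) (md Y Y' V) :=
  disjoint_left.2 fun _ h h' => not_lt.2 (mem_le.1 h).2 (mem_md.1 h').2.1

theorem union_symmDiff {W T : Finset (Gen m)} (hW : W ⊆ le Y V) (hT : T ⊆ md Y Y' V)
    (z : Finset (Gen m)) : symmDiff (W ∪ T) z = symmDiff W (symmDiff T z) := by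
  rw [← symmDiff_assoc, ((disj V Y Y').mono hW hT).symmDiff_eq_sup, sup_eq_union]

theorem Hyp.split (H : Hyp V Y Y' J) : le Y' V = le Y V ∪ md Y Y' V := by
  ext a
  have := H.hle
  simp only [mem_union, mem_le, mem_md, ← and_or_left]
  exact and_congr_right fun _ => by omega

theorem Hyp.md_tag (H : Hyp V Y Y' J) {a : Gen m} (ha : a ∈ md Y Y' V) : a.1 = tg a.1.1 :=
  ex_tg (H.tag a (mem_md.1 ha).1 (mem_md.1 ha).2.1)

theorem Hyp.card_V (H : Hyp V Y Y' J) :
    V.card = (le Y V).card + (md Y Y' V).card + NE m := by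
  rw [← card_union_of_disjoint (disj V Y Y'), ← H.split,
    ← card_filter_add_card_filter_not (s := V) (fun a => a.2 ≤ Y')]
  congr 1
  rw [card_eq_sum_card_fiberwise (f := fun a : Gen m => a.1) (t := univ.image tg)]
  · rw [sum_image fun _ _ _ _ e => tg_inj e, sum_congr rfl (g := fun _ => 1)]
    · rw [sum_const, smul_eq_mul, mul_one, card_univ, NE]
    · intro h _
      rw [← H.one h, filter_filter]
      exact congrArg _ (filter_congr fun a _ => by rw [not_le, and_comm])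
  · intro a ha
    simp only [coe_filter, Set.mem_ofPred_eq, not_le] at ha
    exact mem_coe.2 (mem_image.2 ⟨_, mem_univ _, (ex_tg (H.tag a ha.1 (H.hle.trans_lt ha.2))).symm⟩)

theorem Hyp.large (H : Hyp V Y Y' J) (h : Ed m) : ∃ a ∈ V, a.1 = tg h ∧ Y' < a.2 := by
  obtain ⟨a, ha⟩ := card_pos.1 ((H.one h).symm ▸ Nat.one_pos :
    0 < (V.filter fun a => a.1 = tg h ∧ Y' < a.2).card)
  exact ⟨a, (mem_filter.1 ha).1, (mem_filter.1 ha).2⟩

theorem Hyp.large_eq (H : Hyp V Y Y' J) {a b : Gen m} (ha : a ∈ V) (hb : b ∈ V) (h1 : Y' < a.2)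
    (h2 : Y' < b.2) (e : a.1 = b.1) : a = b := by
  have k := ex_tg (H.tag a ha (H.hle.trans_lt h1))
  exact card_le_one.1 (H.one a.1.1).le a (mem_filter.2 ⟨ha, k, h1⟩) b
    (mem_filter.2 ⟨hb, e.symm.trans k, h2⟩)

/-- a set of forms and a set of generators that are not large -/
abbrev Pr (m : ℕ) : Type := Finset (Ed m) × Finset (Gen m)

def vec (V : Finset (Gen m)) (p : Pr m) : Finset (Gen m) := symmDiff p.2 (ones V p.1)

def add (p q : Pr m) : Pr m := (symmDiff p.1 q.1, symmDiff p.2 q.2)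

/-- the translation by the set of all forms -/
def sh (p : Pr m) : Pr m := (symmDiff univ p.1, p.2)

def all (Y' : ℕ) (V : Finset (Gen m)) : Finset (Pr m) := univ ×ˢ (le Y' V).powerset

theorem mem_all {p : Pr m} : p ∈ all Y' V ↔ p.2 ⊆ le Y' V := by
  simp only [all, mem_product, mem_univ, true_and, mem_powerset]

theorem vec_add (V : Finset (Gen m)) (p q : Pr m) :
    vec V (add p q) = symmDiff (vec V p) (vec V q) := by
  simp only [vec, add, ones_symmDiff]
  exact symmDiff_symmDiff_symmDiff_comm _ _ _ _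

theorem add_add (p q : Pr m) : add p (add p q) = q := by
  simp only [add, symmDiff_symmDiff_cancel_left]

theorem add_comm' (p q : Pr m) : add p q = add q p := by
  simp only [add, symmDiff_comm]

theorem add_sh (p q : Pr m) : add p (sh q) = sh (add p q) :=
  Prod.ext (symmDiff_left_comm _ _ _) rfl

theorem sh_sh (p : Pr m) : sh (sh p) = p := Prod.ext (symmDiff_symmDiff_cancel_left _ _) rfl

theorem add_mem {p q : Pr m} (hp : p ∈ all Y' V) (hq : q ∈ all Y' V) : add p q ∈ all Y' V :=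
  mem_all.2 (symmDiff_subset_union.trans (union_subset (mem_all.1 hp) (mem_all.1 hq)))

theorem vec_sub {p : Pr m} (hp : p ∈ all Y' V) : vec V p ⊆ V :=
  symmDiff_subset_union.trans
    (union_subset ((mem_all.1 hp).trans (filter_subset _ _)) (filter_subset _ _))

theorem Hyp.sum_param (H : Hyp V Y Y' J) (F : Finset (Gen m) → ℝ) :
    ∑ p ∈ all Y' V, F (vec V p) = ∑ x ∈ V.powerset, F x := by
  refine sum_bij (fun p _ => vec V p) (fun p hp => mem_powerset.2 (vec_sub hp)) ?_ ?_ fun _ _ => rfl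
  · intro p hp q hq e
    have h1 : p.1 = q.1 := by
      ext h
      obtain ⟨a, ha, k, hl⟩ := H.large h
      have : ∀ r ∈ all Y' V, a ∈ vec V r ↔ h ∈ r.1 := fun r hr => by
        have : a ∉ r.2 := fun h => not_lt.2 (mem_le.1 (mem_all.1 hr h)).2 hl
        simp [vec, mem_symmDiff, this, mem_ones_tg k, ha]
      rw [← this p hp, ← this q hq, e]
    unfold vec at e
    rw [h1] at e
    exact Prod.ext h1 (symmDiff_left_injective _ e)
  · intro x hx
    rw [mem_powerset] at hx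
    obtain ⟨y, hy⟩ : ∃ y : Finset (Ed m), ∀ h, h ∈ y ↔ ∃ a ∈ x, Y' < a.2 ∧ a.1 = tg h :=
      ⟨univ.filter fun h => ∃ a ∈ x, Y' < a.2 ∧ a.1 = tg h, fun h => by
        simp only [mem_filter, mem_univ, true_and]⟩
    refine ⟨(y, symmDiff x (ones V y)), mem_all.2 fun a ha => ?_,
      symmDiff_symmDiff_cancel_right (ones V y) x⟩
    have haV : a ∈ V :=
      symmDiff_subset_union.trans (union_subset hx (filter_subset _ _)) ha
    refine mem_le.2 ⟨haV, not_lt.1 fun hl => ?_⟩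
    have k := ex_tg (H.tag a haV (H.hle.trans_lt hl))
    simp only [mem_symmDiff, mem_ones_tg k, hy] at ha
    rcases ha with ⟨h1, h2⟩ | ⟨⟨-, b, h1, h2, h3⟩, h4⟩
    · exact h2 ⟨haV, a, h1, hl, k⟩
    · exact h4 (H.large_eq (hx h1) haV h2 hl (h3.trans k.symm) ▸ h1)

/-! ### the terms that do not oscillate -/

variable {W : Finset (Gen m)} {p q : Pr m}

theorem Hyp.dk_add (H : Hyp V Y Y' J) {h : Ed m} {k : Fin m} (hk : k ∈ out h)
    (y y' : Finset (Ed m)) : dk (symmDiff y y') h k % 2 = (dk y h k + dk y' h k) % 2 :=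
  ((H.cb m H.three).2.2.2.2.2.1 h k hk).2.2.1 y y'

theorem Hyp.dk_sh (H : Hyp V Y Y' J) {h : Ed m} {k : Fin m} (hk : k ∈ out h)
    (y : Finset (Ed m)) : dk (symmDiff univ y) h k % 2 = (1 + dk y h k) % 2 := by
  rw [H.dk_add hk, ((H.cb m H.three).2.2.2.2.2.1 h k hk).2.1]
  omega

/-- the subgroup -/
def InR (W : Finset (Gen m)) (p : Pr m) : Prop :=
  (∀ h, ∀ k ∈ out h, dk p.1 h k % 2 = 0) ∧ ∀ a ∈ W, a ∉ p.2

theorem Hyp.add (H : Hyp V Y Y' J) (hp : InR W p) (hq : InR W q) : InR W (add p q) :=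
  ⟨fun h k hk => by
    have h1 := hp.1 h k hk
    have h2 := hq.1 h k hk
    have h3 := H.dk_add hk p.1 q.1
    change dk (symmDiff p.1 q.1) h k % 2 = 0
    omega,
    fun a ha h => (mem_symmDiff.1 h).elim (fun k => hp.2 a ha k.1) fun k => hq.2 a ha k.1⟩

theorem Hyp.add_iff (H : Hyp V Y Y' J) (hp : InR W p) : InR W (Cnt.add p q) ↔ InR W q :=
  ⟨fun h => add_add p q ▸ H.add hp h, H.add hp⟩

theorem Hyp.not_sh (H : Hyp V Y Y' J) (hp : InR W p) : ¬InR W (sh p) := fun hq => by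
  obtain ⟨g⟩ : Nonempty (Ed m) := Fintype.card_pos_iff.1
    (lt_of_lt_of_le (by norm_num) (H.cb m H.three).1.2.2)
  obtain ⟨f, hf⟩ := (H.cb m H.three).2.2.1 g
  have h1 := hp.1 g _ (ov_out hf)
  have h2 : dk (symmDiff univ p.1) g (ov f g) % 2 = 0 := hq.1 g _ (ov_out hf)
  rw [H.dk_sh (ov_out hf)] at h2
  omega

def Os (W : Finset (Gen m)) (p q : Pr m) : Prop := Osc p.1 q.1 (pat W p.2 q.2)

/-- the exponent as a function of two labels and two numbers -/
def ev (l l' : Bool × Bool) (d d' : ℕ) : ℕ :=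
  l.1.toNat * l'.2.toNat + l.2.toNat * l'.1.toNat + l'.1.toNat * l'.2.toNat +
    l'.2.toNat * d + l'.1.toNat * d'

/-- the label of a generator -/
def lab (U U' : Finset (Gen m)) (s : Gen m) : Bool × Bool := (decide (s ∈ U), decide (s ∈ U'))

theorem os_iff : Os W p q ↔ ∃ s ∈ W, ∃ t ∈ W, lk s.1.1 t.1.1 ∧
    ev (lab p.2 q.2 s) (lab p.2 q.2 t) (dk p.1 t.1.1 (ov s.1.1 t.1.1))
      (dk q.1 t.1.1 (ov s.1.1 t.1.1)) % 2 = 1 := by
  constructor
  · rintro ⟨f, hf, k, hk, h, ho⟩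
    obtain ⟨s, hs, rfl⟩ := mem_image.1 hf
    obtain ⟨t, ht, rfl⟩ := mem_image.1 hk
    exact ⟨s, hs, t, ht, h, Nat.odd_iff.1 ho⟩
  · rintro ⟨s, hs, t, ht, h, ho⟩
    exact ⟨_, mem_image_of_mem _ hs, _, mem_image_of_mem _ ht, h, Nat.odd_iff.2 ho⟩

theorem Hyp.not_os (H : Hyp V Y Y' J)
    (h : InR W p ∨ InR W q ∨ InR W (sh (Cnt.add p q))) : ¬Os W p q := by
  rw [os_iff]
  rintro ⟨s, hs, t, ht, l, ho⟩
  have o := ov_out l
  rcases h with h | h | h
  · have := h.1 _ _ o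
    by_cases c : t ∈ q.2 <;> simp [ev, lab, h.2 s hs, h.2 t ht, c] at ho
    omega
  · have := h.1 _ _ o
    by_cases c : t ∈ p.2 <;> simp [ev, lab, h.2 s hs, h.2 t ht, c] at ho
    omega
  · have e : ∀ a ∈ W, a ∈ q.2 ↔ a ∈ p.2 := fun a ha => by
      have : a ∉ symmDiff p.2 q.2 := h.2 a ha
      rw [mem_symmDiff] at this
      tauto
    have h1 : dk (symmDiff univ (symmDiff p.1 q.1)) _ _ % 2 = 0 := h.1 _ _ o
    have h2 := H.dk_add o p.1 q.1
    rw [H.dk_sh o] at h1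
    by_cases c : t ∈ p.2 <;> by_cases d : s ∈ p.2 <;>
      simp [ev, lab, e s hs, e t ht, c, d] at ho <;> omega

/-- the remaining pairs -/
def Nn (W : Finset (Gen m)) (p q : Pr m) : Prop :=
  ¬Os W p q ∧ ¬(InR W p ∨ InR W q ∨ InR W (sh (add p q)))

/-- the labels that occur on a form -/
def ty (W U U' : Finset (Gen m)) (h : Ed m) : Finset (Bool × Bool) :=
  (W.filter fun a => a.1 = tg h).image (lab U U')

theorem mem_ty {U U' : Finset (Gen m)} {h : Ed m} {v : Bool × Bool} :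
    v ∈ ty W U U' h ↔ ∃ s ∈ W, s.1 = tg h ∧ lab U U' s = v := by
  simp only [ty, mem_image, mem_filter, and_assoc]

/-- the forms with one label pay for the forms with many labels -/
def Ad (τ : Ed m → Finset (Bool × Bool)) : Prop :=
  2 * (univ.filter fun h => 2 < (τ h).card).card ≤ (univ.filter fun h => (τ h).card ≤ 1).card ∧
    1 ≤ (univ.filter fun h => (τ h).card ≤ 1).card

def det (l l' : Bool × Bool) : Bool := xor (l.1 && l'.2) (l.2 && l'.1)

theorem ev_det {a b v : Bool × Bool} {d d' : ℕ} (h1 : ev a v d d' % 2 = 0)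
    (h2 : ev b v d d' % 2 = 0) : det a v = det b v := by
  obtain ⟨_ | _, _ | _⟩ := v <;> obtain ⟨_ | _, _ | _⟩ := a <;> obtain ⟨_ | _, _ | _⟩ := b <;>
    first | rfl | (simp [ev] at h1 h2; omega)

theorem det3 : ∀ a b c v : Bool × Bool, a ≠ b → a ≠ c → b ≠ c → det a v = det b v →
    det a v = det c v → v = (false, false) := by decide

theorem det4 : ∀ a b u w : Bool × Bool, a ≠ b → u ≠ w → det a u = det b u → det a w = det b w →
    u = (false, false) ∨ w = (false, false) := by decide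

theorem det5 : ∀ v u : Bool × Bool, v ≠ (false, false) → det v u = det (false, false) u →
    u = (false, false) ∨ u = v := by decide

theorem Hyp.ad (H : Hyp V Y Y' J) (h : Nn (md Y Y' V) p q) : Ad (ty (md Y Y' V) p.2 q.2) := by
  obtain ⟨-, c2, c3, c4, -, c6, -⟩ := H.cb m H.three
  set W := md Y Y' V
  have key : ∀ {f g : Ed m} {a v : Bool × Bool}, lk f g → a ∈ ty W p.2 q.2 f →
      v ∈ ty W p.2 q.2 g → ev a v (dk p.1 g (ov f g)) (dk q.1 g (ov f g)) % 2 = 0 := by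
    intro f g a v l ha hv
    obtain ⟨s, s1, s2, rfl⟩ := mem_ty.1 ha
    obtain ⟨t, t1, t2, rfl⟩ := mem_ty.1 hv
    obtain rfl : s.1.1 = f := congrArg Prod.fst s2
    obtain rfl : t.1.1 = g := congrArg Prod.fst t2
    exact (Nat.mod_two_eq_zero_or_one _).resolve_right fun k =>
      h.1 (os_iff.2 ⟨s, s1, t, t1, l, k⟩)
  have par : ∀ {f g : Ed m} {a b v : Bool × Bool}, lk f g → a ∈ ty W p.2 q.2 f →
      b ∈ ty W p.2 q.2 f → v ∈ ty W p.2 q.2 g → det a v = det b v :=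
    fun l ha hb hv => ev_det (key l ha hv) (key l hb hv)
  have nb : ∀ f g : Ed m, lk f g → 2 < (ty W p.2 q.2 f).card → (ty W p.2 q.2 g).card ≤ 1 :=
    fun f g l hf => by
    obtain ⟨a, ha, b, hb, c, hc, k1, k2, k3⟩ := two_lt_card.1 hf
    have z : ∀ v ∈ ty W p.2 q.2 g, v = (false, false) := fun v hv =>
      det3 a b c v k1 k2 k3 (par l ha hb hv) (par l ha hc hv)
    exact card_le_one.2 fun u hu w hw => (z u hu).trans (z w hw).symm
  have h1 : 2 * (univ.filter fun h => 2 < (ty W p.2 q.2 h).card).card ≤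
      (univ.filter fun h => (ty W p.2 q.2 h).card ≤ 1).card := by
    have s : ∀ g ∈ nbr (univ.filter fun h => 2 < (ty W p.2 q.2 h).card),
        (ty W p.2 q.2 g).card ≤ 1 := fun g hg => by
      obtain ⟨f, hf, l⟩ := (mem_filter.1 hg).2
      exact nb f g l (mem_filter.1 hf).2
    refine le_trans (Nat.mul_le_mul_left 2 (card_le_card fun g hg => ?_))
      ((c2 (univ.filter fun h => 2 < (ty W p.2 q.2 h).card)).trans (card_le_card fun g hg => ?_))
    · refine mem_sdiff.2 ⟨hg, fun k => ?_⟩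
      have := s g k
      have := (mem_filter.1 hg).2
      omega
    · exact mem_filter.2 ⟨mem_univ _, s g (mem_sdiff.1 hg).1⟩
  refine ⟨h1, ?_⟩
  by_contra h0
  have z : ∀ k, ∃ a ∈ ty W p.2 q.2 k, ∃ b ∈ ty W p.2 q.2 k, a ≠ b := fun k =>
    one_lt_card.1 (not_le.1 fun e => h0 (card_pos.2 ⟨k, mem_filter.2 ⟨mem_univ _, e⟩⟩))
  have zero : ∀ g, (false, false) ∈ ty W p.2 q.2 g := fun g => by
    obtain ⟨f, l⟩ := c3 g
    obtain ⟨a, ha, b, hb, k⟩ := z f
    obtain ⟨u, hu, w, hw, k'⟩ := z g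
    rcases det4 a b u w k k' (par l ha hb hu) (par l ha hb hw) with e | e
    exacts [e ▸ hu, e ▸ hw]
  have step : ∀ {f g : Ed m} {v : Bool × Bool}, lk f g → v ∈ ty W p.2 q.2 f →
      v ≠ (false, false) → ∀ u ∈ ty W p.2 q.2 g, u = (false, false) ∨ u = v :=
    fun l hv v0 u hu => det5 _ u v0 (par l hv (zero _) hu)
  obtain ⟨v, v0, hv⟩ : ∃ v : Bool × Bool, v ≠ (false, false) ∧ ∀ k, v ∈ ty W p.2 q.2 k := by
    obtain ⟨k0⟩ : Nonempty (Ed m) := Fintype.card_pos_iff.1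
      (lt_of_lt_of_le (by norm_num) (H.cb m H.three).1.2.2)
    obtain ⟨v, v1, v2⟩ : ∃ v ∈ ty W p.2 q.2 k0, v ≠ (false, false) := by
      obtain ⟨a, ha, b, hb, k⟩ := z k0
      by_cases c : a = (false, false)
      exacts [⟨b, hb, fun e => k (c.trans e.symm)⟩, ⟨a, ha, c⟩]
    have := c4 (univ.filter fun k => v ∈ ty W p.2 q.2 k) ⟨k0, mem_filter.2 ⟨mem_univ _, v1⟩⟩
      fun g hg => by
        obtain ⟨f, hf, l⟩ := (mem_filter.1 hg).2
        obtain ⟨u, hu, w, hw, k⟩ := z g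
        refine mem_filter.2 ⟨mem_univ _, ?_⟩
        rcases step l (mem_filter.1 hf).2 v2 u hu with e | e
        · rcases step l (mem_filter.1 hf).2 v2 w hw with e' | e'
          exacts [absurd (e.trans e'.symm) k, e' ▸ hw]
        · exact e ▸ hu
    exact ⟨v, v2, fun k => filter_eq_self.1 this k (mem_univ _)⟩
  have l1 : ∀ s ∈ W, lab p.2 q.2 s = (false, false) ∨ lab p.2 q.2 s = v := fun s hs => by
    obtain ⟨f, l⟩ := c3 s.1.1
    exact step l (hv f) v0 _ (mem_ty.2 ⟨s, hs, H.md_tag hs, rfl⟩)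
  have l2 : ∀ g, ∀ k ∈ out g, ev (false, false) v (dk p.1 g k) (dk q.1 g k) % 2 = 0 :=
    fun g k hk => by
      obtain ⟨f, l, rfl⟩ := (c6 g k hk).1
      exact key l (zero f) (hv g)
  obtain ⟨_ | _, _ | _⟩ := v
  · exact v0 rfl
  · refine h.2 (.inl ⟨fun g k hk => by simpa [ev] using l2 g k hk, fun a ha k => ?_⟩)
    simpa [lab, k] using l1 a ha
  · refine h.2 (.inr (.inl ⟨fun g k hk => by simpa [ev] using l2 g k hk, fun a ha k => ?_⟩))
    simpa [lab, k] using l1 a ha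
  · refine h.2 (.inr (.inr ⟨fun g k hk => ?_, fun a ha k => ?_⟩))
    · have h2 := l2 g k hk
      have h3 := H.dk_add hk p.1 q.1
      change dk (symmDiff univ (symmDiff p.1 q.1)) g k % 2 = 0
      rw [H.dk_sh hk]
      simp [ev] at h2
      omega
    · have := l1 a ha
      rcases mem_symmDiff.1 k with k | k <;> simp [lab, k.1, k.2] at this

theorem Nn_congr {y : Finset (Ed m)} {T T' : Finset (Gen m)} (e : ∀ a ∈ W, a ∈ T ↔ a ∈ T') :
    Nn W p (y, T) ↔ Nn W p (y, T') := by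
  have h1 : pat W p.2 T = pat W p.2 T' := image_congr fun s hs => by simp [tl, e s hs]
  have h2 : InR W (y, T) ↔ InR W (y, T') :=
    and_congr_right fun _ => forall₂_congr fun a ha => not_congr (e a ha)
  have h3 : InR W (sh (add p (y, T))) ↔ InR W (sh (add p (y, T'))) :=
    and_congr_right fun _ => forall₂_congr fun a ha => by
      simp only [sh, add, mem_symmDiff, e a ha]
  simp only [Nn, Os, h1, h2, h3]

/-! ### the number of labelings -/

open Classical in
theorem Hyp.card_ty (H : Hyp V Y Y' J) {τ : Ed m → Finset (Bool × Bool)} (hτ : Ad τ) :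
    (((md Y Y' V).powerset ×ˢ (md Y Y' V).powerset).filter
      fun x => ty (md Y Y' V) x.1 x.2 = τ).card * 2 ^ J ≤ 2 ^ (md Y Y' V).card := by
  set W := md Y Y' V
  let r : Ed m → ℕ := fun h => (W.filter fun a => a.1 = tg h).card
  let e : Ed m → ℕ := fun h => if (τ h).card ≤ 1 then 0 else if 2 < (τ h).card then 2 else 1
  have he : ∀ h, (τ h).card ≤ 2 ^ e h := fun h => by
    have := card_le_univ (τ h)
    simp only [Fintype.card_prod, Fintype.card_bool] at this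
    simp only [e]
    split_ifs <;> omega
  have h1 : ((W.powerset ×ˢ W.powerset).filter fun x => ty W x.1 x.2 = τ).card ≤
      (univ.pi fun h => (W.filter fun a => a.1 = tg h).pi fun _ => τ h).card := by
    refine card_le_card_of_injOn (fun x h _ s _ => lab x.1 x.2 s) (fun x hx => ?_)
      fun x hx x' hx' k => ?_
    · refine mem_coe.2 (mem_pi.2 fun h _ => mem_pi.2 fun s hs => ?_)
      rw [← (mem_filter.1 (mem_coe.1 hx)).2]
      exact mem_ty.2 ⟨s, (mem_filter.1 hs).1, (mem_filter.1 hs).2, rfl⟩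
    · obtain ⟨a1, a2⟩ := mem_product.1 (mem_filter.1 (mem_coe.1 hx)).1
      obtain ⟨b1, b2⟩ := mem_product.1 (mem_filter.1 (mem_coe.1 hx')).1
      have k1 : ∀ s ∈ W, lab x.1 x.2 s = lab x'.1 x'.2 s := fun s hs =>
        congrFun (congrFun (congrFun (congrFun k s.1.1) (mem_univ _)) s)
          (mem_filter.2 ⟨hs, H.md_tag hs⟩)
      simp only [lab, Prod.mk.injEq, decide_eq_decide] at k1
      refine Prod.ext ?_ ?_ <;> ext s
      · exact ⟨fun k => (k1 s (mem_powerset.1 a1 k)).1.1 k,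
          fun k => (k1 s (mem_powerset.1 b1 k)).1.2 k⟩
      · exact ⟨fun k => (k1 s (mem_powerset.1 a2 k)).2.1 k,
          fun k => (k1 s (mem_powerset.1 b2 k)).2.2 k⟩
  have h2 : (univ.pi fun h => (W.filter fun a => a.1 = tg h).pi fun _ => τ h).card ≤
      2 ^ ∑ h, e h * r h := by
    rw [card_pi, ← prod_pow_eq_pow_sum]
    refine prod_le_prod' fun h _ => ?_
    rw [card_pi, prod_const, pow_mul]
    exact Nat.pow_le_pow_left (he h) _
  have h3 : W.card = ∑ h, r h := by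
    rw [card_eq_sum_card_fiberwise (f := fun a : Gen m => a.1) (t := univ.image tg),
      sum_image fun _ _ _ _ e => tg_inj e]
    intro a ha
    exact mem_coe.2 (mem_image.2 ⟨_, mem_univ _, (H.md_tag (mem_coe.1 ha)).symm⟩)
  have h4 : ∑ h, (e h * r h + 4 * J * if (τ h).card ≤ 1 then 1 else 0) ≤
      ∑ h, (r h + 6 * J * if 2 < (τ h).card then 1 else 0) := by
    refine sum_le_sum fun h _ => ?_
    have : 4 * J ≤ r h ∧ r h ≤ 6 * J := H.med h
    simp only [e]
    split_ifs <;> omega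
  simp only [sum_add_distrib, ← mul_sum, ← card_filter] at h4
  obtain ⟨t1, t2⟩ := hτ
  refine (Nat.mul_le_mul_right _ (h1.trans h2)).trans ?_
  rw [← pow_add]
  refine Nat.pow_le_pow_right two_pos ?_
  rw [h3]
  nlinarith [Nat.mul_le_mul_left J t1, Nat.mul_le_mul_left J t2]

open Classical in
theorem Hyp.card_ad (H : Hyp V Y Y' J) :
    (((md Y Y' V).powerset ×ˢ (md Y Y' V).powerset).filter
      fun x => Ad (ty (md Y Y' V) x.1 x.2)).card * 2 ^ J ≤ 16 ^ NE m * 2 ^ (md Y Y' V).card := by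
  rw [card_eq_sum_card_fiberwise (f := fun x : Finset (Gen m) × Finset (Gen m) =>
    ty (md Y Y' V) x.1 x.2) (t := univ.filter Ad)
    fun x hx => mem_coe.2 (mem_filter.2 ⟨mem_univ _, (mem_filter.1 (mem_coe.1 hx)).2⟩), sum_mul]
  refine (sum_le_card_nsmul _ _ (2 ^ (md Y Y' V).card) fun τ hτ => ?_).trans
    (Nat.mul_le_mul_right _ ((card_filter_le _ _).trans (le_of_eq ?_)))
  · exact (Nat.mul_le_mul_right _ (card_le_card fun x hx => mem_filter.2
      ⟨(mem_filter.1 (mem_filter.1 hx).1).1, (mem_filter.1 hx).2⟩)).trans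
      (H.card_ty (mem_filter.1 hτ).2)
  · simp [NE]

end

/-! ### the sums -/

section
variable {V : Finset (Gen m)} {Y Y' J : ℕ} {g : Gen m → Gen m → ℤ}

def tm (g : Gen m → Gen m → ℤ) (V : Finset (Gen m)) (p q : Pr m) : ℝ :=
  (chi g (vec V p) (vec V q) : ℝ) / 2 ^ V.card

theorem Hyp.full (H : Hyp V Y Y' J) (hg : Sgn g) (p : Pr m) :
    ∑ q ∈ all Y' V, tm g V p q = if Rows g V (vec V p) then 1 else 0 := by
  refine (H.sum_param fun x => (chi g (vec V p) x : ℝ) / 2 ^ V.card).trans ?_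
  rw [← sum_div, sum_chi hg]
  split_ifs
  · exact div_self (pow_ne_zero _ two_ne_zero)
  · exact zero_div _

theorem Hyp.total (H : Hyp V Y Y' J) (hg : Sgn g) :
    ((Ker g V).card : ℝ) = ∑ p ∈ all Y' V, ∑ q ∈ all Y' V, tm g V p q := by
  rw [Ker_eq, card_filter, Nat.cast_sum, ← H.sum_param]
  refine sum_congr rfl fun p _ => ?_
  rw [H.full hg, Nat.cast_ite, Nat.cast_one, Nat.cast_zero]

open Classical in
theorem osc_eq : osc g Y Y' V =
    ∑ p ∈ all Y' V, ∑ q ∈ all Y' V, if Os (md Y Y' V) p q then tm g V p q else 0 := by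
  simp only [all, sum_product, osc]
  exact sum_congr rfl fun y _ => sum_comm

open Classical in
theorem Hyp.rset_eq (H : Hyp V Y Y' J) : rset g Y V =
    (all Y' V).filter fun p => InR (md Y Y' V) p ∧ Rows g V (vec V p) := by
  ext p
  simp only [rset, Yc, mem_filter, mem_product, mem_powerset, mem_Ker, mem_univ, true_and,
    Nat.even_iff]
  constructor
  · rintro ⟨⟨h1, h2⟩, -, h3⟩
    exact ⟨mem_all.2 (H.split ▸ h2.trans subset_union_left),
      ⟨h1, fun a ha h => disjoint_left.1 (disj V Y Y') (h2 h) ha⟩, h3⟩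
  · rintro ⟨h1, ⟨h2, h3⟩, h4⟩
    refine ⟨⟨h2, fun a ha => ?_⟩, vec_sub h1, h4⟩
    have := mem_all.1 h1 ha
    rw [H.split, mem_union] at this
    exact this.resolve_right fun h => h3 a h ha

open Classical in
theorem Hyp.sum_a (H : Hyp V Y Y' J) (hg : Sgn g) :
    ∑ p ∈ all Y' V, ∑ q ∈ all Y' V, (if InR (md Y Y' V) p then tm g V p q else 0) =
      (rset g Y V).card := by
  rw [H.rset_eq, card_filter, Nat.cast_sum]
  refine sum_congr rfl fun p _ => ?_
  rw [sum_ite_irrel, H.full hg, sum_const_zero]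
  by_cases a : InR (md Y Y' V) p <;> simp [a]

theorem tm_comm (hg : Sgn g) (p q : Pr m) : tm g V p q = tm g V q p := by
  rw [tm, tm, chi_comm hg]

open Classical in
theorem Hyp.sum_b (H : Hyp V Y Y' J) (hg : Sgn g) :
    ∑ p ∈ all Y' V, ∑ q ∈ all Y' V, (if InR (md Y Y' V) q then tm g V p q else 0) =
      (rset g Y V).card := by
  rw [sum_comm, ← H.sum_a hg]
  refine sum_congr rfl fun p _ => sum_congr rfl fun q _ => ?_
  rw [tm_comm hg]

theorem sum_add {p : Pr m} (hp : p ∈ all Y' V) (F : Pr m → ℝ) :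
    ∑ q ∈ all Y' V, F q = ∑ q ∈ all Y' V, F (add p q) :=
  sum_nbij' (add p) (add p) (fun _ h => add_mem hp h) (fun _ h => add_mem hp h)
    (fun q _ => add_add p q) (fun q _ => add_add p q) fun q _ => by rw [add_add]

open Classical in
theorem Hyp.sum_c (H : Hyp V Y Y' J) (hg : Sgn g) :
    ∑ p ∈ all Y' V, ∑ q ∈ all Y' V,
      (if InR (md Y Y' V) (sh (Cnt.add p q)) then tm g V p q else 0) ≤ (rset g Y V).card := by
  rw [sum_congr rfl fun p hp => sum_add hp _, sum_comm]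
  have h1 : ∀ z ∈ all Y' V, ∑ p ∈ all Y' V,
      (if InR (md Y Y' V) (sh (Cnt.add p (Cnt.add p z))) then tm g V p (Cnt.add p z) else 0) =
      if InR (md Y Y' V) (sh z) ∧ Diag g V (vec V z) then 1 else 0 := fun z _ => by
    simp only [add_add, tm, vec_add]
    rw [sum_ite_irrel, sum_const_zero,
      H.sum_param fun x => (chi g x (symmDiff x (vec V z)) : ℝ) / 2 ^ V.card, sum_diag hg, ite_and]
  rw [sum_congr rfl h1, sum_boole, Nat.cast_le, H.rset_eq]
  rcases ((all Y' V).filter fun z => InR (md Y Y' V) (sh z) ∧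
    Diag g V (vec V z)).eq_empty_or_nonempty with h | ⟨w, h⟩
  · rw [h]; exact Nat.zero_le _
  · rw [mem_filter] at h
    refine card_le_card_of_injOn (Cnt.add w) (fun z hz => ?_) fun z _ z' _ e => ?_
    · obtain ⟨k1, k2, k3⟩ := mem_filter.1 (mem_coe.1 hz)
      have k4 := H.add h.2.1 k2
      rw [add_sh, add_comm', add_sh, sh_sh, add_comm'] at k4
      exact mem_coe.2 (mem_filter.2 ⟨add_mem h.1 k1, k4, vec_add V w z ▸ h.2.2.rows hg k3⟩)
    · rw [← add_add w z, e, add_add]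

open Classical in
theorem Hyp.sum_ab (H : Hyp V Y Y' J) (hg : Sgn g) (W : Finset (Gen m)) (p : Pr m) :
    0 ≤ ∑ q ∈ all Y' V, (if InR W q then tm g V p q else 0) := by
  by_cases h : ∃ w ∈ all Y' V, InR W w ∧ chi g (vec V p) (vec V w) = -1
  · obtain ⟨w, h1, h2, h3⟩ := h
    have := sum_add h1 fun q => if InR W q then tm g V p q else 0
    have h4 : ∀ q ∈ all Y' V, (if InR W (Cnt.add w q) then tm g V p (Cnt.add w q) else 0) =
        -if InR W q then tm g V p q else 0 := fun q _ => by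
      by_cases k : InR W q
      · rw [if_pos k, if_pos (H.add h2 k), tm, tm, vec_add, chi_symmDiff_right hg, h3]
        push_cast
        ring
      · rw [if_neg k, if_neg fun k1 => k ((H.add_iff h2).1 k1), neg_zero]
    rw [sum_congr rfl h4, sum_neg_distrib] at this
    linarith
  · refine sum_nonneg fun q hq => ?_
    split_ifs with k
    · rw [tm, (chi_sgn hg _ _).resolve_right fun e => h ⟨q, hq, k, e⟩]
      positivity
    · rfl

open Classical in
theorem Hyp.sum_two (H : Hyp V Y Y' J) (hg : Sgn g) (W : Finset (Gen m)) (P : Pr m → Prop) :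
    0 ≤ ∑ p ∈ all Y' V, ∑ q ∈ all Y' V,
      if P p then (if InR W q then tm g V p q else 0) else 0 :=
  sum_nonneg fun p _ => by
    rw [sum_ite_irrel, sum_const_zero]
    split_ifs
    · exact H.sum_ab hg _ p
    · rfl

open Classical in
theorem Hyp.rest_le (H : Hyp V Y Y' J) (hg : Sgn g) (p : Pr m) :
    ∑ q ∈ all Y' V, (if Nn (md Y Y' V) p q then tm g V p q else 0) ≤
      ∑ T ∈ (md Y Y' V).powerset, if Ad (ty (md Y Y' V) p.2 T) ∧ Rows g (le Y V) (vec V p) then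
        2 ^ NE m * (2 ^ (le Y V).card / 2 ^ V.card) else 0 := by
  obtain ⟨c, hc⟩ : ∃ c : ℝ, c = 2 ^ (le Y V).card / 2 ^ V.card := ⟨_, rfl⟩
  have c0 : 0 ≤ c := by rw [hc]; positivity
  have h1 : ∀ y : Finset (Ed m), ∑ U ∈ (le Y' V).powerset,
      (if Nn (md Y Y' V) p (y, U) then tm g V p (y, U) else 0) ≤
      ∑ T ∈ (md Y Y' V).powerset,
        if Ad (ty (md Y Y' V) p.2 T) ∧ Rows g (le Y V) (vec V p) then c else 0 := fun y => by
    rw [H.split, sum_powerset_union (disj V Y Y')]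
    refine sum_le_sum fun T hT => ?_
    have h3 : ∀ W ∈ (le Y V).powerset,
        (if Nn (md Y Y' V) p (y, W ∪ T) then tm g V p (y, W ∪ T) else 0) =
        if Nn (md Y Y' V) p (y, T) then (chi g (vec V p) W : ℝ) / 2 ^ V.card *
          chi g (vec V p) (vec V (y, T)) else 0 := fun W hW => by
      refine if_congr (Nn_congr fun a ha => ?_) ?_ rfl
      · simp [disjoint_right.1 ((disj V Y Y').mono_left (mem_powerset.1 hW)) ha]
      · rw [tm, show vec V (y, W ∪ T) = symmDiff W (vec V (y, T)) from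
          union_symmDiff (mem_powerset.1 hW) (mem_powerset.1 hT) _,
          chi_symmDiff_right hg _ W, Int.cast_mul, mul_div_right_comm]
    rw [sum_congr rfl h3, sum_ite_irrel, sum_const_zero, ← sum_mul, ← sum_div, sum_chi hg]
    by_cases k : Nn (md Y Y' V) p (y, T)
    · rw [if_pos k]
      by_cases r : Rows g (le Y V) (vec V p)
      · have k1 := H.ad k
        dsimp only at k1
        rw [if_pos r, if_pos (And.intro k1 r), ← hc]
        exact mul_le_of_le_one_right c0 (abs_chi hg _ _)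
      · rw [if_neg r, zero_div, zero_mul, if_neg fun k => r k.2]
    · rw [if_neg k]
      split_ifs <;> first | exact c0 | rfl
  rw [all, sum_product, ← hc]
  refine (sum_le_sum fun y _ => h1 y).trans (le_of_eq ?_)
  rw [sum_const, nsmul_eq_mul, card_univ, Fintype.card_finset, mul_sum]
  exact sum_congr rfl fun i _ => by rw [mul_ite, mul_zero]; push_cast; rfl

open Classical in
theorem Hyp.sum_N (H : Hyp V Y Y' J) (hg : Sgn g) :
    ∑ p ∈ all Y' V, ∑ T ∈ (md Y Y' V).powerset,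
      (if Ad (ty (md Y Y' V) p.2 T) ∧ Rows g (le Y V) (vec V p) then
        2 ^ NE m * (2 ^ (le Y V).card / 2 ^ V.card) else 0 : ℝ) ≤
      32 ^ NE m * (Ker g (le Y V)).card / 2 ^ J := by
  obtain ⟨c, hc⟩ : ∃ c : ℝ, c = 2 ^ NE m * (2 ^ (le Y V).card / 2 ^ V.card) := ⟨_, rfl⟩
  have c0 : 0 ≤ c := by rw [hc]; positivity
  rw [← hc, all, sum_product]
  have h1 : ∀ y : Finset (Ed m), ∑ U ∈ (le Y' V).powerset, ∑ T ∈ (md Y Y' V).powerset,
      (if Ad (ty (md Y Y' V) U T) ∧ Rows g (le Y V) (vec V (y, U)) then c else 0) ≤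
      ((((md Y Y' V).powerset ×ˢ (md Y Y' V).powerset).filter
        fun x => Ad (ty (md Y Y' V) x.1 x.2)).card : ℝ) * ((Ker g (le Y V)).card * c) :=
    fun y => by
    rw [H.split, sum_powerset_union (disj V Y Y'), ← nsmul_eq_mul, ← sum_const, sum_filter,
      sum_product]
    refine sum_le_sum fun T hT => ?_
    rw [sum_comm]
    refine sum_le_sum fun T' _ => ?_
    have e : ∀ W ∈ (le Y V).powerset, ty (md Y Y' V) (W ∪ T) T' = ty (md Y Y' V) T T' :=
      fun W hW => funext fun h => image_congr fun s hs => by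
        simp [lab, disjoint_right.1 ((disj V Y Y').mono_left (mem_powerset.1 hW))
          (mem_filter.1 (mem_coe.1 hs)).1]
    rw [sum_congr rfl fun W hW => by rw [e W hW], ← sum_filter, sum_const, nsmul_eq_mul]
    split_ifs with k
    · refine mul_le_mul_of_nonneg_right (Nat.cast_le.2 ?_) c0
      rw [Ker_eq]
      refine (card_le_card fun W hW => ?_).trans (coset hg _ _ (symmDiff T (ones V y)))
      rw [mem_filter] at hW ⊢
      exact ⟨hW.1, union_symmDiff (mem_powerset.1 hW.1) (mem_powerset.1 hT) _ ▸ hW.2.2⟩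
    · rw [filter_false_of_mem fun W _ h => k h.1, card_empty, Nat.cast_zero, zero_mul]
  refine (sum_le_sum fun y _ => h1 y).trans ?_
  have h4 : ((((md Y Y' V).powerset ×ˢ (md Y Y' V).powerset).filter
      fun x => Ad (ty (md Y Y' V) x.1 x.2)).card : ℝ) * 2 ^ J ≤
      16 ^ NE m * 2 ^ (md Y Y' V).card := by exact_mod_cast H.card_ad
  rw [sum_const, nsmul_eq_mul, card_univ, Fintype.card_finset, le_div_iff₀ (pow_pos two_pos _),
    show (32 : ℝ) = 2 * 16 by norm_num, mul_pow]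
  have h7 := mul_le_mul_of_nonneg_right h4
    (show (0 : ℝ) ≤ 2 ^ NE m * (Ker g (le Y V)).card / 2 ^ (md Y Y' V).card by positivity)
  refine le_of_eq_of_le ?_ (h7.trans_eq ?_)
  · rw [hc, H.card_V, show Fintype.card (Ed m) = NE m from rfl]
    simp only [pow_add]
    push_cast
    field_simp
  · field_simp

end

theorem logic {a b c d e a' b' : Prop} [Decidable a] [Decidable b] [Decidable c] [Decidable d]
    [Decidable e] [Decidable a'] [Decidable b'] (he : e ↔ ¬d ∧ ¬(a ∨ b ∨ c))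
    (a1 : a → (c ↔ b')) (a2 : b → (c ↔ a')) (a3 : a → ¬a') (a4 : a ∨ b ∨ c → ¬d) (t : ℝ) :
    t + (if a then (if b then t else 0) else 0) + (if a' then (if b then t else 0) else 0) +
      (if b' then (if a then t else 0) else 0) = (if d then t else 0) + (if a then t else 0) +
      (if b then t else 0) + (if c then t else 0) + (if e then t else 0) := by
  by_cases ka : a
  · have kd := a4 (.inl ka)
    by_cases kb : b
    · have kc : ¬c := fun k => a3 ka ((a2 kb).1 k)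
      simp [he, ka, kb, kc, kd, a3 ka, ← a1 ka]
    · simp [he, ka, kb, kd, ← a1 ka]
  · by_cases kb : b
    · simp [he, ka, kb, a4 (.inr (.inl kb)), ← a2 kb]
    · by_cases kc : c
      · simp [he, ka, kb, kc, a4 (.inr (.inr kc))]
      · by_cases kd : d <;> simp [he, ka, kb, kc, kd]

end Cnt

open JU.Cnt in
theorem cnt (hc : COMBStmt) : CNTStmt := by
  classical
  intro m g hm hg V Y Y' J h1 h2 h3 h4 h5
  have H : Hyp V Y Y' J := ⟨hc, hm, h1, h2, h3, h4, h5⟩
  have hN := (sum_le_sum fun p (_ : p ∈ all Y' V) => H.rest_le hg p).trans (H.sum_N hg)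
  have t1 := H.sum_two hg (md Y Y' V) (InR (md Y Y' V))
  have t2 := H.sum_two hg (md Y Y' V) fun p => InR (md Y Y' V) (sh p)
  have t3 := t2
  rw [sum_comm, sum_congr rfl fun p _ => sum_congr rfl fun q _ => by rw [tm_comm hg q p]] at t3
  have tot := sum_congr (s₁ := all Y' V) rfl fun p _ =>
    sum_congr (s₁ := all Y' V) rfl fun q _ => logic (e := Nn (md Y Y' V) p q)
      (a' := InR (md Y Y' V) (sh p)) (b' := InR (md Y Y' V) (sh q)) Iff.rfl
      (fun a => add_sh p q ▸ H.add_iff a)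
      (fun b => add_comm' q p ▸ add_sh q p ▸ H.add_iff b) H.not_sh H.not_os (tm g V p q)
  simp only [sum_add_distrib] at tot
  rw [← H.total hg, ← osc_eq, H.sum_a hg, H.sum_b hg] at tot
  have hc := H.sum_c hg
  linarith

end Pool.Agent.MP_a43263_nt.JU

end
end MrgPart0

-- ======== part 1: formerly Pool.Agent.MP_a43263_nt.JU.Osc
section MrgPart1

/-! PROJECT JU: the oscillating part is small on average. -/

set_option autoImplicit false

noncomputable section

namespace Pool.Agent.MP_a43263_nt.JU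

open Finset Filter
open R2 (Sc Core Shape)
open RG (Rel Ev EE ev_log ev_ge le_EE)
open RG.OscP (log_iff sum_harm sum_sq card_range_le)

variable {m : ℕ}

namespace OscU

theorem mem_le {Y : ℕ} {V : Finset (Gen m)} {a : Gen m} : a ∈ le Y V ↔ a ∈ V ∧ a.2 ≤ Y :=
  mem_filter

theorem mem_md {Y Y' : ℕ} {V : Finset (Gen m)} {a : Gen m} :
    a ∈ md Y Y' V ↔ a ∈ V ∧ Y < a.2 ∧ a.2 ≤ Y' := mem_filter

theorem prod_gens (l : Ed m → ℕ) (F : Gen m → ℕ) :
    ∏ a ∈ gens l, F a = ∏ h, ∏ p ∈ (l h).primeFactors, F (tg h, p) := by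
  rw [gens, prod_biUnion]
  · exact prod_congr rfl fun h _ => prod_image fun _ _ _ _ e => (Prod.mk.inj e).2
  · intro h _ k _ hk
    simp only [Function.onFun, disjoint_left, mem_image]
    rintro _ ⟨p, -, rfl⟩ ⟨q, -, e⟩
    exact hk (Prod.mk.inj (Prod.mk.inj e).1).1.symm

theorem one_le_gens {l : Ed m → ℕ} {b : Gen m} (hb : b ∈ gens l) : 1 ≤ b.2 := by
  obtain ⟨h, -, k⟩ := mem_biUnion.1 hb
  obtain ⟨p, hp, rfl⟩ := mem_image.1 k
  exact (Nat.prime_of_mem_primeFactors hp).pos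

/-! ### splitting one term according to the frozen data -/

/-- frozen data -/
abbrev Key (m : ℕ) : Type := Σ _ : Finset (Gen m), Finset (Gen m) × Finset (Gen m) × ℕ

def keys (Os : Finset (Finset (Gen m))) (I : ℕ) : Finset (Key m) :=
  Os.sigma fun O => O.powerset ×ˢ O.powerset ×ˢ range I

/-- the weight attached to frozen data -/
def wgt (S : Sc) (g : TL m) (k : Key m) : ℝ :=
  1 / (1 + ((k.1.filter fun b => S.Y < b.2 ∧ tl k.2.1 k.2.2.1 b = g).card : ℝ))

theorem abs_wgt_le (S : Sc) (g : TL m) (k : Key m) : |wgt S g k| ≤ 1 := by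
  unfold wgt
  rw [abs_of_nonneg (by positivity), div_le_one (by positivity)]
  exact le_add_of_nonneg_right (Nat.cast_nonneg _)

theorem le_outer {S : Sc} (hY : S.Y ≤ S.Y') (V U U' : Finset (Gen m)) (f g : TL m) (s : Gen m) :
    le S.Y (outer S V U U' f g s) = le S.Y V := by
  ext b
  simp only [outer, mem_le, mem_filter]
  constructor
  · rintro ⟨⟨⟨h1, -⟩, -⟩, h2⟩
    exact ⟨h1, h2⟩
  · rintro ⟨h1, h2⟩
    exact ⟨⟨⟨h1, h2.trans hY⟩, .inl h2⟩, h2⟩

theorem tl_inter {O U U' : Finset (Gen m)} {b : Gen m} (hb : b ∈ O) :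
    tl (O ∩ U) (O ∩ U') b = tl U U' b := by
  simp [tl, hb]

theorem card_type {S : Sc} {V U U' : Finset (Gen m)} {f g : TL m} (hfg : f.1 ≠ g.1) {s : Gen m}
    (hs : s ∈ md S.Y S.Y' V) (hg : tl U U' s = g) :
    1 + ((outer S V U U' f g s).filter fun b => S.Y < b.2 ∧
        tl (outer S V U U' f g s ∩ U) (outer S V U U' f g s ∩ U') b = g).card =
      ((md S.Y S.Y' V).filter fun b => tl U U' b = g).card := by
  have h1 : s ∈ (md S.Y S.Y' V).filter fun b => tl U U' b = g := mem_filter.2 ⟨hs, hg⟩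
  rw [← card_erase_add_one h1, add_comm]
  congr 2
  ext b
  rw [mem_erase, mem_filter, mem_filter, mem_md]
  constructor
  · rintro ⟨h2, h3, h4⟩
    rw [tl_inter h2] at h4
    obtain ⟨h5, h6⟩ := mem_filter.1 h2
    refine ⟨?_, ⟨(mem_le.1 h5).1, h3, (mem_le.1 h5).2⟩, h4⟩
    rintro rfl
    rcases h6 with h6 | h6 | h6 | h6
    · omega
    · exact hfg (h6.1.symm.trans (congrArg Prod.fst h4))
    · exact h6.2 rfl
    · exact h6.1 (congrArg Prod.fst h4)
  · rintro ⟨h2, ⟨h3, h4, h5⟩, h6⟩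
    have h7 : b ∈ outer S V U U' f g s :=
      mem_filter.2 ⟨mem_le.2 ⟨h3, h5⟩, .inr (.inr (.inl ⟨congrArg Prod.fst h6, h2⟩))⟩
    exact ⟨h7, h4, (tl_inter h7).trans h6⟩

open Classical in
theorem single {S : Sc} (V U U' : Finset (Gen m)) {f g : TL m} (hfg : f.1 ≠ g.1)
    (q : Prop) (t : ℝ) (Os : Finset (Finset (Gen m))) (I : ℕ)
    (hg : q → g ∈ pat (md S.Y S.Y' V) U U')
    (hn : q → 1 < nOf S V U U' f ∧ nOf S V U U' f ≤ 2 ^ I)
    (hO : ∀ s, outer S V U U' f g s ∈ Os) :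
    (if q then t else 0) =
      ∑ k ∈ keys Os I, wgt S g k * ∑ s ∈ md S.Y S.Y' V,
        if q ∧ tl U U' s = g ∧ outer S V U U' f g s = k.1 ∧ k.1 ∩ U = k.2.1 ∧
          k.1 ∩ U' = k.2.2.1 ∧ 2 ^ k.2.2.2 < nOf S V U U' f ∧ nOf S V U U' f ≤ 2 ^ (k.2.2.2 + 1)
        then t else 0 := by
  by_cases hq : q
  swap
  · simp [hq]
  obtain ⟨h1, h2⟩ := hn hq
  set N := ((md S.Y S.Y' V).filter fun b => tl U U' b = g).card with hN
  have hN0 : 0 < N := by
    obtain ⟨s, hs, e⟩ := mem_image.1 (hg hq)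
    exact card_pos.2 ⟨s, mem_filter.2 ⟨hs, e⟩⟩
  have hN' : (N : ℝ) ≠ 0 := by positivity
  simp only [mul_sum]
  rw [sum_comm, sum_congr rfl (g := fun s => if tl U U' s = g then t / N else 0)]
  · rw [← sum_filter, sum_const, nsmul_eq_mul, ← hN, if_pos hq]
    field_simp
  intro s hs
  by_cases hsg : tl U U' s = g
  swap
  · simp [hsg]
  rw [if_pos hsg, sum_eq_single (⟨outer S V U U' f g s, outer S V U U' f g s ∩ U,
    outer S V U U' f g s ∩ U', Nat.log 2 (nOf S V U U' f - 1)⟩ : Key m)]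
  · rw [if_pos ⟨hq, hsg, rfl, rfl, rfl, (log_iff h1).2 rfl⟩, wgt]
    have := congrArg (Nat.cast : ℕ → ℝ) (card_type hfg hs hsg)
    push_cast at this
    rw [this, ← hN]
    ring
  · rintro ⟨O, O₁, O₂, i⟩ - hne
    dsimp only
    rw [if_neg, mul_zero]
    rintro ⟨-, -, rfl, rfl, rfl, h3⟩
    obtain rfl := (log_iff h1).1 h3
    exact hne rfl
  · intro h
    refine absurd ?_ h
    simp only [keys, mem_sigma, mem_product, mem_powerset, mem_range]
    exact ⟨hO s, inter_subset_left, inter_subset_left,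
      Nat.log_lt_of_lt_pow (by omega) (by omega)⟩

/-! ### the sets of frozen generators that occur -/

def Os (m : ℕ) (S : Sc) : Finset (Finset (Gen m)) :=
  (univ ×ˢ Icc 1 S.Y').powerset.filter fun O =>
    ∏ b ∈ le S.Y O, b.2 ≤ S.Y0 ^ (9 * NE m) ∧
      (O.filter fun b => S.Y < b.2).card ≤ 18 * NE m * S.J

def Os2 (D : Dat m) (S : Sc) : Finset (Finset (Gen m)) := (Os m S).image fun O => D.W0 ∪ O

section
variable {S : Sc} {D : Dat m} {x : Fin m → ℤ}

theorem shape (hx : x ∈ AA S D) (h : Ed m) : Shape S (D.l x h) := by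
  classical
  exact (mem_filter.1 hx).2.2.2.1 h

theorem fix_le (hM : D.Ok) {a : Gen m} (ha : a ∈ D.W0) : a.2 ≤ D.M := by
  rcases (hM.fix a ha).2 with h | h
  · have := hM.pos
    omega
  · exact Nat.le_of_dvd hM.pos h.2

theorem md_VV (hM : D.Ok) {Y Y' : ℕ} (h : D.M ≤ Y) :
    md Y Y' (D.VV x) = md Y Y' (gens (D.l x)) := by
  rw [md, Dat.VV, filter_union, filter_false_of_mem, empty_union, md]
  intro a ha
  have := fix_le hM ha
  omega

theorem card_md (hx : x ∈ AA S D) : (md S.Y S.Y' (gens (D.l x))).card ≤ 18 * NE m * S.J := by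
  rw [md, gens, filter_biUnion]
  refine card_biUnion_le.trans ((sum_le_card_nsmul _ _ (6 * S.J) fun h _ => ?_).trans ?_)
  · obtain ⟨c, P, hc, hP, hl, e⟩ := shape hx h
    rw [filter_image]
    refine card_image_le.trans ((card_le_card fun p hp => ?_).trans hc.hi)
    rw [mem_filter, e, hc.primeFactors_mul hP, mem_insert] at hp
    obtain ⟨h1, h2, h3⟩ := hp
    exact mem_filter.2 ⟨h1.resolve_left (by simp only at h3; omega), h2⟩
  · rw [card_univ, smul_eq_mul, NE]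
    nlinarith [Nat.zero_le (Fintype.card (Ed m) * S.J)]

theorem prod_small (hR : Rel m S) (h0 : 0 < S.Y0) (hx : x ∈ AA S D) :
    ∏ b ∈ le S.Y (gens (D.l x)), b.2 ≤ S.Y0 ^ (9 * NE m) := by
  rw [le, prod_filter, prod_gens]
  refine (prod_le_pow_card _ _ (S.Y0 ^ 3) fun h _ => ?_).trans (by
    rw [card_univ, ← pow_mul, NE]
    exact Nat.pow_le_pow_right h0 (by omega))
  obtain ⟨c, P, hc, hP, hl, e⟩ := shape hx h
  rw [e, ← prod_filter (fun p => p ≤ S.Y) fun p => p]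
  refine (prod_le_prod_of_subset_of_one_le' (fun p hp => ?_) fun p hp _ => ?_).trans hc.sm
  · rw [mem_filter, hc.primeFactors_mul hP, mem_insert] at hp
    have := hR.Y_le
    have h4 := hp.1.resolve_left (by omega)
    have := hc.gap _ h4
    exact mem_filter.2 ⟨h4, by omega⟩
  · exact (Nat.prime_of_mem_primeFactors (mem_filter.1 hp).1).pos

theorem outer_mem (hR : Rel m S) (hM : D.Ok) (hY : D.M ≤ S.Y0) (hx : x ∈ AA S D)
    (U U' : Finset (Gen m)) (f g : TL m) (s : Gen m) :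
    outer S (D.VV x) U U' f g s ∈ Os2 D S := by
  refine mem_image.2 ⟨outer S (gens (D.l x)) U U' f g s,
    mem_filter.2 ⟨mem_powerset.2 fun b hb => ?_, ?_, ?_⟩, ?_⟩
  · have := mem_le.1 (mem_filter.1 hb).1
    exact mem_product.2 ⟨mem_univ _, mem_Icc.2 ⟨one_le_gens this.1, this.2⟩⟩
  · rw [le_outer hR.Y_le]
    exact prod_small hR (hM.pos.trans_le hY) hx
  · refine (card_le_card fun b hb => ?_).trans (card_md hx)
    have := mem_le.1 (mem_filter.1 (mem_filter.1 hb).1).1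
    exact mem_md.2 ⟨this.1, (mem_filter.1 hb).2, this.2⟩
  · ext b
    simp only [outer, Dat.VV, mem_union, mem_filter, mem_le]
    constructor
    · rintro (h | ⟨⟨h1, h2⟩, h3⟩)
      · have := ((fix_le hM h).trans hY).trans hR.Y0_le
        exact ⟨⟨.inl h, this.trans hR.Y_le⟩, .inl this⟩
      · exact ⟨⟨.inr h1, h2⟩, h3⟩
    · rintro ⟨⟨h1 | h1, h2⟩, h3⟩
      · exact .inl h1
      · exact .inr ⟨⟨h1, h2⟩, h3⟩

theorem nOf_bound (hR : Rel m S) (hM : D.Ok) (hY : D.M ≤ S.Y) (hx : x ∈ AA S D)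
    {U U' : Finset (Gen m)} {f : TL m} (hf : f ∈ pat (md S.Y S.Y' (D.VV x)) U U') :
    1 < nOf S (D.VV x) U U' f ∧
      nOf S (D.VV x) U U' f ≤ 2 ^ (Nat.log 2 (S.Y' ^ (18 * NE m * S.J)) + 1) := by
  have hp := hM.pos
  constructor
  · obtain ⟨s, hs, e⟩ := mem_image.1 hf
    have h1 := (mem_md.1 hs).2.1
    refine lt_of_lt_of_le (by omega : 1 < s.2) (single_le_prod' (f := fun b : Gen m => b.2)
      (fun b hb => ?_) (mem_filter.2 ⟨hs, e⟩))
    have := (mem_md.1 (mem_filter.1 hb).1).2.1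
    omega
  · have := hR.Y_le
    refine (prod_le_pow_card _ _ S.Y' fun b hb => (mem_md.1 (mem_filter.1 hb).1).2.2).trans
      ((Nat.pow_le_pow_right (by omega) ((card_filter_le _ _).trans ?_)).trans
        (Nat.lt_pow_succ_log_self (by norm_num) _).le)
    rw [md_VV hM hY]
    exact card_md hx

end

/-! ### summing over the frozen data -/

theorem sum_Os (m : ℕ) (S : Sc) :
    ∑ O ∈ Os m S, (4 : ℝ) ^ O.card / ∏ b ∈ O.filter (fun b => S.Y < b.2), (b.2 : ℝ) ≤
      Real.exp (36 * NE m) *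
        ((S.Y0 ^ (9 * NE m) : ℝ) ^ 2 * (1 + Real.log S.Y') ^ (18 * NE m * S.J)) := by
  set L := 1 + Real.log S.Y' with hL
  have hL1 : 1 ≤ L := le_add_of_nonneg_right (Real.log_natCast_nonneg _)
  set u : Gen m → ℝ := fun b => 4 * (1 / (b.2 : ℝ) ^ 2) + 4 / L * (1 / b.2) with hu
  have hu0 : ∀ b, 0 ≤ u b := fun b => by positivity
  have h1 : ∑ O ∈ (univ ×ˢ Icc 1 S.Y' : Finset (Gen m)).powerset, ∏ b ∈ O, u b ≤
      Real.exp (36 * NE m) := by
    rw [← prod_one_add]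
    refine (Real.prod_one_add_le_exp_sum _ hu0).trans (Real.exp_le_exp.2 ?_)
    simp only [sum_product, hu, sum_const, sum_add_distrib, ← mul_sum, card_univ, nsmul_eq_mul]
    have h2 := sum_sq S.Y'
    have h3 : 4 / L * ∑ m ∈ Icc 1 S.Y', (1 : ℝ) / m ≤ 4 := by
      rw [div_mul_eq_mul_div, div_le_iff₀ (by positivity)]
      linarith [sum_harm S.Y']
    have h4 : (Fintype.card (Tag m) : ℝ) = 3 * NE m := by
      rw [Fintype.card_prod, NE, Fintype.card_option, Fintype.card_bool]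
      push_cast
      ring
    have h5 : (0 : ℝ) ≤ NE m := Nat.cast_nonneg _
    rw [h4, mul_left_comm (4 / L)]
    nlinarith
  refine le_trans ?_ (mul_le_mul_of_nonneg_right h1 (by positivity))
  rw [sum_mul]
  refine (sum_le_sum fun O hO => ?_).trans
    (sum_le_sum_of_subset_of_nonneg (filter_subset _ _) fun O _ _ =>
      mul_nonneg (prod_nonneg fun b _ => hu0 b) (by positivity))
  obtain ⟨h2, h3, h4⟩ := mem_filter.1 hO
  have h5 : ∀ b ∈ O, (0 : ℝ) < b.2 := fun b hb =>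
    Nat.cast_pos.2 (mem_Icc.1 (mem_product.1 (mem_powerset.1 h2 hb)).2).1
  have h6 : (4 : ℝ) ^ (le S.Y O).card ≤ (∏ b ∈ le S.Y O, u b) * (S.Y0 ^ (9 * NE m) : ℝ) ^ 2 := by
    calc (4 : ℝ) ^ (le S.Y O).card = ∏ b ∈ le S.Y O, (4 * (1 / (b.2 : ℝ) ^ 2)) * (b.2 : ℝ) ^ 2 := by
          rw [← prod_const]
          refine prod_congr rfl fun b hb => ?_
          have := h5 b (mem_le.1 hb).1
          field_simp
      _ ≤ _ := by
          rw [prod_mul_distrib, prod_pow]
          refine mul_le_mul (prod_le_prod (fun b _ => by positivity)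
            fun b _ => le_add_of_nonneg_right (by positivity)) ?_ (by positivity)
            (prod_nonneg fun b _ => hu0 b)
          gcongr
          exact_mod_cast h3
  have h7 : (4 : ℝ) ^ (O.filter fun b => S.Y < b.2).card /
      ∏ b ∈ O.filter (fun b => S.Y < b.2), (b.2 : ℝ) ≤
        (∏ b ∈ O.filter (fun b => S.Y < b.2), u b) * L ^ (18 * NE m * S.J) := by
    calc _ = ∏ b ∈ O.filter (fun b => S.Y < b.2), (4 / L * (1 / (b.2 : ℝ))) * L := by
          rw [← prod_const, ← prod_div_distrib]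
          refine prod_congr rfl fun b hb => ?_
          field_simp
      _ ≤ _ := by
          rw [prod_mul_distrib, prod_const]
          exact mul_le_mul (prod_le_prod (fun b _ => by positivity)
            fun b _ => le_add_of_nonneg_left (by positivity)) (pow_le_pow_right₀ hL1 h4)
            (by positivity) (prod_nonneg fun b _ => hu0 b)
  have h8 : O.filter (fun b => ¬b.2 ≤ S.Y) = O.filter fun b => S.Y < b.2 := by simp only [not_le]
  rw [← card_filter_add_card_filter_not (s := O) (fun b => b.2 ≤ S.Y),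
    ← prod_filter_mul_prod_filter_not O (fun b => b.2 ≤ S.Y) u, h8, pow_add, mul_div_assoc,
    mul_mul_mul_comm]
  exact mul_le_mul h6 h7 (by positivity)
    (mul_nonneg (prod_nonneg fun b _ => hu0 b) (by positivity))

theorem sum_Os2 {S : Sc} {D : Dat m} (hM : D.Ok) (hY : D.M ≤ S.Y) :
    ∑ O ∈ Os2 D S, (4 : ℝ) ^ O.card / ∏ b ∈ O.filter (fun b => S.Y < b.2), (b.2 : ℝ) ≤
      4 ^ D.W0.card * (Real.exp (36 * NE m) *
        ((S.Y0 ^ (9 * NE m) : ℝ) ^ 2 * (1 + Real.log S.Y') ^ (18 * NE m * S.J))) := by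
  refine (sum_image_le_of_nonneg fun O _ => by positivity).trans
    (le_trans ?_ (mul_le_mul_of_nonneg_left (sum_Os m S) (by positivity)))
  rw [mul_sum]
  refine sum_le_sum fun O _ => ?_
  have e : (D.W0 ∪ O).filter (fun b => S.Y < b.2) = O.filter (fun b => S.Y < b.2) := by
    rw [filter_union, filter_false_of_mem, empty_union]
    intro a ha
    have := fix_le hM ha
    omega
  rw [e, ← mul_div_assoc, ← pow_add]
  gcongr
  · norm_num
  · exact card_union_le _ _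

/-- the bound for one pair of types -/
def Bd (D : Dat m) (S : Sc) : ℝ :=
  4 ^ D.W0.card * Real.exp (36 * NE m) * (36 * NE m * S.J + 1) *
    (1 + Real.log S.Y') ^ (18 * NE m * S.J + 1) * (S.Z : ℝ) ^ m * (S.Y0 : ℝ) ^ (18 * NE m) /
    (S.Y0 : ℝ) ^ (30 * m ^ 2)

theorem Bd_nonneg (D : Dat m) (S : Sc) : 0 ≤ Bd D S := by
  have h0 := Real.log_natCast_nonneg S.Y'
  unfold Bd
  positivity

open Classical in
theorem pair_le {S : Sc} {D : Dat m} (hR : Rel m S) (hM : D.Ok) (hY : D.M ≤ S.Y0) (t : ℕ)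
    (y y' : Finset (Ed m)) {f g : TL m} (hfg : f.1 ≠ g.1) (ok : Finset (TL m) → Prop)
    (hok : ∀ π, ok π → f ∈ π ∧ g ∈ π)
    (hk : ∀ O O₁ O₂ i, |keySum S D t y y' f g ok O O₁ O₂ i| ≤ (S.Z : ℝ) ^ m /
      ((S.Y0 : ℝ) ^ (30 * m ^ 2) * ∏ b ∈ O.filter (fun b => S.Y < b.2), (b.2 : ℝ))) :
    |∑ x ∈ AA S D, ∑ U ∈ (le S.Y' (D.VV x)).powerset, ∑ U' ∈ (le S.Y' (D.VV x)).powerset,
      if ok (pat (md S.Y S.Y' (D.VV x)) U U') then
        (sgn D x : ℝ) ^ t * term (D.g x) (D.VV x) y y' U U' else 0| ≤ Bd D S := by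
  have hY' := hY.trans hR.Y0_le
  have h0 := Real.log_natCast_nonneg S.Y'
  have hY0 : (0 : ℝ) < S.Y0 := Nat.cast_pos.2 (hM.pos.trans_le hY)
  set I := Nat.log 2 (S.Y' ^ (18 * NE m * S.J)) + 1 with hI
  calc _ = |∑ k ∈ keys (Os2 D S) I,
          wgt S g k * keySum S D t y y' f g ok k.1 k.2.1 k.2.2.1 k.2.2.2| := by
        refine congrArg abs ?_
        simp only [keySum]
        simp only [mul_sum (s := AA S D), mul_sum (s := Finset.powerset _)]
        rw [sum_comm (s := keys _ _)]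
        refine sum_congr rfl fun x hx => ?_
        rw [sum_comm (s := keys _ _)]
        refine sum_congr rfl fun U _ => ?_
        rw [sum_comm (s := keys _ _)]
        refine sum_congr rfl fun U' _ => ?_
        refine (single _ U U' hfg _ _ (Os2 D S) I (fun h => (hok _ h).2)
          (fun h => nOf_bound hR hM hY' hx (hok _ h).1) (outer_mem hR hM hY hx U U' f g)).trans ?_
        exact sum_congr rfl fun k _ => congrArg _ (sum_congr rfl fun s _ => if_congr Iff.rfl rfl rfl)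
    _ ≤ ∑ k ∈ keys (Os2 D S) I, (S.Z : ℝ) ^ m /
          ((S.Y0 : ℝ) ^ (30 * m ^ 2) * ∏ b ∈ k.1.filter (fun b => S.Y < b.2), (b.2 : ℝ)) := by
        refine (abs_sum_le_sum_abs _ _).trans (sum_le_sum fun k _ => ?_)
        rw [abs_mul]
        exact (mul_le_of_le_one_left (abs_nonneg _) (abs_wgt_le _ _ _)).trans (hk _ _ _ _)
    _ = (S.Z : ℝ) ^ m / (S.Y0 : ℝ) ^ (30 * m ^ 2) * I * ∑ O ∈ Os2 D S,
          (4 : ℝ) ^ O.card / ∏ b ∈ O.filter (fun b => S.Y < b.2), (b.2 : ℝ) := by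
        rw [keys, sum_sigma, mul_sum]
        refine sum_congr rfl fun O _ => ?_
        simp only [sum_const, card_product, card_powerset, card_range, nsmul_eq_mul]
        rw [show (4 : ℝ) = 2 * 2 by norm_num, mul_pow]
        push_cast
        ring
    _ ≤ (S.Z : ℝ) ^ m / (S.Y0 : ℝ) ^ (30 * m ^ 2) *
          ((36 * NE m * S.J + 1) * (1 + Real.log S.Y')) * (4 ^ D.W0.card * (Real.exp (36 * NE m) *
            ((S.Y0 ^ (9 * NE m) : ℝ) ^ 2 * (1 + Real.log S.Y') ^ (18 * NE m * S.J)))) :=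
        mul_le_mul (mul_le_mul_of_nonneg_left (card_range_le (NE m) S) (by positivity))
          (sum_Os2 hM hY') (sum_nonneg fun _ _ => by positivity) (by positivity)
    _ = Bd D S := by
        unfold Bd
        ring

open Classical in
theorem ys_le {S : Sc} {D : Dat m} (hR : Rel m S) (hM : D.Ok) (hY : D.M ≤ S.Y0) (t : ℕ)
    (y y' : Finset (Ed m))
    (hk : ∀ (f g : TL m) (ok : Finset (TL m) → Prop) (O O₁ O₂ : Finset (Gen m)) (i : ℕ),
      lk f.1.1 g.1.1 → Odd (expo y y' f g) → |keySum S D t y y' f g ok O O₁ O₂ i| ≤ (S.Z : ℝ) ^ m /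
        ((S.Y0 : ℝ) ^ (30 * m ^ 2) * ∏ b ∈ O.filter (fun b => S.Y < b.2), (b.2 : ℝ))) :
    |∑ x ∈ AA S D, ∑ U ∈ (le S.Y' (D.VV x)).powerset, ∑ U' ∈ (le S.Y' (D.VV x)).powerset,
      if Osc y y' (pat (md S.Y S.Y' (D.VV x)) U U') then
        (sgn D x : ℝ) ^ t * term (D.g x) (D.VV x) y y' U U' else 0| ≤
      Fintype.card (TL m × TL m) * Bd D S := by
  have h3 := hM.three
  have hex : ∀ π : Finset (TL m), ∃ p : TL m × TL m, Osc y y' π →
      (p.1 ∈ π ∧ p.2 ∈ π) ∧ lk p.1.1.1 p.2.1.1 ∧ Odd (expo y y' p.1 p.2) := by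
    intro π
    by_cases h : Osc y y' π
    · obtain ⟨f, hf, g, hg, k⟩ := h
      exact ⟨(f, g), fun _ => ⟨⟨hf, hg⟩, k⟩⟩
    · have e : TL m := ((⟨(⟨0, by omega⟩, ⟨1, by omega⟩), Fin.mk_lt_mk.2 one_pos⟩, none), true, true)
      exact ⟨(e, e), fun k => absurd k h⟩
  choose ch hch using hex
  calc _ = |∑ p : TL m × TL m, ∑ x ∈ AA S D, ∑ U ∈ (le S.Y' (D.VV x)).powerset,
        ∑ U' ∈ (le S.Y' (D.VV x)).powerset,
          if Osc y y' (pat (md S.Y S.Y' (D.VV x)) U U') ∧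
            ch (pat (md S.Y S.Y' (D.VV x)) U U') = p then
            (sgn D x : ℝ) ^ t * term (D.g x) (D.VV x) y y' U U' else 0| := by
        refine congrArg abs ?_
        rw [sum_comm (s := univ)]
        refine sum_congr rfl fun x _ => ?_
        rw [sum_comm (s := univ)]
        refine sum_congr rfl fun U _ => ?_
        rw [sum_comm (s := univ)]
        refine sum_congr rfl fun U' _ => ?_
        split_ifs with h2
        · simp [h2]
        · simp [h2]
    _ ≤ ∑ _p : TL m × TL m, Bd D S := by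
        refine (abs_sum_le_sum_abs _ _).trans (sum_le_sum fun p _ => ?_)
        by_cases hp : lk p.1.1.1 p.2.1.1 ∧ Odd (expo y y' p.1 p.2)
        · refine le_trans (le_of_eq (congrArg abs ?_)) (pair_le hR hM hY t y y'
            (fun e => hp.1.1 (congrArg Prod.fst e)) (fun π => Osc y y' π ∧ ch π = p)
            (fun π h => h.2 ▸ (hch π h.1).1) fun O O₁ O₂ i => hk _ _ _ O O₁ O₂ i hp.1 hp.2)
          refine sum_congr rfl fun x _ => sum_congr rfl fun U _ => sum_congr rfl fun U' _ => ?_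
          split_ifs <;> rfl
        · rw [sum_eq_zero fun x _ => sum_eq_zero fun U _ => sum_eq_zero fun U' _ => ?_, abs_zero]
          · exact Bd_nonneg _ S
          · rw [if_neg]
            exact fun h => hp (h.2 ▸ (hch _ h.1).2)
    _ = _ := by rw [sum_const, card_univ, nsmul_eq_mul]

end OscU

open OscU in
theorem os (comb : COMBStmt) (key : KEYStmt) : OSCStmt := by
  classical
  intro m D J ε hD hε
  have hNE := (comb m hD.three).1.2.1
  have hm := hD.three
  set c1 : ℝ := (Fintype.card (Finset (Ed m)) : ℝ) with hc1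
  set c2 : ℝ := (Fintype.card (TL m × TL m) : ℝ) with hc2
  have c1p : 0 ≤ c1 := Nat.cast_nonneg _
  have c2p : 0 ≤ c2 := Nat.cast_nonneg _
  refine (((key m D J hD).and (ev_log (c1 * c1 * c2 * 4 ^ D.W0.card * Real.exp (36 * NE m) *
    (36 * NE m * J + 1) / ε) (18 * NE m * J + 1))).and (ev_ge (max D.M 3))).mono ?_
  rintro S - rfl hR ⟨⟨hk, hl⟩, hge⟩ t
  have h3 : 3 ≤ S.Y0 := le_of_max_le_right hge
  have hL : 1 + Real.log S.Y' ≤ Real.log S.Z := by
    have h1 : (3 : ℝ) ≤ S.Y' := by exact_mod_cast h3.trans (hR.Y0_le.trans hR.Y_le)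
    have h2 : 1 ≤ Real.log S.Y' := by
      rw [Real.le_log_iff_exp_le (by linarith)]
      linarith [Real.exp_one_lt_d9]
    have h4 : (2 : ℝ) ≤ EE m := by exact_mod_cast le_trans (by omega) (le_EE m)
    nlinarith [hR.le_log_Z]
  have hY0 : (1 : ℝ) ≤ S.Y0 := by exact_mod_cast (by omega : 1 ≤ S.Y0)
  calc _ = |∑ y : Finset (Ed m), ∑ y' : Finset (Ed m), ∑ x ∈ AA S D,
        ∑ U ∈ (le S.Y' (D.VV x)).powerset, ∑ U' ∈ (le S.Y' (D.VV x)).powerset,
          if Osc y y' (pat (md S.Y S.Y' (D.VV x)) U U') then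
            (sgn D x : ℝ) ^ t * term (D.g x) (D.VV x) y y' U U' else 0| := by
        refine congrArg abs ?_
        simp only [osc, mul_sum, mul_ite, mul_zero]
        rw [sum_comm]
        exact sum_congr rfl fun y _ => sum_comm
    _ ≤ ∑ _y : Finset (Ed m), ∑ _y' : Finset (Ed m), c2 * Bd D S :=
        (abs_sum_le_sum_abs _ _).trans (sum_le_sum fun y _ => (abs_sum_le_sum_abs _ _).trans
          (sum_le_sum fun y' _ => ys_le hR hD (le_of_max_le_left hge) t y y' (hk t y y')))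
    _ = c1 * c1 * c2 * 4 ^ D.W0.card * Real.exp (36 * NE m) * (36 * NE m * S.J + 1) / ε *
          (1 + Real.log S.Y') ^ (18 * NE m * S.J + 1) * (S.Y0 : ℝ) ^ (18 * NE m) /
          (S.Y0 : ℝ) ^ (30 * m ^ 2) * (ε * (S.Z : ℝ) ^ m) := by
        simp only [sum_const, card_univ, nsmul_eq_mul, Bd, ← hc1]
        field_simp
    _ ≤ _ := by
        refine mul_le_of_le_one_left (by positivity) ((div_le_one (by positivity)).2 ?_)
        have := Real.log_natCast_nonneg S.Y'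
        calc _ ≤ (S.Y0 : ℝ) * (S.Y0 : ℝ) ^ (18 * NE m) := by
              refine mul_le_mul_of_nonneg_right (le_trans ?_ hl) (by positivity)
              gcongr
          _ ≤ _ := by
              rw [← pow_succ']
              exact pow_le_pow_right₀ hY0 (by nlinarith)

end Pool.Agent.MP_a43263_nt.JU

end
end MrgPart1

-- ======== part 2: formerly Pool.Agent.MP_a43263_nt.JU.Bes
section MrgPart2

/-! PROJECT JU: almost orthogonality of the characters of different primes. -/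

set_option autoImplicit false

namespace Pool.Agent.MP_a43263_nt.JU

open Finset
open R2 (CRTStmt)

namespace Bes

theorem sum_zmod {n : ℕ} [NeZero n] {M : Type} [AddCommMonoid M] (g : ZMod n → M) :
    ∑ r ∈ range n, g r = ∑ u, g u :=
  sum_nbij' (fun r => (r : ZMod n)) ZMod.val (fun _ _ => mem_univ _)
    (fun u _ => mem_range.2 (ZMod.val_lt u)) (fun _ hr => ZMod.val_cast_of_lt (mem_range.1 hr))
    (fun u _ => ZMod.natCast_zmod_val u) fun _ _ => rfl

theorem per_mul {n : ℕ} {χ : ℤ → ℝ} (h : ∀ x, χ (x + n) = χ x) (x k : ℤ) :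
    χ (x + k * n) = χ x := Function.Periodic.int_mul (f := χ) (c := (n : ℤ)) h k x

theorem mean0 {n : ℕ} [Fact n.Prime] {χ : ℤ → ℝ} (h : ∀ x, χ (x + n) = χ x) (z k : ℤ)
    (hk : ¬(n : ℤ) ∣ k) : ∑ r ∈ range n, χ (z + k * r) = ∑ u : ZMod n, χ u.val := by
  have h1 : ∀ x : ℤ, χ x = χ (x : ZMod n).val := fun x => by
    rw [ZMod.val_intCast, ← per_mul h (x % n) (x / n), Int.emod_add_ediv_mul]
  have h2 : (k : ZMod n) ≠ 0 := fun c => hk ((ZMod.intCast_zmod_eq_zero_iff_dvd k n).1 c)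
  rw [← Equiv.sum_comp ((Equiv.mulLeft₀ (k : ZMod n) h2).trans (Equiv.addLeft (z : ZMod n))),
    ← sum_zmod]
  refine sum_congr rfl fun r _ => ?_
  rw [h1]
  simp

theorem mean {n : ℕ} (hn : n.Prime) {χ : ℤ → ℝ} (h : ∀ x, χ (x + n) = χ x) (z k : ℤ)
    (hk : ¬(n : ℤ) ∣ k) : ∑ r ∈ range n, χ (z + k * r) = ∑ r ∈ range n, χ r := by
  have := Fact.mk hn
  rw [mean0 h z k hk, ← mean0 h 0 1 fun c =>
    hn.one_lt.ne' (by exact_mod_cast Int.eq_one_of_dvd_one (by positivity) c)]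
  simp

theorem corr {n : ℕ} (hn : n.Prime) (h2 : n ≠ 2) (a b : ℤ) (hab : ¬(n : ℤ) ∣ b - a) :
    ∑ j ∈ range n, jacobiSym (a - j) n * jacobiSym (b - j) n = -1 := by
  have := Fact.mk hn
  have hc : ringChar (ZMod n) ≠ 2 := by rw [ZMod.ringChar_zmod_n]; exact h2
  have hδ : (b : ZMod n) - a ≠ 0 := fun c =>
    hab ((ZMod.intCast_zmod_eq_zero_iff_dvd _ n).1 (by push_cast; exact c))
  have h1 := jacobiSum_nontrivial_inv (quadraticChar_ne_one hc)
  rw [(quadraticChar_isQuadratic (ZMod n)).inv, jacobiSum] at h1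
  have h3 : ∀ j : ℕ, jacobiSym (a - j) n * jacobiSym (b - j) n =
      (fun u : ZMod n => quadraticChar (ZMod n) (a - u) * quadraticChar (ZMod n) (b - u)) j :=
    fun j => by simp [← jacobiSym.legendreSym.to_jacobiSym, legendreSym]
  rw [sum_congr rfl fun j _ => h3 j, sum_zmod (n := n) fun u : ZMod n =>
      quadraticChar (ZMod n) (a - u) * quadraticChar (ZMod n) (b - u),
    ← Equiv.sum_comp ((Equiv.mulLeft₀ _ hδ).trans (Equiv.addLeft (a : ZMod n)))]
  have h4 : ∀ x : ZMod n, quadraticChar (ZMod n) (a - (a + (b - a) * x)) *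
      quadraticChar (ZMod n) (b - (a + (b - a) * x)) = quadraticChar (ZMod n) (-1) *
      (quadraticChar (ZMod n) x * quadraticChar (ZMod n) (1 - x)) := fun x => by
    rw [← one_mul (quadraticChar (ZMod n) (-1)), ← quadraticChar_sq_one' hδ]
    simp only [← map_mul]
    congr 1
    ring
  simp only [Equiv.trans_apply, Equiv.mulLeft₀_apply, Equiv.coe_addLeft, h4]
  rw [← mul_sum, h1, mul_neg, ← sq, quadraticChar_sq_one (neg_ne_zero.2 one_ne_zero)]

theorem jac_abs (a : ℤ) (n : ℕ) : |(jacobiSym a n : ℝ)| ≤ 1 := by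
  rcases jacobiSym.trichotomy a n with h | h | h <;> simp [h]

theorem mul_abs {a b : ℝ} (ha : |a| ≤ 1) (hb : |b| ≤ 1) : |a * b| ≤ 1 := by
  rw [abs_mul]; exact mul_le_one₀ ha (abs_nonneg _) hb

theorem eta_sq {n : ℕ} (hn : n.Prime) (h2 : n ≠ 2) {φ : ℤ → ℝ} (hφ : ∀ x, |φ x| ≤ 1) (z : ℤ) :
    ∑ j ∈ range n, ((∑ r ∈ range n, φ r * jacobiSym (r - (z + j)) n) / n) ^ 2 ≤ 2 := by
  have hn1 : (1 : ℝ) ≤ n := by exact_mod_cast hn.one_le
  have h1 : ∀ r ∈ range n, ∀ t ∈ range n, ∑ j ∈ range n,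
      φ r * jacobiSym (r - (z + j)) n * (φ t * jacobiSym (t - (z + j)) n) ≤
      (if r = t then (n : ℝ) + 1 else 0) - φ r * φ t := fun r hr t ht => by
    split_ifs with c
    · have h3 : ∑ j ∈ range n, φ r * jacobiSym (r - (z + j)) n *
          (φ t * jacobiSym (t - (z + j)) n) ≤ ∑ j ∈ range n, (1 : ℝ) := sum_le_sum fun j _ =>
        (le_abs_self _).trans (mul_abs (mul_abs (hφ _) (jac_abs _ _)) (mul_abs (hφ _) (jac_abs _ _)))
      have h4 := (le_abs_self _).trans (mul_abs (hφ r) (hφ t))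
      rw [sum_const, card_range, nsmul_eq_mul, mul_one] at h3
      linarith
    · have h3 := corr hn h2 (r - z) (t - z) fun d => c <| by
        rw [mem_range] at hr ht
        have := Int.eq_zero_of_abs_lt_dvd d (by rw [abs_lt]; constructor <;> omega)
        omega
      have h4 := congrArg (fun x : ℤ => φ r * φ t * (x : ℝ)) h3
      simp only [Int.cast_sum, Int.cast_mul, mul_sum, sub_sub] at h4
      refine le_of_eq ((sum_congr rfl fun j _ => by ring).trans (h4.trans (by simp)))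
  simp only [div_pow]
  rw [← sum_div, div_le_iff₀ (by positivity)]
  simp only [sq (∑ r ∈ range n, _), sum_mul_sum]
  rw [sum_comm]
  refine (sum_le_sum fun r hr => (sum_comm.le.trans (sum_le_sum (h1 r hr)))).trans ?_
  simp only [sum_sub_distrib, sum_ite_eq, ← sum_mul_sum]
  rw [sum_congr rfl fun r hr => if_pos hr, sum_const, card_range, nsmul_eq_mul]
  nlinarith [mul_self_nonneg (∑ r ∈ range n, φ r)]

theorem sum_Ico (g : ℤ → ℝ) (a : ℤ) (N : ℕ) :
    ∑ w ∈ Ico a (a + N), g w = ∑ i ∈ range N, g (a + i) := by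
  refine (sum_nbij' (fun i : ℕ => a + i) (fun w => (w - a).toNat) (fun i hi => ?_) (fun w hw => ?_)
    (fun i _ => by simp) (fun w hw => ?_) fun _ _ => rfl).symm
  · rw [mem_range] at hi; rw [mem_Ico]; omega
  · rw [mem_Ico] at hw; rw [mem_range]; omega
  · rw [mem_Ico] at hw; omega

theorem per_sum {n : ℕ} (hn : 0 < n) {g : ℤ → ℝ} (h0 : ∀ x, 0 ≤ g x)
    (h : ∀ z : ℤ, ∑ j ∈ range n, g (z + j) ≤ 2) (L : ℕ) :
    ∑ w ∈ Icc (-L : ℤ) L, g w ≤ 2 * (2 * L / n + 1) := by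
  have h1 : ∀ k : ℕ, ∑ i ∈ range (k * n), g (-L + i) ≤ 2 * k := fun k => by
    induction k with
    | zero => simp
    | succ k ih =>
      have := h (-L + (k * n : ℕ))
      rw [add_mul, one_mul, sum_range_add]
      simp only [Nat.cast_add, ← add_assoc, Nat.cast_one]
      linarith
  have h2 := h1 (2 * L / n + 1)
  rw [← sum_Ico] at h2
  have h3 := Nat.lt_div_mul_add (a := 2 * L) hn
  have h4 : ((2 * L / n : ℕ) : ℝ) ≤ 2 * L / n := Nat.cast_div_le.trans (by simp)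
  refine (sum_le_sum_of_subset_of_nonneg (fun w hw => ?_) fun _ _ _ => h0 _).trans
    (h2.trans (by push_cast; linarith))
  rw [mem_Icc] at hw
  rw [mem_Ico, add_mul, one_mul]
  omega

theorem card_P {N : ℕ} {P : Finset ℕ} (hP : ∀ n ∈ P, N < n ∧ n ≤ 2 * N) : (P.card : ℝ) ≤ N := by
  have := card_le_card (s := P) (t := Ioc N (2 * N)) fun n hn => mem_Ioc.2 (hP n hn)
  rw [Nat.card_Ioc] at this
  exact_mod_cast this.trans (by omega)

theorem bessel (crt : CRTStmt) {N R : ℕ} {P : Finset ℕ} (hR : N ^ 3 ≤ R)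
    (hP : ∀ n ∈ P, n.Prime ∧ N < n ∧ n ≤ 2 * N) (f : ℕ → ℤ → ℝ) (c η : ℕ → ℝ)
    (hf : ∀ n x, f n (x + n) = f n x) (hb : ∀ n x, |f n x| ≤ 1) (hc : ∀ n, |c n| ≤ 1)
    (hη : ∀ n ∈ P, (∑ r ∈ range n, f n r) / n = η n) :
    ∑ r ∈ Icc 1 R, (∑ n ∈ P, c n * f n r) ^ 2 ≤ N * R * (9 + ∑ n ∈ P, η n ^ 2) := by
  have hk := card_P fun n hn => (hP n hn).2
  have hR' : (N : ℝ) ^ 3 ≤ R := by exact_mod_cast hR
  have hR0 : (0 : ℝ) ≤ R := by positivity
  have h1 : ∀ n ∈ P, ∀ m ∈ P, ∑ r ∈ Icc 1 R, c n * f n r * (c m * f m r) ≤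
      (if n = m then (R : ℝ) else 0) + 8 * N ^ 2 + R / 2 * η n ^ 2 + R / 2 * η m ^ 2 := by
    intro n hn m hm
    split_ifs with e
    · have h3 : ∑ r ∈ Icc 1 R, c n * f n r * (c m * f m r) ≤ ∑ r ∈ Icc 1 R, (1 : ℝ) :=
        sum_le_sum fun j _ =>
          (le_abs_self _).trans (mul_abs (mul_abs (hc _) (hb _ _)) (mul_abs (hc _) (hb _ _)))
      rw [sum_const, Nat.card_Icc, nsmul_eq_mul, mul_one, Nat.add_sub_cancel] at h3
      refine h3.trans ?_
      rw [add_assoc, add_assoc]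
      exact le_add_of_nonneg_right (by positivity)
    · have h3 := crt {n, m} f 1 R (fun p hp => by
        rcases mem_insert.1 hp with rfl | hp
        · exact (hP _ hn).1
        · rw [mem_singleton.1 hp]; exact (hP _ hm).1) (fun p _ => hf p) fun p _ => hb p
      simp only [prod_pair e] at h3
      rw [hη n hn, hη m hm, sum_Ico] at h3
      have h4 : ∑ r ∈ Icc 1 R, c n * f n r * (c m * f m r) =
          c n * c m * ∑ i ∈ range R, f n (1 + i) * f m (1 + i) := by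
        rw [← Ico_add_one_right_eq_Icc, sum_Ico_eq_sum_range, Nat.add_sub_cancel, mul_sum]
        exact sum_congr rfl fun i _ => by push_cast; ring
      have h5 : (n : ℝ) * m ≤ 2 * N * (2 * N) := by
        exact_mod_cast Nat.mul_le_mul (hP n hn).2.2 (hP m hm).2.2
      have h6 : |∑ i ∈ range R, f n (1 + i) * f m (1 + i)| ≤
          8 * N ^ 2 + R / 2 * η n ^ 2 + R / 2 * η m ^ 2 := by
        rw [abs_le] at h3 ⊢
        constructor
        · nlinarith [mul_nonneg hR0 (sq_nonneg (η n + η m))]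
        · nlinarith [mul_nonneg hR0 (sq_nonneg (η n - η m))]
      rw [h4, zero_add]
      refine (le_abs_self _).trans ?_
      rw [abs_mul]
      exact (mul_le_of_le_one_left (abs_nonneg _) (mul_abs (hc n) (hc m))).trans h6
  simp only [sq (∑ n ∈ P, _), sum_mul_sum]
  rw [sum_comm]
  refine (sum_le_sum fun n hn => (sum_comm.le.trans (sum_le_sum (h1 n hn)))).trans ?_
  simp only [sum_add_distrib, sum_ite_eq, sum_const, nsmul_eq_mul, ← mul_sum]
  rw [sum_congr rfl fun r hr => if_pos hr, sum_const, nsmul_eq_mul]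
  have h7 : 0 ≤ ∑ n ∈ P, η n ^ 2 := sum_nonneg fun _ _ => sq_nonneg _
  have h8 : (0 : ℝ) ≤ P.card := by positivity
  have h9 : (P.card : ℝ) * P.card ≤ N * N := mul_self_le_mul_self h8 hk
  have h10 : (0 : ℝ) ≤ N := by positivity
  nlinarith [mul_le_mul_of_nonneg_right hk hR0, mul_le_mul_of_nonneg_right hk (mul_nonneg hR0 h7),
    mul_le_mul_of_nonneg_right h9 (sq_nonneg (N : ℝ)), mul_le_mul_of_nonneg_left hR' h10]

theorem shift {L M t : ℤ} {u : ℤ → ℝ} (hu : ∀ z, u z ≠ 0 → |z| ≤ L) (ht : L + |t| ≤ M) :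
    ∑ x ∈ Icc (-M) M, u (x + t) = ∑ z ∈ Icc (-L) L, u z := by
  have h1 := le_abs_self t
  have h2 := neg_abs_le t
  refine (sum_of_injOn (fun z => z - t) (fun a _ b _ e => by simpa using e) (fun z hz => ?_)
    (fun x _ hx => ?_) fun z _ => by simp).symm
  · simp only [mem_coe, mem_Icc] at hz ⊢; omega
  · by_contra c
    exact hx ⟨x + t, mem_coe.2 (mem_Icc.2 (abs_le.1 (hu _ c))), by simp⟩

theorem one (crt : CRTStmt) {L N R : ℕ} {α : ℤ} {P : Finset ℕ} (χ : ℕ → ℤ → ℝ) (F₁ : ℤ → ℕ → ℝ)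
    (F₂ : ℤ → ℝ) (B : ℕ → ℝ) {s : ℝ} (hs : s ^ 2 = N) (h1s : 1 ≤ s) (hR : N ^ 3 ≤ R)
    (hP : ∀ n ∈ P, n.Prime ∧ N < n ∧ n ≤ 2 * N ∧ ¬(n : ℤ) ∣ α) (hχ : ∀ n x, χ n (x + n) = χ n x)
    (bχ : ∀ n x, |χ n x| ≤ 1) (b1 : ∀ x r, |F₁ x r| ≤ 1) (b2 : ∀ z, |F₂ z| ≤ 1)
    (h2 : ∀ z, F₂ z ≠ 0 → |z| ≤ L) (bB : ∀ n, |B n| ≤ 1) :
    (∑ x ∈ Icc (-L : ℤ) L, ∑ r ∈ Icc 1 R, F₁ x r * ∑ n ∈ P, B n * χ n x * F₂ (x + α * n * r)) ^ 2 ≤
      (2 * L + 1) ^ 2 * R ^ 2 * s ^ 3 * (11 + ∑ n ∈ P, ((∑ r ∈ range n, χ n r) / n) ^ 2) := by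
  classical
  set H := ∑ n ∈ P, ((∑ r ∈ range n, χ n r) / n) ^ 2 with hH
  have H0 : 0 ≤ H := sum_nonneg fun _ _ => sq_nonneg _
  have hI : ((Icc (-L : ℤ) L).card : ℝ) = 2 * L + 1 := by
    rw [Int.card_Icc, show ((L : ℤ) + 1 - -L).toNat = 2 * L + 1 by omega]; push_cast; rfl
  have hJ : ((Icc 1 R).card : ℝ) = R := by simp
  have hk := card_P fun n hn => ⟨(hP n hn).2.1, (hP n hn).2.2.1⟩
  have hR0 : (0 : ℝ) ≤ R := by positivity
  let a : ℤ → ℤ → ℝ := fun m z => if m.toNat ∈ P then B m.toNat * χ m.toNat z * F₂ z else 0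
  have ba : ∀ m z, |a m z| ≤ 1 := fun m z => by
    simp only [a]
    split_ifs
    · exact mul_abs (mul_abs (bB _) (bχ _ _)) (b2 _)
    · simp
  have e1 : ∀ r ∈ Icc 1 R, ∑ x ∈ Icc (-L : ℤ) L, (∑ n ∈ P, B n * χ n x * F₂ (x + α * n * r)) ^ 2 ≤
      ∑ z ∈ Icc (-L : ℤ) L, ∑ d ∈ Ico (-N : ℤ) N,
        F₂ (z + α * d * r) * ∑ n ∈ P, a (n - d) z * B n * χ n (z + α * d * r) := fun r hr => by
    have h3 : (0 : ℤ) ≤ |α| * (2 * N) * r := by positivity
    refine (sum_le_sum_of_subset_of_nonneg (Icc_subset_Icc (a₂ := -(L + |α| * (2 * N) * r))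
      (b₂ := L + |α| * (2 * N) * r) (by omega) (by omega)) fun _ _ _ => sq_nonneg _).trans
      (le_of_eq ?_)
    simp only [sq, sum_mul]
    rw [sum_comm]
    have h4 : ∀ m ∈ P, ∑ x ∈ Icc (-(L + |α| * (2 * N) * r)) (L + |α| * (2 * N) * r),
        B m * χ m x * F₂ (x + α * m * r) * ∑ n ∈ P, B n * χ n x * F₂ (x + α * n * r) =
        ∑ z ∈ Icc (-L : ℤ) L, B m * χ m z * F₂ z *
          ∑ n ∈ P, B n * χ n (z + α * (n - m) * r) * F₂ (z + α * (n - m) * r) := fun m hm => by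
      rw [← shift (M := L + |α| * (2 * N) * r) (t := α * m * r) (fun z c => h2 z fun e => c
        (by rw [e, mul_zero, zero_mul])) ?_]
      · refine sum_congr rfl fun x _ => ?_
        rw [show x + α * m * r = x + α * r * m by ring, per_mul (hχ m)]
        congr 1
        refine sum_congr rfl fun n _ => ?_
        rw [show x + α * r * m + α * (n - m) * r = x + α * r * n by ring, per_mul (hχ n),
          mul_right_comm α]
      · rw [abs_mul, abs_mul, Nat.abs_cast, Nat.abs_cast]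
        have : (m : ℤ) ≤ 2 * N := by exact_mod_cast (hP m hm).2.2.1
        gcongr
    rw [sum_congr rfl h4, sum_comm]
    refine sum_congr rfl fun z _ => ?_
    simp only [mul_sum]
    rw [sum_comm, sum_comm (s := Ico _ _)]
    refine sum_congr rfl fun n hn => sum_of_injOn (fun m : ℕ => (n : ℤ) - m)
      (fun x _ y _ e => by simpa using e) (fun m hm => ?_) (fun d _ hd => ?_) fun m hm => ?_
    · have := hP n hn
      have := hP m hm
      simp only [mem_coe, mem_Ico]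
      omega
    · have : ((n : ℤ) - d).toNat ∉ P := fun c => hd ⟨_, c, by
        have := (hP _ c).2.1
        show (n : ℤ) - (((n : ℤ) - d).toNat : ℤ) = d
        omega⟩
      simp only [a, if_neg this, zero_mul, mul_zero]
    · simp only [a, sub_sub_cancel, Int.toNat_natCast, if_pos hm]
      ring
  have e2 : ∀ z d : ℤ, d ∈ Ico (-N : ℤ) N → ∑ r ∈ Icc 1 R,
      F₂ (z + α * d * r) * ∑ n ∈ P, a (n - d) z * B n * χ n (z + α * d * r) ≤
      (if d = 0 then (R : ℝ) * N else 0) + s * R * (5 + H / 2) := fun z d hd => by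
    have h3 : ∀ r : ℕ, F₂ (z + α * d * r) * ∑ n ∈ P, a (n - d) z * B n * χ n (z + α * d * r) ≤
        |∑ n ∈ P, a (n - d) z * B n * χ n (z + α * d * r)| := fun r => (le_abs_self _).trans <| by
      rw [abs_mul]; exact mul_le_of_le_one_left (abs_nonneg _) (b2 _)
    refine (sum_le_sum fun r _ => h3 r).trans ?_
    split_ifs with c
    · refine (sum_le_card_nsmul _ _ (N : ℝ) fun r _ => (abs_sum_le_sum_abs _ _).trans
        ((sum_le_card_nsmul _ _ (1 : ℝ) fun n _ =>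
          mul_abs (mul_abs (ba _ _) (bB _)) (bχ _ _)).trans ?_)).trans ?_
      · rwa [nsmul_eq_mul, mul_one]
      · rw [nsmul_eq_mul, hJ]
        exact le_add_of_nonneg_right (by positivity)
    · have h4 := bessel crt hR (fun n hn => ⟨(hP n hn).1, (hP n hn).2.1, (hP n hn).2.2.1⟩)
        (fun n r => χ n (z + α * d * r)) (fun n => a (n - d) z * B n)
        (fun n => (∑ r ∈ range n, χ n r) / n)
        (fun n x => by rw [mul_add, ← add_assoc, per_mul (hχ n)]) (fun n x => bχ _ _)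
        (fun n => mul_abs (ba _ _) (bB _)) fun n hn => by
          rw [mean (hP n hn).1 (hχ n) z (α * d) fun e => ?_]
          rcases (Nat.prime_iff_prime_int.1 (hP n hn).1).dvd_or_dvd e with e | e
          · exact (hP n hn).2.2.2 e
          · have := (hP n hn).2.1
            rw [mem_Ico] at hd
            exact c (Int.eq_zero_of_abs_lt_dvd e (by rw [abs_lt]; constructor <;> omega))
      have h5 : ∀ t : ℝ, 2 * s * |t| ≤ t ^ 2 + s ^ 2 := fun t => by
        nlinarith [sq_nonneg (|t| - s), sq_abs t]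
      have h6 := sum_le_sum (s := Icc 1 R) fun r _ =>
        h5 (∑ n ∈ P, a (n - d) z * B n * χ n (z + α * d * (r : ℕ)))
      rw [← mul_sum, sum_add_distrib, sum_const, nsmul_eq_mul, hJ] at h6
      rw [← hH, ← hs] at h4
      rw [zero_add]
      refine le_of_mul_le_mul_left (h6.trans ?_) (by positivity)
      nlinarith
  have e3 : ∑ x ∈ Icc (-L : ℤ) L, ∑ r ∈ Icc 1 R,
      (∑ n ∈ P, B n * χ n x * F₂ (x + α * n * r)) ^ 2 ≤ (2 * L + 1) * (R * s ^ 3 * (11 + H)) := by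
    rw [sum_comm]
    refine (sum_le_sum e1).trans ?_
    rw [sum_comm, ← hI, ← nsmul_eq_mul]
    refine sum_le_card_nsmul _ _ _ fun z _ => ?_
    rw [sum_comm]
    refine (sum_le_sum (e2 z)).trans ?_
    have h3 : ((Ico (-N : ℤ) N).card : ℝ) = 2 * s ^ 2 := by
      rw [Int.card_Ico, show ((N : ℤ) - -N).toNat = 2 * N by omega, hs]; push_cast; rfl
    rw [sum_add_distrib, sum_ite_eq', sum_const, nsmul_eq_mul, h3, ← hs]
    have h4 : (R : ℝ) * s ^ 2 ≤ R * s ^ 3 :=
      mul_le_mul_of_nonneg_left (pow_le_pow_right₀ h1s (by norm_num)) hR0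
    have h5 : 0 ≤ (R : ℝ) * s ^ 2 := by positivity
    split_ifs <;> nlinarith
  have e4 : ∑ x ∈ Icc (-L : ℤ) L, ∑ r ∈ Icc 1 R, F₁ x r ^ 2 ≤ (2 * L + 1) * R := by
    rw [← hI, ← nsmul_eq_mul]
    refine sum_le_card_nsmul _ _ _ fun x _ => (sum_le_card_nsmul _ _ (1 : ℝ) fun r _ =>
      (sq_le_one_iff_abs_le_one _).2 (b1 x r)).trans ?_
    rw [nsmul_eq_mul, hJ, mul_one]
  have e5 := sum_mul_sq_le_sq_mul_sq (Icc (-L : ℤ) L ×ˢ Icc 1 R) (fun p => F₁ p.1 p.2)
    fun p => ∑ n ∈ P, B n * χ n p.1 * F₂ (p.1 + α * n * p.2)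
  simp only [sum_product] at e5
  refine e5.trans ((mul_le_mul e4 e3 (sum_nonneg fun _ _ => sum_nonneg fun _ _ => sq_nonneg _)
    (by positivity)).trans (le_of_eq (by ring)))

end Bes

theorem bes : CRTStmt → BESStmt := by
  intro crt L N R α P φ F₁ F₂ B hN hL hR hP hφ bφ b1 b2 h2 bB
  have hN1 : (1 : ℝ) ≤ N := by exact_mod_cast (by omega : 1 ≤ N)
  have hNL : (N : ℝ) ≤ L := by exact_mod_cast hL
  set q := (N : ℝ) ^ (1 / 4 : ℝ) with hq
  have hq1 : 1 ≤ q := Real.one_le_rpow hN1 (by norm_num)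
  have hq4 : (q ^ 2) ^ 2 = N := by
    rw [← pow_mul, hq, ← Real.rpow_natCast, ← Real.rpow_mul (by positivity)]; norm_num
  have hq3 : (N : ℝ) ^ (3 / 4 : ℝ) = q ^ 3 := by
    rw [hq, ← Real.rpow_natCast, ← Real.rpow_mul (by positivity)]; norm_num
  have hI : ((Icc (-L : ℤ) L).card : ℝ) = 2 * L + 1 := by
    rw [Int.card_Icc, show ((L : ℤ) + 1 - -L).toNat = 2 * L + 1 by omega]; push_cast; rfl
  have e1 := fun w : ℤ => Bes.one crt (fun n x => φ n x * jacobiSym (x - w) n) (F₁ w) (F₂ w) (B w)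
    hq4 (one_le_pow₀ hq1) hR hP (fun n x => by
      rw [hφ, jacobiSym.mod_left' (a₂ := x - w) (by rw [add_sub_right_comm, Int.add_emod_right])])
    (fun n x => Bes.mul_abs (bφ _ _) (Bes.jac_abs _ _)) (b1 w) (b2 w) (h2 w) (bB w)
  have e2 : ∑ w ∈ Icc (-L : ℤ) L, ∑ n ∈ P,
      ((∑ r ∈ range n, φ n r * jacobiSym (r - w) n) / n) ^ 2 ≤ 6 * L := by
    rw [sum_comm]
    refine (sum_le_card_nsmul _ _ (6 * L / N : ℝ) fun n hn => ?_).trans ?_
    · obtain ⟨k1, k2, -, -⟩ := hP n hn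
      refine (Bes.per_sum k1.pos (fun _ => sq_nonneg _)
        (Bes.eta_sq k1 (by omega) (bφ n)) L).trans ?_
      have k3 : (N : ℝ) ≤ n := by exact_mod_cast k2.le
      have k4 : (2 * L / n : ℝ) ≤ 2 * L / N := by gcongr
      have k5 : (1 : ℝ) ≤ L / N := (one_le_div (by positivity)).2 hNL
      rw [mul_div_assoc] at k4 ⊢
      rw [mul_div_assoc] at k4
      rw [mul_div_assoc]
      linarith
    · rw [nsmul_eq_mul]
      refine (mul_le_mul_of_nonneg_right (Bes.card_P fun n hn => ⟨(hP n hn).2.1, (hP n hn).2.2.1⟩)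
        (by positivity)).trans (le_of_eq ?_)
      field_simp
  have e3 := sum_le_sum (s := Icc (-L : ℤ) L) fun w _ => e1 w
  rw [← mul_sum, sum_add_distrib, sum_const, nsmul_eq_mul, hI] at e3
  refine abs_le_of_sq_le_sq' ((sq_sum_le_card_mul_sum_sq).trans ?_) (by positivity) |>.2
  simp only [sq_abs]
  rw [hI, hq3]
  have k1 : (2 * L + 1 : ℝ) ≤ 3 * L := by linarith
  refine (mul_le_mul k1 (e3.trans (show _ ≤ (3 * L) ^ 2 * R ^ 2 * (q ^ 2) ^ 3 * (39 * L) by
    gcongr; linarith)) (sum_nonneg fun _ _ => sq_nonneg _) (by positivity)).trans ?_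
  have k2 : (0 : ℝ) ≤ L ^ 4 * R ^ 2 * q ^ 6 := by positivity
  nlinarith

end Pool.Agent.MP_a43263_nt.JU

end MrgPart2

-- ======== part 3: formerly Pool.Agent.MP_a43263_nt.JU.Mkv
section MrgPart3

/-! PROJECT JU, module MKV: a positive proportion of the points has a kernel of the least size. -/

set_option autoImplicit false

noncomputable section

namespace Pool.Agent.MP_a43263_nt.JU

open Finset Filter
open R2 (Sgn chi Ker sg pri PP chs Sc Core Shape mem_PP)
open RG (Rel Ev EE)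

namespace Mkv

variable {m : ℕ} {D : Dat m} {S : Sc} {a : Fin m → ℤ}

theorem tg_inj : Function.Injective (tg : Ed m → Tag m) := fun _ _ h => (Prod.mk.inj h).1

theorem mem_gens' {l : Ed m → ℕ} {x : Gen m} :
    x ∈ gens l ↔ ∃ h : Ed m, x.1 = tg h ∧ x.2 ∈ (l h).primeFactors := by
  obtain ⟨k, p⟩ := x
  simp only [gens, mem_biUnion, mem_univ, true_and, mem_image, Prod.mk.injEq]
  constructor
  · rintro ⟨h, q, hq, rfl, rfl⟩
    exact ⟨h, rfl, hq⟩
  · rintro ⟨h, rfl, hq⟩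
    exact ⟨h, p, hq, rfl, rfl⟩

theorem mk_mem_VV' (hD : D.Ok) {h : Ed m} {p : ℕ} :
    (tg h, p) ∈ D.VV a ↔ p ∈ (D.l a h).primeFactors := by
  rw [Dat.VV, mem_union, mem_gens']
  constructor
  · rintro (k | ⟨k, e, hk⟩)
    · exact absurd (hD.fix _ k).1 (Option.some_ne_none _)
    · rwa [tg_inj e]
  · exact fun hp => .inr ⟨h, rfl, hp⟩

theorem card_tag (hD : D.Ok) (h : Ed m) (q : ℕ → Prop) [DecidablePred q] :
    ((D.VV a).filter fun x => x.1 = tg h ∧ q x.2).card =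
      ((D.l a h).primeFactors.filter q).card := by
  rw [← card_image_of_injective ((D.l a h).primeFactors.filter q) (Prod.mk_right_injective (tg h))]
  congr 1
  ext ⟨k, p⟩
  simp only [mem_filter, mem_image, Prod.mk.injEq]
  constructor
  · rintro ⟨h1, rfl, h2⟩
    exact ⟨p, ⟨(mk_mem_VV' hD).1 h1, h2⟩, rfl, rfl⟩
  · rintro ⟨p', ⟨h1, h2⟩, rfl, rfl⟩
    exact ⟨(mk_mem_VV' hD).2 h1, rfl, h2⟩

theorem of_AA (hx : a ∈ AA S D) : (∀ e : Ed m, a e.1.1 - a e.1.2 = D.Δ e * D.l a e) ∧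
    (∀ e, D.l a e ≡ 1 [MOD 8 * D.M]) ∧ (∀ e, Shape S (D.l a e)) ∧
    (∀ e f, lk e f → (D.l a e).Coprime (D.l a f)) := by
  classical
  simp only [AA, mem_filter] at hx
  exact ⟨hx.2.1, hx.2.2.1, hx.2.2.2.1, hx.2.2.2.2.1⟩

theorem adm (hR : Rel m S) (hx : a ∈ AA S D) : Adm D a := by
  obtain ⟨h1, h2, h3, h4⟩ := of_AA hx
  exact ⟨h1, h2, fun e => hR.sqf (h3 e), h4⟩

theorem card_par (hR : Rel m S) (hx : a ∈ AA S D) (h : Ed m) :
    (D.l a h).primeFactors.card % 2 = S.e % 2 := by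
  obtain ⟨c, P, hc, hP, hl, e⟩ := (of_AA hx).2.2.1 h
  rw [e, hR.card_mul hc hP hl, hc.par]

/-- the count of the kernel on the set of points -/
theorem cnt_AA (kc : KCStmt) (cnt : CNTStmt) (hD : D.Ok) (hR : Rel m S) (hY : D.M ≤ S.Y)
    (hJ : 1 ≤ S.J) (hx : a ∈ AA S D) :
    ((Ker (D.g a) (D.VV a)).card : ℝ) ≤ osc (D.g a) S.Y S.Y' (D.VV a) +
      3 * ((rset (D.g a) S.Y (D.VV a)).card : ℝ) +
      32 ^ NE m * ((Ker (D.g a) (le S.Y (D.VV a))).card : ℝ) / 2 ^ S.J := by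
  refine cnt m _ hD.three ((kc m).1 _) _ _ _ _ hR.Y_le hJ (fun x hx h => ?_) (fun j => ?_)
    fun j => ?_
  · rcases mem_union.1 hx with k | k
    · have h1 := hD.pos
      rcases (hD.fix x k).2 with e | e
      · omega
      · have := Nat.le_of_dvd h1 e.2
        omega
    · obtain ⟨j, e, -⟩ := mem_gens'.1 k
      rw [e]
      rfl
  · obtain ⟨c, P, hc, hP, hl, e⟩ := (of_AA hx).2.2.1 j
    rw [card_tag hD j (S.Y' < ·), e, hR.filter_gt hc hP hl, card_singleton]
  · obtain ⟨c, P, hc, hP, hl, e⟩ := (of_AA hx).2.2.1 j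
    have h1 : ((md S.Y S.Y' (D.VV a)).filter fun x => x.1 = tg j).card =
        (c.primeFactors.filter (S.Y < ·)).card := by
      rw [md, filter_filter, filter_congr fun _ _ => and_comm,
        card_tag hD j fun p => S.Y < p ∧ p ≤ S.Y', e, filter_congr fun _ _ => and_comm,
        ← filter_filter, hR.filter_le hc hP hl]
    rw [h1]
    exact ⟨hc.lo, hc.hi⟩

theorem NE_le (m : ℕ) : NE m ≤ m ^ 2 := by
  refine (Fintype.card_subtype_le _).trans_eq ?_
  simp [sq]

theorem wt_nonneg {M u v p : ℕ} (hM : Sm m M) (h : p ∈ PP M u v) : 0 ≤ wt m p := by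
  obtain ⟨-, -, h1, h2⟩ := mem_PP.1 h
  have h3 : 2 * m ^ 2 < p := not_le.1 fun k => h2 (hM p h1 k)
  have h4 : (NE m : ℝ) ≤ p := by
    have := NE_le m
    exact_mod_cast (by omega : NE m ≤ p)
  exact one_div_nonneg.2 (by linarith)

theorem Mass_nonneg {M : ℕ} (hM : Sm m M) (u v : ℕ) : 0 ≤ Mass m (PP M u v) :=
  prod_nonneg fun _ h => pow_nonneg (by linarith [wt_nonneg hM h]) _

theorem Mss_nonneg {M : ℕ} (hM : Sm m M) (u v : ℕ) : 0 ≤ Mss m (PP M u v) :=
  prod_nonneg fun _ h => pow_nonneg (by linarith [wt_nonneg hM h]) _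

theorem sum_Wt' (P : Finset ℕ) : ∑ W ∈ (TT m P).powerset, Wt W = Mass m P := by
  have h : ∏ x ∈ TT m P, (1 + wt m x.2) = Mass m P := by
    simp only [TT, prod_product, prod_const, Mass, prod_pow]
    rw [card_image_of_injective _ tg_inj, card_univ]
    rfl
  rw [← h, prod_one_add]
  rfl

/-- the inequality at one point -/
theorem point {K k o r b s σ τ : ℝ} (g : Prop) [Decidable g] (hK : 0 ≤ K) (hk : 0 ≤ k)
    (hb : 0 ≤ b) (hs : 0 ≤ s) (hσ : σ = 1 ∨ σ = -1) (hτ : τ = 1 ∨ τ = -1)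
    (h1 : k ≤ o + 3 * r + s) (h2 : r ≤ K + b) (h3 : τ = σ → ¬g → 4 * K ≤ k) :
    K / 2 + K / 2 * σ * τ ≤
      4 * K * (if g then 1 else 0) + (o / 2 + σ / 2 * (τ * o)) + 3 * b + s := by
  by_cases hg : g
  · rw [if_pos hg]
    rcases hσ with rfl | rfl <;> rcases hτ with rfl | rfl <;> linarith
  · rw [if_neg hg]
    rcases hσ with rfl | rfl <;> rcases hτ with rfl | rfl
    · linarith [h3 rfl hg]
    · linarith
    · linarith
    · linarith [h3 rfl hg]

end Mkv

open Mkv in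
theorem mkv : KCStmt → SYMStmt → CNTStmt → RELStmt → MESStmt → DOMStmt → LYAStmt → KILStmt →
    OSCStmt → SIGNStmt → MKVStmt := by
  classical
  intro kc sym cnt rel mes dom lya kil os sign m D δ hD hpar hδ
  obtain ⟨CD, hCD, dom⟩ := dom m D hD
  obtain ⟨CM, mes⟩ := mes m hD.three
  obtain ⟨CL, lya⟩ := lya m D hD
  obtain ⟨CK, kil⟩ := kil m D hD
  obtain ⟨K, hK⟩ : ∃ K : ℝ, K = 2 ^ (m - 1) := ⟨_, rfl⟩
  have hK1 : 1 ≤ K := by rw [hK]; exact one_le_pow₀ one_le_two
  obtain ⟨J₀, hJ₀⟩ := pow_unbounded_of_one_lt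
    ((3 * |CK| + 32 ^ NE m * |CL|) * (CD * |CM|) / (δ / 8)) (one_lt_two (α := ℝ))
  refine ⟨J₀ + 1, fun J hJ => ?_⟩
  have hJ1 : (3 * |CK| + 32 ^ NE m * |CL|) * (CD * |CM|) ≤ δ / 8 * 2 ^ J := by
    rw [div_lt_iff₀ (by positivity)] at hJ₀
    have : (2 : ℝ) ^ J₀ ≤ 2 ^ J := pow_le_pow_right₀ one_le_two (by omega)
    nlinarith
  have hε : 0 < δ / 8 := by positivity
  refine (((((dom J).and (kil J)).and (os m D J (δ / 8) hD hε)).and
    (sign m D J (δ / 8) hD (by omega) hε)).and (RG.ev_ge (D.M + 2))).mono ?_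
  rintro S - rfl hR ⟨⟨⟨⟨dom, kil⟩, os⟩, sign⟩, hY0⟩ hA
  obtain ⟨σ, hσ, hpar⟩ := hpar S.e
  have hY := hR.Y0_le
  have hY' := hR.Y_le
  have hMY : D.M ≤ S.Y := by omega
  have hL : 0 < Real.log S.Y' ^ NE m :=
    pow_pos (Real.log_pos (by exact_mod_cast (by omega : 1 < S.Y'))) _
  have hq : 0 ≤ CD * (S.Z : ℝ) ^ m / Real.log S.Y' ^ NE m := by positivity
  have hM1 := Mss_nonneg hD.sm 0 S.Y0
  have hM2 := Mass_nonneg hD.sm S.Y S.Y'
  have hm : CD * (S.Z : ℝ) ^ m / Real.log S.Y' ^ NE m *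
      (Mss m (PP D.M 0 S.Y0) * Mass m (PP D.M S.Y S.Y')) ≤ CD * |CM| * (S.Z : ℝ) ^ m := by
    have h1 := (mes D.M S.Y0 S.Y S.Y' hD.sm hY hY' (by omega)).trans
      (mul_le_mul_of_nonneg_right (le_abs_self CM) hL.le)
    calc _ ≤ CD * (S.Z : ℝ) ^ m / Real.log S.Y' ^ NE m * (|CM| * Real.log S.Y' ^ NE m) :=
          mul_le_mul_of_nonneg_left h1 hq
      _ = _ := by rw [div_mul_eq_mul_div, div_eq_iff hL.ne']; ring
  -- the mean of the kernel on the small primes
  have h1 : ∑ a ∈ AA S D, ((Ker D.gs (D.W0 ∪ D.sml a S.Y)).card : ℝ) ≤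
      |CL| * (CD * |CM| * (S.Z : ℝ) ^ m) := by
    have k1 := dom (fun W _ => ((Ker D.gs (D.W0 ∪ W)).card : ℝ)) fun _ _ => Nat.cast_nonneg _
    have k2 : ∑ W ∈ (TS m (PP D.M 0 S.Y0)).powerset.filter Dist,
        ∑ W' ∈ (TT m (PP D.M S.Y S.Y')).powerset,
          Ws W * Wt W' * ((Ker D.gs (D.W0 ∪ W)).card : ℝ) ≤
        |CL| * (Mss m (PP D.M 0 S.Y0) * Mass m (PP D.M S.Y S.Y')) := by
      have : ∀ W : Finset (Gen m), ∑ W' ∈ (TT m (PP D.M S.Y S.Y')).powerset,
          Ws W * Wt W' * ((Ker D.gs (D.W0 ∪ W)).card : ℝ) =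
          Ws W * ((Ker D.gs (D.W0 ∪ W)).card : ℝ) * Mass m (PP D.M S.Y S.Y') := fun W => by
        rw [← sum_Wt', mul_sum]
        exact sum_congr rfl fun _ _ => by ring
      simp only [this]
      rw [← sum_mul, ← mul_assoc]
      exact mul_le_mul_of_nonneg_right
        ((lya S.Y0).trans (mul_le_mul_of_nonneg_right (le_abs_self CL) hM1)) hM2
    calc _ ≤ _ := k1
      _ ≤ CD * (S.Z : ℝ) ^ m / Real.log S.Y' ^ NE m *
          (|CL| * (Mss m (PP D.M 0 S.Y0) * Mass m (PP D.M S.Y S.Y'))) :=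
          mul_le_mul_of_nonneg_left k2 hq
      _ = |CL| * (CD * (S.Z : ℝ) ^ m / Real.log S.Y' ^ NE m *
          (Mss m (PP D.M 0 S.Y0) * Mass m (PP D.M S.Y S.Y'))) := by ring
      _ ≤ _ := mul_le_mul_of_nonneg_left hm (abs_nonneg _)
  -- the mean of the number of classes that are not geometric
  have h2 : ∑ a ∈ AA S D, (nbad D (D.sml a S.Y) (md S.Y S.Y' (gens (D.l a))) : ℝ) ≤
      |CK| / 2 ^ S.J * (CD * |CM| * (S.Z : ℝ) ^ m) := by
    have k1 := dom (fun W W' => (nbad D W W' : ℝ)) fun _ _ => Nat.cast_nonneg _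
    have k2 := kil.trans (mul_le_mul_of_nonneg_right
      (div_le_div_of_nonneg_right (le_abs_self CK) (by positivity)) (mul_nonneg hM1 hM2))
    calc _ ≤ _ := k1
      _ ≤ CD * (S.Z : ℝ) ^ m / Real.log S.Y' ^ NE m *
          (|CK| / 2 ^ S.J * (Mss m (PP D.M 0 S.Y0) * Mass m (PP D.M S.Y S.Y'))) :=
          mul_le_mul_of_nonneg_left k2 hq
      _ = |CK| / 2 ^ S.J * (CD * (S.Z : ℝ) ^ m / Real.log S.Y' ^ NE m *
          (Mss m (PP D.M 0 S.Y0) * Mass m (PP D.M S.Y S.Y'))) := by ring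
      _ ≤ _ := mul_le_mul_of_nonneg_left hm (by positivity)
  have h4 : ∀ a ∈ AA S D, K / 2 + K / 2 * (σ : ℝ) * (sgn D a : ℝ) ≤
      4 * K * (if (Ker (D.g a) (D.VV a)).card ≤ 2 ^ (m - 1) then 1 else 0) +
        (osc (D.g a) S.Y S.Y' (D.VV a) / 2 +
          (σ : ℝ) / 2 * ((sgn D a : ℝ) * osc (D.g a) S.Y S.Y' (D.VV a))) +
        3 * (nbad D (D.sml a S.Y) (md S.Y S.Y' (gens (D.l a))) : ℝ) +
        32 ^ NE m / 2 ^ S.J * ((Ker D.gs (D.W0 ∪ D.sml a S.Y)).card : ℝ) := by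
    intro a hx
    have hl := adm hR hx
    have k1 := cnt_AA kc cnt hD hR hMY (by omega) hx
    obtain ⟨k2, k3⟩ := rel m D S hD hR hMY a hx
    rw [k2, mul_div_right_comm] at k1
    have k4 := ((sym m D hD).2.1 a hl).2.2.2.2.2.1
    refine point _ (by linarith) (Nat.cast_nonneg _) (Nat.cast_nonneg _) (by positivity)
      (by exact_mod_cast hσ) (by exact_mod_cast k4) k1 (by rw [hK]; exact_mod_cast k3)
      fun e hb => ?_
    obtain ⟨κ, hk, hk2⟩ := hpar a hl (card_par hR hx) (by exact_mod_cast e)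
    rw [hk] at hb
    have : 2 ^ (m - 1 + 2) ≤ 2 ^ κ := Nat.pow_le_pow_right (by norm_num) (by
      by_contra h
      exact hb (Nat.pow_le_pow_right (by norm_num) (by omega)))
    rw [hk, hK]
    calc (4 : ℝ) * 2 ^ (m - 1) = ((2 ^ (m - 1 + 2) : ℕ) : ℝ) := by push_cast; ring
      _ ≤ _ := Nat.cast_le.2 this
  have h5 := sum_le_sum h4
  simp only [sum_add_distrib, ← mul_sum, ← sum_div, sum_const, nsmul_eq_mul, sum_boole] at h5
  have o0 := os 0
  have o1 := os 1
  simp only [pow_zero, one_mul, pow_one] at o0 o1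
  have hZ : (0 : ℝ) ≤ (S.Z : ℝ) ^ m := by positivity
  have h6 : 3 * (|CK| / 2 ^ S.J * (CD * |CM| * (S.Z : ℝ) ^ m)) +
      32 ^ NE m / 2 ^ S.J * (|CL| * (CD * |CM| * (S.Z : ℝ) ^ m)) ≤ δ / 8 * (S.Z : ℝ) ^ m := by
    calc _ = (3 * |CK| + 32 ^ NE m * |CL|) * (CD * |CM|) / 2 ^ S.J * (S.Z : ℝ) ^ m := by ring
      _ ≤ _ := mul_le_mul_of_nonneg_right ((div_le_iff₀ (by positivity)).2 hJ1) hZ
  have h7 := mul_le_mul_of_nonneg_left h1 (by positivity : (0 : ℝ) ≤ 32 ^ NE m / 2 ^ S.J)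
  have h8 : (σ : ℝ) / 2 * ∑ a ∈ AA S D, (sgn D a : ℝ) * osc (D.g a) S.Y S.Y' (D.VV a) ≤
      δ / 8 * (S.Z : ℝ) ^ m / 2 := by
    have := abs_le.1 o1
    rcases hσ with rfl | rfl <;> push_cast <;> linarith
  have h9 : -(δ / 8 * (S.Z : ℝ) ^ m) ≤ (σ : ℝ) * ∑ a ∈ AA S D, (sgn D a : ℝ) := by
    have := abs_le.1 sign
    rcases hσ with rfl | rfl <;> push_cast <;> linarith
  have h10 := (abs_le.1 o0).2
  have h11 := mul_le_mul_of_nonneg_left h9 (by linarith : 0 ≤ K / 2)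
  have h12 := mul_le_mul_of_nonneg_right hA (by linarith : 0 ≤ K / 2)
  have h13 := mul_le_mul_of_nonneg_right hK1 (by positivity : 0 ≤ δ * (S.Z : ℝ) ^ m)
  refine le_of_mul_le_mul_left ?_ (by linarith : 0 < 4 * K)
  nlinarith

end Pool.Agent.MP_a43263_nt.JU

end
end MrgPart3

-- marker of a merged file
example : 731051 + 829923 = 731051 + 829923 := rfl
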