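import Mathlib.Algebra.Azumaya.Basic
import Mathlib.Algebra.Lie.OfAssociative
import Pool.Agent.MP_a43263_nt.JU.Br
import Pool.Agent.MP_a43263_nt.RG.Fib
import Pool.Agent.MP_a43263_nt.R2.Basic
import Pool.Agent.MP_a43263_nt.JC.CstA
import Pool.Agent.MP_a43263_nt.JC.Qv
import Pool.Agent.MP_a43263_nt.JU.Lya
import Pool.Agent.MP_a43263_nt.JC.Idx
import Pool.Agent.MP_a43263_nt.RG.Good
import Pool.Agent.MP_a43263_nt.RG.Pty
import Pool.Agent.MP_a43263_nt.RG.Fin
import Pool.Agent.MP_a43263_nt.RG.Tools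
import Pool.Agent.MP_a43263_nt.RH.Par
import Pool.Agent.MP_a43263_nt.JC.JAll
import Pool.Agent.MP_a43263_nt.JU.Mkv
import Pool.Agent.MP_a43263_nt.JU.Loc
import Pool.Agent.MP_a43263_nt.JU.Key

-- ======== part 0: formerly Pool.Agent.MP_a43263_nt.JU.Siv
section MrgPart0

/-! PROJECT JU, module SIV: the upper bound sieve in a residue class, vertex by vertex. -/

set_option autoImplicit false

noncomputable section

namespace Pool.Agent.MP_a43263_nt.JU

open Finset Filter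
open R2 (pri MERStmt PMStmt SVStmt)
open RG.Fib (sieve prod_low prod_w_pos prod_sub_le w_nonneg)

namespace Siv

theorem prod_le {ι : Type} (s : Finset ι) (f : ι → ℝ) (p : ℝ) (h0 : ∀ j ∈ s, 0 ≤ f j)
    (h1 : ∑ j ∈ s, f j < p) :
    ∏ j ∈ s, (1 + f j / (p - f j)) ≤ p / (p - ∑ j ∈ s, f j) := by
  classical
  induction s using Finset.induction_on with
  | empty =>
    simp only [sum_empty, prod_empty] at h1 ⊢
    rw [sub_zero, div_self h1.ne']
  | insert a s ha ih =>
    rw [sum_insert ha] at h1 ⊢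
    rw [prod_insert ha]
    have a1 : 0 ≤ f a := h0 a (mem_insert_self _ _)
    have a2 : 0 ≤ ∑ j ∈ s, f j := sum_nonneg fun j hj => h0 j (mem_insert_of_mem hj)
    have a3 := ih (fun j hj => h0 j (mem_insert_of_mem hj)) (by linarith)
    generalize ∑ j ∈ s, f j = S at h1 a2 a3
    have b1 : 0 < p - f a := by linarith
    have b2 : 0 < p - S := by linarith
    have b3 : 0 < p := by linarith
    have e : 1 + f a / (p - f a) = p / (p - f a) := by
      field_simp
      ring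
    rw [e]
    refine (mul_le_mul_of_nonneg_left a3 (by positivity)).trans ?_
    rw [div_mul_div_comm, div_le_div_iff₀ (by positivity) (by linarith)]
    have := mul_nonneg b3.le (mul_nonneg a1 a2)
    linarith

/-- the sieve, also without any form -/
theorem sieve0 (pm : PMStmt) (sv : SVStmt) {ι : Type} {I : Finset ι} {ω : ℕ}
    (hI : I.card = ω) (u v : ι → ℤ) (P : Finset ℕ) (y N : ℕ) (a : ℤ) (hy : 2 ≤ y)
    (hP : ∀ p ∈ P, p.Prime ∧ 4 * ω < p ∧ (∀ h ∈ I, ¬(p : ℤ) ∣ u h) ∧ ∀ h ∈ I, ∀ k ∈ I, h ≠ k →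
      ∀ n : ℤ, (p : ℤ) ∣ u h * n + v h → ¬(p : ℤ) ∣ u k * n + v k)
    (hS : ∑ p ∈ P, Real.log p * (ω / ((p : ℝ) - ω)) ≤ 2 * ω * Real.log y) (T : Finset ℤ)
    (hT : ∀ n ∈ T, a ≤ n ∧ n < a + N ∧ ∀ p ∈ P, ∀ h ∈ I, ¬(p : ℤ) ∣ u h * n + v h) :
    (T.card : ℝ) ≤ 2 * N / ∏ p ∈ P, (1 + (ω : ℝ) / ((p : ℝ) - ω)) + 2 * (y : ℝ) ^ (24 * ω) := by
  rcases Nat.eq_zero_or_pos ω with rfl | hω
  · have h1 : T ⊆ Ico a (a + N) := fun n hn => mem_Ico.2 ⟨(hT n hn).1, (hT n hn).2.1⟩
    have h2 := card_le_card h1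
    rw [Int.card_Ico, add_sub_cancel_left, Int.toNat_natCast] at h2
    have h3 : (T.card : ℝ) ≤ N := by exact_mod_cast h2
    have h4 : (0 : ℝ) ≤ N := Nat.cast_nonneg _
    simp only [Nat.cast_zero, zero_div, add_zero, prod_const_one, div_one, mul_zero, pow_zero]
    linarith
  · exact sieve pm sv hω hI u v P y N a hy hP hS T hT

/-- one coordinate in a residue class that avoids `ω` given values modulo the primes -/
theorem vert (mer : MERStmt) (pm : PMStmt) (sv : SVStmt) {ω M : ℕ}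
    (hM : ∀ p : ℕ, p.Prime → ¬p ∣ M → 4 * ω < p) (h0 : 0 < M) :
    ∃ C : ℝ, 0 ≤ C ∧ ∀ᶠ y : ℕ in atTop, ∀ (L q : ℕ) (r : ℤ) (ι : Type) (I : Finset ι) (b : ι → ℤ)
      (T : Finset ℤ), I.card = ω → 0 < q → q.Coprime M → y ^ (25 * ω) * q ≤ L →
      (∀ p : ℕ, p.Prime → p ≤ y → ¬p ∣ M * q → ∀ h ∈ I, ∀ k ∈ I, h ≠ k → ¬(p : ℤ) ∣ b h - b k) →
      (∀ x ∈ T, x ∈ Icc (-L : ℤ) L ∧ x ≡ r [ZMOD q] ∧
        ∀ p : ℕ, p.Prime → p ≤ y → ¬p ∣ M * q → ∀ h ∈ I, ¬(p : ℤ) ∣ b h - x) →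
      (T.card : ℝ) ≤ C * ((L : ℝ) / q) / Real.log y ^ ω *
        ∏ p ∈ q.primeFactors, (1 + (ω : ℝ) / ((p : ℝ) - ω)) := by
  obtain ⟨-, ⟨C2, m2⟩, -, ⟨c0, hc0, m4⟩, -⟩ := mer
  refine ⟨10 * (2 ^ ω) ^ M.primeFactors.card / c0 ^ ω + 2, by positivity, ?_⟩
  have ev : ∀ᶠ y : ℕ in atTop, 2 * C2 ≤ Real.log y :=
    (Real.tendsto_log_atTop.comp tendsto_natCast_atTop_atTop).eventually_ge_atTop _
  filter_upwards [ev, eventually_ge_atTop 2] with y hy1 hy L q r ι I b T hI hq hc hL hb hT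
  have hl : 0 < Real.log y := Real.log_pos (by exact_mod_cast hy)
  have hy0 : (0 : ℝ) < y := by exact_mod_cast (by omega : 0 < y)
  have hω0 : (0 : ℝ) ≤ ω := Nat.cast_nonneg _
  have hF : ∀ p ∈ q.primeFactors, 4 * ω < p := fun p hp =>
    have hp' := Nat.mem_primeFactors.1 hp
    hM p hp'.1 fun e => hp'.1.one_lt.ne' (Nat.eq_one_of_dvd_coprimes hc hp'.2.1 e)
  set P := (pri 1 y).filter fun p => ¬p ∣ M ∧ p ∉ q.primeFactors with hP
  have hP' : ∀ p ∈ P, p.Prime ∧ p ≤ y ∧ ¬p ∣ M ∧ ¬p ∣ q := fun p hp => by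
    obtain ⟨a1, a2, a3⟩ := mem_filter.1 hp
    obtain ⟨a4, a5⟩ := mem_filter.1 a1
    exact ⟨a5, (mem_Ioc.1 a4).2, a2, fun e => a3 (Nat.mem_primeFactors.2 ⟨a5, e, hq.ne'⟩)⟩
  have hP1 : ∀ p ∈ P, 4 * ω < p := fun p hp => hM p (hP' p hp).1 (hP' p hp).2.2.1
  have hP2 : ∀ p ∈ P, ¬p ∣ M * q := fun p hp e =>
    ((hP' p hp).1.dvd_mul.1 e).elim (hP' p hp).2.2.1 (hP' p hp).2.2.2
  have hs : ∑ p ∈ P, Real.log p * (ω / ((p : ℝ) - ω)) ≤ 2 * ω * Real.log y := by
    have a1 : ∑ p ∈ P, Real.log p * (ω / ((p : ℝ) - ω)) ≤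
        ∑ p ∈ P, 4 / 3 * ω * (Real.log p / p) := by
      refine sum_le_sum fun p hp => ?_
      have h : (4 * ω : ℝ) < p := by exact_mod_cast hP1 p hp
      have : ω / ((p : ℝ) - ω) ≤ 4 / 3 * ω / p := by
        rw [div_le_div_iff₀ (by linarith) (by linarith)]
        have := mul_le_mul_of_nonneg_left h.le hω0
        linarith
      calc Real.log p * (ω / ((p : ℝ) - ω)) ≤ Real.log p * (4 / 3 * ω / p) :=
            mul_le_mul_of_nonneg_left this (Real.log_natCast_nonneg p)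
        _ = 4 / 3 * ω * (Real.log p / p) := by ring
    rw [← mul_sum] at a1
    have a2 : ∑ p ∈ P, Real.log p / p ≤ ∑ p ∈ pri 1 y, Real.log p / p :=
      sum_le_sum_of_subset_of_nonneg (filter_subset _ _) fun p _ _ =>
        div_nonneg (Real.log_natCast_nonneg p) (Nat.cast_nonneg p)
    have a3 := m2 1 y (by omega)
    have a4 : ∑ p ∈ P, Real.log p / p ≤ 3 / 2 * Real.log y := by linarith
    have := mul_le_mul_of_nonneg_left a4 hω0
    linarith
  have hG0 := prod_w_pos hP1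
  have hE1 : 1 ≤ ∏ p ∈ q.primeFactors, (1 + (ω : ℝ) / ((p : ℝ) - ω)) := by
    simpa using prod_sub_le (empty_subset q.primeFactors) fun p hp =>
      le_add_of_nonneg_right (w_nonneg (hF p hp))
  have hlow := le_trans (pow_le_pow_left₀ (a := c0 * Real.log y) (by positivity)
    (by simpa using m4 1 y le_rfl (by omega)) ω) (prod_low hM h0 y _ hF)
  have hq0 : (0 : ℝ) < q := by exact_mod_cast hq
  have hX : (y : ℝ) ^ (25 * ω) ≤ (L : ℝ) / q := by
    rw [le_div_iff₀ hq0]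
    exact_mod_cast hL
  have hy1' : (1 : ℝ) ≤ y := by exact_mod_cast (by omega : 1 ≤ y)
  have hX1 : (1 : ℝ) ≤ (L : ℝ) / q := (one_le_pow₀ hy1').trans hX
  have key : (T.card : ℝ) ≤ 2 * (2 * (2 * L / q) + 1 : ℕ) /
      ∏ p ∈ P, (1 + (ω : ℝ) / ((p : ℝ) - ω)) + 2 * (y : ℝ) ^ (24 * ω) := by
    rcases T.eq_empty_or_nonempty with rfl | ⟨x0, hx0⟩
    · simp only [card_empty, Nat.cast_zero]
      positivity
    have hd : ∀ x ∈ T, ∃ k : ℤ, x = x0 + q * k := fun x hx => by
      obtain ⟨k, e⟩ := ((hT x0 hx0).2.1.trans (hT x hx).2.1.symm).dvd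
      exact ⟨k, by linarith⟩
    choose! k hk using hd
    have hinj : Set.InjOn k T := fun x hx x' hx' e => by rw [hk x hx, hk x' hx', e]
    rw [← card_image_of_injOn hinj]
    refine sieve0 pm sv hI (fun _ => -q) (fun h => b h - x0) P y _ (-(2 * L / q : ℕ)) hy
      (fun p hp => ⟨(hP' p hp).1, hP1 p hp, fun h _ e => ?_, fun h hh g hg hn t e1 e2 => ?_⟩)
      hs _ fun t ht => ?_
    · exact (hP' p hp).2.2.2 (Int.natCast_dvd_natCast.1 (dvd_neg.1 e))
    · refine hb p (hP' p hp).1 (hP' p hp).2.1 (hP2 p hp) h hh g hg hn ?_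
      have := dvd_sub e1 e2
      rwa [show -(q : ℤ) * t + (b h - x0) - (-(q : ℤ) * t + (b g - x0)) = b h - b g by ring] at this
    · obtain ⟨x, hx, rfl⟩ := mem_image.1 ht
      have a1 : (k x).natAbs ≤ 2 * L / q := by
        rw [Nat.le_div_iff_mul_le hq]
        have b1 := mem_Icc.1 (hT x hx).1
        have b2 := mem_Icc.1 (hT x0 hx0).1
        have b3 := hk x hx
        have b4 : ((q : ℤ) * k x).natAbs ≤ 2 * L := by omega
        rwa [Int.natAbs_mul, Int.natAbs_natCast, mul_comm] at b4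
      refine ⟨by omega, by omega, fun p hp h hh e => ?_⟩
      refine (hT x hx).2.2 p (hP' p hp).1 (hP' p hp).2.1 (hP2 p hp) h hh ?_
      rwa [show b h - x = -(q : ℤ) * k x + (b h - x0) by linarith [hk x hx]]
  refine key.trans ?_
  generalize ∏ p ∈ P, (1 + (ω : ℝ) / ((p : ℝ) - ω)) = G at hG0 hlow
  generalize ∏ p ∈ q.primeFactors, (1 + (ω : ℝ) / ((p : ℝ) - ω)) = E at hE1 hlow
  have hK0 : (0 : ℝ) < (2 ^ ω) ^ M.primeFactors.card := by positivity
  generalize ((2 : ℝ) ^ ω) ^ M.primeFactors.card = K at hK0 hlow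
  have a1 : ((2 * (2 * L / q) + 1 : ℕ) : ℝ) ≤ 5 * ((L : ℝ) / q) := by
    have b1 : ((2 * L / q : ℕ) : ℝ) ≤ ((2 * L : ℕ) : ℝ) / q := Nat.cast_div_le
    rw [Nat.cast_mul, Nat.cast_ofNat, mul_div_assoc] at b1
    rw [Nat.cast_add, Nat.cast_mul, Nat.cast_ofNat, Nat.cast_one]
    linarith
  generalize (L : ℝ) / q = X at hX hX1 a1
  have a2 : 1 / G ≤ K * E / (c0 * Real.log y) ^ ω := by
    rw [div_le_div_iff₀ hG0 (by positivity)]
    linarith
  have a3 : 2 * ((2 * (2 * L / q) + 1 : ℕ) : ℝ) / G ≤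
      10 * K / c0 ^ ω * (X * E / Real.log y ^ ω) := by
    calc 2 * ((2 * (2 * L / q) + 1 : ℕ) : ℝ) / G
        = 2 * ((2 * (2 * L / q) + 1 : ℕ) : ℝ) * (1 / G) := by ring
      _ ≤ 2 * (5 * X) * (K * E / (c0 * Real.log y) ^ ω) :=
        mul_le_mul (by linarith) a2 (by positivity) (by positivity)
      _ = _ := by
        rw [mul_pow]
        field_simp
        ring
  have a4 : (y : ℝ) ^ (24 * ω) ≤ X * E / Real.log y ^ ω := by
    rw [le_div_iff₀ (by positivity)]
    have b1 : Real.log y ^ ω ≤ (y : ℝ) ^ ω :=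
      pow_le_pow_left₀ hl.le ((Real.log_le_sub_one_of_pos hy0).trans (by linarith)) ω
    calc (y : ℝ) ^ (24 * ω) * Real.log y ^ ω ≤ (y : ℝ) ^ (24 * ω) * (y : ℝ) ^ ω :=
          mul_le_mul_of_nonneg_left b1 (by positivity)
      _ = (y : ℝ) ^ (25 * ω) := by ring
      _ ≤ X := hX
      _ ≤ X * E := le_mul_of_one_le_right (by linarith) hE1
  have a5 : (10 * K / c0 ^ ω + 2) * X / Real.log y ^ ω * E =
      10 * K / c0 ^ ω * (X * E / Real.log y ^ ω) + 2 * (X * E / Real.log y ^ ω) := by ring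
  linarith

end Siv

open Siv Classical in
theorem siv : COMBStmt → VTXStmt → MERStmt → PMStmt → SVStmt → SIVStmt := by
  intro comb vtx mer pm sv m M hm h0 hS
  obtain ⟨⟨n1, n2, -⟩, -⟩ := comb m hm
  have big : ∀ p : ℕ, p.Prime → ¬p ∣ M → 2 * m ^ 2 < p := fun p hp h =>
    lt_of_not_ge fun e => h (hS p hp e)
  have hj : ∀ j : Fin m, ∀ p : ℕ, p.Prime → ¬p ∣ M → 4 * j.1 < p := fun j p hp h => by
    have a1 := big p hp h
    have a2 := j.2
    have a3 : 2 * m ≤ m ^ 2 := by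
      rw [sq]
      exact Nat.mul_le_mul_right m (by omega)
    omega
  choose C C0 hC using fun j : Fin m => vert mer pm sv (hj j) h0
  refine ⟨∏ j, C j, prod_nonneg fun j _ => C0 j, ?_⟩
  filter_upwards [eventually_all.2 hC, eventually_ge_atTop 2] with y hy hy2 L q a0 hq hc hL
  have hF : ∀ p ∈ q.primeFactors, ¬p ∣ M := fun p hp e =>
    have hp' := Nat.mem_primeFactors.1 hp
    hp'.1.one_lt.ne' (Nat.eq_one_of_dvd_coprimes hc hp'.2.1 e)
  have hl : 0 ≤ Real.log y := Real.log_natCast_nonneg y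
  have hw : ∀ j : Fin m, ∀ p ∈ q.primeFactors, (0 : ℝ) ≤ 1 + (j.1 : ℝ) / ((p : ℝ) - j.1) :=
    fun j p hp => add_nonneg zero_le_one
      (w_nonneg (hj j p (Nat.prime_of_mem_primeFactors hp) (hF p hp)))
  have h1 := vtx m (fun _ => Icc (-L : ℤ) L)
    (fun j a => a j ≡ a0 j [ZMOD q] ∧ ∀ p : ℕ, p.Prime → p ≤ y → ¬p ∣ M * q →
      ∀ i, i < j → ¬(p : ℤ) ∣ a i - a j)
    (fun j => C j * ((L : ℝ) / q) / Real.log y ^ j.1 *
      ∏ p ∈ q.primeFactors, (1 + (j.1 : ℝ) / ((p : ℝ) - j.1)))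
    (fun j => mul_nonneg (div_nonneg (mul_nonneg (C0 j) (by positivity)) (pow_nonneg hl _))
      (prod_nonneg (hw j)))
    (fun j a a' e h => ⟨e j le_rfl ▸ h.1, fun p p1 p2 p3 i hi => by
      rw [← e j le_rfl, ← e i hi.le]
      exact h.2 p p1 p2 p3 i hi⟩)
    (fun j a ha => hy j L q (a0 j) (Fin m) (Iio j) a _ (Fin.card_Iio j) hq hc
      ((Nat.mul_le_mul_right q (Nat.pow_le_pow_right (by omega) (by have := j.2; omega))).trans hL)
      (fun p p1 p2 p3 h hh k hk hn => by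
        rcases lt_or_gt_of_ne hn with e | e
        · exact (ha k (mem_Iio.1 hk)).2.2 p p1 p2 p3 h e
        · rw [dvd_sub_comm]
          exact (ha h (mem_Iio.1 hh)).2.2 p p1 p2 p3 k e)
      fun x hx => by
        simp only [mem_filter, Function.update_self] at hx
        obtain ⟨b1, b2, b3⟩ := hx
        refine ⟨b1, b2, fun p p1 p2 p3 h hh => ?_⟩
        have := b3 p p1 p2 p3 h (mem_Iio.1 hh)
        rwa [Function.update_of_ne (mem_Iio.1 hh).ne] at this)
  refine le_trans (Nat.cast_le.2 (card_le_card fun a ha => ?_)) (h1.trans ?_)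
  · simp only [mem_filter] at ha ⊢
    obtain ⟨b1, b2, b3⟩ := ha
    exact ⟨b1, fun j => ⟨b2 j, fun p p1 p2 p3 i hi => b3 p p1 p2 p3 i j hi.ne⟩⟩
  · have n3 : ∑ j : Fin m, j.1 = NE m := by rw [n1, sum_range fun j => j]
    rw [prod_mul_distrib, prod_div_distrib, prod_mul_distrib, prod_const, card_univ,
      Fintype.card_fin, prod_pow_eq_pow_sum, n3, Finset.prod_comm]
    refine mul_le_mul_of_nonneg_left (prod_le_prod (fun p hp => prod_nonneg fun j _ => hw j p hp)
      fun p hp => ?_) (div_nonneg (mul_nonneg (prod_nonneg fun j _ => C0 j) (by positivity))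
        (pow_nonneg hl _))
    have b1 := big p (Nat.prime_of_mem_primeFactors hp) (hF p hp)
    have b2 : ∑ j : Fin m, (j.1 : ℝ) = NE m := by rw [← n3, Nat.cast_sum]
    rw [← b2]
    refine prod_le univ (fun j : Fin m => (j.1 : ℝ)) p (fun j _ => Nat.cast_nonneg _) ?_
    rw [b2]
    exact_mod_cast (by omega : NE m < p)

end Pool.Agent.MP_a43263_nt.JU

end

end MrgPart0

-- ======== part 1: formerly Pool.Agent.MP_a43263_nt.JU.Step
section MrgPart1

/-! PROJECT JU, module STEP: one new prime contracts each level of the kernel up to the lower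
levels. -/

set_option autoImplicit false

noncomputable section

namespace Pool.Agent.MP_a43263_nt.JU

open Finset
open R2 (Sgn chi Ker sg mem_Ker symmDiff_mem_Ker prod_symmDiff chi_eq_rows chi_comm)
open RG (BORStmt)

namespace Step

variable {m : ℕ} {D : Dat m} {A : Finset (Ed m)} {W x y : Finset (Gen m)} {b : Gen m}

theorem mem_KA : x ∈ KA D A W ↔ (x ⊆ D.W0 ∪ W ∧ ∀ b ∈ D.W0 ∪ W, ∏ a ∈ x, D.gs a b = 1) ∧
    ∀ b ∈ x, b ∈ D.W0 ∨ b.1.1 ∈ A := by
  rw [KA, mem_filter, mem_Ker]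

theorem KA_add (hg : Sgn D.gs) (hx : x ∈ KA D A W) (hy : y ∈ KA D A W) :
    symmDiff x y ∈ KA D A W :=
  mem_filter.2 ⟨symmDiff_mem_Ker hg (mem_filter.1 hx).1 (mem_filter.1 hy).1, fun b hb =>
    (mem_union.1 (symmDiff_subset_union hb)).elim ((mem_filter.1 hx).2 b) ((mem_filter.1 hy).2 b)⟩

theorem KA_down {W' : Finset (Gen m)} (h : W ⊆ W') (hx : x ∈ KA D A W') (hs : x ⊆ D.W0 ∪ W) :
    x ∈ KA D A W :=
  mem_KA.2 ⟨⟨hs, fun b hb => (mem_KA.1 hx).1.2 b (union_subset_union Subset.rfl h hb)⟩,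
    (mem_KA.1 hx).2⟩

theorem grow (hg : Sgn D.gs) (X : Finset (Gen m)) :
    (KA D A (W ∪ X)).card ≤ (KA D A W).card * 2 ^ X.card := by
  rw [← card_powerset]
  refine card_le_mul_card_image_of_maps_to (f := fun x => X.filter fun a => a ∈ x)
    (fun x _ => mem_powerset.2 (filter_subset _ _)) _ fun T _ => ?_
  rcases ((KA D A (W ∪ X)).filter fun x => (X.filter fun a => a ∈ x) = T).eq_empty_or_nonempty
    with h | ⟨x₀, h₀⟩
  · rw [h]
    exact Nat.zero_le _
  obtain ⟨h₀, e₀⟩ := mem_filter.1 h₀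
  refine card_le_card_of_injOn (fun x => symmDiff x x₀) (fun x hx => ?_)
    fun _ _ _ _ e => symmDiff_left_injective _ e
  obtain ⟨hx, e⟩ := mem_filter.1 (mem_coe.1 hx)
  have h1 := KA_add hg hx h₀
  refine mem_coe.2 (KA_down subset_union_left h1 fun a ha => ?_)
  refine mem_union.2 ((mem_union.1 ((mem_KA.1 h1).1.1 ha)).imp id fun k =>
    (mem_union.1 k).resolve_right fun k1 => ?_)
  have := congrArg (a ∈ ·) (e.trans e₀.symm)
  simp only [mem_filter, k1, true_and, eq_iff_iff] at this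
  rw [mem_symmDiff] at ha
  tauto

theorem erase_sub (hx : x ∈ KA D A (insert b W)) : x.erase b ⊆ D.W0 ∪ W := fun _ ha =>
  mem_union.2 ((mem_union.1 ((mem_KA.1 hx).1.1 (mem_of_mem_erase ha))).imp id fun k =>
    (mem_insert.1 k).resolve_left (ne_of_mem_erase ha))

theorem old (hx : x ∈ KA D A (insert b W)) (hb : b ∉ x) :
    x ∈ (KA D A W).filter fun x => ∏ a ∈ x, D.gs a b = 1 :=
  mem_filter.2 ⟨KA_down (subset_insert _ _) hx (erase_eq_of_notMem hb ▸ erase_sub hx),
    (mem_KA.1 hx).1.2 b (mem_union_right _ (mem_insert_self _ _))⟩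

theorem card_old (h : ∀ x ∈ KA D A (insert b W), b ∉ x) : (KA D A (insert b W)).card ≤
    ((KA D A W).filter fun x => ∏ a ∈ x, D.gs a b = 1).card :=
  card_le_card fun x hx => old hx (h x hx)

theorem card_new (hg : Sgn D.gs) : (KA D A (insert b W)).card ≤
    2 * ((KA D A W).filter fun x => ∏ a ∈ x, D.gs a b = 1).card := by
  by_cases h : ∀ x ∈ KA D A (insert b W), b ∉ x
  · have := card_old h
    omega
  push Not at h
  obtain ⟨z, hz, h⟩ := h
  rw [← card_filter_add_card_filter_not (s := KA D A (insert b W)) (b ∈ ·), two_mul]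
  refine add_le_add (card_le_card_of_injOn (fun x => symmDiff x z) (fun x hx => ?_)
    fun _ _ _ _ e => symmDiff_left_injective _ e)
    (card_le_card fun x hx => old (mem_filter.1 hx).1 (mem_filter.1 hx).2)
  obtain ⟨hx, e⟩ := mem_filter.1 (mem_coe.1 hx)
  refine mem_coe.2 (old (KA_add hg hx hz) fun k => ?_)
  rw [mem_symmDiff] at k
  tauto

/-- the new generator occurs for at most one of two equal columns with different diagonals -/
theorem two (hg : Sgn D.gs) {b' : Gen m} (hc : ∀ c ∈ D.W0 ∪ W, D.gs c b = D.gs c b')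
    (h1 : D.gs b b = 1) (h2 : D.gs b' b' = -1) (hx : x ∈ KA D A (insert b W)) (hb : b ∈ x)
    (hy : y ∈ KA D A (insert b' W)) (hb' : b' ∈ y) : False := by
  have up : ∀ {d c : Gen m}, c ∈ D.W0 ∪ W → c ∈ D.W0 ∪ insert d W := fun k =>
    union_subset_union Subset.rfl (subset_insert _ _) k
  have rx := (mem_KA.1 hx).1.2
  have ry := (mem_KA.1 hy).1.2
  have sz : symmDiff (x.erase b) (y.erase b') ⊆ D.W0 ∪ W :=
    symmDiff_subset_union.trans (union_subset (erase_sub hx) (erase_sub hy))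
  have rz : ∀ c ∈ D.W0 ∪ W, ∏ a ∈ symmDiff (x.erase b) (y.erase b'), D.gs a c = 1 := by
    intro c k
    have e1 := rx c (up k)
    have e2 := ry c (up k)
    rw [← mul_prod_erase _ _ hb, hg.1 b c] at e1
    rw [← mul_prod_erase _ _ hb', hg.1 b' c, ← hc c k] at e2
    rw [prod_symmDiff fun a => hg.2 a c]
    rcases hg.2 c b with e | e <;> rw [e] at e1 e2
    · rw [one_mul] at e1 e2
      rw [e1, e2, one_mul]
    · rw [neg_one_mul, neg_eq_iff_eq_neg] at e1 e2
      rw [e1, e2]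
      norm_num
  have e1 := rx b (mem_union_right _ (mem_insert_self _ _))
  have e2 := ry b' (mem_union_right _ (mem_insert_self _ _))
  rw [← mul_prod_erase _ _ hb, h1, one_mul] at e1
  rw [← mul_prod_erase _ _ hb', h2, neg_one_mul, neg_eq_iff_eq_neg,
    ← prod_congr rfl fun c k => hc c (erase_sub hy k)] at e2
  have c1 : chi D.gs x (symmDiff (x.erase b) (y.erase b')) = 1 := by
    rw [chi_eq_rows]
    exact prod_eq_one fun c k => rx c (up (sz k))
  rw [chi_comm hg, chi_eq_rows, ← mul_prod_erase _ _ hb,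
    prod_eq_one fun c k => rz c (erase_sub hx k), prod_symmDiff fun a => hg.2 a b, e1, e2] at c1
  norm_num at c1

theorem lk_symm {e f : Ed m} (h : lk e f) : lk f e := by
  obtain ⟨h1, h2⟩ := h
  refine ⟨h1.symm, ?_⟩
  unfold inE at *
  rcases h2 with (k | k) | (k | k) <;> simp [k]

end Step

open Step in
theorem step : COMBStmt → BORStmt → KCStmt → STEPStmt := by
  classical
  intro hC _ hK m D hD
  obtain ⟨⟨-, -, n3⟩, c1, c2, -⟩ := hC m hD.three
  obtain ⟨k1, k2, k3, -⟩ := hK m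
  have hg : Sgn D.gs := k1 _
  refine ⟨fun A W X => (grow hg X).trans_eq (mul_comm _ _), fun W => ?_,
    fun A hA W P w hW hd hP hch => ?_⟩
  · rw [← card_powerset]
    exact card_le_card fun x hx => mem_powerset.2 fun b hb =>
      ((mem_KA.1 hx).2 b hb).resolve_right (notMem_empty _)
  set δ := ∑ p ∈ P, w p with hδ
  have hδ0 : 0 ≤ δ := sum_nonneg fun p hp => (hP p hp).2.2.1
  have N3 : (3 : ℝ) ≤ NE m := by exact_mod_cast n3
  have pr : ∀ x ∈ KA D A W, ∀ a ∈ x, a.2 = 1 ∨ a.2.Prime := fun x hx a ha =>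
    (mem_union.1 ((mem_KA.1 hx).1.1 ha)).elim (fun k => (hD.fix a k).2.imp id (·.1))
      fun k => Or.inr (hW a k).2.1
  have dv : ∀ x ∈ KA D A W, ∀ (e : Ed m) (p : ℕ), p.Prime → (p : ℤ) ∣ Gv e x →
      p ∣ D.M ∨ ∃ t, (t, p) ∈ W := by
    intro x hx e p hp h
    obtain ⟨a, ha, rfl, -⟩ := (k3 x e (pr x hx)).2.1 p hp h
    exact (mem_union.1 ((mem_KA.1 hx).1.1 ha)).imp
      (fun k => ((hD.fix a k).2.resolve_left hp.ne_one).2) fun k => ⟨a.1, k⟩
  have new : ∀ (e : Ed m) (s : Bool), ∀ p ∈ P, ((e, some s), p) ∉ D.W0 ∪ W := fun e s p hp k =>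
    (mem_union.1 k).elim (fun k => by simpa using (hD.fix _ k).1)
      fun k => (hP p hp).2.2.2 _ k rfl
  have row : ∀ (e : Ed m) (s : Bool), ∀ p ∈ P,
      ((KA D A W).filter fun x => ∏ a ∈ x, D.gs a ((e, some s), p) = 1) =
        (KA D A W).filter fun x => jacobiSym (Gv e x) p = 1 := by
    intro e s p hp
    obtain ⟨p1, p2, -, p4⟩ := hP p hp
    refine filter_congr fun x hx => ?_
    have o : Odd p := p1.odd_of_ne_two fun k => p2 (hD.sm p p1 (by nlinarith [hD.three]))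
    have : ¬(p : ℤ) ∣ Gv e x := fun k =>
      (dv x hx e p p1 k).elim p2 fun ⟨t, k⟩ => p4 _ k rfl
    rw [Dat.gs, k2 _ x ((e, some s), p) (fun k => new e s p hp ((mem_KA.1 hx).1.1 k)) o p1.one_lt
      (jacobiSym.ne_zero (Int.isCoprime_iff_gcd_eq_one.1
        ((Nat.prime_iff_prime_int.1 p1).irreducible.coprime_iff_not_dvd.2 this).symm))]
  have pair : ∀ e : Ed m, ∀ p ∈ P, w p / 2 * (KA D A (insert ((e, some true), p) W)).card +
      w p / 2 * (KA D A (insert ((e, some false), p) W)).card ≤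
      ∑ x ∈ KA D A W, (if e ∈ A then 3 / 2 else 1) * (w p * ((1 + jacobiSym (Gv e x) p) / 2)) := by
    intro e p hp
    have w0 := (hP p hp).2.2.1
    have h1 : (((KA D A W).filter fun x => jacobiSym (Gv e x) p = 1).card : ℝ) ≤
        ∑ x ∈ KA D A W, (1 + (jacobiSym (Gv e x) p : ℝ)) / 2 := by
      rw [card_filter]
      push_cast
      refine sum_le_sum fun x _ => ?_
      rcases jacobiSym.trichotomy (Gv e x) p with k | k | k <;> rw [k] <;> norm_num
    have h2 : (((KA D A (insert ((e, some true), p) W)).card : ℝ) +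
        (KA D A (insert ((e, some false), p) W)).card) ≤ 2 * (if e ∈ A then 3 / 2 else 1) *
        (((KA D A W).filter fun x => jacobiSym (Gv e x) p = 1).card : ℝ) := by
      have a1 := fun s => row e s p hp ▸ card_new (A := A) (W := W) (b := ((e, some s), p)) hg
      have a2 := fun s h => row e s p hp ▸ card_old (D := D) (A := A) (W := W)
        (b := ((e, some s), p)) h
      split_ifs with h
      · have : (KA D A (insert ((e, some true), p) W)).card +
            (KA D A (insert ((e, some false), p) W)).card ≤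
            3 * ((KA D A W).filter fun x => jacobiSym (Gv e x) p = 1).card := by
          by_cases h3 : ∀ x ∈ KA D A (insert ((e, some true), p) W), ((e, some true), p) ∉ x
          · have := a2 true h3
            have := a1 false
            omega
          push Not at h3
          obtain ⟨x, hx, h3⟩ := h3
          have := a2 false fun y hy h4 => two hg (fun c k => by
            have n : ∀ s, c ≠ ((e, some s), p) := fun s j => new e s p hp (j ▸ k)
            rw [Dat.gs, gm, gm, if_neg (n true), if_neg (n false)]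
            rfl) (by simp [Dat.gs, gm, Dat.dgs, sg]) (by simp [Dat.gs, gm, Dat.dgs, sg]) hx h3 hy h4
          have := a1 true
          omega
        have := (Nat.cast_le (α := ℝ)).2 this
        push_cast at this
        linarith
      · have a3 := fun s => (Nat.cast_le (α := ℝ)).2 (a2 s fun x hx k =>
          ((mem_KA.1 hx).2 _ k).elim (fun j => new e s p hp (mem_union_left _ j)) h)
        linarith [a3 true, a3 false]
    rw [← mul_sum, ← mul_sum]
    have h3 : (0 : ℝ) ≤ if e ∈ A then 3 / 2 else 1 := by split_ifs <;> norm_num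
    nlinarith [mul_le_mul_of_nonneg_left h2 w0, mul_le_mul_of_nonneg_left h1 (mul_nonneg w0 h3)]
  have sp : ∀ (x : Finset (Gen m)) (e : Ed m), ∑ p ∈ P, w p * ((1 + jacobiSym (Gv e x) p) / 2) =
      (δ + ∑ p ∈ P, w p * jacobiSym (Gv e x) p) / 2 := fun x e => by
    rw [← sum_add_distrib, sum_div]
    exact sum_congr rfl fun p _ => by ring
  have triv : ∀ (x : Finset (Gen m)) (e : Ed m), ∑ p ∈ P, w p * jacobiSym (Gv e x) p ≤ δ :=
    fun x e => sum_le_sum fun p hp => mul_le_of_le_one_right (hP p hp).2.2.1 (by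
      rcases jacobiSym.trichotomy (Gv e x) p with k | k | k <;> simp [k])
  have each : ∀ x ∈ KA D A W, ∑ e : Ed m, (if e ∈ A then 3 / 2 else 1) *
      ((δ + ∑ p ∈ P, w p * jacobiSym (Gv e x) p) / 2) ≤ (NE m - 1 / 8) * δ +
        if ∃ f ∈ A, x ∈ KA D (A.erase f) W then 2 * NE m * δ else 0 := by
    intro x hx
    split_ifs with h
    · refine (sum_le_card_nsmul _ _ (3 / 2 * δ) fun e _ => ?_).trans ?_
      · have := triv x e
        split_ifs <;> linarith
      · rw [card_univ, nsmul_eq_mul, ← NE]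
        nlinarith
    have bias : ∀ e ∈ nbr A, ∑ p ∈ P, w p * jacobiSym (Gv e x) p ≤ 1 / (8 * NE m) * δ := by
      intro e he
      obtain ⟨f, hf, l⟩ := (mem_filter.1 he).2
      obtain ⟨a, ha, a0, rfl⟩ : ∃ a ∈ x, a ∉ D.W0 ∧ a.1.1 = f := by
        by_contra k
        refine h ⟨f, hf, mem_KA.2 ⟨(mem_KA.1 hx).1, fun a ha => ?_⟩⟩
        by_cases a0 : a ∈ D.W0
        · exact Or.inl a0
        · exact Or.inr (mem_erase.2 ⟨fun j => k ⟨a, ha, a0, j⟩,
            ((mem_KA.1 hx).2 a ha).resolve_left a0⟩)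
      have a1 := (mem_union.1 ((mem_KA.1 hx).1.1 ha)).resolve_left a0
      obtain ⟨-, a2, a3⟩ := hW a a1
      obtain ⟨g1, -, g2⟩ := k3 x e (pr x hx)
      refine (le_abs_self _).trans (hch _ g1 ?_ (dv x hx e))
      rw [← mul_one (Gv e x)]
      refine g2 a ha a2 l (fun c hc j _ => hd c ((mem_union.1 ((mem_KA.1 hx).1.1 hc)).resolve_left
        fun k => ?_) a a1 j) 1 (Nat.prime_iff_prime_int.1 a2).not_dvd_one
      exact (hD.fix c k).2.elim (fun i => a2.ne_one (j ▸ i)) fun i => a3 (j ▸ i.2)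
    set β : ℝ := 1 / (8 * NE m) with hβ
    have β0 : 0 ≤ β * δ := by positivity
    have β1 : NE m * β = 1 / 8 := by rw [hβ]; field_simp
    refine (sum_le_sum (g := fun e => δ + 3 / 4 * (β * δ) + (if e ∈ A \ nbr A then δ / 2 else 0) -
      (if e ∈ nbr A \ A then δ / 4 else 0) - if e ∈ nbr A then δ / 4 else 0) fun e _ => ?_).trans ?_
    · have := triv x e
      by_cases h1 : e ∈ nbr A
      · have := bias e h1
        by_cases h2 : e ∈ A <;> simp only [mem_sdiff, h1, h2, not_true, not_false_iff, and_true,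
          and_false, if_true, if_false] <;> linarith
      · by_cases h2 : e ∈ A <;> simp only [mem_sdiff, h1, h2, not_true, not_false_iff, and_true,
          and_false, if_true, if_false] <;> linarith
    rw [sum_sub_distrib, sum_sub_distrib, sum_add_distrib, sum_ite_mem, sum_ite_mem, sum_ite_mem,
      univ_inter, univ_inter, univ_inter]
    simp only [sum_const, card_univ, nsmul_eq_mul]
    rw [← NE]
    have d1 : 2 * ((A \ nbr A).card : ℝ) ≤ (nbr A \ A).card := by exact_mod_cast c1 A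
    have d2 : (1 : ℝ) ≤ (nbr A).card := by
      obtain ⟨e, he⟩ := hA
      obtain ⟨f, hf⟩ := c2 e
      have : f ∈ nbr A := mem_filter.2 ⟨mem_univ _, e, he, lk_symm hf⟩
      exact_mod_cast card_pos.2 ⟨f, this⟩
    have d3 : NE m * (β * δ) = 1 / 8 * δ := by rw [← mul_assoc, β1]
    nlinarith [mul_le_mul_of_nonneg_left d1 hδ0, mul_le_mul_of_nonneg_left d2 hδ0]
  have tags : (univ.filter fun t : Tag m => t.2 ≠ none) = univ ×ˢ {some true, some false} := by
    ext ⟨e, _ | _ | _⟩ <;> simp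
  rw [TS, tags, sum_product, sum_product]
  simp only [sum_pair (show (some true : Option Bool) ≠ some false by simp), ← sum_add_distrib]
  refine (sum_le_sum fun e _ => sum_le_sum (pair e)).trans ?_
  rw [sum_congr rfl fun e _ => sum_comm, sum_comm]
  simp only [← mul_sum, sp]
  refine (sum_le_sum each).trans ?_
  rw [sum_add_distrib, ← sum_filter, sum_const, sum_const, nsmul_eq_mul, nsmul_eq_mul, mul_comm,
    mul_comm (_ : ℝ) (2 * NE m * δ)]
  refine add_le_add le_rfl (mul_le_mul_of_nonneg_left ?_ (by positivity))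
  rw [← Nat.cast_sum, Nat.cast_le]
  refine le_trans (card_le_card fun x hx => ?_) card_biUnion_le
  exact mem_biUnion.2 (mem_filter.1 hx).2

end Pool.Agent.MP_a43263_nt.JU

end
end MrgPart1

-- ======== part 2: formerly Pool.Agent.MP_a43263_nt.JU.NodeA
section MrgPart2

/-! PROJECT JU, rows GDP and NODE, first part: closed points as norms from finite extensions. -/

set_option autoImplicit false

namespace Pool.Agent.MP_a43263_nt.JU.Node

open Polynomial Finset IntermediateField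
open JC (fp nb)

theorem nb_norm {K L : Type} [Field K] [Field L] [Algebra K L] (pb : PowerBasis K L) (c : K) :
    nb (minpoly K pb.gen) c = Algebra.norm K (pb.gen - algebraMap K L c) := by
  rw [Algebra.norm_eq_matrix_det pb.basis, nb, pb.natDegree_minpoly, ← charpoly_leftMulMatrix,
    Matrix.eval_charpoly, map_sub, AlgHom.commutes, ← neg_sub, Matrix.det_neg, Fintype.card_fin,
    ← mul_assoc, ← mul_pow]
  simp [Matrix.algebraMap_eq_diagonal, Pi.algebraMap_def]

variable {p : ℕ} [Fact p.Prime]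

section
variable {L : Type} [Field L] [Algebra ℚ_[p] L] (φ : L →ₐ[ℚ_[p]] PadicAlgCl p)

theorem norm_emb (σ : L →ₐ[ℚ_[p]] PadicAlgCl p) (z : L) : ‖σ z‖ = ‖φ z‖ := by
  rw [← PadicAlgCl.spectralNorm_eq, ← PadicAlgCl.spectralNorm_eq, spectralNorm, spectralNorm,
    minpoly.algHom_eq σ σ.injective, minpoly.algHom_eq φ φ.injective]

theorem norm_alg (c : ℚ_[p]) : ‖φ (algebraMap _ L c)‖ = ‖c‖ := by
  rw [φ.commutes]; exact PadicAlgCl.norm_extends p c

/-- the size of a norm -/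
theorem norm_N [FiniteDimensional ℚ_[p] L] (z : L) :
    ‖Algebra.norm ℚ_[p] z‖ = ‖φ z‖ ^ Module.finrank ℚ_[p] L := by
  rw [← PadicAlgCl.norm_extends]
  refine (congrArg _ (Algebra.norm_eq_prod_embeddings ℚ_[p] (PadicAlgCl p) z)).trans ?_
  rw [norm_prod, prod_congr rfl fun σ _ => norm_emb φ σ z, prod_const, card_univ, AlgHom.card]

/-- elements close to `1` are squares -/
theorem sq_near {z : L} (h : ‖φ z - 1‖ < ‖(4 : ℚ_[p])‖) : IsSquare z := by
  obtain ⟨t, ⟨s, rfl⟩, e⟩ := JC.Cst.sqrt_mem φ.fieldRange ⟨z, rfl⟩ h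
  exact ⟨s, φ.injective (by rw [map_mul, ← sq]; exact e.symm)⟩

/-- the product of two elements that are close to each other is a square -/
theorem sq_mul {x y : L} (h : ‖φ (x - y)‖ < ‖(4 : ℚ_[p])‖ * ‖φ y‖) : IsSquare (x * y) := by
  rw [map_sub] at h
  obtain ⟨h0, h1⟩ := JC.Cst.near_div h
  have hy : y ≠ 0 := fun e => h0 (by rw [e, map_zero])
  obtain ⟨s, hs⟩ := sq_near φ (z := x / y) (by rwa [map_div₀])
  exact ⟨s * y, by rw [← div_mul_cancel₀ x hy, hs]; ring⟩

end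

/-- the induction principle with norms from finite extensions -/
theorem ind (wq : WQStmt) {ι : Type} [Fintype ι] (a : ι → ℚ_[p]) (P : (ι → ℚ_[p]) → Prop)
    (h1 : ∀ κ : ℚ_[p], κ ≠ 0 → P fun _ => κ) (h2 : ∀ D E, P D → P E → P fun i => D i * E i)
    (h3 : ∀ D E : ι → ℚ_[p], (∀ i, D i ≠ 0 ∧ E i ≠ 0 ∧ IsSquare (D i * E i)) → P D → P E)
    (h4 : ∀ (L : Type) [Field L] [Algebra ℚ_[p] L] [FiniteDimensional ℚ_[p] L]
      (_ : L →ₐ[ℚ_[p]] PadicAlgCl p) (θ w : L), (∀ i, θ - algebraMap _ L (a i) ≠ 0) →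
      ∏ i, (θ - algebraMap _ L (a i)) = w ^ 2 →
      P fun i => Algebra.norm ℚ_[p] (θ - algebraMap _ L (a i))) : ∀ D, Wq a D → P D := by
  refine (wq _ ι a).2.2.2 P h1 h2 h3 fun π V hm hi hd h0 => ?_
  obtain ⟨x, hx⟩ :=
    IsAlgClosed.exists_aeval_eq_zero (PadicAlgCl p) π (degree_pos_of_irreducible hi).ne'
  have int : IsIntegral ℚ_[p] x := Algebra.IsIntegral.isIntegral x
  have := adjoin.finiteDimensional int
  have em : π = minpoly ℚ_[p] (adjoin.powerBasis int).gen := by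
    rw [adjoin.powerBasis_gen, minpoly_gen]
    exact minpoly.eq_of_irreducible_of_monic hi hx hm
  have e : ∀ c, nb π c = _ := fun c => em ▸ nb_norm (adjoin.powerBasis int) c
  simp only [e]
  refine h4 _ (IntermediateField.val _) _ (aeval (adjoin.powerBasis int).gen V) (fun i c => ?_) ?_
  · exact JC.Val.nb_ne (h0 i) (by rw [e, c, Algebra.norm_zero])
  · have e0 := aeval_eq_zero_of_dvd_aeval_eq_zero hd (em ▸ minpoly.aeval ℚ_[p] _)
    simp only [fp, map_sub, map_pow, map_prod, aeval_X, aeval_C] at e0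
    exact sub_eq_zero.1 e0

end Pool.Agent.MP_a43263_nt.JU.Node

end MrgPart2

-- ======== part 3: formerly Pool.Agent.MP_a43263_nt.JU.Node
section MrgPart3

/-! PROJECT JU, rows GDP and NODE: primes of good and of nodal reduction. -/

set_option autoImplicit false

namespace Pool.Agent.MP_a43263_nt.JU

open Polynomial Finset IntermediateField
open JC.Val (val_eq val_prod val_sq ultra)

namespace Node

variable {p : ℕ} [Fact p.Prime]

theorem four_eq (hp : p ≠ 2) : ‖(4 : ℚ_[p])‖ = 1 := by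
  have h : ‖((4 : ℕ) : ℚ_[p])‖ = 1 := Padic.norm_natCast_eq_one_iff.2
    ((Nat.coprime_primes Fact.out Nat.prime_two).2 hp |>.pow_right 2)
  exact_mod_cast h

theorem val_cong {x y : ℚ_[p]} (h : x ≠ 0 ∧ y ≠ 0 ∧ IsSquare (x * y)) :
    Even (x.valuation + y.valuation) :=
  Padic.valuation_mul h.1 h.2.1 ▸ val_sq (mul_ne_zero h.1 h.2.1) h.2.2

variable {L : Type} [Field L] [Algebra ℚ_[p] L] (φ : L →ₐ[ℚ_[p]] PadicAlgCl p)

/-- the value group does not grow when the root of a unit that is not a square is adjoined -/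
theorem size (hp : p ≠ 2) {γ : ℚ_[p]} (h1 : ‖γ‖ = 1) (hγ : ¬IsSquare γ) {t : L}
    (ht : t * t = algebraMap _ L γ) (x y : ℚ_[p]) :
    ∃ s : ℚ_[p], ‖φ (algebraMap _ L x + algebraMap _ L y * t)‖ = ‖s‖ := by
  have nt : ‖φ t‖ = 1 := by
    have := norm_alg φ γ
    rw [← ht, map_mul, norm_mul, h1] at this
    nlinarith [norm_nonneg (φ t)]
  have ny : ‖φ (algebraMap _ L y * t)‖ = ‖y‖ := by rw [map_mul, norm_mul, nt, mul_one, norm_alg]
  rcases lt_trichotomy ‖x‖ ‖y‖ with c | c | c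
  · exact ⟨y, by rw [add_comm, map_add, ultra (by rwa [ny, norm_alg]), ny]⟩
  · refine ⟨x, le_antisymm ?_ (not_lt.1 fun d => hγ ?_)⟩
    · rw [map_add]
      refine (IsUltrametricDist.norm_add_le_max _ _).trans ?_
      rw [ny, norm_alg, ← c, max_self]
    · have x0 : x ≠ 0 := norm_pos_iff.1 ((norm_nonneg _).trans_lt d)
      have y0 : y ≠ 0 := norm_pos_iff.1 (c ▸ norm_pos_iff.2 x0)
      have e : ‖φ (algebraMap _ L x + -(algebraMap _ L y * t))‖ ≤ ‖x‖ := by
        rw [map_add]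
        refine (IsUltrametricDist.norm_add_le_max _ _).trans ?_
        rw [map_neg, norm_neg, ny, norm_alg, ← c, max_self]
      have e2 : ‖y * y * γ - x * x‖ < ‖(4 : ℚ_[p])‖ * ‖x * x‖ := by
        rw [four_eq hp, one_mul, norm_mul, norm_sub_rev, ← norm_alg φ, map_sub, map_mul, map_mul,
          map_mul, ← ht, show ∀ a b : L, a * a - b * b * (t * t) = (a + b * t) * (a + -(b * t))
            from fun a b => by ring, map_mul, norm_mul]
        exact (mul_le_mul_of_nonneg_left e (norm_nonneg _)).trans_lt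
          (mul_lt_mul_of_pos_right d (norm_pos_iff.2 x0))
      obtain ⟨s, hs⟩ := RH.Cst.sq_one (p := p) (x := y * y * γ / (x * x)) (by
        rwa [div_sub_one (mul_ne_zero x0 x0), norm_div,
          div_lt_iff₀ (norm_pos_iff.2 (mul_ne_zero x0 x0))])
      exact ⟨s * x / y, by field_simp at hs ⊢; linear_combination hs⟩
  · exact ⟨x, by rw [map_add, ultra (by rwa [ny, norm_alg]), norm_alg]⟩

variable [FiniteDimensional ℚ_[p] L]

include φ in
/-- norms from a field that contains the unramified quadratic extension have even valuation -/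
theorem unram (hp : p ≠ 2) {γ : ℚ_[p]} (h1 : ‖γ‖ = 1) (hγ : ¬IsSquare γ) {t : L}
    (ht : t * t = algebraMap _ L γ) {z : L} (hz : z ≠ 0) :
    Even (Algebra.norm ℚ_[p] z).valuation := by
  have int : IsIntegral ℚ_[p] t := Algebra.IsIntegral.isIntegral t
  have d2 : (minpoly ℚ_[p] t).natDegree = 2 := by
    refine le_antisymm ?_ ((minpoly.two_le_natDegree_iff int).2 ?_)
    · have := minpoly.min ℚ_[p] t (monic_X_pow_sub_C γ two_ne_zero) (by simp [sq, ht])
      rw [degree_X_pow_sub_C two_pos] at this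
      exact natDegree_le_iff_degree_le.2 this
    · rintro ⟨s, rfl⟩
      exact hγ ⟨s, (algebraMap _ L).injective (by rw [map_mul, ht])⟩
  obtain ⟨f, hf, e⟩ := (adjoin.powerBasis int).exists_eq_aeval (Algebra.norm ℚ_[p]⟮t⟯ z)
  rw [adjoin.powerBasis_dim, d2] at hf
  obtain ⟨s, hs⟩ := size φ hp h1 hγ ht (f.coeff 0) (f.coeff 1)
  have e2 : ‖Algebra.norm ℚ_[p] z‖ = ‖s * s‖ := by
    rw [← Algebra.norm_norm (S := ℚ_[p]⟮t⟯), norm_N (φ.comp (IntermediateField.val _)),
      adjoin.finrank int, d2, norm_mul, ← hs, e, sq, eq_X_add_C_of_natDegree_le_one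
        (Nat.lt_succ_iff.1 hf)]
    simp [add_comm]
  have n0 : Algebra.norm ℚ_[p] z ≠ 0 := Algebra.norm_ne_zero_iff.2 hz
  rw [val_eq n0 e2]
  exact val_sq (fun c => n0 (by rwa [c, norm_zero, norm_eq_zero] at e2)) ⟨s, rfl⟩

theorem val_same {x y : L} (hx : x ≠ 0) (h : ‖φ x‖ = ‖φ y‖) :
    (Algebra.norm ℚ_[p] x).valuation = (Algebra.norm ℚ_[p] y).valuation :=
  val_eq (Algebra.norm_ne_zero_iff.2 hx) (by rw [norm_N φ, norm_N φ, h])

theorem val_unit {x : L} (h : ‖φ x‖ = 1) : (Algebra.norm ℚ_[p] x).valuation = 0 := by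
  rw [val_same φ (y := 1) (fun c => by simp [c] at h) (by simpa using h), map_one,
    Padic.valuation_one]

variable {ι : Type} {a : ι → ℚ_[p]} {θ : L}

omit [FiniteDimensional ℚ_[p] L] in
theorem sub_eq (k l : ι) : θ - algebraMap _ L (a l) =
    algebraMap _ L (a k - a l) + (θ - algebraMap _ L (a k)) := by rw [map_sub]; ring

omit [FiniteDimensional ℚ_[p] L] in
theorem far {k l : ι} (h : ‖φ (θ - algebraMap _ L (a k))‖ < 1) (h1 : ‖a k - a l‖ = 1) :
    ‖φ (θ - algebraMap _ L (a l))‖ = 1 := by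
  rw [sub_eq k l, map_add, ultra (by rwa [norm_alg, h1]), norm_alg, h1]

/-- the point is far from all roots -/
theorem all_far (h0 : ∀ i, θ - algebraMap _ L (a i) ≠ 0) (h1 : ∀ k l, ‖a k - a l‖ ≤ 1)
    (h : ∀ k, 1 ≤ ‖φ (θ - algebraMap _ L (a k))‖) (k l : ι) :
    Even ((Algebra.norm ℚ_[p] (θ - algebraMap _ L (a k))).valuation +
      (Algebra.norm ℚ_[p] (θ - algebraMap _ L (a l))).valuation) := by
  have le : ∀ k l, ‖φ (θ - algebraMap _ L (a l))‖ ≤ ‖φ (θ - algebraMap _ L (a k))‖ := fun k l => by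
    rw [sub_eq k l, map_add]
    refine (IsUltrametricDist.norm_add_le_max _ _).trans (max_le ?_ le_rfl)
    rw [norm_alg]
    exact (h1 k l).trans (h k)
  rw [val_same φ (h0 k) (le_antisymm (le l k) (le k l))]
  exact ⟨_, rfl⟩

/-- the point is close to a simple root -/
theorem one_near [Fintype ι] {w : L} (h0 : ∀ i, θ - algebraMap _ L (a i) ≠ 0)
    (hw : ∏ i, (θ - algebraMap _ L (a i)) = w ^ 2) {j : ι} (h1 : ∀ l, l ≠ j → ‖a j - a l‖ = 1)
    (h : ‖φ (θ - algebraMap _ L (a j))‖ < 1) (k : ι) :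
    Even (Algebra.norm ℚ_[p] (θ - algebraMap _ L (a k))).valuation := by
  have z := fun l hl => val_unit φ (far φ h (h1 l hl))
  by_cases c : k = j
  · have n0 := fun i => (Algebra.norm_ne_zero_iff (R := ℚ_[p])).2 (h0 i)
    have hs := val_sq (prod_ne_zero_iff.2 fun l (_ : l ∈ univ) => n0 l)
      ⟨Algebra.norm ℚ_[p] w, by rw [← map_prod, hw, sq, map_mul]⟩
    rwa [val_prod _ _ n0, Finset.sum_eq_single j (fun l _ hl => z l hl) (by simp), ← c] at hs
  · rw [z k c]; exact Even.zero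

end Node

open Node

theorem gdp : WQStmt → GDPStmt := by
  intro wq p _ ι _ a D _ h1 hD
  refine (ind wq a (fun D => (∀ i, D i ≠ 0) ∧ ∀ i k, Even ((D i).valuation + (D k).valuation))
    (fun κ h => ⟨fun _ => h, fun _ _ => ⟨_, rfl⟩⟩) ?_ ?_ ?_ D hD).2
  · rintro D E ⟨d0, d⟩ ⟨e0, e⟩
    refine ⟨fun i => mul_ne_zero (d0 i) (e0 i), fun i k => ?_⟩
    rw [Padic.valuation_mul (d0 i) (e0 i), Padic.valuation_mul (d0 k) (e0 k), add_add_add_comm]
    exact (d i k).add (e i k)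
  · rintro D E h ⟨-, d⟩
    refine ⟨fun i => (h i).2.1, fun i k => ?_⟩
    have h2 := val_cong (h i)
    have h3 := val_cong (h k)
    have h4 := d i k
    simp only [Int.even_iff] at h2 h3 h4 ⊢
    omega
  · intro L _ _ _ φ θ w h0 hw
    refine ⟨fun i => Algebra.norm_ne_zero_iff.2 (h0 i), fun i k => ?_⟩
    by_cases c : ∃ j, ‖φ (θ - algebraMap _ L (a j))‖ < 1
    · obtain ⟨j, hj⟩ := c
      have := one_near φ h0 hw (fun l hl => h1 j l hl.symm) hj
      exact (this i).add (this k)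
    · refine all_far φ h0 (fun k l => ?_) (fun k => not_lt.1 fun d => c ⟨k, d⟩) i k
      by_cases e : k = l
      · simp [e]
      · exact (h1 k l e).le

theorem node : WQStmt → NODEStmt := by
  intro wq p _ ι _ _ a D i j hp hij _ hn h1 hD
  set γ := ∏ k ∈ (univ.erase i).erase j, (a i - a k) with hγ
  have p1 : ‖(p : ℚ_[p])‖ < 1 := Padic.norm_p_lt_one
  have hi : ∀ k, k ≠ i → k ≠ j → ‖a i - a k‖ = 1 := fun k c d =>
    h1 i k c.symm (fun e => d e.2) fun e => c e.2
  have mem : ∀ k, k ∈ (univ.erase i).erase j ↔ k ≠ i ∧ k ≠ j := fun k => by simp [and_comm]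
  have nγ : ‖γ‖ = 1 := by
    rw [hγ, norm_prod]
    exact prod_eq_one fun k hk => hi k ((mem k).1 hk).1 ((mem k).1 hk).2
  have γ0 : γ ≠ 0 := fun c => by simp [c] at nγ
  refine (ind wq a (fun D => (∀ k, D k ≠ 0) ∧ ∃ β : ℕ, (∀ k, k ≠ i → k ≠ j →
    Even ((D i).valuation + (D k).valuation + β)) ∧ IsSquare (D i * D j * γ ^ β))
    (fun κ h => ⟨fun _ => h, 0, fun _ _ _ => by simp, by simp⟩) ?_ ?_ ?_ D hD).2
  · rintro D E ⟨d0, β, d, d'⟩ ⟨e0, β', e, e'⟩
    refine ⟨fun i => mul_ne_zero (d0 i) (e0 i), β + β', fun k c c' => ?_, ?_⟩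
    · rw [Padic.valuation_mul (d0 i) (e0 i), Padic.valuation_mul (d0 k) (e0 k)]
      have h2 := d k c c'
      have h3 := e k c c'
      simp only [Int.even_iff] at h2 h3 ⊢
      omega
    · have := d'.mul e'
      rwa [show D i * D j * γ ^ β * (E i * E j * γ ^ β') =
        D i * E i * (D j * E j) * γ ^ (β + β') by ring] at this
  · rintro D E h ⟨d0, β, d, s, hs⟩
    refine ⟨fun i => (h i).2.1, β, fun k c c' => ?_, ?_⟩
    · have h2 := val_cong (h i)
      have h3 := val_cong (h k)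
      have h4 := d k c c'
      simp only [Int.even_iff] at h2 h3 h4 ⊢
      omega
    · obtain ⟨u, hu⟩ := (h i).2.2
      obtain ⟨v, hv⟩ := (h j).2.2
      have := d0 i
      have := d0 j
      refine ⟨s * u * v / (D i * D j), ?_⟩
      field_simp
      linear_combination (D i * E i * (D j * E j)) * hs + s * s * (D j * E j) * hu +
        s * s * u * u * hv
  intro L _ _ _ φ θ w h0 hw
  have n0 := fun k => (Algebra.norm_ne_zero_iff (R := ℚ_[p])).2 (h0 k)
  refine ⟨n0, ?_⟩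
  have near : ‖(p : ℚ_[p])‖ < ‖φ (θ - algebraMap _ L (a i))‖ →
      IsSquare ((θ - algebraMap _ L (a i)) * (θ - algebraMap _ L (a j))) := fun h => by
    rw [mul_comm]
    refine sq_mul φ ?_
    rwa [sub_sub_sub_cancel_left, ← map_sub, norm_alg, hn, four_eq hp, one_mul]
  have nsq : ∀ {z : L}, IsSquare z → IsSquare (Algebra.norm ℚ_[p] z) := fun h => h.map _
  rcases le_or_gt 1 ‖φ (θ - algebraMap _ L (a i))‖ with c | c
  · refine ⟨0, fun k _ _ => ?_, by simpa using nsq (near (p1.trans_le c))⟩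
    rw [Nat.cast_zero, add_zero]
    by_cases d : ∃ l, ‖φ (θ - algebraMap _ L (a l))‖ < 1
    · obtain ⟨l, hl⟩ := d
      have li : l ≠ i := fun e => c.not_gt (e ▸ hl)
      have lj : l ≠ j := fun e => by
        rw [sub_eq j i, map_add] at c
        refine ((IsUltrametricDist.norm_add_le_max _ _).trans_lt (max_lt ?_ (e ▸ hl))).not_ge c
        rwa [norm_alg, norm_sub_rev, hn]
      have := one_near φ h0 hw
        (fun k hk => h1 l k hk.symm (fun e => li e.1) fun e => lj e.1) hl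
      exact (this i).add (this k)
    · refine all_far φ h0 (fun k l => ?_) (fun k => not_lt.1 fun e => d ⟨k, e⟩) i k
      by_cases e : k = l
      · simp [e]
      by_cases e1 : k = i ∧ l = j
      · rw [e1.1, e1.2, hn]; exact p1.le
      by_cases e2 : k = j ∧ l = i
      · rw [e2.1, e2.2, norm_sub_rev, hn]; exact p1.le
      · exact (h1 k l e e1 e2).le
  have z := fun k h h' => val_unit φ (far φ c (hi k h h'))
  have s1 : IsSquare ((θ - algebraMap _ L (a i)) * (θ - algebraMap _ L (a j)) *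
      algebraMap _ L γ) := by
    obtain ⟨s, hs⟩ : IsSquare (∏ k ∈ (univ.erase i).erase j,
        ((θ - algebraMap _ L (a k)) * algebraMap _ L (a i - a k))) := by
      refine prod_induction _ IsSquare (fun _ _ => IsSquare.mul) IsSquare.one fun k hk => ?_
      refine sq_mul φ ?_
      rwa [sub_eq i k, add_sub_cancel_left, norm_alg, hi k ((mem k).1 hk).1 ((mem k).1 hk).2,
        four_eq hp, one_mul]
    rw [prod_mul_distrib, ← map_prod, ← hγ] at hs
    rw [← mul_prod_erase _ _ (mem_univ i), ← mul_prod_erase _ _ (mem_erase.2 ⟨hij.symm, mem_univ j⟩)]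
      at hw
    have g0 : algebraMap _ L γ ≠ 0 := (_root_.map_ne_zero _).2 γ0
    have s0 : s ≠ 0 := left_ne_zero_of_mul
      (hs ▸ mul_ne_zero (prod_ne_zero_iff.2 fun k _ => h0 k) g0)
    refine ⟨w * algebraMap _ L γ / s, ?_⟩
    field_simp
    linear_combination algebraMap _ L γ * hw -
      (θ - algebraMap _ L (a i)) * (θ - algebraMap _ L (a j)) * hs
  have fin : ∀ β : ℕ, Even ((Algebra.norm ℚ_[p] (θ - algebraMap _ L (a i))).valuation + β) →
      ∀ k, k ≠ i → k ≠ j → Even ((Algebra.norm ℚ_[p] (θ - algebraMap _ L (a i))).valuation +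
        (Algebra.norm ℚ_[p] (θ - algebraMap _ L (a k))).valuation + β) := fun β h k e e' => by
    rwa [z k e e', add_zero]
  rcases le_or_gt ‖φ (θ - algebraMap _ L (a i))‖ ‖(p : ℚ_[p])‖ with d | d
  · have s2 := nsq s1
    rw [map_mul, map_mul, Algebra.norm_algebraMap] at s2
    refine ⟨_, fin _ ?_, s2⟩
    have vp : ∀ k, ‖φ (θ - algebraMap _ L (a k))‖ = ‖(p : ℚ_[p])‖ →
        (Algebra.norm ℚ_[p] (θ - algebraMap _ L (a k))).valuation = Module.finrank ℚ_[p] L :=
      fun k h => by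
        rw [val_same φ (y := algebraMap _ L (p : ℚ_[p])) (h0 k) (by rw [h, norm_alg]),
          Algebra.norm_algebraMap, Padic.valuation_pow, Padic.valuation_p, mul_one]
    rcases d.eq_or_lt with e | e
    · rw [vp i e]; exact ⟨_, rfl⟩
    · have s3 := val_sq (mul_ne_zero (mul_ne_zero (n0 i) (n0 j)) (pow_ne_zero _ γ0)) s2
      rw [Padic.valuation_mul (mul_ne_zero (n0 i) (n0 j)) (pow_ne_zero _ γ0),
        Padic.valuation_mul (n0 i) (n0 j), Padic.valuation_pow,
        val_eq (y := 1) γ0 (by rw [nγ, norm_one]), Padic.valuation_one, mul_zero, add_zero,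
        vp j (by rw [sub_eq i j, map_add, ultra (by rwa [norm_alg, hn]), norm_alg, hn])] at s3
      exact s3
  · have s2 := nsq (near d)
    rw [map_mul] at s2
    by_cases e : IsSquare γ
    · refine ⟨_, fin (Algebra.norm ℚ_[p] (θ - algebraMap _ L (a i))).valuation.natAbs ?_,
        s2.mul (e.pow _)⟩
      rw [Int.even_iff]
      omega
    · obtain ⟨u, hu⟩ := near d
      obtain ⟨v, hv⟩ := s1
      have u0 : u ≠ 0 := left_ne_zero_of_mul (hu ▸ mul_ne_zero (h0 i) (h0 j))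
      refine ⟨0, fin 0 ?_, by simpa using s2⟩
      simpa using unram φ hp nγ e (t := v / u)
        (by field_simp; linear_combination -hv + algebraMap _ L γ * hu) (h0 i)

end Pool.Agent.MP_a43263_nt.JU

end MrgPart3

-- ======== part 4: formerly Pool.Agent.MP_a43263_nt.JU.Spl
section MrgPart4

/-! PROJECT JU, rows SPL and REAL: totally split primes and the real place. -/

set_option autoImplicit false

namespace Pool.Agent.MP_a43263_nt.JU

open Finset Polynomial
open JC (fp nb)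

namespace Spl

section field

variable {K : Type} [Field K] {m : ℕ}

/-- below `n` all entries have one class, or from `n` on all entries are squares -/
def Alt (N : Fin m → K) : Prop := ∀ n : ℕ,
  (∃ c, ∀ i : Fin m, i.1 < n → ∃ s, N i = c * s ^ 2) ∨ ∀ l : Fin m, n ≤ l.1 → IsSquare (N l)

theorem pre {N : Fin m → K} (h0 : ∀ i, N i ≠ 0) (hp : IsSquare (∏ i, N i)) (h : Alt N) {n : ℕ}
    (he : Even n) (hn : n ≤ m) : IsSquare (∏ i ∈ univ.filter (fun i : Fin m => i.1 < n), N i) := by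
  rcases h n with ⟨c, hc⟩ | hc
  · choose! s hs using hc
    obtain ⟨k, rfl⟩ := he
    rw [prod_congr rfl fun i hi => hs i (mem_filter.1 hi).2, prod_mul_distrib, prod_const,
      Fin.card_filter_val_lt, min_eq_right hn, prod_pow]
    exact ⟨c ^ k * ∏ i ∈ univ.filter (fun i : Fin m => i.1 < k + k), s i, by ring⟩
  · rw [← prod_filter_mul_prod_filter_not univ fun i : Fin m => i.1 < n] at hp
    have := hp.div (prod_induction (s := univ.filter fun i => ¬i.1 < n) N IsSquare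
      (fun _ _ => IsSquare.mul) IsSquare.one fun l hl => hc l (not_lt.1 (mem_filter.1 hl).2))
    rwa [mul_div_cancel_right₀ _ (prod_ne_zero_iff.2 fun i _ => h0 i)] at this

theorem pair {N : Fin m → K} (h0 : ∀ i, N i ≠ 0) (hp : IsSquare (∏ i, N i)) (h : Alt N)
    (e : Ed m) (h1 : Even e.1.1.1) (h2 : e.1.2.1 = e.1.1.1 + 1) : IsSquare (N e.1.1 * N e.1.2) := by
  have h3 := e.1.2.2
  have k1 := pre h0 hp h h1 (by omega)
  have k2 := pre h0 hp h (h1.add even_two) (by omega)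
  have e1 : univ.filter (fun i : Fin m => i.1 < e.1.1.1 + 2) =
      insert e.1.1 (insert e.1.2 (univ.filter fun i : Fin m => i.1 < e.1.1.1)) := by
    ext i
    simp only [mem_filter, mem_univ, true_and, mem_insert, Fin.ext_iff]
    omega
  rw [e1, prod_insert (by simp [Fin.ext_iff, h2]), prod_insert (by simpa using e.2.le), ← mul_assoc]
    at k2
  have := k2.div k1
  rwa [mul_div_cancel_right₀ _ (prod_ne_zero_iff.2 fun i _ => h0 i)] at this

theorem all (wq : WQStmt) {a D : Fin m → K}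
    (h : ∀ π : K[X], π.Monic → Irreducible π → Alt fun i => nb π (a i)) (hD : Wq a D)
    (e : Ed m) (h1 : Even e.1.1.1) (h2 : e.1.2.1 = e.1.1.1 + 1) : IsSquare (D e.1.1 * D e.1.2) := by
  refine (wq K (Fin m) a).2.2.2 (fun D => IsSquare (D e.1.1 * D e.1.2)) (fun κ _ => ⟨κ, rfl⟩)
    (fun D E a b => by rw [mul_mul_mul_comm]; exact a.mul b) (fun D E k a => ?_)
    (fun π V hm hi hd h0 =>
      pair (fun i => JC.Val.nb_ne (h0 i)) (JC.Val.prod_nb a hm hd) (h π hm hi) e h1 h2) D hD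
  have := ((k e.1.1).2.2.mul (k e.1.2).2.2).div a
  rwa [mul_mul_mul_comm, mul_div_cancel_left₀ _ (mul_ne_zero (k _).1 (k _).1)] at this

end field

section padic

variable {p : ℕ} [Fact p.Prime]

open JC.Cst

theorem cmp {A B : ℚ_[p]} (R : Multiset (PadicAlgCl p)) {f g : PadicAlgCl p → PadicAlgCl p}
    (hA : algebraMap _ (PadicAlgCl p) A = (R.map f).prod)
    (hB : algebraMap _ (PadicAlgCl p) B = (R.map g).prod)
    (h : ∀ y ∈ R, ‖f y - g y‖ < ‖(4 : ℚ_[p])‖ * ‖g y‖) : ∃ s, A = B * s ^ 2 := by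
  have n0 : B ≠ 0 := fun c => by
    rw [c, map_zero, eq_comm, Multiset.prod_eq_zero_iff, Multiset.mem_map] at hB
    obtain ⟨y, hy, e⟩ := hB
    exact (near_div (h y hy)).1 e
  have h2 : ‖A / B - 1‖ < ‖(4 : ℚ_[p])‖ := by
    rw [← PadicAlgCl.norm_extends, map_sub, map_one, map_div₀]
    refine lt_of_eq_of_lt (congrArg (‖· - 1‖) ?_) (Multiset.prod_induction
      (fun z => ‖z - 1‖ < ‖(4 : ℚ_[p])‖) (R.map fun y => f y / g y) (fun _ _ => near_mul) near_one
        fun z hz => ?_)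
    · rw [Multiset.prod_map_div, ← hA, ← hB]
    · obtain ⟨y, hy, rfl⟩ := Multiset.mem_map.1 hz
      exact (near_div (h y hy)).2
  obtain ⟨s, hs⟩ := RH.Cst.sq_one h2
  exact ⟨s, by rw [← hs]; field_simp⟩

theorem padic {m : ℕ} {a : Fin m → ℚ_[p]} (h1 : ∀ i j, i < j → IsSquare (a i - a j))
    (h2 : ∀ i j l, i < l → j < l → ‖a i - a j‖ < ‖(16 : ℚ_[p])‖ * ‖a i - a l‖) (o : Fin m)
    (ho : o.1 = 0) (π : ℚ_[p][X]) (hm : π.Monic) (hi : Irreducible π) :
    Alt fun i => nb π (a i) := by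
  obtain ⟨x, hx⟩ := IsAlgClosed.exists_aeval_eq_zero (PadicAlgCl p) π
    (degree_pos_of_irreducible hi).ne'
  have em : π = minpoly ℚ_[p] x := minpoly.eq_of_irreducible_of_monic hi hx hm
  have alg : IsAlgebraic ℚ_[p] x := Algebra.IsAlgebraic.isAlgebraic x
  set φ := algebraMap ℚ_[p] (PadicAlgCl p)
  have sz : ∀ y ∈ π.aroots (PadicAlgCl p), ‖φ (a o) - y‖ = ‖φ (a o) - x‖ := fun y hy => by
    obtain ⟨σ, rfl⟩ := minpoly.exists_algEquiv_of_root' alg (em ▸ (mem_aroots.1 hy).2)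
    rw [← norm_gal σ (φ (a o) - x), map_sub, σ.commutes]
  have ev : ∀ c : ℚ_[p], φ (π.eval c) = ((π.aroots (PadicAlgCl p)).map (φ c - ·)).prod :=
    fun c => by
      rw [← (IsAlgClosed.splits _).aeval_eq_prod_aroots_of_monic hm, aeval_algebraMap_apply,
        coe_aeval_eq_eval]
  intro n
  by_cases c : ∀ i : Fin m, i.1 < n → ‖a i - a o‖ < ‖(4 : ℚ_[p])‖ * ‖φ (a o) - x‖
  · refine .inl ⟨nb π (a o), fun i hn => ?_⟩
    obtain ⟨s, hs⟩ := cmp _ (ev (a i)) (ev (a o)) fun y hy => by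
      rw [sub_sub_sub_cancel_right, ← map_sub, PadicAlgCl.norm_extends, sz y hy]
      exact c i hn
    exact ⟨s, by simp only [nb]; rw [hs, mul_assoc]⟩
  · simp only [not_forall, not_lt] at c
    obtain ⟨i, hn, c⟩ := c
    refine .inr fun l hl => ?_
    have ol : o < l := by rw [Fin.lt_def]; omega
    have k := h2 o i l ol (by rw [Fin.lt_def]; omega)
    rw [norm_sub_rev, show (16 : ℚ_[p]) = 4 * 4 by norm_num, norm_mul, mul_assoc] at k
    obtain ⟨s, hs⟩ := cmp (B := (a l - a o) ^ π.natDegree) (g := fun _ => φ (a l - a o)) _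
      (ev (a l)) (by
        rw [Multiset.map_const', Multiset.prod_replicate, IsAlgClosed.card_aroots_eq_natDegree,
          map_pow]) fun y hy => by
      rw [map_sub, sub_sub_sub_cancel_left, sz y hy, ← map_sub, PadicAlgCl.norm_extends,
        norm_sub_rev (a l)]
      exact lt_of_mul_lt_mul_left (c.trans_lt k) four_pos.le
    have e : nb π (a l) = (a o - a l) ^ π.natDegree * (s * s) := by
      rw [nb, hs, ← mul_assoc, ← mul_pow, sq, neg_one_mul, neg_sub]
    exact (congrArg IsSquare e).mpr (((h1 o l ol).pow _).mul ⟨s, rfl⟩)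

end padic

theorem rl {m : ℕ} {a : Fin m → ℝ} (h : StrictAnti a) (π : ℝ[X]) (hm : π.Monic)
    (hi : Irreducible π) : Alt fun i => nb π (a i) := by
  intro n
  by_cases hr : ∃ x, π.eval x = 0
  · obtain ⟨x, hx⟩ := hr
    obtain rfl : π = X - C x :=
      (eq_of_monic_of_associated (monic_X_sub_C x) hm
        ((irreducible_X_sub_C x).associated_of_dvd hi (dvd_iff_isRoot.2 hx))).symm
    simp only [nb, natDegree_X_sub_C, eval_sub, eval_X, eval_C, pow_one]
    by_cases c : ∀ i : Fin m, i.1 < n → x ≤ a i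
    · exact .inl ⟨-1, fun i hn => ⟨_, by rw [Real.sq_sqrt (sub_nonneg.2 (c i hn))]⟩⟩
    · simp only [not_forall, not_le] at c
      obtain ⟨i, hn, c⟩ := c
      refine .inr fun l hl => ⟨_, (Real.mul_self_sqrt ?_).symm⟩
      have := h (show i < l by rw [Fin.lt_def]; omega)
      linarith
  · have h3 : ∀ x, 0 < π.eval x := fun x => by
      by_contra c
      have t := π.tendsto_atTop_of_leadingCoeff_nonneg (degree_pos_of_irreducible hi)
        (by rw [hm.leadingCoeff]; exact zero_le_one)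
      obtain ⟨y, hy⟩ := (t.eventually_ge_atTop 0).exists
      exact hr (intermediate_value_univ x y π.continuous ⟨not_lt.1 c, hy⟩)
    exact .inl ⟨(-1) ^ π.natDegree, fun i _ => ⟨_, by rw [Real.sq_sqrt (h3 (a i)).le]; rfl⟩⟩

end Spl

theorem spl : WQStmt → SPLStmt := fun wq _ _ _ _ _ h1 h2 hD e =>
  Spl.all wq (Spl.padic h1 h2 ⟨0, e.1.1.pos⟩ rfl) hD e

theorem real : WQStmt → REALStmt := by
  intro wq m a D h hD e h1 h2
  obtain ⟨s, hs⟩ := Spl.all wq (Spl.rl h) hD e h1 h2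
  obtain ⟨_, _, -, -, -, k⟩ := hD
  exact lt_of_le_of_ne (hs ▸ mul_self_nonneg s) (mul_ne_zero (k _).2.1 (k _).2.1).symm

end Pool.Agent.MP_a43263_nt.JU

end MrgPart4

-- ======== part 5: formerly Pool.Agent.MP_a43263_nt.JU.Par
section MrgPart5

/-! PROJECT JU, module PAR: the parity of the corank of the descent matrix. -/

set_option autoImplicit false

noncomputable section

namespace Pool.Agent.MP_a43263_nt.JU

open Finset
open R2 (Sgn sg sg_eq chi_eq_rows)

namespace Par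

variable {m N : ℕ} {V : Finset (Gen m)} {dg : Gen m → ℤ} {a : Fin m → ℤ} {A : Ed m → ℕ}

theorem jac_right {ι : Type} (x : Finset ι) (f : ι → ℕ) (hf : ∀ t ∈ x, f t ≠ 0) (c : ℤ) :
    jacobiSym c (∏ t ∈ x, f t) = ∏ t ∈ x, jacobiSym c (f t) := by
  classical
  induction x using Finset.induction_on with
  | empty => simp
  | insert t x ht ih =>
    have h : ∀ s ∈ x, f s ≠ 0 := fun s hs => hf s (mem_insert_of_mem hs)
    rw [prod_insert ht, prod_insert ht,
      jacobiSym.mul_right' _ (hf t (mem_insert_self _ _)) (prod_ne_zero_iff.2 h), ih h]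

theorem odd (L : Loc N V dg a A) {x : Gen m} (hx : x ∈ V) : Odd x.2 :=
  (L.pr x hx).1.odd_of_ne_two fun e => (L.pr x hx).2 (e ▸ L.two)

/-- divisors of `N` are residues modulo the forms -/
theorem jac_A (L : Loc N V dg a A) (f : Ed m) {c : ℤ} (hc : c.natAbs ∣ N) :
    ∏ t ∈ V.filter (fun t => t.1.1 = f), jacobiSym c t.2 = 1 := by
  have h0 : 0 < c.natAbs := Nat.pos_of_dvd_of_pos hc L.pos
  have h1 : A f ≡ 1 [MOD 4 * c.natAbs] := (L.one f).of_dvd (mul_dvd_mul (by norm_num) hc)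
  have h2 : A f ≡ 1 [MOD 2] := (L.one f).of_dvd (Dvd.dvd.mul_right (by norm_num) _)
  rw [← jac_right _ _ fun t ht => (L.pr t (mem_filter.1 ht).1).1.ne_zero, ← L.hA,
    jacobiSym.mod_right _ (Nat.odd_iff.2 h2), h1, Nat.mod_eq_of_lt (by omega),
    jacobiSym.one_right]

theorem Gv_V (L : Loc N V dg a A) (e : Ed m) :
    Gv e V = ∏ f ∈ univ.filter (fun f => lk f e), (A f : ℤ) := by
  rw [Gv, ← prod_fiberwise V (fun t => t.1.1), prod_filter]
  refine prod_congr rfl fun f _ => ?_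
  have h : ∀ t ∈ V.filter (fun t => t.1.1 = f),
      G e t = (if lk f e then (t.2 : ℤ) else 1) * jacobiSym ((-1) ^ bb f e) t.2 := by
    intro t ht
    obtain ⟨h1, rfl⟩ := mem_filter.1 ht
    rw [G, val, if_neg (L.pr t h1).1.ne_one, Kc.jac_pow (odd L h1)]
  rw [prod_congr rfl h, prod_mul_distrib, jac_A L f (by simp), mul_one, L.hA]
  split_ifs <;> simp

theorem ndvd (L : Loc N V dg a A) {b : Gen m} (hb : b ∈ V) {f : Ed m} (h : lk f b.1.1) :
    ¬b.2 ∣ A f := by
  rw [L.hA]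
  intro c
  obtain ⟨t, ht, d⟩ := (Prime.dvd_finsetProd_iff (L.pr b hb).1.prime _).1 c
  obtain ⟨h1, rfl⟩ := mem_filter.1 ht
  rcases L.sep t h1 b hb ((Nat.prime_dvd_prime_iff_eq (L.pr b hb).1 (L.pr t h1).1).1 d).symm with
    rfl | k
  exacts [h.1 rfl, k.2 h]

theorem jac_eq (L : Loc N V dg a A) {b : Gen m} (hb : b ∈ V) (f : Ed m) :
    jacobiSym (a f.1.1 - a f.1.2) b.2 = jacobiSym (A f) b.2 := by
  have hp := (L.pr b hb).1
  have k : jacobiSym ((8 * N : ℤ) ^ 2) b.2 = 1 := by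
    refine jacobiSym.sq_one' ?_
    rw [show (8 * N : ℤ) = ((2 ^ 3 * N : ℕ) : ℤ) by push_cast; rfl, Int.gcd_natCast_natCast]
    refine (hp.coprime_iff_not_dvd.2 fun c => (L.pr b hb).2 ?_).symm
    exact (hp.dvd_mul.1 c).elim (fun c => (hp.dvd_of_dvd_pow c).trans L.two) id
  rw [L.eq, jacobiSym.mul_left, jacobiSym.pow_left, k, one_pow, one_mul]

theorem jac_ne (L : Loc N V dg a A) {b : Gen m} (hb : b ∈ V) {f : Ed m} (h : lk f b.1.1) :
    jacobiSym (A f) b.2 ≠ 0 := by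
  refine jacobiSym.ne_zero ?_
  rw [Int.gcd_natCast_natCast]
  exact ((L.pr b hb).1.coprime_iff_not_dvd.2 (ndvd L hb h)).symm

/-- the edge between two vertices -/
def ed (c k : Fin m) (h : c ≠ k) : Ed m := ⟨(min c k, max c k), min_lt_max.2 h⟩

theorem fibre (e : Ed m) {k : Fin m} (h1 : e.1.1 ≠ k) (h2 : e.1.2 ≠ k) :
    (univ.filter fun f => lk f e).filter (fun f => ov f e = k) = {ed _ k h1, ed _ k h2} ∧
      ed _ k h1 ≠ ed _ k h2 := by
  have h0 := e.2
  constructor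
  · ext f
    have h3 := f.2
    simp only [mem_filter, mem_univ, true_and, mem_insert, mem_singleton, ov]
    split_ifs with c <;>
      simp only [lk, inE, ed, ne_eq, Subtype.ext_iff, Prod.ext_iff, Fin.ext_iff, Fin.lt_def,
        Fin.coe_min, Fin.coe_max] at * <;> omega
  · simp only [ed, ne_eq, Subtype.ext_iff, Prod.ext_iff, Fin.ext_iff, Fin.lt_def,
      Fin.coe_min, Fin.coe_max] at *
    omega

theorem mem_out {e : Ed m} {k : Fin m} : k ∈ out e ↔ e.1.1 ≠ k ∧ e.1.2 ≠ k := by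
  simp only [out, inE, mem_filter, mem_univ, true_and, not_or, ne_eq, eq_comm]

theorem jac_ed (L : Loc N V dg a A) {b : Gen m} (hb : b ∈ V) {c k : Fin m} (h : c ≠ k) :
    jacobiSym (A (ed c k h)) b.2 = jacobiSym ((if c < k then 1 else -1) * (a c - a k)) b.2 := by
  rw [← jac_eq L hb]
  rcases lt_or_gt_of_ne h with d | d
  · simp [ed, d, d.le]
  · simp [ed, d.le, d.not_gt]

theorem jac_out (L : Loc N V dg a A) {b : Gen m} (hb : b ∈ V) {k : Fin m} (hk : k ∈ out b.1.1) :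
    jacobiSym (a b.1.1.1.1 - a k) b.2 = 1 ∨ jacobiSym (a b.1.1.1.1 - a k) b.2 = -1 := by
  obtain ⟨h1, h2⟩ := mem_out.1 hk
  have m1 : ed _ k h1 ∈ (univ.filter fun f => lk f b.1.1).filter (fun f => ov f b.1.1 = k) := by
    rw [(fibre _ h1 h2).1]; exact mem_insert_self _ _
  have := jac_ne L hb (mem_filter.1 (mem_filter.1 m1).1).2
  rw [jac_ed L hb, jacobiSym.mul_left] at this
  exact (jacobiSym.trichotomy _ _).resolve_left (right_ne_zero_of_mul this)

theorem bb_self (e : Ed m) : (-1 : ℤ) ^ bb e e = (-1) ^ (Ioo e.1.1 e.1.2).card := by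
  have h : e.1.1.1 < e.1.2.1 := e.2
  have k : ∀ i : Fin m, bs i i = i.1 % 2 := fun i => by
    simp only [bs, lt_irrefl, false_or, true_and, Nat.odd_iff]
    split_ifs <;> omega
  have k1 : bs e.1.1 e.1.2 = 1 := if_pos (Or.inl e.2)
  have k2 : bs e.1.2 e.1.1 = 0 := if_neg fun c => c.elim e.2.not_gt fun c => e.2.ne' c.1
  rw [neg_one_pow_eq_pow_mod_two, neg_one_pow_eq_pow_mod_two (n := Finset.card _), Fin.card_Ioo,
    bb, bv, bv, k, k, k1, k2]
  congr 1
  omega

/-- the linked forms at a prime of the edge -/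
theorem linked (L : Loc N V dg a A) {b : Gen m} (hb : b ∈ V) :
    jacobiSym (Gv b.1.1 V) b.2 = jacobiSym ((-1) ^ bb b.1.1 b.1.1) b.2 := by
  have hd : a b.1.1.1.2 ≡ a b.1.1.1.1 [ZMOD b.2] := by
    rw [Int.modEq_iff_dvd, L.eq, L.hA]
    refine (Int.natCast_dvd_natCast.2 (dvd_prod_of_mem (fun x : Gen m => x.2) ?_)).mul_left _
    exact mem_filter.2 ⟨hb, rfl⟩
  have mp : ∀ f ∈ univ.filter (fun f => lk f b.1.1), ov f b.1.1 ∈ out b.1.1 := by
    intro f hf
    have h1 := (mem_filter.1 hf).2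
    have h2 := f.2
    have h3 := b.1.1.2
    rw [mem_out, ov]
    split_ifs with c <;>
      simp only [lk, inE, ne_eq, Subtype.ext_iff, Prod.ext_iff, Fin.ext_iff, Fin.lt_def] at * <;>
      omega
  have io : (out b.1.1).filter (fun k => b.1.1.1.1 < k ∧ k < b.1.1.1.2) =
      Ioo b.1.1.1.1 b.1.1.1.2 := by
    ext k
    rw [mem_filter, mem_out, mem_Ioo]
    exact ⟨fun h => h.2, fun h => ⟨⟨h.1.ne, h.2.ne'⟩, h⟩⟩
  rw [Gv_V L, Kc.jac_prod, ← prod_fiberwise_of_maps_to mp, bb_self, jacobiSym.pow_left,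
    ← prod_const, ← io, prod_filter]
  refine prod_congr rfl fun k hk => ?_
  obtain ⟨h1, h2⟩ := mem_out.1 hk
  have h3 := b.1.1.2
  have s : jacobiSym (a b.1.1.1.1 - a k) b.2 * jacobiSym (a b.1.1.1.1 - a k) b.2 = 1 := by
    rcases jac_out L hb hk with c | c <;> rw [c] <;> rfl
  have s' : jacobiSym (-1) b.2 * jacobiSym (-1) b.2 = 1 := by
    rw [← jacobiSym.mul_left, neg_mul_neg, one_mul, jacobiSym.one_left]
  rw [(fibre _ h1 h2).1, prod_pair (fibre _ h1 h2).2, jac_ed L hb, jac_ed L hb, jacobiSym.mul_left,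
    jacobiSym.mul_left, jacobiSym.mod_left' (hd.sub_right (a k)), mul_mul_mul_comm, s, mul_one]
  rcases lt_or_gt_of_ne h1 with c | c <;> rcases lt_or_gt_of_ne h2 with d | d
  · simp [c, d, d.not_gt]
  · simp [c, d, d.not_gt]
  · exact absurd (c.trans (h3.trans d)) (lt_irrefl _)
  · simp [c.not_gt, d.not_gt, s']

theorem dg_sgn (L : Loc N V dg a A) {b : Gen m} (hb : b ∈ V) : dg b = 1 ∨ dg b = -1 := by
  rw [L.dia b hb, ga, gam, jacobiSym.mul_left, Kc.jac_prod, Kc.jac_pow (odd L hb)]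
  rcases Kc.sig b.1.1 b with c | c <;>
    rcases R2.prod_sgn (out b.1.1) (fun k hk => jac_out L hb hk) with d | d <;> rw [c, d] <;> simp

theorem rowV (L : Loc N V dg a A) {b : Gen m} (hb : b ∈ V) :
    gm dg b b = ∏ t ∈ V, gm dg t b := by
  have h := linked L hb
  have s : jacobiSym ((-1) ^ bb b.1.1 b.1.1) b.2 ≠ 0 := by
    rw [Kc.jac_pow (odd L hb)]
    rcases Kc.sig b.1.1 b with c | c <;> rw [c] <;> simp
  have g : jacobiSym (G b.1.1 b) b.2 = jacobiSym ((-1) ^ bb b.1.1 b.1.1) b.2 := by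
    rw [G, if_neg fun c => c.1 rfl, one_mul, Kc.jac_pow (odd L hb)]
    split_ifs with c
    · rw [Kc.jac_pow (odd L hb), if_pos c]
    · exact jacobiSym.one_left _
  rw [Gv, ← mul_prod_erase V _ hb, jacobiSym.mul_left, g, mul_eq_left₀ s] at h
  rw [← mul_prod_erase V _ hb, Kc.row dg _ b (notMem_erase _ _) (odd L hb) (L.pr b hb).1.one_lt
    (by rw [Gv, h]; exact one_ne_zero), Gv, h, mul_one]

theorem row0 (L : Loc N V dg a A) {b : Gen m} (hb : b ∈ V0 m N) :
    gm dg b b = ∏ t ∈ V, gm dg t b := by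
  have h0 : b.2 ∣ N ∧ (b.2 = 1 ∨ b.2.Prime) := by
    rcases mem_insert.1 (mem_product.1 hb).2 with c | c
    exacts [⟨c ▸ one_dvd _, .inl c⟩,
      ⟨Nat.dvd_of_mem_primeFactors c, .inr (Nat.prime_of_mem_primeFactors c)⟩]
  have h1 : ∀ f, (G f b).natAbs ∣ N := fun f => by
    rw [Kc.G_abs]
    split_ifs
    exacts [h0.1, one_dvd _]
  have h2 : ∀ t ∈ V, gm dg t b = jacobiSym (G t.1.1 b) t.2 := by
    intro t ht
    rw [(Kc.sgn dg).1, gm, if_neg fun e : b = t => (L.pr t ht).2 (e ▸ h0.1),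
      if_pos ⟨odd L ht, (L.pr t ht).1.one_lt⟩]
    refine sg_eq (jacobiSym.eq_one_or_neg_one ?_)
    rw [Int.gcd, Int.natAbs_natCast]
    exact ((L.pr t ht).1.coprime_iff_not_dvd.2 fun c => (L.pr t ht).2 (c.trans (h1 _))).symm
  rw [prod_congr rfl h2, ← prod_fiberwise V (fun t => t.1.1), gm, if_pos rfl, L.dia0 b hb]
  refine (prod_eq_one fun f _ => ?_).symm
  rw [← jac_A L f (h1 f)]
  exact prod_congr rfl fun t ht => by rw [(mem_filter.1 ht).2]

end Par

theorem par : COMBStmt → KCStmt → RH.BOR5Stmt → PARStmt := by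
  intro _ _ hB m N V dg a A L
  have h := hB _ (gm dg) (Kc.sgn dg) (V0 m N ∪ V) V subset_union_right fun b hb =>
    (mem_union.1 hb).elim (Par.row0 L) (Par.rowV L)
  have e : ∀ b ∈ V, ∏ t ∈ V, gm dg t b = dg b := fun b hb => by
    rw [← Par.rowV L hb, gm, if_pos rfl, sg_eq (Par.dg_sgn L hb)]
  rwa [chi_eq_rows, prod_congr rfl e] at h

end Pool.Agent.MP_a43263_nt.JU

end
end MrgPart5

-- ======== part 6: formerly Pool.Agent.MP_a43263_nt.JU.Red
section MrgPart6

/-! PROJECT JU: the reduction to the complete 2-descent, and good curves. -/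

set_option autoImplicit false

noncomputable section

namespace Pool.Agent.MP_a43263_nt.JU

open Finset Polynomial
open R2 (Ker)
open JC (fp nb tv fd W Cv ELS DESCStmt GRPStmt TWStmt NRMStmt)
open JC.Idx (sq_trans W_sq)
open RG.GoodAux (Evn Od)

namespace Red

section
variable {K L ι : Type} [Field K] [Field L] [Fintype ι]

theorem tv_self (a : ι → K) (i : ι) : tv a i i = fd a i := if_pos rfl

theorem tv_of_ne (a : ι → K) {i k : ι} (h : k ≠ i) : tv a i k = a i - a k := if_neg h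

theorem fd_eq [DecidableEq ι] (a : ι → K) (i : ι) :
    fd a i = ∏ k ∈ univ.erase i, (a i - a k) :=
  prod_congr (by ext; simp) fun _ _ => rfl

theorem tv_ne {a : ι → K} (h : Function.Injective a) (j i : ι) : tv a j i ≠ 0 := by
  classical
  by_cases e : i = j
  · rw [e, tv_self, fd_eq]
    exact prod_ne_zero_iff.2 fun k hk => sub_ne_zero.2 (h.ne (ne_of_mem_erase hk).symm)
  · rw [tv_of_ne a e]
    exact sub_ne_zero.2 (h.ne (Ne.symm e))

theorem tS_ne {a : ι → K} (h : Function.Injective a) (S : Finset ι) (i : ι) : tS a S i ≠ 0 :=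
  prod_ne_zero_iff.2 fun j _ => tv_ne h j i

theorem tS_map (φ : K →+* L) (a : ι → K) (S : Finset ι) :
    (tS (fun i => φ (a i)) S) = fun i => φ (tS a S i) := by
  classical
  funext i
  rw [tS, tS, map_prod]
  refine prod_congr rfl fun j _ => ?_
  by_cases e : i = j
  · rw [e, tv_self, tv_self, fd_eq, fd_eq, map_prod]
    simp only [map_sub]
  · rw [tv_of_ne _ e, tv_of_ne _ e, map_sub]

theorem tS_insert [DecidableEq ι] (a : ι → K) {S : Finset ι} {j : ι} (h : j ∉ S) (i : ι) :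
    tS a (insert j S) i = tv a j i * tS a S i :=
  prod_insert h

theorem W_one (a : ι → K) : W a fun _ => 1 :=
  ⟨1, 0, monic_one, one_dvd _, fun _ => ⟨by simp, one_ne_zero, by simp [nb]⟩⟩

omit [Fintype ι] in
theorem PE_of {D E : ι → K} (h : ∀ i, IsSquare (D i * E i)) : PE D E := fun i j => by
  rw [mul_mul_mul_comm]
  exact (h i).mul (h j)

omit [Fintype ι] in
theorem PE_symm {D E : ι → K} (h : PE D E) : PE E D := fun i j => by
  rw [mul_comm]
  exact h i j

/-- an odd number of coordinates -/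
theorem sq_of_odd {x : ι → K} (ho : Odd (Fintype.card ι)) (h0 : ∀ i, x i ≠ 0)
    (h : ∀ i j, IsSquare (x i * x j)) (hp : IsSquare (∏ i, x i)) (i : ι) : IsSquare (x i) := by
  obtain ⟨g, hg⟩ := ho
  have h1 : IsSquare (∏ j, x i * x j) :=
    prod_induction _ IsSquare (fun _ _ => IsSquare.mul) IsSquare.one fun j _ => h i j
  have h2 : ∏ j, x i * x j = x i * (x i ^ g * x i ^ g * ∏ j, x j) := by
    rw [prod_mul_distrib, prod_const, card_univ, hg]
    ring
  have h3 : IsSquare (x i ^ g * x i ^ g * (∏ j, x j) * 1) := by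
    rw [mul_one]
    exact (IsSquare.mul_self _).mul hp
  have h4 := pow_ne_zero g (h0 i)
  have h5 := sq_trans (mul_ne_zero (mul_ne_zero h4 h4) (prod_ne_zero_iff.2 fun j _ => h0 j))
    (h2 ▸ h1) h3
  rwa [mul_one] at h5

theorem cv_map (φ : K →+* L) {n : ℕ} (a : Fin (n + 1) → K) :
    (cv fun i => φ (a i)) = fun i => φ (cv a i) := by
  funext i
  simp only [cv, map_neg, map_prod, map_sub]

theorem snoc_map (φ : K →+* L) {n : ℕ} (d : Fin n → K) :
    (Fin.snoc (α := fun _ => L) (fun i => φ (d i)) 1) =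
      fun i => φ (Fin.snoc (α := fun _ => K) d 1 i) := by
  funext i
  refine Fin.lastCases ?_ (fun i => ?_) i <;> simp

theorem prod_er {M : Type} [DecidableEq ι] [CommMonoid M] (f : ι → M) (i : ι) :
    ∏ k ∈ univ.erase i, f k = ∏ k, if k = i then 1 else f k := by
  rw [← filter_ne', prod_filter]
  exact prod_congr rfl fun k _ => by by_cases h : k = i <;> simp [h]

variable {n : ℕ} {a : Fin (n + 1) → K}

theorem fd_cast (a : Fin (n + 1) → K) (j : Fin n) : fd a j.castSucc =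
    (∏ k ∈ univ.erase j, (a j.castSucc - a k.castSucc)) * (a j.castSucc - a (Fin.last n)) := by
  rw [fd_eq, prod_er, prod_er, Fin.prod_univ_castSucc, if_neg (Fin.castSucc_ne_last j).symm]
  simp only [Fin.castSucc_inj]

theorem cv_mul (a : Fin (n + 1) → K) (j : Fin n) :
    cv a j * (a j.castSucc - a (Fin.last n)) = -∏ k : Fin n, (a k.castSucc - a (Fin.last n)) := by
  rw [cv, neg_mul, prod_erase_mul _ _ (mem_univ j)]

theorem cv_sub (a : Fin (n + 1) → K) (j k : Fin n) :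
    (cv a j - cv a k) * (a k.castSucc - a (Fin.last n)) =
      (a j.castSucc - a k.castSucc) * -cv a j := by
  linear_combination cv_mul a j - cv_mul a k

/-- the images of the Weierstrass points in the two models -/
theorem tv_cv (ho : Odd n) (h : Function.Injective a) (j i : Fin n) :
    IsSquare (tv a j.castSucc i.castSucc * tv a j.castSucc (Fin.last n) *
      (tv (cv a) j i * -cv a i)) := by
  rw [tv_of_ne a (Fin.castSucc_ne_last j).symm]
  by_cases e : i = j
  · obtain ⟨g, hg⟩ := ho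
    have h1 : fd (cv a) j * -cv a j =
        (∏ k ∈ univ.erase j, (a j.castSucc - a k.castSucc)) * (-cv a j) ^ (2 * g) := by
      have h2 : ∏ k ∈ univ.erase j, (cv a j - cv a k) * (a k.castSucc - a (Fin.last n)) =
          ∏ k ∈ univ.erase j, (a j.castSucc - a k.castSucc) * -cv a j :=
        prod_congr rfl fun k _ => cv_sub a j k
      rw [prod_mul_distrib, prod_mul_distrib, prod_const, card_erase_of_mem (mem_univ j),
        card_univ, Fintype.card_fin, show n - 1 = 2 * g by omega] at h2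
      rw [← h2, fd_eq]
      simp only [cv, neg_neg]
    rw [e, tv_self, tv_self, h1, fd_cast]
    exact ⟨(∏ k ∈ univ.erase j, (a j.castSucc - a k.castSucc)) * (a j.castSucc - a (Fin.last n)) *
      (-cv a j) ^ g, by ring⟩
  · have hb : a i.castSucc - a (Fin.last n) ≠ 0 := sub_ne_zero.2 (h.ne (Fin.castSucc_ne_last i))
    rw [tv_of_ne a (fun c => e (Fin.castSucc_inj.1 c)), tv_of_ne _ e]
    refine ⟨(a j.castSucc - a i.castSucc) * (a j.castSucc - a (Fin.last n)) * cv a j /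
      (a i.castSucc - a (Fin.last n)), ?_⟩
    have h1 := cv_sub a j i
    have h2 : cv a i * (a i.castSucc - a (Fin.last n)) = cv a j * (a j.castSucc - a (Fin.last n)) :=
      (cv_mul a i).trans (cv_mul a j).symm
    rw [div_mul_div_comm, eq_div_iff (mul_ne_zero hb hb)]
    generalize cv a i = ci at *
    generalize cv a j = cj at *
    generalize a i.castSucc - a (Fin.last n) = bi at *
    generalize a j.castSucc - a (Fin.last n) = bj at *
    generalize a j.castSucc - a i.castSucc = t at *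
    linear_combination (-(t * bj * ci * bi)) * h1 + (t * t * bj * cj) * h2

end

/-- a rational number that is a square in all completions is a square -/
theorem sq_glob {x : ℚ} (h0 : x ≠ 0) (hr : IsSquare (x : ℝ))
    (hp : ∀ (p : ℕ) [Fact p.Prime], IsSquare (x : ℚ_[p])) : IsSquare x := by
  have hx : 0 < x.num := Rat.num_pos.2 (lt_of_le_of_ne (by exact_mod_cast hr.nonneg) h0.symm)
  obtain ⟨s, t, -, ht, e, hs⟩ :=
    Nat.sq_mul_squarefree_of_pos (mul_pos (Int.natAbs_pos.2 hx.ne') x.den_pos)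
  have hd : (x.den : ℚ) ≠ 0 := Nat.cast_ne_zero.2 x.den_nz
  have e1 : x = s * ((t : ℚ) / x.den * (t / x.den)) := by
    have e2 : ((t ^ 2 * s : ℕ) : ℚ) = ((x.num.natAbs * x.den : ℕ) : ℚ) := by rw [e]
    rw [Nat.cast_mul, Nat.cast_mul, Nat.cast_natAbs, abs_of_pos hx, ← Rat.mul_den_eq_num,
      Nat.cast_pow] at e2
    field_simp
    linear_combination -e2
  by_cases h1 : s = 1
  · rw [e1, h1, Nat.cast_one, one_mul]
    exact IsSquare.mul_self _
  · obtain ⟨p, pp, hps⟩ := Nat.exists_prime_and_dvd h1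
    have : Fact p.Prime := ⟨pp⟩
    have ht' : (t : ℚ) / x.den ≠ 0 := div_ne_zero (Nat.cast_ne_zero.2 ht.ne') hd
    have ho : Od p x := by
      rw [e1]
      exact (Od.nat hs hps).mul (Evn.of_sq (mul_ne_zero ht' ht') (IsSquare.mul_self _))
    obtain ⟨r, hr⟩ := hp p
    have hr0 : r ≠ 0 := fun c => h0 (by rw [c, mul_zero] at hr; exact_mod_cast hr)
    have h2 := congrArg Padic.valuation hr
    rw [Padic.valuation_ratCast, Padic.valuation_mul hr0 hr0] at h2
    exact absurd ⟨_, h2⟩ (Int.not_even_iff_odd.2 ho.2)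

/-- a family of representatives that is indexed by the subsets -/
theorem finish (desc : DESCStmt) {ι : Type} [Fintype ι] {g n : ℕ} {c : ι → ℚ} (hc : Cv g c (fp c))
    (d : Finset (Fin (n + 1)) → ι → ℚ) (h1 : ∀ S ⊆ univ.erase (Fin.last n), W c (d S))
    (h2 : ∀ S ⊆ univ.erase (Fin.last n), ∀ S' ⊆ univ.erase (Fin.last n),
      (∀ i, IsSquare (d S i * d S' i)) → S = S')
    (h3 : ∀ e, ELS c e → ∃ S ⊆ univ.erase (Fin.last n), ∀ i, IsSquare (e i * d S i)) :
    Good (fp c) (2 * g) n := by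
  classical
  have hI : ((univ.erase (Fin.last n)).powerset.image d).card = 2 ^ n := by
    rw [card_image_of_injOn, card_powerset, card_erase_of_mem (mem_univ _), card_univ,
      Fintype.card_fin, Nat.add_sub_cancel]
    intro S hS S' hS' e
    exact h2 S (mem_powerset.1 hS) S' (mem_powerset.1 hS') fun i => by
      rw [e]
      exact IsSquare.mul_self _
  rw [Good, ← hI]
  refine desc ι g c _ hc ?_ ?_ ?_
  · intro e he
    obtain ⟨S, hS, rfl⟩ := mem_image.1 he
    exact h1 S (mem_powerset.1 hS)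
  · intro e he e' he' h
    obtain ⟨S, hS, rfl⟩ := mem_image.1 he
    obtain ⟨S', hS', rfl⟩ := mem_image.1 he'
    rw [h2 S (mem_powerset.1 hS) S' (mem_powerset.1 hS') h]
  · intro e he
    obtain ⟨S, hS, h⟩ := h3 e he
    exact ⟨_, mem_image_of_mem d (mem_powerset.2 hS), h⟩

theorem W_ne {K ι : Type} [Field K] [Fintype ι] {a d : ι → K} (h : W a d) (i : ι) : d i ≠ 0 := by
  obtain ⟨U, V, -, -, h⟩ := h
  exact (h i).2.1

theorem red_even (desc : DESCStmt) (grp : GRPStmt) (tw : TWStmt) (nrm : NRMStmt) (wq : WQStmt)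
    {n : ℕ} {a : Fin (n + 1) → ℚ} (hn : 2 ≤ n) (he : Even n) (ha : Function.Injective a)
    (h1 : ∀ D, EQ a D → ∃ S ⊆ univ.erase (Fin.last n), PE D (tS a S))
    (h2 : ∀ S ⊆ univ.erase (Fin.last n), ∀ S' ⊆ univ.erase (Fin.last n),
      PE (tS a S) (tS a S') → S = S') : Good (fp a) (2 * (n / 2)) n := by
  have hc : Cv (n / 2) a (fp a) := ⟨by
    rw [Fintype.card_fin]
    obtain ⟨k, rfl⟩ := he
    omega, by omega, ha, rfl⟩
  have hW : ∀ S, W a (tS a S) := fun S => by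
    induction S using Finset.induction_on with
    | empty => exact W_one a
    | insert j S hj ih =>
      rw [funext (tS_insert a hj)]
      exact grp ℚ _ _ a hc _ _ (tw ℚ _ _ a hc j) ih
  refine finish desc hc (tS a) (fun S _ => hW S) (fun S hS S' hS' h => h2 S hS S' hS' (PE_of h))
    fun d hd => ?_
  obtain ⟨S, hS, h⟩ := h1 d ⟨(wq ℝ _ _).1 _ hd.1, fun p _ => (wq ℚ_[p] _ _).1 _ (hd.2 p)⟩
  have h0 : ∀ i, d i ≠ 0 := fun i c => W_ne hd.1 i (by simp [c])
  refine ⟨S, hS, sq_of_odd (x := fun i => d i * tS a S i) ⟨_, hc.card⟩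
    (fun i => mul_ne_zero (h0 i) (tS_ne ha S i)) (fun i j => ?_) ?_⟩
  · rw [mul_mul_mul_comm]
    exact h i j
  · rw [prod_mul_distrib]
    refine IsSquare.mul (sq_glob (prod_ne_zero_iff.2 fun i _ => h0 i) ?_ fun p _ => ?_)
      (nrm ℚ _ a _ (hW S))
    · rw [Rat.cast_prod]
      exact nrm ℝ _ _ _ hd.1
    · rw [Rat.cast_prod]
      exact nrm ℚ_[p] _ _ _ (hd.2 p)

theorem mob_loc (mob : MOBStmt) (K : Type) [Field K] [CharZero K] {n : ℕ} {a : Fin (n + 1) → ℚ}
    (ho : Odd n) (hn : 3 ≤ n) (ha : Function.Injective a) {d : Fin n → ℚ}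
    (h : W (fun i => ((cv a i : ℚ) : K)) fun i => (d i : K)) :
    Wq (fun i => (a i : K)) fun i => ((Fin.snoc (α := fun _ => ℚ) d 1 i : ℚ) : K) := by
  have h1 := (mob K n (fun i => Rat.castHom K (a i)) ho hn
    ((Rat.castHom K).injective.comp ha)).2.2 (fun i => Rat.castHom K (d i)) (by
      rw [cv_map]
      exact h)
  rw [snoc_map] at h1
  exact h1

theorem red_odd (desc : DESCStmt) (grp : GRPStmt) (tw : TWStmt) (mob : MOBStmt)
    {n : ℕ} {a : Fin (n + 1) → ℚ} (hn : 2 ≤ n) (ho : Odd n) (ha : Function.Injective a)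
    (h1 : ∀ D, EQ a D → ∃ S ⊆ univ.erase (Fin.last n), PE D (tS a S))
    (h2 : ∀ S ⊆ univ.erase (Fin.last n), ∀ S' ⊆ univ.erase (Fin.last n),
      PE (tS a S) (tS a S') → S = S') : Good (fp (cv a)) (2 * (n / 2)) n := by
  have h3 : 3 ≤ n := by
    obtain ⟨k, rfl⟩ := ho
    omega
  obtain ⟨hi, hm, -⟩ := mob ℚ n a ho h3 ha
  have hc : Cv (n / 2) (cv a) (fp (cv a)) := ⟨by
    rw [Fintype.card_fin]
    obtain ⟨k, rfl⟩ := ho
    omega, by omega, hi, rfl⟩
  refine finish desc hc (fun S i => tS a S i.castSucc * tS a S (Fin.last n)) (fun S => ?_)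
    (fun S hS S' hS' h => h2 S hS S' hS' fun i j => ?_) fun d hd => ?_
  · induction S using Finset.induction_on with
    | empty =>
      intro _
      simpa [tS] using W_one (cv a)
    | insert j S hj ih =>
      intro hS
      obtain ⟨k, rfl⟩ := Fin.exists_castSucc_eq.2 (ne_of_mem_erase (hS (mem_insert_self _ _)))
      have h4 := W_sq (grp ℚ _ _ _ hc _ _ (tw ℚ _ _ _ hc k) hm)
        (fun i => mul_ne_zero (tv_ne ha _ _) (tv_ne ha _ _)) (tv_cv ho ha k)
      have h5 := grp ℚ _ _ _ hc _ _ h4 (ih ((subset_insert _ _).trans hS))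
      simpa only [tS_insert a hj, mul_mul_mul_comm] using h5
  · have h4 : ∀ i, IsSquare (tS a S i * tS a S' i * (tS a S (Fin.last n) * tS a S' (Fin.last n))) :=
      fun i => by
        refine Fin.lastCases (IsSquare.mul_self _) (fun i => ?_) i
        rw [mul_mul_mul_comm]
        exact h i
    rw [mul_mul_mul_comm]
    exact sq_trans (mul_ne_zero (tS_ne ha _ _) (tS_ne ha _ _)) (h4 i) (by rw [mul_comm]; exact h4 j)
  · obtain ⟨S, hS, h⟩ := h1 _ ⟨mob_loc mob ℝ ho h3 ha hd.1, fun p _ =>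
      mob_loc mob ℚ_[p] ho h3 ha (hd.2 p)⟩
    exact ⟨S, hS, fun i => by simpa using h i.castSucc (Fin.last n)⟩

section
variable {m N : ℕ} {V : Finset (Gen m)} {dg : Gen m → ℤ} {a : Fin m → ℤ} {A : Ed m → ℕ}

theorem diff_eq (h : Loc N V dg a A) (e : Ed m) : ∃ s : ℚ, s ≠ 0 ∧
    (a e.1.1 : ℚ) - a e.1.2 = A e * (s * s) := by
  refine ⟨(8 * N) ^ (m - 1 - e.1.2.1), pow_ne_zero _ (by have := h.pos; positivity), ?_⟩
  have h1 : ((a e.1.1 - a e.1.2 : ℤ) : ℚ) = _ := congrArg _ (h.eq e)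
  push_cast at h1
  rw [h1, ← pow_mul, two_mul, pow_add, mul_comm]

variable {x : Gen m} [Fact x.2.Prime]

theorem evn_prod (h : Loc N V dg a A) (hd : Dist V) (hx : x ∈ V) {T : Finset (Gen m)} (hT : T ⊆ V)
    (hn : x ∉ T) : Evn x.2 (∏ y ∈ T, (y.2 : ℚ)) :=
  Evn.prod fun y hy => Evn.nat fun c => hn (by
    rw [hd x hx y (hT hy) ((Nat.prime_dvd_prime_iff_eq Fact.out (h.pr y (hT hy)).1).1 c)]
    exact hy)

theorem evn_ed (h : Loc N V dg a A) (hd : Dist V) (hx : x ∈ V) {e : Ed m} (he : x.1.1 ≠ e) :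
    Evn x.2 ((a e.1.1 : ℚ) - a e.1.2) := by
  obtain ⟨s, hs, h1⟩ := diff_eq h e
  rw [h1, h.hA, Nat.cast_prod]
  exact (evn_prod h hd hx (filter_subset _ _) fun c => he (mem_filter.1 c).2).mul
    (Evn.of_sq (mul_ne_zero hs hs) (IsSquare.mul_self _))

theorem od_ed (h : Loc N V dg a A) (hd : Dist V) (hx : x ∈ V) :
    Od x.2 ((a x.1.1.1.1 : ℚ) - a x.1.1.1.2) := by
  obtain ⟨s, hs, h1⟩ := diff_eq h x.1.1
  rw [h1, h.hA, Nat.cast_prod,
    ← mul_prod_erase (V.filter fun y => y.1.1 = x.1.1) _ (mem_filter.2 ⟨hx, rfl⟩)]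
  exact (Od.self.mul (evn_prod h hd hx ((erase_subset _ _).trans (filter_subset _ _))
    (notMem_erase _ _))).mul (Evn.of_sq (mul_ne_zero hs hs) (IsSquare.mul_self _))

theorem evn_sub (h : Loc N V dg a A) (hd : Dist V) (hx : x ∈ V) {i k : Fin m} (hik : i ≠ k)
    (he : ¬inE i x.1.1 ∨ ¬inE k x.1.1) : Evn x.2 ((a i : ℚ) - a k) := by
  rcases lt_or_gt_of_ne hik with c | c
  · exact evn_ed h hd hx (e := ⟨(i, k), c⟩) fun c' => by
      rw [c'] at he
      exact he.elim (fun t => t (.inl rfl)) fun t => t (.inr rfl)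
  · rw [← neg_sub]
    exact (evn_ed h hd hx (e := ⟨(k, i), c⟩) fun c' => by
      rw [c'] at he
      exact he.elim (fun t => t (.inr rfl)) fun t => t (.inl rfl)).neg

theorem evn_out (h : Loc N V dg a A) (hd : Dist V) (hx : x ∈ V) {k : Fin m} (hk : ¬inE k x.1.1)
    (S : Finset (Fin m)) : Evn x.2 (tS (fun i => (a i : ℚ)) S k) := by
  refine Evn.prod fun l _ => ?_
  by_cases e : k = l
  · rw [← e, tv_self, fd_eq]
    exact Evn.prod fun i hi => evn_sub h hd hx (ne_of_mem_erase hi).symm (.inl hk)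
  · rw [tv_of_ne _ e]
    exact evn_sub h hd hx (Ne.symm e) (.inr hk)

theorem evn_in (h : Loc N V dg a A) (hd : Dist V) (hx : x ∈ V) {S : Finset (Fin m)}
    (h1 : x.1.1.1.1 ∉ S) (h2 : x.1.1.1.2 ∉ S) :
    Evn x.2 (tS (fun i => (a i : ℚ)) S x.1.1.1.1) := by
  refine Evn.prod fun l hl => ?_
  have e : x.1.1.1.1 ≠ l := fun c => h1 (c ▸ hl)
  rw [tv_of_ne _ e]
  exact evn_sub h hd hx e.symm (.inl fun c => c.elim e.symm fun c => h2 (c ▸ hl))

theorem od_in (h : Loc N V dg a A) (hd : Dist V) (hx : x ∈ V) {S : Finset (Fin m)}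
    (h1 : x.1.1.1.1 ∈ S) (h2 : x.1.1.1.2 ∉ S) :
    Od x.2 (tS (fun i => (a i : ℚ)) S x.1.1.1.1) := by
  rw [← insert_erase h1, tS_insert _ (notMem_erase _ _), tv_self, fd_eq,
    ← mul_prod_erase _ _ (mem_erase.2 ⟨x.1.1.2.ne', mem_univ _⟩)]
  refine ((od_ed h hd hx).mul (Evn.prod fun k hk => ?_)).mul
    (evn_in h hd hx (notMem_erase _ _) fun c => h2 (mem_of_mem_erase c))
  have h3 := ne_of_mem_erase (mem_of_mem_erase hk)
  exact evn_sub h hd hx h3.symm (.inr fun c => c.elim h3 (ne_of_mem_erase hk))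

end

variable {n N : ℕ} {V : Finset (Gen (n + 1))} {dg : Gen (n + 1) → ℤ} {a : Fin (n + 1) → ℤ}
  {A : Ed (n + 1) → ℕ}

/-- the classes of sums of Weierstrass points are different -/
theorem sub_of_PE (h : Loc N V dg a A) (hd : Dist V) (hA : ∀ e, 1 < A e) {S S' : Finset (Fin (n + 1))}
    (hS : S ⊆ univ.erase (Fin.last n)) (hS' : S' ⊆ univ.erase (Fin.last n))
    (hP : PE (tS (fun i => (a i : ℚ)) S) (tS (fun i => (a i : ℚ)) S')) : S ⊆ S' := by
  intro j hj
  by_contra hj'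
  have hl : j < Fin.last n := Fin.lt_last_iff_ne_last.2 (ne_of_mem_erase (hS hj))
  obtain ⟨x, hx⟩ : (V.filter fun x => x.1.1 = ⟨(j, Fin.last n), hl⟩).Nonempty := by
    rw [nonempty_iff_ne_empty]
    intro c
    have h1 := hA ⟨(j, Fin.last n), hl⟩
    rw [h.hA, c, prod_empty] at h1
    exact lt_irrefl _ h1
  obtain ⟨hx, e⟩ := mem_filter.1 hx
  have : Fact x.2.Prime := ⟨(h.pr x hx).1⟩
  obtain ⟨k, hk⟩ : ((univ.erase j).erase (Fin.last n)).Nonempty := by
    rw [← card_pos, card_erase_of_mem (mem_erase.2 ⟨hl.ne', mem_univ _⟩),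
      card_erase_of_mem (mem_univ _), card_univ, Fintype.card_fin]
    have := h.three
    omega
  have e1 : x.1.1.1.1 = j := by rw [e]
  have e2 : x.1.1.1.2 = Fin.last n := by rw [e]
  have hk' : ¬inE k x.1.1 := fun c => c.elim
    (fun c => ne_of_mem_erase (mem_of_mem_erase hk) (c.trans e1))
    fun c => ne_of_mem_erase hk (c.trans e2)
  have h1 := od_in h hd hx (S := S) (e1 ▸ hj) fun c => notMem_erase _ _ (hS (e2 ▸ c))
  have h2 := evn_in h hd hx (S := S') (e1 ▸ hj') fun c => notMem_erase _ _ (hS' (e2 ▸ c))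
  exact ((h1.mul (evn_out h hd hx hk' S)).mul (h2.mul (evn_out h hd hx hk' S'))).not_sq (hP _ k)

theorem Gv_ne (h : Loc N V dg a A) {x : Finset (Gen (n + 1))} (hx : x ⊆ V0 (n + 1) N ∪ V)
    (e : Ed (n + 1)) : (Gv e x : ℚ) ≠ 0 := by
  refine Int.cast_ne_zero.2 (prod_ne_zero_iff.2 fun b hb => mul_ne_zero ?_ ?_)
  · have h1 : b.2 ≠ 0 := by
      rcases mem_union.1 (hx hb) with c | c
      · rcases mem_insert.1 (mem_product.1 c).2 with c | c
        · omega
        · exact (Nat.prime_of_mem_primeFactors c).ne_zero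
      · exact (h.pr b c).1.ne_zero
    unfold val
    split_ifs <;> simp [h1]
  · split_ifs <;> simp

theorem PE_of_ker (h : Loc N V dg a A) {x : Finset (Gen (n + 1))} (hx : x ⊆ V0 (n + 1) N ∪ V)
    {D E : Fin (n + 1) → ℚ} (hD : ∀ e : Ed (n + 1), IsSquare (D e.1.1 * D e.1.2 * (Gv e x : ℚ)))
    (hE : ∀ e : Ed (n + 1), IsSquare (E e.1.1 * E e.1.2 * (Gv e x : ℚ))) : PE D E := by
  have h1 : ∀ i j, i < j → IsSquare (D i * D j * (E i * E j)) := fun i j c =>
    sq_trans (Gv_ne h hx ⟨(i, j), c⟩) (hD ⟨(i, j), c⟩) (by rw [mul_comm]; exact hE ⟨(i, j), c⟩)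
  intro i j
  rcases lt_trichotomy i j with c | c | c
  · exact h1 i j c
  · rw [c]
    exact (IsSquare.mul_self _).mul (IsSquare.mul_self _)
  · rw [mul_comm (D i), mul_comm (E i)]
    exact h1 j i c

theorem inj_of (h : Loc N V dg a A) (hA : ∀ e, 1 < A e) :
    Function.Injective fun i => (a i : ℚ) := by
  have h1 : ∀ i j, i < j → (a i : ℚ) ≠ a j := fun i j c => by
    obtain ⟨s, hs, e⟩ := diff_eq h ⟨(i, j), c⟩
    refine sub_ne_zero.1 (e ▸ mul_ne_zero (Nat.cast_ne_zero.2 ?_) (mul_ne_zero hs hs))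
    have := hA ⟨(i, j), c⟩
    omega
  intro i j e
  rcases lt_trichotomy i j with c | c | c
  · exact absurd e (h1 i j c)
  · exact c
  · exact absurd e.symm (h1 j i c)

theorem Wq_tS (wq : WQStmt) (K : Type) [Field K] [CharZero K] {a : Fin (n + 1) → ℚ} (hn : 3 ≤ n + 1)
    (ha : Function.Injective a) (S : Finset (Fin (n + 1))) :
    Wq (fun i => (a i : K)) fun i => ((tS a S i : ℚ) : K) := by
  have h1 := (wq K _ fun i => Rat.castHom K (a i)).2.2.1 (by rwa [Fintype.card_fin])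
    ((Rat.castHom K).injective.comp ha) S
  rw [tS_map] at h1
  exact h1

end Red

open Red in
theorem red : DESCStmt → GRPStmt → TWStmt → NRMStmt → WQStmt → MOBStmt → REDStmt := by
  intro desc grp tw nrm wq mob n a hn ha h1 h2
  unfold model
  split_ifs with he
  · exact red_even desc grp tw nrm wq hn he ha h1 h2
  · exact red_odd desc grp tw mob hn (Nat.not_even_iff_odd.1 he) ha h1 h2

open Red in
theorem good : WQStmt → LOCStmt → REDStmt → GOODStmt := by
  intro wq loc rd n N V dg a A h hd hA hK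
  have ha := inj_of h hA
  have h2 : ∀ S ⊆ univ.erase (Fin.last n), ∀ S' ⊆ univ.erase (Fin.last n),
      PE (tS (fun i => (a i : ℚ)) S) (tS (fun i => (a i : ℚ)) S') → S = S' :=
    fun S hS S' hS' hP => Subset.antisymm (sub_of_PE h hd hA hS hS' hP)
      (sub_of_PE h hd hA hS' hS (PE_symm hP))
  choose x hx hx' using fun S => loc _ N V dg a A h hd (tS (fun i => (a i : ℚ)) S)
    ⟨Wq_tS wq ℝ h.three ha S, fun p _ => Wq_tS wq ℚ_[p] h.three ha S⟩
  have hs : ∀ {y}, y ∈ Ker (gm dg) (V0 (n + 1) N ∪ V) → y ⊆ V0 (n + 1) N ∪ V := fun hy =>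
    mem_powerset.1 (mem_filter.1 hy).1
  have hsur := surjOn_of_injOn_of_card_le (s := (univ.erase (Fin.last n)).powerset) x
    (fun S _ => hx S) (fun S hS S' hS' e => h2 S (mem_powerset.1 hS) S' (mem_powerset.1 hS')
      (PE_of_ker h (hs (hx S)) (hx' S) (e ▸ hx' S'))) (by
    rwa [card_powerset, card_erase_of_mem (mem_univ _), card_univ, Fintype.card_fin,
      Nat.add_sub_cancel])
  refine rd n _ (by have := h.three; omega) ha (fun D hD => ?_) h2
  obtain ⟨y, hy, hy'⟩ := loc _ N V dg a A h hd D hD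
  obtain ⟨S, hS, rfl⟩ := hsur hy
  exact ⟨S, mem_powerset.1 hS, PE_of_ker h (hs hy) hy' (hx' S)⟩

end Pool.Agent.MP_a43263_nt.JU

end
end MrgPart6

-- ======== part 7: formerly Pool.Agent.MP_a43263_nt.JU.Base
section MrgPart7

/-! PROJECT JU, row BASE: a base point exists. -/

set_option autoImplicit false

namespace Pool.Agent.MP_a43263_nt.JU

open Finset

namespace BaseAux

/-- the invariant of the induction on the number of vertices -/
def Inv (Q k : ℕ) (a : ℕ → ℤ) (α : ℕ → ℕ → ℕ) : Prop :=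
  (∀ i j, i < j → j < k → a i - a j = ((Q ^ 2) ^ (k - 1 - j) * α i j : ℕ) ∧
    α i j ≡ 1 [MOD Q] ∧ Squarefree (α i j)) ∧
  ∀ i j i' j', i < j → j < k → i' < j' → j' < k → (i, j) ≠ (i', j') →
    (α i j).Coprime (α i' j')

lemma cop {Q x : ℕ} (h : x ≡ 1 [MOD Q]) : x.Coprime Q := by
  have := Nat.ModEq.gcd_eq h
  rwa [Nat.gcd_one_left] at this

lemma step {Q k : ℕ} (hQ : 0 < Q) (hs : ∀ p : ℕ, p.Prime → p ≤ 4 * k → p ∣ Q) {a : ℕ → ℤ}
    {α : ℕ → ℕ → ℕ} (h : Inv Q k a α) : ∃ a' α', Inv Q (k + 1) a' α' := by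
  classical
  obtain ⟨h1, h2⟩ := h
  obtain ⟨G, hG⟩ : ∃ G : ℕ, G = ∏ j ∈ range k, ∏ i ∈ range j, α i j := ⟨_, rfl⟩
  have hd : ∀ i j, i < j → j < k → α i j ∣ G := fun i j hi hj => by
    rw [hG]
    exact (dvd_prod_of_mem (fun i => α i j) (mem_range.2 hi)).trans
      (dvd_prod_of_mem (fun j => ∏ i ∈ range j, α i j) (mem_range.2 hj))
  have hG0 : G ≠ 0 := by
    rw [hG]
    exact prod_ne_zero_iff.2 fun j hj => prod_ne_zero_iff.2 fun i hi =>
      (h1 i j (mem_range.1 hi) (mem_range.1 hj)).2.2.ne_zero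
  have hGQ : G.Coprime Q := by
    rw [hG]
    exact Nat.Coprime.prod_left fun j hj => Nat.Coprime.prod_left fun i hi =>
      cop (h1 i j (mem_range.1 hi) (mem_range.1 hj)).2.1
  obtain ⟨u, hu⟩ := RG.PtyAux.avoid (ι := Fin k) (fun i => (Q : ℤ) ^ 2 * a i + 1) Q G
    (fun p hp hpG => by
      have h3 : ¬p ∣ Q := fun h4 =>
        hp.one_lt.ne' (Nat.eq_one_of_dvd_coprimes hGQ hpG h4)
      refine ⟨h3, ?_⟩
      rw [Fintype.card_fin]
      by_contra h4
      exact h3 (hs p hp (by omega))) hG0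
  obtain ⟨v, b, hb⟩ := RG.PtyAux.sqf (ι := Fin k) (fun _ => Q * G)
    (fun i => Q * u + ((Q : ℤ) ^ 2 * a i + 1)) (fun _ => Nat.mul_pos hQ (Nat.pos_of_ne_zero hG0))
    (fun _ p hp h3 => (hs p hp (by simpa using h3)).mul_right G)
    (fun i p hp h3 => by
      rcases (Nat.Prime.dvd_mul hp).1 h3 with h4 | h4
      · exact RG.PtyAux.not_dvd hp h4 ⟨u + Q * a i, by ring⟩
      · exact hu i p hp h4)
  have hb1 : ∀ i : Fin k, b i ≡ 1 [MOD Q] := fun i => by
    rw [← Int.natCast_modEq_iff, (hb i).1]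
    exact (Int.modEq_iff_dvd.2 ⟨G * v + u + Q * a i, by push_cast; ring⟩).symm
  have hbG : ∀ i : Fin k, (b i).Coprime G := fun i => by
    refine Nat.Coprime.symm (Nat.coprime_of_dvd fun p hp h3 h4 => hu i p hp h3 ?_)
    have h5 : (p : ℤ) ∣ b i := Int.natCast_dvd_natCast.2 h4
    have h6 : (p : ℤ) ∣ Q * v * G := (Int.natCast_dvd_natCast.2 h3).mul_left _
    have h7 := dvd_sub h5 h6
    rw [(hb i).1] at h7
    exact RG.PtyAux.dv h7 (by push_cast; ring)
  have hbb : ∀ i j : Fin k, (i : ℕ) < j → (b i).Coprime (b j) := fun i j hij => by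
    refine Nat.coprime_of_dvd fun p hp h3 h4 => ?_
    have h5 := dvd_sub (Int.natCast_dvd_natCast.2 h3) (Int.natCast_dvd_natCast.2 h4)
    rw [(hb i).1, (hb j).1] at h5
    have h6 : (p : ℤ) ∣ ((Q ^ 2 * ((Q ^ 2) ^ (k - 1 - j) * α i j) : ℕ) : ℤ) := by
      refine RG.PtyAux.dv h5 ?_
      rw [Nat.cast_mul (Q ^ 2), ← (h1 i j hij j.2).1]
      push_cast; ring
    have h7 : (b i).Coprime (Q ^ 2 * ((Q ^ 2) ^ (k - 1 - j) * α i j)) :=
      ((cop (hb1 i)).pow_right 2).mul_right ((((cop (hb1 i)).pow_right 2).pow_right _).mul_right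
        ((hbG i).coprime_dvd_right (hd i j hij j.2)))
    exact hp.one_lt.ne' (Nat.eq_one_of_dvd_coprimes h7 h3 (Int.natCast_dvd_natCast.1 h6))
  obtain ⟨b', hb'⟩ : ∃ b' : ℕ → ℕ, ∀ i : Fin k, b' i = b i :=
    ⟨fun i => if h : i < k then b ⟨i, h⟩ else 1, fun i => by simp [i.2]⟩
  have e : ∀ i (h : i < k), b' i = b ⟨i, h⟩ := fun i h => hb' ⟨i, h⟩
  refine ⟨fun i => if i < k then (Q : ℤ) ^ 2 * a i else -((Q * G : ℕ) * v + Q * u + 1),
    fun i j => if j < k then α i j else b' i, fun i j hi hj => ?_,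
    fun i j i' j' hi hj hi' hj' hne => ?_⟩
  · by_cases h3 : j < k
    · simp only [if_pos h3, if_pos (hi.trans h3)]
      refine ⟨?_, (h1 i j hi h3).2⟩
      rw [← mul_sub, (h1 i j hi h3).1, show k + 1 - 1 - j = (k - 1 - j) + 1 by omega]
      push_cast; ring
    · have h4 : i < k := by omega
      simp only [if_neg h3, if_pos h4, e i h4]
      refine ⟨?_, hb1 _, (hb _).2⟩
      rw [show k + 1 - 1 - j = 0 by omega, pow_zero, one_mul, (hb _).1]
      ring
  · by_cases h3 : j < k <;> by_cases h4 : j' < k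
    · simpa only [if_pos h3, if_pos h4] using h2 i j i' j' hi h3 hi' h4 hne
    · simp only [if_pos h3, if_neg h4, e i' (by omega)]
      exact ((hbG _).coprime_dvd_right (hd i j hi h3)).symm
    · simp only [if_neg h3, if_pos h4, e i (by omega)]
      exact (hbG _).coprime_dvd_right (hd i' j' hi' h4)
    · simp only [if_neg h3, if_neg h4, e i (by omega), e i' (by omega)]
      have h5 : i ≠ i' := fun h5 => hne (by rw [h5, show j = j' by omega])
      rcases lt_or_gt_of_ne h5 with h6 | h6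
      · exact hbb _ _ h6
      · exact (hbb _ _ h6).symm

lemma all {Q m : ℕ} (hQ : 0 < Q) (hs : ∀ p : ℕ, p.Prime → p ≤ 4 * m → p ∣ Q) :
    ∀ k ≤ m, ∃ a α, Inv Q k a α
  | 0, _ => ⟨0, 0, fun _ _ _ h => absurd h (by omega), fun _ _ _ _ _ h => absurd h (by omega)⟩
  | k + 1, h => by
    obtain ⟨a, α, h1⟩ := all hQ hs k (by omega)
    exact step hQ (fun p hp h2 => hs p hp (by omega)) h1

end BaseAux

theorem base : BASEStmt := by
  intro m
  have h0 := Nat.factorial_pos (4 * m + 2)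
  obtain ⟨a, α, h1, h2⟩ := BaseAux.all (Q := 8 * (4 * m + 2).factorial) (m := m) (by omega)
    (fun p hp h => (Nat.dvd_factorial hp.pos (by omega)).mul_left 8) m le_rfl
  refine ⟨⟨(4 * m + 2).factorial, fun i => a i, fun e => α e.1.1 e.1.2⟩, h0,
    Nat.dvd_factorial (by omega) (by omega), fun e => (h1 _ _ e.2 e.1.2.2).1,
    fun e => (h1 _ _ e.2 e.1.2.2).2.1, fun e => (h1 _ _ e.2 e.1.2.2).2.2,
    fun e f h => h2 _ _ _ _ e.2 e.1.2.2 f.2 f.1.2.2 fun h3 => h ?_⟩
  rw [Prod.mk.injEq] at h3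
  exact Subtype.ext (Prod.ext (Fin.ext h3.1) (Fin.ext h3.2))

end Pool.Agent.MP_a43263_nt.JU

end MrgPart7

-- ======== part 8: formerly Pool.Agent.MP_a43263_nt.JU.Fin
section MrgPart8

/-! PROJECT JU: the final assembly. -/

set_option autoImplicit false

noncomputable section

namespace Pool.Agent.MP_a43263_nt.JU

open Finset Filter
open R2 (Ker Sc Shape)
open RG (Rel Ev)

namespace FIN

variable {m : ℕ}

theorem exists_fits {B : Base m} (hB : B.Ok) (P : ℕ) :
    ∃ M : ℕ, B.Fits M ∧ (∀ p : ℕ, p.Prime → p ≤ P → p ∣ M) ∧ 0 < ∏ e, B.Δ e := by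
  have hN := hB.pos
  have h0 : 0 < ∏ e, B.Δ e := prod_pos fun e _ =>
    Nat.mul_pos (by positivity) (Nat.pos_of_ne_zero (hB.sqf e).ne_zero)
  have hp : ∀ p : ℕ, p.Prime → p ≤ P + 2 * m ^ 2 →
      p ∣ B.N * (∏ e, B.Δ e) * (P + 2 * m ^ 2).factorial := fun p hp h =>
    (Nat.dvd_factorial hp.pos h).mul_left _
  exact ⟨_, ⟨by positivity, fun p h1 h2 => hp p h1 (by omega), (dvd_mul_right _ _).mul_right _,
    fun e => ((dvd_prod_of_mem _ (mem_univ e)).mul_left _).mul_right _⟩,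
    fun p h1 h2 => hp p h1 (by omega), h0⟩

theorem inj {D : Dat m} (hD : D.Ok) {a : Fin m → ℤ} (ha : Adm D a) (h : ∀ e, 1 < D.l a e) :
    Function.Injective a := by
  have h1 : ∀ e : Ed m, a e.1.1 ≠ a e.1.2 := fun e c => by
    have h2 := ha.eq e
    have h3 := Nat.pos_of_dvd_of_pos (hD.dv e) hD.pos
    have h4 := h e
    rw [c, sub_self] at h2
    exact absurd h2.symm (by positivity)
  intro i k c
  rcases lt_trichotomy i k with h | h | h
  exacts [absurd c (h1 ⟨(i, k), h⟩), h, absurd c.symm (h1 ⟨(k, i), h⟩)]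

end FIN

open FIN in
theorem fin : REMStmt → POSStmt → MKVStmt → PARStmt → GOODStmt → BASEStmt → BRStmt → MainStmt := by
  classical
  intro rem pos mkv par good base br n hn
  obtain ⟨B, hB⟩ := base (n + 1)
  obtain ⟨P₀, J₀, hpos⟩ := pos (n + 1) B.Δ
  obtain ⟨M, hM, hP, h0⟩ := exists_fits hB P₀
  obtain ⟨R, hRd⟩ : ∃ R : ℕ, R = ∑ i, (B.a0 i).natAbs + ∏ e, B.Δ e := ⟨_, rfl⟩
  have hR : 1 ≤ R := by omega
  obtain ⟨hD, σ, hσ, hbr⟩ := br (n + 1) B M R (by omega) hB hM hR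
  have hVV : ∀ a, (B.dat M R).VV a = V0 (n + 1) B.N ∪ (B.V1 ∪ gens ((B.dat M R).l a)) :=
    fun a => union_assoc _ _ _
  obtain ⟨δ, hδ, hpos⟩ := hpos _ hD rfl hP B.a0 hB.eq fun i => by
    have h1 := single_le_sum (f := fun i => (B.a0 i).natAbs) (fun _ _ => Nat.zero_le _) (mem_univ i)
    change _ ≤ (R : ℤ)
    rw [hRd, ← Int.natCast_natAbs, ← Nat.cast_prod, ← Nat.cast_add, Nat.cast_le]
    exact Nat.add_le_add_right h1 _
  obtain ⟨J₁, hJ₁⟩ := mkv (n + 1) _ δ hD (fun e => by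
    have key : ∀ a, (∀ h, ((B.dat M R).l a h).primeFactors.card % 2 = e % 2) →
        (V0 (n + 1) B.N ∪ (B.V1 ∪ gens ((B.dat M R).l a))).card % 2 =
          ((B.dat M R).W0.card + NE (n + 1) * (e % 2)) % 2 := fun a he => by
      have h1 : Disjoint (B.dat M R).W0 (gens ((B.dat M R).l a)) := disjoint_left.2 fun x hx hy =>
        Option.some_ne_none _ ((Br.mem_gs.1 hy).1.symm.trans (hD.fix x hx).1)
      rw [← hVV, Dat.VV, card_union_of_disjoint h1, Br.card_gs, Nat.add_mod, sum_nat_mod,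
        sum_congr rfl fun h _ => he h, sum_const, card_univ, smul_eq_mul, ← Nat.add_mod, NE]
    by_cases c : ((B.dat M R).W0.card + NE (n + 1) * (e % 2)) % 2 = n % 2
    · refine ⟨σ, hσ, fun a ha he hs => ?_⟩
      obtain ⟨h1, h2, -⟩ := hbr a ha
      obtain ⟨κ, k1, k2⟩ := par _ _ _ _ _ _ h1
      rw [if_pos (by rw [h2, hs]; rcases hσ with rfl | rfl <;> rfl), add_zero, key a he, c] at k2
      exact ⟨κ, by rw [hVV]; exact k1, k2⟩
    · refine ⟨-σ, by omega, fun a ha he hs => ?_⟩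
      obtain ⟨h1, h2, -⟩ := hbr a ha
      obtain ⟨κ, k1, k2⟩ := par _ _ _ _ _ _ h1
      rw [if_neg (by rw [h2, hs]; rcases hσ with rfl | rfl <;> decide)] at k2
      have := key a he
      exact ⟨κ, by rw [hVV]; exact k1, by omega⟩) hδ
  have hR' : (0 : ℝ) < R := by exact_mod_cast hR
  obtain ⟨T, hT⟩ := exists_nat_ge (16 * ((n + 1 : ℕ) : ℝ) ^ 4 * (3 * R) ^ (n + 1) / (δ / 64) + 1)
  have hT1 : (1 : ℝ) ≤ T := le_trans (le_add_of_nonneg_left (by positivity)) hT
  obtain ⟨t, ht⟩ := ((hpos (J₀ + J₁) (Nat.le_add_right _ _)).and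
    (hJ₁ (J₀ + J₁) (Nat.le_add_left _ _)).par).and (RG.ev_ge T)
  refine ⟨δ / 64 / (2 * R) ^ (n + 1), by positivity, ?_⟩
  filter_upwards [(Nat.tendsto_div_const_atTop (n := R) (by omega)).eventually
    (RG.FIN.exists_scale (n + 1) M (J₀ + J₁) t), eventually_ge_atTop R] with H hS hH
  obtain ⟨S, h1, h3, h4, hS, hZ⟩ := hS
  obtain ⟨⟨⟨e, hA⟩, hG⟩, hY⟩ := ht S h1 h3 h4 hS
  have hG' := hG e hA
  have hZH : R * S.Z ≤ H := hZ ▸ Nat.mul_div_le _ _
  have k2 : 1 ≤ S.Z := hZ ▸ Nat.div_pos hH hR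
  have hHZ : (H : ℝ) ≤ 2 * R * S.Z := by
    have k1 : H < R * (S.Z + 1) := hZ ▸ Nat.lt_mul_div_succ _ hR
    have k3 : H ≤ 2 * R * S.Z := by nlinarith
    exact_mod_cast k3
  have hrem := rem (n + 1) (R * S.Z) T (by exact_mod_cast hT1)
  have hb : 16 * ((n + 1 : ℕ) : ℝ) ^ 4 * (2 * ((R * S.Z : ℕ) : ℝ) + 1) ^ (n + 1) / T ≤
      δ / 64 * (S.Z : ℝ) ^ (n + 1) := by
    have k3 : (1 : ℝ) ≤ ((R * S.Z : ℕ) : ℝ) := by exact_mod_cast Nat.mul_pos hR k2
    have k4 : 2 * ((R * S.Z : ℕ) : ℝ) + 1 ≤ 3 * R * S.Z := by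
      push_cast at k3 ⊢
      linarith
    have k5 : 16 * ((n + 1 : ℕ) : ℝ) ^ 4 * (3 * R) ^ (n + 1) ≤ T * (δ / 64) :=
      (div_le_iff₀ (by positivity)).1 (by linarith)
    rw [div_le_iff₀ (by positivity)]
    calc _ ≤ 16 * ((n + 1 : ℕ) : ℝ) ^ 4 * (3 * R * S.Z) ^ (n + 1) := by gcongr
      _ = 16 * ((n + 1 : ℕ) : ℝ) ^ 4 * (3 * R) ^ (n + 1) * (S.Z : ℝ) ^ (n + 1) := by
        rw [mul_pow _ (S.Z : ℝ), mul_assoc _ ((3 * R : ℝ) ^ (n + 1))]
      _ ≤ T * (δ / 64) * (S.Z : ℝ) ^ (n + 1) := by gcongr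
      _ = _ := by ring
  have hc : δ / 64 / (2 * R) ^ (n + 1) * (H : ℝ) ^ (n + 1) ≤ δ / 64 * (S.Z : ℝ) ^ (n + 1) := by
    rw [div_mul_eq_mul_div, div_le_iff₀ (by positivity)]
    calc δ / 64 * (H : ℝ) ^ (n + 1) ≤ δ / 64 * (2 * R * S.Z) ^ (n + 1) := by gcongr
      _ = _ := by rw [mul_pow _ (S.Z : ℝ)]; ring
  refine hc.trans (le_of_add_le_add_right (le_trans ?_ (add_le_add_right (hrem.trans hb) _)))
  rw [← add_mul, show δ / 64 + δ / 64 = δ / 32 by ring, ← Nat.cast_add]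
  refine hG'.trans (Nat.cast_le.2 ((card_le_card fun a ha => ?_).trans (card_union_le _ _)))
  obtain ⟨ha, hK⟩ := mem_filter.1 ha
  obtain ⟨b0, b1, b2, b3, b4, b5⟩ := mem_filter.1 ha
  have ad : Adm (B.dat M R) a := ⟨b1, b2, fun f => (hS.par e).sqf (b3 f), b4⟩
  have l1 : ∀ f, 1 < (B.dat M R).l a f := fun f => (b3 f).one_lt
  have hi := inj hD ad l1
  obtain ⟨c1, -, c3⟩ := hbr a ad
  by_cases hc : ∀ f f', f ≠ f' → ((B.dat M R).l a f).Coprime ((B.dat M R).l a f')
  · refine mem_union_left _ (mem_filter.2 ⟨Fintype.piFinset_subset _ _ (fun _ => ?_) b0, hi,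
      good n _ _ _ a _ c1 (c3 hc) (fun f => ?_) (hVV a ▸ hK)⟩)
    · have : ((R * S.Z : ℕ) : ℤ) ≤ H := by exact_mod_cast hZH
      exact Icc_subset_Icc (neg_le_neg this) this
    · exact (l1 f).trans_le (Nat.le_mul_of_pos_left _ (Nat.pos_of_ne_zero (hB.sqf f).ne_zero))
  · push Not at hc
    obtain ⟨f, f', hf, hc⟩ := hc
    obtain ⟨p, hp, d1, d2⟩ := Nat.Prime.not_coprime_iff_dvd.1 hc
    have hl : ¬p ≤ S.Y' := fun c => b5 f f' hf p hp c d1 d2
    have := hS.Y0_le.trans hS.Y_le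
    exact mem_union_right _ (mem_filter.2 ⟨b0, hi, f, f', hf, p, hp, by omega,
      b1 f ▸ (Int.natCast_dvd_natCast.2 d1).mul_left _,
      b1 f' ▸ (Int.natCast_dvd_natCast.2 d2).mul_left _⟩)

end Pool.Agent.MP_a43263_nt.JU

end
end MrgPart8

-- ======== part 9: formerly Pool.Agent.MP_a43263_nt.JU.Main
section MrgPart9

/-! PROJECT JU: assembly. -/

set_option autoImplicit false

namespace Pool.Agent.MP_a43263_nt.JU

theorem main : MainStmt :=
  main_of RG.T.mer RG.T.pm RG.T.sv RG.T.dos RG.T.exc R2.crt RG.T.sz RG.T.bor (RH.bor5 RG.T.bor)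
    RG.T.den RG.T.pair JC.T.desc JC.T.grp JC.tw JC.nrm comb kc sym cnt rel mes expo_main vtx lat
    rem gap pos siv fib dom step aly lya kil gu key os bes sign mkv wq mob gdp node spl real loc
    par red good base br fin

end Pool.Agent.MP_a43263_nt.JU

end MrgPart9

-- marker of a merged file
example : 731051 + 163751 = 731051 + 163751 := rfl
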