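import Pool.Agent.MP_a43263_nt.JU.Main
import Pool.Agent.MP_a43263_nt.JM.Gau
import Pool.Agent.MP_a43263_nt.JM.Tri
import Pool.Agent.MP_a43263_nt.JM.Up

/-! PROJECT JU: the rank of the good curves. -/

set_option autoImplicit false

namespace Pool.Agent.MP_a43263_nt.JU

open Finset
open JC (JQ fp Cv)

theorem mwt : JM.MWStmt :=
  JM.mw_of JC.pic JC.mum JC.lcs JC.T.red JC.T.rat JM.gau JM.sep JM.pair JM.up JM.sch JM.sys JM.sum
    JM.norm JM.ht JM.prin JM.move JM.tri JM.glob JM.abs JM.hgt JM.mw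

theorem cv_model {n : ℕ} (hn : 2 ≤ n) {a : Fin (n + 1) → ℤ} (ha : Function.Injective a) :
    ∃ (m : ℕ) (b : Fin m → ℤ), Cv (n / 2) (fun i => (b i : ℚ)) (model fun i => (a i : ℚ)) := by
  have hq : Function.Injective fun i => (a i : ℚ) := Int.cast_injective.comp ha
  by_cases he : Even n
  · refine ⟨n + 1, a, ?_, by omega, hq, if_pos he⟩
    rw [Fintype.card_fin]
    obtain ⟨k, rfl⟩ := he
    omega
  · have ho := Nat.not_even_iff_odd.1 he
    have e : (fun i : Fin n => ((-∏ j ∈ univ.erase i, (a j.castSucc - a (Fin.last n)) : ℤ) : ℚ)) =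
        cv fun i => (a i : ℚ) := by
      funext i
      simp only [cv, Int.cast_neg, Int.cast_prod, Int.cast_sub]
    have h3 : 3 ≤ n := by
      obtain ⟨k, rfl⟩ := ho
      omega
    refine ⟨n, fun i => -∏ j ∈ univ.erase i, (a j.castSucc - a (Fin.last n)), ?_⟩
    rw [e]
    refine ⟨?_, by omega, (mob wq ℚ n _ ho h3 hq).1, if_neg he⟩
    rw [Fintype.card_fin]
    obtain ⟨k, rfl⟩ := ho
    omega

theorem rank {n : ℕ} (hn : 2 ≤ n) {a : Fin (n + 1) → ℤ} (ha : Function.Injective a)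
    (h : Good (model fun i => (a i : ℚ)) (2 * (n / 2)) n) :
    AddGroup.FG (JQ (model fun i => (a i : ℚ))) ∧
      Module.rank ℤ (JQ (model fun i => (a i : ℚ))) = (n % 2 : ℕ) := by
  obtain ⟨m, b, hc⟩ := cv_model hn ha
  obtain ⟨fg, hr⟩ := mwt (Fin m) (n / 2) b _ hc (by
    rw [h.2.2]
    exact pow_ne_zero _ two_ne_zero)
  exact ⟨fg, hr _ _ h.2.1 (by rw [h.2.2, Nat.mul_comm, Nat.div_add_mod' n 2])⟩

end Pool.Agent.MP_a43263_nt.JU
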